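import Mathlib
import Pool.Agent.Helper39.MH.EulerS

/-!
MP_16b0ee, project HR2 (exponential square integrability for every exponent below two thirds, for
the whole class Sigma): common definitions. As in the project MH everything lives in the unit disc
(coordinate `1/z`): `H = log psi'(1/z)`; now `G = exp (s H)` with a complex exponent `s`, `|s| < 1`.
-/

set_option autoImplicit false

open MeasureTheory Set Metric Filter Topology
open scoped Real ComplexConjugate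

namespace Pool.Agent.Helper24.HR2

open Pool.Agent.Helper22.Half
open Pool.Agent.Helper22.Marshall (coeff SepHol LogPhi dcoeff GLe)
open Pool.Agent.Helper39.Area (Ext phi)
open Pool.Agent.Helper39.MH

/-- the class of data: dilated maps of the class, with Goluzin's bound -/
structure Dat (ρ : ℝ) (β H : ℂ → ℂ) (Φ : ℂ → ℂ → ℂ) : Prop extends Data ρ β H Φ where
  gol : ∀ z ∈ ball (0 : ℂ) 1, ‖H z‖ ≤ Real.log (1 / (1 - ‖z‖ ^ 2))

/-- weighted area integral with the density `|exp (s H)|^2 (1-|z|^2)^(b-1)` -/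
noncomputable def LS (s : ℂ) (H : ℂ → ℂ) (b : ℝ) (f : ℂ → ℝ) : ℝ :=
  (1 / π) * ∫ z in ball (0 : ℂ) 1,
    (1 - ‖z‖ ^ 2) ^ (b - 1) * ‖Complex.exp (s * H z)‖ ^ 2 * f z

/-- the relation polynomial of the pair `(A, B)` -/
noncomputable def relS (s : ℂ) (b : ℝ) (c : ℕ → ℂ) (A B : List ℕ) : ℂ :=
  DGs s c A * conj (ev c B) - ((b + wt A + wt B : ℝ) : ℂ) * (ev c A * conj (ev c B))

/-- the function `exp (s H) * A`, `A` a monomial in the jets -/
noncomputable def FA (s : ℂ) (H : ℂ → ℂ) (A : List ℕ) (z : ℂ) : ℂ :=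
  Complex.exp (s * H z) * ev (fun k => gg H k z) A

/-- leading parts (weight `2 r`) of the even moments of the antidiagonals -/
noncomputable def XS (s : ℂ) (c : ℕ → ℂ) : ℕ → ℂ
  | 0 => 1
  | 1 => s * (c 0 ^ 2 - c 1) / 2
  | 2 => 3 / 4 * (s ^ 2 - s) * (c 0 ^ 2 - c 1) ^ 2
      + 3 / 2 * s * (-(c 3) + c 1 ^ 2 + 2 * c 0 * c 2 - 3 * c 0 ^ 2 * c 1 + c 0 ^ 4)
  | _ => 0

/-- the lower order part of the second moment -/
noncomputable def low2S (s : ℂ) (g : ℕ → ℂ) : ℂ := 1 / 3 * s * g 0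

/-- the lower order part of the fourth moment -/
noncomputable def low4S (s : ℂ) (g : ℕ → ℂ) : ℂ :=
  s * (6 / 5 * g 2 - 7 / 5 * g 0 * g 1 + 1 / 5 * g 0 ^ 3 - 1 / 5 * g 1 - 2 / 15 * g 0 ^ 2
      - 1 / 15 * g 0)
    + s ^ 2 * (-(g 0 * g 1) + g 0 ^ 3 + 1 / 3 * g 0 ^ 2)

/-- the Pochhammer symbol -/
noncomputable def poch (x : ℝ) (n : ℕ) : ℝ := ∏ k ∈ Finset.range n, (x + k)

/-- the area form in the scaled variables (fixed exponent) -/
noncomputable def qS (Q : ℕ → ℕ → ℂ) (s : ℂ) (b : ℝ) (c : ℕ → ℂ) : ℝ :=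
  b * (b + 1) * (b + 2) * ∑ r ∈ Finset.range 3, ∑ t ∈ Finset.range 3,
    (Q r t * (XS s c t * conj (XS s c r))).re / poch b (2 * r + 2 * t)

/-- the normalised even moments of an antidiagonal -/
noncomputable def vS (d : ℕ → ℂ) (m r : ℕ) : ℂ :=
  (∑ l ∈ Finset.range (m + 1), d l * ((l : ℂ) - m / 2) ^ (2 * r)) / (m : ℂ) ^ (2 * r)

/-- the functionals `(s+2)_n / (n+1)! * mu_(n+1)`, `mu_j` the moment of order `j` at the end point,
expressed by the central moments -/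
noncomputable def muS (s : ℂ) (K : ℕ) (g : ℕ → ℂ) (n : ℕ) : ℂ :=
  (∏ k ∈ Finset.range n, (s + 2 + k)) / (Nat.factorial (n + 1) : ℂ)
    * ∑ r ∈ Finset.range K, (Nat.choose (n + 1) (2 * r) : ℂ) * (1 / 2) ^ (n + 1 - 2 * r) * g r

/-- the moments of the normalised beta density: `E X^n` -/
noncomputable def Gm (s : ℂ) (b : ℝ) (n : ℕ) : ℝ :=
  ∏ k ∈ Finset.range n, (2 * s.re + 2 + k) / (b + 3 + k)

/-- the quadratic part of the test form -/
noncomputable def gamF (s : ℂ) (b : ℝ) (N : ℕ) (y : ℕ → ℂ) : ℝ :=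
  ∑ n ∈ Finset.range N, ∑ k ∈ Finset.range N, Gm s b (n + k) * (y n * conj (y k)).re

/-- the linear part of the test form -/
noncomputable def linF (s : ℂ) (K N : ℕ) (g y : ℕ → ℂ) : ℝ :=
  2 * (∑ n ∈ Finset.range N, conj (y n) * muS s K g n).re

/-- the upper form (partial sums) -/
noncomputable def Nf (s : ℂ) (b : ℝ) (d : ℕ → ℂ) (m J : ℕ) : ℝ :=
  ∑ j ∈ Finset.range J, ((j : ℝ) + 1) * (pq (b + 1 - 2 * s.re) (m + 1 + j))⁻¹
    * ‖Vd s d m (m + 1 + j)‖ ^ 2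

/-- the limit of the partial products `kap` -/
noncomputable def KS (s : ℂ) : ℝ := ⨆ n, kap s.re (‖s‖ ^ 2) n

/-! discrete quantities: `P = sum |U_i|^2 / aD_i` and
`V_(m+1+j) = (1+s) pq(-s)(m+1+j) / m * (2/(1+s) * sum U_i + sum U_i kD_ij)` for
`U_i = pq(s+2)(m-1-i) V_i` -/

noncomputable def aD (s : ℂ) (b : ℝ) (m i : ℕ) : ℝ :=
  kap s.re (‖s‖ ^ 2) (m - 1 - i) * pq (2 + 2 * s.re) (m - 1 - i) * pq (b + 1 - 2 * s.re) i

noncomputable def bD (s : ℂ) (b : ℝ) (m j : ℕ) : ℝ :=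
  ((j : ℝ) + 1) * ‖(1 + s) * pq (-s) (m + 1 + j)‖ ^ 2 / pq (b + 1 - 2 * s.re) (m + 1 + j)

noncomputable def kD (s : ℂ) (m i j : ℕ) : ℂ := (m : ℂ) / (((j + 1 + i : ℕ) : ℂ) - s)

noncomputable def XD (s : ℂ) (m n i : ℕ) : ℂ :=
  (∏ k ∈ Finset.range n, (s + 1 + k + ((m - i : ℕ) : ℂ))) / (m : ℂ) ^ n

noncomputable def YD (m j : ℕ) : ℝ := (m : ℝ) / (m + 1 + j)

noncomputable def rD (s : ℂ) (D : ℕ) (p : ℕ → ℕ → ℝ) (m i j : ℕ) : ℂ :=
  kD s m i j - ∑ n ∈ Finset.range D, ∑ l ∈ Finset.range D,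
    (p n l : ℂ) * XD s m n i * (YD m j : ℂ) ^ (l + 1)

noncomputable def UD (s : ℂ) (d : ℕ → ℂ) (m i : ℕ) : ℂ := pq (s + 2) (m - 1 - i) * Vd s d m i

/-! the limit densities; the variables are `x = i / m` in `(0, 1)` and `y = j / m` in `(0, ∞)`,
`X = 1 - x`, `Y = 1 / (1 + y)`, and the kernel is `1 / (x + y) = Y / (1 - X Y)` -/

noncomputable def alp (s : ℂ) (b : ℝ) (x : ℝ) : ℝ :=
  (1 - x) ^ (2 * s.re + 1) * x ^ (b - 2 * s.re)

noncomputable def bet (b : ℝ) (y : ℝ) : ℝ := y * (1 + y) ^ (-b - 2)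

noncomputable def B0 (s : ℂ) (b : ℝ) : ℝ := ∫ x in Ioo (0 : ℝ) 1, alp s b x

/-- the constant `|sin (pi s) / pi|^2` -/
noncomputable def cst (s : ℂ) : ℝ := ‖Complex.sin (π * s) / π‖ ^ 2

/-- the main constant -/
noncomputable def Es (s : ℂ) (b : ℝ) : ℝ := cst s * B0 s b

/-- a polynomial kernel: coefficients `p n l` of `X^n Y^(l+1)`, `n, l < D` -/
noncomputable def kp (D : ℕ) (p : ℕ → ℕ → ℝ) (X Y : ℝ) : ℝ :=
  ∑ n ∈ Finset.range D, ∑ l ∈ Finset.range D, p n l * X ^ n * Y ^ (l + 1)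

/-- the remainder of the kernel -/
noncomputable def RR (D : ℕ) (p : ℕ → ℕ → ℝ) (x y : ℝ) : ℝ :=
  1 / (x + y) - kp D p (1 - x) (1 / (1 + y))

/-- the squared Hilbert-Schmidt norm of the remainder -/
noncomputable def HSn (s : ℂ) (b : ℝ) (D : ℕ) (p : ℕ → ℕ → ℝ) : ℝ :=
  (1 / B0 s b) * ∫ x in Ioo (0 : ℝ) 1, ∫ y in Ioi (0 : ℝ), alp s b x * bet b y * RR D p x y ^ 2

/-- the mixed moments of the remainder, `X^n Y^l` -/
noncomputable def xln (s : ℂ) (b : ℝ) (D : ℕ) (p : ℕ → ℕ → ℝ) (l n : ℕ) : ℝ :=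
  (1 / B0 s b) * ∫ x in Ioo (0 : ℝ) 1, ∫ y in Ioi (0 : ℝ),
    alp s b x * bet b y * (1 - x) ^ n * (1 / (1 + y)) ^ l * RR D p x y

/-- coefficients (of `Y^l`, `l ≤ D`) of the approximation of the inner function -/
noncomputable def FF (s : ℂ) (D : ℕ) (p : ℕ → ℕ → ℝ) (μ : ℕ → ℂ) : ℕ → ℂ
  | 0 => 2 / (1 + s) * μ 0
  | (l + 1) => ∑ n ∈ Finset.range D, (p n l : ℂ) * μ n

/-- the main part of the upper form -/
noncomputable def Nmain (b : ℝ) (D : ℕ) (F : ℕ → ℂ) : ℝ :=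
  ∑ l ∈ Finset.range (D + 1), ∑ k ∈ Finset.range (D + 1),
    (F l * conj (F k)).re / ((b + l + k) * (b + l + k + 1))

/-- the cross part with the test vector -/
noncomputable def Nx (s : ℂ) (b : ℝ) (D N : ℕ) (p : ℕ → ℕ → ℝ) (F y : ℕ → ℂ) : ℝ :=
  2 * ∑ l ∈ Finset.range (D + 1), ∑ n ∈ Finset.range N,
    xln s b D p l n * (conj (F l) * y n).re

/-- the cross functions `int bet Y^l RR dy` -/
noncomputable def rl (b : ℝ) (D : ℕ) (p : ℕ → ℕ → ℝ) (l : ℕ) (x : ℝ) : ℝ :=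
  ∫ y in Ioi (0 : ℝ), bet b y * (1 / (1 + y)) ^ l * RR D p x y

/-- the norm of the cross functional -/
noncomputable def Ncross (s : ℂ) (b : ℝ) (D : ℕ) (p : ℕ → ℕ → ℝ) (F : ℕ → ℂ) : ℝ :=
  (1 / B0 s b) * ∫ x in Ioo (0 : ℝ) 1, alp s b x
    * ‖∑ l ∈ Finset.range (D + 1), F l * (rl b D p l x : ℂ)‖ ^ 2

/-- the limit form of `P - N` (lower bound); `g` the even moments, `y` the test vector -/
noncomputable def limF (s : ℂ) (b : ℝ) (K N D : ℕ) (p : ℕ → ℕ → ℝ) (ε κ τ : ℝ)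
    (g y : ℕ → ℂ) : ℝ :=
  linF s K N g y - (1 + (1 + 1 / κ) * ε) * gamF s b N y
    - Es s b * Nmain b D (FF s D p (muS s K g))
    - Es s b * Nx s b D N p (FF s D p (muS s K g)) y
    - Es s b ^ 2 / τ * Ncross s b D p (FF s D p (muS s K g))

/-- multiplication of a vector by a matrix -/
noncomputable def Tg (K : ℕ) (T : ℕ → ℕ → ℂ) (g : ℕ → ℂ) (n : ℕ) : ℂ :=
  ∑ r ∈ Finset.range K, T n r * g r

/-- value of the Hermitian form `Q` -/
noncomputable def hF (K : ℕ) (Q : ℕ → ℕ → ℂ) (g : ℕ → ℂ) : ℝ :=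
  ∑ r ∈ Finset.range K, ∑ t ∈ Finset.range K, (Q r t * (g t * conj (g r))).re

/-! the region of small exponents: everything is divided by `s` -/

/-- the even moments divided by `s`, leading parts: weights 1, 2, 4 -/
noncomputable def YS (s : ℂ) (c : ℕ → ℂ) : ℕ → ℂ
  | 0 => -2 * c 0
  | 1 => (c 0 ^ 2 - c 1) / 2
  | 2 => 3 / 4 * (s - 1) * (c 0 ^ 2 - c 1) ^ 2
      + 3 / 2 * (-(c 3) + c 1 ^ 2 + 2 * c 0 * c 2 - 3 * c 0 ^ 2 * c 1 + c 0 ^ 4)
  | _ => 0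

/-- the weights 1, 2, 4 -/
def wY : ℕ → ℕ
  | 0 => 1
  | 1 => 2
  | 2 => 4
  | _ => 0

/-- the area form in the scaled variables (small exponents) -/
noncomputable def qY (Q : ℕ → ℕ → ℂ) (s : ℂ) (b : ℝ) (c : ℕ → ℂ) : ℝ :=
  (b + 1) * (b + 2) * ∑ r ∈ Finset.range 3, ∑ t ∈ Finset.range 3,
    (Q r t * (YS s c t * conj (YS s c r))).re / poch (b + 1) (wY r + wY t - 1)

end Pool.Agent.Helper24.HR2
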