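import Mathlib
import Pool.Agent.Helper24.HR2.Defs
import Pool.Agent.Helper22.Half.Defs

/-!
MP_16b0ee, project HR2, section R11: the means of `|exp (s h)|^2`.
-/

set_option autoImplicit false

open MeasureTheory Set Metric Filter Topology
open scoped Real ComplexConjugate

namespace Pool.Agent.Helper24.HR2

/-- the mean of `|exp (s h)|^2` over the circle of radius `R` -/
noncomputable def mS (s : ℂ) (R : ℝ) (h : ℂ → ℂ) : ℝ :=
  (1 / (2 * π)) * ∫ θ in (0:ℝ)..(2 * π),
    ‖Complex.exp (s * h ((R : ℂ) * Complex.exp ((θ : ℂ) * Complex.I)))‖ ^ 2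

end Pool.Agent.Helper24.HR2
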