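import Mathlib
import Pool.Agent.Helper24.HR2.MSdef
import Pool.Agent.Helper39.Dim.Bloch2

/-!
MP_16b0ee, project HR2, section R11: the means over circles from the area integrals; complex
conjugation.
-/

set_option autoImplicit false

open MeasureTheory Set Metric Filter Topology
open scoped Real ComplexConjugate

namespace Pool.Agent.Helper24.HR2

open Pool.Agent.Helper22.Half
open Pool.Agent.Helper22.Marshall (coeff SepHol LogPhi dcoeff GLe parseval_comb exists_logPhi)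
open Pool.Agent.Helper39.Area (Ext phi toDisc goluzin_disc ext_data)
open Pool.Agent.Helper39.MH

/-- the point with given polar coordinates -/
private noncomputable def cp (r θ : ℝ) : ℂ := (r : ℂ) * Complex.exp ((θ : ℂ) * Complex.I)

private theorem norm_cp {r : ℝ} (hr : 0 ≤ r) (θ : ℝ) : ‖cp r θ‖ = r := by
  rw [cp, norm_mul, Complex.norm_exp_ofReal_mul_I, mul_one, Complex.norm_real,
    Real.norm_of_nonneg hr]

private theorem cp_polar (p : ℝ × ℝ) : Complex.polarCoord.symm p = cp p.1 p.2 := by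
  rw [Complex.polarCoord_symm_apply, cp, Complex.exp_mul_I]
  simp

private theorem cont_cp : Continuous (fun p : ℝ × ℝ => cp p.1 p.2) := by
  unfold cp; fun_prop

private theorem cont_cp' (r : ℝ) : Continuous (fun θ : ℝ => cp r θ) := by
  unfold cp; fun_prop

private theorem cp_periodic (r θ : ℝ) : cp r (θ + 2 * π) = cp r θ := by
  have : Complex.exp (((θ + 2 * π : ℝ) : ℂ) * Complex.I) = Complex.exp ((θ : ℂ) * Complex.I) := by
    push_cast
    rw [add_mul, Complex.exp_add, Complex.exp_two_pi_mul_I, mul_one]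
  simp only [cp]
  rw [this]

private theorem refl_int {k : ℝ → ℝ} (hper : Function.Periodic k (2 * π)) :
    ∫ θ in (0:ℝ)..(2 * π), k (-θ) = ∫ θ in (0:ℝ)..(2 * π), k θ := by
  rw [intervalIntegral.integral_comp_neg (fun θ => k θ)]
  have h2 := hper.intervalIntegral_add_eq (-(2 * π)) 0
  have e1 : -(2 * π) + 2 * π = (0:ℝ) := by ring
  have e2 : (0:ℝ) + 2 * π = 2 * π := by ring
  rw [e1, e2] at h2
  rw [neg_zero, h2]

private theorem shift_int {k : ℝ → ℝ} (hper : Function.Periodic k (2 * π)) :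
    ∫ θ in (-π)..π, k θ = ∫ θ in (0:ℝ)..(2 * π), k θ := by
  have h2 := hper.intervalIntegral_add_eq (-π) 0
  have e1 : -π + 2 * π = π := by ring
  have e2 : (0:ℝ) + 2 * π = 2 * π := by ring
  rw [e1, e2] at h2
  exact h2

/-- the radial weight -/
private theorem weight_facts {b : ℝ} (hb : 0 < b) {r0 : ℝ} (h0 : 0 ≤ r0) (h1 : r0 < 1) :
    IntegrableOn (fun r : ℝ => r * (1 - r ^ 2) ^ (b - 1)) (Ioo r0 1) ∧
    ∫ r in Ioo r0 1, r * (1 - r ^ 2) ^ (b - 1) = (1 - r0 ^ 2) ^ b / (2 * b) := by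
  have hcont : ContinuousOn (fun r : ℝ => -((1 - r ^ 2) ^ b) / (2 * b)) (Icc r0 1) := by
    apply ContinuousOn.div_const
    apply ContinuousOn.neg
    apply ContinuousOn.rpow_const (by fun_prop)
    intro x _
    exact Or.inr hb.le
  have hder : ∀ x ∈ Ioo r0 1, HasDerivAt (fun r : ℝ => -((1 - r ^ 2) ^ b) / (2 * b))
      (x * (1 - x ^ 2) ^ (b - 1)) x := by
    intro x hx
    have hx0 : 0 ≤ x := h0.trans hx.1.le
    have hpos : 0 < 1 - x ^ 2 := by nlinarith [hx.2]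
    have h2 : HasDerivAt (fun r : ℝ => 1 - r ^ 2) (-(2 * x)) x := by
      have := ((hasDerivAt_id x).pow 2).const_sub 1
      simpa using this
    have h3 := ((h2.rpow_const (p := b) (Or.inl hpos.ne')).neg).div_const (2 * b)
    have e : -(-(2 * x) * b * (1 - x ^ 2) ^ (b - 1)) / (2 * b) = x * (1 - x ^ 2) ^ (b - 1) := by
      field_simp
    rw [← e]
    exact h3
  have hnn : ∀ x ∈ Ioo r0 1, 0 ≤ x * (1 - x ^ 2) ^ (b - 1) := by
    intro x hx
    have hx0 : 0 ≤ x := h0.trans hx.1.le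
    have hpos : 0 < 1 - x ^ 2 := by nlinarith [hx.2]
    positivity
  have hint := intervalIntegral.integrableOn_deriv_of_nonneg hcont hder hnn
  refine ⟨hint.mono_set Ioo_subset_Ioc_self, ?_⟩
  have h4 := intervalIntegral.integral_eq_sub_of_hasDerivAt_of_le h1.le hcont hder
    ((intervalIntegrable_iff_integrableOn_Ioc_of_le h1.le).2 hint)
  rw [intervalIntegral.integral_of_le h1.le, integral_Ioc_eq_integral_Ioo] at h4
  rw [h4]
  have e : (1 : ℝ) - 1 ^ 2 = 0 := by norm_num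
  rw [e, Real.zero_rpow hb.ne']
  ring

/-- the circle mean is bounded by the area integral -/
private theorem circle_le_s {ρ : ℝ} (hρ : 1 < ρ) {G : ℂ → ℂ}
    (hG : DifferentiableOn ℂ G (ball 0 ρ)) {b : ℝ} (hb : 0 < b) {r0 : ℝ} (h0 : 0 ≤ r0)
    (h1 : r0 < 1) :
    (1 / (2 * π)) * ∫ θ in (-π)..π, ‖G (cp r0 θ)‖ ^ 2
      ≤ b * ((1 / π) * ∫ z in ball (0 : ℂ) 1, (1 - ‖z‖ ^ 2) ^ (b - 1) * ‖G z‖ ^ 2)
        * (1 - r0 ^ 2) ^ (-b) := by
  have hG1 : DifferentiableOn ℂ G (ball 0 1) := hG.mono (ball_subset_ball hρ.le)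
  have hGc : ContinuousOn G (closedBall 0 1) :=
    hG.continuousOn.mono (closedBall_subset_ball hρ)
  obtain ⟨M, hM⟩ : ∃ M : ℝ → ℝ, M = fun r => (1 / (2 * π)) * ∫ θ in (-π)..π,
    ‖G (cp r θ)‖ ^ 2 := ⟨_, rfl⟩
  have hMr : ∀ r, ∫ θ in (-π)..π, ‖G (cp r θ)‖ ^ 2 = 2 * π * M r := by
    intro r
    rw [hM]
    have := Real.pi_pos
    field_simp
  -- monotonicity
  have hmono : ∀ r, r0 ≤ r → r < 1 → M r0 ≤ M r := by
    intro r hr hr1
    have hpar : ∀ t : ℝ, 0 ≤ t → t < 1 →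
        HasSum (fun n : ℕ => ‖coeff G n‖ ^ 2 * t ^ (2 * n)) (M t) := by
      intro t ht ht1
      have := parseval_comb hG1 0 1 ht ht1
      simp only [zero_mul, zero_add, one_mul] at this
      rw [hM]
      exact this
    apply hasSum_le _ (hpar r0 h0 h1) (hpar r (h0.trans hr) hr1)
    intro n
    exact mul_le_mul_of_nonneg_left (pow_le_pow_left₀ h0 hr _) (by positivity)
  -- boundedness
  obtain ⟨B, hB⟩ := (isCompact_closedBall (0 : ℂ) 1).exists_bound_of_continuousOn hGc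
  have hB0 : 0 ≤ B := (norm_nonneg _).trans (hB 0 (by simp))
  obtain ⟨hW, -⟩ := weight_facts hb (le_refl (0 : ℝ)) one_pos
  obtain ⟨S, hS⟩ : ∃ S : Set (ℝ × ℝ), S = Ioo (0 : ℝ) 1 ×ˢ Ioo (-π) π := ⟨_, rfl⟩
  have hSm : MeasurableSet S := by rw [hS]; exact measurableSet_Ioo.prod measurableSet_Ioo
  have hball : ∀ p ∈ S, cp p.1 p.2 ∈ ball (0 : ℂ) 1 := by
    rintro ⟨a, c⟩ hp
    rw [hS] at hp
    obtain ⟨ha, -⟩ := hp
    rw [mem_ball_zero_iff, norm_cp ha.1.le]
    exact ha.2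
  -- polar coordinates
  have hpolar : ∫ z in ball (0 : ℂ) 1, (1 - ‖z‖ ^ 2) ^ (b - 1) * ‖G z‖ ^ 2 =
      ∫ p in S, (p.1 * (1 - p.1 ^ 2) ^ (b - 1)) * ‖G (cp p.1 p.2)‖ ^ 2 := by
    rw [← integral_indicator measurableSet_ball, ← Complex.integral_comp_polarCoord_symm,
      polarCoord_target]
    have hsub : S ⊆ Ioi (0:ℝ) ×ˢ Ioo (-π) π := by
      rw [hS]
      exact prod_mono Ioo_subset_Ioi_self (subset_refl _)
    rw [setIntegral_eq_of_subset_of_forall_sdiff_eq_zero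
      (measurableSet_Ioi.prod measurableSet_Ioo) hsub]
    · apply setIntegral_congr_fun hSm
      intro p hp
      have hp1 : 0 < p.1 := by rw [hS] at hp; exact hp.1.1
      simp only
      rw [cp_polar, indicator_of_mem (hball p hp), norm_cp hp1.le, smul_eq_mul]
      ring
    · rintro ⟨a, c⟩ ⟨⟨ha, hc⟩, hn⟩
      have ha' : (0 : ℝ) < a := ha
      have hnm : cp a c ∉ ball (0 : ℂ) 1 := by
        intro hmem
        rw [mem_ball_zero_iff, norm_cp ha'.le] at hmem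
        exact hn (by rw [hS]; exact ⟨⟨ha', hmem⟩, hc⟩)
      rw [cp_polar, indicator_of_notMem hnm, smul_zero]
  -- integrability on the product
  have hintS : IntegrableOn (fun p : ℝ × ℝ => (p.1 * (1 - p.1 ^ 2) ^ (b - 1)) *
      ‖G (cp p.1 p.2)‖ ^ 2) S := by
    have hdom : IntegrableOn (fun p : ℝ × ℝ => (p.1 * (1 - p.1 ^ 2) ^ (b - 1)) * B ^ 2) S := by
      rw [hS, IntegrableOn, Measure.volume_eq_prod, ← Measure.prod_restrict]
      have h3 : Integrable (fun _ : ℝ => B ^ 2) (volume.restrict (Ioo (-π) π)) :=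
        (integrable_const _)
      exact Integrable.mul_prod hW h3
    refine hdom.mono' ?_ ?_
    · apply ContinuousOn.aestronglyMeasurable _ hSm
      apply ContinuousOn.mul
      · apply ContinuousOn.mul continuous_fst.continuousOn
        apply ContinuousOn.rpow_const (by fun_prop)
        intro p hp
        left
        rw [hS] at hp
        have h3 := hp.1.1
        have h4 := hp.1.2
        nlinarith
      · apply ContinuousOn.pow
        apply ContinuousOn.norm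
        exact hG1.continuousOn.comp cont_cp.continuousOn hball
    · rw [ae_restrict_iff' hSm]
      refine Filter.Eventually.of_forall fun p hp => ?_
      have h3 : 0 ≤ p.1 * (1 - p.1 ^ 2) ^ (b - 1) := by
        rw [hS] at hp
        have h3 := hp.1.1
        have h4 := hp.1.2
        have h5 : 0 < 1 - p.1 ^ 2 := by nlinarith
        positivity
      rw [Real.norm_of_nonneg (by positivity)]
      apply mul_le_mul_of_nonneg_left _ h3
      have h4 : ‖G (cp p.1 p.2)‖ ≤ B := hB _ (ball_subset_closedBall (hball p hp))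
      exact pow_le_pow_left₀ (norm_nonneg _) h4 2
  have hiter : ∫ p in S, (p.1 * (1 - p.1 ^ 2) ^ (b - 1)) * ‖G (cp p.1 p.2)‖ ^ 2 =
      ∫ r in Ioo (0 : ℝ) 1, (r * (1 - r ^ 2) ^ (b - 1)) * (2 * π * M r) := by
    rw [hS] at hintS ⊢
    rw [Measure.volume_eq_prod] at hintS ⊢
    rw [setIntegral_prod _ hintS]
    apply setIntegral_congr_fun measurableSet_Ioo
    intro r _
    simp only
    rw [integral_const_mul, ← hMr r, intervalIntegral.integral_of_le (by linarith [Real.pi_pos]),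
      integral_Ioc_eq_integral_Ioo]
  have hint1 : IntegrableOn (fun r : ℝ => (r * (1 - r ^ 2) ^ (b - 1)) * (2 * π * M r))
      (Ioo (0 : ℝ) 1) := by
    rw [hS, IntegrableOn, Measure.volume_eq_prod, ← Measure.prod_restrict] at hintS
    have h3 := hintS.integral_prod_left
    refine h3.congr ?_
    rw [Filter.EventuallyEq, ae_restrict_iff' measurableSet_Ioo]
    refine Filter.Eventually.of_forall fun r _ => ?_
    simp only
    rw [integral_const_mul, ← hMr r, intervalIntegral.integral_of_le (by linarith [Real.pi_pos]),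
      integral_Ioc_eq_integral_Ioo]
  have hM0 : ∀ r, 0 ≤ M r := by
    intro r
    rw [hM]
    apply mul_nonneg (by positivity)
    apply intervalIntegral.integral_nonneg (by linarith [Real.pi_pos])
    intro θ _
    positivity
  obtain ⟨hW1, hW2⟩ := weight_facts hb h0 h1
  have hlow : 2 * π * M r0 * ((1 - r0 ^ 2) ^ b / (2 * b)) ≤
      ∫ z in ball (0 : ℂ) 1, (1 - ‖z‖ ^ 2) ^ (b - 1) * ‖G z‖ ^ 2 := by
    rw [hpolar, hiter, ← hW2]
    calc 2 * π * M r0 * ∫ r in Ioo r0 1, r * (1 - r ^ 2) ^ (b - 1)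
        = ∫ r in Ioo r0 1, (r * (1 - r ^ 2) ^ (b - 1)) * (2 * π * M r0) := by
          rw [integral_mul_const, mul_comm]
      _ ≤ ∫ r in Ioo r0 1, (r * (1 - r ^ 2) ^ (b - 1)) * (2 * π * M r) := by
          apply setIntegral_mono_on (hW1.mul_const _)
            (hint1.mono_set (Ioo_subset_Ioo_left h0)) measurableSet_Ioo
          intro r hr
          have h3 : 0 ≤ r := h0.trans hr.1.le
          have h5 : 0 < 1 - r ^ 2 := by nlinarith [hr.2]
          apply mul_le_mul_of_nonneg_left _ (by positivity)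
          apply mul_le_mul_of_nonneg_left (hmono r hr.1.le hr.2) (by positivity)
      _ ≤ ∫ r in Ioo (0 : ℝ) 1, (r * (1 - r ^ 2) ^ (b - 1)) * (2 * π * M r) := by
          apply setIntegral_mono_set hint1
          · rw [Filter.EventuallyLE, ae_restrict_iff' measurableSet_Ioo]
            refine Filter.Eventually.of_forall fun r hr => ?_
            have h5 : 0 < 1 - r ^ 2 := by nlinarith [hr.1, hr.2]
            have h6 := hM0 r
            have h7 := hr.1
            have h8 := Real.pi_pos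
            simp only [Pi.zero_apply]
            positivity
          · exact (Ioo_subset_Ioo_left h0).eventuallyLE
  have hx : 0 < 1 - r0 ^ 2 := by nlinarith
  have hpw : 0 < (1 - r0 ^ 2) ^ b := Real.rpow_pos_of_pos hx _
  have hMe : (1 / (2 * π)) * ∫ θ in (-π)..π, ‖G (cp r0 θ)‖ ^ 2 = M r0 := by rw [hM]
  rw [hMe, Real.rpow_neg hx.le, ← div_eq_mul_inv, le_div_iff₀ hpw]
  have hpi := Real.pi_pos
  have e : M r0 * (1 - r0 ^ 2) ^ b = b * ((1 / π) * (2 * π * M r0 *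
      ((1 - r0 ^ 2) ^ b / (2 * b)))) := by
    field_simp
  rw [e]
  apply mul_le_mul_of_nonneg_left _ hb.le
  exact mul_le_mul_of_nonneg_left hlow (by positivity)

/-- the dilated data -/
private theorem dil_dat {β H : ℂ → ℂ} (hE : Ext β) (hH : DifferentiableOn ℂ H (ball 0 1))
    (hH0 : H 0 = 0) (hexp : ∀ z ∈ ball (0 : ℂ) 1, Complex.exp (H z) = 1 - z ^ 2 * deriv β z)
    (hbl : ∀ z ∈ ball (0 : ℂ) 1, (1 - ‖z‖ ^ 2) * ‖deriv H z‖ ≤ 28)
    (hgol : ∀ z ∈ ball (0 : ℂ) 1, ‖H z‖ ≤ Real.log (1 / (1 - ‖z‖ ^ 2))) {ρ : ℝ} (hρ : 1 < ρ) :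
    ∃ (βρ : ℂ → ℂ) (Φ : ℂ → ℂ → ℂ), Dat ρ βρ (fun z => H (z / (ρ : ℂ))) Φ := by
  have hρ0 : 0 < ρ := by linarith
  have hρc : (ρ : ℂ) ≠ 0 := by exact_mod_cast hρ0.ne'
  have hnρ : ‖(ρ : ℂ)‖ = ρ := by rw [Complex.norm_real, Real.norm_of_nonneg hρ0.le]
  have hmem' : ∀ z ∈ ball (0 : ℂ) ρ, z / (ρ : ℂ) ∈ ball (0 : ℂ) 1 := by
    intro z hz
    rw [mem_ball_zero_iff] at hz ⊢
    rw [norm_div, hnρ, div_lt_one hρ0]
    exact hz
  have hmem : ∀ z ∈ ball (0 : ℂ) 1, z / (ρ : ℂ) ∈ ball (0 : ℂ) 1 := by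
    intro z hz
    apply hmem' z
    rw [mem_ball_zero_iff] at hz ⊢
    linarith
  have hd : ∀ {F : ℂ → ℂ}, DifferentiableOn ℂ F (ball 0 1) → ∀ z ∈ ball (0 : ℂ) ρ,
      HasDerivAt (fun z => F (z / (ρ : ℂ))) (deriv F (z / (ρ : ℂ)) * (1 / (ρ : ℂ))) z := by
    intro F hF z hz
    have h1 : HasDerivAt F (deriv F (z / (ρ : ℂ))) (z / (ρ : ℂ)) :=
      (hF.differentiableAt (isOpen_ball.mem_nhds (hmem' z hz))).hasDerivAt
    exact h1.comp z ((hasDerivAt_id z).div_const (ρ : ℂ))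
  have hsub : ∀ z ∈ ball (0 : ℂ) 1, z ∈ ball (0 : ℂ) ρ := by
    intro z hz
    rw [mem_ball_zero_iff] at hz ⊢
    linarith
  have hdβ : ∀ z ∈ ball (0 : ℂ) 1,
      HasDerivAt (fun z => β (z / (ρ : ℂ)) / (ρ : ℂ)) (deriv β (z / (ρ : ℂ)) / (ρ : ℂ) ^ 2) z := by
    intro z hz
    have h1 := (hd hE.diff z (hsub z hz)).div_const (ρ : ℂ)
    have e : deriv β (z / (ρ : ℂ)) / (ρ : ℂ) ^ 2
        = deriv β (z / (ρ : ℂ)) * (1 / (ρ : ℂ)) / (ρ : ℂ) := by
      field_simp
    rw [e]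
    exact h1
  have hexpρ : ∀ z ∈ ball (0 : ℂ) 1, Complex.exp (H (z / (ρ : ℂ)))
      = 1 - z ^ 2 * deriv (fun z => β (z / (ρ : ℂ)) / (ρ : ℂ)) z := by
    intro z hz
    rw [(hdβ z hz).deriv, hexp _ (hmem z hz)]
    field_simp
  have hExt : Ext (fun z => β (z / (ρ : ℂ)) / (ρ : ℂ)) := by
    refine ⟨fun z hz => (hdβ z hz).differentiableAt.differentiableWithinAt, ?_, ?_⟩
    · intro ζ ω hζ hω hζ0 hω0 heq
      have h1 := hE.inj (ζ / (ρ : ℂ)) (ω / (ρ : ℂ)) (hmem ζ hζ) (hmem ω hω)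
        (div_ne_zero hζ0 hρc) (div_ne_zero hω0 hρc) (by
          rw [inv_div, inv_div, div_eq_mul_inv, div_eq_mul_inv]
          have h2 : (ρ : ℂ) * (ζ⁻¹ + β (ζ / (ρ : ℂ)) / (ρ : ℂ))
              = (ρ : ℂ) * (ω⁻¹ + β (ω / (ρ : ℂ)) / (ρ : ℂ)) := by rw [heq]
          rw [mul_add, mul_add, mul_div_cancel₀ _ hρc, mul_div_cancel₀ _ hρc] at h2
          exact h2)
      exact (div_left_inj' hρc).mp h1
    · intro ζ hζ h'
      rw [← hexpρ ζ hζ] at h'
      exact Complex.exp_ne_zero _ h'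
  have hHρ : DifferentiableOn ℂ (fun z => H (z / (ρ : ℂ))) (ball 0 ρ) :=
    fun z hz => (hd hH z hz).differentiableAt.differentiableWithinAt
  obtain ⟨Φ, hΦ⟩ := exists_logPhi hExt (H := fun z => H (z / (ρ : ℂ)))
    (hHρ.continuousOn.mono (fun z hz => hsub z hz)) (by simp [hH0]) hexpρ
  have hcmp : ∀ z ∈ ball (0 : ℂ) 1, 0 < 1 - ‖z‖ ^ 2 ∧
      1 - ‖z‖ ^ 2 ≤ 1 - (‖z‖ / ρ) ^ 2 := by
    intro z hz
    have hz1 : ‖z‖ < 1 := mem_ball_zero_iff.mp hz
    have hz0 := norm_nonneg z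
    have h3 : ‖z‖ / ρ ≤ ‖z‖ := div_le_self hz0 hρ.le
    have h4 : 0 ≤ ‖z‖ / ρ := by positivity
    constructor <;> nlinarith
  refine ⟨_, Φ, ⟨hρ, hExt, hΦ, hHρ, ?_, hexpρ⟩, ?_⟩
  · intro z hz
    rw [(hd hH z (hsub z hz)).deriv, norm_mul, norm_div, norm_one, hnρ]
    have h1 := hbl _ (hmem z hz)
    rw [norm_div, hnρ] at h1
    have h0 := norm_nonneg (deriv H (z / (ρ : ℂ)))
    obtain ⟨h5, h2⟩ := hcmp z hz
    have h6 : 1 / ρ ≤ 1 := by
      rw [div_le_one hρ0]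
      exact hρ.le
    calc (1 - ‖z‖ ^ 2) * (‖deriv H (z / (ρ : ℂ))‖ * (1 / ρ))
        ≤ (1 - ‖z‖ ^ 2) * (‖deriv H (z / (ρ : ℂ))‖ * 1) := by gcongr
      _ ≤ (1 - (‖z‖ / ρ) ^ 2) * (‖deriv H (z / (ρ : ℂ))‖ * 1) := by gcongr
      _ ≤ 28 := by rw [mul_one]; exact h1
  · intro z hz
    obtain ⟨h5, h2⟩ := hcmp z hz
    have h1 := hgol _ (hmem z hz)
    rw [norm_div, hnρ] at h1
    refine h1.trans ?_
    apply Real.log_le_log (by
      apply one_div_pos.2
      linarith)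
    exact one_div_le_one_div_of_le h5 h2

theorem mean_of_LS {s : ℂ} {b C : ℝ} (hb : 0 < b)
    (hL : ∀ (ρ : ℝ) (β H : ℂ → ℂ) (Φ : ℂ → ℂ → ℂ), Dat ρ β H Φ → LS s H b (fun _ => 1) ≤ C) :
    ∀ ψ h : ℂ → ℂ, SigmaLog ψ h → ∀ R : ℝ, 1 < R →
      mS s R h ≤ b * C * (R ^ 2 / (R ^ 2 - 1)) ^ b := by
  intro ψ h hψ R hR
  have hR0 : 0 < R := by linarith
  obtain ⟨c, hc⟩ := hψ.normalised
  obtain ⟨hE, hex⟩ := ext_data hψ.diff hψ.inj hc hψ.exp_eq
  obtain ⟨hH, hgol⟩ := goluzin_disc hψ.diff hψ.inj hψ.normalised hψ.hdiff hψ.exp_eq hψ.lim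
  have hbl : ∀ z ∈ ball (0 : ℂ) 1, (1 - ‖z‖ ^ 2) * ‖deriv (toDisc 0 h) z‖ ≤ 28 := fun z hz =>
    Pool.Agent.Helper39.Dim.bloch_disc hψ.diff hψ.inj hψ.normalised hψ.hdiff hψ.exp_eq hψ.lim hz
  have hH0 : toDisc 0 h 0 = 0 := by simp [toDisc]
  -- the mean in the coordinate `1 / z`
  have hms : mS s R h = (1 / (2 * π)) * ∫ θ in (-π)..π,
      ‖Complex.exp (s * toDisc 0 h (cp R⁻¹ θ))‖ ^ 2 := by
    unfold mS
    congr 1
    have hper : Function.Periodic (fun θ : ℝ =>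
        ‖Complex.exp (s * toDisc 0 h (cp R⁻¹ θ))‖ ^ 2) (2 * π) := by
      intro θ
      simp only
      rw [cp_periodic]
    rw [shift_int hper, ← refl_int hper]
    congr 1
    funext θ
    have hne : cp R⁻¹ (-θ) ≠ 0 := by
      unfold cp
      apply mul_ne_zero _ (Complex.exp_ne_zero _)
      exact_mod_cast inv_ne_zero hR0.ne'
    have h2 : (cp R⁻¹ (-θ))⁻¹ = (R : ℂ) * Complex.exp ((θ : ℂ) * Complex.I) := by
      unfold cp
      rw [mul_inv, ← Complex.exp_neg]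
      push_cast
      rw [inv_inv]
      congr 2
      ring
    simp only [toDisc]
    rw [if_neg hne, h2]
  -- the bound for the dilations
  have hdil : ∀ ρ : ℝ, 1 < ρ → ρ < R →
      mS s R h ≤ b * C * (1 - (ρ / R) ^ 2) ^ (-b) := by
    intro ρ hρ hρR
    have hρ0 : 0 < ρ := by linarith
    have hρc : (ρ : ℂ) ≠ 0 := by exact_mod_cast hρ0.ne'
    obtain ⟨βρ, Φ, hD⟩ := dil_dat hE hH hH0 hex hbl hgol hρ
    have hL1 := hL ρ βρ _ Φ hD
    have hr1 : ρ / R < 1 := (div_lt_one hR0).2 hρR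
    have hr0 : 0 ≤ ρ / R := by positivity
    have hGd : DifferentiableOn ℂ (fun z => Complex.exp (s * toDisc 0 h (z / (ρ : ℂ))))
        (ball 0 ρ) := (hD.diff.const_mul s).cexp
    have hcirc := circle_le_s hρ hGd hb hr0 hr1
    have e1 : (1 / π) * ∫ z in ball (0 : ℂ) 1, (1 - ‖z‖ ^ 2) ^ (b - 1)
        * ‖Complex.exp (s * toDisc 0 h (z / (ρ : ℂ)))‖ ^ 2
        = LS s (fun z => toDisc 0 h (z / (ρ : ℂ))) b (fun _ => 1) := by
      unfold LS
      simp only [mul_one]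
    have e2 : ∀ θ : ℝ, cp (ρ / R) θ / (ρ : ℂ) = cp R⁻¹ θ := by
      intro θ
      unfold cp
      push_cast
      field_simp
    rw [e1] at hcirc
    simp_rw [e2] at hcirc
    rw [hms]
    refine hcirc.trans ?_
    have hx : 0 < 1 - (ρ / R) ^ 2 := by nlinarith
    apply mul_le_mul_of_nonneg_right _ (Real.rpow_nonneg hx.le _)
    exact mul_le_mul_of_nonneg_left hL1 hb.le
  -- the limit
  have hRR : 0 < R ^ 2 - 1 := by nlinarith
  have hcont : ContinuousAt (fun ρ : ℝ => b * C * (1 - (ρ / R) ^ 2) ^ (-b)) 1 := by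
    apply ContinuousAt.mul continuousAt_const
    apply ContinuousAt.rpow_const (by fun_prop)
    left
    rw [div_pow, one_pow]
    have : 1 / R ^ 2 < 1 := by
      rw [div_lt_one (by positivity)]
      linarith
    linarith
  have hlim : Tendsto (fun ρ : ℝ => b * C * (1 - (ρ / R) ^ 2) ^ (-b)) (𝓝[>] 1)
      (𝓝 (b * C * (1 - (1 / R) ^ 2) ^ (-b))) := hcont.tendsto.mono_left nhdsWithin_le_nhds
  have hev : ∀ᶠ ρ : ℝ in 𝓝[>] 1, mS s R h ≤ b * C * (1 - (ρ / R) ^ 2) ^ (-b) := by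
    filter_upwards [Ioo_mem_nhdsGT hR] with ρ hρ
    exact hdil ρ hρ.1 hρ.2
  have hfin := ge_of_tendsto hlim hev
  refine hfin.trans (le_of_eq ?_)
  have e3 : 1 - (1 / R) ^ 2 = (R ^ 2 / (R ^ 2 - 1))⁻¹ := by
    rw [inv_div, div_pow, one_pow]
    field_simp
  rw [e3, Real.inv_rpow (by positivity), Real.rpow_neg (by positivity), inv_inv]

/-- complex conjugation -/
theorem mS_conj {s : ℂ} {b C : ℝ}
    (hm : ∀ ψ h : ℂ → ℂ, SigmaLog ψ h → ∀ R : ℝ, 1 < R →
      mS s R h ≤ C * (R ^ 2 / (R ^ 2 - 1)) ^ b) :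
    ∀ ψ h : ℂ → ℂ, SigmaLog ψ h → ∀ R : ℝ, 1 < R →
      mS (conj s) R h ≤ C * (R ^ 2 / (R ^ 2 - 1)) ^ b := by
  intro ψ h hψ R hR
  have hmemc : ∀ z : ℂ, 1 < ‖z‖ → 1 < ‖conj z‖ := fun z hz => by rwa [Complex.norm_conj]
  have hopen : IsOpen {z : ℂ | 1 < ‖z‖} := isOpen_lt continuous_const continuous_norm
  have hdc : ∀ f : ℂ → ℂ, DifferentiableOn ℂ f {z : ℂ | 1 < ‖z‖} →
      DifferentiableOn ℂ (conj ∘ f ∘ conj) {z : ℂ | 1 < ‖z‖} := by
    intro f hf z hz
    apply DifferentiableAt.differentiableWithinAt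
    rw [differentiableAt_conj_conj_iff]
    exact hf.differentiableAt (hopen.mem_nhds (hmemc z hz))
  have hcob : Tendsto (fun z : ℂ => conj z) (Bornology.cobounded ℂ) (Bornology.cobounded ℂ) := by
    rw [← tendsto_norm_atTop_iff_cobounded]
    simp only [Complex.norm_conj]
    exact tendsto_norm_cobounded_atTop
  have hS : SigmaLog (conj ∘ ψ ∘ conj) (conj ∘ h ∘ conj) := by
    refine ⟨hdc ψ hψ.diff, ?_, ?_, hdc h hψ.hdiff, ?_, ?_⟩
    · intro z hz w hw hzw
      have h1 : ψ (conj z) = ψ (conj w) := by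
        have := congrArg (starRingEnd ℂ) hzw
        simpa using this
      have h2 := hψ.inj (hmemc z hz) (hmemc w hw) h1
      have := congrArg (starRingEnd ℂ) h2
      simpa using this
    · obtain ⟨c, hc⟩ := hψ.normalised
      refine ⟨conj c, ?_⟩
      have h1 := (Complex.continuous_conj.tendsto c).comp (hc.comp hcob)
      refine h1.congr fun z => ?_
      simp
    · intro z hz
      rw [deriv_conj_conj]
      simp only [Function.comp_apply]
      rw [Complex.exp_conj, hψ.exp_eq _ (hmemc z hz)]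
    · have h1 := (Complex.continuous_conj.tendsto 0).comp (hψ.lim.comp hcob)
      rw [map_zero] at h1
      exact h1
  have h1 := hm _ _ hS R hR
  refine le_trans (le_of_eq ?_) h1
  unfold mS
  congr 1
  have hper : Function.Periodic (fun θ : ℝ => ‖Complex.exp (s * (conj ∘ h ∘ conj)
      ((R : ℂ) * Complex.exp ((θ : ℂ) * Complex.I)))‖ ^ 2) (2 * π) := by
    intro θ
    have := cp_periodic R θ
    unfold cp at this
    simp only
    rw [this]
  rw [← refl_int hper]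
  congr 1
  funext θ
  simp only [Function.comp_apply]
  have e1 : (starRingEnd ℂ) ((R : ℂ) * Complex.exp ((((-θ : ℝ)) : ℂ) * Complex.I)) =
      (R : ℂ) * Complex.exp ((θ : ℂ) * Complex.I) := by
    rw [map_mul, Complex.conj_ofReal, ← Complex.exp_conj, map_mul, Complex.conj_ofReal,
      Complex.conj_I]
    push_cast
    congr 2
    ring
  rw [e1]
  have e2 : s * (starRingEnd ℂ) (h ((R : ℂ) * Complex.exp ((θ : ℂ) * Complex.I))) =
      (starRingEnd ℂ) ((starRingEnd ℂ) s * h ((R : ℂ) * Complex.exp ((θ : ℂ) * Complex.I))) := by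
    rw [map_mul, Complex.conj_conj]
  rw [e2, Complex.exp_conj, Complex.norm_conj]

end Pool.Agent.Helper24.HR2
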