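import Mathlib
import Pool.Agent.Helper24.HR2.Defs

/-!
MP_16b0ee, project HR2, module HR2-12e: the main constant `Es s b` as the limit of the explicit
sequence `en s b n`, with two-sided bounds.
-/

set_option autoImplicit false

open MeasureTheory Set Metric Filter Topology
open scoped Real ComplexConjugate

namespace Pool.Agent.Helper24.HR2

open Pool.Agent.Helper22.Half

noncomputable def en (s : ℂ) (b : ℝ) (n : ℕ) : ℝ :=
  ‖(1 + s) * pq (-s) n‖ ^ 2 * kap s.re (‖s‖ ^ 2) n * pq (b + 3) n / pq (b + 1 - 2 * s.re) n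

/-- the quotient `en (n+1) / en n` -/
noncomputable def qn (s : ℂ) (b : ℝ) (n : ℕ) : ℝ :=
  ((n : ℝ) ^ 2 - 2 * s.re * n + ‖s‖ ^ 2) / ((n : ℝ) + 1) ^ 2
    * (1 + ‖s‖ ^ 2 / (((n : ℝ) + 2) * (n + 2 + 2 * s.re)))
    * ((n + b + 3) / (n + b + 1 - 2 * s.re))

theorem re_gt {s : ℂ} (hs : ‖s‖ < 1) : -1 < s.re := by
  have h := Complex.abs_re_le_norm s
  have := neg_abs_le s.re
  linarith

theorem en_succ {s : ℂ} {b : ℝ} (hσ : 0 < b + 1 - 2 * s.re) (n : ℕ) :
    en s b (n + 1) = en s b n * qn s b n := by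
  have h1 : ‖(1 + s) * pq (-s) (n + 1)‖ ^ 2
      = ‖(1 + s) * pq (-s) n‖ ^ 2
        * (((n : ℝ) ^ 2 - 2 * s.re * n + ‖s‖ ^ 2) / ((n : ℝ) + 1) ^ 2) := by
    rw [pq_succ, norm_mul, norm_mul, norm_div, norm_mul, mul_pow, mul_pow, mul_pow, div_pow]
    have e1 : -s + (n : ℂ) = (n : ℂ) - s := by ring
    rw [e1, normSq_nat_sub]
    have e : ‖(n : ℂ) + 1‖ = (n : ℝ) + 1 := by
      have : (n : ℂ) + 1 = (((n : ℝ) + 1 : ℝ) : ℂ) := by push_cast; ring
      rw [this, Complex.norm_real, Real.norm_of_nonneg (by positivity)]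
    rw [e]
    ring
  have h2 : 0 < pq (b + 1 - 2 * s.re) n := pq_pos hσ n
  have h3 : 0 < b + 1 - 2 * s.re + n := by
    have : (0 : ℝ) ≤ n := Nat.cast_nonneg n
    linarith
  have h4 : (n : ℝ) + b + 1 - 2 * s.re = b + 1 - 2 * s.re + n := by ring
  have h5 : (n : ℝ) + b + 3 = b + 3 + n := by ring
  unfold en qn
  rw [h1, kap_succ, pq_succ (b + 3), pq_succ (b + 1 - 2 * s.re), h4, h5]
  generalize 1 + ‖s‖ ^ 2 / (((n : ℝ) + 2) * (n + 2 + 2 * s.re)) = w
  generalize ((n : ℝ) ^ 2 - 2 * s.re * n + ‖s‖ ^ 2) / ((n : ℝ) + 1) ^ 2 = v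
  have h6 : (0 : ℝ) < (n : ℝ) + 1 := by positivity
  field_simp

theorem en_nonneg {s : ℂ} (hs : ‖s‖ < 1) {b : ℝ} (hb : 0 < b) (hσ : 0 < b + 1 - 2 * s.re) (n : ℕ) :
    0 ≤ en s b n := by
  unfold en
  have h1 := pq_pos hσ n
  have h2 := pq_pos (by linarith : 0 < b + 3) n
  have h3 := kap_ge_one (re_gt hs) (sq_nonneg ‖s‖) n
  have h4 : 0 ≤ kap s.re (‖s‖ ^ 2) n := by linarith
  positivity

theorem qn_nonneg {s : ℂ} (hs : ‖s‖ < 1) {b : ℝ} (hb : 0 < b) (hσ : 0 < b + 1 - 2 * s.re) (n : ℕ) :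
    0 ≤ qn s b n := by
  unfold qn
  have h0 : (0 : ℝ) ≤ n := Nat.cast_nonneg n
  have h1 : 0 ≤ (n : ℝ) ^ 2 - 2 * s.re * n + ‖s‖ ^ 2 := by
    rw [← normSq_nat_sub]; positivity
  have h2 := re_gt hs
  have h3 : 0 ≤ (n : ℝ) + 2 + 2 * s.re := by linarith
  have h4 : 0 ≤ (n : ℝ) + b + 1 - 2 * s.re := by linarith
  have h5 : 0 ≤ ‖s‖ ^ 2 / (((n : ℝ) + 2) * (n + 2 + 2 * s.re)) :=
    div_nonneg (sq_nonneg _) (mul_nonneg (by linarith) h3)
  have h6 : 0 ≤ (n : ℝ) + b + 3 := by linarith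
  apply mul_nonneg (mul_nonneg (div_nonneg h1 (sq_nonneg _)) (by linarith)) (div_nonneg h6 h4)

/-! the product of the two complex binomials -/

theorem pq_euler (s : ℂ) (n : ℕ) :
    ((n : ℂ) + 1) * (pq (-s) (n + 1) * pq (1 + s) n)
      = -(s * ∏ j ∈ Finset.range n, (1 - s ^ 2 / ((j : ℂ) + 1) ^ 2)) := by
  induction n with
  | zero => simp [pq]
  | succ n ih =>
    rw [Finset.prod_range_succ, pq_succ (-s) (n + 1), pq_succ (1 + s) n]
    have h1 : (n : ℂ) + 1 ≠ 0 := Nat.cast_add_one_ne_zero n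
    have h2 : (n : ℂ) + 1 + 1 ≠ 0 := by
      have := Nat.cast_add_one_ne_zero (R := ℂ) (n + 1)
      push_cast at this
      exact this
    have e : -(s * ((∏ j ∈ Finset.range n, (1 - s ^ 2 / ((j : ℂ) + 1) ^ 2))
          * (1 - s ^ 2 / ((n : ℂ) + 1) ^ 2)))
        = -(s * ∏ j ∈ Finset.range n, (1 - s ^ 2 / ((j : ℂ) + 1) ^ 2))
          * (1 - s ^ 2 / ((n : ℂ) + 1) ^ 2) := by ring
    rw [e, ← ih]
    push_cast
    field_simp
    ring

theorem euler_tendsto (s : ℂ) :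
    Tendsto (fun n : ℕ => ‖((n : ℂ) + 1) * (pq (-s) (n + 1) * pq (1 + s) n)‖ ^ 2) atTop
      (𝓝 (cst s)) := by
  have h := Complex.tendsto_euler_sin_prod s
  have hpi : (π : ℂ) ≠ 0 := Complex.ofReal_ne_zero.mpr Real.pi_ne_zero
  have h2 := ((h.div_const (π : ℂ)).norm).pow 2
  unfold cst
  refine h2.congr ?_
  intro n
  rw [pq_euler, norm_neg]
  congr 2
  field_simp

/-! the real products -/

theorem pq_gamma {x : ℝ} (hx : 0 < x) {n : ℕ} (hn : n ≠ 0) :
    pq x (n + 1) * (((n : ℝ) + 1) * Real.GammaSeq x n) = (n : ℝ) ^ x := by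
  have h1 : ∀ m : ℕ, pq x m * (m.factorial : ℝ) = ∏ j ∈ Finset.range m, (x + j) := by
    intro m
    induction m with
    | zero => simp [pq]
    | succ m ih =>
      rw [Finset.prod_range_succ, ← ih, pq_succ, Nat.factorial_succ]
      have : (m : ℝ) + 1 ≠ 0 := by positivity
      push_cast
      field_simp
  have h2 := h1 (n + 1)
  have h3 : 0 < ∏ j ∈ Finset.range (n + 1), (x + j) := by
    apply Finset.prod_pos
    intro j _
    positivity
  rw [Real.GammaSeq]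
  rw [Nat.factorial_succ] at h2
  push_cast at h2
  rw [← h2] at h3 ⊢
  have h4 : (0 : ℝ) < n.factorial := by positivity
  have h5 : (0 : ℝ) < (n : ℝ) + 1 := by positivity
  have h6 : 0 < pq x (n + 1) := pq_pos hx (n + 1)
  field_simp

theorem beta_tendsto {x y : ℝ} (hx : 0 < x) (hy : 0 < y) :
    Tendsto (fun n : ℕ => pq (x + y) (n + 1) / (pq x (n + 1) * pq y (n + 1) * ((n : ℝ) + 1))) atTop
      (𝓝 (Real.Gamma x * Real.Gamma y / Real.Gamma (x + y))) := by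
  have hxy : 0 < x + y := by linarith
  have h := ((Real.GammaSeq_tendsto_Gamma x).mul (Real.GammaSeq_tendsto_Gamma y)).div
    (Real.GammaSeq_tendsto_Gamma (x + y)) (Real.Gamma_pos_of_pos hxy).ne'
  refine h.congr' ?_
  filter_upwards [eventually_ne_atTop 0] with n hn
  have hn0 : (0 : ℝ) < n := by
    have : 0 < n := Nat.pos_of_ne_zero hn
    exact_mod_cast this
  have g1 := pq_gamma hx hn
  have g2 := pq_gamma hy hn
  have g3 := pq_gamma hxy hn
  have p1 := pq_pos hx (n + 1)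
  have p2 := pq_pos hy (n + 1)
  have p3 := pq_pos hxy (n + 1)
  rw [Real.rpow_add hn0] at g3
  have h5 : (0 : ℝ) < (n : ℝ) + 1 := by positivity
  have q1 : (0 : ℝ) < (n : ℝ) ^ x := Real.rpow_pos_of_pos hn0 x
  have q2 : (0 : ℝ) < (n : ℝ) ^ y := Real.rpow_pos_of_pos hn0 y
  have s1 : Real.GammaSeq x n = (n : ℝ) ^ x / (pq x (n + 1) * ((n : ℝ) + 1)) := by
    rw [← g1]; field_simp
  have s2 : Real.GammaSeq y n = (n : ℝ) ^ y / (pq y (n + 1) * ((n : ℝ) + 1)) := by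
    rw [← g2]; field_simp
  have s3 : Real.GammaSeq (x + y) n
      = (n : ℝ) ^ x * (n : ℝ) ^ y / (pq (x + y) (n + 1) * ((n : ℝ) + 1)) := by
    rw [← g3]; field_simp
  change Real.GammaSeq x n * Real.GammaSeq y n / Real.GammaSeq (x + y) n = _
  rw [s1, s2, s3]
  field_simp

private theorem B0_eq {s : ℂ} (hs : ‖s‖ < 1) {b : ℝ} (hσ : 0 < b + 1 - 2 * s.re) :
    B0 s b = Real.Gamma (b + 1 - 2 * s.re) * Real.Gamma (2 + 2 * s.re) / Real.Gamma (b + 3) := by
  have hr := re_gt hs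
  have hβ : 0 < 2 + 2 * s.re := by linarith
  have h := ProbabilityTheory.beta_eq_betaIntegralReal (b + 1 - 2 * s.re) (2 + 2 * s.re) hσ hβ
  unfold ProbabilityTheory.beta at h
  have e : b + 1 - 2 * s.re + (2 + 2 * s.re) = b + 3 := by ring
  rw [e] at h
  rw [h, Complex.betaIntegral, intervalIntegral.integral_of_le (by norm_num),
    ← RCLike.re_to_complex, ← integral_re]
  · unfold B0
    rw [← integral_Ioc_eq_integral_Ioo]
    refine setIntegral_congr_fun measurableSet_Ioc fun x hx => ?_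
    obtain ⟨hx1, hx2⟩ := hx
    unfold alp
    have e1 : ((b + 1 - 2 * s.re : ℝ) : ℂ) - 1 = ((b - 2 * s.re : ℝ) : ℂ) := by push_cast; ring
    have e2 : ((2 + 2 * s.re : ℝ) : ℂ) - 1 = ((2 * s.re + 1 : ℝ) : ℂ) := by push_cast; ring
    have e3 : (1 : ℂ) - (x : ℂ) = ((1 - x : ℝ) : ℂ) := by push_cast; ring
    simp only [e1, e2, e3]
    rw [← Complex.ofReal_cpow hx1.le, ← Complex.ofReal_cpow (by linarith), RCLike.re_to_complex,
      Complex.re_mul_ofReal, Complex.ofReal_re]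
    ring
  · have hc := Complex.betaIntegral_convergent (u := ((b + 1 - 2 * s.re : ℝ) : ℂ))
      (v := ((2 + 2 * s.re : ℝ) : ℂ)) (by simpa using hσ) (by simpa using hβ)
    rw [intervalIntegrable_iff_integrableOn_Ioc_of_le (by norm_num)] at hc
    exact hc

/-- the elementary factor -/
theorem ratio_tendsto (s : ℂ) (k : ℕ) :
    Tendsto (fun n : ℕ => ‖1 + s + ((n + k : ℕ) : ℂ)‖ ^ 2 / ((n : ℝ) + k + 1) ^ 2) atTop
      (𝓝 1) := by
  have h1 : Tendsto (fun n : ℕ => 1 / ((n : ℝ) + 1)) atTop (𝓝 0) :=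
    tendsto_one_div_add_atTop_nhds_zero_nat
  have h2 : Tendsto (fun n : ℕ => 1 / (((n + k : ℕ) : ℝ) + 1)) atTop (𝓝 0) :=
    h1.comp (tendsto_add_atTop_nat k)
  have h3 : Tendsto (fun n : ℕ => 1 + 2 * s.re * (1 / (((n + k : ℕ) : ℝ) + 1))
      + ‖s‖ ^ 2 * (1 / (((n + k : ℕ) : ℝ) + 1)) ^ 2) atTop
      (𝓝 (1 + 2 * s.re * 0 + ‖s‖ ^ 2 * 0 ^ 2)) :=
    ((h2.const_mul (2 * s.re)).const_add 1).add ((h2.pow 2).const_mul (‖s‖ ^ 2))
  have e : (1 : ℝ) + 2 * s.re * 0 + ‖s‖ ^ 2 * 0 ^ 2 = 1 := by ring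
  rw [e] at h3
  refine h3.congr ?_
  intro n
  rw [normSq_one_add]
  push_cast
  have : (0 : ℝ) < (n : ℝ) + k + 1 := by positivity
  field_simp

theorem en_formula {s : ℂ} (hs : ‖s‖ < 1) {b : ℝ} (hσ : 0 < b + 1 - 2 * s.re) (n : ℕ) :
    en s b (n + 1) = ‖((n : ℂ) + 1) * (pq (-s) (n + 1) * pq (1 + s) n)‖ ^ 2
      * (pq (b + 1 - 2 * s.re + (2 + 2 * s.re)) (n + 1)
          / (pq (b + 1 - 2 * s.re) (n + 1) * pq (2 + 2 * s.re) (n + 1) * ((n : ℝ) + 1)))
      * ((‖1 + s + ((n + 0 : ℕ) : ℂ)‖ ^ 2 / ((n : ℝ) + (0 : ℕ) + 1) ^ 2)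
        * (‖1 + s + ((n + 1 : ℕ) : ℂ)‖ ^ 2 / ((n : ℝ) + (1 : ℕ) + 1) ^ 2)
        * (1 + 1 / ((n : ℝ) + 1))) := by
  have hr := re_gt hs
  have hβ : 0 < 2 + 2 * s.re := by linarith
  have hQ := norm_Q s hr (n + 1)
  have p2 := pq_pos hβ (n + 1)
  have p1 := pq_pos hσ (n + 1)
  have e0 : b + 1 - 2 * s.re + (2 + 2 * s.re) = b + 3 := by ring
  have nn : ∀ m : ℕ, ‖(m : ℂ) + 1‖ = (m : ℝ) + 1 := by
    intro m
    have : (m : ℂ) + 1 = (((m : ℝ) + 1 : ℝ) : ℂ) := by push_cast; ring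
    rw [this, Complex.norm_real, Real.norm_of_nonneg (by positivity)]
  have hk : ‖1 + s‖ ^ 2 * kap s.re (‖s‖ ^ 2) (n + 1)
      = ((n : ℝ) + 2) * ‖pq (1 + s) (n + 2)‖ ^ 2 / pq (2 + 2 * s.re) (n + 1) := by
    rw [eq_div_iff p2.ne', ← hQ]
    push_cast
    ring
  have hp : ‖pq (1 + s) (n + 2)‖ ^ 2 = ‖pq (1 + s) n‖ ^ 2
      * (‖1 + s + (n : ℂ)‖ ^ 2 / ((n : ℝ) + 1) ^ 2)
      * (‖1 + s + ((n + 1 : ℕ) : ℂ)‖ ^ 2 / ((n : ℝ) + 2) ^ 2) := by
    rw [pq_succ (1 + s) (n + 1), pq_succ (1 + s) n, norm_mul, norm_mul, norm_div, norm_div,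
      nn (n + 1), nn n]
    have h7 : (((n + 1 : ℕ) : ℝ)) + 1 = (n : ℝ) + 2 := by push_cast; ring
    have h5 : (0 : ℝ) < (n : ℝ) + 1 := by positivity
    have h6 : (0 : ℝ) < (n : ℝ) + 2 := by positivity
    rw [h7]
    field_simp
  have hen : en s b (n + 1) = ‖pq (-s) (n + 1)‖ ^ 2
      * (‖1 + s‖ ^ 2 * kap s.re (‖s‖ ^ 2) (n + 1)) * pq (b + 3) (n + 1)
      / pq (b + 1 - 2 * s.re) (n + 1) := by
    unfold en
    rw [norm_mul, mul_pow]
    ring
  rw [hen, hk, hp, e0, norm_mul, norm_mul, nn n]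
  simp only [add_zero, Nat.cast_zero, Nat.cast_one]
  have h5 : (0 : ℝ) < (n : ℝ) + 1 := by positivity
  have h6 : (0 : ℝ) < (n : ℝ) + 2 := by positivity
  have h7 : (n : ℝ) + 1 + 1 = n + 2 := by ring
  have h8 : (1 : ℝ) + 1 / ((n : ℝ) + 1) = (n + 2) / (n + 1) := by
    field_simp
    ring
  rw [h7, h8]
  field_simp

set_option linter.unusedVariables false in
theorem en_tendsto {s : ℂ} (hs0 : s ≠ 0) (hs : ‖s‖ < 1) {b : ℝ} (hb : 0 < b)
    (hσ : 0 < b + 1 - 2 * s.re) : Tendsto (en s b) atTop (𝓝 (Es s b)) := by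
  have hr := re_gt hs
  have hβ : 0 < 2 + 2 * s.re := by linarith
  have h1 := euler_tendsto s
  have h2 := beta_tendsto hσ hβ
  have h3 := ratio_tendsto s 0
  have h4 := ratio_tendsto s 1
  have h5 : Tendsto (fun n : ℕ => 1 + 1 / ((n : ℝ) + 1)) atTop (𝓝 (1 + 0)) :=
    tendsto_one_div_add_atTop_nhds_zero_nat.const_add 1
  have h6 := (h1.mul h2).mul ((h3.mul h4).mul h5)
  have e0 : b + 1 - 2 * s.re + (2 + 2 * s.re) = b + 3 := by ring
  have e : cst s * (Real.Gamma (b + 1 - 2 * s.re) * Real.Gamma (2 + 2 * s.re)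
      / Real.Gamma (b + 1 - 2 * s.re + (2 + 2 * s.re))) * (1 * 1 * (1 + 0)) = Es s b := by
    unfold Es
    rw [B0_eq hs hσ, e0]
    ring
  rw [e] at h6
  rw [← tendsto_add_atTop_iff_nat 1]
  refine h6.congr ?_
  intro n
  exact (en_formula hs hσ n).symm

theorem Es_bounds {s : ℂ} (hs0 : s ≠ 0) (hs : ‖s‖ < 1) {b : ℝ} (hb : 0 < b)
    (hσ : 0 < b + 1 - 2 * s.re) {n : ℕ} (hn : 1 ≤ n) {c c' : ℝ} (hc : c < n)
    (hc' : -(n : ℝ) ≤ c')
    (hq : ∀ k : ℕ, n ≤ k → qn s b k ≤ 1 + c / ((k : ℝ) * (k + 1)))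
    (hq' : ∀ k : ℕ, n ≤ k → 1 + c' / ((k : ℝ) * (k + 1)) ≤ qn s b k) :
    en s b n * (1 + c' / n) ≤ Es s b ∧ Es s b ≤ en s b n / (1 - c / n) := by
  have hlim := en_tendsto hs0 hs hb hσ
  have hn1 : (1 : ℝ) ≤ n := by exact_mod_cast hn
  have hn0 : (0 : ℝ) < n := by linarith
  have hinv : Tendsto (fun m : ℕ => ((m : ℝ))⁻¹) atTop (𝓝 0) := tendsto_inv_atTop_nhds_zero_nat
  have hen := en_nonneg hs hb hσ n
  constructor
  · have key : ∀ m : ℕ, n ≤ m → en s b n * (1 + c' / n - c' * (m : ℝ)⁻¹) ≤ en s b m := by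
      intro m hm
      induction m, hm using Nat.le_induction with
      | base =>
        have : 1 + c' / (n : ℝ) - c' * (n : ℝ)⁻¹ = 1 := by field_simp; ring
        rw [this, mul_one]
      | succ m hm ih =>
        have hmn : (n : ℝ) ≤ m := by exact_mod_cast hm
        have hm0 : (0 : ℝ) < m := by linarith
        have hm1 : (1 : ℝ) ≤ m := by linarith
        rw [en_succ hσ m]
        have hx := hq' m hm
        have hx0 : 0 ≤ 1 + c' / ((m : ℝ) * (m + 1)) := by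
          have : -1 ≤ c' / ((m : ℝ) * (m + 1)) := by
            rw [le_div_iff₀ (by positivity)]
            nlinarith
          linarith
        have hem := en_nonneg hs hb hσ m
        have e : (1 + c' / (n : ℝ) - c' * (m : ℝ)⁻¹) * (1 + c' / ((m : ℝ) * (m + 1)))
            = (1 + c' / n - c' * (((m + 1 : ℕ) : ℝ))⁻¹)
              + c' ^ 2 * (((m : ℝ) - n) / (n * (m * (m * (m + 1))))) := by
          push_cast
          field_simp
          ring
        have hnn : 0 ≤ c' ^ 2 * (((m : ℝ) - n) / (n * (m * (m * (m + 1))))) := by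
          apply mul_nonneg (sq_nonneg _)
          apply div_nonneg (by linarith)
          positivity
        calc en s b n * (1 + c' / n - c' * (((m + 1 : ℕ) : ℝ))⁻¹)
            ≤ en s b n * ((1 + c' / (n : ℝ) - c' * (m : ℝ)⁻¹)
                * (1 + c' / ((m : ℝ) * (m + 1)))) := by
              apply mul_le_mul_of_nonneg_left _ hen
              rw [e]; linarith
          _ = en s b n * (1 + c' / (n : ℝ) - c' * (m : ℝ)⁻¹)
                * (1 + c' / ((m : ℝ) * (m + 1))) := by ring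
          _ ≤ en s b m * (1 + c' / ((m : ℝ) * (m + 1))) :=
              mul_le_mul_of_nonneg_right ih hx0
          _ ≤ en s b m * qn s b m := mul_le_mul_of_nonneg_left hx hem
    have h1 : Tendsto (fun m : ℕ => en s b n * (1 + c' / n - c' * (m : ℝ)⁻¹)) atTop
        (𝓝 (en s b n * (1 + c' / n - c' * 0))) :=
      ((hinv.const_mul c').const_sub (1 + c' / n)).const_mul (en s b n)
    have h2 := le_of_tendsto_of_tendsto h1 hlim
      (eventually_atTop.2 ⟨n, fun m hm => key m hm⟩)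
    simpa using h2
  · have hpos : 0 < 1 - c / n := by
      rw [sub_pos, div_lt_one hn0]; exact hc
    rw [le_div_iff₀ hpos]
    have key : ∀ m : ℕ, n ≤ m → en s b m * (1 - c / n) ≤ en s b n * (1 - c * (m : ℝ)⁻¹) := by
      intro m hm
      induction m, hm using Nat.le_induction with
      | base =>
        rw [div_eq_mul_inv]
      | succ m hm ih =>
        have hmn : (n : ℝ) ≤ m := by exact_mod_cast hm
        have hm0 : (0 : ℝ) < m := by linarith
        rw [en_succ hσ m]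
        have hx := hq m hm
        have hqn := qn_nonneg hs hb hσ m
        have hpm : 0 ≤ 1 - c * (m : ℝ)⁻¹ := by
          rw [← div_eq_mul_inv, sub_nonneg, div_le_one hm0]
          linarith
        have e : (1 - c * (m : ℝ)⁻¹) * (1 + c / ((m : ℝ) * (m + 1)))
            = (1 - c * (((m + 1 : ℕ) : ℝ))⁻¹) - c ^ 2 / ((m : ℝ) * (m * (m + 1))) := by
          push_cast
          field_simp
          ring
        have hnn : 0 ≤ c ^ 2 / ((m : ℝ) * (m * (m + 1))) := by positivity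
        calc en s b m * qn s b m * (1 - c / n)
            = en s b m * (1 - c / n) * qn s b m := by ring
          _ ≤ en s b n * (1 - c * (m : ℝ)⁻¹) * qn s b m := mul_le_mul_of_nonneg_right ih hqn
          _ = en s b n * ((1 - c * (m : ℝ)⁻¹) * qn s b m) := by ring
          _ ≤ en s b n * ((1 - c * (m : ℝ)⁻¹) * (1 + c / ((m : ℝ) * (m + 1)))) := by
              apply mul_le_mul_of_nonneg_left _ hen
              exact mul_le_mul_of_nonneg_left hx hpm
          _ ≤ en s b n * (1 - c * (((m + 1 : ℕ) : ℝ))⁻¹) := by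
              apply mul_le_mul_of_nonneg_left _ hen
              rw [e]; linarith
    have h1 : Tendsto (fun m : ℕ => en s b n * (1 - c * (m : ℝ)⁻¹)) atTop
        (𝓝 (en s b n * (1 - c * 0))) :=
      ((hinv.const_mul c).const_sub 1).const_mul (en s b n)
    have h2 := le_of_tendsto_of_tendsto (hlim.mul_const (1 - c / n)) h1
      (eventually_atTop.2 ⟨n, fun m hm => key m hm⟩)
    simpa using h2

end Pool.Agent.Helper24.HR2
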