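import Mathlib
import Pool.Agent.Helper24.HR2.Defs
import Pool.Agent.Helper22.Half.Growth

/-!
MP_16b0ee, project HR2, module R4: the area inequality summed over all Faber type polynomials
(complex exponent), uniform bounds of the coefficients of bounded order, and uniform bounds of the
upper forms of bounded order.
-/

set_option autoImplicit false

open MeasureTheory Set Metric Filter Topology
open scoped Real ComplexConjugate

namespace Pool.Agent.Helper24.HR2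

open Pool.Agent.Helper22.Half
open Pool.Agent.Helper22.Marshall (coeff SepHol LogPhi dcoeff GLe)
open Pool.Agent.Helper39.Area (Ext phi)
open Pool.Agent.Helper39.MH

theorem area_sum_s {β H : ℂ → ℂ} {Φ : ℂ → ℂ → ℂ} (hE : Ext β) (hΦ : LogPhi β H Φ) {s : ℂ}
    {b : ℝ} (hσ : 0 < b + 1 - 2 * s.re) (M : ℕ) :
    ∑ m ∈ Finset.range M, Pf s b (diagc (EE Φ s) m) m
      ≤ ∑ m ∈ Finset.range M, Nf s b (diagc (EE Φ s) m) m (M - (m + 1)) := by
  have h1 := double_fin (S := fun m i => ‖Vd s (diagc (EE Φ s) m) m i‖ ^ 2)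
    (lam := fun i => (pq (b + 1 - 2 * s.re) i)⁻¹) (κ := 1 ^ 2)
    (fun i => (inv_pos.mpr (pq_pos hσ i)).le)
    (fun i M => area_V (Pool.Agent.Helper22.Marshall.gLe_one hE) hE hΦ s i M) M
  rw [one_pow, one_mul] at h1
  have e1 : ∑ m ∈ Finset.range M, ∑ i ∈ Finset.range M, ((m - i : ℕ) : ℝ)
      * (pq (b + 1 - 2 * s.re) i)⁻¹ * ‖Vd s (diagc (EE Φ s) m) m i‖ ^ 2
      = ∑ m ∈ Finset.range M, Pf s b (diagc (EE Φ s) m) m := by
    apply Finset.sum_congr rfl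
    intro m hm
    exact lower_eq _ (Finset.mem_range.mp hm)
  rw [e1] at h1
  refine h1.trans (le_of_eq ?_)
  apply Finset.sum_congr rfl
  intro m _
  have h3 := upper_eq (fun i => (pq (b + 1 - 2 * s.re) i)⁻¹
    * ‖Vd s (diagc (EE Φ s) m) m i‖ ^ 2) m M
  unfold Nf
  simp only [← mul_assoc] at h3 ⊢
  exact h3

namespace AreaSAux

/-- the coefficients of `(1-x)^s` are bounded by `|s|` -/
theorem pq_le {s : ℂ} (hs : ‖s‖ ≤ 1) (n : ℕ) : ‖pq (-s) (n + 1)‖ ≤ ‖s‖ := by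
  induction n with
  | zero =>
    rw [pq_succ, pq_zero, one_mul]
    simp
  | succ n ih =>
    rw [pq_succ, norm_mul]
    have h1 : ‖(-s + ((n + 1 : ℕ) : ℂ)) / (((n + 1 : ℕ) : ℂ) + 1)‖ ≤ 1 := by
      rw [norm_div]
      have e : ‖((n + 1 : ℕ) : ℂ) + 1‖ = (n : ℝ) + 2 := by
        have : ((n + 1 : ℕ) : ℂ) + 1 = (((n : ℝ) + 2 : ℝ) : ℂ) := by push_cast; ring
        rw [this, Complex.norm_real, Real.norm_of_nonneg (by positivity)]
      rw [e, div_le_one (by positivity)]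
      calc ‖-s + ((n + 1 : ℕ) : ℂ)‖ ≤ ‖-s‖ + ‖((n + 1 : ℕ) : ℂ)‖ := norm_add_le _ _
        _ ≤ 1 + ((n : ℝ) + 1) := by
            rw [norm_neg, Complex.norm_natCast]
            push_cast
            linarith
        _ = _ := by ring
    calc ‖pq (-s) (n + 1)‖ * ‖(-s + ((n + 1 : ℕ) : ℂ)) / (((n + 1 : ℕ) : ℂ) + 1)‖
        ≤ ‖s‖ * 1 := by gcongr
      _ = ‖s‖ := mul_one _

theorem pq_le_one {s : ℂ} (hs : ‖s‖ ≤ 1) (n : ℕ) : ‖pq (-s) n‖ ≤ 1 := by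
  cases n with
  | zero => rw [pq_zero]; simp
  | succ n => exact (pq_le hs n).trans hs

/-- the boundary coefficients vanish -/
theorem diag_zero {β H : ℂ → ℂ} {Φ : ℂ → ℂ → ℂ} (hΦ : LogPhi β H Φ) (s : ℂ) {m : ℕ}
    (hm : 1 ≤ m) : diagc (EE Φ s) m 0 = 0 := by
  unfold diagc dcoeff
  have e1 : coeff (fun z => coeff (fun w => EE Φ s z w) 0) (m - 0)
      = coeff (fun _ => (1 : ℂ)) (m - 0) := by
    apply Pool.Agent.Helper22.Marshall.coeff_congr
    filter_upwards [ball_mem_nhds (0 : ℂ) one_pos] with z hz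
    rw [Pool.Agent.Helper22.Marshall.coeff_zero]
    unfold EE
    rw [hΦ.zero_right z hz, mul_zero, Complex.exp_zero]
  rw [e1, Nat.sub_zero]
  unfold coeff
  rw [iteratedDeriv_const]
  rw [if_neg (by omega)]
  simp

/-- bounds of the sums `V` by bounds of the coefficients -/
theorem V_le {s : ℂ} (hs : ‖s‖ ≤ 1) {d : ℕ → ℂ} {m i : ℕ} {B : ℝ} (hB : 0 ≤ B)
    (hd : ∀ l ≤ min i m, ‖d l‖ ≤ B) : ‖Vd s d m i‖ ≤ (i + 1) * B := by
  unfold Vd
  calc ‖∑ l ∈ Finset.range (min i m + 1), pq (-s) (i - l) * d l‖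
      ≤ ∑ l ∈ Finset.range (min i m + 1), ‖pq (-s) (i - l) * d l‖ := norm_sum_le _ _
    _ ≤ ∑ l ∈ Finset.range (min i m + 1), B := by
        apply Finset.sum_le_sum
        intro l hl
        rw [Finset.mem_range] at hl
        rw [norm_mul]
        calc ‖pq (-s) (i - l)‖ * ‖d l‖ ≤ 1 * B := by
              gcongr
              · exact pq_le_one hs _
              · exact hd l (by omega)
          _ = B := one_mul _
    _ = (((min i m + 1 : ℕ) : ℝ)) * B := by rw [Finset.sum_const, Finset.card_range, nsmul_eq_mul]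
    _ ≤ (i + 1) * B := by
        apply mul_le_mul_of_nonneg_right _ hB
        have : min i m + 1 ≤ i + 1 := by omega
        exact_mod_cast this

/-- the constants of the recursion -/
noncomputable def Kr : ℕ → ℝ
  | 0 => 0
  | i + 1 => ((i : ℝ) + 1) * (i + 2) * (Kr i + 1) + (i + 1) * Kr i

theorem Kr_nonneg (i : ℕ) : 0 ≤ Kr i := by
  induction i with
  | zero => exact le_rfl
  | succ i ih =>
    show 0 ≤ ((i : ℝ) + 1) * (i + 2) * (Kr i + 1) + (i + 1) * Kr i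
    positivity

theorem Kr_le (i : ℕ) : Kr i ≤ Kr (i + 1) := by
  show Kr i ≤ ((i : ℝ) + 1) * (i + 2) * (Kr i + 1) + (i + 1) * Kr i
  have h := Kr_nonneg i
  have h0 : (0 : ℝ) ≤ i := Nat.cast_nonneg i
  have h1 : 0 ≤ ((i : ℝ) + 1) * (i + 2) * (Kr i + 1) := by positivity
  nlinarith

/-- the coefficients close to the boundary -/
theorem diag_le {β H : ℂ → ℂ} {Φ : ℂ → ℂ → ℂ} (hE : Ext β) (hΦ : LogPhi β H Φ) {s : ℂ}
    (hs : ‖s‖ ≤ 1) (i : ℕ) : ∀ m : ℕ, 1 ≤ m → ∀ l ≤ m, min l (m - l) ≤ i →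
      ‖diagc (EE Φ s) m l‖ ≤ Kr i * ‖s‖ := by
  have hs0 : 0 ≤ ‖s‖ := norm_nonneg s
  induction i with
  | zero =>
    intro m hm l hl hmin
    have h0 : diagc (EE Φ s) m l = 0 := by
      rcases Nat.eq_zero_or_pos l with h | h
      · rw [h]; exact diag_zero hΦ s hm
      · have hml : l = m := by omega
        rw [hml, EE_symm hΦ s m m le_rfl, Nat.sub_self]
        exact diag_zero hΦ s hm
    rw [h0, norm_zero]
    show 0 ≤ 0 * ‖s‖
    rw [zero_mul]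
  | succ i ih =>
    have hK := Kr_nonneg i
    -- the value at the index `i + 1`
    have key : ∀ m : ℕ, i + 1 < m → ‖diagc (EE Φ s) m (i + 1)‖ ≤ Kr (i + 1) * ‖s‖ := by
      intro m hm
      have hA := area_V (Pool.Agent.Helper22.Marshall.gLe_one hE) hE hΦ s (i + 1) (m + 1)
      rw [one_pow, one_mul] at hA
      -- the right-hand side
      have hR : ∀ k ∈ Finset.range (i + 1), ((i + 1 - k : ℕ) : ℝ)
          * ‖Vd s (diagc (EE Φ s) k) k (i + 1)‖ ^ 2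
          ≤ ((i : ℝ) + 1) * (((i : ℝ) + 2) * ((Kr i + 1) * ‖s‖)) ^ 2 := by
        intro k hk
        rw [Finset.mem_range] at hk
        have hk1 : ((i + 1 - k : ℕ) : ℝ) ≤ (i : ℝ) + 1 := by
          have : i + 1 - k ≤ i + 1 := by omega
          exact_mod_cast this
        have hV : ‖Vd s (diagc (EE Φ s) k) k (i + 1)‖ ≤ ((i : ℝ) + 2) * ((Kr i + 1) * ‖s‖) := by
          rcases Nat.eq_zero_or_pos k with h | h
          · subst h
            unfold Vd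
            rw [Nat.min_zero, zero_add, Finset.sum_range_one, EE_zero hΦ s, mul_one, Nat.sub_zero]
            refine (pq_le hs i).trans ?_
            have h1 : 1 ≤ ((i : ℝ) + 2) * (Kr i + 1) := by
              have h0 : (0 : ℝ) ≤ i := Nat.cast_nonneg i
              nlinarith
            nlinarith
          · have h2 := V_le (m := k) (i := i + 1) (d := diagc (EE Φ s) k) (B := (Kr i + 1) * ‖s‖)
              hs (by positivity) (fun l hl => by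
                refine (ih k h l (by omega) (by omega)).trans ?_
                nlinarith)
            push_cast at h2
            calc ‖Vd s (diagc (EE Φ s) k) k (i + 1)‖ ≤ ((i : ℝ) + 1 + 1) * ((Kr i + 1) * ‖s‖) := h2
              _ = _ := by ring
        have hV0 := norm_nonneg (Vd s (diagc (EE Φ s) k) k (i + 1))
        have hfin : ((i + 1 - k : ℕ) : ℝ) * ‖Vd s (diagc (EE Φ s) k) k (i + 1)‖ ^ 2
            ≤ ((i : ℝ) + 1) * (((i : ℝ) + 2) * ((Kr i + 1) * ‖s‖)) ^ 2 := by gcongr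
        exact hfin
      have hR2 := hA.trans (Finset.sum_le_sum hR)
      rw [Finset.sum_const, Finset.card_range, nsmul_eq_mul] at hR2
      -- one term of the left-hand side
      have hL : ‖Vd s (diagc (EE Φ s) m) m (i + 1)‖ ^ 2
          ≤ ∑ k ∈ Finset.range (m + 1), ((k - (i + 1) : ℕ) : ℝ)
            * ‖Vd s (diagc (EE Φ s) k) k (i + 1)‖ ^ 2 := by
        have h1 := Finset.single_le_sum (s := Finset.range (m + 1))
          (f := fun k => ((k - (i + 1) : ℕ) : ℝ) * ‖Vd s (diagc (EE Φ s) k) k (i + 1)‖ ^ 2)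
          (fun k _ => by positivity) (Finset.mem_range.mpr (Nat.lt_succ_self m))
        refine le_trans ?_ h1
        have h2 : (1 : ℝ) ≤ ((m - (i + 1) : ℕ) : ℝ) := by
          have : 1 ≤ m - (i + 1) := by omega
          exact_mod_cast this
        have h3 := sq_nonneg ‖Vd s (diagc (EE Φ s) m) m (i + 1)‖
        show ‖Vd s (diagc (EE Φ s) m) m (i + 1)‖ ^ 2
          ≤ ((m - (i + 1) : ℕ) : ℝ) * ‖Vd s (diagc (EE Φ s) m) m (i + 1)‖ ^ 2
        nlinarith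
      have hV2 : ‖Vd s (diagc (EE Φ s) m) m (i + 1)‖
          ≤ ((i : ℝ) + 1) * ((i : ℝ) + 2) * ((Kr i + 1) * ‖s‖) := by
        have h1 := hL.trans hR2
        apply le_of_sq_le_sq _ (by positivity)
        refine h1.trans (le_of_eq ?_)
        push_cast
        ring
      -- the decomposition of `V`
      have hdec : Vd s (diagc (EE Φ s) m) m (i + 1)
          = (∑ l ∈ Finset.range (i + 1), pq (-s) (i + 1 - l) * diagc (EE Φ s) m l)
            + diagc (EE Φ s) m (i + 1) := by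
        unfold Vd
        have e : min (i + 1) m = i + 1 := by omega
        rw [e, Finset.sum_range_succ, Nat.sub_self, pq_zero, one_mul]
      have hsum : ‖∑ l ∈ Finset.range (i + 1), pq (-s) (i + 1 - l) * diagc (EE Φ s) m l‖
          ≤ ((i : ℝ) + 1) * (Kr i * ‖s‖) := by
        calc ‖∑ l ∈ Finset.range (i + 1), pq (-s) (i + 1 - l) * diagc (EE Φ s) m l‖
            ≤ ∑ l ∈ Finset.range (i + 1), ‖pq (-s) (i + 1 - l) * diagc (EE Φ s) m l‖ :=
              norm_sum_le _ _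
          _ ≤ ∑ l ∈ Finset.range (i + 1), Kr i * ‖s‖ := by
              apply Finset.sum_le_sum
              intro l hl
              rw [Finset.mem_range] at hl
              rw [norm_mul]
              calc ‖pq (-s) (i + 1 - l)‖ * ‖diagc (EE Φ s) m l‖ ≤ 1 * (Kr i * ‖s‖) := by
                    gcongr
                    · exact pq_le_one hs _
                    · exact ih m (by omega) l (by omega) (by omega)
                _ = _ := one_mul _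
          _ = _ := by
              rw [Finset.sum_const, Finset.card_range, nsmul_eq_mul]
              push_cast
              ring
      have heq : diagc (EE Φ s) m (i + 1) = Vd s (diagc (EE Φ s) m) m (i + 1)
          - ∑ l ∈ Finset.range (i + 1), pq (-s) (i + 1 - l) * diagc (EE Φ s) m l := by
        rw [hdec]; ring
      rw [heq]
      refine (norm_sub_le _ _).trans ?_
      show _ ≤ (((i : ℝ) + 1) * (i + 2) * (Kr i + 1) + (i + 1) * Kr i) * ‖s‖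
      calc ‖Vd s (diagc (EE Φ s) m) m (i + 1)‖
            + ‖∑ l ∈ Finset.range (i + 1), pq (-s) (i + 1 - l) * diagc (EE Φ s) m l‖
          ≤ ((i : ℝ) + 1) * ((i : ℝ) + 2) * ((Kr i + 1) * ‖s‖) + ((i : ℝ) + 1) * (Kr i * ‖s‖) :=
            add_le_add hV2 hsum
        _ = _ := by ring
    intro m hm l hl hmin
    by_cases hsm : min l (m - l) ≤ i
    · refine (ih m hm l hl hsm).trans ?_
      exact mul_le_mul_of_nonneg_right (Kr_le i) hs0
    · have hmin2 : min l (m - l) = i + 1 := by omega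
      rcases Nat.le_total l (m - l) with h | h
      · have hl2 : l = i + 1 := by omega
        rw [hl2]
        exact key m (by omega)
      · have hl2 : m - l = i + 1 := by omega
        rw [EE_symm hΦ s m l hl, hl2]
        exact key m (by omega)

end AreaSAux

open AreaSAux in
/-- the coefficients of bounded order are bounded; they are of the size of `s` for `m ≥ 1` -/
theorem diag_bound (m : ℕ) : ∃ C : ℝ, 0 ≤ C ∧ ∀ (ρ : ℝ) (β H : ℂ → ℂ) (Φ : ℂ → ℂ → ℂ),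
    Dat ρ β H Φ → ∀ s : ℂ, ‖s‖ ≤ 1 → ∀ l ≤ m,
      ‖diagc (EE Φ s) m l‖ ≤ C ∧ (1 ≤ m → ‖diagc (EE Φ s) m l‖ ≤ C * ‖s‖) := by
  refine ⟨Kr m + 1, by have := Kr_nonneg m; positivity, ?_⟩
  intro ρ β H Φ hD s hs l hl
  have hK := Kr_nonneg m
  have hs0 := norm_nonneg s
  have h1 : 1 ≤ m → ‖diagc (EE Φ s) m l‖ ≤ Kr m * ‖s‖ := fun hm =>
    diag_le hD.ext hD.logPhi hs m m hm l hl (by omega)
  refine ⟨?_, fun hm => (h1 hm).trans (by nlinarith)⟩
  rcases Nat.eq_zero_or_pos m with h | h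
  · subst h
    have hl0 : l = 0 := by omega
    rw [hl0, EE_zero hD.logPhi s, norm_one]
    linarith
  · refine (h1 h).trans ?_
    nlinarith

namespace AreaSAux

/-- the weights -/
noncomputable def Tn (s : ℂ) (σ : ℝ) (n : ℕ) : ℝ := ‖pq (-s) n‖ ^ 2 / pq σ n

theorem Tn_nonneg {s : ℂ} {σ : ℝ} (hσ : 0 < σ) (n : ℕ) : 0 ≤ Tn s σ n := by
  unfold Tn
  have := pq_pos hσ n
  positivity

theorem norm_pq_succ (s : ℂ) (n : ℕ) : ‖pq (-s) (n + 1)‖ ^ 2
    = ‖pq (-s) n‖ ^ 2 * (((n : ℝ) ^ 2 - 2 * s.re * n + ‖s‖ ^ 2) / ((n : ℝ) + 1) ^ 2) := by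
  rw [pq_succ, norm_mul, norm_div, mul_pow, div_pow]
  have e1 : -s + (n : ℂ) = (n : ℂ) - s := by ring
  have e : ‖(n : ℂ) + 1‖ = (n : ℝ) + 1 := by
    have : (n : ℂ) + 1 = (((n : ℝ) + 1 : ℝ) : ℂ) := by push_cast; ring
    rw [this, Complex.norm_real, Real.norm_of_nonneg (by positivity)]
  rw [e1, normSq_nat_sub, e]

theorem Tn_succ {s : ℂ} {σ : ℝ} (hσ : 0 < σ) (n : ℕ) : Tn s σ (n + 1)
    = Tn s σ n * (((n : ℝ) ^ 2 - 2 * s.re * n + ‖s‖ ^ 2) / (((n : ℝ) + 1) * (σ + n))) := by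
  unfold Tn
  rw [norm_pq_succ, pq_succ]
  have h1 := (pq_pos hσ n).ne'
  have h2 : σ + n ≠ 0 := by positivity
  have h3 : (n : ℝ) + 1 ≠ 0 := by positivity
  field_simp

/-- telescoping -/
theorem tele {s : ℂ} (hs : ‖s‖ < 1) {b c : ℝ} (hb : 0 < b) (hσ : 0 < b + 1 - 2 * s.re)
    (hc : 0 ≤ c) (hcc : 2 * ‖s‖ ^ 2 - 2 * s.re ≤ c * (1 + b - ‖s‖ ^ 2)) {n : ℕ} (hn : 1 ≤ n) :
    b / (b + 4) * ((n : ℝ) * Tn s (b + 1 - 2 * s.re) n)
      ≤ (n : ℝ) * (n + c) * Tn s (b + 1 - 2 * s.re) n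
        - ((n + 1 : ℕ) : ℝ) * (((n + 1 : ℕ) : ℝ) + c) * Tn s (b + 1 - 2 * s.re) (n + 1) := by
  have hT := Tn_nonneg (s := s) hσ n
  rw [Tn_succ hσ n]
  obtain ⟨T, hTe⟩ : ∃ T, T = Tn s (b + 1 - 2 * s.re) n := ⟨_, rfl⟩
  rw [← hTe] at hT ⊢
  have hn1 : (1 : ℝ) ≤ n := by exact_mod_cast hn
  have hre := Complex.abs_re_le_norm s
  have hre2 := abs_lt.mp (hre.trans_lt hs)
  have hu : 0 < b + 1 - 2 * s.re + n := by linarith
  have hs2 : 0 ≤ ‖s‖ ^ 2 := sq_nonneg _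
  obtain ⟨q, hq⟩ : ∃ q, q = ‖s‖ ^ 2 := ⟨_, rfl⟩
  obtain ⟨r, hr⟩ : ∃ r, r = s.re := ⟨_, rfl⟩
  rw [← hq] at hcc hs2 ⊢
  rw [← hr] at hre2 hcc hu ⊢
  obtain ⟨x, hx⟩ : ∃ x : ℝ, x = n := ⟨_, rfl⟩
  push_cast
  rw [← hx] at hn1 hu ⊢
  have e : x * (x + c) * T - (x + 1) * (x + 1 + c) * (T * ((x ^ 2 - 2 * r * x + q)
      / ((x + 1) * (b + 1 - 2 * r + x))))
      = T * ((b * x ^ 2 + x * (c * (b + 1) + 2 * r - q) - q * (1 + c)) / (b + 1 - 2 * r + x)) := by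
    have h1 : x + 1 ≠ 0 := by positivity
    field_simp
    ring
  rw [e]
  have h2 : b / (b + 4) * x ≤ (b * x ^ 2 + x * (c * (b + 1) + 2 * r - q) - q * (1 + c))
      / (b + 1 - 2 * r + x) := by
    rw [le_div_iff₀ hu, div_mul_eq_mul_div, div_mul_eq_mul_div, div_le_iff₀ (by linarith)]
    have h3 : 0 ≤ x * (c * (b + 1) + 2 * r - q) - q * (1 + c) := by
      have h4 : q * (1 + c) ≤ c * (b + 1) + 2 * r - q := by nlinarith
      have h5 : 0 ≤ c * (b + 1) + 2 * r - q := le_trans (by positivity) h4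
      nlinarith
    have h6 : b + 1 - 2 * r + x ≤ (b + 4) * x := by nlinarith
    have h7 : b * x * (b + 1 - 2 * r + x) ≤ b * x * ((b + 4) * x) := by
      apply mul_le_mul_of_nonneg_left h6 (by positivity)
    have h8 : 0 ≤ (x * (c * (b + 1) + 2 * r - q) - q * (1 + c)) * (b + 4) := by
      apply mul_nonneg h3 (by linarith)
    nlinarith
  calc b / (b + 4) * (x * T) = T * (b / (b + 4) * x) := by ring
    _ ≤ _ := mul_le_mul_of_nonneg_left h2 hT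

/-- the sums of the weights -/
theorem sum_Tn_le {s : ℂ} (hs : ‖s‖ < 1) {b c : ℝ} (hb : 0 < b) (hσ : 0 < b + 1 - 2 * s.re)
    (hc : 0 ≤ c) (hcc : 2 * ‖s‖ ^ 2 - 2 * s.re ≤ c * (1 + b - ‖s‖ ^ 2)) (k J : ℕ) :
    ∑ j ∈ Finset.range J, ((j + 1 + k : ℕ) : ℝ) * Tn s (b + 1 - 2 * s.re) (j + 1 + k)
      ≤ (b + 4) / b * ((1 + c) * (‖s‖ ^ 2 / (b + 1 - 2 * s.re))) := by
  obtain ⟨σ, hσe⟩ : ∃ σ, σ = b + 1 - 2 * s.re := ⟨_, rfl⟩
  have hσ' : 0 < σ := by rw [hσe]; exact hσ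
  obtain ⟨G, hG⟩ : ∃ G : ℕ → ℝ, G = fun n : ℕ => (n : ℝ) * (n + c) * Tn s σ n := ⟨_, rfl⟩
  have hG0 : ∀ n : ℕ, 0 ≤ G n := by
    intro n
    rw [hG]
    have := Tn_nonneg (s := s) hσ' n
    positivity
  have hstep : ∀ n : ℕ, 1 ≤ n → b / (b + 4) * ((n : ℝ) * Tn s σ n) ≤ G n - G (n + 1) := by
    intro n hn
    rw [hG, hσe]
    exact tele hs hb hσ hc hcc hn
  have hanti : ∀ n : ℕ, G (n + 1) ≤ G 1 := by
    intro n
    induction n with
    | zero => exact le_rfl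
    | succ n ih =>
      have h1 := hstep (n + 1) (by omega)
      have h2 : 0 ≤ b / (b + 4) * (((n + 1 : ℕ) : ℝ) * Tn s σ (n + 1)) := by
        have := Tn_nonneg (s := s) hσ' (n + 1)
        positivity
      linarith
  have hsum : b / (b + 4) * ∑ j ∈ Finset.range J, ((j + 1 + k : ℕ) : ℝ) * Tn s σ (j + 1 + k)
      ≤ G (1 + k) - G (J + 1 + k) := by
    induction J with
    | zero =>
      rw [Finset.sum_range_zero, mul_zero]
      have e : 0 + 1 + k = 1 + k := by ring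
      rw [e, sub_self]
    | succ J ih =>
      rw [Finset.sum_range_succ, mul_add]
      have h1 := hstep (J + 1 + k) (by omega)
      have e : J + 1 + k + 1 = J + 1 + 1 + k := by ring
      rw [e] at h1
      linarith
  have h1 : G 1 = (1 + c) * (‖s‖ ^ 2 / σ) := by
    rw [hG]
    simp only [Nat.cast_one, one_mul]
    have h2 := Tn_succ (s := s) hσ' 0
    rw [zero_add] at h2
    rw [h2]
    unfold Tn
    rw [pq_zero, pq_zero]
    simp
  have h2 := hanti k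
  have e2 : k + 1 = 1 + k := by ring
  rw [e2] at h2
  have h3 := hG0 (J + 1 + k)
  rw [← hσe]
  have h4 : b / (b + 4) * ∑ j ∈ Finset.range J, ((j + 1 + k : ℕ) : ℝ) * Tn s σ (j + 1 + k)
      ≤ (1 + c) * (‖s‖ ^ 2 / σ) := by linarith
  have hb4 : 0 < b + 4 := by linarith
  calc ∑ j ∈ Finset.range J, ((j + 1 + k : ℕ) : ℝ) * Tn s σ (j + 1 + k)
      = (b + 4) / b * (b / (b + 4)
        * ∑ j ∈ Finset.range J, ((j + 1 + k : ℕ) : ℝ) * Tn s σ (j + 1 + k)) := by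
        field_simp
    _ ≤ _ := mul_le_mul_of_nonneg_left h4 (by positivity)

/-- shifting the index of the positive weights -/
theorem pq_shift_le {σ κ : ℝ} (hκ : 0 < κ) (hκ1 : κ ≤ 1) (hκσ : κ ≤ σ) (n l : ℕ) :
    (pq σ (n + l))⁻¹ ≤ (1 / κ) ^ l * (pq σ n)⁻¹ := by
  have hσ : 0 < σ := hκ.trans_le hκσ
  induction l with
  | zero => simp
  | succ l ih =>
    have e : n + (l + 1) = n + l + 1 := by ring
    rw [e, pq_succ, mul_inv]
    have h1 := pq_pos hσ (n + l)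
    have h2 : ((σ + ((n + l : ℕ) : ℝ)) / (((n + l : ℕ) : ℝ) + 1))⁻¹ ≤ 1 / κ := by
      rw [inv_div, div_le_div_iff₀ (by positivity) hκ]
      have h3 : (0 : ℝ) ≤ ((n + l : ℕ) : ℝ) := Nat.cast_nonneg _
      nlinarith
    have h4 : 0 ≤ ((σ + ((n + l : ℕ) : ℝ)) / (((n + l : ℕ) : ℝ) + 1))⁻¹ := by positivity
    have h5 : 0 ≤ (1 / κ) ^ l * (pq σ n)⁻¹ := by
      have := pq_pos hσ n
      positivity
    calc (pq σ (n + l))⁻¹ * ((σ + ((n + l : ℕ) : ℝ)) / (((n + l : ℕ) : ℝ) + 1))⁻¹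
        ≤ ((1 / κ) ^ l * (pq σ n)⁻¹) * (1 / κ) := by gcongr
      _ = _ := by rw [pow_succ]; ring

/-- the general bound of the upper forms -/
theorem Nf_le {s : ℂ} (hs : ‖s‖ < 1) {b c κ : ℝ} (hb : 0 < b) (hσ : 0 < b + 1 - 2 * s.re)
    (hc : 0 ≤ c) (hcc : 2 * ‖s‖ ^ 2 - 2 * s.re ≤ c * (1 + b - ‖s‖ ^ 2)) (hκ : 0 < κ)
    (hκ1 : κ ≤ 1) (hκσ : κ ≤ b + 1 - 2 * s.re) {d : ℕ → ℂ} {m : ℕ} {C : ℝ} (hC : 0 ≤ C)
    (hd : ∀ l ≤ m, ‖d l‖ ≤ C) (J : ℕ) :
    Nf s b d m J ≤ ((m : ℝ) + 1) ^ 2 * C ^ 2 * (1 / κ) ^ m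
      * ((b + 4) / b * ((1 + c) * (‖s‖ ^ 2 / (b + 1 - 2 * s.re)))) := by
  obtain ⟨σ, hσe⟩ : ∃ σ, σ = b + 1 - 2 * s.re := ⟨_, rfl⟩
  obtain ⟨S, hS⟩ : ∃ S, S = (b + 4) / b * ((1 + c) * (‖s‖ ^ 2 / (b + 1 - 2 * s.re))) := ⟨_, rfl⟩
  have hsum : ∀ k, ∑ j ∈ Finset.range J, ((j + 1 + k : ℕ) : ℝ) * Tn s σ (j + 1 + k) ≤ S := by
    intro k
    rw [hσe, hS]
    exact sum_Tn_le hs hb hσ hc hcc k J
  rw [← hS]
  rw [← hσe] at hσ hκσ
  have hk1 : 1 ≤ 1 / κ := by rw [le_div_iff₀ hκ]; linarith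
  -- each term
  have hterm : ∀ j ∈ Finset.range J, ((j : ℝ) + 1) * (pq σ (m + 1 + j))⁻¹
      * ‖Vd s d m (m + 1 + j)‖ ^ 2
      ≤ ∑ l ∈ Finset.range (m + 1), ((m : ℝ) + 1) * C ^ 2 * (1 / κ) ^ m
        * (((j + 1 + (m - l) : ℕ) : ℝ) * Tn s σ (j + 1 + (m - l))) := by
    intro j _
    have hV : ‖Vd s d m (m + 1 + j)‖ ^ 2 ≤ ((m : ℝ) + 1) * ∑ l ∈ Finset.range (m + 1),
        C ^ 2 * ‖pq (-s) (m + 1 + j - l)‖ ^ 2 := by
      unfold Vd
      have e : min (m + 1 + j) m = m := by omega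
      rw [e]
      have h1 : ‖∑ l ∈ Finset.range (m + 1), pq (-s) (m + 1 + j - l) * d l‖
          ≤ ∑ l ∈ Finset.range (m + 1), C * ‖pq (-s) (m + 1 + j - l)‖ := by
        refine (norm_sum_le _ _).trans ?_
        apply Finset.sum_le_sum
        intro l hl
        rw [Finset.mem_range] at hl
        rw [norm_mul, mul_comm]
        gcongr
        exact hd l (by omega)
      have h2 := pow_le_pow_left₀ (norm_nonneg _) h1 2
      refine h2.trans ?_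
      have h3 := sq_sum_le_card_mul_sum_sq (s := Finset.range (m + 1))
        (f := fun l => C * ‖pq (-s) (m + 1 + j - l)‖)
      rw [Finset.card_range] at h3
      push_cast at h3
      refine h3.trans (le_of_eq ?_)
      congr 1
      apply Finset.sum_congr rfl
      intro l _
      rw [mul_pow]
    have hp := pq_pos hσ (m + 1 + j)
    calc ((j : ℝ) + 1) * (pq σ (m + 1 + j))⁻¹ * ‖Vd s d m (m + 1 + j)‖ ^ 2
        ≤ ((j : ℝ) + 1) * (pq σ (m + 1 + j))⁻¹ * (((m : ℝ) + 1) * ∑ l ∈ Finset.range (m + 1),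
          C ^ 2 * ‖pq (-s) (m + 1 + j - l)‖ ^ 2) := by gcongr
      _ = ∑ l ∈ Finset.range (m + 1), ((m : ℝ) + 1) * C ^ 2 * (((j : ℝ) + 1)
          * ((pq σ (m + 1 + j))⁻¹ * ‖pq (-s) (m + 1 + j - l)‖ ^ 2)) := by
          rw [Finset.mul_sum, Finset.mul_sum]
          apply Finset.sum_congr rfl
          intro l _
          ring
      _ ≤ _ := by
          apply Finset.sum_le_sum
          intro l hl
          rw [Finset.mem_range] at hl
          have e1 : m + 1 + j - l = j + 1 + (m - l) := by omega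
          have e2 : m + 1 + j = (j + 1 + (m - l)) + l := by omega
          rw [e1, e2]
          obtain ⟨n, hn⟩ : ∃ n, n = j + 1 + (m - l) := ⟨_, rfl⟩
          rw [← hn]
          have h1 := pq_shift_le hκ hκ1 hκσ n l
          have h2 : (1 / κ) ^ l ≤ (1 / κ) ^ m := pow_le_pow_right₀ hk1 (by omega)
          have h3 : (j : ℝ) + 1 ≤ (n : ℝ) := by
            have : j + 1 ≤ n := by omega
            exact_mod_cast this
          have hpn := pq_pos hσ n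
          have h4 : (pq σ (n + l))⁻¹ * ‖pq (-s) n‖ ^ 2 ≤ (1 / κ) ^ m * Tn s σ n := by
            calc (pq σ (n + l))⁻¹ * ‖pq (-s) n‖ ^ 2
                ≤ ((1 / κ) ^ l * (pq σ n)⁻¹) * ‖pq (-s) n‖ ^ 2 := by gcongr
              _ ≤ ((1 / κ) ^ m * (pq σ n)⁻¹) * ‖pq (-s) n‖ ^ 2 := by gcongr
              _ = _ := by unfold Tn; ring
          have hTn := Tn_nonneg (s := s) hσ n
          have hpl := pq_pos hσ (n + l)
          have h5 : 0 ≤ (pq σ (n + l))⁻¹ * ‖pq (-s) n‖ ^ 2 := by positivity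
          calc ((m : ℝ) + 1) * C ^ 2 * (((j : ℝ) + 1) * ((pq σ (n + l))⁻¹ * ‖pq (-s) n‖ ^ 2))
              ≤ ((m : ℝ) + 1) * C ^ 2 * ((n : ℝ) * ((1 / κ) ^ m * Tn s σ n)) := by gcongr
            _ = _ := by ring
  unfold Nf
  rw [← hσe]
  refine (Finset.sum_le_sum hterm).trans ?_
  rw [Finset.sum_comm]
  have hfin : ∀ l ∈ Finset.range (m + 1), ∑ j ∈ Finset.range J, ((m : ℝ) + 1) * C ^ 2
      * (1 / κ) ^ m * (((j + 1 + (m - l) : ℕ) : ℝ) * Tn s σ (j + 1 + (m - l)))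
      ≤ ((m : ℝ) + 1) * C ^ 2 * (1 / κ) ^ m * S := by
    intro l _
    rw [← Finset.mul_sum]
    exact mul_le_mul_of_nonneg_left (hsum (m - l)) (by positivity)
  refine (Finset.sum_le_sum hfin).trans (le_of_eq ?_)
  rw [Finset.sum_const, Finset.card_range, nsmul_eq_mul]
  push_cast
  ring

end AreaSAux

open AreaSAux in
/-- the upper forms of bounded order are bounded, uniformly for `b = |s|^2 / a` -/
theorem Nf_small (a : ℝ) (ha : 1 / 2 ≤ a) (ha1 : a < 1) (m : ℕ) : ∃ C : ℝ, 0 ≤ C ∧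
    ∀ (ρ : ℝ) (β H : ℂ → ℂ) (Φ : ℂ → ℂ → ℂ), Dat ρ β H Φ → ∀ s : ℂ, s ≠ 0 → ‖s‖ ≤ 7 / 10 →
      ∀ J : ℕ, Nf s (‖s‖ ^ 2 / a) (diagc (EE Φ s) m) m J ≤ C := by
  obtain ⟨C, hC0, hC⟩ := diag_bound m
  have ha0 : 0 < a := by linarith
  have hκ : 0 < 1 - a := by linarith
  refine ⟨((m : ℝ) + 1) ^ 2 * C ^ 2 * (1 / (1 - a)) ^ m * (5 * a * (7 * (1 / (1 - a)))), by
    positivity, ?_⟩
  intro ρ β H Φ hD s hs0 hs J
  have hsp : 0 < ‖s‖ := norm_pos_iff.mpr hs0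
  have hre := Complex.abs_re_le_norm s
  have hre2 := abs_le.mp (hre.trans hs)
  have hre3 := le_of_abs_le hre
  have hb : 0 < ‖s‖ ^ 2 / a := by positivity
  have hs2 : ‖s‖ ^ 2 ≤ 49 / 100 := by nlinarith
  have hκσ : 1 - a ≤ ‖s‖ ^ 2 / a + 1 - 2 * s.re := by
    have h1 : 0 ≤ (‖s‖ - a) ^ 2 / a := by positivity
    have h2 : (‖s‖ - a) ^ 2 / a = ‖s‖ ^ 2 / a - 2 * ‖s‖ + a := by
      field_simp
      ring
    linarith
  have hσ : 0 < ‖s‖ ^ 2 / a + 1 - 2 * s.re := hκ.trans_le hκσ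
  have hb1 : ‖s‖ ^ 2 / a ≤ 1 := by
    rw [div_le_one ha0]; linarith
  have h1 := Nf_le (s := s) (b := ‖s‖ ^ 2 / a) (c := 6) (κ := 1 - a) (d := diagc (EE Φ s) m)
    (m := m) (C := C) (by linarith) hb hσ (by norm_num) (by nlinarith [hb]) hκ (by linarith) hκσ
    hC0 (fun l hl => (hC ρ β H Φ hD s (by linarith) l hl).1) J
  refine h1.trans ?_
  have h2 : (‖s‖ ^ 2 / a + 4) / (‖s‖ ^ 2 / a) * ((1 + 6) * (‖s‖ ^ 2 / (‖s‖ ^ 2 / a + 1 - 2 * s.re)))
      ≤ 5 * a * (7 * (1 / (1 - a))) := by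
    have e : (‖s‖ ^ 2 / a + 4) / (‖s‖ ^ 2 / a)
        * ((1 + 6) * (‖s‖ ^ 2 / (‖s‖ ^ 2 / a + 1 - 2 * s.re)))
        = (‖s‖ ^ 2 / a + 4) * a * (7 * (1 / (‖s‖ ^ 2 / a + 1 - 2 * s.re))) := by
      have h3 : ‖s‖ ≠ 0 := hsp.ne'
      obtain ⟨u, hu⟩ : ∃ u, u = ‖s‖ ^ 2 / a + 1 - 2 * s.re := ⟨_, rfl⟩
      rw [← hu] at hσ ⊢
      have hu0 := hσ.ne'
      field_simp
      ring
    rw [e]
    have h4 : 1 / (‖s‖ ^ 2 / a + 1 - 2 * s.re) ≤ 1 / (1 - a) := one_div_le_one_div_of_le hκ hκσ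
    have h5 : 0 ≤ 1 / (‖s‖ ^ 2 / a + 1 - 2 * s.re) := by positivity
    have h6 : (‖s‖ ^ 2 / a + 4) * a ≤ 5 * a := by nlinarith
    have h7 : 0 ≤ (‖s‖ ^ 2 / a + 4) * a := by positivity
    have h8 : (‖s‖ ^ 2 / a + 4) * a * (7 * (1 / (‖s‖ ^ 2 / a + 1 - 2 * s.re)))
        ≤ 5 * a * (7 * (1 / (1 - a))) := by gcongr
    exact h8
  exact mul_le_mul_of_nonneg_left h2 (by positivity)

open AreaSAux in
theorem Nf_small_fixed {s : ℂ} (hs : ‖s‖ < 1) {b : ℝ} (hb : 0 < b)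
    (hσ : 0 < b + 1 - 2 * s.re) (m : ℕ) : ∃ C : ℝ, 0 ≤ C ∧
    ∀ (ρ : ℝ) (β H : ℂ → ℂ) (Φ : ℂ → ℂ → ℂ), Dat ρ β H Φ →
      ∀ J : ℕ, Nf s b (diagc (EE Φ s) m) m J ≤ C := by
  obtain ⟨C, hC0, hC⟩ := diag_bound m
  have hre := Complex.abs_re_le_norm s
  have hre2 := abs_lt.mp (hre.trans_lt hs)
  have hsn := norm_nonneg s
  have hs2 : ‖s‖ ^ 2 < 1 := by nlinarith
  have hκ : 0 < min 1 (b + 1 - 2 * s.re) := lt_min one_pos hσ
  have h1s : 0 < 1 - ‖s‖ ^ 2 := by linarith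
  have hc0 : 0 ≤ 4 / (1 - ‖s‖ ^ 2) := by positivity
  have hcc : 2 * ‖s‖ ^ 2 - 2 * s.re ≤ 4 / (1 - ‖s‖ ^ 2) * (1 + b - ‖s‖ ^ 2) := by
    have h1 : 4 / (1 - ‖s‖ ^ 2) * (1 - ‖s‖ ^ 2) = 4 := by field_simp
    have h2 : 4 / (1 - ‖s‖ ^ 2) * (1 + b - ‖s‖ ^ 2)
        = 4 / (1 - ‖s‖ ^ 2) * (1 - ‖s‖ ^ 2) + 4 / (1 - ‖s‖ ^ 2) * b := by ring
    rw [h2, h1]
    have h3 : 0 ≤ 4 / (1 - ‖s‖ ^ 2) * b := by positivity
    linarith
  refine ⟨((m : ℝ) + 1) ^ 2 * C ^ 2 * (1 / min 1 (b + 1 - 2 * s.re)) ^ m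
      * ((b + 4) / b * ((1 + 4 / (1 - ‖s‖ ^ 2)) * (‖s‖ ^ 2 / (b + 1 - 2 * s.re)))), by
    positivity, ?_⟩
  intro ρ β H Φ hD J
  exact Nf_le hs hb hσ hc0 hcc hκ (min_le_left _ _) (min_le_right _ _) hC0
    (fun l hl => (hC ρ β H Φ hD s hs.le l hl).1) J

end Pool.Agent.Helper24.HR2
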