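import Mathlib
import Pool.Agent.Helper22.Half.Norms

/-!
MP_16b0ee, project HR2, module 6a, first part: asymptotics of the coefficients of `(1-x)^(-z)`.
-/

set_option autoImplicit false

open MeasureTheory Set Filter Topology
open scoped Real Nat

namespace Pool.Agent.Helper24.HR2

open Pool.Agent.Helper22.Half

theorem pq_prod (z : ℂ) (n : ℕ) : pq z n * (n ! : ℂ) = ∏ j ∈ Finset.range n, (z + j) := by
  induction n with
  | zero => simp [pq]
  | succ n ih =>
    rw [Finset.prod_range_succ, ← ih, pq_succ, Nat.factorial_succ]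
    have h : (n : ℂ) + 1 ≠ 0 := Nat.cast_add_one_ne_zero n
    push_cast
    field_simp

theorem pq_ofReal (b : ℝ) (n : ℕ) : pq (b : ℂ) n = ((pq b n : ℝ) : ℂ) := by
  induction n with
  | zero => simp [pq]
  | succ n ih =>
    rw [pq_succ, pq_succ, ih]
    push_cast
    ring

theorem pq_gammaSeq {z : ℂ} (hz : ∀ m : ℕ, z ≠ -m) {n : ℕ} (hn : n ≠ 0) :
    pq z n * (n : ℂ) ^ (1 - z) = (Complex.GammaSeq z n)⁻¹ * ((n : ℂ) / (z + n)) := by
  have hn0 : (n : ℂ) ≠ 0 := Nat.cast_ne_zero.mpr hn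
  have hzn : z + n ≠ 0 := fun h => hz n (eq_neg_of_add_eq_zero_left h)
  have hf : (n ! : ℂ) ≠ 0 := Nat.cast_ne_zero.mpr (Nat.factorial_ne_zero n)
  have hp : (n : ℂ) ^ z ≠ 0 := by
    rw [Complex.cpow_def_of_ne_zero hn0]
    exact Complex.exp_ne_zero _
  rw [Complex.GammaSeq, Finset.prod_range_succ, ← pq_prod, inv_div, Complex.cpow_sub _ _ hn0,
    Complex.cpow_one]
  field_simp

theorem tendsto_pq {z : ℂ} (hz : ∀ m : ℕ, z ≠ -m) :
    Tendsto (fun n : ℕ => pq z n * (n : ℂ) ^ (1 - z)) atTop (𝓝 (Complex.Gamma z)⁻¹) := by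
  have h1 : Tendsto (fun n : ℕ => (n : ℂ) / (z + n)) atTop (𝓝 1) := by
    have h2 : Tendsto (fun n : ℕ => (z / (n : ℂ) + 1)⁻¹) atTop (𝓝 (0 + 1)⁻¹) := by
      apply Tendsto.inv₀
      · apply Tendsto.add _ tendsto_const_nhds
        exact tendsto_const_div_atTop_nhds_zero_nat z
      · norm_num
    rw [zero_add, inv_one] at h2
    apply h2.congr'
    filter_upwards [eventually_ne_atTop 0] with n hn
    have hn0 : (n : ℂ) ≠ 0 := Nat.cast_ne_zero.mpr hn
    rw [div_add_one hn0, inv_div]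
  have h3 := ((Complex.GammaSeq_tendsto_Gamma z).inv₀ (Complex.Gamma_ne_zero hz)).mul h1
  rw [mul_one] at h3
  apply h3.congr'
  filter_upwards [eventually_ne_atTop 0] with n hn
  exact (pq_gammaSeq hz hn).symm

/-- the ratio of consecutive powers tends to one -/
theorem tendsto_shift_pow (p : ℝ) :
    Tendsto (fun n : ℕ => (((n : ℝ) + 1) / n) ^ p) atTop (𝓝 1) := by
  have h1 : Tendsto (fun n : ℕ => ((n : ℝ) + 1) / n) atTop (𝓝 1) := by
    have h2 : Tendsto (fun n : ℕ => 1 + (1 : ℝ) / n) atTop (𝓝 (1 + 0)) :=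
      tendsto_const_nhds.add tendsto_one_div_atTop_nhds_zero_nat
    rw [add_zero] at h2
    apply h2.congr'
    filter_upwards [eventually_ne_atTop 0] with n hn
    have hn0 : (n : ℝ) ≠ 0 := Nat.cast_ne_zero.mpr hn
    field_simp
  have h3 := h1.rpow_const (p := p) (Or.inl one_ne_zero)
  rwa [Real.one_rpow] at h3

theorem tendsto_norm_pq {z : ℂ} (hz : ∀ m : ℕ, z ≠ -m) :
    Tendsto (fun n : ℕ => ‖pq z n‖ * ((n : ℝ) + 1) ^ (1 - z.re)) atTop
      (𝓝 ‖Complex.Gamma z‖⁻¹) := by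
  have h1 := (tendsto_pq hz).norm
  rw [norm_inv] at h1
  have h2 := h1.mul (tendsto_shift_pow (1 - z.re))
  rw [mul_one] at h2
  apply h2.congr'
  filter_upwards [eventually_gt_atTop 0] with n hn
  have hn0 : (0 : ℝ) < n := by exact_mod_cast hn
  rw [norm_mul, Complex.norm_natCast_cpow_of_pos hn, Complex.sub_re, Complex.one_re,
    Real.div_rpow (by positivity) hn0.le]
  have : (n : ℝ) ^ (1 - z.re) ≠ 0 := (Real.rpow_pos_of_pos hn0 _).ne'
  field_simp

theorem tendsto_pq_real {z : ℝ} (hz : 0 < z) :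
    Tendsto (fun n : ℕ => pq z n * ((n : ℝ) + 1) ^ (1 - z)) atTop (𝓝 (Real.Gamma z)⁻¹) := by
  have hne : ∀ m : ℕ, (z : ℂ) ≠ -m := by
    intro m h
    have h1 := congrArg Complex.re h
    simp only [Complex.ofReal_re, Complex.neg_re, Complex.natCast_re] at h1
    have : (0 : ℝ) ≤ m := Nat.cast_nonneg m
    linarith
  have h := tendsto_norm_pq hne
  rw [Complex.ofReal_re, Complex.Gamma_ofReal, Complex.norm_real, Real.norm_eq_abs,
    abs_of_pos (Real.Gamma_pos_of_pos hz)] at h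
  apply h.congr
  intro n
  rw [pq_ofReal, Complex.norm_real, Real.norm_eq_abs, abs_of_pos (pq_pos hz n)]

theorem tendsto_pq_real_inv {z : ℝ} (hz : 0 < z) :
    Tendsto (fun n : ℕ => (pq z n)⁻¹ * ((n : ℝ) + 1) ^ (z - 1)) atTop (𝓝 (Real.Gamma z)) := by
  have h := (tendsto_pq_real hz).inv₀ (inv_ne_zero (Real.Gamma_pos_of_pos hz).ne')
  rw [inv_inv] at h
  apply h.congr
  intro n
  have h1 : (0 : ℝ) < (n : ℝ) + 1 := by positivity
  rw [mul_inv, ← Real.rpow_neg h1.le, neg_sub]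

/-- a bound from a limit -/
theorem le_of_tendsto_pow {u : ℕ → ℝ} {p L : ℝ}
    (h : Tendsto (fun n : ℕ => u n * ((n : ℝ) + 1) ^ p) atTop (𝓝 L)) :
    ∃ C : ℝ, 0 ≤ C ∧ ∀ n : ℕ, u n ≤ C * ((n : ℝ) + 1) ^ (-p) := by
  obtain ⟨C, hC⟩ := h.bddAbove_range
  refine ⟨max C 0, le_max_right _ _, fun n => ?_⟩
  have h1 : (0 : ℝ) < (n : ℝ) + 1 := by positivity
  have h2 : u n * ((n : ℝ) + 1) ^ p ≤ C := hC ⟨n, rfl⟩
  have h3 : (0 : ℝ) < ((n : ℝ) + 1) ^ p := Real.rpow_pos_of_pos h1 _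
  rw [Real.rpow_neg h1.le, ← div_eq_mul_inv, le_div_iff₀ h3]
  exact h2.trans (le_max_left _ _)

/-- scaled limits along a sequence of indices -/
theorem tendsto_scaled {u : ℕ → ℝ} {p L t : ℝ} (ht : 0 < t)
    (h : Tendsto (fun n : ℕ => u n * ((n : ℝ) + 1) ^ p) atTop (𝓝 L)) {k : ℕ → ℕ}
    (hk : Tendsto (fun m : ℕ => ((k m : ℝ) + 1) / m) atTop (𝓝 t)) :
    Tendsto (fun m : ℕ => u (k m) * (m : ℝ) ^ p) atTop (𝓝 (L * t ^ (-p))) := by
  have hk1 : Tendsto k atTop atTop := by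
    have h1 : Tendsto (fun m : ℕ => ((k m : ℝ) + 1) / m * m) atTop atTop :=
      hk.pos_mul_atTop ht tendsto_natCast_atTop_atTop
    have h2 : Tendsto (fun m : ℕ => (k m : ℝ) + 1) atTop atTop := by
      apply h1.congr'
      filter_upwards [eventually_ne_atTop 0] with m hm
      have hm0 : (m : ℝ) ≠ 0 := Nat.cast_ne_zero.mpr hm
      field_simp
    have h3 : Tendsto (fun m : ℕ => (k m : ℝ)) atTop atTop := by
      have := tendsto_atTop_add_const_right atTop (-1 : ℝ) h2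
      simpa using this
    exact tendsto_natCast_atTop_iff.mp h3
  have h4 := (h.comp hk1).mul (hk.rpow_const (p := -p) (Or.inl ht.ne'))
  apply h4.congr'
  filter_upwards [eventually_gt_atTop 0] with m hm
  have hm0 : (0 : ℝ) < m := by exact_mod_cast hm
  have hk0 : (0 : ℝ) < (k m : ℝ) + 1 := by positivity
  simp only [Function.comp_apply]
  rw [Real.rpow_neg (by positivity), Real.div_rpow hk0.le hm0.le, inv_div]
  have : ((k m : ℝ) + 1) ^ p ≠ 0 := (Real.rpow_pos_of_pos hk0 _).ne'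
  field_simp

theorem tendsto_of_scaled_atTop {k : ℕ → ℕ} {t : ℝ} (ht : 0 < t)
    (hk : Tendsto (fun m : ℕ => ((k m : ℝ) + 1) / m) atTop (𝓝 t)) : Tendsto k atTop atTop := by
  have h1 : Tendsto (fun m : ℕ => ((k m : ℝ) + 1) / m * m) atTop atTop :=
    hk.pos_mul_atTop ht tendsto_natCast_atTop_atTop
  have h2 : Tendsto (fun m : ℕ => (k m : ℝ) + 1) atTop atTop := by
    apply h1.congr'
    filter_upwards [eventually_ne_atTop 0] with m hm
    have hm0 : (m : ℝ) ≠ 0 := Nat.cast_ne_zero.mpr hm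
    field_simp
  have h3 : Tendsto (fun m : ℕ => (k m : ℝ)) atTop atTop := by
    have := tendsto_atTop_add_const_right atTop (-1 : ℝ) h2
    simpa using this
  exact tendsto_natCast_atTop_iff.mp h3

end Pool.Agent.Helper24.HR2
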