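import Mathlib
import Pool.Agent.Helper24.HR2.Defs
import Pool.Agent.Helper24.HR2.AsyA

/-!
MP_16b0ee, project HR2, module 6a: asymptotics and domination of the discrete densities; `x` in
`(0,1)`, `y > 0`, `i = floor (m x)`, `j = floor (m y)`.
-/

set_option autoImplicit false

open MeasureTheory Set Metric Filter Topology
open scoped Real ComplexConjugate

namespace Pool.Agent.Helper24.HR2

open Pool.Agent.Helper22.Half
open Pool.Agent.Helper22.Marshall (coeff SepHol LogPhi dcoeff GLe)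
open Pool.Agent.Helper39.Area (Ext phi)
open Pool.Agent.Helper39.MH

noncomputable def alm (s : ℂ) (b : ℝ) (m : ℕ) (x : ℝ) : ℝ :=
  aD s b m ⌊(m : ℝ) * x⌋₊ / (m : ℝ) ^ (b + 1)

noncomputable def bem (s : ℂ) (b : ℝ) (m : ℕ) (y : ℝ) : ℝ :=
  bD s b m ⌊(m : ℝ) * y⌋₊ * (m : ℝ) ^ (b + 1)

theorem re_bounds {s : ℂ} (hs : ‖s‖ < 1) : -1 < s.re ∧ s.re < 1 :=
  abs_lt.mp ((Complex.abs_re_le_norm s).trans_lt hs)

theorem one_add_ne {s : ℂ} (hs : ‖s‖ < 1) : 1 + s ≠ 0 := by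
  intro h
  have h1 : s = -1 := by linear_combination h
  rw [h1, norm_neg, norm_one] at hs
  exact lt_irrefl _ hs

/-! the floor -/

theorem tendsto_floor {x : ℝ} (hx : 0 ≤ x) :
    Tendsto (fun m : ℕ => ((⌊(m : ℝ) * x⌋₊ : ℝ)) / m) atTop (𝓝 x) := by
  have h := (tendsto_nat_floor_mul_div_atTop hx).comp
    (tendsto_natCast_atTop_atTop (R := ℝ))
  refine h.congr fun m => ?_
  simp only [Function.comp_apply]
  rw [mul_comm]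

theorem tendsto_floor_one {x : ℝ} (hx : 0 ≤ x) :
    Tendsto (fun m : ℕ => ((⌊(m : ℝ) * x⌋₊ : ℝ) + 1) / m) atTop (𝓝 x) := by
  have h := (tendsto_floor hx).add (tendsto_one_div_atTop_nhds_zero_nat (𝕜 := ℝ))
  rw [add_zero] at h
  refine h.congr fun m => ?_
  rw [add_div]

theorem floor_lt_m {m : ℕ} (hm : 1 ≤ m) {x : ℝ} (hx : x ∈ Ioo (0 : ℝ) 1) :
    ⌊(m : ℝ) * x⌋₊ < m := by
  have hm0 : (0 : ℝ) < m := by exact_mod_cast hm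
  rw [Nat.floor_lt' (by omega)]
  nlinarith [hx.1, hx.2]

theorem cast_sub_floor {m : ℕ} (hm : 1 ≤ m) {x : ℝ} (hx : x ∈ Ioo (0 : ℝ) 1) :
    ((m - 1 - ⌊(m : ℝ) * x⌋₊ : ℕ) : ℝ) + 1 = m - (⌊(m : ℝ) * x⌋₊ : ℝ) := by
  have h := floor_lt_m hm hx
  have h1 : m - 1 - ⌊(m : ℝ) * x⌋₊ + 1 = m - ⌊(m : ℝ) * x⌋₊ := by omega
  have h2 : ((m - 1 - ⌊(m : ℝ) * x⌋₊ + 1 : ℕ) : ℝ) = ((m - ⌊(m : ℝ) * x⌋₊ : ℕ) : ℝ) := by
    rw [h1]
  rw [Nat.cast_sub h.le] at h2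
  push_cast at h2
  exact h2

theorem tendsto_co_floor {x : ℝ} (hx : x ∈ Ioo (0 : ℝ) 1) :
    Tendsto (fun m : ℕ => (((m - 1 - ⌊(m : ℝ) * x⌋₊ : ℕ) : ℝ) + 1) / m) atTop (𝓝 (1 - x)) := by
  have h := (tendsto_const_nhds (x := (1 : ℝ))).sub (tendsto_floor hx.1.le)
  refine h.congr' ?_
  filter_upwards [eventually_ge_atTop 1] with m hm
  have hm0 : (m : ℝ) ≠ 0 := by
    have : m ≠ 0 := by omega
    exact_mod_cast this
  rw [cast_sub_floor hm hx, sub_div, div_self hm0]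

theorem floor_mul_le {m : ℕ} {x : ℝ} (hx : 0 ≤ x) : (⌊(m : ℝ) * x⌋₊ : ℝ) ≤ m * x :=
  Nat.floor_le (by positivity)

theorem lt_floor_mul {m : ℕ} {x : ℝ} : (m : ℝ) * x < (⌊(m : ℝ) * x⌋₊ : ℝ) + 1 :=
  Nat.lt_floor_add_one _

/-! the constants -/

theorem kap_tendsto {s : ℂ} (hs : ‖s‖ < 1) : Tendsto (kap s.re (‖s‖ ^ 2)) atTop
    (𝓝 (Real.Gamma (2 + 2 * s.re) / ‖Complex.Gamma (s + 2)‖ ^ 2)) := by
  obtain ⟨hr1, hr2⟩ := re_bounds hs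
  have h1s := one_add_ne hs
  have hz : ∀ m : ℕ, 1 + s ≠ -m := by
    intro m h
    have h1 := congrArg Complex.re h
    simp only [Complex.add_re, Complex.one_re, Complex.neg_re, Complex.natCast_re] at h1
    have : (0 : ℝ) ≤ m := Nat.cast_nonneg m
    linarith
  have t1 : Tendsto (fun n : ℕ => ‖pq (1 + s) (n + 1)‖ * (((n + 1 : ℕ) : ℝ) + 1) ^ (-s.re)) atTop
      (𝓝 ‖Complex.Gamma (1 + s)‖⁻¹) := by
    have h := (tendsto_norm_pq hz).comp (tendsto_add_atTop_nat 1)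
    refine h.congr fun n => ?_
    simp only [Function.comp_apply, Complex.add_re, Complex.one_re]
    congr 2
    ring
  have t2 := tendsto_pq_real_inv (z := 2 + 2 * s.re) (by linarith)
  have t3 := (tendsto_shift_pow (2 * s.re)).comp (tendsto_add_atTop_nat 1)
  have t4 := (((t1.pow 2).mul t2).mul t3).const_mul ((‖1 + s‖ ^ 2)⁻¹)
  have hG : ‖Complex.Gamma (s + 2)‖ = ‖1 + s‖ * ‖Complex.Gamma (1 + s)‖ := by
    have e : s + 2 = (1 + s) + 1 := by ring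
    rw [e, Complex.Gamma_add_one _ h1s, norm_mul]
  have hn1 : ‖1 + s‖ ≠ 0 := norm_ne_zero_iff.mpr h1s
  have hlim : (‖1 + s‖ ^ 2)⁻¹ * (‖Complex.Gamma (1 + s)‖⁻¹ ^ 2 * Real.Gamma (2 + 2 * s.re) * 1)
      = Real.Gamma (2 + 2 * s.re) / ‖Complex.Gamma (s + 2)‖ ^ 2 := by
    rw [hG, mul_pow, inv_pow]
    have hg : ‖Complex.Gamma (1 + s)‖ ≠ 0 := norm_ne_zero_iff.mpr (Complex.Gamma_ne_zero hz)
    field_simp
  rw [hlim] at t4
  refine t4.congr fun n => ?_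
  simp only [Function.comp_apply]
  have hq := norm_Q s hr1 n
  have hp := pq_pos (by linarith : 0 < 2 + 2 * s.re) n
  have a1 : (0 : ℝ) < (n : ℝ) + 1 := by positivity
  have a2 : (0 : ℝ) < (n : ℝ) + 1 + 1 := by positivity
  push_cast
  rw [mul_pow]
  have e1 : (((n : ℝ) + 1 + 1) ^ (-s.re)) ^ 2 = (((n : ℝ) + 1 + 1) ^ (2 * s.re))⁻¹ := by
    rw [← Real.rpow_natCast, ← Real.rpow_mul a2.le, ← Real.rpow_neg a2.le]
    congr 1
    push_cast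
    ring
  have e2 : ((n : ℝ) + 1) ^ (2 + 2 * s.re - 1) = ((n : ℝ) + 1) * ((n : ℝ) + 1) ^ (2 * s.re) := by
    have : 2 + 2 * s.re - 1 = 1 + 2 * s.re := by ring
    rw [this, Real.rpow_add a1, Real.rpow_one]
  have e3 : (((n : ℝ) + 1 + 1) / ((n : ℝ) + 1)) ^ (2 * s.re)
      = ((n : ℝ) + 1 + 1) ^ (2 * s.re) / ((n : ℝ) + 1) ^ (2 * s.re) := Real.div_rpow a2.le a1.le _
  rw [e1, e2, e3]
  have b1 : ((n : ℝ) + 1) ^ (2 * s.re) ≠ 0 := (Real.rpow_pos_of_pos a1 _).ne'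
  have b2 : ((n : ℝ) + 1 + 1) ^ (2 * s.re) ≠ 0 := (Real.rpow_pos_of_pos a2 _).ne'
  have c1 : kap s.re (‖s‖ ^ 2) n
      = (((n : ℝ) + 1) * ‖pq (1 + s) (n + 1)‖ ^ 2) / (‖1 + s‖ ^ 2 * pq (2 + 2 * s.re) n) := by
    rw [hq, eq_div_iff (mul_ne_zero (pow_ne_zero 2 hn1) hp.ne')]
    ring
  rw [c1]
  field_simp

theorem KS_eq {s : ℂ} (hs : ‖s‖ < 1) :
    KS s = Real.Gamma (2 + 2 * s.re) / ‖Complex.Gamma (s + 2)‖ ^ 2 := by
  have h := kap_tendsto hs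
  have hm : Monotone (kap s.re (‖s‖ ^ 2)) := fun a c hac =>
    kap_mono (re_bounds hs).1 (sq_nonneg _) hac
  exact tendsto_nhds_unique (tendsto_atTop_ciSup hm h.bddAbove_range) h

theorem KS_pos {s : ℂ} (hs : ‖s‖ < 1) : 0 < KS s := by
  have h1 := kap_ge_one (re_bounds hs).1 (sq_nonneg ‖s‖) 0
  have h2 : kap s.re (‖s‖ ^ 2) 0 ≤ KS s := le_ciSup (kap_tendsto hs).bddAbove_range 0
  linarith

theorem kap_le_KS {s : ℂ} (hs : ‖s‖ < 1) (n : ℕ) : kap s.re (‖s‖ ^ 2) n ≤ KS s :=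
  le_ciSup (kap_tendsto hs).bddAbove_range n

theorem kap_tendsto_KS {s : ℂ} (hs : ‖s‖ < 1) :
    Tendsto (kap s.re (‖s‖ ^ 2)) atTop (𝓝 (KS s)) := by
  rw [KS_eq hs]
  exact kap_tendsto hs

theorem B0_eq {s : ℂ} (hs : ‖s‖ < 1) {b : ℝ} (hσ : 0 < b + 1 - 2 * s.re) :
    B0 s b = Real.Gamma (2 + 2 * s.re) * Real.Gamma (b + 1 - 2 * s.re) / Real.Gamma (b + 3) := by
  obtain ⟨hr1, hr2⟩ := re_bounds hs
  have hv : 0 < 2 + 2 * s.re := by linarith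
  have h := ProbabilityTheory.beta_eq_betaIntegralReal (b + 1 - 2 * s.re) (2 + 2 * s.re) hσ hv
  have h1 : ProbabilityTheory.beta (b + 1 - 2 * s.re) (2 + 2 * s.re)
      = Real.Gamma (2 + 2 * s.re) * Real.Gamma (b + 1 - 2 * s.re) / Real.Gamma (b + 3) := by
    unfold ProbabilityTheory.beta
    rw [mul_comm (Real.Gamma (b + 1 - 2 * s.re))]
    congr 2
    ring
  rw [← h1, h, B0, Complex.betaIntegral, intervalIntegral.integral_of_le (by norm_num),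
    integral_Ioc_eq_integral_Ioo, ← RCLike.re_to_complex, ← integral_re]
  · refine setIntegral_congr_fun measurableSet_Ioo fun x hx => ?_
    have hx0 : 0 ≤ x := hx.1.le
    have hx1 : 0 ≤ 1 - x := by linarith [hx.2]
    have e1 : ((x : ℂ)) ^ (((b + 1 - 2 * s.re : ℝ) : ℂ) - 1) = ((x ^ (b - 2 * s.re) : ℝ) : ℂ) := by
      rw [Complex.ofReal_cpow hx0]
      congr 1
      push_cast
      ring
    have e2 : (1 - (x : ℂ)) ^ (((2 + 2 * s.re : ℝ) : ℂ) - 1)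
        = (((1 - x) ^ (2 * s.re + 1) : ℝ) : ℂ) := by
      rw [Complex.ofReal_cpow hx1]
      push_cast
      congr 1
      ring
    simp only [alp]
    rw [e1, e2, ← Complex.ofReal_mul, RCLike.re_to_complex, Complex.ofReal_re]
    ring
  · have := Complex.betaIntegral_convergent (u := ((b + 1 - 2 * s.re : ℝ) : ℂ))
      (v := ((2 + 2 * s.re : ℝ) : ℂ)) (by simpa using hσ) (by simpa using hv)
    rw [intervalIntegrable_iff_integrableOn_Ioo_of_le (by norm_num)] at this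
    exact this

/-! pointwise limits -/

theorem neg_ne_nat {s : ℂ} (hs0 : s ≠ 0) (hs : ‖s‖ < 1) (m : ℕ) : -s ≠ -(m : ℂ) := by
  intro h
  have h1 : s = m := neg_injective h
  rcases Nat.eq_zero_or_pos m with h2 | h2
  · apply hs0
    rw [h1, h2, Nat.cast_zero]
  · rw [h1, Complex.norm_natCast] at hs
    have : (1 : ℝ) ≤ m := by exact_mod_cast h2
    linarith

theorem alm_tendsto {s : ℂ} (hs : ‖s‖ < 1) {b : ℝ} (hσ : 0 < b + 1 - 2 * s.re) {x : ℝ}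
    (hx : x ∈ Ioo (0 : ℝ) 1) : Tendsto (fun m : ℕ => alm s b m x) atTop
      (𝓝 (KS s * (Real.Gamma (2 + 2 * s.re))⁻¹ * (Real.Gamma (b + 1 - 2 * s.re))⁻¹
        * alp s b x)) := by
  obtain ⟨hr1, hr2⟩ := re_bounds hs
  have hx1 : 0 < 1 - x := by linarith [hx.2]
  have k1 := tendsto_co_floor hx
  have k2 := tendsto_floor_one hx.1.le
  have t1 := (kap_tendsto_KS hs).comp (tendsto_of_scaled_atTop hx1 k1)
  have t2 := tendsto_scaled hx1 (tendsto_pq_real (z := 2 + 2 * s.re) (by linarith)) k1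
  have t3 := tendsto_scaled hx.1 (tendsto_pq_real hσ) k2
  have t4 := (t1.mul t2).mul t3
  have hlim : KS s * ((Real.Gamma (2 + 2 * s.re))⁻¹ * (1 - x) ^ (-(1 - (2 + 2 * s.re))))
      * ((Real.Gamma (b + 1 - 2 * s.re))⁻¹ * x ^ (-(1 - (b + 1 - 2 * s.re))))
      = KS s * (Real.Gamma (2 + 2 * s.re))⁻¹ * (Real.Gamma (b + 1 - 2 * s.re))⁻¹
        * alp s b x := by
    have e1 : -(1 - (2 + 2 * s.re)) = 2 * s.re + 1 := by ring
    have e2 : -(1 - (b + 1 - 2 * s.re)) = b - 2 * s.re := by ring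
    rw [e1, e2, alp]
    ring
  rw [hlim] at t4
  refine t4.congr' ?_
  filter_upwards [eventually_gt_atTop 0] with m hm
  have hm0 : (0 : ℝ) < m := by exact_mod_cast hm
  simp only [Function.comp_apply, alm, aD]
  have e3 : (m : ℝ) ^ (1 - (2 + 2 * s.re)) * (m : ℝ) ^ (1 - (b + 1 - 2 * s.re))
      = ((m : ℝ) ^ (b + 1))⁻¹ := by
    rw [← Real.rpow_add hm0, ← Real.rpow_neg hm0.le]
    congr 1
    ring
  rw [div_eq_mul_inv, ← e3]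
  ring

theorem bem_tendsto {s : ℂ} (hs0 : s ≠ 0) (hs : ‖s‖ < 1) {b : ℝ} (hσ : 0 < b + 1 - 2 * s.re)
    {y : ℝ} (hy : 0 < y) : Tendsto (fun m : ℕ => bem s b m y) atTop
      (𝓝 (‖1 + s‖ ^ 2 * (‖Complex.Gamma (-s)‖⁻¹) ^ 2 * Real.Gamma (b + 1 - 2 * s.re)
        * bet b y)) := by
  have hy1 : 0 < 1 + y := by linarith
  have k1 := tendsto_floor_one hy.le
  have k2 : Tendsto (fun m : ℕ => (((m + 1 + ⌊(m : ℝ) * y⌋₊ : ℕ) : ℝ) + 1) / m) atTop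
      (𝓝 (1 + y)) := by
    have h := ((tendsto_const_nhds (x := (1 : ℝ))).add
      (tendsto_one_div_atTop_nhds_zero_nat (𝕜 := ℝ))).add k1
    rw [add_zero] at h
    refine h.congr' ?_
    filter_upwards [eventually_gt_atTop 0] with m hm
    have hm0 : (m : ℝ) ≠ 0 := by
      have : m ≠ 0 := by omega
      exact_mod_cast this
    push_cast
    field_simp
    ring
  have t1 := tendsto_scaled hy1 (tendsto_norm_pq (neg_ne_nat hs0 hs)) k2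
  have t2 := tendsto_scaled (p := (b + 1 - 2 * s.re) - 1) hy1 (tendsto_pq_real_inv hσ) k2
  have t3 := ((k1.mul (t1.pow 2)).mul t2).const_mul (‖1 + s‖ ^ 2)
  have hlim : ‖1 + s‖ ^ 2 * (y * (‖Complex.Gamma (-s)‖⁻¹ * (1 + y) ^ (-(1 - (-s).re))) ^ 2
      * (Real.Gamma (b + 1 - 2 * s.re) * (1 + y) ^ (-(b + 1 - 2 * s.re - 1))))
      = ‖1 + s‖ ^ 2 * (‖Complex.Gamma (-s)‖⁻¹) ^ 2 * Real.Gamma (b + 1 - 2 * s.re)
        * bet b y := by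
    have e1 : ((1 + y) ^ (-(1 - (-s).re))) ^ 2 * (1 + y) ^ (-(b + 1 - 2 * s.re - 1))
        = (1 + y) ^ (-b - 2) := by
      rw [← Real.rpow_natCast, ← Real.rpow_mul hy1.le, ← Real.rpow_add hy1]
      congr 1
      rw [Complex.neg_re]
      push_cast
      ring
    rw [bet, ← e1]
    ring
  rw [hlim] at t3
  refine t3.congr' ?_
  filter_upwards [eventually_gt_atTop 0] with m hm
  have hm0 : (0 : ℝ) < m := by exact_mod_cast hm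
  simp only [bem, bD]
  have e3 : ((m : ℝ) ^ (1 - (-s).re)) ^ 2 * (m : ℝ) ^ (b + 1 - 2 * s.re - 1)
      = (m : ℝ) * (m : ℝ) ^ (b + 1) := by
    have e4 : (m : ℝ) * (m : ℝ) ^ (b + 1) = (m : ℝ) ^ ((1 : ℝ) + (b + 1)) := by
      rw [Real.rpow_add hm0 1 (b + 1), Real.rpow_one]
    rw [e4, ← Real.rpow_natCast, ← Real.rpow_mul hm0.le, ← Real.rpow_add hm0]
    congr 1
    rw [Complex.neg_re]
    push_cast
    ring
  rw [norm_mul, mul_pow, mul_pow]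
  have e5 : ‖1 + s‖ ^ 2 * (((⌊(m : ℝ) * y⌋₊ : ℝ) + 1) / m
      * (‖pq (-s) (m + 1 + ⌊(m : ℝ) * y⌋₊)‖ ^ 2 * ((m : ℝ) ^ (1 - (-s).re)) ^ 2)
      * ((pq (b + 1 - 2 * s.re) (m + 1 + ⌊(m : ℝ) * y⌋₊))⁻¹ * (m : ℝ) ^ (b + 1 - 2 * s.re - 1)))
      = ‖1 + s‖ ^ 2 * (((⌊(m : ℝ) * y⌋₊ : ℝ) + 1) / m
      * ‖pq (-s) (m + 1 + ⌊(m : ℝ) * y⌋₊)‖ ^ 2
      * (pq (b + 1 - 2 * s.re) (m + 1 + ⌊(m : ℝ) * y⌋₊))⁻¹
      * (((m : ℝ) ^ (1 - (-s).re)) ^ 2 * (m : ℝ) ^ (b + 1 - 2 * s.re - 1))) := by ring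
  rw [e5, e3]
  field_simp

/-- the constants and the pointwise limits -/
theorem asy_consts {s : ℂ} (hs0 : s ≠ 0) (hs : ‖s‖ < 1) {b : ℝ} (hb : 0 < b)
    (hσ : 0 < b + 1 - 2 * s.re) : ∃ ca cb : ℝ, 0 < ca ∧ 0 < cb ∧ ca * cb = cst s
      ∧ (∀ x ∈ Ioo (0 : ℝ) 1, Tendsto (fun m : ℕ => alm s b m x) atTop (𝓝 (ca * alp s b x)))
      ∧ (∀ y : ℝ, 0 < y → Tendsto (fun m : ℕ => bem s b m y) atTop (𝓝 (cb * bet b y)))
      ∧ Tendsto (fun m : ℕ => KS s * pq (b + 3) (m - 1) / (m : ℝ) ^ (b + 2)) atTop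
          (𝓝 (ca * B0 s b)) := by
  obtain ⟨hr1, hr2⟩ := re_bounds hs
  have g1 := Real.Gamma_pos_of_pos (by linarith : 0 < 2 + 2 * s.re)
  have g2 := Real.Gamma_pos_of_pos hσ
  have hK := KS_pos hs
  have h1s := one_add_ne hs
  have hn1 : 0 < ‖1 + s‖ := norm_pos_iff.mpr h1s
  have hgs : Complex.Gamma (-s) ≠ 0 := Complex.Gamma_ne_zero (neg_ne_nat hs0 hs)
  have hgn : 0 < ‖Complex.Gamma (-s)‖ := norm_pos_iff.mpr hgs
  refine ⟨KS s * (Real.Gamma (2 + 2 * s.re))⁻¹ * (Real.Gamma (b + 1 - 2 * s.re))⁻¹,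
    ‖1 + s‖ ^ 2 * (‖Complex.Gamma (-s)‖⁻¹) ^ 2 * Real.Gamma (b + 1 - 2 * s.re),
    by positivity, by positivity, ?_, fun x hx => alm_tendsto hs hσ hx,
    fun y hy => bem_tendsto hs0 hs hσ hy, ?_⟩
  · have e1 : Complex.Gamma (s + 2) = (1 + s) * Complex.Gamma (1 + s) := by
      have e : s + 2 = (1 + s) + 1 := by ring
      rw [e, Complex.Gamma_add_one _ h1s]
    have e2 := Complex.Gamma_mul_Gamma_one_sub (-s)
    rw [sub_neg_eq_add] at e2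
    have e3 : (Complex.Gamma (-s) * Complex.Gamma (1 + s))⁻¹
        = Complex.sin (π * -s) / π := by rw [e2, inv_div]
    have e4 : cst s = (‖Complex.Gamma (-s)‖⁻¹ * ‖Complex.Gamma (1 + s)‖⁻¹) ^ 2 := by
      rw [cst, ← norm_inv, ← norm_inv, ← norm_mul, ← mul_inv, e3, mul_neg, Complex.sin_neg,
        neg_div, norm_neg]
    have hg3 : 0 < ‖Complex.Gamma (1 + s)‖ := by
      apply norm_pos_iff.mpr
      apply Complex.Gamma_ne_zero_of_re_pos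
      rw [Complex.add_re, Complex.one_re]
      linarith
    rw [e4, KS_eq hs, e1, norm_mul]
    have g1' := g1.ne'
    have g2' := g2.ne'
    generalize Real.Gamma (2 + 2 * s.re) = G1 at g1' ⊢
    generalize Real.Gamma (b + 1 - 2 * s.re) = G2 at g2' ⊢
    field_simp
  · have k1 : Tendsto (fun m : ℕ => (((m - 1 : ℕ) : ℝ) + 1) / m) atTop (𝓝 1) := by
      refine tendsto_const_nhds.congr' ?_
      filter_upwards [eventually_gt_atTop 0] with m hm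
      have hm0 : (m : ℝ) ≠ 0 := by
        have : m ≠ 0 := by omega
        exact_mod_cast this
      have h1 : ((m - 1 : ℕ) : ℝ) + 1 = m := by
        rw [Nat.cast_sub hm, Nat.cast_one, sub_add_cancel]
      rw [h1, div_self hm0]
    have t1 := (tendsto_scaled one_pos (tendsto_pq_real (z := b + 3) (by linarith)) k1).const_mul
      (KS s)
    rw [Real.one_rpow, mul_one] at t1
    have hlim : KS s * (Real.Gamma (b + 3))⁻¹ = KS s * (Real.Gamma (2 + 2 * s.re))⁻¹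
        * (Real.Gamma (b + 1 - 2 * s.re))⁻¹ * B0 s b := by
      rw [B0_eq hs hσ]
      have g1' := g1.ne'
      have g2' := g2.ne'
      generalize Real.Gamma (2 + 2 * s.re) = G1 at g1' ⊢
      generalize Real.Gamma (b + 1 - 2 * s.re) = G2 at g2' ⊢
      field_simp
    rw [hlim] at t1
    refine t1.congr' ?_
    filter_upwards [eventually_gt_atTop 0] with m hm
    have hm0 : (0 : ℝ) < m := by exact_mod_cast hm
    have e1 : (m : ℝ) ^ (1 - (b + 3)) = ((m : ℝ) ^ (b + 2))⁻¹ := by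
      rw [← Real.rpow_neg hm0.le]
      congr 1
      ring
    rw [e1]
    ring

/-! domination -/

theorem exists_norm_pq_le {s : ℂ} (hs : ‖s‖ < 1) : ∃ C : ℝ, 0 ≤ C ∧ ∀ n : ℕ, 1 ≤ n →
    ‖pq (-s) n‖ ≤ C * ((n : ℝ) + 1) ^ (-(1 + s.re)) := by
  rcases eq_or_ne s 0 with h0 | h0
  · refine ⟨0, le_rfl, fun n hn => ?_⟩
    obtain ⟨k, rfl⟩ : ∃ k, n = k + 1 := ⟨n - 1, by omega⟩
    have : pq (-(0 : ℂ)) (k + 1) = 0 := by
      rw [neg_zero]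
      induction k with
      | zero => simp [pq]
      | succ k ih => rw [pq_succ, ih (by omega), zero_mul]
    rw [h0, this, norm_zero, zero_mul]
  · have h := tendsto_norm_pq (neg_ne_nat h0 hs)
    rw [Complex.neg_re, sub_neg_eq_add] at h
    obtain ⟨C, hC, h1⟩ := le_of_tendsto_pow h
    exact ⟨C, hC, fun n _ => h1 n⟩

theorem rpow_le_add_one {x t a : ℝ} (hx : 0 < x) (hxt : x ≤ t) (ht : t ≤ 1) :
    t ^ a ≤ x ^ a + 1 := by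
  have h0 : 0 < t := hx.trans_le hxt
  have h1 := Real.rpow_nonneg hx.le a
  rcases le_total a 0 with ha | ha
  · have := Real.rpow_le_rpow_of_nonpos hx hxt ha
    linarith
  · have := Real.rpow_le_one h0.le ht ha
    linarith

theorem alm_le {s : ℂ} (hs : ‖s‖ < 1) {b : ℝ} (hb : 0 < b) (hσ : 0 < b + 1 - 2 * s.re) :
    ∃ C : ℝ, 0 ≤ C ∧ ∀ m : ℕ, 1 ≤ m → ∀ x ∈ Ioo (0 : ℝ) 1, 0 ≤ alm s b m x ∧
      alm s b m x ≤ C * (((1 - x) ^ (2 * s.re + 1) + 1) * (x ^ (b - 2 * s.re) + 1)) := by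
  obtain ⟨hr1, hr2⟩ := re_bounds hs
  have hz : 0 < 2 + 2 * s.re := by linarith
  obtain ⟨C1, hC1, h1⟩ := le_of_tendsto_pow (tendsto_pq_real hz)
  obtain ⟨C2, hC2, h2⟩ := le_of_tendsto_pow (tendsto_pq_real hσ)
  have hK := KS_pos hs
  refine ⟨KS s * C1 * C2, by positivity, fun m hm x hx => ?_⟩
  have hm0 : (0 : ℝ) < m := by exact_mod_cast hm
  have hx1 : 0 < 1 - x := by linarith [hx.2]
  have p1 := pq_pos hz (m - 1 - ⌊(m : ℝ) * x⌋₊)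
  have p2 := pq_pos hσ ⌊(m : ℝ) * x⌋₊
  have p3 := kap_ge_one hr1 (sq_nonneg ‖s‖) (m - 1 - ⌊(m : ℝ) * x⌋₊)
  have hmb : (0 : ℝ) < (m : ℝ) ^ (b + 1) := Real.rpow_pos_of_pos hm0 _
  have f1 := h1 (m - 1 - ⌊(m : ℝ) * x⌋₊)
  have f2 := h2 ⌊(m : ℝ) * x⌋₊
  have f3 := kap_le_KS hs (m - 1 - ⌊(m : ℝ) * x⌋₊)
  have i1 := floor_mul_le (m := m) hx.1.le
  have i2 := lt_floor_mul (m := m) (x := x)
  have i3 := floor_lt_m hm hx
  have i4 := cast_sub_floor hm hx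
  have i5 : (⌊(m : ℝ) * x⌋₊ : ℝ) + 1 ≤ m := by exact_mod_cast i3
  have j0 : (0 : ℝ) ≤ ⌊(m : ℝ) * x⌋₊ := Nat.cast_nonneg _
  -- the first factor
  have u1 : (((m - 1 - ⌊(m : ℝ) * x⌋₊ : ℕ) : ℝ) + 1) / m ≤ 1 := by
    rw [div_le_one hm0, i4]
    linarith
  have u2 : 1 - x ≤ (((m - 1 - ⌊(m : ℝ) * x⌋₊ : ℕ) : ℝ) + 1) / m := by
    rw [le_div_iff₀ hm0, i4]
    nlinarith
  have u3 := rpow_le_add_one (a := 2 * s.re + 1) hx1 u2 u1
  have v1 : ((⌊(m : ℝ) * x⌋₊ : ℝ) + 1) / m ≤ 1 := by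
    rw [div_le_one hm0]
    exact i5
  have v2 : x ≤ ((⌊(m : ℝ) * x⌋₊ : ℝ) + 1) / m := by
    rw [le_div_iff₀ hm0]
    nlinarith
  have v3 := rpow_le_add_one (a := b - 2 * s.re) hx.1 v2 v1
  have w1 : (0 : ℝ) < ((m - 1 - ⌊(m : ℝ) * x⌋₊ : ℕ) : ℝ) + 1 := by positivity
  have w2 : (0 : ℝ) < (⌊(m : ℝ) * x⌋₊ : ℝ) + 1 := by positivity
  have e1 : -(1 - (2 + 2 * s.re)) = 2 * s.re + 1 := by ring
  have e2 : -(1 - (b + 1 - 2 * s.re)) = b - 2 * s.re := by ring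
  rw [e1] at f1
  rw [e2] at f2
  rw [Real.div_rpow w1.le hm0.le] at u3
  rw [Real.div_rpow w2.le hm0.le] at v3
  have e3 : (m : ℝ) ^ (2 * s.re + 1) * (m : ℝ) ^ (b - 2 * s.re) = (m : ℝ) ^ (b + 1) := by
    rw [← Real.rpow_add hm0]
    congr 1
    ring
  have q1 : (0 : ℝ) < (m : ℝ) ^ (2 * s.re + 1) := Real.rpow_pos_of_pos hm0 _
  have q2 : (0 : ℝ) < (m : ℝ) ^ (b - 2 * s.re) := Real.rpow_pos_of_pos hm0 _
  have q3 : 0 ≤ (((m - 1 - ⌊(m : ℝ) * x⌋₊ : ℕ) : ℝ) + 1) ^ (2 * s.re + 1) :=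
    Real.rpow_nonneg w1.le _
  have q4 : 0 ≤ ((⌊(m : ℝ) * x⌋₊ : ℝ) + 1) ^ (b - 2 * s.re) := Real.rpow_nonneg w2.le _
  have hx2 : 0 ≤ (1 - x) ^ (2 * s.re + 1) := Real.rpow_nonneg hx1.le _
  have hx3 : 0 ≤ x ^ (b - 2 * s.re) := Real.rpow_nonneg hx.1.le _
  refine ⟨?_, ?_⟩
  · simp only [alm, aD]
    positivity
  · simp only [alm, aD]
    calc kap s.re (‖s‖ ^ 2) (m - 1 - ⌊(m : ℝ) * x⌋₊) * pq (2 + 2 * s.re) (m - 1 - ⌊(m : ℝ) * x⌋₊)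
          * pq (b + 1 - 2 * s.re) ⌊(m : ℝ) * x⌋₊ / (m : ℝ) ^ (b + 1)
        ≤ KS s * (C1 * (((m - 1 - ⌊(m : ℝ) * x⌋₊ : ℕ) : ℝ) + 1) ^ (2 * s.re + 1))
          * (C2 * ((⌊(m : ℝ) * x⌋₊ : ℝ) + 1) ^ (b - 2 * s.re)) / (m : ℝ) ^ (b + 1) := by
          gcongr
      _ = KS s * C1 * C2 * (((((m - 1 - ⌊(m : ℝ) * x⌋₊ : ℕ) : ℝ) + 1) ^ (2 * s.re + 1)
            / (m : ℝ) ^ (2 * s.re + 1))
          * (((⌊(m : ℝ) * x⌋₊ : ℝ) + 1) ^ (b - 2 * s.re) / (m : ℝ) ^ (b - 2 * s.re))) := by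
          rw [← e3]
          field_simp
      _ ≤ _ := by gcongr

theorem bem_le {s : ℂ} (hs : ‖s‖ < 1) {b : ℝ} (hb : 0 < b) (hσ : 0 < b + 1 - 2 * s.re) :
    ∃ C : ℝ, 0 ≤ C ∧ ∀ m : ℕ, 1 ≤ m → ∀ y : ℝ, 0 < y → 0 ≤ bem s b m y ∧
      bem s b m y ≤ C * ((y + 1 / m) * (1 + y) ^ (-b - 2)) := by
  obtain ⟨C1, hC1, h1⟩ := exists_norm_pq_le hs
  obtain ⟨C2, hC2, h2⟩ := le_of_tendsto_pow (p := (b + 1 - 2 * s.re) - 1)
    (tendsto_pq_real_inv hσ)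
  refine ⟨‖1 + s‖ ^ 2 * C1 ^ 2 * C2, by positivity, fun m hm y hy => ?_⟩
  have hm0 : (0 : ℝ) < m := by exact_mod_cast hm
  have hy1 : 0 < 1 + y := by linarith
  have p2 := pq_pos hσ (m + 1 + ⌊(m : ℝ) * y⌋₊)
  have f1 := h1 (m + 1 + ⌊(m : ℝ) * y⌋₊) (by omega)
  have f2 := h2 (m + 1 + ⌊(m : ℝ) * y⌋₊)
  have i1 := floor_mul_le (m := m) hy.le
  have i2 := lt_floor_mul (m := m) (x := y)
  have j0 : (0 : ℝ) ≤ ⌊(m : ℝ) * y⌋₊ := Nat.cast_nonneg _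
  have hmb : (0 : ℝ) < (m : ℝ) ^ (b + 1) := Real.rpow_pos_of_pos hm0 _
  have w0 : (0 : ℝ) < ((m + 1 + ⌊(m : ℝ) * y⌋₊ : ℕ) : ℝ) + 1 := by positivity
  have u1 : 1 + y ≤ (((m + 1 + ⌊(m : ℝ) * y⌋₊ : ℕ) : ℝ) + 1) / m := by
    rw [le_div_iff₀ hm0]
    push_cast
    nlinarith
  have u2 : ((⌊(m : ℝ) * y⌋₊ : ℝ) + 1) / m ≤ y + 1 / m := by
    rw [add_div]
    have : (⌊(m : ℝ) * y⌋₊ : ℝ) / m ≤ y := by
      rw [div_le_iff₀ hm0]
      linarith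
    linarith
  have u3 : ((((m + 1 + ⌊(m : ℝ) * y⌋₊ : ℕ) : ℝ) + 1) / m) ^ (-b - 2) ≤ (1 + y) ^ (-b - 2) :=
    Real.rpow_le_rpow_of_nonpos hy1 u1 (by linarith)
  rw [Real.div_rpow w0.le hm0.le] at u3
  have q0 : (0 : ℝ) < (m : ℝ) ^ (-b - 2) := Real.rpow_pos_of_pos hm0 _
  have q1 : 0 ≤ (1 + y) ^ (-b - 2) := Real.rpow_nonneg hy1.le _
  have q2 : 0 ≤ (((m + 1 + ⌊(m : ℝ) * y⌋₊ : ℕ) : ℝ) + 1) ^ (-(1 + s.re)) :=
    Real.rpow_nonneg w0.le _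
  have q3 : 0 ≤ (((m + 1 + ⌊(m : ℝ) * y⌋₊ : ℕ) : ℝ) + 1) ^ (-(b + 1 - 2 * s.re - 1)) :=
    Real.rpow_nonneg w0.le _
  refine ⟨?_, ?_⟩
  · simp only [bem, bD]
    positivity
  · simp only [bem, bD]
    have e1 : (m : ℝ) ^ (b + 1) = 1 / ((m : ℝ) * (m : ℝ) ^ (-b - 2)) := by
      have h3 : (m : ℝ) * (m : ℝ) ^ (-b - 2) = (m : ℝ) ^ (-(b + 1)) := by
        have h4 : -(b + 1) = 1 + (-b - 2) := by ring
        rw [h4, Real.rpow_add hm0, Real.rpow_one]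
      rw [h3, Real.rpow_neg hm0.le, one_div, inv_inv]
    have e2 : ((((m + 1 + ⌊(m : ℝ) * y⌋₊ : ℕ) : ℝ) + 1) ^ (-(1 + s.re))) ^ 2
        * (((m + 1 + ⌊(m : ℝ) * y⌋₊ : ℕ) : ℝ) + 1) ^ (-(b + 1 - 2 * s.re - 1))
        = (((m + 1 + ⌊(m : ℝ) * y⌋₊ : ℕ) : ℝ) + 1) ^ (-b - 2) := by
      rw [← Real.rpow_natCast, ← Real.rpow_mul w0.le, ← Real.rpow_add w0]
      congr 1
      push_cast
      ring
    rw [norm_mul, mul_pow, div_eq_mul_inv]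
    calc ((⌊(m : ℝ) * y⌋₊ : ℝ) + 1) * (‖1 + s‖ ^ 2 * ‖pq (-s) (m + 1 + ⌊(m : ℝ) * y⌋₊)‖ ^ 2)
          * (pq (b + 1 - 2 * s.re) (m + 1 + ⌊(m : ℝ) * y⌋₊))⁻¹ * (m : ℝ) ^ (b + 1)
        ≤ ((⌊(m : ℝ) * y⌋₊ : ℝ) + 1) * (‖1 + s‖ ^ 2
            * (C1 * (((m + 1 + ⌊(m : ℝ) * y⌋₊ : ℕ) : ℝ) + 1) ^ (-(1 + s.re))) ^ 2)
          * (C2 * (((m + 1 + ⌊(m : ℝ) * y⌋₊ : ℕ) : ℝ) + 1) ^ (-(b + 1 - 2 * s.re - 1)))
          * (m : ℝ) ^ (b + 1) := by gcongr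
      _ = ‖1 + s‖ ^ 2 * C1 ^ 2 * C2 * (((⌊(m : ℝ) * y⌋₊ : ℝ) + 1) / m
          * ((((m + 1 + ⌊(m : ℝ) * y⌋₊ : ℕ) : ℝ) + 1) ^ (-b - 2) / (m : ℝ) ^ (-b - 2))) := by
          rw [← e2, e1]
          ring
      _ ≤ _ := by gcongr

theorem kD_le {s : ℂ} (hs : ‖s‖ < 1) : ∃ C : ℝ, 0 ≤ C ∧ ∀ m : ℕ, 1 ≤ m → ∀ x y : ℝ, 0 < x →
    0 < y → ‖kD s m ⌊(m : ℝ) * x⌋₊ ⌊(m : ℝ) * y⌋₊‖ ≤ C / (x + y + 1 / m) := by
  have h1 : 0 < 1 - ‖s‖ := by linarith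
  refine ⟨3 / (1 - ‖s‖), by positivity, fun m hm x y hx hy => ?_⟩
  have hm0 : (0 : ℝ) < m := by exact_mod_cast hm
  have i1 := lt_floor_mul (m := m) (x := x)
  have i2 := lt_floor_mul (m := m) (x := y)
  have j1 : (0 : ℝ) ≤ ⌊(m : ℝ) * x⌋₊ := Nat.cast_nonneg _
  have j2 : (0 : ℝ) ≤ ⌊(m : ℝ) * y⌋₊ := Nat.cast_nonneg _
  generalize ⌊(m : ℝ) * x⌋₊ = i at *
  generalize ⌊(m : ℝ) * y⌋₊ = j at *
  have h2 : (1 - ‖s‖) * ((j : ℝ) + 1 + i) ≤ ‖((j + 1 + i : ℕ) : ℂ) - s‖ := by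
    have h3 := norm_sub_norm_le (((j + 1 + i : ℕ) : ℂ)) s
    rw [Complex.norm_natCast] at h3
    push_cast at h3 ⊢
    have h4 : 0 ≤ ‖s‖ := norm_nonneg s
    nlinarith
  have h5 : 0 < (1 - ‖s‖) * ((j : ℝ) + 1 + i) := by positivity
  have h6 : 0 < x + y + 1 / m := by positivity
  unfold kD
  rw [norm_div, Complex.norm_natCast, div_div, div_le_div_iff₀ (h5.trans_le h2) (by positivity)]
  have h7 : (m : ℝ) * (x + y + 1 / m) = m * x + m * y + 1 := by field_simp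
  calc (m : ℝ) * ((1 - ‖s‖) * (x + y + 1 / m))
      = (1 - ‖s‖) * (m * x + m * y + 1) := by rw [← h7]; ring
    _ ≤ (1 - ‖s‖) * (3 * ((j : ℝ) + 1 + i)) := by
        apply mul_le_mul_of_nonneg_left _ h1.le
        linarith
    _ = 3 * ((1 - ‖s‖) * ((j : ℝ) + 1 + i)) := by ring
    _ ≤ _ := by
        apply mul_le_mul_of_nonneg_left h2 (by norm_num)

theorem kD_tendsto {s : ℂ} {x y : ℝ} (hx : 0 < x) (hy : 0 < y) :
    Tendsto (fun m : ℕ => kD s m ⌊(m : ℝ) * x⌋₊ ⌊(m : ℝ) * y⌋₊) atTop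
      (𝓝 ((1 / (x + y) : ℝ) : ℂ)) := by
  have h1 : Tendsto (fun m : ℕ => (((⌊(m : ℝ) * y⌋₊ : ℝ) + 1) / m + (⌊(m : ℝ) * x⌋₊ : ℝ) / m))
      atTop (𝓝 (y + x)) := (tendsto_floor_one hy.le).add (tendsto_floor hx.le)
  have h2 : Tendsto (fun m : ℕ => ((((⌊(m : ℝ) * y⌋₊ : ℝ) + 1) / m
      + (⌊(m : ℝ) * x⌋₊ : ℝ) / m : ℝ) : ℂ) - s / m) atTop (𝓝 (((y + x : ℝ) : ℂ) - 0)) :=
    ((Complex.continuous_ofReal.tendsto _).comp h1).sub (tendsto_const_div_atTop_nhds_zero_nat s)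
  rw [sub_zero] at h2
  have h3 : ((y + x : ℝ) : ℂ) ≠ 0 := by
    have : y + x ≠ 0 := by positivity
    exact_mod_cast this
  have h4 := h2.inv₀ h3
  have e : (((y + x : ℝ) : ℂ))⁻¹ = ((1 / (x + y) : ℝ) : ℂ) := by
    rw [add_comm y x, one_div, Complex.ofReal_inv]
  rw [e] at h4
  refine h4.congr' ?_
  filter_upwards [eventually_gt_atTop 0] with m hm
  have hm0 : (m : ℂ) ≠ 0 := by
    have : m ≠ 0 := by omega
    exact_mod_cast this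
  unfold kD
  rw [← inv_div]
  congr 1
  push_cast
  field_simp

theorem XD_tendsto {s : ℂ} (n : ℕ) {x : ℝ} (hx : x ∈ Ioo (0 : ℝ) 1) :
    Tendsto (fun m : ℕ => XD s m n ⌊(m : ℝ) * x⌋₊) atTop (𝓝 (((1 - x) ^ n : ℝ) : ℂ)) := by
  have h1 : ∀ k ∈ Finset.range n, Tendsto (fun m : ℕ => (s + 1 + k
      + ((m - ⌊(m : ℝ) * x⌋₊ : ℕ) : ℂ)) / m) atTop (𝓝 (((1 - x : ℝ)) : ℂ)) := by
    intro k _
    have h2 : Tendsto (fun m : ℕ => (s + k) / (m : ℂ)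
        + (((((m - 1 - ⌊(m : ℝ) * x⌋₊ : ℕ) : ℝ) + 1) / m : ℝ) : ℂ) + 1 / (m : ℂ))
        atTop (𝓝 (0 + ((1 - x : ℝ) : ℂ) + 0)) :=
      ((tendsto_const_div_atTop_nhds_zero_nat (s + k)).add
        ((Complex.continuous_ofReal.tendsto _).comp (tendsto_co_floor hx))).add
        (tendsto_const_div_atTop_nhds_zero_nat (1 : ℂ))
    rw [zero_add, add_zero] at h2
    refine h2.congr' ?_
    filter_upwards [eventually_ge_atTop 1] with m hm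
    have hm0 : (m : ℂ) ≠ 0 := by
      have : m ≠ 0 := by omega
      exact_mod_cast this
    have h3 := floor_lt_m hm hx
    have h4 : m - ⌊(m : ℝ) * x⌋₊ = m - 1 - ⌊(m : ℝ) * x⌋₊ + 1 := by omega
    rw [h4]
    push_cast
    field_simp
    ring
  have h5 := tendsto_finset_prod _ h1
  rw [Finset.prod_const, Finset.card_range, ← Complex.ofReal_pow] at h5
  refine h5.congr fun m => ?_
  unfold XD
  rw [Finset.prod_div_distrib, Finset.prod_const, Finset.card_range]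

theorem XD_le (n : ℕ) : ∃ C : ℝ, 0 ≤ C ∧ ∀ s : ℂ, ‖s‖ < 1 → ∀ m : ℕ, 1 ≤ m → ∀ i < m,
    ‖XD s m n i‖ ≤ C := by
  refine ⟨∏ k ∈ Finset.range n, (3 + (k : ℝ)), Finset.prod_nonneg fun k _ => by positivity,
    fun s hs m hm i hi => ?_⟩
  have hm0 : (0 : ℝ) < m := by exact_mod_cast hm
  have hm1 : (1 : ℝ) ≤ m := by exact_mod_cast hm
  unfold XD
  rw [norm_div, norm_pow, Complex.norm_natCast, div_le_iff₀ (by positivity), norm_prod]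
  have e : (m : ℝ) ^ n = ∏ k ∈ Finset.range n, (m : ℝ) := by
    rw [Finset.prod_const, Finset.card_range]
  rw [e, ← Finset.prod_mul_distrib]
  apply Finset.prod_le_prod
  · intro k _
    exact norm_nonneg _
  · intro k _
    have h1 : ‖s + 1 + k + ((m - i : ℕ) : ℂ)‖ ≤ ‖s‖ + 1 + k + ((m - i : ℕ) : ℝ) := by
      refine (norm_add_le _ _).trans ?_
      rw [Complex.norm_natCast]
      refine add_le_add_left ?_ _ |>.trans le_rfl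
      refine (norm_add_le _ _).trans ?_
      rw [Complex.norm_natCast]
      refine add_le_add_left ?_ _ |>.trans le_rfl
      refine (norm_add_le _ _).trans ?_
      rw [norm_one]
    have h2 : ((m - i : ℕ) : ℝ) ≤ m := by
      exact_mod_cast Nat.sub_le m i
    have h3 : (0 : ℝ) ≤ k := Nat.cast_nonneg k
    nlinarith

end Pool.Agent.Helper24.HR2
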