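import Mathlib
import Pool.Agent.Helper24.HR2.Defs

/-!
MP_16b0ee, project HR2, section R1: linearity, monotonicity and the error bound of the
functional `LS`.
-/

set_option autoImplicit false

open MeasureTheory Set Metric Filter Topology
open scoped Real ComplexConjugate

namespace Pool.Agent.Helper24.HR2

open Pool.Agent.Helper22.Half
open Pool.Agent.Helper22.Marshall (coeff SepHol LogPhi dcoeff GLe)
open Pool.Agent.Helper39.Area (Ext phi)
open Pool.Agent.Helper39.MH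

/-- the radial integral -/
theorem rad_pow {p : ℝ} (hp : -1 < p) :
    IntegrableOn (fun y : ℝ => y * (1 - y ^ 2) ^ p) (Ioc 0 1) ∧
      ∫ y in Ioc (0 : ℝ) 1, y * (1 - y ^ 2) ^ p = 1 / (2 * (p + 1)) := by
  have hp1 : 0 < p + 1 := by linarith
  have hcont : ContinuousOn (fun y : ℝ => -(1 - y ^ 2) ^ (p + 1) / (2 * (p + 1))) (Icc 0 1) := by
    apply Continuous.continuousOn
    have h1 : Continuous (fun y : ℝ => (1 - y ^ 2 : ℝ) ^ (p + 1)) := by
      apply Continuous.rpow_const (by fun_prop)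
      intro z
      right
      exact hp1.le
    exact h1.neg.div_const _
  have hd : ∀ r ∈ Ioo (0 : ℝ) 1,
      HasDerivAt (fun r : ℝ => -(1 - r ^ 2) ^ (p + 1) / (2 * (p + 1)))
        (r * (1 - r ^ 2) ^ p) r := by
    intro r hr
    have hne : (1 : ℝ) - r ^ 2 ≠ 0 := by
      have := hr.1
      have := hr.2
      nlinarith
    have h1 : HasDerivAt (fun r : ℝ => 1 - r ^ 2) (-(2 * r)) r := by
      have := (hasDerivAt_pow 2 r).const_sub 1
      simpa using this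
    have h2 : HasDerivAt (fun r : ℝ => -(1 - r ^ 2) ^ (p + 1) / (2 * (p + 1)))
        (-(-(2 * r) * (p + 1) * (1 - r ^ 2) ^ (p + 1 - 1)) / (2 * (p + 1))) r :=
      (h1.rpow_const (p := p + 1) (Or.inl hne)).neg.div_const (2 * (p + 1))
    refine h2.congr_deriv ?_
    rw [show p + 1 - 1 = p by ring]
    field_simp
  have hpos : ∀ r ∈ Ioo (0 : ℝ) 1, 0 ≤ r * (1 - r ^ 2) ^ p := by
    intro r hr
    have h1 : 0 ≤ 1 - r ^ 2 := by
      have := hr.1
      have := hr.2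
      nlinarith
    exact mul_nonneg hr.1.le (Real.rpow_nonneg h1 _)
  have hi := intervalIntegral.integrableOn_deriv_of_nonneg hcont hd hpos
  refine ⟨hi, ?_⟩
  have h := intervalIntegral.integral_eq_sub_of_hasDerivAt_of_le zero_le_one hcont hd
    ((intervalIntegrable_iff_integrableOn_Ioc_of_le zero_le_one).mpr hi)
  rw [intervalIntegral.integral_of_le zero_le_one] at h
  rw [h, show (1 : ℝ) - 1 ^ 2 = 0 by norm_num, show (1 : ℝ) - 0 ^ 2 = 1 by norm_num,
    Real.zero_rpow hp1.ne', Real.one_rpow]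
  field_simp
  ring

/-- the area integral of a power of `1 - |z|^2` -/
theorem disc_pow {p : ℝ} (hp : -1 < p) :
    IntegrableOn (fun z : ℂ => (1 - ‖z‖ ^ 2) ^ p) (ball (0 : ℂ) 1) ∧
      ∫ z in ball (0 : ℂ) 1, (1 - ‖z‖ ^ 2) ^ p = π / (p + 1) := by
  have hp1 : 0 < p + 1 := by linarith
  let f : ℝ → ℝ := (Iic (1 : ℝ)).indicator (fun y => (1 - y ^ 2) ^ p)
  have e : ∀ᵐ z : ℂ, f ‖z‖ = (ball (0 : ℂ) 1).indicator (fun z : ℂ => (1 - ‖z‖ ^ 2) ^ p) z := by
    have h0 : volume (sphere (0 : ℂ) 1) = 0 := Measure.addHaar_sphere volume 0 1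
    have h1 : ∀ᵐ z : ℂ, z ∉ sphere (0 : ℂ) 1 := measure_eq_zero_iff_ae_notMem.mp h0
    filter_upwards [h1] with z hz
    have hz' : ‖z‖ ≠ 1 := by simpa using hz
    by_cases h : ‖z‖ < 1
    · rw [indicator_of_mem (by simpa using h)]
      exact indicator_of_mem (mem_Iic.mpr h.le) _
    · rw [indicator_of_notMem (by simpa using h)]
      refine indicator_of_notMem ?_ _
      intro h2
      exact h (lt_of_le_of_ne h2 hz')
  have hfin : Module.finrank ℝ ℂ = 2 := Complex.finrank_real_complex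
  have hr := rad_pow hp
  have hrw : (fun y : ℝ => y ^ (Module.finrank ℝ ℂ - 1) • f y)
      = (Iic (1 : ℝ)).indicator (fun y => y * (1 - y ^ 2) ^ p) := by
    funext y
    rw [hfin]
    by_cases h : y ∈ Iic (1 : ℝ)
    · rw [indicator_of_mem h]
      simp only [f, indicator_of_mem h]
      simp
    · rw [indicator_of_notMem h]
      simp only [f, indicator_of_notMem h]
      simp
  have hset : Ioi (0 : ℝ) ∩ Iic 1 = Ioc 0 1 := Ioi_inter_Iic
  have hI : Integrable (fun z : ℂ => f ‖z‖) := by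
    rw [integrable_fun_norm_addHaar, hrw, IntegrableOn, integrable_indicator_iff measurableSet_Iic,
      IntegrableOn, Measure.restrict_restrict measurableSet_Iic, inter_comm, hset]
    exact hr.1
  have hI2 : Integrable ((ball (0 : ℂ) 1).indicator (fun z : ℂ => (1 - ‖z‖ ^ 2) ^ p)) :=
    hI.congr e
  refine ⟨(integrable_indicator_iff measurableSet_ball).mp hI2, ?_⟩
  rw [← integral_indicator measurableSet_ball, ← integral_congr_ae e,
    integral_fun_norm_addHaar, hrw, setIntegral_indicator measurableSet_Iic, hset, hr.2, hfin,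
    measureReal_def, Complex.volume_ball]
  simp
  field_simp

theorem LS_int {s : ℂ} {H : ℂ → ℂ} {b : ℝ} (hH : ContinuousOn H (closedBall 0 1)) (hb : 0 < b)
    {f : ℂ → ℝ} (hf : ContinuousOn f (closedBall 0 1)) :
    IntegrableOn (fun z => (1 - ‖z‖ ^ 2) ^ (b - 1) * ‖Complex.exp (s * H z)‖ ^ 2 * f z)
      (ball (0 : ℂ) 1) := by
  have hc : ContinuousOn (fun z => ‖Complex.exp (s * H z)‖ ^ 2 * f z) (closedBall (0 : ℂ) 1) :=
    ((continuousOn_const.mul hH).cexp.norm.pow 2).mul hf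
  have h1 := (disc_pow (p := b - 1) (by linarith)).1
  obtain ⟨C, hC⟩ := (isCompact_closedBall (0 : ℂ) 1).exists_bound_of_continuousOn hc
  have h2 : IntegrableOn (fun z : ℂ => (1 - ‖z‖ ^ 2) ^ (b - 1)
      * (‖Complex.exp (s * H z)‖ ^ 2 * f z)) (ball (0 : ℂ) 1) := by
    refine Integrable.mul_bdd (c := C) h1
      ((hc.mono ball_subset_closedBall).aestronglyMeasurable measurableSet_ball) ?_
    refine (ae_restrict_iff' measurableSet_ball).mpr (ae_of_all _ fun z hz => ?_)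
    exact hC z (ball_subset_closedBall hz)
  refine h2.congr_fun (fun z _ => ?_) measurableSet_ball
  ring

theorem LS_add {s : ℂ} {H : ℂ → ℂ} {b : ℝ} (hH : ContinuousOn H (closedBall 0 1)) (hb : 0 < b)
    {f g : ℂ → ℝ} (hf : ContinuousOn f (closedBall 0 1)) (hg : ContinuousOn g (closedBall 0 1)) :
    LS s H b (fun z => f z + g z) = LS s H b f + LS s H b g := by
  unfold LS
  rw [← mul_add, ← integral_add (LS_int hH hb hf) (LS_int hH hb hg)]
  congr 1
  apply integral_congr_ae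
  filter_upwards with z
  ring

theorem LS_smul {s : ℂ} {H : ℂ → ℂ} {b : ℝ} (k : ℝ) (f : ℂ → ℝ) :
    LS s H b (fun z => k * f z) = k * LS s H b f := by
  have h : ∫ z in ball (0 : ℂ) 1,
      (1 - ‖z‖ ^ 2) ^ (b - 1) * ‖Complex.exp (s * H z)‖ ^ 2 * (k * f z)
      = k * ∫ z in ball (0 : ℂ) 1,
        (1 - ‖z‖ ^ 2) ^ (b - 1) * ‖Complex.exp (s * H z)‖ ^ 2 * f z := by
    rw [← integral_const_mul]
    apply integral_congr_ae
    filter_upwards with z
    ring
  unfold LS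
  rw [h]
  ring

theorem LS_mono {s : ℂ} {H : ℂ → ℂ} {b : ℝ} (hH : ContinuousOn H (closedBall 0 1)) (hb : 0 < b)
    {f g : ℂ → ℝ} (hf : ContinuousOn f (closedBall 0 1)) (hg : ContinuousOn g (closedBall 0 1))
    (hfg : ∀ z ∈ ball (0 : ℂ) 1, f z ≤ g z) : LS s H b f ≤ LS s H b g := by
  unfold LS
  apply mul_le_mul_of_nonneg_left _ (by positivity)
  apply setIntegral_mono_on (LS_int hH hb hf) (LS_int hH hb hg) measurableSet_ball
  intro z hz
  have hz1 : ‖z‖ < 1 := by simpa using hz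
  have h0 : 0 ≤ 1 - ‖z‖ ^ 2 := by nlinarith [norm_nonneg z]
  have h1 : 0 ≤ (1 - ‖z‖ ^ 2) ^ (b - 1) := Real.rpow_nonneg h0 _
  exact mul_le_mul_of_nonneg_left (hfg z hz) (by positivity)

theorem LS_congr {s : ℂ} {H : ℂ → ℂ} {b : ℝ} {f g : ℂ → ℝ}
    (hfg : ∀ z ∈ ball (0 : ℂ) 1, f z = g z) : LS s H b f = LS s H b g := by
  unfold LS
  congr 1
  apply setIntegral_congr_fun measurableSet_ball
  intro z hz
  simp only
  rw [hfg z hz]

theorem LS_nonneg {s : ℂ} {H : ℂ → ℂ} {b : ℝ} (hH : ContinuousOn H (closedBall 0 1))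
    (hb : 0 < b) {f : ℂ → ℝ} (hf : ContinuousOn f (closedBall 0 1))
    (h0 : ∀ z ∈ ball (0 : ℂ) 1, 0 ≤ f z) : 0 ≤ LS s H b f := by
  have h := LS_mono (s := s) (f := fun _ => (0 : ℝ)) hH hb continuousOn_const hf h0
  have h2 : LS s H b (fun _ => (0 : ℝ)) = 0 := by
    unfold LS
    simp
  rw [h2] at h
  exact h

theorem LS_list {s : ℂ} {H : ℂ → ℂ} {b : ℝ} {X : Type} (hH : ContinuousOn H (closedBall 0 1))
    (hb : 0 < b) (l : List X) (f : X → ℂ → ℝ)
    (hf : ∀ x ∈ l, ContinuousOn (f x) (closedBall 0 1)) :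
    LS s H b (fun z => (l.map (fun x => f x z)).sum) = (l.map (fun x => LS s H b (f x))).sum ∧
      ContinuousOn (fun z => (l.map (fun x => f x z)).sum) (closedBall 0 1) := by
  induction l with
  | nil =>
    refine ⟨?_, ?_⟩
    · unfold LS
      simp
    · simp only [List.map_nil, List.sum_nil]
      exact continuousOn_const
  | cons x l ih =>
    have ih' := ih (fun y hy => hf y (List.mem_cons_of_mem _ hy))
    have hx := hf x List.mem_cons_self
    refine ⟨?_, ?_⟩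
    · simp only [List.map_cons, List.sum_cons]
      rw [LS_add hH hb hx ih'.2, ih'.1]
    · simp only [List.map_cons, List.sum_cons]
      exact hx.add ih'.2

/-- the error terms are bounded, by Goluzin's inequality -/
theorem LS_err {ρ : ℝ} {β H : ℂ → ℂ} {Φ : ℂ → ℂ → ℂ} (h : Dat ρ β H Φ) {s : ℂ} {b : ℝ}
    (hb : 0 < b) (hs : 2 * ‖s‖ < b + 1) {M : ℝ} {f : ℂ → ℝ}
    (hf : ContinuousOn f (closedBall 0 1)) (hM : ∀ z ∈ ball (0 : ℂ) 1, |f z| ≤ M) :
    |LS s H b (fun z => (1 - ‖z‖ ^ 2) * f z)| ≤ M / (b + 1 - 2 * ‖s‖) := by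
  have hM0 : 0 ≤ M := (abs_nonneg _).trans (hM 0 (mem_ball_self one_pos))
  have hp := disc_pow (p := b - 2 * ‖s‖) (by linarith)
  have hb1 : 0 < b + 1 - 2 * ‖s‖ := by linarith
  have hbd : ∀ z ∈ ball (0 : ℂ) 1,
      ‖(1 - ‖z‖ ^ 2) ^ (b - 1) * ‖Complex.exp (s * H z)‖ ^ 2 * ((1 - ‖z‖ ^ 2) * f z)‖
        ≤ M * (1 - ‖z‖ ^ 2) ^ (b - 2 * ‖s‖) := by
    intro z hz
    have hz1 : ‖z‖ < 1 := by simpa using hz
    have h0 : 0 < 1 - ‖z‖ ^ 2 := by nlinarith [norm_nonneg z]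
    have hg := h.gol z hz
    have e1 : ‖Complex.exp (s * H z)‖ ^ 2 ≤ (1 - ‖z‖ ^ 2) ^ (-(2 * ‖s‖)) := by
      rw [Complex.norm_exp, ← Real.exp_nat_mul, Real.rpow_def_of_pos h0]
      apply Real.exp_le_exp.mpr
      have e2 : (s * H z).re ≤ ‖s‖ * ‖H z‖ := (Complex.re_le_norm _).trans (norm_mul_le _ _)
      have e3 : ‖s‖ * ‖H z‖ ≤ ‖s‖ * Real.log (1 / (1 - ‖z‖ ^ 2)) :=
        mul_le_mul_of_nonneg_left hg (norm_nonneg _)
      rw [one_div, Real.log_inv] at e3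
      push_cast
      nlinarith
    have e4 : (1 - ‖z‖ ^ 2) ^ (b - 1) * (1 - ‖z‖ ^ 2) = (1 - ‖z‖ ^ 2) ^ b := by
      rw [Real.rpow_sub_one h0.ne']
      field_simp
    rw [norm_mul, norm_mul, norm_mul, Real.norm_of_nonneg (Real.rpow_nonneg h0.le _),
      Real.norm_of_nonneg (by positivity), Real.norm_of_nonneg h0.le, Real.norm_eq_abs]
    calc (1 - ‖z‖ ^ 2) ^ (b - 1) * ‖Complex.exp (s * H z)‖ ^ 2 * ((1 - ‖z‖ ^ 2) * |f z|)
        = (1 - ‖z‖ ^ 2) ^ (b - 1) * (1 - ‖z‖ ^ 2) * ‖Complex.exp (s * H z)‖ ^ 2 * |f z| := by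
          ring
      _ = (1 - ‖z‖ ^ 2) ^ b * ‖Complex.exp (s * H z)‖ ^ 2 * |f z| := by rw [e4]
      _ ≤ (1 - ‖z‖ ^ 2) ^ b * (1 - ‖z‖ ^ 2) ^ (-(2 * ‖s‖)) * M := by
          apply mul_le_mul (mul_le_mul_of_nonneg_left e1 (Real.rpow_nonneg h0.le _)) (hM z hz)
            (abs_nonneg _)
          exact mul_nonneg (Real.rpow_nonneg h0.le _) (Real.rpow_nonneg h0.le _)
      _ = M * (1 - ‖z‖ ^ 2) ^ (b - 2 * ‖s‖) := by
          rw [← Real.rpow_add h0, mul_comm,
            show b + -(2 * ‖s‖) = b - 2 * ‖s‖ by ring]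
  have h1 := norm_integral_le_of_norm_le (μ := volume.restrict (ball (0 : ℂ) 1))
    (f := fun z => (1 - ‖z‖ ^ 2) ^ (b - 1) * ‖Complex.exp (s * H z)‖ ^ 2
      * ((1 - ‖z‖ ^ 2) * f z))
    (g := fun z => M * (1 - ‖z‖ ^ 2) ^ (b - 2 * ‖s‖)) (hp.1.const_mul M)
    ((ae_restrict_iff' measurableSet_ball).mpr (ae_of_all _ hbd))
  rw [integral_const_mul, hp.2] at h1
  unfold LS
  rw [abs_mul, abs_of_nonneg (by positivity : (0 : ℝ) ≤ 1 / π), ← Real.norm_eq_abs]
  calc 1 / π * ‖∫ z in ball (0 : ℂ) 1, (1 - ‖z‖ ^ 2) ^ (b - 1) * ‖Complex.exp (s * H z)‖ ^ 2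
        * ((1 - ‖z‖ ^ 2) * f z)‖ ≤ 1 / π * (M * (π / (b - 2 * ‖s‖ + 1))) :=
        mul_le_mul_of_nonneg_left h1 (by positivity)
    _ = M / (b + 1 - 2 * ‖s‖) := by
        have hpi := Real.pi_pos
        rw [show b - 2 * ‖s‖ + 1 = b + 1 - 2 * ‖s‖ by ring]
        field_simp

end Pool.Agent.Helper24.HR2
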