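import Mathlib
import Pool.Agent.Helper24.HR2.Defs
import Pool.Agent.Helper39.MH.Bridge

/-!
MP_16b0ee, project HR2, module HR2-2: the weighted area integral of a product in terms of the
Taylor coefficients, for every weight exponent above `-1`, and the stationarity relation for
`G = exp (s H)` with a complex multiplier.
-/

set_option autoImplicit false

open MeasureTheory Set Metric Filter Topology
open scoped Real ComplexConjugate

namespace Pool.Agent.Helper24.HR2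

open Pool.Agent.Helper22.Half
open Pool.Agent.Helper22.Marshall (coeff SepHol LogPhi dcoeff GLe)
open Pool.Agent.Helper39.Area (Ext phi)
open Pool.Agent.Helper39.MH

namespace RelS

open Pool.Agent.Helper39.MH.Bridge (hasSum_c summable_c J J_eq exp_int)

theorem re_swap (ζ w : ℂ) (r : ℝ) : (ζ * ((r : ℂ) * w)).re = r * (ζ * w).re := by
  rw [mul_left_comm, Complex.re_ofReal_mul]

theorem deriv_rad {p : ℝ} (hp : -1 < p) {r : ℝ} (hr : r ∈ Ioo (0:ℝ) 1) :
    HasDerivAt (fun r : ℝ => -(1 - r ^ 2) ^ (p + 1) / (2 * (p + 1)))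
      (r * (1 - r ^ 2) ^ p) r := by
  have hpos : 0 < 1 - r ^ 2 := by nlinarith [hr.1, hr.2]
  have h1 : HasDerivAt (fun r : ℝ => 1 - r ^ 2) (-(2 * r)) r := by
    have := (hasDerivAt_pow 2 r).const_sub 1
    simpa using this
  have h2 : HasDerivAt (fun r : ℝ => -(1 - r ^ 2) ^ (p + 1) / (2 * (p + 1)))
      (-(-(2 * r) * (p + 1) * (1 - r ^ 2) ^ (p + 1 - 1)) / (2 * (p + 1))) r :=
    (h1.rpow_const (p := p + 1) (Or.inl hpos.ne')).neg.div_const (2 * (p + 1))
  refine h2.congr_deriv ?_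
  have hp1 : p + 1 ≠ 0 := by linarith
  rw [show p + 1 - 1 = p by ring]
  field_simp

theorem cont_pow {q : ℝ} (hq : 0 < q) : Continuous (fun r : ℝ => (1 - r ^ 2 : ℝ) ^ q) := by
  apply Continuous.rpow_const (by fun_prop)
  intro r
  right
  exact hq.le

theorem rad_int_zero {p : ℝ} (hp : -1 < p) :
    IntervalIntegrable (fun r : ℝ => r * (1 - r ^ 2) ^ p) volume 0 1 := by
  rw [intervalIntegrable_iff_integrableOn_Ioc_of_le zero_le_one]
  have hc : ContinuousOn (fun r : ℝ => -(1 - r ^ 2) ^ (p + 1) / (2 * (p + 1))) (Icc 0 1) :=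
    ((cont_pow (q := p + 1) (by linarith)).neg.div_const _).continuousOn
  refine intervalIntegral.integrableOn_deriv_of_nonneg hc (fun r hr => deriv_rad hp hr) ?_
  intro r hr
  have hpos : 0 < 1 - r ^ 2 := by nlinarith [hr.1, hr.2]
  exact mul_nonneg hr.1.le (Real.rpow_nonneg hpos.le _)

theorem rad_int {p : ℝ} (hp : -1 < p) (k : ℕ) :
    IntervalIntegrable (fun r : ℝ => r ^ (k + 1) * (1 - r ^ 2) ^ p) volume 0 1 := by
  have h := (rad_int_zero hp).continuousOn_mul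
    (g := fun r : ℝ => r ^ k) (continuous_pow k).continuousOn
  have e : (fun r : ℝ => r ^ (k + 1) * (1 - r ^ 2) ^ p)
      = fun r : ℝ => r ^ k * (r * (1 - r ^ 2) ^ p) := by
    funext r
    ring
  rw [e]
  exact h

theorem J_zero' {p : ℝ} (hp : -1 < p) : J p 0 = 1 / (2 * (p + 1)) := by
  have hc : ContinuousOn (fun r : ℝ => -(1 - r ^ 2) ^ (p + 1) / (2 * (p + 1))) (Icc 0 1) :=
    ((cont_pow (q := p + 1) (by linarith)).neg.div_const _).continuousOn
  have h := intervalIntegral.integral_eq_sub_of_hasDerivAt_of_le zero_le_one hc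
    (fun r hr => deriv_rad hp hr) (rad_int_zero hp)
  have e : J p 0 = ∫ r in (0:ℝ)..1, r * (1 - r ^ 2) ^ p := by
    unfold J
    simp
  rw [e, h]
  have hp1 : p + 1 ≠ 0 := by linarith
  have h0 : (0:ℝ) ^ (p + 1) = 0 := Real.zero_rpow hp1
  rw [show (1:ℝ) - 1 ^ 2 = 0 by norm_num, show (1:ℝ) - 0 ^ 2 = 1 by norm_num, h0, Real.one_rpow]
  field_simp
  ring

theorem J_step {p : ℝ} (hp : -1 < p) (m : ℕ) :
    (p + 1) * J p (m + 1) = ((m : ℝ) + 1) * J (p + 1) m := by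
  have hd : ∀ r ∈ Ioo (0:ℝ) 1,
      HasDerivAt (fun r : ℝ => r ^ (2 * m + 2) * (1 - r ^ 2) ^ (p + 1))
      ((2 * m + 2) * (r ^ (2 * m + 1) * (1 - r ^ 2) ^ (p + 1))
        - (2 * p + 2) * (r ^ (2 * (m + 1) + 1) * (1 - r ^ 2) ^ p)) r := by
    intro r hr
    have hpos : 0 < 1 - r ^ 2 := by nlinarith [hr.1, hr.2]
    have h1 : HasDerivAt (fun r : ℝ => 1 - r ^ 2) (-(2 * r)) r := by
      have := (hasDerivAt_pow 2 r).const_sub 1
      simpa using this
    have h2 := h1.rpow_const (p := p + 1) (Or.inl hpos.ne')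
    have h3 : HasDerivAt (fun r : ℝ => r ^ (2 * m + 2) * (1 - r ^ 2) ^ (p + 1))
        (((2 * m + 2 : ℕ) : ℝ) * r ^ (2 * m + 2 - 1) * (1 - r ^ 2) ^ (p + 1)
          + r ^ (2 * m + 2) * (-(2 * r) * (p + 1) * (1 - r ^ 2) ^ (p + 1 - 1))) r :=
      (hasDerivAt_pow (2 * m + 2) r).mul h2
    refine h3.congr_deriv ?_
    rw [show p + 1 - 1 = p by ring, show 2 * m + 2 - 1 = 2 * m + 1 by omega]
    push_cast
    ring
  have hc : ContinuousOn (fun r : ℝ => r ^ (2 * m + 2) * (1 - r ^ 2) ^ (p + 1)) (Icc 0 1) :=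
    ((continuous_pow _).mul (cont_pow (q := p + 1) (by linarith))).continuousOn
  have c1 : IntervalIntegrable (fun r : ℝ => (2 * (m:ℝ) + 2)
      * (r ^ (2 * m + 1) * (1 - r ^ 2) ^ (p + 1))) volume 0 1 :=
    (rad_int (p := p + 1) (by linarith) (2 * m)).const_mul _
  have c2 : IntervalIntegrable (fun r : ℝ => (2 * p + 2)
      * (r ^ (2 * (m + 1) + 1) * (1 - r ^ 2) ^ p)) volume 0 1 :=
    (rad_int hp (2 * (m + 1))).const_mul _
  have h := intervalIntegral.integral_eq_sub_of_hasDerivAt_of_le zero_le_one hc hd (c1.sub c2)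
  rw [intervalIntegral.integral_sub c1 c2,
    intervalIntegral.integral_const_mul, intervalIntegral.integral_const_mul] at h
  have hp1 : p + 1 ≠ 0 := by linarith
  have h0 : (0:ℝ) ^ (p + 1) = 0 := Real.zero_rpow hp1
  have h5 : (1:ℝ) ^ (2 * m + 2) * (1 - 1 ^ 2) ^ (p + 1) - 0 ^ (2 * m + 2) * (1 - 0 ^ 2) ^ (p + 1)
      = 0 := by
    rw [show (1:ℝ) - 1 ^ 2 = 0 by norm_num, h0, zero_pow (by omega)]
    ring
  rw [h5] at h
  change (2 * (m:ℝ) + 2) * J (p + 1) m - (2 * p + 2) * J p (m + 1) = 0 at h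
  linarith

theorem J_eq' {p : ℝ} (hp : -1 < p) (m : ℕ) : J p m = ((p + 1) * pq (p + 2) m)⁻¹ / 2 := by
  have hp1 : 0 < p + 1 := by linarith
  cases m with
  | zero =>
    rw [J_zero' hp, pq_zero]
    field_simp
  | succ m =>
    have h1 := J_step hp m
    rw [J_eq (p := p + 1) hp1.le] at h1
    have h2 := pq_shift (p + 2) m
    have e1 : p + 1 + 2 = p + 2 + 1 := by ring
    have e2 : p + 1 + 1 = p + 2 := by ring
    rw [e1, e2] at h1
    have h3 : (0:ℝ) < pq (p + 2 + 1) m := pq_pos (by linarith) m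
    have h4 : (0:ℝ) < (m : ℝ) + 1 := by positivity
    have h5 : (0:ℝ) < pq (p + 2) (m + 1) := pq_pos (by linarith) _
    have h6 : (0:ℝ) < p + 2 := by linarith
    have h7 : J p (m + 1) = ((m : ℝ) + 1) * (((p + 2) * pq (p + 2 + 1) m)⁻¹ / 2) / (p + 1) := by
      rw [eq_div_iff hp1.ne']
      linarith
    rw [h7, ← h2]
    field_simp

/-- the weight is integrable -/
theorem w_int {p : ℝ} (hp : -1 < p) :
    IntegrableOn (fun z : ℂ => ((1 - ‖z‖ ^ 2) ^ p : ℝ)) (closedBall (0 : ℂ) 1) := by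
  have h1 : Integrable (fun z : ℂ => (Iic (1:ℝ)).indicator (fun r : ℝ => (1 - r ^ 2) ^ p) ‖z‖)
      volume := by
    rw [integrable_fun_norm_addHaar (μ := (volume : Measure ℂ))
      (f := (Iic (1:ℝ)).indicator (fun r : ℝ => (1 - r ^ 2) ^ p))]
    have e : (fun y : ℝ => y ^ (Module.finrank ℝ ℂ - 1)
        • (Iic (1:ℝ)).indicator (fun r : ℝ => (1 - r ^ 2) ^ p) y)
        = (Iic (1:ℝ)).indicator (fun r : ℝ => r * (1 - r ^ 2) ^ p) := by
      funext y
      rw [Complex.finrank_real_complex]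
      by_cases hy : y ∈ Iic (1:ℝ)
      · rw [indicator_of_mem hy, indicator_of_mem hy]
        simp
      · rw [indicator_of_notMem hy, indicator_of_notMem hy, smul_zero]
    rw [e, IntegrableOn, integrable_indicator_iff measurableSet_Iic]
    have h2 := rad_int_zero hp
    rw [intervalIntegrable_iff_integrableOn_Ioc_of_le zero_le_one] at h2
    rw [IntegrableOn, Measure.restrict_restrict measurableSet_Iic]
    rw [inter_comm, Ioi_inter_Iic]
    exact h2
  have h3 : (fun z : ℂ => (Iic (1:ℝ)).indicator (fun r : ℝ => (1 - r ^ 2) ^ p) ‖z‖)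
      = (closedBall (0 : ℂ) 1).indicator (fun z : ℂ => ((1 - ‖z‖ ^ 2) ^ p : ℝ)) := by
    funext z
    by_cases hz : ‖z‖ ≤ 1
    · rw [indicator_of_mem (by exact hz), indicator_of_mem (by simpa using hz)]
    · rw [indicator_of_notMem (by exact hz), indicator_of_notMem (by simpa using hz)]
  rw [h3, integrable_indicator_iff measurableSet_closedBall] at h1
  exact h1

/-- the weight times a continuous function is integrable -/
theorem wf_int {p : ℝ} (hp : -1 < p) {f : ℂ → ℝ} (hf : ContinuousOn f (closedBall 0 1)) :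
    IntegrableOn (fun z : ℂ => (1 - ‖z‖ ^ 2) ^ p * f z) (ball (0 : ℂ) 1) :=
  ((w_int hp).mul_continuousOn hf (isCompact_closedBall 0 1)).mono_set ball_subset_closedBall

theorem wfc_int {p : ℝ} (hp : -1 < p) {f : ℂ → ℂ} (hf : ContinuousOn f (closedBall 0 1)) :
    IntegrableOn (fun z : ℂ => (((1 - ‖z‖ ^ 2) ^ p : ℝ) : ℂ) * f z) (ball (0 : ℂ) 1) :=
  (IntegrableOn.mul_continuousOn (Integrable.ofReal (w_int hp)) hf
    (isCompact_closedBall 0 1)).mono_set ball_subset_closedBall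

/-- the integral of a monomial -/
theorem mono_int' {p : ℝ} (hp : -1 < p) (m n : ℕ) :
    ∫ z in ball (0 : ℂ) 1, (((1 - ‖z‖ ^ 2) ^ p : ℝ) : ℂ) * (z ^ m * conj z ^ n)
      = if m = n then ((π * ((p + 1) * pq (p + 2) m)⁻¹ : ℝ) : ℂ) else 0 := by
  have hsplit : ∀ q ∈ polarCoord.target,
      q.1 • (ball (0 : ℂ) 1).indicator
        (fun z : ℂ => (((1 - ‖z‖ ^ 2) ^ p : ℝ) : ℂ) * (z ^ m * conj z ^ n))
        (Complex.polarCoord.symm q)
      = (Ioo (0:ℝ) 1 ×ˢ Ioo (-π) π).indicator (fun q : ℝ × ℝ =>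
          ((q.1 ^ (m + n + 1) * (1 - q.1 ^ 2) ^ p : ℝ) : ℂ)
            * Complex.exp (((m : ℤ) - (n : ℤ) : ℤ) * (q.2 : ℂ) * Complex.I)) q := by
    rintro ⟨r, θ⟩ hq
    rw [polarCoord_target] at hq
    obtain ⟨hr, hθ⟩ := hq
    have hr0 : 0 < r := hr
    have hz : (Complex.polarCoord.symm (r, θ) : ℂ) = (r : ℂ) * Complex.exp ((θ : ℂ) * Complex.I) := by
      rw [Complex.polarCoord_symm_apply, Complex.exp_mul_I]
      simp
    have hnorm : ‖(Complex.polarCoord.symm (r, θ) : ℂ)‖ = r := by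
      rw [Complex.norm_polarCoord_symm]
      exact abs_of_pos hr0
    by_cases h1 : r < 1
    · have hmem : ((r, θ) : ℝ × ℝ) ∈ (Ioo (0:ℝ) 1 ×ˢ Ioo (-π) π : Set (ℝ × ℝ)) :=
        ⟨⟨hr0, h1⟩, hθ⟩
      rw [indicator_of_mem (by rw [mem_ball_zero_iff, hnorm]; exact h1), indicator_of_mem hmem]
      rw [hnorm, hz]
      simp only [map_mul, Complex.conj_ofReal]
      rw [← Complex.exp_conj]
      simp only [map_mul, Complex.conj_ofReal, Complex.conj_I]
      rw [mul_pow, mul_pow, ← Complex.exp_nat_mul, ← Complex.exp_nat_mul]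
      have h5 : Complex.exp (((m : ℤ) - (n : ℤ) : ℤ) * (θ : ℂ) * Complex.I)
          = Complex.exp ((m : ℂ) * ((θ : ℂ) * Complex.I))
            * Complex.exp ((n : ℂ) * ((θ : ℂ) * -Complex.I)) := by
        rw [← Complex.exp_add]
        congr 1
        push_cast
        ring
      rw [h5]
      simp only [Complex.real_smul]
      push_cast
      ring
    · have hmem : ((r, θ) : ℝ × ℝ) ∉ (Ioo (0:ℝ) 1 ×ˢ Ioo (-π) π : Set (ℝ × ℝ)) :=
        fun h => h1 h.1.2
      rw [indicator_of_notMem (by rw [mem_ball_zero_iff, hnorm]; exact h1),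
        indicator_of_notMem hmem, smul_zero]
  rw [← integral_indicator measurableSet_ball, ← Complex.integral_comp_polarCoord_symm,
    setIntegral_congr_fun polarCoord.open_target.measurableSet hsplit,
    setIntegral_indicator (measurableSet_Ioo.prod measurableSet_Ioo)]
  have hinter : polarCoord.target ∩ (Ioo (0:ℝ) 1 ×ˢ Ioo (-π) π) = Ioo (0:ℝ) 1 ×ˢ Ioo (-π) π := by
    rw [polarCoord_target]
    apply inter_eq_self_of_subset_right
    exact prod_mono Ioo_subset_Ioi_self Subset.rfl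
  rw [hinter, Measure.volume_eq_prod]
  rw [setIntegral_prod_mul (fun r : ℝ => ((r ^ (m + n + 1) * (1 - r ^ 2) ^ p : ℝ) : ℂ))
    (fun θ : ℝ => Complex.exp (((m : ℤ) - (n : ℤ) : ℤ) * (θ : ℂ) * Complex.I))]
  by_cases hmn : m = n
  · subst hmn
    rw [if_pos rfl]
    have h1 : ∫ θ in Ioo (-π) π, Complex.exp (((m : ℤ) - (m : ℤ) : ℤ) * (θ : ℂ) * Complex.I)
        = ((2 * π : ℝ) : ℂ) := by
      simp only [sub_self, Int.cast_zero, zero_mul, Complex.exp_zero]
      rw [setIntegral_const, Real.volume_real_Ioo_of_le (by linarith [Real.pi_pos])]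
      simp only [sub_neg_eq_add, Complex.real_smul, mul_one]
      push_cast
      ring
    have h2 : ∫ r in Ioo (0:ℝ) 1, ((r ^ (m + m + 1) * (1 - r ^ 2) ^ p : ℝ) : ℂ) = ((J p m : ℝ) : ℂ) := by
      rw [integral_complex_ofReal]
      congr 1
      unfold J
      rw [intervalIntegral.integral_of_le (by norm_num), integral_Ioc_eq_integral_Ioo]
      rw [show m + m + 1 = 2 * m + 1 by ring]
    rw [h1, h2, J_eq' hp]
    push_cast
    ring
  · rw [if_neg hmn, exp_int _ (sub_ne_zero.mpr (by exact_mod_cast hmn)), mul_zero]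

end RelS

open RelS

open Pool.Agent.Helper39.MH.Bridge (hasSum_c summable_c) in
theorem bridge_s {ρ : ℝ} (hρ : 1 < ρ) {F K : ℂ → ℂ} (hF : DifferentiableOn ℂ F (ball 0 ρ))
    (hK : DifferentiableOn ℂ K (ball 0 ρ)) {p : ℝ} (hp : -1 < p) (ζ : ℂ) :
    HasSum (fun m : ℕ => ((p + 1) * pq (p + 2) m)⁻¹ * (ζ * (coeff F m * conj (coeff K m))).re)
      ((1 / π) * ∫ z in ball (0 : ℂ) 1, (1 - ‖z‖ ^ 2) ^ p * (ζ * (F z * conj (K z))).re) := by
  have hsF : Summable (fun n => ‖coeff F n‖) := by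
    simpa using summable_c hF (r := 1) zero_le_one hρ
  have hsK : Summable (fun n => ‖coeff K n‖) := by
    simpa using summable_c hK (r := 1) zero_le_one hρ
  -- the double series
  let T : ℕ × ℕ → ℂ → ℂ := fun q z =>
    (((1 - ‖z‖ ^ 2) ^ p : ℝ) : ℂ) * ((coeff F q.1 * z ^ q.1) * conj (coeff K q.2 * z ^ q.2))
  have hTi : ∀ q, IntegrableOn (T q) (ball (0 : ℂ) 1) := by
    intro q
    refine wfc_int hp (f := fun z => (coeff F q.1 * z ^ q.1) * conj (coeff K q.2 * z ^ q.2)) ?_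
    exact ((((continuous_const.mul (continuous_pow _))).mul
      (Complex.continuous_conj.comp (continuous_const.mul (continuous_pow _))))).continuousOn
  have hpt : ∀ z ∈ ball (0 : ℂ) 1, HasSum (fun q => T q z)
      ((((1 - ‖z‖ ^ 2) ^ p : ℝ) : ℂ) * (F z * conj (K z))) := by
    intro z hz
    have hz1 : ‖z‖ < 1 := mem_ball_zero_iff.mp hz
    have h1 := hasSum_c hF (z := z) (by linarith)
    have h2 := (hasSum_c hK (z := z) (by linarith)).map (starRingEnd ℂ) Complex.continuous_conj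
    have h2' : HasSum (fun n => conj (coeff K n * z ^ n)) (conj (K z)) := h2
    have hn1 : Summable (fun n => ‖coeff F n * z ^ n‖) := h1.summable.norm
    have hn2 : Summable (fun n => ‖conj (coeff K n * z ^ n)‖) := h2'.summable.norm
    have h3 := Pool.Agent.Helper22.Marshall.hasSum_mul_aux (fun n => coeff F n * z ^ n)
      (fun n => conj (coeff K n * z ^ n)) (F z) (conj (K z)) h1 h2' hn1 hn2
    exact h3.mul_left (((1 - ‖z‖ ^ 2) ^ p : ℝ) : ℂ)
  set W : ℝ := ∫ z in ball (0 : ℂ) 1, ((1 - ‖z‖ ^ 2) ^ p : ℝ) with hW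
  have hwi : IntegrableOn (fun z : ℂ => ((1 - ‖z‖ ^ 2) ^ p : ℝ)) (ball (0 : ℂ) 1) :=
    (w_int hp).mono_set ball_subset_closedBall
  have hbound : ∀ q, ∫ z in ball (0 : ℂ) 1, ‖T q z‖ ≤ W * (‖coeff F q.1‖ * ‖coeff K q.2‖) := by
    intro q
    have h1 : ∀ z ∈ ball (0 : ℂ) 1, ‖T q z‖
        ≤ ((1 - ‖z‖ ^ 2) ^ p : ℝ) * (‖coeff F q.1‖ * ‖coeff K q.2‖) := by
      intro z hz
      have hz1 : ‖z‖ < 1 := mem_ball_zero_iff.mp hz
      have hz0 := norm_nonneg z
      have hnn : 0 ≤ ((1 - ‖z‖ ^ 2) ^ p : ℝ) := Real.rpow_nonneg (by nlinarith) _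
      have h3 : ‖(((1 - ‖z‖ ^ 2) ^ p : ℝ) : ℂ)‖ = ((1 - ‖z‖ ^ 2) ^ p : ℝ) := by
        rw [Complex.norm_real, Real.norm_of_nonneg hnn]
      have h4 : ∀ k : ℕ, ‖z‖ ^ k ≤ 1 := fun k => pow_le_one₀ hz0 hz1.le
      simp only [T, norm_mul, Complex.norm_conj, norm_pow]
      rw [h3]
      have h5 : ‖coeff F q.1‖ * ‖z‖ ^ q.1 ≤ ‖coeff F q.1‖ :=
        mul_le_of_le_one_right (norm_nonneg _) (h4 _)
      have h6 : ‖coeff K q.2‖ * ‖z‖ ^ q.2 ≤ ‖coeff K q.2‖ :=
        mul_le_of_le_one_right (norm_nonneg _) (h4 _)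
      exact mul_le_mul_of_nonneg_left (mul_le_mul h5 h6 (by positivity) (norm_nonneg _)) hnn
    have h2 := setIntegral_mono_on (hTi q).norm (hwi.mul_const _) measurableSet_ball h1
    refine h2.trans (le_of_eq ?_)
    rw [integral_mul_const]
  have hsum : HasSum (fun q => ∫ z in ball (0 : ℂ) 1, T q z)
      (∫ z in ball (0 : ℂ) 1, (((1 - ‖z‖ ^ 2) ^ p : ℝ) : ℂ) * (F z * conj (K z))) := by
    have h1 := hasSum_integral_of_summable_integral_norm (μ := volume.restrict (ball (0 : ℂ) 1))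
      (F := T) hTi (Summable.of_nonneg_of_le
        (fun q => integral_nonneg fun z => norm_nonneg _) hbound
        ((summable_mul_of_summable_norm (f := fun n => ‖coeff F n‖) (g := fun n => ‖coeff K n‖)
          (by simpa using hsF) (by simpa using hsK)).mul_left W))
    have h2 : ∫ z in ball (0 : ℂ) 1, ∑' q, T q z
        = ∫ z in ball (0 : ℂ) 1, (((1 - ‖z‖ ^ 2) ^ p : ℝ) : ℂ) * (F z * conj (K z)) := by
      apply setIntegral_congr_fun measurableSet_ball
      intro z hz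
      exact (hpt z hz).tsum_eq
    rw [h2] at h1
    exact h1
  have hval : ∀ q : ℕ × ℕ, ∫ z in ball (0 : ℂ) 1, T q z
      = if q.1 = q.2 then ((π * ((p + 1) * pq (p + 2) q.1)⁻¹ : ℝ) : ℂ)
          * (coeff F q.1 * conj (coeff K q.1)) else 0 := by
    rintro ⟨m, n⟩
    have h1 : ∀ z : ℂ, T (m, n) z = (coeff F m * conj (coeff K n))
        * ((((1 - ‖z‖ ^ 2) ^ p : ℝ) : ℂ) * (z ^ m * conj z ^ n)) := by
      intro z
      simp only [T, map_mul, map_pow]
      ring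
    simp_rw [h1]
    rw [integral_const_mul, mono_int' hp]
    by_cases hmn : m = n
    · subst hmn
      simp only [if_true]
      ring
    · simp only [if_neg hmn, mul_zero]
  simp_rw [hval] at hsum
  have hdiag : HasSum (fun n : ℕ => ((π * ((p + 1) * pq (p + 2) n)⁻¹ : ℝ) : ℂ)
      * (coeff F n * conj (coeff K n)))
      (∫ z in ball (0 : ℂ) 1, (((1 - ‖z‖ ^ 2) ^ p : ℝ) : ℂ) * (F z * conj (K z))) := by
    have hinj : Function.Injective (fun n : ℕ => (n, n)) := by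
      intro a b h
      exact (Prod.mk.inj h).1
    have := (hinj.hasSum_iff (f := fun q : ℕ × ℕ =>
      if q.1 = q.2 then ((π * ((p + 1) * pq (p + 2) q.1)⁻¹ : ℝ) : ℂ)
          * (coeff F q.1 * conj (coeff K q.1)) else 0)
      (a := ∫ z in ball (0 : ℂ) 1, (((1 - ‖z‖ ^ 2) ^ p : ℝ) : ℂ) * (F z * conj (K z))) ?_).mpr hsum
    · simpa [Function.comp_def] using this
    · rintro ⟨a, b⟩ hab
      rw [if_neg]
      intro h
      apply hab
      refine ⟨a, ?_⟩
      simp only [Prod.mk.injEq, true_and]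
      exact h
  have hre := Complex.hasSum_re (hdiag.mul_left ζ)
  have hcF : ContinuousOn F (closedBall 0 1) := hF.continuousOn.mono (closedBall_subset_ball hρ)
  have hcK : ContinuousOn K (closedBall 0 1) := hK.continuousOn.mono (closedBall_subset_ball hρ)
  have hInt : IntegrableOn (fun z => ζ * ((((1 - ‖z‖ ^ 2) ^ p : ℝ) : ℂ) * (F z * conj (K z))))
      (ball (0 : ℂ) 1) :=
    (wfc_int hp (hcF.mul (Complex.continuous_conj.comp_continuousOn hcK))).const_mul ζ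
  have h3 : (ζ * ∫ z in ball (0 : ℂ) 1, (((1 - ‖z‖ ^ 2) ^ p : ℝ) : ℂ) * (F z * conj (K z))).re
      = ∫ z in ball (0 : ℂ) 1, (1 - ‖z‖ ^ 2) ^ p * (ζ * (F z * conj (K z))).re := by
    have h4 := integral_re (μ := volume.restrict (ball (0 : ℂ) 1)) hInt
    have h5 : ∀ z : ℂ, RCLike.re (ζ * ((((1 - ‖z‖ ^ 2) ^ p : ℝ) : ℂ) * (F z * conj (K z))))
        = (1 - ‖z‖ ^ 2) ^ p * (ζ * (F z * conj (K z))).re := by
      intro z
      rw [mul_left_comm]
      exact Complex.re_ofReal_mul _ _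
    simp_rw [h5] at h4
    rw [integral_const_mul] at h4
    exact h4.symm
  rw [h3] at hre
  have h6 := hre.mul_left (1 / π)
  have h7 : (fun m : ℕ => ((p + 1) * pq (p + 2) m)⁻¹ * (ζ * (coeff F m * conj (coeff K m))).re)
      = fun n : ℕ => 1 / π * (ζ * (((π * ((p + 1) * pq (p + 2) n)⁻¹ : ℝ) : ℂ)
        * (coeff F n * conj (coeff K n)))).re := by
    funext n
    rw [re_swap]
    have hpi := Real.pi_pos
    field_simp
  rw [h7]
  exact h6

namespace RelS

theorem FA_diff (s : ℂ) {H : ℂ → ℂ} {ρ : ℝ} (hρ : 0 < ρ) (hH : DifferentiableOn ℂ H (ball 0 ρ))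
    (A : List ℕ) : DifferentiableOn ℂ (FA s H A) (ball 0 ρ) :=
  exp_ev_diff_s s hρ hH A

theorem th_FA (s : ℂ) {H : ℂ → ℂ} {ρ : ℝ} (hρ : 0 < ρ) (hH : DifferentiableOn ℂ H (ball 0 ρ))
    {z : ℂ} (hz : z ∈ ball (0 : ℂ) ρ) (A : List ℕ) :
    th (FA s H A) z = Complex.exp (s * H z) * DGs s (fun k => gg H k z) A :=
  th_ev_s s hρ hH hz A

theorem hprod (ζ g a c : ℂ) (x y : ℝ) : ‖g‖ ^ 2 * (ζ * (((x : ℂ) * a) * conj ((y : ℂ) * c))).re
    = x * y * (ζ * ((g * a) * conj (g * c))).re := by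
  have h1 : (g * a) * conj (g * c) = ((‖g‖ ^ 2 : ℝ) : ℂ) * (a * conj c) := by
    rw [map_mul]
    have := Complex.mul_conj g
    rw [Complex.normSq_eq_norm_sq] at this
    rw [← this]
    ring
  have h2 : ((x : ℂ) * a) * conj ((y : ℂ) * c) = ((x * y : ℝ) : ℂ) * (a * conj c) := by
    rw [map_mul, Complex.conj_ofReal]
    push_cast
    ring
  rw [h1, h2, re_swap, re_swap]
  ring

theorem rpow_shift {b t : ℝ} (ht : 0 < t) (n : ℕ) : t ^ (b - 1) * t ^ n = t ^ (b - 1 + n) := by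
  rw [Real.rpow_add ht, Real.rpow_natCast]

/-- pointwise form of the density times a product -/
theorem dens_eq (s ζ : ℂ) (H : ℂ → ℂ) (b : ℝ) (A B : List ℕ) {z : ℂ} (hz : z ∈ ball (0 : ℂ) 1) :
    (1 - ‖z‖ ^ 2) ^ (b - 1) * ‖Complex.exp (s * H z)‖ ^ 2
      * (ζ * (ev (cc H z) A * conj (ev (cc H z) B))).re
    = (1 - ‖z‖ ^ 2) ^ (b - 1 + wt A + wt B) * (ζ * (FA s H A z * conj (FA s H B z))).re := by
  have hz1 : ‖z‖ < 1 := by simpa using hz
  have ht : 0 < 1 - ‖z‖ ^ 2 := by nlinarith [norm_nonneg z]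
  rw [ev_cc, ev_cc, mul_assoc, hprod]
  have h3 : (b - 1 + wt A + wt B : ℝ) = b - 1 + ((wt A + wt B : ℕ) : ℝ) := by
    push_cast; ring
  rw [h3, ← rpow_shift ht, pow_add]
  unfold FA
  ring

theorem dens_eq1 (s ζ : ℂ) (H : ℂ → ℂ) (b : ℝ) (A B : List ℕ) {z : ℂ} (hz : z ∈ ball (0 : ℂ) 1) :
    (1 - ‖z‖ ^ 2) ^ (b - 1) * ‖Complex.exp (s * H z)‖ ^ 2
      * ((1 - ‖z‖ ^ 2) * (ζ * (ev (cc H z) A * conj (ev (cc H z) B))).re)
    = (1 - ‖z‖ ^ 2) ^ (b + wt A + wt B) * (ζ * (FA s H A z * conj (FA s H B z))).re := by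
  have hz1 : ‖z‖ < 1 := by simpa using hz
  have ht : 0 < 1 - ‖z‖ ^ 2 := by nlinarith [norm_nonneg z]
  have h1 := dens_eq s ζ H b A B hz
  have h2 : (1 - ‖z‖ ^ 2) ^ (b + wt A + wt B)
      = (1 - ‖z‖ ^ 2) ^ (b - 1 + wt A + wt B) * (1 - ‖z‖ ^ 2) := by
    have e : b + wt A + wt B = (b - 1 + wt A + wt B) + 1 := by ring
    rw [e, Real.rpow_add ht, Real.rpow_one]
  rw [h2]
  linear_combination (1 - ‖z‖ ^ 2) * h1

theorem dens_eqD (s ζ : ℂ) {H : ℂ → ℂ} (b : ℝ) (A B : List ℕ) {ρ : ℝ} (hρ : 1 < ρ)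
    (hH : DifferentiableOn ℂ H (ball 0 ρ)) {z : ℂ} (hz : z ∈ ball (0 : ℂ) 1) :
    (1 - ‖z‖ ^ 2) ^ (b - 1) * ‖Complex.exp (s * H z)‖ ^ 2
      * (ζ * (DGs s (cc H z) A * conj (ev (cc H z) B))).re
    = (1 - ‖z‖ ^ 2) ^ (b + wt A + wt B) * (ζ * (th (FA s H A) z * conj (FA s H B z))).re := by
  have hz1 : ‖z‖ < 1 := by simpa using hz
  have ht : 0 < 1 - ‖z‖ ^ 2 := by nlinarith [norm_nonneg z]
  have hzρ : z ∈ ball (0 : ℂ) ρ := ball_subset_ball hρ.le hz
  rw [DGs_cc, ev_cc, mul_assoc, hprod, th_FA s (by linarith) hH hzρ]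
  have h3 : (b + wt A + wt B : ℝ) = b - 1 + ((wt A + 1 + wt B : ℕ) : ℝ) := by
    push_cast; ring
  rw [h3, ← rpow_shift ht, pow_add _ (wt A + 1) (wt B)]
  unfold FA
  ring

/-- integration by parts in terms of the coefficients -/
theorem parts_s {ρ : ℝ} (hρ : 1 < ρ) {F K : ℂ → ℂ} (hF : DifferentiableOn ℂ F (ball 0 ρ))
    (hK : DifferentiableOn ℂ K (ball 0 ρ)) {p : ℝ} (hp0 : 0 < p) (ζ : ℂ) :
    (1 / π) * (∫ z in ball (0 : ℂ) 1, (1 - ‖z‖ ^ 2) ^ p * (ζ * (th F z * conj (K z))).re)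
        - p * ((1 / π) * ∫ z in ball (0 : ℂ) 1, (1 - ‖z‖ ^ 2) ^ (p - 1)
            * (ζ * (F z * conj (K z))).re)
      = -(p + 1) * ((1 / π) * ∫ z in ball (0 : ℂ) 1, (1 - ‖z‖ ^ 2) ^ p
            * (ζ * (F z * conj (K z))).re) := by
  have hpm : -1 < p - 1 := by linarith
  have hpp : -1 < p := by linarith
  have hT : DifferentiableOn ℂ (th F) (ball 0 ρ) := th_diff hF
  have b1 := bridge_s hρ hT hK hpp ζ
  have b2 := (bridge_s hρ hF hK hpm ζ).mul_left p
  have b3 := (bridge_s hρ hF hK hpp ζ).mul_left (-(p + 1))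
  have hF1 : DifferentiableOn ℂ F (ball 0 1) := hF.mono (ball_subset_ball hρ.le)
  have hfe : (fun m : ℕ => ((p + 1) * pq (p + 2) m)⁻¹
        * (ζ * (coeff (th F) m * conj (coeff K m))).re
      - p * (((p - 1 + 1) * pq (p - 1 + 2) m)⁻¹ * (ζ * (coeff F m * conj (coeff K m))).re))
      = fun m : ℕ => -(p + 1) * (((p + 1) * pq (p + 2) m)⁻¹
        * (ζ * (coeff F m * conj (coeff K m))).re) := by
    funext m
    rw [coeff_th hF1 m]
    have h4 : (ζ * ((m : ℂ) * coeff F m * conj (coeff K m))).re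
        = m * (ζ * (coeff F m * conj (coeff K m))).re := by
      have e1 : ζ * ((m : ℂ) * coeff F m * conj (coeff K m))
          = ((m : ℝ) : ℂ) * (ζ * (coeff F m * conj (coeff K m))) := by
        push_cast
        ring
      rw [e1, Complex.re_ofReal_mul]
    rw [h4]
    have h5 := pq_add_one (p + 1) m
    have h6 : 0 < pq (p + 1) m := pq_pos (by linarith) m
    have h8 : (p + 1 + 1 : ℝ) = p + 2 := by ring
    have h9 : (p - 1 + 2 : ℝ) = p + 1 := by ring
    have h10 : (p - 1 + 1 : ℝ) = p := by ring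
    rw [h8] at h5
    rw [h9, h10]
    have hp1' : (p + 1 : ℝ) ≠ 0 := by linarith
    have hp0' : (p : ℝ) ≠ 0 := by linarith
    have h11 : ((p + 1) * pq (p + 2) m)⁻¹ = (pq (p + 1) m)⁻¹ * (p + 1 + m)⁻¹ := by
      rw [h5, mul_inv]
    have h12 : (p + 1 + m : ℝ) ≠ 0 := by positivity
    rw [h11]
    field_simp
    ring
  have b4 := b1.sub b2
  rw [hfe] at b4
  exact b4.unique b3

theorem cont_prod {ρ : ℝ} (hρ : 1 < ρ) {F K : ℂ → ℂ} (hF : DifferentiableOn ℂ F (ball 0 ρ))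
    (hK : DifferentiableOn ℂ K (ball 0 ρ)) (ζ : ℂ) :
    ContinuousOn (fun z : ℂ => (ζ * (F z * conj (K z))).re) (closedBall (0 : ℂ) 1) := by
  have hsub : closedBall (0 : ℂ) 1 ⊆ ball 0 ρ := closedBall_subset_ball hρ
  refine Complex.continuous_re.comp_continuousOn ?_
  refine continuousOn_const.mul ((hF.continuousOn.mono hsub).mul ?_)
  exact Complex.continuous_conj.comp_continuousOn (hK.continuousOn.mono hsub)

end RelS

theorem cross_sum_s {ρ : ℝ} {β H : ℂ → ℂ} {Φ : ℂ → ℂ → ℂ} (h : Dat ρ β H Φ) {b : ℝ}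
    (hb : 0 < b) (s ζ : ℂ) (A B : List ℕ) :
    HasSum (fun m : ℕ => ((b + wt A + wt B) * pq (b + wt A + wt B + 1) m)⁻¹
      * (ζ * (coeff (FA s H A) m * conj (coeff (FA s H B) m))).re)
      (LS s H b (fun z => (ζ * (ev (cc H z) A * conj (ev (cc H z) B))).re)) := by
  have hρ := h.one_lt
  have hwA : (0 : ℝ) ≤ wt A := Nat.cast_nonneg _
  have hwB : (0 : ℝ) ≤ wt B := Nat.cast_nonneg _
  have hp : -1 < b - 1 + wt A + wt B := by linarith
  have h1 := bridge_s hρ (FA_diff s (by linarith) h.diff A) (FA_diff s (by linarith) h.diff B) hp ζ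
  have e1 : b - 1 + wt A + wt B + 1 = b + wt A + wt B := by ring
  have e2 : b - 1 + wt A + wt B + 2 = b + wt A + wt B + 1 := by ring
  rw [e1, e2] at h1
  have e3 : LS s H b (fun z => (ζ * (ev (cc H z) A * conj (ev (cc H z) B))).re)
      = (1 / π) * ∫ z in ball (0 : ℂ) 1, (1 - ‖z‖ ^ 2) ^ (b - 1 + wt A + wt B)
        * (ζ * (FA s H A z * conj (FA s H B z))).re := by
    unfold LS
    rw [setIntegral_congr_fun measurableSet_ball
      (fun z hz => dens_eq s ζ H b A B hz)]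
  rw [e3]
  exact h1

theorem relS_LS {ρ : ℝ} {β H : ℂ → ℂ} {Φ : ℂ → ℂ → ℂ} (h : Dat ρ β H Φ) {b : ℝ}
    (hb : 0 < b) (s ζ : ℂ) (A B : List ℕ) :
    LS s H b (fun z => (ζ * relS s b (cc H z) A B).re)
      = -(b + wt A + wt B + 1) * LS s H b (fun z => (1 - ‖z‖ ^ 2)
          * (ζ * (ev (cc H z) A * conj (ev (cc H z) B))).re) := by
  have hρ := h.one_lt
  have hwA : (0 : ℝ) ≤ wt A := Nat.cast_nonneg _
  have hwB : (0 : ℝ) ≤ wt B := Nat.cast_nonneg _
  have hFA := FA_diff s (by linarith) h.diff A (ρ := ρ)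
  have hFB := FA_diff s (by linarith) h.diff B (ρ := ρ)
  have hT : DifferentiableOn ℂ (th (FA s H A)) (ball 0 ρ) := th_diff hFA
  have hp0 : 0 < b + wt A + wt B := by linarith
  have hpp : -1 < b + wt A + wt B := by linarith
  have hpm : -1 < b + wt A + wt B - 1 := by linarith
  have e1 : ∀ z ∈ ball (0 : ℂ) 1, (1 - ‖z‖ ^ 2) ^ (b - 1) * ‖Complex.exp (s * H z)‖ ^ 2
      * (ζ * relS s b (cc H z) A B).re
        = (1 - ‖z‖ ^ 2) ^ (b + wt A + wt B) * (ζ * (th (FA s H A) z * conj (FA s H B z))).re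
        - (b + wt A + wt B) * ((1 - ‖z‖ ^ 2) ^ (b + wt A + wt B - 1)
          * (ζ * (FA s H A z * conj (FA s H B z))).re) := by
    intro z hz
    have h1 := dens_eqD s ζ b A B hρ h.diff hz
    have h2 := dens_eq s ζ H b A B hz
    have e2 : b + wt A + wt B - 1 = b - 1 + wt A + wt B := by ring
    rw [← h1, e2, ← h2]
    have e3 : (ζ * relS s b (cc H z) A B).re
        = (ζ * (DGs s (cc H z) A * conj (ev (cc H z) B))).re
          - (b + wt A + wt B) * (ζ * (ev (cc H z) A * conj (ev (cc H z) B))).re := by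
      unfold relS
      rw [mul_sub, Complex.sub_re, re_swap]
    rw [e3]
    ring
  have hL : LS s H b (fun z => (ζ * relS s b (cc H z) A B).re)
      = (1 / π) * (∫ z in ball (0 : ℂ) 1, (1 - ‖z‖ ^ 2) ^ (b + wt A + wt B)
          * (ζ * (th (FA s H A) z * conj (FA s H B z))).re)
        - (b + wt A + wt B) * ((1 / π) * ∫ z in ball (0 : ℂ) 1,
            (1 - ‖z‖ ^ 2) ^ (b + wt A + wt B - 1)
            * (ζ * (FA s H A z * conj (FA s H B z))).re) := by
    unfold LS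
    rw [setIntegral_congr_fun measurableSet_ball e1,
      integral_sub (wf_int hpp (cont_prod hρ hT hFB ζ))
        ((wf_int hpm (cont_prod hρ hFA hFB ζ)).const_mul _), integral_const_mul]
    ring
  have hR : LS s H b (fun z => (1 - ‖z‖ ^ 2) * (ζ * (ev (cc H z) A * conj (ev (cc H z) B))).re)
      = (1 / π) * ∫ z in ball (0 : ℂ) 1, (1 - ‖z‖ ^ 2) ^ (b + wt A + wt B)
        * (ζ * (FA s H A z * conj (FA s H B z))).re := by
    unfold LS
    rw [setIntegral_congr_fun measurableSet_ball (fun z hz => dens_eq1 s ζ H b A B hz)]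
  rw [hL, hR]
  exact parts_s hρ hFA hFB hp0 ζ

end Pool.Agent.Helper24.HR2
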