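import Mathlib
import Pool.Agent.Helper24.HR2.Defs
import Pool.Agent.Helper24.HR2.LSBase
import Pool.Agent.Helper24.HR2.RelS
import Pool.Agent.Helper39.MH.AreaForm
import Pool.Agent.Helper39.MH.Weights

/-!
MP_16b0ee, project HR2, module R8: general lemmas on the coefficients of `exp (s H)` times a
polynomial in the jets.
-/

set_option autoImplicit false

open MeasureTheory Set Metric Filter Topology
open scoped Real ComplexConjugate

namespace Pool.Agent.Helper24.HR2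

open Pool.Agent.Helper22.Half
open Pool.Agent.Helper22.Marshall (coeff SepHol LogPhi dcoeff GLe coeff_const_mul)
open Pool.Agent.Helper39.Area (Ext phi)
open Pool.Agent.Helper39.MH

namespace FS

/-- the coefficients of `exp (s H)` times a monomial in the jets -/
noncomputable def xs (s : ℂ) (H : ℂ → ℂ) (A : List ℕ) (m : ℕ) : ℂ := coeff (FA s H A) m

/-- the normalised moduli -/
noncomputable def ys (s : ℂ) (H : ℂ → ℂ) (A : List ℕ) (m : ℕ) : ℝ :=
  ‖xs s H A m‖ / (m : ℝ) ^ wt A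

/-- the value of a polynomial in the jets -/
noncomputable def pv (c : ℕ → ℂ) (P : List (ℂ × List ℕ)) : ℂ :=
  (P.map (fun x => x.1 * ev c x.2)).sum

/-- the coefficients of `exp (s H)` times a polynomial in the jets -/
noncomputable def px (s : ℂ) (H : ℂ → ℂ) (P : List (ℂ × List ℕ)) (m : ℕ) : ℂ :=
  (P.map (fun x => x.1 * xs s H x.2 m)).sum

/-- the sum of the moduli of the coefficients -/
noncomputable def pn (P : List (ℂ × List ℕ)) : ℝ := (P.map (fun x => ‖x.1‖)).sum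

theorem pv_nil (c : ℕ → ℂ) : pv c [] = 0 := rfl

theorem pv_cons (c : ℕ → ℂ) (x : ℂ × List ℕ) (P : List (ℂ × List ℕ)) :
    pv c (x :: P) = x.1 * ev c x.2 + pv c P := by
  unfold pv
  rw [List.map_cons, List.sum_cons]

theorem px_nil (s : ℂ) (H : ℂ → ℂ) (m : ℕ) : px s H [] m = 0 := rfl

theorem px_cons (s : ℂ) (H : ℂ → ℂ) (x : ℂ × List ℕ) (P : List (ℂ × List ℕ)) (m : ℕ) :
    px s H (x :: P) m = x.1 * xs s H x.2 m + px s H P m := by
  unfold px
  rw [List.map_cons, List.sum_cons]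

theorem pn_nil : pn [] = 0 := rfl

theorem pn_cons (x : ℂ × List ℕ) (P : List (ℂ × List ℕ)) : pn (x :: P) = ‖x.1‖ + pn P := by
  unfold pn
  rw [List.map_cons, List.sum_cons]

theorem pn_nonneg (P : List (ℂ × List ℕ)) : 0 ≤ pn P := by
  induction P with
  | nil => exact le_refl _
  | cons x P ih =>
    rw [pn_cons]
    have := norm_nonneg x.1
    linarith

theorem ys_nonneg (s : ℂ) (H : ℂ → ℂ) (A : List ℕ) (m : ℕ) : 0 ≤ ys s H A m := by
  unfold ys
  positivity

theorem norm_xs (s : ℂ) (H : ℂ → ℂ) (A : List ℕ) {m : ℕ} (hm : 1 ≤ m) :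
    ‖xs s H A m‖ = ys s H A m * (m : ℝ) ^ wt A := by
  unfold ys
  have h0 : (0 : ℝ) < m := by exact_mod_cast hm
  field_simp

theorem FA_diff (s : ℂ) {H : ℂ → ℂ} {ρ : ℝ} (hρ : 0 < ρ) (hH : DifferentiableOn ℂ H (ball 0 ρ))
    (A : List ℕ) : DifferentiableOn ℂ (FA s H A) (ball 0 ρ) :=
  exp_ev_diff_s s hρ hH A

theorem pv_gg_diff {H : ℂ → ℂ} {ρ : ℝ} (hρ : 0 < ρ) (hH : DifferentiableOn ℂ H (ball 0 ρ))
    (P : List (ℂ × List ℕ)) :
    DifferentiableOn ℂ (fun z => pv (fun k => gg H k z) P) (ball 0 ρ) := by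
  induction P with
  | nil =>
    simp only [pv_nil]
    exact differentiableOn_const 0
  | cons x P ih =>
    simp only [pv_cons]
    exact ((ev_gg_diff hρ hH x.2).const_mul x.1).fun_add ih

/-- the coefficients of a polynomial in the jets -/
theorem coeff_pv (s : ℂ) {H : ℂ → ℂ} (hH : DifferentiableOn ℂ H (ball 0 1))
    (P : List (ℂ × List ℕ)) (m : ℕ) :
    coeff (fun z => Complex.exp (s * H z) * pv (fun k => gg H k z) P) m = px s H P m := by
  induction P with
  | nil =>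
    have e : (fun z => Complex.exp (s * H z) * pv (fun k => gg H k z) [])
        = fun z => (0 : ℂ) * Complex.exp (s * H z) := by
      funext z
      rw [pv_nil]
      ring
    rw [e, coeff_const_mul, px_nil, zero_mul]
  | cons x P ih =>
    have e : (fun z => Complex.exp (s * H z) * pv (fun k => gg H k z) (x :: P))
        = fun z => x.1 * FA s H x.2 z
          + Complex.exp (s * H z) * pv (fun k => gg H k z) P := by
      funext z
      rw [pv_cons]
      unfold FA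
      ring
    rw [e, AF.coeff_add' ((FA_diff s one_pos hH x.2).const_mul x.1)
      ((exp_mul_diff s hH).fun_mul (pv_gg_diff one_pos hH P)), coeff_const_mul, ih, px_cons]
    rfl

/-! ### bounds for the coefficients of bounded order -/

theorem dat_hyp {ρ : ℝ} {β H : ℂ → ℂ} {Φ : ℂ → ℂ → ℂ} (h : Dat ρ β H Φ) : Bounds.Hyp H :=
  ⟨h.diff.mono (ball_subset_ball h.one_lt.le), h.bloch⟩

theorem dat_cont {ρ : ℝ} {β H : ℂ → ℂ} {Φ : ℂ → ℂ → ℂ} (h : Dat ρ β H Φ) :
    ContinuousOn H (closedBall 0 1) :=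
  h.diff.continuousOn.mono (closedBall_subset_ball h.one_lt)

theorem exp_gol {ρ : ℝ} {β H : ℂ → ℂ} {Φ : ℂ → ℂ → ℂ} (h : Dat ρ β H Φ) {s : ℂ}
    (hs : ‖s‖ ≤ 1) {z : ℂ} (hz : ‖z‖ ≤ 1 / 2) : ‖Complex.exp (s * H z)‖ ≤ 4 / 3 := by
  have hzb : z ∈ ball (0 : ℂ) 1 := by rw [mem_ball_zero_iff]; linarith
  have h0 := Bounds.one_sub_sq_pos hzb
  have h1 := h.gol z hzb
  have hs2 : 3 / 4 ≤ 1 - ‖z‖ ^ 2 := by
    have := norm_nonneg z
    nlinarith
  have h2 : ‖s * H z‖ ≤ Real.log (4 / 3) := by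
    rw [norm_mul]
    calc ‖s‖ * ‖H z‖ ≤ 1 * ‖H z‖ := mul_le_mul_of_nonneg_right hs (norm_nonneg _)
      _ = ‖H z‖ := one_mul _
      _ ≤ Real.log (1 / (1 - ‖z‖ ^ 2)) := h1
      _ ≤ Real.log (4 / 3) := by
        apply Real.log_le_log (by positivity)
        rw [div_le_div_iff₀ h0 (by norm_num)]
        linarith
  have h3 : ‖Complex.exp (s * H z)‖ ≤ Real.exp ‖s * H z‖ := by
    rw [Complex.norm_exp]
    exact Real.exp_le_exp.mpr ((le_abs_self _).trans (Complex.abs_re_le_norm _))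
  calc ‖Complex.exp (s * H z)‖ ≤ Real.exp ‖s * H z‖ := h3
    _ ≤ Real.exp (Real.log (4 / 3)) := Real.exp_le_exp.mpr h2
    _ = 4 / 3 := Real.exp_log (by norm_num)

/-- the coefficients are bounded in the class -/
theorem xs_bound (A : List ℕ) (m : ℕ) : ∃ B : ℝ, 0 ≤ B ∧ ∀ (ρ : ℝ) (β H : ℂ → ℂ)
    (Φ : ℂ → ℂ → ℂ), Dat ρ β H Φ → ∀ s : ℂ, ‖s‖ ≤ 1 → ‖xs s H A m‖ ≤ B := by
  obtain ⟨C, hC0, hC⟩ := AF.ev_gg_bound A
  refine ⟨4 / 3 * ((4 / 3) ^ wt A * C) * 2 ^ m, by positivity, fun ρ β H Φ h s hs1 => ?_⟩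
  have hH := dat_hyp h
  have hf : DifferentiableOn ℂ (FA s H A) (ball 0 1) := FA_diff s one_pos hH.1 A
  have h1 := Pool.Agent.Helper22.Marshall.coeff_bound hf (r := 1 / 2)
    (M := 4 / 3 * ((4 / 3) ^ wt A * C)) (by norm_num) (by norm_num)
    (fun z hz => by
      have hzb : z ∈ ball (0 : ℂ) 1 := by rw [mem_ball_zero_iff]; linarith
      have hs : 3 / 4 ≤ 1 - ‖z‖ ^ 2 := by
        have := norm_nonneg z
        nlinarith
      have h2 := exp_gol h hs1 hz
      have h3 := hC H hH z hzb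
      have h4 : ‖ev (fun k => gg H k z) A‖ ≤ (4 / 3) ^ wt A * C := by
        have h5 : (3 / 4 : ℝ) ^ wt A ≤ (1 - ‖z‖ ^ 2) ^ wt A :=
          pow_le_pow_left₀ (by norm_num) hs _
        have h6 : (3 / 4 : ℝ) ^ wt A * ‖ev (fun k => gg H k z) A‖ ≤ C :=
          (mul_le_mul_of_nonneg_right h5 (norm_nonneg _)).trans h3
        have h7 : (4 / 3 : ℝ) ^ wt A * (3 / 4 : ℝ) ^ wt A = 1 := by
          rw [← mul_pow]; norm_num
        calc ‖ev (fun k => gg H k z) A‖
            = (4 / 3 : ℝ) ^ wt A * ((3 / 4 : ℝ) ^ wt A * ‖ev (fun k => gg H k z) A‖) := by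
              rw [← mul_assoc, h7, one_mul]
          _ ≤ (4 / 3) ^ wt A * C := mul_le_mul_of_nonneg_left h6 (by positivity)
      unfold FA
      rw [norm_mul]
      exact mul_le_mul h2 h4 (norm_nonneg _) (by norm_num)) m
  rw [one_div, inv_pow] at h1
  have h2 : (0 : ℝ) < 2 ^ m := by positivity
  unfold xs
  calc ‖coeff (FA s H A) m‖
      = ‖coeff (FA s H A) m‖ * (2 ^ m)⁻¹ * 2 ^ m := by field_simp
    _ ≤ 4 / 3 * ((4 / 3) ^ wt A * C) * 2 ^ m :=
      mul_le_mul_of_nonneg_right h1 h2.le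

theorem px_bound (s : ℂ) (hs : ‖s‖ ≤ 1) (P : List (ℂ × List ℕ)) (m : ℕ) : ∃ B : ℝ, 0 ≤ B ∧
    ∀ (ρ : ℝ) (β H : ℂ → ℂ) (Φ : ℂ → ℂ → ℂ), Dat ρ β H Φ → ‖px s H P m‖ ≤ B := by
  induction P with
  | nil =>
    refine ⟨0, le_refl _, fun ρ β H Φ _ => ?_⟩
    rw [px_nil, norm_zero]
  | cons x P ih =>
    obtain ⟨B, hB0, hB⟩ := ih
    obtain ⟨D, hD0, hD⟩ := xs_bound x.2 m
    refine ⟨‖x.1‖ * D + B, by positivity, fun ρ β H Φ h => ?_⟩
    rw [px_cons]
    refine (norm_add_le _ _).trans ?_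
    rw [norm_mul]
    exact add_le_add (mul_le_mul_of_nonneg_left (hD ρ β H Φ h s hs) (norm_nonneg _)) (hB ρ β H Φ h)

/-- the size of the coefficients of a polynomial of bounded weight -/
theorem norm_px_le (s : ℂ) (H : ℂ → ℂ) (P : List (ℂ × List ℕ)) {m w : ℕ} (hm : 1 ≤ m) {N : ℝ}
    (hP : ∀ x ∈ P, wt x.2 ≤ w ∧ ys s H x.2 m ≤ N) : ‖px s H P m‖ ≤ pn P * N * (m : ℝ) ^ w := by
  induction P with
  | nil => rw [px_nil, norm_zero, pn_nil, zero_mul, zero_mul]
  | cons x P ih =>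
    have h1 := ih (fun y hy => hP y (List.mem_cons_of_mem _ hy))
    obtain ⟨h2, h3⟩ := hP x List.mem_cons_self
    rw [px_cons, pn_cons]
    refine (norm_add_le _ _).trans ?_
    rw [norm_mul, norm_xs s H x.2 hm]
    have hm1 : (1 : ℝ) ≤ m := by exact_mod_cast hm
    have h4 : ys s H x.2 m * (m : ℝ) ^ wt x.2 ≤ N * (m : ℝ) ^ w :=
      mul_le_mul h3 (pow_le_pow_right₀ hm1 h2) (by positivity) ((ys_nonneg s H x.2 m).trans h3)
    have h5 := mul_le_mul_of_nonneg_left h4 (norm_nonneg x.1)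
    calc ‖x.1‖ * (ys s H x.2 m * (m : ℝ) ^ wt x.2) + ‖px s H P m‖
        ≤ ‖x.1‖ * (N * (m : ℝ) ^ w) + pn P * N * (m : ℝ) ^ w := add_le_add h5 h1
      _ = (‖x.1‖ + pn P) * N * (m : ℝ) ^ w := by ring

/-! ### the pairings as series -/

theorem cont_pv {ρ : ℝ} {β H : ℂ → ℂ} {Φ : ℂ → ℂ → ℂ} (h : Dat ρ β H Φ)
    (P : List (ℂ × List ℕ)) : ContinuousOn (fun z => pv (cc H z) P) (closedBall 0 1) := by
  induction P with
  | nil =>
    simp only [pv_nil]
    exact continuousOn_const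
  | cons x P ih =>
    simp only [pv_cons]
    exact ((cont_ev_cc h.one_lt h.diff x.2).const_mul x.1).add ih

theorem cont_pair {f g : ℂ → ℂ} {S : Set ℂ} (hf : ContinuousOn f S) (hg : ContinuousOn g S)
    (ζ : ℂ) : ContinuousOn (fun z => (ζ * (f z * conj (g z))).re) S :=
  Complex.continuous_re.comp_continuousOn
    ((hf.mul (Complex.continuous_conj.comp_continuousOn hg)).const_mul ζ)

theorem pair_one {ρ : ℝ} {β H : ℂ → ℂ} {Φ : ℂ → ℂ → ℂ} (h : Dat ρ β H Φ) {b : ℝ}
    (hb : 0 < b) (s : ℂ) (A : List ℕ) (R : List (ℂ × List ℕ)) {wR : ℕ}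
    (hR : ∀ x ∈ R, wt x.2 = wR) : ∀ ζ : ℂ,
    HasSum (fun m : ℕ => ((b + wt A + wR) * pq (b + wt A + wR + 1) m)⁻¹
      * (ζ * (xs s H A m * conj (px s H R m))).re)
      (LS s H b (fun z => (ζ * (ev (cc H z) A * conj (pv (cc H z) R))).re)) := by
  induction R with
  | nil =>
    intro ζ
    have e1 : (fun m : ℕ => ((b + wt A + wR) * pq (b + wt A + wR + 1) m)⁻¹
      * (ζ * (xs s H A m * conj (px s H [] m))).re) = fun _ => 0 := by
      funext m
      rw [px_nil]
      simp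
    have e2 : LS s H b (fun z => (ζ * (ev (cc H z) A * conj (pv (cc H z) []))).re) = 0 := by
      unfold LS
      simp [pv_nil]
    rw [e1, e2]
    exact hasSum_zero
  | cons x R ih =>
    intro ζ
    have h1 := ih (fun y hy => hR y (List.mem_cons_of_mem _ hy)) ζ
    have h2 := cross_sum_s h hb s (ζ * conj x.1) A x.2
    have hw := hR x List.mem_cons_self
    rw [hw] at h2
    have h3 := h2.add h1
    have e1 : (fun m : ℕ => ((b + wt A + wR) * pq (b + wt A + wR + 1) m)⁻¹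
        * (ζ * conj x.1 * (coeff (FA s H A) m * conj (coeff (FA s H x.2) m))).re
        + ((b + wt A + wR) * pq (b + wt A + wR + 1) m)⁻¹
        * (ζ * (xs s H A m * conj (px s H R m))).re)
        = fun m : ℕ => ((b + wt A + wR) * pq (b + wt A + wR + 1) m)⁻¹
        * (ζ * (xs s H A m * conj (px s H (x :: R) m))).re := by
      funext m
      rw [← mul_add, ← Complex.add_re]
      congr 2
      rw [px_cons, map_add, map_mul]
      unfold xs
      ring
    rw [e1] at h3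
    have hHc := dat_cont h
    have c1 := cont_pair (cont_ev_cc h.one_lt h.diff A) (cont_ev_cc h.one_lt h.diff x.2)
      (ζ * conj x.1)
    have c2 := cont_pair (cont_ev_cc h.one_lt h.diff A) (cont_pv h R) ζ
    rw [← LS_add hHc hb c1 c2] at h3
    have e2 : (fun z => (ζ * conj x.1 * (ev (cc H z) A * conj (ev (cc H z) x.2))).re
        + (ζ * (ev (cc H z) A * conj (pv (cc H z) R))).re)
        = fun z => (ζ * (ev (cc H z) A * conj (pv (cc H z) (x :: R)))).re := by
      funext z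
      rw [← Complex.add_re]
      congr 1
      rw [pv_cons, map_add, map_mul]
      ring
    rw [e2] at h3
    exact h3

theorem pair_hasSum {ρ : ℝ} {β H : ℂ → ℂ} {Φ : ℂ → ℂ → ℂ} (h : Dat ρ β H Φ) {b : ℝ}
    (hb : 0 < b) (s : ℂ) (P R : List (ℂ × List ℕ)) {wP wR : ℕ} (hP : ∀ x ∈ P, wt x.2 = wP)
    (hR : ∀ x ∈ R, wt x.2 = wR) : ∀ ζ : ℂ,
    HasSum (fun m : ℕ => ((b + wP + wR) * pq (b + wP + wR + 1) m)⁻¹
      * (ζ * (px s H P m * conj (px s H R m))).re)
      (LS s H b (fun z => (ζ * (pv (cc H z) P * conj (pv (cc H z) R))).re)) := by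
  induction P with
  | nil =>
    intro ζ
    have e1 : (fun m : ℕ => ((b + wP + wR) * pq (b + wP + wR + 1) m)⁻¹
      * (ζ * (px s H [] m * conj (px s H R m))).re) = fun _ => 0 := by
      funext m
      rw [px_nil]
      simp
    have e2 : LS s H b (fun z => (ζ * (pv (cc H z) [] * conj (pv (cc H z) R))).re) = 0 := by
      unfold LS
      simp [pv_nil]
    rw [e1, e2]
    exact hasSum_zero
  | cons x P ih =>
    intro ζ
    have h1 := ih (fun y hy => hP y (List.mem_cons_of_mem _ hy)) ζ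
    have h2 := pair_one h hb s x.2 R hR (ζ * x.1)
    have hw := hP x List.mem_cons_self
    rw [hw] at h2
    have h3 := h2.add h1
    have e1 : (fun m : ℕ => ((b + wP + wR) * pq (b + wP + wR + 1) m)⁻¹
        * (ζ * x.1 * (xs s H x.2 m * conj (px s H R m))).re
        + ((b + wP + wR) * pq (b + wP + wR + 1) m)⁻¹
        * (ζ * (px s H P m * conj (px s H R m))).re)
        = fun m : ℕ => ((b + wP + wR) * pq (b + wP + wR + 1) m)⁻¹
        * (ζ * (px s H (x :: P) m * conj (px s H R m))).re := by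
      funext m
      rw [← mul_add, ← Complex.add_re]
      congr 2
      rw [px_cons]
      ring
    rw [e1] at h3
    have hHc := dat_cont h
    have c1 := cont_pair (cont_ev_cc h.one_lt h.diff x.2) (cont_pv h R) (ζ * x.1)
    have c2 := cont_pair (cont_pv h P) (cont_pv h R) ζ
    rw [← LS_add hHc hb c1 c2] at h3
    have e2 : (fun z => (ζ * x.1 * (ev (cc H z) x.2 * conj (pv (cc H z) R))).re
        + (ζ * (pv (cc H z) P * conj (pv (cc H z) R))).re)
        = fun z => (ζ * (pv (cc H z) (x :: P) * conj (pv (cc H z) R))).re := by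
      funext z
      rw [← Complex.add_re]
      congr 1
      rw [pv_cons]
      ring
    rw [e2] at h3
    exact h3

/-! ### the weights of the orders -/

/-- the weight of the order `m` -/
noncomputable def WtS (b : ℝ) (m : ℕ) : ℝ := (m : ℝ) ^ 2 / pq (b + 3) (m - 1)

theorem WtS_nonneg {b : ℝ} (hb : 0 < b) (m : ℕ) : 0 ≤ WtS b m := by
  unfold WtS
  have := pq_pos (z := b + 3) (by positivity) (m - 1)
  positivity

theorem WtS_pos {b : ℝ} (hb : 0 < b) {m : ℕ} (hm : 1 ≤ m) : 0 < WtS b m := by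
  unfold WtS
  have := pq_pos (z := b + 3) (by positivity) (m - 1)
  have h0 : (0 : ℝ) < m := by exact_mod_cast hm
  positivity

theorem WtS_eq {b : ℝ} (hb : 0 < b) {m : ℕ} (hm : 1 ≤ m) :
    WtS b m = Helper39.MH.Wt b m * ((b + 2 + m) / m) := by
  obtain ⟨n, rfl⟩ := Nat.exists_eq_add_of_le' hm
  unfold WtS Helper39.MH.Wt
  rw [Nat.add_sub_cancel]
  have h1 : pq (b + 3) (n + 1) = pq (b + 3) n * ((b + 3 + n) / (n + 1)) := rfl
  rw [h1]
  have h2 := pq_pos (z := b + 3) (by positivity) n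
  have h3 : (0 : ℝ) < b + 3 + n := by positivity
  have h4 : (0 : ℝ) < (n : ℝ) + 1 := by positivity
  push_cast
  have e : b + 2 + ((n : ℝ) + 1) = b + 3 + n := by ring
  rw [e]
  field_simp

theorem poch_eq (b : ℝ) (w : ℕ) : poch b w = (Nat.factorial w : ℝ) * pq b w := by
  induction w with
  | zero => simp [poch, pq]
  | succ w ih =>
    have h1 : pq b (w + 1) = pq b w * ((b + w) / (w + 1)) := rfl
    unfold poch at ih ⊢
    rw [Finset.prod_range_succ, ih, h1, Nat.factorial_succ]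
    push_cast
    field_simp

theorem poch_pos {b : ℝ} (hb : 0 < b) (w : ℕ) : 0 < poch b w := by
  unfold poch
  exact Finset.prod_pos fun k _ => by positivity

theorem wtS_tendsto {b : ℝ} (hb : 0 < b) (w : ℕ) :
    Tendsto (fun m : ℕ => WtS b m / (m : ℝ) ^ w * ((b + w) * pq (b + w + 1) m)) atTop
      (𝓝 (b * (b + 1) * (b + 2) / poch b w)) := by
  have h1 := (wt_tendsto hb w).mul (Weights.quot_one (b + 2))
  rw [mul_one, ← poch_eq] at h1
  refine h1.congr' ?_
  filter_upwards [eventually_ge_atTop 1] with m hm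
  rw [WtS_eq hb hm]
  ring

/-- the ratio of the exact coefficient and of its leading term -/
noncomputable def trS (b : ℝ) (m w : ℕ) : ℝ :=
  b * (b + 1) * (b + 2) / poch b w / (WtS b m / (m : ℝ) ^ w * ((b + w) * pq (b + w + 1) m))

theorem trS_tendsto {b : ℝ} (hb : 0 < b) (w : ℕ) :
    Tendsto (fun m => trS b m w) atTop (𝓝 1) := by
  have h := wtS_tendsto hb w
  have hp := poch_pos hb w
  have h0 : b * (b + 1) * (b + 2) / poch b w ≠ 0 := by positivity
  have h1 := (tendsto_const_nhds (x := b * (b + 1) * (b + 2) / poch b w)).div h h0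
  rw [div_self h0] at h1
  exact h1

/-- the weighted sum of the squares of the normalised moduli, for a general integrand -/
theorem norm_sum_s {b : ℝ} (hb : 0 < b) (A : List ℕ) : ∃ C : ℝ, 0 ≤ C ∧
    ∀ (ρ : ℝ) (β H : ℂ → ℂ) (Φ : ℂ → ℂ → ℂ), Dat ρ β H Φ → ∀ (s : ℂ) (F : Finset ℕ),
      ∑ m ∈ F, WtS b m * ys s H A m ^ 2 ≤ C * LS s H b (fun _ => 1) := by
  obtain ⟨Cb, hC0, hCb⟩ := gg_bound
  obtain ⟨K0, hK0⟩ := (wtS_tendsto hb (wt A + wt A)).bddAbove_range
  have hK : ∀ m : ℕ, WtS b m / (m : ℝ) ^ (wt A + wt A)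
      * ((b + wt A + wt A) * pq (b + wt A + wt A + 1) m) ≤ max K0 0 := by
    intro m
    have h1 := hK0 ⟨m, rfl⟩
    simp only at h1
    push_cast at h1
    rw [show b + ((wt A : ℝ) + wt A) = b + wt A + wt A by ring] at h1
    exact h1.trans (le_max_left _ _)
  have hK1 : 0 ≤ max K0 0 := le_max_right _ _
  generalize max K0 0 = K at hK hK1
  have hP := (ev_bound hC0 (c := fun n => (0:ℂ)) (fun n => by simpa using hC0 n) A).2
  refine ⟨K * (A.map Cb).prod ^ 2, by positivity, ?_⟩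
  intro ρ β H Φ h s F
  have hs := cross_sum_s h hb s 1 A A
  have hre : ∀ x : ℂ, (1 * (x * conj x)).re = ‖x‖ ^ 2 := by
    intro x
    rw [one_mul, Complex.mul_conj, Complex.normSq_eq_norm_sq, Complex.ofReal_re]
  simp_rw [hre] at hs
  have hterm : ∀ m : ℕ, WtS b m * ys s H A m ^ 2
      ≤ K * (((b + wt A + wt A) * pq (b + wt A + wt A + 1) m)⁻¹ * ‖coeff (FA s H A) m‖ ^ 2) := by
    intro m
    unfold ys xs
    generalize ‖coeff (FA s H A) m‖ = x
    have hq1 := pq_pos (z := b + wt A + wt A + 1) (by positivity) m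
    have hq : 0 < (b + wt A + wt A) * pq (b + wt A + wt A + 1) m := by positivity
    have h2 : WtS b m * (x / (m : ℝ) ^ wt A) ^ 2 = WtS b m / (m : ℝ) ^ (wt A + wt A)
        * ((b + wt A + wt A) * pq (b + wt A + wt A + 1) m)
        * (((b + wt A + wt A) * pq (b + wt A + wt A + 1) m)⁻¹ * x ^ 2) := by
      rw [div_pow, ← pow_mul, show wt A * 2 = wt A + wt A by ring]
      generalize (b + wt A + wt A) * pq (b + wt A + wt A + 1) m = q at hq
      have := hq.ne'
      field_simp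
    rw [h2]
    exact mul_le_mul_of_nonneg_right (hK m) (by positivity)
  have hnn : ∀ m : ℕ, 0 ≤ ((b + wt A + wt A) * pq (b + wt A + wt A + 1) m)⁻¹
      * ‖coeff (FA s H A) m‖ ^ 2 := by
    intro m
    have hq1 := pq_pos (z := b + wt A + wt A + 1) (by positivity) m
    positivity
  have h3 : ∑ m ∈ F, WtS b m * ys s H A m ^ 2 ≤ K * LS s H b (fun z => ‖ev (cc H z) A‖ ^ 2) := by
    refine (Finset.sum_le_sum fun m _ => hterm m).trans ?_
    rw [← Finset.mul_sum]
    exact mul_le_mul_of_nonneg_left (sum_le_hasSum F (fun m _ => hnn m) hs) hK1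
  refine h3.trans ?_
  have hHd : DifferentiableOn ℂ H (ball 0 1) := h.diff.mono (ball_subset_ball h.one_lt.le)
  have h4 : LS s H b (fun z => ‖ev (cc H z) A‖ ^ 2)
      ≤ LS s H b (fun _ => (A.map Cb).prod ^ 2 * 1) := by
    apply LS_mono (dat_cont h) hb ((cont_ev_cc h.one_lt h.diff A).norm.pow 2) continuousOn_const
    intro z hz
    have h5 := (ev_bound hC0 (fun n => hCb H hHd h.bloch n z hz) A).1
    rw [mul_one]
    exact pow_le_pow_left₀ (norm_nonneg _) h5 2
  rw [LS_smul] at h4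
  rw [mul_assoc]
  exact mul_le_mul_of_nonneg_left h4 hK1

/-! ### Hermitian forms -/

/-- the sum of the moduli of the entries -/
noncomputable def qn (K : ℕ) (Q : ℕ → ℕ → ℂ) : ℝ :=
  ∑ r ∈ Finset.range K, ∑ t ∈ Finset.range K, ‖Q r t‖

theorem qn_nonneg (K : ℕ) (Q : ℕ → ℕ → ℂ) : 0 ≤ qn K Q :=
  Finset.sum_nonneg fun _ _ => Finset.sum_nonneg fun _ _ => norm_nonneg _

theorem hF_diff (K : ℕ) (Q : ℕ → ℕ → ℂ) (u v : ℕ → ℂ) {U V e : ℝ} (he : 0 ≤ e)
    (hu : ∀ i < K, ‖u i‖ ≤ U) (hv : ∀ i < K, ‖v i‖ ≤ V) (hd : ∀ i < K, ‖u i - v i‖ ≤ e) :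
    hF K Q u - hF K Q v ≤ qn K Q * (e * (U + V)) := by
  unfold hF qn
  rw [← Finset.sum_sub_distrib, Finset.sum_mul]
  apply Finset.sum_le_sum
  intro r hr
  rw [← Finset.sum_sub_distrib, Finset.sum_mul]
  apply Finset.sum_le_sum
  intro t ht
  rw [Finset.mem_range] at hr ht
  rw [← Complex.sub_re, ← mul_sub]
  refine (Complex.re_le_norm _).trans ?_
  rw [norm_mul]
  apply mul_le_mul_of_nonneg_left _ (norm_nonneg _)
  have e1 : u t * conj (u r) - v t * conj (v r)
      = (u t - v t) * conj (u r) + v t * conj (u r - v r) := by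
    rw [map_sub]
    ring
  rw [e1]
  refine (norm_add_le _ _).trans ?_
  rw [norm_mul, norm_mul, RCLike.norm_conj, RCLike.norm_conj]
  have h2 : ‖u t - v t‖ * ‖u r‖ ≤ e * U := mul_le_mul (hd t ht) (hu r hr) (norm_nonneg _) he
  have h3 : ‖v t‖ * ‖u r - v r‖ ≤ V * e :=
    mul_le_mul (hv t ht) (hd r hr) (norm_nonneg _) ((norm_nonneg _).trans (hv t ht))
  linarith

/-- perturbation of the coefficients -/
theorem hF_pert (K : ℕ) (Q : ℕ → ℕ → ℂ) (τ : ℕ → ℕ → ℝ) (u : ℕ → ℂ) {N e : ℝ} (hN : 0 ≤ N)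
    (he0 : 0 ≤ e) (hu : ∀ i < K, ‖u i‖ ≤ N) (he : ∀ r < K, ∀ t < K, |τ r t - 1| ≤ e) :
    ∑ r ∈ Finset.range K, ∑ t ∈ Finset.range K, τ r t * (Q r t * (u t * conj (u r))).re
      ≤ hF K Q u + e * (qn K Q * N ^ 2) := by
  unfold hF qn
  rw [← mul_assoc, Finset.mul_sum, Finset.sum_mul, ← Finset.sum_add_distrib]
  apply Finset.sum_le_sum
  intro r hr
  rw [Finset.mul_sum, Finset.sum_mul, ← Finset.sum_add_distrib]
  apply Finset.sum_le_sum
  intro t ht
  rw [Finset.mem_range] at hr ht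
  have h1 : |(Q r t * (u t * conj (u r))).re| ≤ ‖Q r t‖ * N ^ 2 := by
    refine (Complex.abs_re_le_norm _).trans ?_
    rw [norm_mul, norm_mul, RCLike.norm_conj, sq]
    exact mul_le_mul_of_nonneg_left (mul_le_mul (hu t ht) (hu r hr) (norm_nonneg _) hN)
      (norm_nonneg _)
  have h2 : (τ r t - 1) * (Q r t * (u t * conj (u r))).re ≤ e * (‖Q r t‖ * N ^ 2) := by
    refine (le_abs_self _).trans ?_
    rw [abs_mul]
    exact mul_le_mul (he r hr t ht) h1 (abs_nonneg _) he0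
  have e3 : e * ‖Q r t‖ * N ^ 2 = e * (‖Q r t‖ * N ^ 2) := by ring
  rw [e3]
  have e4 : τ r t * (Q r t * (u t * conj (u r))).re = (Q r t * (u t * conj (u r))).re
      + (τ r t - 1) * (Q r t * (u t * conj (u r))).re := by ring
  rw [e4]
  linarith

theorem LS_fsum {s : ℂ} {H : ℂ → ℂ} {b : ℝ} (hH : ContinuousOn H (closedBall 0 1)) (hb : 0 < b)
    (S : Finset ℕ) (f : ℕ → ℂ → ℝ) (hf : ∀ i ∈ S, ContinuousOn (f i) (closedBall 0 1)) :
    LS s H b (fun z => ∑ i ∈ S, f i z) = ∑ i ∈ S, LS s H b (f i) := by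
  induction S using Finset.induction_on with
  | empty =>
    unfold LS
    simp
  | insert i S hi ih =>
    have h1 := ih (fun j hj => hf j (Finset.mem_insert_of_mem hj))
    have h2 : ContinuousOn (fun z => ∑ j ∈ S, f j z) (closedBall 0 1) :=
      continuousOn_finsetSum S (fun j hj => hf j (Finset.mem_insert_of_mem hj))
    rw [Finset.sum_insert hi, ← h1, ← LS_add hH hb (hf i (Finset.mem_insert_self i S)) h2]
    apply LS_congr
    intro z _
    rw [Finset.sum_insert hi]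

end FS

end Pool.Agent.Helper24.HR2
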