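import Mathlib
import Pool.Agent.Helper24.HR2.Defs
import Pool.Agent.Helper39.MH.JetsB

/-!
MP_16b0ee, project HR2: the second and the fourth moment of the antidiagonals of
`exp (s Phi)` in terms of the jets `g0, g1, g2, g3`, for every complex `s`.
-/

set_option autoImplicit false

open MeasureTheory Set Metric Filter Topology
open scoped Real ComplexConjugate

namespace Pool.Agent.Helper24.HR2

open Pool.Agent.Helper22.Half
open Pool.Agent.Helper22.Marshall (coeff SepHol LogPhi dcoeff GLe)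
open Pool.Agent.Helper39.Area (Ext phi)
open Pool.Agent.Helper39.MH
open Pool.Agent.Helper39.HR (Dt coeff_Dt Dt_mul Dt_sub Dt_C_mul Dt_Th Th coeff_Th Th_mul Th_C_mul
  Th_Pa Ev Pa Ev_Pa psf coeff_psf psf_mul psf_congr psf_const_mul qa Ev_Q poly_ode)

/-- uniqueness for `q x' = c q' x` -/
theorem ode_zero {q X c : PowerSeries (Polynomial ℂ)} (hq : PowerSeries.coeff 0 q = 1)
    (hX : PowerSeries.coeff 0 X = 0) (h : q * Dt X = c * (Dt q * X)) : X = 0 := by
  ext1 n
  rw [map_zero]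
  induction n using Nat.strong_induction_on with
  | _ n ih =>
    rcases Nat.eq_zero_or_pos n with h0 | hpos
    · rw [h0]
      exact hX
    · have h1 := congrArg (PowerSeries.coeff n) h
      rw [PowerSeries.coeff_mul, PowerSeries.coeff_mul] at h1
      have h2 : ∀ j ≤ n, PowerSeries.coeff j (Dt q * X) = 0 := by
        intro j hj
        rw [PowerSeries.coeff_mul]
        apply Finset.sum_eq_zero
        intro p hp
        rw [Finset.HasAntidiagonal.mem_antidiagonal] at hp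
        rcases Nat.eq_zero_or_pos p.1 with h3 | h3
        · rw [h3, coeff_Dt, Nat.cast_zero, zero_mul, zero_mul]
        · rw [ih p.2 (by omega), mul_zero]
      have h3 : ∑ p ∈ Finset.HasAntidiagonal.antidiagonal n,
          PowerSeries.coeff p.1 c * PowerSeries.coeff p.2 (Dt q * X) = 0 := by
        apply Finset.sum_eq_zero
        intro p hp
        rw [Finset.HasAntidiagonal.mem_antidiagonal] at hp
        rw [h2 p.2 (by omega), mul_zero]
      have h4 : ∑ p ∈ Finset.HasAntidiagonal.antidiagonal n,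
          PowerSeries.coeff p.1 q * PowerSeries.coeff p.2 (Dt X)
            = (n : Polynomial ℂ) * PowerSeries.coeff n X := by
        rw [Finset.sum_eq_single (0, n)]
        · rw [hq, coeff_Dt, one_mul]
        · intro p hp hne
          rw [Finset.HasAntidiagonal.mem_antidiagonal] at hp
          have hlt : p.2 < n := by
            rcases Nat.lt_or_ge p.2 n with h5 | h5
            · exact h5
            · exfalso
              apply hne
              have h6 : p.1 = 0 := by omega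
              have h7 : p.2 = n := by omega
              exact Prod.ext h6 h7
          rw [coeff_Dt, ih p.2 hlt, mul_zero, mul_zero]
        · intro hn
          exfalso
          apply hn
          rw [Finset.HasAntidiagonal.mem_antidiagonal]
          exact zero_add n
      rw [h3, h4] at h1
      have h5 : (n : Polynomial ℂ) ≠ 0 := by
        exact_mod_cast hpos.ne'
      exact (mul_eq_zero.mp h1).resolve_left h5

theorem La_C_mul (c : ℂ) (f : PowerSeries (Polynomial ℂ)) :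
    La (PowerSeries.C (Polynomial.C c) * f) = PowerSeries.C (Polynomial.C c) * La f := by
  unfold La
  rw [Th_C_mul, Dt_C_mul]
  ring

section

variable {β H : ℂ → ℂ} {Φ : ℂ → ℂ → ℂ}

theorem th_ode (hE : Ext β) (hΦ : LogPhi β H Φ) (s : ℂ) :
    Th (Pa (fun m l => diagc (EE Φ s) m l)) * Pa (qa β)
      = PowerSeries.C (Polynomial.C s) * (Pa (fun m l => diagc (EE Φ s) m l) * Th (Pa (qa β))) := by
  have hode := poly_ode hE hΦ s
  have hq : PowerSeries.coeff 0 (Pa (qa β)) = 1 := by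
    rw [Pa, PowerSeries.coeff_mk]
    simp [qa]
  have hT0 : ∀ a : ℕ → ℕ → ℂ, PowerSeries.coeff 0 (Th (Pa a)) = 0 := by
    intro a
    rw [Th_Pa, Pa, PowerSeries.coeff_mk]
    simp
  have ht1 := congrArg Th hode
  rw [Th_mul, Th_C_mul, Th_mul, ← Dt_Th, ← Dt_Th] at ht1
  rw [← sub_eq_zero]
  apply ode_zero (q := Pa (qa β)) (c := 1 + PowerSeries.C (Polynomial.C s)) hq
  · rw [map_sub, PowerSeries.coeff_mul, PowerSeries.coeff_C_mul, PowerSeries.coeff_mul]
    simp [hT0]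
  · rw [Dt_sub, Dt_C_mul, Dt_mul, Dt_mul]
    linear_combination Pa (qa β) * ht1
      - (1 + PowerSeries.C (Polynomial.C s)) * Th (Pa (qa β)) * hode

theorem la_ode (hE : Ext β) (hΦ : LogPhi β H Φ) (s : ℂ) :
    La (Pa (fun m l => diagc (EE Φ s) m l)) * Pa (qa β)
      = PowerSeries.C (Polynomial.C s) * (Pa (fun m l => diagc (EE Φ s) m l) * La (Pa (qa β))) := by
  have h1 := poly_ode hE hΦ s
  have h2 := th_ode hE hΦ s
  unfold La
  linear_combination h2 - PowerSeries.C (Polynomial.C (1 / 2 : ℂ)) * h1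

private theorem half_refl (m l : ℕ) (hl : l ≤ m) :
    (((m - l : ℕ) : ℂ) - m / 2) = -((l : ℂ) - m / 2) := by
  rw [Nat.cast_sub hl]
  ring

private theorem odd1 {a : ℕ → ℕ → ℂ} (ha : ∀ m, ∀ l ≤ m, a m l = a m (m - l)) :
    Ev (La (Pa a)) = 0 := by
  rw [La_Pa]
  exact ev_odd ha (fun m l hl => half_refl m l hl)

private theorem odd3 {a : ℕ → ℕ → ℂ} (ha : ∀ m, ∀ l ≤ m, a m l = a m (m - l)) :
    Ev (La (La (La (Pa a)))) = 0 := by
  rw [La_Pa, La_Pa, La_Pa]
  have h := ev_odd (c := fun m l => ((l : ℂ) - m / 2) ^ 3) ha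
    (fun m l hl => by simp only [half_refl m l hl]; ring)
  rw [← h]
  congr 1
  congr 1
  funext m l
  ring

/-- the two identities at the diagonal, `q0 e2 = s e0 q2` and
`q0 e4 = s (q4 e0 + 3 q2 e2) - 3 e2 q2` -/
theorem momentsS (hE : Ext β) (hΦ : LogPhi β H Φ) (s : ℂ) :
    Ev (La (La (Pa (fun m l => diagc (EE Φ s) m l)))) * Ev (Pa (qa β))
      = PowerSeries.C s * (Ev (Pa (fun m l => diagc (EE Φ s) m l)) * Ev (La (La (Pa (qa β))))) ∧
    Ev (La (La (La (La (Pa (fun m l => diagc (EE Φ s) m l)))))) * Ev (Pa (qa β))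
      = PowerSeries.C s * (Ev (Pa (fun m l => diagc (EE Φ s) m l))
            * Ev (La (La (La (La (Pa (qa β))))))
          + 3 * (Ev (La (La (Pa (fun m l => diagc (EE Φ s) m l)))) * Ev (La (La (Pa (qa β))))))
        - 3 * (Ev (La (La (Pa (fun m l => diagc (EE Φ s) m l)))) * Ev (La (La (Pa (qa β))))) := by
  have h1 := la_ode hE hΦ s
  have hsE := fun m => EE_symm hΦ s m
  have hsQ := fun m => qa_symm β m
  have oE1 : Ev (La (Pa (fun m l => diagc (EE Φ s) m l))) = 0 := odd1 hsE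
  have oE3 : Ev (La (La (La (Pa (fun m l => diagc (EE Φ s) m l))))) = 0 := odd3 hsE
  have oQ1 : Ev (La (Pa (qa β))) = 0 := odd1 hsQ
  have oQ3 : Ev (La (La (La (Pa (qa β))))) = 0 := odd3 hsQ
  generalize Pa (fun m l => diagc (EE Φ s) m l) = E at *
  generalize Pa (qa β) = Q at *
  have h2 := congrArg La h1
  rw [La_mul, La_C_mul, La_mul] at h2
  have h3 := congrArg La h2
  rw [La_add, La_mul, La_mul, La_C_mul, La_add, La_mul, La_mul] at h3
  have h4 := congrArg La h3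
  rw [La_add, La_add, La_add, La_C_mul, La_add, La_add, La_add] at h4
  simp only [La_mul] at h4
  have hmul : ∀ a b, Ev (a * b) = Ev a * Ev b := fun a b => map_mul _ a b
  have hadd : ∀ a b, Ev (a + b) = Ev a + Ev b := fun a b => map_add _ a b
  have hC : Ev (PowerSeries.C (Polynomial.C s)) = PowerSeries.C s := by
    rw [Ev, PowerSeries.map_C, Polynomial.coe_evalRingHom, Polynomial.eval_C]
  have g2 := congrArg Ev h2
  have g4 := congrArg Ev h4
  simp only [hmul, hadd, hC, oE1, oE3, oQ1, oQ3] at g2 g4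
  constructor
  · linear_combination g2
  · linear_combination g4

end

theorem ev_ES {β H : ℂ → ℂ} {Φ : ℂ → ℂ → ℂ} (hΦ : LogPhi β H Φ) (s : ℂ) :
    Ev (Pa (fun m l => diagc (EE Φ s) m l)) = psf (fun z => Complex.exp (s * H z)) := by
  ext n
  rw [Ev_Pa, coeff_psf]
  exact EE_diag hΦ s n

private theorem half_sum (d : ℕ → ℂ) (m : ℕ) :
    ∑ l ∈ Finset.range (m + 1), d l * ((l : ℂ) - m / 2) ^ 2
      = ∑ l ∈ Finset.range (m + 1), ((l : ℂ) - m / 2) * (((l : ℂ) - m / 2) * d l) := by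
  apply Finset.sum_congr rfl
  intro l _
  ring

private theorem half_sum4 (d : ℕ → ℂ) (m : ℕ) :
    ∑ l ∈ Finset.range (m + 1), d l * ((l : ℂ) - m / 2) ^ 4
      = ∑ l ∈ Finset.range (m + 1), ((l : ℂ) - m / 2) * (((l : ℂ) - m / 2)
        * (((l : ℂ) - m / 2) * (((l : ℂ) - m / 2) * d l))) := by
  apply Finset.sum_congr rfl
  intro l _
  ring

/-! functions on the disc -/

private theorem dsub {f g : ℂ → ℂ} (hf : DifferentiableOn ℂ f (ball 0 1))
    (hg : DifferentiableOn ℂ g (ball 0 1)) : DifferentiableOn ℂ (fun z => f z - g z) (ball 0 1) :=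
  hf.sub hg

private theorem dadd {f g : ℂ → ℂ} (hf : DifferentiableOn ℂ f (ball 0 1))
    (hg : DifferentiableOn ℂ g (ball 0 1)) : DifferentiableOn ℂ (fun z => f z + g z) (ball 0 1) :=
  hf.add hg

private theorem dmul {f g : ℂ → ℂ} (hf : DifferentiableOn ℂ f (ball 0 1))
    (hg : DifferentiableOn ℂ g (ball 0 1)) : DifferentiableOn ℂ (fun z => f z * g z) (ball 0 1) :=
  hf.mul hg

private theorem dcm (c : ℂ) {f : ℂ → ℂ} (hf : DifferentiableOn ℂ f (ball 0 1)) :
    DifferentiableOn ℂ (fun z => c * f z) (ball 0 1) := hf.const_mul c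

private theorem dpow (n : ℕ) {f : ℂ → ℂ} (hf : DifferentiableOn ℂ f (ball 0 1)) :
    DifferentiableOn ℂ (fun z => f z ^ n) (ball 0 1) := hf.fun_pow n

/-- the diagonal of `La La Q` -/
noncomputable def q2f (H : ℂ → ℂ) (z : ℂ) : ℂ :=
  1 / 12 * (XX H 2 z * Complex.exp (H z) - XX H 0 z * Complex.exp (H z))

/-- the diagonal of `La La La La Q` -/
noncomputable def q4f (H : ℂ → ℂ) (z : ℂ) : ℂ :=
  1 / 240 * (3 * (XX H 4 z * Complex.exp (H z)) - (10 * (XX H 2 z * Complex.exp (H z))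
    - 7 * (XX H 0 z * Complex.exp (H z))))

theorem q2f_diff {H : ℂ → ℂ} (hH : DifferentiableOn ℂ H (ball 0 1)) :
    DifferentiableOn ℂ (q2f H) (ball 0 1) := by
  have hX : ∀ n, DifferentiableOn ℂ (fun z => XX H n z * Complex.exp (H z)) (ball 0 1) :=
    fun n => (XX_diff hH n).mul hH.cexp
  exact dcm _ (dsub (hX 2) (hX 0))

theorem q4f_diff {H : ℂ → ℂ} (hH : DifferentiableOn ℂ H (ball 0 1)) :
    DifferentiableOn ℂ (q4f H) (ball 0 1) := by
  have hX : ∀ n, DifferentiableOn ℂ (fun z => XX H n z * Complex.exp (H z)) (ball 0 1) :=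
    fun n => (XX_diff hH n).mul hH.cexp
  exact dcm _ (dsub (dcm _ (hX 4)) (dsub (dcm _ (hX 2)) (dcm _ (hX 0))))

theorem ev_q2f {β H : ℂ → ℂ} {Φ : ℂ → ℂ → ℂ} (hE : Ext β) (hΦ : LogPhi β H Φ)
    (hH : DifferentiableOn ℂ H (ball 0 1)) :
    Ev (La (La (Pa (qa β)))) = psf (q2f H) := by
  have hX : ∀ n, DifferentiableOn ℂ (fun z => XX H n z * Complex.exp (H z)) (ball 0 1) :=
    fun n => (XX_diff hH n).mul hH.cexp
  rw [ev_Q2, Ev_Q hE hΦ, ← psf_X0, ← psf_XX hH, ← psf_XX hH, ← psf_sub (hX 2) (hX 0),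
    ← psf_const_mul]
  rfl

theorem ev_q4f {β H : ℂ → ℂ} {Φ : ℂ → ℂ → ℂ} (hE : Ext β) (hΦ : LogPhi β H Φ)
    (hH : DifferentiableOn ℂ H (ball 0 1)) :
    Ev (La (La (La (La (Pa (qa β)))))) = psf (q4f H) := by
  have hX : ∀ n, DifferentiableOn ℂ (fun z => XX H n z * Complex.exp (H z)) (ball 0 1) :=
    fun n => (XX_diff hH n).mul hH.cexp
  have cst : ∀ k : ℕ, (k : PowerSeries ℂ) = PowerSeries.C (k : ℂ) := by
    intro k
    rw [map_natCast]
  have c3 : (3 : PowerSeries ℂ) = PowerSeries.C (3 : ℂ) := by exact_mod_cast cst 3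
  have c10 : (10 : PowerSeries ℂ) = PowerSeries.C (10 : ℂ) := by exact_mod_cast cst 10
  have c7 : (7 : PowerSeries ℂ) = PowerSeries.C (7 : ℂ) := by exact_mod_cast cst 7
  rw [ev_Q4, Ev_Q hE hΦ, ← psf_X0, ← psf_XX hH, ← psf_XX hH, ← psf_XX hH, ← psf_XX hH]
  have e : psf (q4f H) = psf (fun z => 1 / 240 * (3 * (XX H 4 z * Complex.exp (H z))
        - (10 * (XX H 2 z * Complex.exp (H z)) - 7 * (XX H 0 z * Complex.exp (H z))))) := rfl
  rw [e, psf_const_mul, psf_sub (dcm 3 (hX 4)) (dsub (dcm 10 (hX 2)) (dcm 7 (hX 0))),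
    psf_sub (dcm 10 (hX 2)) (dcm 7 (hX 0)), psf_const_mul, psf_const_mul, psf_const_mul,
    c3, c10, c7]
  ring

theorem XS_one (s : ℂ) (c : ℕ → ℂ) : XS s c 1 = s * (c 0 ^ 2 - c 1) / 2 := rfl

theorem XS_two (s : ℂ) (c : ℕ → ℂ) : XS s c 2 = 3 / 4 * (s ^ 2 - s) * (c 0 ^ 2 - c 1) ^ 2
      + 3 / 2 * s * (-(c 3) + c 1 ^ 2 + 2 * c 0 * c 2 - 3 * c 0 ^ 2 * c 1 + c 0 ^ 4) := rfl

/-- the second moment on the diagonal -/
noncomputable def k2f (s : ℂ) (H : ℂ → ℂ) (z : ℂ) : ℂ :=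
  Complex.exp (s * H z) * (XS s (fun k => gg H k z) 1 + low2S s (fun k => gg H k z))

/-- the fourth moment on the diagonal -/
noncomputable def k4f (s : ℂ) (H : ℂ → ℂ) (z : ℂ) : ℂ :=
  Complex.exp (s * H z) * (XS s (fun k => gg H k z) 2 + low4S s (fun k => gg H k z))

theorem k2f_diff {H : ℂ → ℂ} (hH : DifferentiableOn ℂ H (ball 0 1)) (s : ℂ) :
    DifferentiableOn ℂ (k2f s H) (ball 0 1) := by
  have d0 := gg_diff one_pos hH 0
  have d1 := gg_diff one_pos hH 1
  have dE : DifferentiableOn ℂ (fun z => Complex.exp (s * H z)) (ball 0 1) :=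
    (hH.const_mul s).cexp
  have h := dmul dE (dadd (dcm (s / 2) (dsub (dpow 2 d0) d1)) (dcm (1 / 3 * s) d0))
  refine h.congr fun z _ => ?_
  unfold k2f low2S
  rw [XS_one]
  ring

theorem k4f_diff {H : ℂ → ℂ} (hH : DifferentiableOn ℂ H (ball 0 1)) (s : ℂ) :
    DifferentiableOn ℂ (k4f s H) (ball 0 1) := by
  have d0 := gg_diff one_pos hH 0
  have d1 := gg_diff one_pos hH 1
  have d2 := gg_diff one_pos hH 2
  have d3 := gg_diff one_pos hH 3
  have dE : DifferentiableOn ℂ (fun z => Complex.exp (s * H z)) (ball 0 1) :=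
    (hH.const_mul s).cexp
  unfold k4f low4S
  simp only [XS_two]
  fun_prop

private theorem q0_ne {β H : ℂ → ℂ} {Φ : ℂ → ℂ → ℂ} (hE : Ext β) (hΦ : LogPhi β H Φ) :
    psf (fun z => Complex.exp (1 * H z)) ≠ 0 := by
  intro h
  rw [← Ev_Q hE hΦ] at h
  have h1 := congrArg (PowerSeries.coeff 0) h
  rw [Ev_Pa, map_zero] at h1
  simp [qa] at h1

theorem ev_k2f {β H : ℂ → ℂ} {Φ : ℂ → ℂ → ℂ} (hE : Ext β) (hΦ : LogPhi β H Φ)
    (hH : DifferentiableOn ℂ H (ball 0 1)) (s : ℂ) :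
    Ev (La (La (Pa (fun m l => diagc (EE Φ s) m l)))) = psf (k2f s H) := by
  have h1 := (momentsS hE hΦ s).1
  have dE : DifferentiableOn ℂ (fun z => Complex.exp (s * H z)) (ball 0 1) :=
    (hH.const_mul s).cexp
  have d1 : DifferentiableOn ℂ (fun z => Complex.exp (1 * H z)) (ball 0 1) :=
    (hH.const_mul 1).cexp
  rw [ev_q2f hE hΦ hH, ev_ES hΦ, Ev_Q hE hΦ, ← psf_mul dE (q2f_diff hH), ← psf_const_mul] at h1
  apply mul_right_cancel₀ (q0_ne hE hΦ)
  rw [h1, ← psf_mul (k2f_diff hH s) d1]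
  apply psf_congr
  intro z hz
  have e3 : XX H 0 z = 1 := rfl
  unfold q2f k2f low2S
  rw [XS_one, e3, XX_two one_pos hH hz, one_mul (H z)]
  ring

theorem ev_k4f {β H : ℂ → ℂ} {Φ : ℂ → ℂ → ℂ} (hE : Ext β) (hΦ : LogPhi β H Φ)
    (hH : DifferentiableOn ℂ H (ball 0 1)) (s : ℂ) :
    Ev (La (La (La (La (Pa (fun m l => diagc (EE Φ s) m l)))))) = psf (k4f s H) := by
  have h1 := (momentsS hE hΦ s).2
  have dE : DifferentiableOn ℂ (fun z => Complex.exp (s * H z)) (ball 0 1) :=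
    (hH.const_mul s).cexp
  have d1 : DifferentiableOn ℂ (fun z => Complex.exp (1 * H z)) (ball 0 1) :=
    (hH.const_mul 1).cexp
  have dk := k2f_diff hH s
  have dq := q2f_diff hH
  have dq4 := q4f_diff hH
  have c3 : (3 : PowerSeries ℂ) = PowerSeries.C (3 : ℂ) := (map_ofNat PowerSeries.C 3).symm
  have f1 : psf (fun z => Complex.exp (s * H z)) * psf (q4f H)
        + PowerSeries.C 3 * (psf (k2f s H) * psf (q2f H))
      = psf (fun z => Complex.exp (s * H z) * q4f H z - (-3) * (k2f s H z * q2f H z)) := by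
    rw [psf_sub (dmul dE dq4) (dcm (-3) (dmul dk dq)), psf_mul dE dq4, psf_const_mul,
      psf_mul dk dq, map_neg]
    ring
  have f2 : PowerSeries.C s * psf (fun z => Complex.exp (s * H z) * q4f H z
          - (-3) * (k2f s H z * q2f H z)) - PowerSeries.C 3 * (psf (k2f s H) * psf (q2f H))
      = psf (fun z => s * (Complex.exp (s * H z) * q4f H z - (-3) * (k2f s H z * q2f H z))
          - 3 * (k2f s H z * q2f H z)) := by
    rw [psf_sub (dcm s (dsub (dmul dE dq4) (dcm (-3) (dmul dk dq)))) (dcm 3 (dmul dk dq)),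
      psf_const_mul, psf_const_mul, psf_mul dk dq]
  rw [ev_q2f hE hΦ hH, ev_q4f hE hΦ hH, ev_ES hΦ, Ev_Q hE hΦ, ev_k2f hE hΦ hH, c3, f1, f2] at h1
  apply mul_right_cancel₀ (q0_ne hE hΦ)
  rw [h1, ← psf_mul (k4f_diff hH s) d1]
  apply psf_congr
  intro z hz
  have e3 : XX H 0 z = 1 := rfl
  unfold q2f q4f k2f k4f low2S low4S
  rw [XS_one, XS_two, e3, XX_two one_pos hH hz, XX_four one_pos hH hz, one_mul (H z)]
  ring

theorem jetS2 {ρ : ℝ} {β H : ℂ → ℂ} {Φ : ℂ → ℂ → ℂ} (h : Data ρ β H Φ) (s : ℂ) (m : ℕ) :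
    ∑ l ∈ Finset.range (m + 1), diagc (EE Φ s) m l * ((l : ℂ) - m / 2) ^ 2
      = coeff (fun z => Complex.exp (s * H z)
        * (XS s (fun k => gg H k z) 1 + low2S s (fun k => gg H k z))) m := by
  have h1 := congrArg (PowerSeries.coeff m) (ev_k2f h.ext h.logPhi h.diff1 s)
  rw [La_Pa, La_Pa, Ev_Pa, ← half_sum, coeff_psf] at h1
  exact h1

theorem jetS4 {ρ : ℝ} {β H : ℂ → ℂ} {Φ : ℂ → ℂ → ℂ} (h : Data ρ β H Φ) (s : ℂ) (m : ℕ) :
    ∑ l ∈ Finset.range (m + 1), diagc (EE Φ s) m l * ((l : ℂ) - m / 2) ^ 4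
      = coeff (fun z => Complex.exp (s * H z)
        * (XS s (fun k => gg H k z) 2 + low4S s (fun k => gg H k z))) m := by
  have h1 := congrArg (PowerSeries.coeff m) (ev_k4f h.ext h.logPhi h.diff1 s)
  rw [La_Pa, La_Pa, La_Pa, La_Pa, Ev_Pa, ← half_sum4, coeff_psf] at h1
  exact h1

end Pool.Agent.Helper24.HR2
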