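import Mathlib
import Pool.Agent.Helper24.HR2.Defs

/-!
MP_16b0ee, project HR2, section R5, first half: the constant `KS`, the lower form in the variables
`UD`, and the Gram matrix of the test functions.
-/

set_option autoImplicit false

open MeasureTheory Set Metric Filter Topology
open scoped Real ComplexConjugate

namespace Pool.Agent.Helper24.HR2

open Pool.Agent.Helper22.Half

theorem kap_exp_bound {r ρ : ℝ} (hr : -1 < r) (hρ : 0 ≤ ρ) (n : ℕ) :
    kap r ρ (n + 1) ≤ kap r ρ 1 * Real.exp (ρ * (1 - 1 / ((n : ℝ) + 1))) := by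
  induction n with
  | zero => simp
  | succ n ih =>
    have hn : (0 : ℝ) ≤ n := Nat.cast_nonneg n
    have h1 : 1 + ρ / ((((n + 1 : ℕ) : ℝ) + 2) * (((n + 1 : ℕ) : ℝ) + 2 + 2 * r))
        ≤ Real.exp (ρ / (((n : ℝ) + 2) * ((n : ℝ) + 1))) := by
      have h2 : ρ / ((((n + 1 : ℕ) : ℝ) + 2) * (((n + 1 : ℕ) : ℝ) + 2 + 2 * r))
          ≤ ρ / (((n : ℝ) + 2) * ((n : ℝ) + 1)) := by
        apply div_le_div_of_nonneg_left hρ (by positivity)
        push_cast
        apply mul_le_mul <;> linarith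
      have h3 := Real.add_one_le_exp (ρ / (((n : ℝ) + 2) * ((n : ℝ) + 1)))
      linarith
    have h4 : Real.exp (ρ * (1 - 1 / (((n + 1 : ℕ) : ℝ) + 1)))
        = Real.exp (ρ * (1 - 1 / ((n : ℝ) + 1))) * Real.exp (ρ / (((n : ℝ) + 2) * ((n : ℝ) + 1))) := by
      rw [← Real.exp_add]
      congr 1
      push_cast
      field_simp
      ring
    have h5 : 0 ≤ kap r ρ 1 := zero_le_one.trans (kap_ge_one hr hρ 1)
    have h6 : 0 ≤ 1 + ρ / ((((n + 1 : ℕ) : ℝ) + 2) * (((n + 1 : ℕ) : ℝ) + 2 + 2 * r)) := by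
      have : 0 ≤ ((n + 1 : ℕ) : ℝ) + 2 + 2 * r := by push_cast; linarith
      positivity
    rw [kap_succ, h4, ← mul_assoc]
    exact mul_le_mul ih h1 h6 (mul_nonneg h5 (Real.exp_pos _).le)

theorem kap_bddAbove {r ρ : ℝ} (hr : -1 < r) (hρ : 0 ≤ ρ) :
    BddAbove (Set.range fun n => kap r ρ n) := by
  have h5 : 0 ≤ kap r ρ 1 := zero_le_one.trans (kap_ge_one hr hρ 1)
  refine ⟨kap r ρ 1 * Real.exp ρ, ?_⟩
  rintro _ ⟨n, rfl⟩
  refine (kap_mono hr hρ (Nat.le_succ n)).trans ((kap_exp_bound hr hρ n).trans ?_)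
  apply mul_le_mul_of_nonneg_left _ h5
  apply Real.exp_le_exp.mpr
  have : 0 ≤ 1 / ((n : ℝ) + 1) := by positivity
  nlinarith

theorem neg_one_lt_re {s : ℂ} (hs : ‖s‖ < 1) : -1 < s.re :=
  (abs_lt.mp ((Complex.abs_re_le_norm s).trans_lt hs)).1

theorem KS_facts {s : ℂ} (hs : ‖s‖ < 1) : 1 ≤ KS s ∧ (∀ n, kap s.re (‖s‖ ^ 2) n ≤ KS s)
    ∧ Tendsto (fun n => kap s.re (‖s‖ ^ 2) n) atTop (𝓝 (KS s)) := by
  have hr := neg_one_lt_re hs
  have hb := kap_bddAbove hr (sq_nonneg ‖s‖)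
  have h1 : ∀ n, kap s.re (‖s‖ ^ 2) n ≤ KS s := fun n => le_ciSup hb n
  refine ⟨(kap_ge_one hr (sq_nonneg ‖s‖) 0).trans (h1 0), h1, ?_⟩
  exact tendsto_atTop_ciSup (fun a b hab => kap_mono hr (sq_nonneg ‖s‖) hab) hb

theorem one_add_ne_zero_of {s : ℂ} (hs : ‖s‖ < 1) : 1 + s ≠ 0 := by
  intro h
  have h2 : s = -1 := by linear_combination h
  rw [h2, norm_neg, norm_one] at hs
  exact lt_irrefl _ hs

/-- the norm of the coefficients of `(1-x)^(-s-2)` -/
theorem norm_pq_two {s : ℂ} (hs : ‖s‖ < 1) (n : ℕ) :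
    ‖pq (s + 2) n‖ ^ 2 = ((n : ℝ) + 1) * (kap s.re (‖s‖ ^ 2) n * pq (2 + 2 * s.re) n) := by
  have h1 := norm_Q s (neg_one_lt_re hs) n
  have h2 := pq_shift (1 + s) n
  have e : 1 + s + 1 = s + 2 := by ring
  rw [e] at h2
  have h3 : ((n : ℝ) + 1) ^ 2 * ‖pq (1 + s) (n + 1)‖ ^ 2 = ‖1 + s‖ ^ 2 * ‖pq (s + 2) n‖ ^ 2 := by
    have h4 : ‖((n : ℂ) + 1)‖ = (n : ℝ) + 1 := by
      have : ((n : ℂ) + 1) = (((n : ℝ) + 1 : ℝ) : ℂ) := by push_cast; ring
      rw [this, Complex.norm_real, Real.norm_of_nonneg (by positivity)]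
    rw [← h4, ← mul_pow, ← norm_mul, h2, norm_mul, mul_pow]
  have h5 : ‖1 + s‖ ^ 2 ≠ 0 := pow_ne_zero 2 (norm_ne_zero_iff.mpr (one_add_ne_zero_of hs))
  apply mul_left_cancel₀ h5
  rw [← h3]
  linear_combination ((n : ℝ) + 1) * h1

theorem Pf_eq {s : ℂ} (hs : ‖s‖ < 1) {b : ℝ} (hσ : 0 < b + 1 - 2 * s.re) (d : ℕ → ℂ) (m : ℕ) :
    Pf s b d m = ∑ i ∈ Finset.range m, ‖UD s d m i‖ ^ 2 / aD s b m i := by
  unfold Pf
  apply Finset.sum_congr rfl
  intro i hi
  rw [Finset.mem_range] at hi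
  have hr := neg_one_lt_re hs
  have p1 := (pq_pos hσ i).ne'
  have p2 := (pq_pos (by linarith : 0 < 2 + 2 * s.re) (m - 1 - i)).ne'
  have p3 := (zero_lt_one.trans_le (kap_ge_one hr (sq_nonneg ‖s‖) (m - 1 - i))).ne'
  have e : ((m - i : ℕ) : ℝ) = ((m - 1 - i : ℕ) : ℝ) + 1 := by
    have : m - i = (m - 1 - i) + 1 := by omega
    rw [this]
    push_cast
    ring
  unfold UD aD
  rw [norm_mul, mul_pow, norm_pq_two hs, e]
  generalize kap s.re (‖s‖ ^ 2) (m - 1 - i) = k0 at *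
  generalize pq (2 + 2 * s.re) (m - 1 - i) = q0 at *
  field_simp

/-! the Gram matrix -/

/-- products of nearly equal factors -/
theorem prod_close {B ε : ℝ} (hB : 1 ≤ B) (hε : 0 ≤ ε) {t : ℂ} (ht : ‖t‖ ≤ 1) (n : ℕ) (x : ℕ → ℂ)
    (hx : ∀ j < n, ‖x j‖ ≤ B) (hxt : ∀ j < n, ‖x j - t‖ ≤ ε) :
    ‖∏ j ∈ Finset.range n, x j - t ^ n‖ ≤ n * B ^ n * ε := by
  induction n with
  | zero => simp
  | succ n ih =>
    have h1 := ih (fun j hj => hx j (by omega)) fun j hj => hxt j (by omega)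
    rw [Finset.prod_range_succ, pow_succ]
    have e : (∏ j ∈ Finset.range n, x j) * x n - t ^ n * t
        = (∏ j ∈ Finset.range n, x j - t ^ n) * x n + t ^ n * (x n - t) := by ring
    rw [e]
    have h2 : ‖t ^ n‖ ≤ 1 := by
      rw [norm_pow]
      exact pow_le_one₀ (norm_nonneg _) ht
    have h3 : 1 ≤ B ^ (n + 1) := one_le_pow₀ hB
    calc ‖(∏ j ∈ Finset.range n, x j - t ^ n) * x n + t ^ n * (x n - t)‖
        ≤ ‖∏ j ∈ Finset.range n, x j - t ^ n‖ * ‖x n‖ + ‖t ^ n‖ * ‖x n - t‖ := by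
          refine (norm_add_le _ _).trans ?_
          rw [norm_mul, norm_mul]
      _ ≤ (n * B ^ n * ε) * B + 1 * ε := by
          apply add_le_add
          · exact mul_le_mul h1 (hx n (by omega)) (norm_nonneg _) (by positivity)
          · exact mul_le_mul h2 (hxt n (by omega)) (norm_nonneg _) zero_le_one
      _ ≤ ((n + 1 : ℕ) : ℝ) * B ^ (n + 1) * ε := by
          push_cast
          have : ε ≤ B ^ (n + 1) * ε := le_mul_of_one_le_left hε h3
          have e2 : ((n : ℝ) + 1) * B ^ (n + 1) * ε = n * B ^ n * ε * B + B ^ (n + 1) * ε := by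
            rw [pow_succ]
            ring
          rw [e2]
          linarith

/-- products of factors `(x + c_j) / m` with `0 ≤ x ≤ m` -/
theorem prod_close' {A : ℝ} (hA : 0 ≤ A) {m : ℕ} (hm : 1 ≤ m) {x : ℝ} (hx0 : 0 ≤ x)
    (hxm : x ≤ m) (n : ℕ) (c : ℕ → ℂ) (hc : ∀ j < n, ‖c j‖ ≤ A) :
    ‖(∏ j ∈ Finset.range n, ((x : ℂ) + c j)) / (m : ℂ) ^ n - ((x / m : ℝ) : ℂ) ^ n‖
      ≤ n * (A + 1) ^ (n + 1) / m := by
  have hm0 : (0 : ℝ) < m := by exact_mod_cast (by omega : 0 < m)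
  have hm1 : (1 : ℝ) ≤ m := by exact_mod_cast hm
  have hmc : (m : ℂ) ≠ 0 := by exact_mod_cast hm0.ne'
  have ht : ‖((x / m : ℝ) : ℂ)‖ ≤ 1 := by
    rw [Complex.norm_real, Real.norm_of_nonneg (by positivity), div_le_one hm0]
    exact hxm
  have h1 : ∀ j < n, ‖((x : ℂ) + c j) / m - ((x / m : ℝ) : ℂ)‖ ≤ (A + 1) / m := by
    intro j hj
    have e : ((x : ℂ) + c j) / m - ((x / m : ℝ) : ℂ) = c j / m := by
      push_cast
      field_simp
      ring
    rw [e, norm_div, Complex.norm_natCast]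
    apply div_le_div_of_nonneg_right _ hm0.le
    have := hc j hj
    linarith
  have h2 : ∀ j < n, ‖((x : ℂ) + c j) / m‖ ≤ A + 1 := by
    intro j hj
    rw [norm_div, Complex.norm_natCast, div_le_iff₀ hm0]
    have h3 : ‖(x : ℂ) + c j‖ ≤ x + A := by
      refine (norm_add_le _ _).trans ?_
      rw [Complex.norm_real, Real.norm_of_nonneg hx0]
      have := hc j hj
      linarith
    nlinarith
  have h4 := prod_close (by linarith : 1 ≤ A + 1) (by positivity : 0 ≤ (A + 1) / m) ht n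
    (fun j => ((x : ℂ) + c j) / m) h2 h1
  rw [Finset.prod_div_distrib, Finset.prod_const, Finset.card_range] at h4
  refine h4.trans (le_of_eq ?_)
  rw [pow_succ]
  ring

/-- weighted means of nearly equal functions -/
theorem mean_close {m : ℕ} (w : ℕ → ℝ) (hw : ∀ i < m, 0 ≤ w i) {S : ℝ} (hS : 0 < S)
    (hwS : ∑ i ∈ Finset.range m, w i = S) (f g : ℕ → ℂ) {δ : ℝ}
    (hfg : ∀ i < m, ‖f i - g i‖ ≤ δ) :
    ‖(∑ i ∈ Finset.range m, (w i : ℂ) * f i) / (S : ℂ)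
      - (∑ i ∈ Finset.range m, (w i : ℂ) * g i) / (S : ℂ)‖ ≤ δ := by
  rw [← sub_div, ← Finset.sum_sub_distrib, norm_div, Complex.norm_real,
    Real.norm_of_nonneg hS.le, div_le_iff₀ hS]
  calc ‖∑ i ∈ Finset.range m, ((w i : ℂ) * f i - (w i : ℂ) * g i)‖
      ≤ ∑ i ∈ Finset.range m, ‖(w i : ℂ) * f i - (w i : ℂ) * g i‖ := norm_sum_le _ _
    _ ≤ ∑ i ∈ Finset.range m, w i * δ := by
        apply Finset.sum_le_sum
        intro i hi
        rw [Finset.mem_range] at hi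
        rw [← mul_sub, norm_mul, Complex.norm_real, Real.norm_of_nonneg (hw i hi)]
        exact mul_le_mul_of_nonneg_left (hfg i hi) (hw i hi)
    _ = δ * S := by rw [← Finset.sum_mul, hwS, mul_comm]

/-- iterated shift of the parameter -/
theorem pq_rise (z : ℝ) (M n : ℕ) :
    pq z n * ∏ j ∈ Finset.range M, (z + n + j) = (∏ j ∈ Finset.range M, (z + j)) * pq (z + M) n := by
  induction M with
  | zero => simp
  | succ M ih =>
    rw [Finset.prod_range_succ, Finset.prod_range_succ, ← mul_assoc, ih]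
    have h := pq_add_one (z + M) n
    have e : z + ((M + 1 : ℕ) : ℝ) = z + M + 1 := by push_cast; ring
    rw [e]
    linear_combination -(∏ j ∈ Finset.range M, (z + (j : ℝ))) * h

/-- the rising moments of the weights -/
theorem sum_rise (z σ : ℝ) (M : ℕ) {m : ℕ} (hm : 1 ≤ m) :
    ∑ i ∈ Finset.range m, (pq z (m - 1 - i) * pq σ i)
        * ∏ j ∈ Finset.range M, (z + ((m - 1 - i : ℕ) : ℝ) + j)
      = (∏ j ∈ Finset.range M, (z + j)) * pq (z + σ + M) (m - 1) := by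
  have h := vander σ (z + M) (m - 1)
  have e : m - 1 + 1 = m := by omega
  have e2 : σ + (z + M) = z + σ + M := by ring
  rw [e, e2] at h
  rw [← h, Finset.mul_sum]
  apply Finset.sum_congr rfl
  intro i _
  have h2 := pq_rise z M (m - 1 - i)
  linear_combination (pq σ i) * h2

theorem gram_eq (N : ℕ) : ∃ C : ℝ, 0 ≤ C ∧ ∀ s : ℂ, ‖s‖ ≤ 7 / 10 → ∀ b : ℝ, 0 < b → b ≤ 1 →
    0 < b + 1 - 2 * s.re → ∀ m : ℕ, 1 ≤ m → ∀ n < N, ∀ k < N,
      ‖(∑ i ∈ Finset.range m, ((pq (2 + 2 * s.re) (m - 1 - i) * pq (b + 1 - 2 * s.re) i : ℝ) : ℂ)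
          * (XD s m n i * conj (XD s m k i))) / (pq (b + 3) (m - 1) : ℝ) - (Gm s b (n + k) : ℂ)‖
        ≤ C / m := by
  obtain ⟨A, hA⟩ : ∃ A : ℝ, A = 2 * N + 5 := ⟨_, rfl⟩
  have hA0 : 0 ≤ A := by rw [hA]; positivity
  obtain ⟨C1, hC1⟩ : ∃ C1 : ℝ, C1 = (2 * N) * (A + 1) ^ (2 * N + 1) := ⟨_, rfl⟩
  have hC10 : 0 ≤ C1 := by rw [hC1]; positivity
  have hN0 : (0 : ℝ) ≤ N := Nat.cast_nonneg N
  -- the basic comparison
  have key : ∀ m : ℕ, 1 ≤ m → ∀ x : ℝ, 0 ≤ x → x ≤ m → ∀ n ≤ 2 * N, ∀ c : ℕ → ℂ,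
      (∀ j < n, ‖c j‖ ≤ A) →
      ‖(∏ j ∈ Finset.range n, ((x : ℂ) + c j)) / (m : ℂ) ^ n - ((x / m : ℝ) : ℂ) ^ n‖
        ≤ C1 / m := by
    intro m hm x hx0 hxm n hn c hc
    refine (prod_close' hA0 hm hx0 hxm n c hc).trans ?_
    apply div_le_div_of_nonneg_right _ (Nat.cast_nonneg m)
    rw [hC1]
    apply mul_le_mul
    · exact_mod_cast hn
    · exact pow_le_pow_right₀ (by linarith) (by omega)
    · positivity
    · positivity
  refine ⟨C1 * (C1 + 1) + C1 + C1 + C1, by positivity, ?_⟩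
  intro s hs b hb hb1 hσ m hm n hn k hk
  have hs1 : ‖s‖ < 1 := by linarith
  have hr := neg_one_lt_re hs1
  have hre := abs_le.mp ((Complex.abs_re_le_norm s).trans hs)
  have hm0 : (0 : ℝ) < m := by exact_mod_cast (by omega : 0 < m)
  have hm1 : (1 : ℝ) ≤ m := by exact_mod_cast hm
  have hmc : (m : ℂ) ≠ 0 := by exact_mod_cast hm0.ne'
  have hS : 0 < pq (b + 3) (m - 1) := pq_pos (by linarith) _
  have hz : 0 < 2 + 2 * s.re := by linarith
  have hzσ : 2 + 2 * s.re + (b + 1 - 2 * s.re) = b + 3 := by ring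
  have hw : ∀ i < m, 0 ≤ pq (2 + 2 * s.re) (m - 1 - i) * pq (b + 1 - 2 * s.re) i := fun i _ =>
    (mul_pos (pq_pos hz _) (pq_pos hσ _)).le
  have hwS : ∑ i ∈ Finset.range m, pq (2 + 2 * s.re) (m - 1 - i) * pq (b + 1 - 2 * s.re) i
      = pq (b + 3) (m - 1) := by
    have h := sum_rise (2 + 2 * s.re) (b + 1 - 2 * s.re) 0 hm
    simpa [hzσ] using h
  -- the argument of the factors
  have hx : ∀ i < m, ((m - 1 - i : ℕ) : ℝ) ≤ m := by
    intro i _
    exact_mod_cast (by omega : m - 1 - i ≤ m)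
  -- the functions XD
  have hXD : ∀ p < N, ∀ i < m, ‖XD s m p i - ((((m - 1 - i : ℕ) : ℝ) / m : ℝ) : ℂ) ^ p‖
      ≤ C1 / m := by
    intro p hp i hi
    have h := key m hm ((m - 1 - i : ℕ) : ℝ) (Nat.cast_nonneg _) (hx i hi) p (by omega)
      (fun j => s + 2 + j) (fun j hj => by
        have h1 : ‖s + 2 + (j : ℂ)‖ ≤ ‖s‖ + 2 + j := by
          refine (norm_add_le _ _).trans ?_
          rw [Complex.norm_natCast]
          have h2 := norm_add_le s 2
          rw [Complex.norm_two] at h2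
          linarith
        have h3 : (j : ℝ) ≤ N := by exact_mod_cast (by omega : j ≤ N)
        rw [hA]
        linarith)
    have e : XD s m p i = (∏ j ∈ Finset.range p,
        ((((m - 1 - i : ℕ) : ℝ) : ℂ) + (s + 2 + (j : ℂ)))) / (m : ℂ) ^ p := by
      unfold XD
      congr 1
      apply Finset.prod_congr rfl
      intro j _
      have : m - i = (m - 1 - i) + 1 := by omega
      rw [this]
      push_cast
      ring
    rw [e]
    exact h
  have ht : ∀ i < m, ∀ p : ℕ, ‖((((m - 1 - i : ℕ) : ℝ) / m : ℝ) : ℂ) ^ p‖ ≤ 1 := by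
    intro i hi p
    rw [norm_pow]
    apply pow_le_one₀ (norm_nonneg _)
    rw [Complex.norm_real, Real.norm_of_nonneg (by positivity), div_le_one hm0]
    exact hx i hi
  -- the rising products
  have hR : ∀ i < m, ‖(((∏ j ∈ Finset.range (n + k), (2 + 2 * s.re + ((m - 1 - i : ℕ) : ℝ) + j))
        / (m : ℝ) ^ (n + k) : ℝ) : ℂ) - ((((m - 1 - i : ℕ) : ℝ) / m : ℝ) : ℂ) ^ (n + k)‖
      ≤ C1 / m := by
    intro i hi
    have h := key m hm ((m - 1 - i : ℕ) : ℝ) (Nat.cast_nonneg _) (hx i hi) (n + k) (by omega)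
      (fun j => ((2 + 2 * s.re + j : ℝ) : ℂ)) (fun j hj => by
        have h3 : (j : ℝ) ≤ 2 * N := by exact_mod_cast (by omega : j ≤ 2 * N)
        have h4 : (0 : ℝ) ≤ j := Nat.cast_nonneg j
        rw [Complex.norm_real, Real.norm_of_nonneg (by linarith), hA]
        linarith [hre.2])
    have e : (((∏ j ∈ Finset.range (n + k), (2 + 2 * s.re + ((m - 1 - i : ℕ) : ℝ) + j))
        / (m : ℝ) ^ (n + k) : ℝ) : ℂ) = (∏ j ∈ Finset.range (n + k),
        ((((m - 1 - i : ℕ) : ℝ) : ℂ) + ((2 + 2 * s.re + j : ℝ) : ℂ))) / (m : ℂ) ^ (n + k) := by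
      push_cast
      congr 1
      apply Finset.prod_congr rfl
      intro j _
      ring
    rw [e]
    exact h
  -- pointwise comparison
  have hP : ∀ i < m, ‖XD s m n i * conj (XD s m k i)
      - (((∏ j ∈ Finset.range (n + k), (2 + 2 * s.re + ((m - 1 - i : ℕ) : ℝ) + j))
        / (m : ℝ) ^ (n + k) : ℝ) : ℂ)‖ ≤ (C1 * (C1 + 1) + C1 + C1) / m := by
    intro i hi
    obtain ⟨t, htd⟩ : ∃ t : ℂ, t = ((((m - 1 - i : ℕ) : ℝ) / m : ℝ) : ℂ) := ⟨_, rfl⟩
    have h1 := hXD n hn i hi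
    have h2 := hXD k hk i hi
    have h3 := hR i hi
    have h4 := ht i hi n
    have h5 := ht i hi k
    rw [← htd] at h1 h2 h3 h4 h5
    have h6 : conj t = t := by rw [htd, Complex.conj_ofReal]
    have h7 : ‖conj (XD s m k i) - t ^ k‖ ≤ C1 / m := by
      have e : conj (XD s m k i) - t ^ k = conj (XD s m k i - t ^ k) := by
        rw [map_sub, map_pow, h6]
      rw [e, Complex.norm_conj]
      exact h2
    have h8 : ‖conj (XD s m k i)‖ ≤ C1 + 1 := by
      have h9 : C1 / m ≤ C1 := div_le_self hC10 hm1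
      have e : conj (XD s m k i) = (conj (XD s m k i) - t ^ k) + t ^ k := by ring
      rw [e]
      refine (norm_add_le _ _).trans ?_
      linarith
    have e : XD s m n i * conj (XD s m k i)
        - (((∏ j ∈ Finset.range (n + k), (2 + 2 * s.re + ((m - 1 - i : ℕ) : ℝ) + j))
        / (m : ℝ) ^ (n + k) : ℝ) : ℂ)
        = (XD s m n i - t ^ n) * conj (XD s m k i) + t ^ n * (conj (XD s m k i) - t ^ k)
          - ((((∏ j ∈ Finset.range (n + k), (2 + 2 * s.re + ((m - 1 - i : ℕ) : ℝ) + j))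
            / (m : ℝ) ^ (n + k) : ℝ) : ℂ) - t ^ (n + k)) := by
      rw [pow_add]
      ring
    rw [e]
    refine (norm_sub_le _ _).trans ?_
    refine (add_le_add (norm_add_le _ _) h3).trans ?_
    rw [norm_mul, norm_mul]
    have g1 : ‖XD s m n i - t ^ n‖ * ‖conj (XD s m k i)‖ ≤ C1 / m * (C1 + 1) :=
      mul_le_mul h1 h8 (norm_nonneg _) (by positivity)
    have g2 : ‖t ^ n‖ * ‖conj (XD s m k i) - t ^ k‖ ≤ 1 * (C1 / m) :=
      mul_le_mul h4 h7 (norm_nonneg _) zero_le_one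
    have g3 : (C1 * (C1 + 1) + C1 + C1) / m = C1 / m * (C1 + 1) + 1 * (C1 / m) + C1 / m := by ring
    rw [g3]
    linarith
  have h10 := mean_close (fun i => pq (2 + 2 * s.re) (m - 1 - i) * pq (b + 1 - 2 * s.re) i) hw hS
    hwS (fun i => XD s m n i * conj (XD s m k i))
    (fun i => (((∏ j ∈ Finset.range (n + k), (2 + 2 * s.re + ((m - 1 - i : ℕ) : ℝ) + j))
        / (m : ℝ) ^ (n + k) : ℝ) : ℂ)) hP
  -- the exact value
  have hG : (∑ i ∈ Finset.range m,
        ((pq (2 + 2 * s.re) (m - 1 - i) * pq (b + 1 - 2 * s.re) i : ℝ) : ℂ)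
        * (((∏ j ∈ Finset.range (n + k), (2 + 2 * s.re + ((m - 1 - i : ℕ) : ℝ) + j))
        / (m : ℝ) ^ (n + k) : ℝ) : ℂ)) / ((pq (b + 3) (m - 1) : ℝ) : ℂ)
      = ((Gm s b (n + k) * ((∏ j ∈ Finset.range (n + k), ((m : ℝ) + (b + 2 + j)))
        / (m : ℝ) ^ (n + k)) : ℝ) : ℂ) := by
    have g1 : ∑ i ∈ Finset.range m, (pq (2 + 2 * s.re) (m - 1 - i) * pq (b + 1 - 2 * s.re) i)
        * ((∏ j ∈ Finset.range (n + k), (2 + 2 * s.re + ((m - 1 - i : ℕ) : ℝ) + j))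
        / (m : ℝ) ^ (n + k))
        = (∏ j ∈ Finset.range (n + k), (2 + 2 * s.re + j)) * pq (b + 3 + (n + k : ℕ)) (m - 1)
          / (m : ℝ) ^ (n + k) := by
      have g2 := sum_rise (2 + 2 * s.re) (b + 1 - 2 * s.re) (n + k) hm
      rw [hzσ] at g2
      rw [← g2, Finset.sum_div]
      apply Finset.sum_congr rfl
      intro i _
      ring
    have g3 := pq_rise (b + 3) (n + k) (m - 1)
    have g4 : ∏ j ∈ Finset.range (n + k), (b + 3 + ((m - 1 : ℕ) : ℝ) + j)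
        = ∏ j ∈ Finset.range (n + k), ((m : ℝ) + (b + 2 + j)) := by
      apply Finset.prod_congr rfl
      intro j _
      rw [Nat.cast_sub hm]
      push_cast
      ring
    rw [g4] at g3
    have g5 : (∏ j ∈ Finset.range (n + k), (b + 3 + (j : ℝ))) ≠ 0 := by
      apply Finset.prod_ne_zero_iff.mpr
      intro j _
      positivity
    have g6 : Gm s b (n + k) = (∏ j ∈ Finset.range (n + k), (2 + 2 * s.re + j))
        / ∏ j ∈ Finset.range (n + k), (b + 3 + (j : ℝ)) := by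
      unfold Gm
      rw [Finset.prod_div_distrib]
      congr 1
      apply Finset.prod_congr rfl
      intro j _
      ring
    have g7 : (∑ i ∈ Finset.range m, (pq (2 + 2 * s.re) (m - 1 - i) * pq (b + 1 - 2 * s.re) i)
        * ((∏ j ∈ Finset.range (n + k), (2 + 2 * s.re + ((m - 1 - i : ℕ) : ℝ) + j))
        / (m : ℝ) ^ (n + k))) / pq (b + 3) (m - 1)
        = Gm s b (n + k) * ((∏ j ∈ Finset.range (n + k), ((m : ℝ) + (b + 2 + j)))
        / (m : ℝ) ^ (n + k)) := by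
      rw [g1, g6, div_eq_iff hS.ne']
      have g8 : (m : ℝ) ^ (n + k) ≠ 0 := pow_ne_zero _ hm0.ne'
      generalize (∏ j ∈ Finset.range (n + k), (2 + 2 * s.re + (j : ℝ))) = P1 at *
      generalize (∏ j ∈ Finset.range (n + k), (b + 3 + (j : ℝ))) = P2 at *
      generalize (∏ j ∈ Finset.range (n + k), ((m : ℝ) + (b + 2 + j))) = P3 at *
      generalize (m : ℝ) ^ (n + k) = P4 at *
      field_simp
      linear_combination -P1 * g3
    rw [← g7]
    push_cast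
    rfl
  rw [hG] at h10
  -- the limit value
  have hGm0 : 0 ≤ Gm s b (n + k) := by
    apply Finset.prod_nonneg
    intro j _
    apply div_nonneg
    · have : (0 : ℝ) ≤ j := Nat.cast_nonneg j
      linarith
    · positivity
  have hGm1 : Gm s b (n + k) ≤ 1 := by
    apply Finset.prod_le_one
    · intro j _
      apply div_nonneg
      · have : (0 : ℝ) ≤ j := Nat.cast_nonneg j
        linarith
      · positivity
    · intro j _
      rw [div_le_one (by positivity)]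
      linarith
  have hlim : ‖((Gm s b (n + k) * ((∏ j ∈ Finset.range (n + k), ((m : ℝ) + (b + 2 + j)))
        / (m : ℝ) ^ (n + k)) : ℝ) : ℂ) - (Gm s b (n + k) : ℂ)‖ ≤ C1 / m := by
    have h := key m hm (m : ℝ) hm0.le le_rfl (n + k) (by omega)
      (fun j => ((b + 2 + j : ℝ) : ℂ)) (fun j hj => by
        have h3 : (j : ℝ) ≤ 2 * N := by exact_mod_cast (by omega : j ≤ 2 * N)
        rw [Complex.norm_real, Real.norm_of_nonneg (by positivity), hA]
        linarith)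
    rw [div_self hm0.ne', Complex.ofReal_one, one_pow] at h
    have e : ((Gm s b (n + k) * ((∏ j ∈ Finset.range (n + k), ((m : ℝ) + (b + 2 + j)))
        / (m : ℝ) ^ (n + k)) : ℝ) : ℂ) - (Gm s b (n + k) : ℂ)
        = (Gm s b (n + k) : ℂ) * ((∏ j ∈ Finset.range (n + k),
          (((m : ℝ) : ℂ) + ((b + 2 + j : ℝ) : ℂ))) / (m : ℂ) ^ (n + k) - 1) := by
      push_cast
      ring
    rw [e, norm_mul, Complex.norm_real, Real.norm_of_nonneg hGm0]
    calc Gm s b (n + k) * _ ≤ 1 * (C1 / m) := mul_le_mul hGm1 h (norm_nonneg _) zero_le_one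
      _ = C1 / m := one_mul _
  have h11 := norm_sub_le_norm_sub_add_norm_sub
    ((∑ i ∈ Finset.range m, ((pq (2 + 2 * s.re) (m - 1 - i) * pq (b + 1 - 2 * s.re) i : ℝ) : ℂ)
          * (XD s m n i * conj (XD s m k i))) / ((pq (b + 3) (m - 1) : ℝ) : ℂ))
    ((Gm s b (n + k) * ((∏ j ∈ Finset.range (n + k), ((m : ℝ) + (b + 2 + j)))
        / (m : ℝ) ^ (n + k)) : ℝ) : ℂ)
    ((Gm s b (n + k) : ℝ) : ℂ)
  have e9 : (C1 * (C1 + 1) + C1 + C1 + C1) / (m : ℝ)
      = (C1 * (C1 + 1) + C1 + C1) / m + C1 / m := by ring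
  rw [e9]
  refine h11.trans (add_le_add h10 hlim)

end Pool.Agent.Helper24.HR2
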