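import Mathlib
import Pool.Agent.Helper24.HR2.Defs
import Pool.Agent.Helper24.HR2.Asy
import Pool.Agent.Helper3.HR2.Step

/-!
Project HR2 (MP_16b0ee), section R6: the limits of the discrete sums by dominated convergence
(the squared Hilbert-Schmidt norm of the remainder and the moments of the weights).
-/

set_option autoImplicit false

open MeasureTheory Set Metric Filter Topology
open scoped Real ComplexConjugate

namespace Pool.Agent.Helper24.HR2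

open Pool.Agent.Helper22.Half
open Pool.Agent.Helper39.MH
open Pool.Agent.Helper3.HR2

namespace LimHS

theorem YD_nonneg (m j : ℕ) : 0 ≤ YD m j := by
  unfold YD
  positivity

theorem YD_le_one (m j : ℕ) : YD m j ≤ 1 := by
  unfold YD
  rw [div_le_one (by positivity)]
  have : (0 : ℝ) ≤ j := Nat.cast_nonneg j
  linarith

theorem floor_div_tendsto {y : ℝ} (hy : 0 ≤ y) :
    Tendsto (fun m : ℕ => (⌊(m : ℝ) * y⌋₊ : ℝ) / m) atTop (𝓝 y) := by
  have h := (tendsto_nat_floor_mul_div_atTop (R := ℝ) hy).comp tendsto_natCast_atTop_atTop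
  refine h.congr fun m => ?_
  simp only [Function.comp, mul_comm]

theorem YD_tendsto {y : ℝ} (hy : 0 ≤ y) :
    Tendsto (fun m : ℕ => YD m ⌊(m : ℝ) * y⌋₊) atTop (𝓝 (1 / (1 + y))) := by
  have h1 := floor_div_tendsto hy
  have h2 : Tendsto (fun m : ℕ => (1 : ℝ) / m) atTop (𝓝 0) := tendsto_one_div_atTop_nhds_zero_nat
  have h3 : Tendsto (fun m : ℕ => 1 / (1 + 1 / (m : ℝ) + (⌊(m : ℝ) * y⌋₊ : ℝ) / m)) atTop
      (𝓝 (1 / (1 + 0 + y))) :=
    Tendsto.div tendsto_const_nhds ((tendsto_const_nhds.add h2).add h1) (by positivity)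
  rw [add_zero] at h3
  refine h3.congr' ?_
  filter_upwards [eventually_ge_atTop 1] with m hm
  have h0 : (0 : ℝ) < m := by exact_mod_cast hm
  unfold YD
  field_simp

theorem rD_tendsto {s : ℂ} (D : ℕ) (p : ℕ → ℕ → ℝ) {x y : ℝ} (hx : x ∈ Ioo (0 : ℝ) 1)
    (hy : 0 < y) : Tendsto (fun m : ℕ => rD s D p m ⌊(m : ℝ) * x⌋₊ ⌊(m : ℝ) * y⌋₊) atTop
      (𝓝 ((RR D p x y : ℝ) : ℂ)) := by
  unfold rD RR kp
  rw [Complex.ofReal_sub, Complex.ofReal_sum]
  refine (kD_tendsto hx.1 hy).sub (tendsto_finsetSum _ fun n _ => ?_)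
  rw [Complex.ofReal_sum]
  refine tendsto_finsetSum _ fun l _ => ?_
  have h1 := XD_tendsto (s := s) n hx
  have h2 : Tendsto (fun m : ℕ => ((YD m ⌊(m : ℝ) * y⌋₊ : ℝ) : ℂ)) atTop
      (𝓝 ((1 / (1 + y) : ℝ) : ℂ)) :=
    (Complex.continuous_ofReal.tendsto _).comp (YD_tendsto hy.le)
  have h3 := (h1.const_mul (p n l : ℂ)).mul (h2.pow (l + 1))
  have h4 : ((p n l * (1 - x) ^ n * (1 / (1 + y)) ^ (l + 1) : ℝ) : ℂ)
      = (p n l : ℂ) * (((1 - x) ^ n : ℝ) : ℂ) * ((1 / (1 + y) : ℝ) : ℂ) ^ (l + 1) := by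
    push_cast
    ring
  rw [h4]
  exact h3

theorem floor_lt_m {m : ℕ} (hm : 1 ≤ m) {x : ℝ} (hx : x ∈ Ioo (0 : ℝ) 1) :
    ⌊(m : ℝ) * x⌋₊ < m := by
  have h0 : (0 : ℝ) < m := by exact_mod_cast hm
  rw [Nat.floor_lt (by have := hx.1; positivity)]
  have := hx.2
  nlinarith

/-- the polynomial part of the kernel is bounded -/
theorem polD_le {s : ℂ} (hs : ‖s‖ < 1) (D : ℕ) (p : ℕ → ℕ → ℝ) : ∃ P : ℝ, 0 ≤ P ∧
    ∀ m : ℕ, 1 ≤ m → ∀ i < m, ∀ j : ℕ,
      ‖∑ n ∈ Finset.range D, ∑ l ∈ Finset.range D,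
        (p n l : ℂ) * XD s m n i * (YD m j : ℂ) ^ (l + 1)‖ ≤ P := by
  choose C hC0 hC using XD_le
  refine ⟨∑ n ∈ Finset.range D, ∑ l ∈ Finset.range D, |p n l| * C n, ?_, ?_⟩
  · exact Finset.sum_nonneg fun n _ => Finset.sum_nonneg fun l _ =>
      mul_nonneg (abs_nonneg _) (hC0 n)
  · intro m hm i hi j
    refine (norm_sum_le _ _).trans (Finset.sum_le_sum fun n _ => ?_)
    refine (norm_sum_le _ _).trans (Finset.sum_le_sum fun l _ => ?_)
    rw [norm_mul, norm_mul, norm_pow, Complex.norm_real, Complex.norm_real,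
      Real.norm_of_nonneg (YD_nonneg m j), Real.norm_eq_abs]
    have h1 := hC n s hs m hm i hi
    have h2 : YD m j ^ (l + 1) ≤ 1 := pow_le_one₀ (YD_nonneg m j) (YD_le_one m j)
    calc |p n l| * ‖XD s m n i‖ * YD m j ^ (l + 1) ≤ |p n l| * C n * 1 := by
          have := YD_nonneg m j
          have := hC0 n
          gcongr
      _ = |p n l| * C n := mul_one _

/-- the norm of the remainder kernel, for all cells -/
theorem rD_le {s : ℂ} (hs : ‖s‖ < 1) (D : ℕ) (p : ℕ → ℕ → ℝ) : ∃ C P : ℝ, 0 ≤ C ∧ 0 ≤ P ∧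
    ∀ m : ℕ, 1 ≤ m → ∀ x ∈ Ioo (0 : ℝ) 1, ∀ y : ℝ, 0 < y →
      ‖rD s D p m ⌊(m : ℝ) * x⌋₊ ⌊(m : ℝ) * y⌋₊‖ ≤ C / (x + y + 1 / m) + P := by
  obtain ⟨C, hC0, hC⟩ := kD_le hs
  obtain ⟨P, hP0, hP⟩ := polD_le hs D p
  refine ⟨C, P, hC0, hP0, fun m hm x hx y hy => ?_⟩
  unfold rD
  refine (norm_sub_le _ _).trans (add_le_add (hC m hm x y hx.1 hy) ?_)
  exact hP m hm _ (floor_lt_m hm hx) _

/-! the variable `x`: `A x = ((1-x)^(2r+1)+1) (x^(b-2r)+1)` -/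

noncomputable def domA (s : ℂ) (b : ℝ) (x : ℝ) : ℝ :=
  ((1 - x) ^ (2 * s.re + 1) + 1) * (x ^ (b - 2 * s.re) + 1)

theorem domA_pos (s : ℂ) (b : ℝ) {x : ℝ} (hx : x ∈ Ioo (0 : ℝ) 1) : 0 < domA s b x := by
  have h1 : (0 : ℝ) < 1 - x := by linarith [hx.2]
  have h2 := hx.1
  unfold domA
  positivity

theorem re_bounds {s : ℂ} (hs : ‖s‖ < 1) : -1 < s.re ∧ s.re < 1 :=
  abs_lt.mp (lt_of_le_of_lt (Complex.abs_re_le_norm s) hs)

theorem domA_int {s : ℂ} (hs : ‖s‖ < 1) {b t : ℝ} (hσ : t < b + 1 - 2 * s.re) (ht : t < 1) :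
    IntegrableOn (fun x => domA s b x * x ^ (-t)) (Ioo (0 : ℝ) 1) :=
  integrable_domx (by linarith [(re_bounds hs).1]) ht (by linarith)

theorem domA_int0 {s : ℂ} (hs : ‖s‖ < 1) {b : ℝ} (hσ : 0 < b + 1 - 2 * s.re) :
    IntegrableOn (fun x => domA s b x) (Ioo (0 : ℝ) 1) := by
  have h := domA_int hs (b := b) (t := 0) (by linarith) (by norm_num)
  simpa using h

theorem alp_pos {s : ℂ} {b x : ℝ} (hx : x ∈ Ioo (0 : ℝ) 1) : 0 < alp s b x := by
  have h1 : (0 : ℝ) < 1 - x := by linarith [hx.2]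
  have h2 := hx.1
  unfold alp
  positivity

theorem alp_int {s : ℂ} (hs : ‖s‖ < 1) {b : ℝ} (hσ : 0 < b + 1 - 2 * s.re) :
    IntegrableOn (fun x => alp s b x) (Ioo (0 : ℝ) 1) :=
  integrable_beta (by linarith [(re_bounds hs).1]) (by linarith)

theorem B0_pos {s : ℂ} (hs : ‖s‖ < 1) {b : ℝ} (hσ : 0 < b + 1 - 2 * s.re) : 0 < B0 s b := by
  unfold B0
  rw [setIntegral_pos_iff_support_of_nonneg_ae]
  · have h : Ioo (0 : ℝ) 1 ⊆ Function.support (fun x => alp s b x) ∩ Ioo (0 : ℝ) 1 :=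
      fun x hx => ⟨(alp_pos hx).ne', hx⟩
    refine lt_of_lt_of_le ?_ (measure_mono h)
    simp
  · filter_upwards [ae_restrict_mem measurableSet_Ioo] with x hx
    exact (alp_pos hx).le
  · exact alp_int hs hσ

/-! the weights `bD` -/

theorem bem_cell (s : ℂ) (b : ℝ) {m : ℕ} (hm : 1 ≤ m) (j : ℕ) :
    bem s b m (((j : ℝ) + 1 / 2) / m) = bD s b m j * (m : ℝ) ^ (b + 1) := by
  have h0 : (0 : ℝ) < m := by exact_mod_cast hm
  have h : ⌊(m : ℝ) * (((j : ℝ) + 1 / 2) / m)⌋₊ = j := by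
    refine floor_cell hm j ⟨?_, ?_⟩
    · gcongr; linarith
    · gcongr; norm_num
  unfold bem
  rw [h]

theorem bD_nonneg {s : ℂ} (hs : ‖s‖ < 1) {b : ℝ} (hb : 0 < b) (hσ : 0 < b + 1 - 2 * s.re)
    {m : ℕ} (hm : 1 ≤ m) (j : ℕ) : 0 ≤ bD s b m j := by
  have h0 : (0 : ℝ) < m := by exact_mod_cast hm
  obtain ⟨C, _, hC⟩ := bem_le hs hb hσ
  have h := (hC m hm (((j : ℝ) + 1 / 2) / m) (by positivity)).1
  rw [bem_cell s b hm] at h
  exact nonneg_of_mul_nonneg_left h (by positivity)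

theorem alm_cell (s : ℂ) (b : ℝ) {m : ℕ} (hm : 1 ≤ m) (i : ℕ) :
    alm s b m (((i : ℝ) + 1 / 2) / m) = aD s b m i / (m : ℝ) ^ (b + 1) := by
  have h0 : (0 : ℝ) < m := by exact_mod_cast hm
  have h : ⌊(m : ℝ) * (((i : ℝ) + 1 / 2) / m)⌋₊ = i := by
    refine floor_cell hm i ⟨?_, ?_⟩
    · gcongr; linarith
    · gcongr; norm_num
  unfold alm
  rw [h]

theorem mid_mem {m : ℕ} (hm : 1 ≤ m) {i : ℕ} (hi : i < m) :
    ((i : ℝ) + 1 / 2) / m ∈ Ioo (0 : ℝ) 1 := by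
  have h0 : (0 : ℝ) < m := by exact_mod_cast hm
  have h1 : (i : ℝ) + 1 ≤ m := by exact_mod_cast hi
  refine ⟨by positivity, ?_⟩
  rw [div_lt_one h0]
  linarith

theorem aD_nonneg {s : ℂ} (hs : ‖s‖ < 1) {b : ℝ} (hb : 0 < b) (hσ : 0 < b + 1 - 2 * s.re)
    {m : ℕ} (hm : 1 ≤ m) {i : ℕ} (hi : i < m) : 0 ≤ aD s b m i := by
  have h0 : (0 : ℝ) < m := by exact_mod_cast hm
  obtain ⟨C, _, hC⟩ := alm_le hs hb hσ
  have h := (hC m hm (((i : ℝ) + 1 / 2) / m) (mid_mem hm hi)).1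
  rw [alm_cell s b hm] at h
  have h2 : (0 : ℝ) < (m : ℝ) ^ (b + 1) := by positivity
  rw [le_div_iff₀ h2] at h
  linarith

/-- `bem` is dominated by `(1+y)^(-b-1)` -/
theorem bem_le' {s : ℂ} (hs : ‖s‖ < 1) {b : ℝ} (hb : 0 < b) (hσ : 0 < b + 1 - 2 * s.re) :
    ∃ C : ℝ, 0 ≤ C ∧ ∀ m : ℕ, 1 ≤ m → ∀ y : ℝ, 0 < y →
      bem s b m y ≤ C * (1 + y) ^ (-b - 1) := by
  obtain ⟨C, hC0, hC⟩ := bem_le hs hb hσ
  refine ⟨C, hC0, fun m hm y hy => ((hC m hm y hy).2).trans ?_⟩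
  have h0 : (0 : ℝ) < m := by exact_mod_cast hm
  have h1 : (1 : ℝ) / m ≤ 1 := by
    rw [div_le_one h0]
    exact_mod_cast hm
  have h2 : (1 + y) ^ (-b - 1) = (1 + y) * (1 + y) ^ (-b - 2) := by
    rw [show -b - 1 = 1 + (-b - 2) by ring, Real.rpow_add (by linarith), Real.rpow_one]
  rw [h2]
  have h3 : 0 ≤ (1 + y) ^ (-b - 2) := by positivity
  exact mul_le_mul_of_nonneg_left (mul_le_mul_of_nonneg_right (by linarith) h3) hC0

theorem bem_step_int {s : ℂ} (hs : ‖s‖ < 1) {b : ℝ} (hb : 0 < b) (hσ : 0 < b + 1 - 2 * s.re)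
    {m : ℕ} (hm : 1 ≤ m) (g : ℕ → ℝ) {K : ℝ} (hg : ∀ j, |g j| ≤ K) :
    IntegrableOn (fun y : ℝ => bem s b m y * g ⌊(m : ℝ) * y⌋₊) (Ioi 0) := by
  obtain ⟨C, hC0, hC⟩ := bem_le' hs hb hσ
  obtain ⟨C', _, hC'⟩ := bem_le hs hb hσ
  have hm1 : Measurable (fun y : ℝ => bem s b m y * g ⌊(m : ℝ) * y⌋₊) :=
    measurable_step m (fun j => bD s b m j * (m : ℝ) ^ (b + 1) * g j)
  refine Integrable.mono' (((integrable_tail hb).const_mul C).mul_const K)
    hm1.aestronglyMeasurable ?_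
  filter_upwards [ae_restrict_mem measurableSet_Ioi] with y hy
  rw [norm_mul, Real.norm_of_nonneg (hC' m hm y hy).1, Real.norm_eq_abs]
  have h1 := hC m hm y hy
  have h2 := (hC' m hm y hy).1
  have h3 := hg ⌊(m : ℝ) * y⌋₊
  have h4 : 0 ≤ |g ⌊(m : ℝ) * y⌋₊| := abs_nonneg _
  calc bem s b m y * |g ⌊(m : ℝ) * y⌋₊| ≤ (C * (1 + y) ^ (-b - 1)) * K :=
        mul_le_mul h1 h3 h4 (h2.trans h1)
    _ = _ := rfl

/-- the series of the weights as an integral -/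
theorem bD_hasSum {s : ℂ} (hs : ‖s‖ < 1) {b : ℝ} (hb : 0 < b) (hσ : 0 < b + 1 - 2 * s.re)
    {m : ℕ} (hm : 1 ≤ m) (g : ℕ → ℝ) {K : ℝ} (hg : ∀ j, |g j| ≤ K) :
    HasSum (fun j => bD s b m j * g j)
      ((m : ℝ) ^ (-b) * ∫ y in Ioi (0 : ℝ), bem s b m y * g ⌊(m : ℝ) * y⌋₊) := by
  have h0 : (0 : ℝ) < m := by exact_mod_cast hm
  have h := hasSum_step hm (g := fun j => bD s b m j * (m : ℝ) ^ (b + 1) * g j)
    (bem_step_int hs hb hσ hm g hg)
  have h1 := h.mul_left ((m : ℝ) ^ (-b))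
  have h3 : (fun j => bD s b m j * g j)
      = fun j => (m : ℝ) ^ (-b) * ((1 / (m : ℝ)) • (bD s b m j * (m : ℝ) ^ (b + 1) * g j)) := by
    funext j
    simp only [smul_eq_mul]
    have h2 : (m : ℝ) ^ (b + 1) = (m : ℝ) ^ b * m := by
      rw [Real.rpow_add h0, Real.rpow_one]
    rw [h2, Real.rpow_neg h0.le]
    field_simp
  rw [h3]
  exact h1

theorem bD_summable {s : ℂ} (hs : ‖s‖ < 1) {b : ℝ} (hb : 0 < b) (hσ : 0 < b + 1 - 2 * s.re)
    (l m : ℕ) : Summable (fun j => bD s b m j * YD m j ^ l) := by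
  have hpow : ∀ m j : ℕ, |YD m j ^ l| ≤ 1 := fun m j => by
    rw [abs_of_nonneg (pow_nonneg (YD_nonneg m j) l)]
    exact pow_le_one₀ (YD_nonneg m j) (YD_le_one m j)
  rcases Nat.eq_zero_or_pos m with h | hm
  · subst h
    have h1 : Summable (fun j => bD s b 1 j * 1) :=
      (bD_hasSum hs hb hσ le_rfl (fun _ => 1) (K := 1) (by simp)).summable
    rw [← summable_nat_add_iff 1]
    refine Summable.of_norm_bounded (h1.mul_left 2) fun j => ?_
    have h2 : bD s b 0 (j + 1) ≤ 2 * (bD s b 1 j * 1) ∧ 0 ≤ bD s b 0 (j + 1) := by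
      have h3 : bD s b 0 (j + 1) = ((j : ℝ) + 2) / (j + 1) * bD s b 1 j := by
        unfold bD
        rw [show 0 + 1 + (j + 1) = 1 + 1 + j by ring]
        push_cast
        field_simp
        ring
      have h4 := bD_nonneg hs hb hσ (le_refl 1) j
      have h5 : ((j : ℝ) + 2) / (j + 1) ≤ 2 := by
        rw [div_le_iff₀ (by positivity)]
        have : (0 : ℝ) ≤ j := Nat.cast_nonneg j
        linarith
      rw [h3]
      refine ⟨?_, by positivity⟩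
      rw [mul_one]
      exact mul_le_mul_of_nonneg_right h5 h4
    rw [norm_mul, Real.norm_of_nonneg h2.2, Real.norm_eq_abs]
    calc bD s b 0 (j + 1) * |YD 0 (j + 1) ^ l| ≤ bD s b 0 (j + 1) * 1 :=
          mul_le_mul_of_nonneg_left (hpow 0 (j + 1)) h2.2
      _ ≤ _ := by rw [mul_one]; exact h2.1
  · exact (bD_hasSum hs hb hσ hm (fun j => YD m j ^ l) (hpow m)).summable

theorem bet_integral {b : ℝ} (hb : 0 < b) (l : ℕ) :
    ∫ y in Ioi (0 : ℝ), bet b y * (1 / (1 + y)) ^ l = 1 / ((b + l) * (b + l + 1)) := by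
  have hl : (0 : ℝ) ≤ l := Nat.cast_nonneg l
  have h1 : ∀ y ∈ Ioi (0 : ℝ), bet b y * (1 / (1 + y)) ^ l
      = (1 + y) ^ (-(b + l) - 1) - (1 + y) ^ (-(b + l + 1) - 1) := by
    intro y hy
    have hy' : (0 : ℝ) < 1 + y := by have := mem_Ioi.mp hy; linarith
    unfold bet
    rw [show -(b + l) - 1 = (-(b + l + 1) - 1) + 1 by ring, Real.rpow_add hy', Real.rpow_one,
      show -(b + l + 1) - 1 = (-b - 2) + -(l : ℝ) by ring, Real.rpow_add hy',
      Real.rpow_neg hy'.le, Real.rpow_natCast]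
    rw [one_div, inv_pow]
    ring
  rw [setIntegral_congr_fun measurableSet_Ioi h1, integral_sub
    (integrable_tail (c := b + l) (by positivity)) (integrable_tail (c := b + l + 1) (by positivity)),
    integral_tail (by positivity), integral_tail (by positivity)]
  field_simp
  ring

/-! the Hilbert-Schmidt norm -/

/-- the discrete density on the cells -/
noncomputable def dens (s : ℂ) (b : ℝ) (D : ℕ) (p : ℕ → ℕ → ℝ) (m : ℕ) (z : ℝ × ℝ) : ℝ :=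
  alm s b m z.1 * bem s b m z.2 * ‖rD s D p m ⌊(m : ℝ) * z.1⌋₊ ⌊(m : ℝ) * z.2⌋₊‖ ^ 2

theorem dens_measurable (s : ℂ) (b : ℝ) (D : ℕ) (p : ℕ → ℕ → ℝ) (m : ℕ) :
    Measurable (dens s b D p m) :=
  measurable_step2 m (fun i j => aD s b m i / (m : ℝ) ^ (b + 1) * (bD s b m j * (m : ℝ) ^ (b + 1))
    * ‖rD s D p m i j‖ ^ 2)

/-- the dominating function -/
noncomputable def domF (s : ℂ) (b t K1 K2 : ℝ) (z : ℝ × ℝ) : ℝ :=
  K1 * ((domA s b z.1 * z.1 ^ (-t)) * ((1 + z.2) ^ (-b - 2) * z.2 ^ (t - 1)))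
    + K2 * (domA s b z.1 * (1 + z.2) ^ (-b - 1))

theorem domF_int {s : ℂ} (hs : ‖s‖ < 1) {b : ℝ} (hb : 0 < b) {t : ℝ} (ht0 : 0 < t)
    (ht : t < b + 1 - 2 * s.re) (ht1 : t < 1) (K1 K2 : ℝ) :
    Integrable (domF s b t K1 K2)
      ((volume.restrict (Ioo (0 : ℝ) 1)).prod (volume.restrict (Ioi (0 : ℝ)))) := by
  have h1 := (domA_int hs ht ht1).mul_prod (integrable_domy hb ht0 ht1.le)
  have h2 := (domA_int0 hs (b := b) (by linarith)).mul_prod (integrable_tail hb)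
  exact (h1.const_mul K1).add (h2.const_mul K2)

theorem dens_le {s : ℂ} (hs : ‖s‖ < 1) {b : ℝ} (hb : 0 < b) (hσ : 0 < b + 1 - 2 * s.re)
    (D : ℕ) (p : ℕ → ℕ → ℝ) {t : ℝ} (ht0 : 0 < t) (ht1 : t < 1) :
    ∃ K1 K2 : ℝ, ∀ m : ℕ, 1 ≤ m → ∀ x ∈ Ioo (0 : ℝ) 1, ∀ y : ℝ, 0 < y →
      0 ≤ dens s b D p m (x, y) ∧ dens s b D p m (x, y) ≤ domF s b t K1 K2 (x, y) := by
  obtain ⟨Ca, hCa0, hCa⟩ := alm_le hs hb hσ
  obtain ⟨Cb, hCb0, hCb⟩ := bem_le hs hb hσ
  obtain ⟨C1, hC10, hC1⟩ := bem_le' hs hb hσ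
  obtain ⟨C, P, hC0, hP0, hr⟩ := rD_le hs D p
  refine ⟨Ca * (2 * C ^ 2 * Cb), Ca * (2 * P ^ 2 * C1), fun m hm x hx y hy => ?_⟩
  have h0 : (0 : ℝ) < m := by exact_mod_cast hm
  have hx0 := hx.1
  have ha := hCa m hm x hx
  have hbb := hCb m hm y hy
  have hb1 := hC1 m hm y hy
  have hrr := hr m hm x hx y hy
  set R := ‖rD s D p m ⌊(m : ℝ) * x⌋₊ ⌊(m : ℝ) * y⌋₊‖ with hR
  have hR0 : 0 ≤ R := norm_nonneg _
  set u : ℝ := x + y + 1 / m with hu
  have hu0 : 0 < u := by positivity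
  have hA : 0 < domA s b x := domA_pos s b hx
  refine ⟨by unfold dens; exact mul_nonneg (mul_nonneg ha.1 hbb.1) (by positivity), ?_⟩
  have h1 : R ^ 2 ≤ 2 * C ^ 2 / u ^ 2 + 2 * P ^ 2 := by
    have h2 : R ^ 2 ≤ (C / u + P) ^ 2 := pow_le_pow_left₀ hR0 hrr 2
    have h3 : (C / u + P) ^ 2 ≤ 2 * (C / u) ^ 2 + 2 * P ^ 2 := by nlinarith [sq_nonneg (C / u - P)]
    calc R ^ 2 ≤ 2 * (C / u) ^ 2 + 2 * P ^ 2 := h2.trans h3
      _ = _ := by rw [div_pow]; ring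
  have hw : 0 ≤ (1 + y) ^ (-b - 2) := by positivity
  have hw1 : 0 ≤ (1 + y) ^ (-b - 1) := by positivity
  have h4 : bem s b m y * (2 * C ^ 2 / u ^ 2)
      ≤ 2 * C ^ 2 * Cb * (x ^ (-t) * ((1 + y) ^ (-b - 2) * y ^ (t - 1))) := by
    have h5 : (y + 1 / m) / u ^ 2 ≤ x ^ (-t) * y ^ (t - 1) := by
      refine le_trans ?_ (inv_add_le hx0 hy ht0.le ht1.le)
      rw [div_le_div_iff₀ (by positivity) (by positivity), one_mul]
      have h6 : y + 1 / m ≤ u := by rw [hu]; linarith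
      have h7 : x + y ≤ u := by
        rw [hu]
        have : (0 : ℝ) ≤ 1 / m := by positivity
        linarith
      calc (y + 1 / m) * (x + y) ≤ u * u := by
            have : (0 : ℝ) ≤ 1 / m := by positivity
            exact mul_le_mul h6 h7 (by positivity) hu0.le
        _ = u ^ 2 := by ring
    calc bem s b m y * (2 * C ^ 2 / u ^ 2)
        ≤ (Cb * ((y + 1 / m) * (1 + y) ^ (-b - 2))) * (2 * C ^ 2 / u ^ 2) :=
          mul_le_mul_of_nonneg_right hbb.2 (by positivity)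
      _ = 2 * C ^ 2 * Cb * (1 + y) ^ (-b - 2) * ((y + 1 / m) / u ^ 2) := by ring
      _ ≤ 2 * C ^ 2 * Cb * (1 + y) ^ (-b - 2) * (x ^ (-t) * y ^ (t - 1)) :=
          mul_le_mul_of_nonneg_left h5 (by positivity)
      _ = _ := by ring
  have h8 : bem s b m y * R ^ 2
      ≤ 2 * C ^ 2 * Cb * (x ^ (-t) * ((1 + y) ^ (-b - 2) * y ^ (t - 1)))
        + 2 * P ^ 2 * C1 * (1 + y) ^ (-b - 1) := by
    calc bem s b m y * R ^ 2 ≤ bem s b m y * (2 * C ^ 2 / u ^ 2 + 2 * P ^ 2) :=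
          mul_le_mul_of_nonneg_left h1 hbb.1
      _ = bem s b m y * (2 * C ^ 2 / u ^ 2) + bem s b m y * (2 * P ^ 2) := by ring
      _ ≤ _ := by
          refine add_le_add h4 ?_
          calc bem s b m y * (2 * P ^ 2) ≤ (C1 * (1 + y) ^ (-b - 1)) * (2 * P ^ 2) :=
                mul_le_mul_of_nonneg_right hb1 (by positivity)
            _ = _ := by ring
  have hx1 : 0 ≤ x ^ (-t) := by positivity
  have hy1 : 0 ≤ y ^ (t - 1) := by positivity
  unfold dens domF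
  simp only
  rw [mul_assoc]
  calc alm s b m x * (bem s b m y * R ^ 2)
      ≤ (Ca * domA s b x) * (2 * C ^ 2 * Cb * (x ^ (-t) * ((1 + y) ^ (-b - 2) * y ^ (t - 1)))
        + 2 * P ^ 2 * C1 * (1 + y) ^ (-b - 1)) :=
        mul_le_mul ha.2 h8 (mul_nonneg hbb.1 (by positivity)) (by positivity)
    _ = _ := by ring

end LimHS

open LimHS in
theorem lim_bD {s : ℂ} (hs0 : s ≠ 0) (hs : ‖s‖ < 1) {b : ℝ} (hb : 0 < b)
    (hσ : 0 < b + 1 - 2 * s.re) (l : ℕ) :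
    (∀ m, Summable (fun j => bD s b m j * YD m j ^ l)) ∧
    Tendsto (fun m : ℕ => KS s * pq (b + 3) (m - 1) / (m : ℝ) ^ 2
      * ∑' j, bD s b m j * YD m j ^ l) atTop (𝓝 (Es s b / ((b + l) * (b + l + 1)))) := by
  refine ⟨bD_summable hs hb hσ l, ?_⟩
  obtain ⟨ca, cb, hca, hcb, hcc, _, hbem, hnu⟩ := asy_consts hs0 hs hb hσ
  obtain ⟨C, hC0, hC⟩ := bem_le' hs hb hσ
  obtain ⟨C', _, hC'⟩ := bem_le hs hb hσ
  have hpow : ∀ m j : ℕ, |YD m j ^ l| ≤ 1 := fun m j => by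
    rw [abs_of_nonneg (pow_nonneg (YD_nonneg m j) l)]
    exact pow_le_one₀ (YD_nonneg m j) (YD_le_one m j)
  have hI : Tendsto (fun m : ℕ => ∫ y in Ioi (0 : ℝ), bem s b m y * YD m ⌊(m : ℝ) * y⌋₊ ^ l)
      atTop (𝓝 (∫ y in Ioi (0 : ℝ), cb * bet b y * (1 / (1 + y)) ^ l)) := by
    refine tendsto_integral_filter_of_dominated_convergence
      (fun y => C * (1 + y) ^ (-b - 1)) ?_ ?_ ((integrable_tail hb).const_mul C) ?_
    · filter_upwards [eventually_ge_atTop 1] with m hm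
      exact (bem_step_int hs hb hσ hm (fun j => YD m j ^ l) (hpow m)).aestronglyMeasurable
    · filter_upwards [eventually_ge_atTop 1] with m hm
      filter_upwards [ae_restrict_mem measurableSet_Ioi] with y hy
      rw [norm_mul, Real.norm_of_nonneg (hC' m hm y hy).1, Real.norm_eq_abs]
      calc bem s b m y * |YD m ⌊(m : ℝ) * y⌋₊ ^ l| ≤ bem s b m y * 1 :=
            mul_le_mul_of_nonneg_left (hpow _ _) (hC' m hm y hy).1
        _ ≤ _ := by rw [mul_one]; exact hC m hm y hy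
    · filter_upwards [ae_restrict_mem measurableSet_Ioi] with y hy
      exact (hbem y hy).mul ((YD_tendsto (mem_Ioi.mp hy).le).pow l)
  have h1 := hnu.mul hI
  have h2 : ca * B0 s b * ∫ y in Ioi (0 : ℝ), cb * bet b y * (1 / (1 + y)) ^ l
      = Es s b / ((b + l) * (b + l + 1)) := by
    have h3 : ∫ y in Ioi (0 : ℝ), cb * bet b y * (1 / (1 + y)) ^ l
        = cb * (1 / ((b + l) * (b + l + 1))) := by
      rw [← bet_integral hb l, ← integral_const_mul]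
      simp only [mul_assoc]
    rw [h3]
    unfold Es
    rw [← hcc]
    ring
  rw [h2] at h1
  refine h1.congr' ?_
  filter_upwards [eventually_ge_atTop 1] with m hm
  have h0 : (0 : ℝ) < m := by exact_mod_cast hm
  rw [(bD_hasSum hs hb hσ hm (fun j => YD m j ^ l) (hpow m)).tsum_eq]
  have h4 : (m : ℝ) ^ (b + 2) = (m : ℝ) ^ b * (m : ℝ) ^ 2 := by
    rw [Real.rpow_add h0]
    norm_num
  rw [h4, Real.rpow_neg h0.le]
  field_simp

open LimHS in
theorem lim_HS {s : ℂ} (hs0 : s ≠ 0) (hs : ‖s‖ < 1) {b : ℝ} (hb : 0 < b)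
    (hσ : 0 < b + 1 - 2 * s.re) (D : ℕ) (p : ℕ → ℕ → ℝ) {δ : ℝ} (hδ : 0 < δ) :
    ∀ᶠ m : ℕ in atTop, ∀ J : ℕ, 1 / (m : ℝ) ^ 2 * ∑ j ∈ Finset.range J, ∑ i ∈ Finset.range m,
      bD s b m j * aD s b m i * ‖rD s D p m i j‖ ^ 2 ≤ Es s b * HSn s b D p + δ := by
  obtain ⟨ca, cb, hca, hcb, hcc, halm, hbem, _⟩ := asy_consts hs0 hs hb hσ
  obtain ⟨t, ht0, ht, ht1⟩ : ∃ t : ℝ, 0 < t ∧ t < b + 1 - 2 * s.re ∧ t < 1 :=
    ⟨min (1 / 2) ((b + 1 - 2 * s.re) / 2), lt_min (by norm_num) (by linarith),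
      lt_of_le_of_lt (min_le_right _ _) (by linarith),
      lt_of_le_of_lt (min_le_left _ _) (by norm_num)⟩
  obtain ⟨K1, K2, hK⟩ := dens_le hs hb hσ D p ht0 ht1
  set μ := (volume.restrict (Ioo (0 : ℝ) 1)).prod (volume.restrict (Ioi (0 : ℝ))) with hμ
  have hdom := domF_int hs hb ht0 ht ht1 K1 K2
  have hae : ∀ᵐ z ∂μ, z.1 ∈ Ioo (0 : ℝ) 1 ∧ z.2 ∈ Ioi (0 : ℝ) := by
    rw [hμ, Measure.prod_restrict]
    exact ae_restrict_mem (measurableSet_Ioo.prod measurableSet_Ioi)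
  have hbound : ∀ m : ℕ, 1 ≤ m → ∀ᵐ z ∂μ, ‖dens s b D p m z‖ ≤ domF s b t K1 K2 z := by
    intro m hm
    filter_upwards [hae] with z hz
    have h := hK m hm z.1 hz.1 z.2 hz.2
    rw [Real.norm_of_nonneg h.1]
    exact h.2
  have hintm : ∀ m : ℕ, 1 ≤ m → Integrable (dens s b D p m) μ := fun m hm =>
    Integrable.mono' hdom (dens_measurable s b D p m).aestronglyMeasurable (hbound m hm)
  have hlim : ∀ᵐ z ∂μ, Tendsto (fun m : ℕ => dens s b D p m z) atTop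
      (𝓝 (cst s * (alp s b z.1 * bet b z.2 * RR D p z.1 z.2 ^ 2))) := by
    filter_upwards [hae] with z hz
    have h1 := ((halm z.1 hz.1).mul (hbem z.2 hz.2)).mul
      (((rD_tendsto (s := s) D p hz.1 hz.2).norm).pow 2)
    have h2 : ca * alp s b z.1 * (cb * bet b z.2) * ‖((RR D p z.1 z.2 : ℝ) : ℂ)‖ ^ 2
        = cst s * (alp s b z.1 * bet b z.2 * RR D p z.1 z.2 ^ 2) := by
      rw [Complex.norm_real, Real.norm_eq_abs, sq_abs, ← hcc]
      ring
    rw [h2] at h1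
    exact h1
  have hI := tendsto_integral_filter_of_dominated_convergence (μ := μ) (domF s b t K1 K2)
    (Filter.Eventually.of_forall fun m => (dens_measurable s b D p m).aestronglyMeasurable)
    (by filter_upwards [eventually_ge_atTop 1] with m hm using hbound m hm) hdom hlim
  have hval : ∫ z, cst s * (alp s b z.1 * bet b z.2 * RR D p z.1 z.2 ^ 2) ∂μ
      = Es s b * HSn s b D p := by
    have hLint : Integrable (fun z : ℝ × ℝ => cst s * (alp s b z.1 * bet b z.2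
        * RR D p z.1 z.2 ^ 2)) μ := by
      refine Integrable.mono' hdom
        (aestronglyMeasurable_of_tendsto_ae atTop
          (fun m => (dens_measurable s b D p m).aestronglyMeasurable) hlim) ?_
      filter_upwards [hlim, hae] with z hz hz2
      refine le_of_tendsto hz.norm ?_
      filter_upwards [eventually_ge_atTop 1] with m hm
      have h := hK m hm z.1 hz2.1 z.2 hz2.2
      rw [Real.norm_of_nonneg h.1]
      exact h.2
    rw [hμ] at hLint ⊢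
    rw [integral_prod _ hLint]
    have hB := B0_pos hs hσ
    unfold Es HSn
    simp only [integral_const_mul]
    field_simp
  rw [hval] at hI
  have hev := hI.eventually (Iio_mem_nhds (show Es s b * HSn s b D p
    < Es s b * HSn s b D p + δ by linarith))
  filter_upwards [hev, eventually_ge_atTop 1] with m hm1 hm J
  refine le_trans ?_ (le_of_lt hm1)
  have h0 : (0 : ℝ) < m := by exact_mod_cast hm
  have hpos : (0 : ℝ) < (m : ℝ) ^ (b + 1) := by positivity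
  rw [hμ, integral_prod _ (hintm m hm)]
  have hf := sum_le_double hm (fun i j => aD s b m i / (m : ℝ) ^ (b + 1)
      * (bD s b m j * (m : ℝ) ^ (b + 1)) * ‖rD s D p m i j‖ ^ 2) (fun i hi j => by
        have h1 := aD_nonneg hs hb hσ hm hi
        have h2 := bD_nonneg hs hb hσ hm j
        positivity) (fun i hi => ?_) J
  · refine le_trans (le_of_eq ?_) hf
    congr 1
    refine Finset.sum_congr rfl fun j _ => Finset.sum_congr rfl fun i _ => ?_
    field_simp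
  · -- integrability in `y` for a fixed cell
    have hxm := mid_mem hm hi
    have hfl : ⌊(m : ℝ) * (((i : ℝ) + 1 / 2) / m)⌋₊ = i := by
      refine floor_cell hm i ⟨?_, ?_⟩
      · gcongr; linarith
      · gcongr; norm_num
    have hd2 : IntegrableOn (fun y : ℝ => domF s b t K1 K2 (((i : ℝ) + 1 / 2) / m, y)) (Ioi 0) :=
      (((integrable_domy hb ht0 ht1.le).const_mul (domA s b (((i : ℝ) + 1 / 2) / m)
        * (((i : ℝ) + 1 / 2) / m) ^ (-t))).const_mul K1).add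
        (((integrable_tail hb).const_mul (domA s b (((i : ℝ) + 1 / 2) / m))).const_mul K2)
    refine Integrable.mono' hd2 (measurable_step m (fun j => aD s b m i / (m : ℝ) ^ (b + 1)
      * (bD s b m j * (m : ℝ) ^ (b + 1)) * ‖rD s D p m i j‖ ^ 2)).aestronglyMeasurable ?_
    filter_upwards [ae_restrict_mem measurableSet_Ioi] with y hy
    have h := hK m hm _ hxm y hy
    unfold dens alm bem at h
    simp only [hfl] at h
    rw [Real.norm_of_nonneg h.1]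
    exact h.2

end Pool.Agent.Helper24.HR2
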