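import Mathlib
import Pool.Agent.Helper24.HR2.Defs
import Pool.Agent.Helper24.HR2.Asy

/-!
MP_16b0ee, project HR2, module 6c: limits of the mixed discrete sums by dominated convergence.
The sums over `j` (over `i < m`) are integrals of step functions over `(0, ∞)` (over `(0, 1)`).
-/

set_option autoImplicit false

open MeasureTheory Set Metric Filter Topology
open scoped Real ComplexConjugate

namespace Pool.Agent.Helper24.HR2

open Pool.Agent.Helper22.Half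
open Pool.Agent.Helper22.Marshall (coeff SepHol LogPhi dcoeff GLe)
open Pool.Agent.Helper39.Area (Ext phi)
open Pool.Agent.Helper39.MH

namespace LimX

/-! step functions -/

theorem floor_meas (m : ℕ) : Measurable (fun y : ℝ => ⌊(m : ℝ) * y⌋₊) :=
  Nat.measurable_floor.comp (measurable_const_mul _)

theorem step_meas (m : ℕ) (f : ℕ → ℂ) : Measurable (fun x : ℝ => f ⌊(m : ℝ) * x⌋₊) :=
  measurable_from_nat.comp (floor_meas m)

theorem map_floor {m : ℕ} (hm : 1 ≤ m) :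
    Measure.map (fun y : ℝ => ⌊(m : ℝ) * y⌋₊) (volume.restrict (Ioi (0 : ℝ)))
      = ENNReal.ofReal (1 / m) • Measure.count := by
  have hm0 : (0 : ℝ) < m := by exact_mod_cast hm
  apply Measure.ext_of_singleton
  intro j
  rw [Measure.map_apply (floor_meas m) (measurableSet_singleton j),
    Measure.restrict_apply ((floor_meas m) (measurableSet_singleton j)),
    Measure.smul_apply, Measure.count_singleton, smul_eq_mul, mul_one]
  rcases Nat.eq_zero_or_pos j with hj | hj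
  · have h : (fun y : ℝ => ⌊(m : ℝ) * y⌋₊) ⁻¹' {j} ∩ Ioi 0 = Ioo 0 (1 / (m : ℝ)) := by
      ext y
      simp only [mem_inter_iff, mem_preimage, mem_singleton_iff, mem_Ioi, mem_Ioo]
      rw [hj, Nat.floor_eq_zero, lt_div_iff₀ hm0, mul_comm y]
      tauto
    rw [h, Real.volume_Ioo, sub_zero]
  · have h : (fun y : ℝ => ⌊(m : ℝ) * y⌋₊) ⁻¹' {j} ∩ Ioi 0
        = Ico ((j : ℝ) / m) (((j : ℝ) + 1) / m) := by
      ext y
      simp only [mem_inter_iff, mem_preimage, mem_singleton_iff, mem_Ioi, mem_Ico]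
      rw [Nat.floor_eq_iff' (by omega), lt_div_iff₀ hm0, div_le_iff₀ hm0, mul_comm y]
      constructor
      · rintro ⟨h1, _⟩
        exact h1
      · intro h1
        refine ⟨h1, ?_⟩
        have hj0 : (0 : ℝ) < j := by exact_mod_cast hj
        by_contra h2
        have h3 : (m : ℝ) * y ≤ 0 := mul_nonpos_of_nonneg_of_nonpos hm0.le (not_lt.mp h2)
        linarith [h1.1]
    rw [h, Real.volume_Ico]
    congr 1
    rw [← sub_div, add_sub_cancel_left]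

theorem step_int {m : ℕ} (hm : 1 ≤ m) (f : ℕ → ℂ) :
    IntegrableOn (fun y : ℝ => f ⌊(m : ℝ) * y⌋₊) (Ioi 0) ↔ Summable (fun j => ‖f j‖) := by
  have hm0 : (0 : ℝ) < m := by exact_mod_cast hm
  have h1 : Integrable f (Measure.map (fun y : ℝ => ⌊(m : ℝ) * y⌋₊)
      (volume.restrict (Ioi (0 : ℝ)))) ↔
      Integrable (f ∘ (fun y : ℝ => ⌊(m : ℝ) * y⌋₊)) (volume.restrict (Ioi (0 : ℝ))) :=
    integrable_map_measure (measurable_from_nat.aestronglyMeasurable) (floor_meas m).aemeasurable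
  rw [IntegrableOn, ← integrable_count_iff]
  have h2 : (fun y : ℝ => f ⌊(m : ℝ) * y⌋₊) = f ∘ (fun y : ℝ => ⌊(m : ℝ) * y⌋₊) := rfl
  rw [h2, ← h1, map_floor hm]
  apply integrable_smul_measure
  · simp only [ne_eq, ENNReal.ofReal_eq_zero, not_le]
    positivity
  · exact ENNReal.ofReal_ne_top

theorem step_eq {m : ℕ} (hm : 1 ≤ m) (f : ℕ → ℂ) (hf : Summable (fun j => ‖f j‖)) :
    ∫ y in Ioi (0 : ℝ), f ⌊(m : ℝ) * y⌋₊ = (1 / (m : ℂ)) * ∑' j, f j := by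
  have hm0 : (0 : ℝ) < m := by exact_mod_cast hm
  have h1 : ∫ k, f k ∂(Measure.map (fun y : ℝ => ⌊(m : ℝ) * y⌋₊)
      (volume.restrict (Ioi (0 : ℝ)))) = ∫ y in Ioi (0 : ℝ), f ⌊(m : ℝ) * y⌋₊ :=
    integral_map (floor_meas m).aemeasurable (measurable_from_nat.aestronglyMeasurable)
  rw [← h1, map_floor hm, integral_smul_measure, ENNReal.toReal_ofReal (by positivity),
    integral_countable (integrable_count_iff.mpr hf)]
  simp only [count_real_singleton, one_smul]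
  rw [Complex.real_smul]
  push_cast
  rfl

theorem step_fin {m : ℕ} (hm : 1 ≤ m) (f : ℕ → ℂ) :
    ∫ x in Ioo (0 : ℝ) 1, f ⌊(m : ℝ) * x⌋₊ = (1 / (m : ℂ)) * ∑ i ∈ Finset.range m, f i := by
  have hm0 : (0 : ℝ) < m := by exact_mod_cast hm
  have hsum : Summable (fun j => ‖if j < m then f j else 0‖) := by
    apply summable_of_ne_finset_zero (s := Finset.range m)
    intro j hj
    rw [Finset.mem_range] at hj
    rw [if_neg hj, norm_zero]
  have h1 := step_eq hm (fun j => if j < m then f j else 0) hsum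
  rw [tsum_eq_sum (s := Finset.range m)] at h1
  · have h2 : ∑ i ∈ Finset.range m, (if i < m then f i else 0) = ∑ i ∈ Finset.range m, f i := by
      apply Finset.sum_congr rfl
      intro i hi
      rw [Finset.mem_range] at hi
      rw [if_pos hi]
    rw [h2] at h1
    rw [← h1]
    have h3 : ∀ y ∈ Ioi (0 : ℝ), (if ⌊(m : ℝ) * y⌋₊ < m then f ⌊(m : ℝ) * y⌋₊ else 0)
        = (Iio (1 : ℝ)).indicator (fun y => f ⌊(m : ℝ) * y⌋₊) y := by
      intro y hy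
      have h4 : ⌊(m : ℝ) * y⌋₊ < m ↔ y < 1 := by
        rw [Nat.floor_lt' (by omega)]
        constructor
        · intro h
          by_contra h5
          nlinarith
        · intro h
          nlinarith
      by_cases h6 : y < 1
      · rw [if_pos (h4.mpr h6), indicator_of_mem (by exact h6)]
      · rw [if_neg (fun h => h6 (h4.mp h)), indicator_of_notMem (by exact h6)]
    rw [setIntegral_congr_fun measurableSet_Ioi h3, setIntegral_indicator measurableSet_Iio,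
      Ioi_inter_Iio]
  · intro j hj
    rw [Finset.mem_range] at hj
    rw [if_neg hj]

/-! the kernel -/

/-- the scaled inner sums -/
noncomputable def psi (s : ℂ) (b : ℝ) (D : ℕ) (p : ℕ → ℕ → ℝ) (l m i : ℕ) : ℂ :=
  (((m : ℝ) ^ b : ℝ) : ℂ) * ∑' j, (bD s b m j : ℂ) * (YD m j : ℂ) ^ l * rD s D p m i j

theorem YD_nonneg (m j : ℕ) : 0 ≤ YD m j := by
  unfold YD
  positivity

theorem YD_le_one (m j : ℕ) : YD m j ≤ 1 := by
  unfold YD
  rw [div_le_one (by positivity)]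
  have : (0 : ℝ) ≤ j := Nat.cast_nonneg j
  linarith

theorem YD_floor_le {m : ℕ} (hm : 1 ≤ m) {y : ℝ} (hy : 0 < y) :
    YD m ⌊(m : ℝ) * y⌋₊ ≤ 1 / (1 + y) := by
  have hm0 : (0 : ℝ) < m := by exact_mod_cast hm
  have h := lt_floor_mul (m := m) (x := y)
  have h0 : (0 : ℝ) ≤ (⌊(m : ℝ) * y⌋₊ : ℝ) := Nat.cast_nonneg _
  unfold YD
  rw [div_le_div_iff₀ (by linarith) (by linarith)]
  nlinarith

theorem YD_tendsto {y : ℝ} (hy : 0 < y) :
    Tendsto (fun m : ℕ => YD m ⌊(m : ℝ) * y⌋₊) atTop (𝓝 (1 / (1 + y))) := by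
  have h1 : Tendsto (fun m : ℕ => 1 + ((⌊(m : ℝ) * y⌋₊ : ℝ) + 1) / m) atTop (𝓝 (1 + y)) :=
    tendsto_const_nhds.add (tendsto_floor_one hy.le)
  have h2 := h1.inv₀ (by positivity)
  rw [← one_div] at h2
  refine h2.congr' ?_
  filter_upwards [eventually_gt_atTop 0] with m hm
  have hm0 : (0 : ℝ) < m := by exact_mod_cast hm
  unfold YD
  rw [← inv_div]
  field_simp
  ring

theorem rD_le {s : ℂ} (hs : ‖s‖ < 1) (D : ℕ) (p : ℕ → ℕ → ℝ) : ∃ C : ℝ, 0 ≤ C ∧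
    ∀ m : ℕ, 1 ≤ m → ∀ x ∈ Ioo (0 : ℝ) 1, ∀ y : ℝ, 0 < y →
      ‖rD s D p m ⌊(m : ℝ) * x⌋₊ ⌊(m : ℝ) * y⌋₊‖ ≤ C * (1 / (x + y + 1 / m) + 1 / (1 + y)) := by
  obtain ⟨C1, hC1, h1⟩ := kD_le hs
  choose CX hCX hX using XD_le
  set C2 : ℝ := ∑ n ∈ Finset.range D, ∑ l ∈ Finset.range D, |p n l| * CX n with hC2
  have hC20 : 0 ≤ C2 := Finset.sum_nonneg fun n _ => Finset.sum_nonneg fun l _ =>
    mul_nonneg (abs_nonneg _) (hCX n)
  refine ⟨C1 + C2, by positivity, fun m hm x hx y hy => ?_⟩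
  have hm0 : (0 : ℝ) < m := by exact_mod_cast hm
  have hy1 : (0 : ℝ) < 1 / (1 + y) := by positivity
  have hx0 := hx.1
  have hxy : (0 : ℝ) < 1 / (x + y + 1 / m) := by positivity
  have hY0 := YD_nonneg m ⌊(m : ℝ) * y⌋₊
  have hY1 := YD_le_one m ⌊(m : ℝ) * y⌋₊
  have hY2 := YD_floor_le hm hy
  have hk := h1 m hm x y hx0 hy
  have hp : ‖∑ n ∈ Finset.range D, ∑ l ∈ Finset.range D,
      (p n l : ℂ) * XD s m n ⌊(m : ℝ) * x⌋₊ * (YD m ⌊(m : ℝ) * y⌋₊ : ℂ) ^ (l + 1)‖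
      ≤ C2 * (1 / (1 + y)) := by
    rw [hC2, Finset.sum_mul]
    refine (norm_sum_le _ _).trans (Finset.sum_le_sum fun n _ => ?_)
    rw [Finset.sum_mul]
    refine (norm_sum_le _ _).trans (Finset.sum_le_sum fun l _ => ?_)
    rw [norm_mul, norm_mul, norm_pow, Complex.norm_real, Complex.norm_real, Real.norm_eq_abs,
      Real.norm_eq_abs, abs_of_nonneg hY0]
    have hx1 := hX n s hs m hm _ (floor_lt_m hm hx)
    have hpow : YD m ⌊(m : ℝ) * y⌋₊ ^ (l + 1) ≤ 1 / (1 + y) := by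
      rw [pow_succ]
      have h3 : YD m ⌊(m : ℝ) * y⌋₊ ^ l ≤ 1 := pow_le_one₀ hY0 hY1
      have h4 : 0 ≤ YD m ⌊(m : ℝ) * y⌋₊ ^ l := pow_nonneg hY0 l
      nlinarith
    have h5 : 0 ≤ YD m ⌊(m : ℝ) * y⌋₊ ^ (l + 1) := pow_nonneg hY0 _
    exact mul_le_mul (mul_le_mul_of_nonneg_left hx1 (abs_nonneg _)) hpow h5
      (mul_nonneg (abs_nonneg _) (hCX n))
  unfold rD
  refine (norm_sub_le _ _).trans ?_
  have e : C1 / (x + y + 1 / m) = C1 * (1 / (x + y + 1 / m)) := by ring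
  rw [e] at hk
  nlinarith [mul_nonneg hC1 hy1.le, mul_nonneg hC20 hxy.le]

theorem rD_tendsto {s : ℂ} (D : ℕ) (p : ℕ → ℕ → ℝ) {x y : ℝ} (hx : x ∈ Ioo (0 : ℝ) 1)
    (hy : 0 < y) : Tendsto (fun m : ℕ => rD s D p m ⌊(m : ℝ) * x⌋₊ ⌊(m : ℝ) * y⌋₊) atTop
      (𝓝 ((RR D p x y : ℝ) : ℂ)) := by
  have h1 := kD_tendsto (s := s) hx.1 hy
  have h2 : Tendsto (fun m : ℕ => ∑ n ∈ Finset.range D, ∑ l ∈ Finset.range D,
      (p n l : ℂ) * XD s m n ⌊(m : ℝ) * x⌋₊ * (YD m ⌊(m : ℝ) * y⌋₊ : ℂ) ^ (l + 1)) atTop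
      (𝓝 (∑ n ∈ Finset.range D, ∑ l ∈ Finset.range D,
        (p n l : ℂ) * (((1 - x) ^ n : ℝ) : ℂ) * ((1 / (1 + y) : ℝ) : ℂ) ^ (l + 1))) := by
    refine tendsto_finsetSum _ fun n _ => tendsto_finsetSum _ fun l _ => ?_
    refine ((tendsto_const_nhds.mul (XD_tendsto n hx))).mul ?_
    exact ((Complex.continuous_ofReal.tendsto _).comp (YD_tendsto hy)).pow (l + 1)
  have h3 := h1.sub h2
  have e : ((1 / (x + y) : ℝ) : ℂ) - (∑ n ∈ Finset.range D, ∑ l ∈ Finset.range D,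
        (p n l : ℂ) * (((1 - x) ^ n : ℝ) : ℂ) * ((1 / (1 + y) : ℝ) : ℂ) ^ (l + 1))
      = ((RR D p x y : ℝ) : ℂ) := by
    unfold RR kp
    push_cast
    rfl
  rw [e] at h3
  exact h3

theorem term_bound {s : ℂ} (hs : ‖s‖ < 1) {b : ℝ} (hb : 0 < b) (hσ : 0 < b + 1 - 2 * s.re)
    (D : ℕ) (p : ℕ → ℕ → ℝ) (l : ℕ) : ∃ C : ℝ, 0 ≤ C ∧
    ∀ m : ℕ, 1 ≤ m → ∀ x ∈ Ioo (0 : ℝ) 1, ∀ y : ℝ, 0 < y →
      ‖((bem s b m y : ℝ) : ℂ) * (YD m ⌊(m : ℝ) * y⌋₊ : ℂ) ^ l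
        * rD s D p m ⌊(m : ℝ) * x⌋₊ ⌊(m : ℝ) * y⌋₊‖ ≤ C * (y + 1) ^ (-b - 2) := by
  obtain ⟨C0, hC0, h0⟩ := bem_le hs hb hσ
  obtain ⟨C1, hC1, h1⟩ := rD_le hs D p
  refine ⟨C0 * C1 * 2, by positivity, fun m hm x hx y hy => ?_⟩
  have hm0 : (0 : ℝ) < m := by exact_mod_cast hm
  have hm1 : (1 : ℝ) / m ≤ 1 := by
    rw [div_le_one hm0]
    exact_mod_cast hm
  have hY0 := YD_nonneg m ⌊(m : ℝ) * y⌋₊
  have hY1 := YD_le_one m ⌊(m : ℝ) * y⌋₊
  obtain ⟨g0, g1⟩ := h0 m hm y hy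
  have g2 := h1 m hm x hx y hy
  have hx0 := hx.1
  rw [norm_mul, norm_mul, norm_pow, Complex.norm_real, Complex.norm_real, Real.norm_eq_abs,
    Real.norm_eq_abs, abs_of_nonneg hY0, abs_of_nonneg g0]
  have hpow : YD m ⌊(m : ℝ) * y⌋₊ ^ l ≤ 1 := pow_le_one₀ hY0 hY1
  have hW : 0 < (1 + y) ^ (-b - 2) := Real.rpow_pos_of_pos (by linarith) _
  have q1 : (y + 1 / m) * (1 / (x + y + 1 / m)) ≤ 1 := by
    rw [mul_one_div, div_le_one (by positivity)]
    linarith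
  have q2 : (y + 1 / m) * (1 / (1 + y)) ≤ 1 := by
    rw [mul_one_div, div_le_one (by positivity)]
    linarith
  have hz : 0 ≤ 1 / (x + y + 1 / m) + 1 / (1 + y) := by positivity
  calc bem s b m y * YD m ⌊(m : ℝ) * y⌋₊ ^ l
        * ‖rD s D p m ⌊(m : ℝ) * x⌋₊ ⌊(m : ℝ) * y⌋₊‖
      ≤ (C0 * ((y + 1 / m) * (1 + y) ^ (-b - 2))) * 1
          * (C1 * (1 / (x + y + 1 / m) + 1 / (1 + y))) := by gcongr
    _ = C0 * C1 * (1 + y) ^ (-b - 2) * ((y + 1 / m) * (1 / (x + y + 1 / m))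
          + (y + 1 / m) * (1 / (1 + y))) := by ring
    _ ≤ C0 * C1 * (1 + y) ^ (-b - 2) * (1 + 1) := by gcongr
    _ = _ := by
      rw [add_comm 1 y]
      ring

theorem bound_int {b : ℝ} (hb : 0 < b) : IntegrableOn (fun y : ℝ => (y + 1) ^ (-b - 2)) (Ioi 0) :=
  integrableOn_add_rpow_Ioi_of_lt (by linarith) (by norm_num)

theorem F_int {s : ℂ} (hs : ‖s‖ < 1) {b : ℝ} (hb : 0 < b) (hσ : 0 < b + 1 - 2 * s.re)
    (D : ℕ) (p : ℕ → ℕ → ℝ) (l : ℕ) {m : ℕ} (hm : 1 ≤ m) {x : ℝ} (hx : x ∈ Ioo (0 : ℝ) 1) :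
    IntegrableOn (fun y : ℝ => ((bem s b m y : ℝ) : ℂ) * (YD m ⌊(m : ℝ) * y⌋₊ : ℂ) ^ l
        * rD s D p m ⌊(m : ℝ) * x⌋₊ ⌊(m : ℝ) * y⌋₊) (Ioi 0) := by
  obtain ⟨C, hC, h⟩ := term_bound hs hb hσ D p l
  refine Integrable.mono' ((bound_int hb).const_mul C) ?_ ?_
  · exact (step_meas m (fun j : ℕ => ((bD s b m j * (m : ℝ) ^ (b + 1) : ℝ) : ℂ)
        * (YD m j : ℂ) ^ l * rD s D p m ⌊(m : ℝ) * x⌋₊ j)).aestronglyMeasurable
  · filter_upwards [ae_restrict_mem measurableSet_Ioi] with y hy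
    exact h m hm x hx y hy

theorem summable_floor {s : ℂ} (hs : ‖s‖ < 1) {b : ℝ} (hb : 0 < b) (hσ : 0 < b + 1 - 2 * s.re)
    (D : ℕ) (p : ℕ → ℕ → ℝ) (l : ℕ) {m : ℕ} (hm : 1 ≤ m) {x : ℝ} (hx : x ∈ Ioo (0 : ℝ) 1) :
    Summable (fun j => ‖((bD s b m j * (m : ℝ) ^ (b + 1) : ℝ) : ℂ)
        * (YD m j : ℂ) ^ l * rD s D p m ⌊(m : ℝ) * x⌋₊ j‖) :=
  (step_int hm _).mp (F_int hs hb hσ D p l hm hx)

theorem summable_term {s : ℂ} (hs : ‖s‖ < 1) {b : ℝ} (hb : 0 < b) (hσ : 0 < b + 1 - 2 * s.re)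
    (D : ℕ) (p : ℕ → ℕ → ℝ) (l : ℕ) {m i : ℕ} (hi : i < m) :
    Summable (fun j => (bD s b m j : ℂ) * (YD m j : ℂ) ^ l * rD s D p m i j) := by
  have hm : 1 ≤ m := by omega
  have hm0 : (0 : ℝ) < m := by exact_mod_cast hm
  have hx : ((i : ℝ) + 1 / 2) / m ∈ Ioo (0 : ℝ) 1 := by
    constructor
    · positivity
    · rw [div_lt_one hm0]
      have : (i : ℝ) + 1 ≤ m := by exact_mod_cast hi
      linarith
  have hf : ⌊(m : ℝ) * (((i : ℝ) + 1 / 2) / m)⌋₊ = i := by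
    rw [mul_div_cancel₀ _ hm0.ne', Nat.floor_eq_iff (by positivity)]
    constructor <;> linarith
  have h := (summable_floor hs hb hσ D p l hm hx).of_norm
  rw [hf] at h
  have hc : (((m : ℝ) ^ (b + 1) : ℝ) : ℂ) ≠ 0 := by
    exact_mod_cast (Real.rpow_pos_of_pos hm0 _).ne'
  have h2 := h.mul_left (((m : ℝ) ^ (b + 1) : ℝ) : ℂ)⁻¹
  refine h2.congr fun j => ?_
  push_cast
  field_simp

theorem psi_eq {s : ℂ} (hs : ‖s‖ < 1) {b : ℝ} (hb : 0 < b) (hσ : 0 < b + 1 - 2 * s.re)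
    (D : ℕ) (p : ℕ → ℕ → ℝ) (l : ℕ) {m : ℕ} (hm : 1 ≤ m) {x : ℝ} (hx : x ∈ Ioo (0 : ℝ) 1) :
    psi s b D p l m ⌊(m : ℝ) * x⌋₊
      = ∫ y in Ioi (0 : ℝ), ((bem s b m y : ℝ) : ℂ) * (YD m ⌊(m : ℝ) * y⌋₊ : ℂ) ^ l
        * rD s D p m ⌊(m : ℝ) * x⌋₊ ⌊(m : ℝ) * y⌋₊ := by
  have hm0 : (0 : ℝ) < m := by exact_mod_cast hm
  have hmc : (m : ℂ) ≠ 0 := by
    have : m ≠ 0 := by omega
    exact_mod_cast this
  have h := step_eq hm _ (summable_floor hs hb hσ D p l hm hx)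
  unfold bem
  rw [h]
  have e : ∀ j, ((bD s b m j * (m : ℝ) ^ (b + 1) : ℝ) : ℂ)
        * (YD m j : ℂ) ^ l * rD s D p m ⌊(m : ℝ) * x⌋₊ j
      = (m : ℂ) * (((m : ℝ) ^ b : ℝ) : ℂ) * ((bD s b m j : ℂ) * (YD m j : ℂ) ^ l
        * rD s D p m ⌊(m : ℝ) * x⌋₊ j) := by
    intro j
    rw [Real.rpow_add hm0, Real.rpow_one]
    push_cast
    ring
  rw [tsum_congr e, tsum_mul_left]
  unfold psi
  field_simp

theorem psi_le {s : ℂ} (hs : ‖s‖ < 1) {b : ℝ} (hb : 0 < b) (hσ : 0 < b + 1 - 2 * s.re)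
    (D : ℕ) (p : ℕ → ℕ → ℝ) (l : ℕ) : ∃ C : ℝ, 0 ≤ C ∧
    ∀ m : ℕ, 1 ≤ m → ∀ x ∈ Ioo (0 : ℝ) 1, ‖psi s b D p l m ⌊(m : ℝ) * x⌋₊‖ ≤ C := by
  obtain ⟨C, hC, h⟩ := term_bound hs hb hσ D p l
  have h0 : 0 ≤ ∫ y in Ioi (0 : ℝ), C * (y + 1) ^ (-b - 2) := by
    apply setIntegral_nonneg measurableSet_Ioi
    intro y hy
    have : 0 ≤ (y + 1) ^ (-b - 2) := Real.rpow_nonneg (by linarith [mem_Ioi.mp hy]) _
    positivity
  refine ⟨_, h0, fun m hm x hx => ?_⟩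
  rw [psi_eq hs hb hσ D p l hm hx]
  apply norm_integral_le_of_norm_le ((bound_int hb).const_mul C)
  filter_upwards [ae_restrict_mem measurableSet_Ioi] with y hy
  exact h m hm x hx y hy

theorem psi_tendsto {s : ℂ} (hs : ‖s‖ < 1) {b : ℝ} (hb : 0 < b)
    (hσ : 0 < b + 1 - 2 * s.re) (D : ℕ) (p : ℕ → ℕ → ℝ) (l : ℕ) {cb : ℝ}
    (hcb : ∀ y : ℝ, 0 < y → Tendsto (fun m : ℕ => bem s b m y) atTop (𝓝 (cb * bet b y)))
    {x : ℝ} (hx : x ∈ Ioo (0 : ℝ) 1) :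
    Tendsto (fun m : ℕ => psi s b D p l m ⌊(m : ℝ) * x⌋₊) atTop
      (𝓝 ((cb * rl b D p l x : ℝ) : ℂ)) := by
  obtain ⟨C, hC, h⟩ := term_bound hs hb hσ D p l
  have key : Tendsto (fun m : ℕ => ∫ y in Ioi (0 : ℝ), ((bem s b m y : ℝ) : ℂ)
        * (YD m ⌊(m : ℝ) * y⌋₊ : ℂ) ^ l * rD s D p m ⌊(m : ℝ) * x⌋₊ ⌊(m : ℝ) * y⌋₊) atTop
      (𝓝 (∫ y in Ioi (0 : ℝ), ((cb * bet b y : ℝ) : ℂ) * ((1 / (1 + y) : ℝ) : ℂ) ^ l
        * ((RR D p x y : ℝ) : ℂ))) := by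
    apply tendsto_integral_filter_of_dominated_convergence (fun y => C * (y + 1) ^ (-b - 2))
    · filter_upwards [eventually_ge_atTop 1] with m hm
      exact (F_int hs hb hσ D p l hm hx).aestronglyMeasurable
    · filter_upwards [eventually_ge_atTop 1] with m hm
      filter_upwards [ae_restrict_mem measurableSet_Ioi] with y hy
      exact h m hm x hx y hy
    · exact (bound_int hb).const_mul C
    · filter_upwards [ae_restrict_mem measurableSet_Ioi] with y hy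
      have hy0 : 0 < y := hy
      exact (((Complex.continuous_ofReal.tendsto _).comp (hcb y hy0)).mul
        (((Complex.continuous_ofReal.tendsto _).comp (YD_tendsto hy0)).pow l)).mul
        (rD_tendsto D p hx hy0)
  have e : ∫ y in Ioi (0 : ℝ), ((cb * bet b y : ℝ) : ℂ) * ((1 / (1 + y) : ℝ) : ℂ) ^ l
        * ((RR D p x y : ℝ) : ℂ) = ((cb * rl b D p l x : ℝ) : ℂ) := by
    unfold rl
    rw [← integral_const_mul, ← integral_complex_ofReal]
    congr 1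
    funext y
    push_cast
    ring
  rw [e] at key
  refine key.congr' ?_
  filter_upwards [eventually_ge_atTop 1] with m hm
  exact (psi_eq hs hb hσ D p l hm hx).symm

/-! integrability on `(0,1)` -/

theorem beta_int {α β : ℝ} (hα : -1 < α) (hβ : -1 < β) :
    IntegrableOn (fun x : ℝ => (1 - x) ^ α * x ^ β) (Ioo 0 1) := by
  have h := Complex.betaIntegral_convergent (u := ((β + 1 : ℝ) : ℂ)) (v := ((α + 1 : ℝ) : ℂ))
    (by rw [Complex.ofReal_re]; linarith) (by rw [Complex.ofReal_re]; linarith)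
  rw [intervalIntegrable_iff_integrableOn_Ioo_of_le (by norm_num)] at h
  have h2 : IntegrableOn (fun x : ℝ => ‖(x : ℂ) ^ (((β + 1 : ℝ) : ℂ) - 1)
      * (1 - (x : ℂ)) ^ (((α + 1 : ℝ) : ℂ) - 1)‖) (Ioo 0 1) := h.norm
  refine h2.congr_fun (fun x hx => ?_) measurableSet_Ioo
  have hx0 : 0 < x := hx.1
  have hx1 : 0 < 1 - x := by linarith [hx.2]
  have e : (1 - (x : ℂ)) = ((1 - x : ℝ) : ℂ) := by push_cast; rfl
  simp only [norm_mul]
  rw [e, Complex.norm_cpow_eq_rpow_re_of_pos hx0, Complex.norm_cpow_eq_rpow_re_of_pos hx1]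
  simp only [Complex.sub_re, Complex.ofReal_re, Complex.one_re, add_sub_cancel_right]
  ring

theorem alm_bound_int {s : ℂ} (hs : ‖s‖ < 1) {b : ℝ} (hσ : 0 < b + 1 - 2 * s.re) :
    IntegrableOn (fun x : ℝ => ((1 - x) ^ (2 * s.re + 1) + 1) * (x ^ (b - 2 * s.re) + 1))
      (Ioo 0 1) := by
  obtain ⟨hr1, hr2⟩ := re_bounds hs
  have h1 := beta_int (α := 2 * s.re + 1) (β := b - 2 * s.re) (by linarith) (by linarith)
  have h2 := beta_int (α := 2 * s.re + 1) (β := 0) (by linarith) (by norm_num)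
  have h3 := beta_int (α := 0) (β := b - 2 * s.re) (by norm_num) (by linarith)
  have h4 := beta_int (α := 0) (β := 0) (by norm_num) (by norm_num)
  have h5 := ((h1.add h2).add h3).add h4
  refine h5.congr_fun (fun x _ => ?_) measurableSet_Ioo
  simp only [Pi.add_apply, Real.rpow_zero]
  ring

theorem B0_pos {s : ℂ} (hs : ‖s‖ < 1) {b : ℝ} (hb : 0 < b) (hσ : 0 < b + 1 - 2 * s.re) :
    0 < B0 s b := by
  obtain ⟨hr1, hr2⟩ := re_bounds hs
  rw [B0_eq hs hσ]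
  have g1 := Real.Gamma_pos_of_pos (by linarith : 0 < 2 + 2 * s.re)
  have g2 := Real.Gamma_pos_of_pos hσ
  have g3 := Real.Gamma_pos_of_pos (by linarith : 0 < b + 3)
  positivity

end LimX

open LimX

theorem lim_x {s : ℂ} (hs0 : s ≠ 0) (hs : ‖s‖ < 1) {b : ℝ} (hb : 0 < b)
    (hσ : 0 < b + 1 - 2 * s.re) (D : ℕ) (p : ℕ → ℕ → ℝ) (l n : ℕ) :
    (∀ m i, i < m → Summable (fun j => (bD s b m j : ℂ) * (YD m j : ℂ) ^ l * rD s D p m i j)) ∧
    Tendsto (fun m : ℕ => (1 / (m : ℂ) ^ 2) * ∑ i ∈ Finset.range m,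
      (aD s b m i : ℂ) * conj (XD s m n i)
        * ∑' j, (bD s b m j : ℂ) * (YD m j : ℂ) ^ l * rD s D p m i j) atTop
      (𝓝 ((Es s b * xln s b D p l n : ℝ) : ℂ)) := by
  refine ⟨fun m i hi => summable_term hs hb hσ D p l hi, ?_⟩
  obtain ⟨ca, cb, hca, hcb, hcc, ha, hbt, _⟩ := asy_consts hs0 hs hb hσ
  obtain ⟨Ca, hCa, hal⟩ := alm_le hs hb hσ
  obtain ⟨Cp, hCp, hpl⟩ := psi_le hs hb hσ D p l
  obtain ⟨Cx, hCx, hxl⟩ := XD_le n
  have key : Tendsto (fun m : ℕ => ∫ x in Ioo (0 : ℝ) 1, ((alm s b m x : ℝ) : ℂ)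
        * conj (XD s m n ⌊(m : ℝ) * x⌋₊) * psi s b D p l m ⌊(m : ℝ) * x⌋₊) atTop
      (𝓝 (∫ x in Ioo (0 : ℝ) 1, ((ca * alp s b x : ℝ) : ℂ) * conj ((((1 - x) ^ n : ℝ)) : ℂ)
        * ((cb * rl b D p l x : ℝ) : ℂ))) := by
    apply tendsto_integral_filter_of_dominated_convergence
      (fun x => Ca * Cx * Cp * (((1 - x) ^ (2 * s.re + 1) + 1) * (x ^ (b - 2 * s.re) + 1)))
    · filter_upwards with m
      exact (step_meas m (fun i => ((aD s b m i / (m : ℝ) ^ (b + 1) : ℝ) : ℂ)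
        * conj (XD s m n i) * psi s b D p l m i)).aestronglyMeasurable
    · filter_upwards [eventually_ge_atTop 1] with m hm
      filter_upwards [ae_restrict_mem measurableSet_Ioo] with x hx
      obtain ⟨g0, g1⟩ := hal m hm x hx
      have g2 := hpl m hm x hx
      have g3 := hxl s hs m hm _ (floor_lt_m hm hx)
      have g4 : 0 ≤ ((1 - x) ^ (2 * s.re + 1) + 1) * (x ^ (b - 2 * s.re) + 1) := by
        have := Real.rpow_nonneg (by linarith [hx.2] : 0 ≤ 1 - x) (2 * s.re + 1)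
        have := Real.rpow_nonneg hx.1.le (b - 2 * s.re)
        positivity
      rw [norm_mul, norm_mul, RCLike.norm_conj, Complex.norm_real, Real.norm_eq_abs,
        abs_of_nonneg g0]
      calc alm s b m x * ‖XD s m n ⌊(m : ℝ) * x⌋₊‖ * ‖psi s b D p l m ⌊(m : ℝ) * x⌋₊‖
          ≤ (Ca * (((1 - x) ^ (2 * s.re + 1) + 1) * (x ^ (b - 2 * s.re) + 1))) * Cx * Cp := by
            gcongr
        _ = _ := by ring
    · exact (alm_bound_int hs hσ).const_mul _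
    · filter_upwards [ae_restrict_mem measurableSet_Ioo] with x hx
      exact (((Complex.continuous_ofReal.tendsto _).comp (ha x hx)).mul
        ((Complex.continuous_conj.tendsto _).comp (XD_tendsto n hx))).mul
        (psi_tendsto hs hb hσ D p l hbt hx)
  have e : ∫ x in Ioo (0 : ℝ) 1, ((ca * alp s b x : ℝ) : ℂ) * conj ((((1 - x) ^ n : ℝ)) : ℂ)
        * ((cb * rl b D p l x : ℝ) : ℂ) = ((Es s b * xln s b D p l n : ℝ) : ℂ) := by
    have hB := (B0_pos hs hb hσ).ne'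
    have e1 : Es s b * xln s b D p l n
        = ca * cb * ∫ x in Ioo (0 : ℝ) 1, alp s b x * (1 - x) ^ n * rl b D p l x := by
      unfold Es xln
      rw [hcc]
      have e2 : ∀ x : ℝ, ∫ y in Ioi (0 : ℝ), alp s b x * bet b y * (1 - x) ^ n
          * (1 / (1 + y)) ^ l * RR D p x y = alp s b x * (1 - x) ^ n * rl b D p l x := by
        intro x
        unfold rl
        rw [← integral_const_mul]
        congr 1
        funext y
        ring
      simp only [e2]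
      field_simp
    rw [e1, ← integral_const_mul, ← integral_complex_ofReal]
    congr 1
    funext x
    rw [Complex.conj_ofReal]
    push_cast
    ring
  rw [e] at key
  refine key.congr' ?_
  filter_upwards [eventually_ge_atTop 1] with m hm
  have hm0 : (0 : ℝ) < m := by exact_mod_cast hm
  have hmc : (m : ℂ) ≠ 0 := by
    have : m ≠ 0 := by omega
    exact_mod_cast this
  have hmb : (((m : ℝ) ^ b : ℝ) : ℂ) ≠ 0 := by
    exact_mod_cast (Real.rpow_pos_of_pos hm0 _).ne'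
  have h := step_fin hm (fun i => ((aD s b m i / (m : ℝ) ^ (b + 1) : ℝ) : ℂ)
        * conj (XD s m n i) * psi s b D p l m i)
  unfold alm
  rw [h, Finset.mul_sum, Finset.mul_sum]
  apply Finset.sum_congr rfl
  intro i _
  unfold psi
  rw [Real.rpow_add hm0, Real.rpow_one]
  push_cast
  field_simp

theorem lim_cross {s : ℂ} (hs0 : s ≠ 0) (hs : ‖s‖ < 1) {b : ℝ} (hb : 0 < b)
    (hσ : 0 < b + 1 - 2 * s.re) (D : ℕ) (p : ℕ → ℕ → ℝ) (l k : ℕ) :
    Tendsto (fun m : ℕ => ((KS s * pq (b + 3) (m - 1) / (m : ℝ) ^ 4 : ℝ) : ℂ)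
      * ∑ i ∈ Finset.range m, (aD s b m i : ℂ)
        * ((∑' j, (bD s b m j : ℂ) * (YD m j : ℂ) ^ l * rD s D p m i j)
          * conj (∑' j, (bD s b m j : ℂ) * (YD m j : ℂ) ^ k * rD s D p m i j))) atTop
      (𝓝 ((Es s b ^ 2 / B0 s b
        * ∫ x in Ioo (0 : ℝ) 1, alp s b x * rl b D p l x * rl b D p k x : ℝ) : ℂ)) := by
  obtain ⟨ca, cb, hca, hcb, hcc, ha, hbt, hK⟩ := asy_consts hs0 hs hb hσ
  obtain ⟨Ca, hCa, hal⟩ := alm_le hs hb hσ
  obtain ⟨Cp, hCp, hpl⟩ := psi_le hs hb hσ D p l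
  obtain ⟨Cq, hCq, hql⟩ := psi_le hs hb hσ D p k
  have key : Tendsto (fun m : ℕ => ∫ x in Ioo (0 : ℝ) 1, ((alm s b m x : ℝ) : ℂ)
        * (psi s b D p l m ⌊(m : ℝ) * x⌋₊ * conj (psi s b D p k m ⌊(m : ℝ) * x⌋₊))) atTop
      (𝓝 (∫ x in Ioo (0 : ℝ) 1, ((ca * alp s b x : ℝ) : ℂ)
        * (((cb * rl b D p l x : ℝ) : ℂ) * conj ((cb * rl b D p k x : ℝ) : ℂ)))) := by
    apply tendsto_integral_filter_of_dominated_convergence
      (fun x => Ca * Cp * Cq * (((1 - x) ^ (2 * s.re + 1) + 1) * (x ^ (b - 2 * s.re) + 1)))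
    · filter_upwards with m
      exact (step_meas m (fun i => ((aD s b m i / (m : ℝ) ^ (b + 1) : ℝ) : ℂ)
        * (psi s b D p l m i * conj (psi s b D p k m i)))).aestronglyMeasurable
    · filter_upwards [eventually_ge_atTop 1] with m hm
      filter_upwards [ae_restrict_mem measurableSet_Ioo] with x hx
      obtain ⟨g0, g1⟩ := hal m hm x hx
      have g2 := hpl m hm x hx
      have g3 := hql m hm x hx
      have g4 : 0 ≤ ((1 - x) ^ (2 * s.re + 1) + 1) * (x ^ (b - 2 * s.re) + 1) := by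
        have := Real.rpow_nonneg (by linarith [hx.2] : 0 ≤ 1 - x) (2 * s.re + 1)
        have := Real.rpow_nonneg hx.1.le (b - 2 * s.re)
        positivity
      rw [norm_mul, norm_mul, RCLike.norm_conj, Complex.norm_real, Real.norm_eq_abs,
        abs_of_nonneg g0]
      calc alm s b m x * (‖psi s b D p l m ⌊(m : ℝ) * x⌋₊‖ * ‖psi s b D p k m ⌊(m : ℝ) * x⌋₊‖)
          ≤ (Ca * (((1 - x) ^ (2 * s.re + 1) + 1) * (x ^ (b - 2 * s.re) + 1))) * (Cp * Cq) := by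
            gcongr
        _ = _ := by ring
    · exact (alm_bound_int hs hσ).const_mul _
    · filter_upwards [ae_restrict_mem measurableSet_Ioo] with x hx
      exact ((Complex.continuous_ofReal.tendsto _).comp (ha x hx)).mul
        ((psi_tendsto hs hb hσ D p l hbt hx).mul
          ((Complex.continuous_conj.tendsto _).comp (psi_tendsto hs hb hσ D p k hbt hx)))
  have key2 := ((Complex.continuous_ofReal.tendsto _).comp hK).mul key
  have e : ((ca * B0 s b : ℝ) : ℂ) * ∫ x in Ioo (0 : ℝ) 1, ((ca * alp s b x : ℝ) : ℂ)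
        * (((cb * rl b D p l x : ℝ) : ℂ) * conj ((cb * rl b D p k x : ℝ) : ℂ))
      = ((Es s b ^ 2 / B0 s b
        * ∫ x in Ioo (0 : ℝ) 1, alp s b x * rl b D p l x * rl b D p k x : ℝ) : ℂ) := by
    have hB := (B0_pos hs hb hσ).ne'
    have e1 : ∫ x in Ioo (0 : ℝ) 1, ((ca * alp s b x : ℝ) : ℂ)
        * (((cb * rl b D p l x : ℝ) : ℂ) * conj ((cb * rl b D p k x : ℝ) : ℂ))
        = ((ca * cb ^ 2 * ∫ x in Ioo (0 : ℝ) 1, alp s b x * rl b D p l x * rl b D p k x : ℝ)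
          : ℂ) := by
      rw [← integral_const_mul, ← integral_complex_ofReal]
      congr 1
      funext x
      rw [Complex.conj_ofReal]
      push_cast
      ring
    rw [e1, ← Complex.ofReal_mul]
    congr 1
    unfold Es
    rw [← hcc]
    field_simp
  rw [e] at key2
  refine key2.congr' ?_
  filter_upwards [eventually_ge_atTop 1] with m hm
  have hm0 : (0 : ℝ) < m := by exact_mod_cast hm
  have hmc : (m : ℂ) ≠ 0 := by
    have : m ≠ 0 := by omega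
    exact_mod_cast this
  have hmb : (((m : ℝ) ^ b : ℝ) : ℂ) ≠ 0 := by
    exact_mod_cast (Real.rpow_pos_of_pos hm0 _).ne'
  have h := step_fin hm (fun i => ((aD s b m i / (m : ℝ) ^ (b + 1) : ℝ) : ℂ)
        * (psi s b D p l m i * conj (psi s b D p k m i)))
  unfold alm
  simp only [Function.comp_apply]
  rw [h, Finset.mul_sum, Finset.mul_sum, Finset.mul_sum]
  apply Finset.sum_congr rfl
  intro i _
  unfold psi
  have e2 : (m : ℝ) ^ (b + 2) = (m : ℝ) ^ b * (m : ℝ) ^ 2 := by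
    rw [Real.rpow_add hm0, Real.rpow_two]
  rw [e2, Real.rpow_add hm0, Real.rpow_one, map_mul, Complex.conj_ofReal]
  push_cast
  field_simp

end Pool.Agent.Helper24.HR2
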