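import Mathlib
import Pool.Agent.Helper24.HR2.Defs
import Pool.Agent.Helper22.Half.Defs
import Pool.Agent.Helper22.Half.Core
import Pool.Agent.Helper24.HR2.PLowerA

/-!
MP_16b0ee, project HR2, section R5 (second half): the functionals are moments; the lower bound.
-/

set_option autoImplicit false

open MeasureTheory Set Metric Filter Topology
open scoped Real ComplexConjugate

namespace Pool.Agent.Helper24.HR2

open Pool.Agent.Helper22.Half
open Pool.Agent.Helper39.MH

/-- the moments at the end point -/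
noncomputable def mend (d : ℕ → ℂ) (m i : ℕ) : ℂ :=
  ∑ l ∈ Finset.range (m + 1), d l * (((m - l : ℕ) : ℂ) / m) ^ i

/-- the mixed rising moments -/
noncomputable def mris (d : ℕ → ℂ) (m i j : ℕ) : ℂ :=
  ∑ l ∈ Finset.range (m + 1), d l * ((((m - l : ℕ) : ℂ) / m) ^ i
    * ∏ k ∈ Finset.range j, ((((m - l : ℕ) : ℂ) + k) / m))

theorem mris_zero (d : ℕ → ℂ) (m i : ℕ) : mris d m i 0 = mend d m i := by
  simp [mris, mend]

theorem mris_succ (d : ℕ → ℂ) (m i j : ℕ) :
    mris d m i (j + 1) = mris d m (i + 1) j + (j : ℂ) / m * mris d m i j := by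
  unfold mris
  rw [Finset.mul_sum, ← Finset.sum_add_distrib]
  apply Finset.sum_congr rfl
  intro l _
  rw [Finset.prod_range_succ, pow_succ]
  ring

/-- odd central moments vanish -/
theorem odd_zero {d : ℕ → ℂ} {m : ℕ} (hd : ∀ l ≤ m, d l = d (m - l)) (r : ℕ) :
    ∑ l ∈ Finset.range (m + 1), d l * (((m : ℂ) / 2 - l) / m) ^ (2 * r + 1) = 0 := by
  have h : ∑ l ∈ Finset.range (m + 1), d l * (((m : ℂ) / 2 - l) / m) ^ (2 * r + 1)
      = -∑ l ∈ Finset.range (m + 1), d l * (((m : ℂ) / 2 - l) / m) ^ (2 * r + 1) := by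
    conv_lhs => rw [← Finset.sum_range_reflect]
    rw [← Finset.sum_neg_distrib]
    apply Finset.sum_congr rfl
    intro l hl
    rw [Finset.mem_range] at hl
    have e1 : m + 1 - 1 - l = m - l := by omega
    rw [e1, ← hd l (by omega), Nat.cast_sub (by omega)]
    have e2 : ((m : ℂ) / 2 - ((m : ℂ) - l)) / m = -(((m : ℂ) / 2 - l) / m) := by ring
    rw [e2, Odd.neg_pow ⟨r, rfl⟩]
    ring
  have h2 : (2 : ℂ) * ∑ l ∈ Finset.range (m + 1), d l * (((m : ℂ) / 2 - l) / m) ^ (2 * r + 1)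
      = 0 := by linear_combination h
  exact (mul_eq_zero.mp h2).resolve_left two_ne_zero

theorem even_vS {d : ℕ → ℂ} {m : ℕ} (r : ℕ) :
    ∑ l ∈ Finset.range (m + 1), d l * (((m : ℂ) / 2 - l) / m) ^ (2 * r) = vS d m r := by
  unfold vS
  rw [Finset.sum_div]
  apply Finset.sum_congr rfl
  intro l _
  rw [div_pow, mul_div_assoc]
  congr 2
  rw [pow_mul, pow_mul]
  congr 1
  ring

/-- splitting a sum into even and odd indices -/
theorem sum_even_odd (f : ℕ → ℂ) (K : ℕ) :
    ∑ k ∈ Finset.range (2 * K), f k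
      = ∑ r ∈ Finset.range K, (f (2 * r) + f (2 * r + 1)) := by
  induction K with
  | zero => simp
  | succ K ih =>
    rw [Finset.sum_range_succ, ← ih]
    have : 2 * (K + 1) = 2 * K + 1 + 1 := by ring
    rw [this, Finset.sum_range_succ, Finset.sum_range_succ]
    ring

/-- moments at the end point by the central moments -/
theorem mend_eq {d : ℕ → ℂ} {m : ℕ} (hm : 1 ≤ m) (hd : ∀ l ≤ m, d l = d (m - l)) {K i : ℕ}
    (hi : i < 2 * K) :
    mend d m i = ∑ r ∈ Finset.range K,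
      (Nat.choose i (2 * r) : ℂ) * (1 / 2) ^ (i - 2 * r) * vS d m r := by
  have hm0 : (m : ℂ) ≠ 0 := by
    have : m ≠ 0 := by omega
    exact_mod_cast this
  have h1 : mend d m i = ∑ k ∈ Finset.range (2 * K), (Nat.choose i k : ℂ) * (1 / 2) ^ (i - k)
      * ∑ l ∈ Finset.range (m + 1), d l * (((m : ℂ) / 2 - l) / m) ^ k := by
    unfold mend
    simp_rw [Finset.mul_sum]
    rw [Finset.sum_comm]
    apply Finset.sum_congr rfl
    intro l hl
    rw [Finset.mem_range] at hl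
    have e : (((m - l : ℕ) : ℂ) / m) = ((m : ℂ) / 2 - l) / m + 1 / 2 := by
      rw [Nat.cast_sub (by omega)]
      field_simp
      ring
    rw [e, add_pow, Finset.mul_sum]
    have h2 : Finset.range (i + 1) ⊆ Finset.range (2 * K) := by
      apply Finset.range_subset_range.mpr
      omega
    rw [← Finset.sum_subset h2]
    · apply Finset.sum_congr rfl
      intro k _
      ring
    · intro k _ hk
      rw [Finset.mem_range, not_lt] at hk
      rw [Nat.choose_eq_zero_of_lt (by omega)]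
      simp
  rw [h1, sum_even_odd]
  apply Finset.sum_congr rfl
  intro r _
  rw [odd_zero hd, even_vS]
  ring

theorem mend_le {d : ℕ → ℂ} {m : ℕ} (hm : 1 ≤ m) (hd : ∀ l ≤ m, d l = d (m - l)) {K i : ℕ}
    (hi : i < 2 * K) :
    ‖mend d m i‖ ≤ 2 ^ (2 * K) * ∑ r ∈ Finset.range K, ‖vS d m r‖ := by
  rw [mend_eq hm hd hi, Finset.mul_sum]
  refine (norm_sum_le _ _).trans (Finset.sum_le_sum ?_)
  intro r _
  rw [norm_mul, norm_mul, norm_pow]
  have h1 : ‖(Nat.choose i (2 * r) : ℂ)‖ ≤ 2 ^ (2 * K) := by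
    rw [Complex.norm_natCast]
    have h2 : Nat.choose i (2 * r) ≤ 2 ^ i := Nat.choose_le_two_pow _ _
    have h3 : (2 : ℕ) ^ i ≤ 2 ^ (2 * K) := Nat.pow_le_pow_right (by norm_num) (by omega)
    exact_mod_cast h2.trans h3
  have h2 : ‖(1 / 2 : ℂ)‖ ^ (i - 2 * r) ≤ 1 := by
    apply pow_le_one₀ (norm_nonneg _)
    norm_num
  have h3 : (0 : ℝ) ≤ ‖(Nat.choose i (2 * r) : ℂ)‖ := norm_nonneg _
  have h4 : (0 : ℝ) ≤ ‖(1 / 2 : ℂ)‖ ^ (i - 2 * r) := by positivity
  have h5 : ‖(Nat.choose i (2 * r) : ℂ)‖ * ‖(1 / 2 : ℂ)‖ ^ (i - 2 * r) ≤ 2 ^ (2 * K) := by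
    nlinarith
  exact mul_le_mul_of_nonneg_right h5 (norm_nonneg _)

theorem mris_eq (K j : ℕ) : ∃ C : ℝ, 0 ≤ C ∧ ∀ i : ℕ, i + j < 2 * K → ∀ m : ℕ, 1 ≤ m →
    ∀ d : ℕ → ℂ, (∀ l ≤ m, d l = d (m - l)) →
      ‖mris d m i j - mend d m (i + j)‖ ≤ C / m * ∑ r ∈ Finset.range K, ‖vS d m r‖ := by
  induction j with
  | zero =>
    refine ⟨0, le_rfl, ?_⟩
    intro i _ m _ d _
    rw [mris_zero]
    simp
  | succ j ih =>
    obtain ⟨C, hC, h⟩ := ih
    refine ⟨C + j * (2 ^ (2 * K) + C), by positivity, ?_⟩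
    intro i hij m hm d hd
    have hmR : (1 : ℝ) ≤ m := by exact_mod_cast hm
    have h1 := h (i + 1) (by omega) m hm d hd
    have h2 := h i (by omega) m hm d hd
    have h3 := mend_le hm hd (K := K) (i := i + j) (by omega)
    set S := ∑ r ∈ Finset.range K, ‖vS d m r‖ with hS
    have hS0 : 0 ≤ S := Finset.sum_nonneg fun _ _ => norm_nonneg _
    have h4 : ‖mris d m i j‖ ≤ (2 ^ (2 * K) + C) * S := by
      have h5 : ‖mris d m i j‖ ≤ ‖mend d m (i + j)‖ + ‖mris d m i j - mend d m (i + j)‖ := by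
        have := norm_add_le (mend d m (i + j)) (mris d m i j - mend d m (i + j))
        rwa [add_sub_cancel] at this
      have h6 : C / m * S ≤ C * S := by
        apply mul_le_mul_of_nonneg_right _ hS0
        exact div_le_self hC hmR
      linarith
    rw [mris_succ]
    have e1 : i + (j + 1) = i + 1 + j := by ring
    rw [e1]
    have e2 : mris d m (i + 1) j + (j : ℂ) / m * mris d m i j - mend d m (i + 1 + j)
        = (mris d m (i + 1) j - mend d m (i + 1 + j)) + (j : ℂ) / m * mris d m i j := by ring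
    rw [e2]
    refine (norm_add_le _ _).trans ?_
    rw [norm_mul, norm_div, Complex.norm_natCast, Complex.norm_natCast]
    have h7 : (j : ℝ) / m * ‖mris d m i j‖ ≤ (j : ℝ) / m * ((2 ^ (2 * K) + C) * S) := by
      apply mul_le_mul_of_nonneg_left h4
      positivity
    refine (add_le_add h1 h7).trans (le_of_eq ?_)
    ring

theorem pq_poch (s : ℂ) (n q : ℕ) :
    (∏ k ∈ Finset.range n, (s + 2 + k + (q : ℂ))) * pq (s + 2) q
      = (∏ k ∈ Finset.range n, (s + 2 + k)) * pq (s + 2 + n) q := by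
  induction n with
  | zero => simp
  | succ n ih =>
    rw [Finset.prod_range_succ, Finset.prod_range_succ]
    have h := pq_add_one (s + 2 + n) q
    have e : s + 2 + ((n + 1 : ℕ) : ℂ) = s + 2 + n + 1 := by push_cast; ring
    rw [e]
    linear_combination (s + 2 + n + q) * ih
      - (∏ k ∈ Finset.range n, (s + 2 + (k : ℂ))) * h

theorem pq_nat (n q : ℕ) :
    (Nat.factorial (n + 1) : ℂ) * pq ((n : ℂ) + 2) q
      = ∏ k ∈ Finset.range (n + 1), ((q : ℂ) + 1 + k) := by
  induction n with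
  | zero =>
    have e : ((0 : ℕ) : ℂ) + 2 = 2 := by norm_num
    rw [e, pq_two]
    simp
  | succ n ih =>
    rw [Finset.prod_range_succ, ← ih, Nat.factorial_succ (n + 1)]
    have h := pq_add_one ((n : ℂ) + 2) q
    have e : ((n + 1 : ℕ) : ℂ) + 2 = (n : ℂ) + 2 + 1 := by push_cast; ring
    rw [e]
    push_cast
    linear_combination (Nat.factorial (n + 1) : ℂ) * h

/-- the convolution -/
theorem conv_d (s : ℂ) (d : ℕ → ℂ) (m n : ℕ) :
    ∑ i ∈ Finset.range m, pq (s + 2 + n) (m - 1 - i) * Vd s d m i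
      = ∑ l ∈ Finset.range m, pq ((n : ℂ) + 2) (m - 1 - l) * d l := by
  have h5 := sum_tri (fun l i => pq (s + 2 + n) (m - 1 - i) * pq (-s) (i - l) * d l) m
  have h1 : ∑ i ∈ Finset.range m, pq (s + 2 + n) (m - 1 - i) * Vd s d m i
      = ∑ i ∈ Finset.range m, ∑ l ∈ Finset.range (i + 1),
        pq (s + 2 + n) (m - 1 - i) * pq (-s) (i - l) * d l := by
    apply Finset.sum_congr rfl
    intro i hi
    rw [Finset.mem_range] at hi
    unfold Vd
    have e : min i m = i := by omega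
    rw [e, Finset.mul_sum]
    apply Finset.sum_congr rfl
    intro l _
    ring
  rw [h1, ← h5, Finset.sum_range_succ]
  simp only [Nat.sub_self, Finset.range_zero, Finset.sum_empty, add_zero]
  apply Finset.sum_congr rfl
  intro l hl
  rw [Finset.mem_range] at hl
  rw [← Finset.sum_mul]
  congr 1
  have h := vander (-s) (s + 2 + n) (m - 1 - l)
  have e : -s + (s + 2 + n) = (n : ℂ) + 2 := by ring
  rw [e] at h
  rw [← h]
  have e2 : m - l = m - 1 - l + 1 := by omega
  rw [e2]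
  apply Finset.sum_congr rfl
  intro k hk
  rw [Finset.mem_range] at hk
  have e3 : m - 1 - (l + k) = m - 1 - l - k := by omega
  have e4 : l + k - l = k := by omega
  rw [e3, e4]
  ring

/-- the functionals are rising moments -/
theorem XU_eq (s : ℂ) (d : ℕ → ℂ) {m : ℕ} (hm : 1 ≤ m) (n : ℕ) :
    (∑ i ∈ Finset.range m, XD s m n i * UD s d m i) / m
      = (∏ k ∈ Finset.range n, (s + 2 + k)) / (Nat.factorial (n + 1) : ℂ)
        * mris d m 0 (n + 1) := by
  have hm0 : (m : ℂ) ≠ 0 := by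
    have : m ≠ 0 := by omega
    exact_mod_cast this
  have hf : (Nat.factorial (n + 1) : ℂ) ≠ 0 := by
    exact_mod_cast Nat.factorial_ne_zero _
  have h1 : ∀ i ∈ Finset.range m, XD s m n i * UD s d m i
      = (∏ k ∈ Finset.range n, (s + 2 + k)) / (m : ℂ) ^ n
        * (pq (s + 2 + n) (m - 1 - i) * Vd s d m i) := by
    intro i hi
    rw [Finset.mem_range] at hi
    unfold XD UD
    have e : (m - i : ℕ) = m - 1 - i + 1 := by omega
    have e2 : ∏ k ∈ Finset.range n, (s + 1 + k + ((m - i : ℕ) : ℂ))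
        = ∏ k ∈ Finset.range n, (s + 2 + k + ((m - 1 - i : ℕ) : ℂ)) := by
      apply Finset.prod_congr rfl
      intro k _
      rw [e]
      push_cast
      ring
    rw [e2]
    have h := pq_poch s n (m - 1 - i)
    field_simp
    linear_combination (Vd s d m i) * h
  rw [Finset.sum_congr rfl h1, ← Finset.mul_sum, conv_d]
  have h2 : mris d m 0 (n + 1) = (Nat.factorial (n + 1) : ℂ) / (m : ℂ) ^ (n + 1)
      * ∑ l ∈ Finset.range m, pq ((n : ℂ) + 2) (m - 1 - l) * d l := by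
    unfold mris
    rw [Finset.sum_range_succ]
    have e0 : d m * ((((m - m : ℕ) : ℂ) / m) ^ 0
        * ∏ k ∈ Finset.range (n + 1), ((((m - m : ℕ) : ℂ) + k) / m)) = 0 := by
      rw [Finset.prod_range_succ']
      simp
    rw [e0, add_zero, Finset.mul_sum]
    apply Finset.sum_congr rfl
    intro l hl
    rw [Finset.mem_range] at hl
    rw [pow_zero, one_mul]
    have e : ((m - l : ℕ) : ℂ) = ((m - 1 - l : ℕ) : ℂ) + 1 := by
      have : m - l = m - 1 - l + 1 := by omega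
      rw [this]
      push_cast
      ring
    rw [e, Finset.prod_div_distrib, Finset.prod_const, Finset.card_range, ← pq_nat]
    field_simp
  rw [h2]
  field_simp
  ring

/-- the functionals are moments -/
theorem mom_eq (K N : ℕ) (hN : N + 1 ≤ 2 * K) : ∃ C : ℝ, 0 ≤ C ∧ ∀ s : ℂ, ‖s‖ ≤ 1 →
    ∀ m : ℕ, 1 ≤ m → ∀ d : ℕ → ℂ, (∀ l ≤ m, d l = d (m - l)) → ∀ n < N,
      ‖(∑ i ∈ Finset.range m, XD s m n i * UD s d m i) / m - muS s K (vS d m) n‖
        ≤ C / m * ∑ r ∈ Finset.range K, ‖vS d m r‖ := by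
  choose C hC h using mris_eq K
  refine ⟨∑ n ∈ Finset.range N, (∏ k ∈ Finset.range n, ((3 : ℝ) + k)) * C (n + 1), ?_, ?_⟩
  · apply Finset.sum_nonneg
    intro n _
    have := hC (n + 1)
    positivity
  intro s hs m hm d hd n hn
  have hmR : (1 : ℝ) ≤ m := by exact_mod_cast hm
  have h1 := h (n + 1) 0 (by omega) m hm d hd
  rw [zero_add] at h1
  have e1 : muS s K (vS d m) n
      = (∏ k ∈ Finset.range n, (s + 2 + k)) / (Nat.factorial (n + 1) : ℂ) * mend d m (n + 1) := by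
    unfold muS
    rw [mend_eq hm hd (K := K) (by omega)]
  rw [XU_eq s d hm, e1, ← mul_sub, norm_mul]
  set S := ∑ r ∈ Finset.range K, ‖vS d m r‖ with hS
  have hS0 : 0 ≤ S := Finset.sum_nonneg fun _ _ => norm_nonneg _
  have h2 : ‖(∏ k ∈ Finset.range n, (s + 2 + k)) / (Nat.factorial (n + 1) : ℂ)‖
      ≤ ∏ k ∈ Finset.range n, ((3 : ℝ) + k) := by
    rw [norm_div, Complex.norm_natCast, norm_prod]
    have h3 : ∏ k ∈ Finset.range n, ‖s + 2 + (k : ℂ)‖ ≤ ∏ k ∈ Finset.range n, ((3 : ℝ) + k) := by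
      apply Finset.prod_le_prod
      · intro k _
        exact norm_nonneg _
      · intro k _
        have h4 : ‖s + 2 + (k : ℂ)‖ ≤ ‖s‖ + ‖(2 : ℂ)‖ + ‖(k : ℂ)‖ := norm_add₃_le
        rw [Complex.norm_natCast, Complex.norm_two] at h4
        linarith
    refine (div_le_self (Finset.prod_nonneg fun _ _ => norm_nonneg _) ?_).trans h3
    exact_mod_cast Nat.one_le_iff_ne_zero.mpr (Nat.factorial_ne_zero _)
  have h5 : (∏ k ∈ Finset.range n, ((3 : ℝ) + k)) * C (n + 1)
      ≤ ∑ n ∈ Finset.range N, (∏ k ∈ Finset.range n, ((3 : ℝ) + k)) * C (n + 1) := by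
    apply Finset.single_le_sum (f := fun n => (∏ k ∈ Finset.range n, ((3 : ℝ) + k)) * C (n + 1))
    · intro i _
      have := hC (i + 1)
      positivity
    · exact Finset.mem_range.mpr hn
  calc _ ≤ (∏ k ∈ Finset.range n, ((3 : ℝ) + k)) * (C (n + 1) / m * S) := by
        apply mul_le_mul h2 h1 (norm_nonneg _)
        positivity
    _ = ((∏ k ∈ Finset.range n, ((3 : ℝ) + k)) * C (n + 1)) / m * S := by ring
    _ ≤ _ := by
        apply mul_le_mul_of_nonneg_right _ hS0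
        apply div_le_div_of_nonneg_right h5
        positivity

/-- the lower bound, from the three facts of the first half -/
theorem P_lower_of (K N : ℕ) (hN : N + 1 ≤ 2 * K)
    (hKS : ∀ s : ℂ, ‖s‖ < 1 → 1 ≤ KS s ∧ (∀ n, kap s.re (‖s‖ ^ 2) n ≤ KS s))
    (hPf : ∀ s : ℂ, ‖s‖ < 1 → ∀ b : ℝ, 0 < b + 1 - 2 * s.re → ∀ (d : ℕ → ℂ) (m : ℕ),
      Pf s b d m = ∑ i ∈ Finset.range m, ‖UD s d m i‖ ^ 2 / aD s b m i)
    (hG : ∃ C : ℝ, 0 ≤ C ∧ ∀ s : ℂ, ‖s‖ ≤ 7 / 10 → ∀ b : ℝ, 0 < b → b ≤ 1 →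
    0 < b + 1 - 2 * s.re → ∀ m : ℕ, 1 ≤ m → ∀ n < N, ∀ k < N,
      ‖(∑ i ∈ Finset.range m, ((pq (2 + 2 * s.re) (m - 1 - i) * pq (b + 1 - 2 * s.re) i : ℝ) : ℂ)
          * (XD s m n i * conj (XD s m k i))) / (pq (b + 3) (m - 1) : ℝ) - (Gm s b (n + k) : ℂ)‖
        ≤ C / m) :
    ∃ C : ℝ, 0 ≤ C ∧ ∀ s : ℂ, ‖s‖ ≤ 7 / 10 →
    ∀ b : ℝ, 0 < b → b ≤ 1 → 0 < b + 1 - 2 * s.re → ∀ m : ℕ, 1 ≤ m → ∀ d : ℕ → ℂ,
    (∀ l ≤ m, d l = d (m - l)) → ∀ y : ℕ → ℂ,
      (m : ℝ) ^ 2 / (KS s * pq (b + 3) (m - 1)) * (linF s K N (vS d m) y - gamF s b N y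
        - C / m * (∑ n ∈ Finset.range N, ‖y n‖ ^ 2 + ∑ r ∈ Finset.range K, ‖vS d m r‖ ^ 2))
      ≤ Pf s b d m := by
  obtain ⟨C1, hC1, h1⟩ := mom_eq K N hN
  obtain ⟨C2, hC2, h2⟩ := hG
  refine ⟨C1 * (N + K) + C2 * N, by positivity, ?_⟩
  intro s hs b hb hb1 hσ m hm d hd y
  have hmR : (1 : ℝ) ≤ m := by exact_mod_cast hm
  have hmR0 : (0 : ℝ) < m := by linarith
  have hs1 : ‖s‖ < 1 := by linarith
  obtain ⟨hK1, hKle⟩ := hKS s hs1
  have hK0 : 0 < KS s := by linarith
  have hS : 0 < pq (b + 3) (m - 1) := pq_pos (by linarith) _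
  have hre := abs_lt.mp ((Complex.abs_re_le_norm s).trans_lt hs1)
  have hw1 : ∀ i, 0 < pq (2 + 2 * s.re) i := fun i => pq_pos (by linarith) i
  have hw2 : ∀ i, 0 < pq (b + 1 - 2 * s.re) i := fun i => pq_pos hσ i
  have h1' := fun n hn => h1 s (by linarith) m hm d hd n hn
  have h2' := fun n hn k hk => h2 s hs b hb hb1 hσ m hm n hn k hk
  rw [hPf s hs1 b hσ]
  -- notation
  set T : ℝ := pq (b + 3) (m - 1) with hT
  set lam : ℝ := m / (KS s * T) with hlam
  have hlam0 : 0 < lam := by positivity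
  set z : ℕ → ℂ := fun i => ∑ n ∈ Finset.range N, y n * conj (XD s m n i) with hz
  set w : ℕ → ℝ := fun i => pq (2 + 2 * s.re) (m - 1 - i) * pq (b + 1 - 2 * s.re) i with hw
  have hw0 : ∀ i, 0 < w i := fun i => mul_pos (hw1 _) (hw2 _)
  have ha : ∀ i, aD s b m i = kap s.re (‖s‖ ^ 2) (m - 1 - i) * w i := by
    intro i
    unfold aD
    rw [hw]
    ring
  have hkap : ∀ i, 1 ≤ kap s.re (‖s‖ ^ 2) i := fun i => kap_ge_one (by linarith) (by positivity) i
  have ha0 : ∀ i, 0 < aD s b m i := by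
    intro i
    rw [ha]
    have := hkap (m - 1 - i)
    have := hw0 i
    positivity
  have ha1 : ∀ i, aD s b m i ≤ KS s * w i := by
    intro i
    rw [ha]
    exact mul_le_mul_of_nonneg_right (hKle _) (hw0 i).le
  -- pointwise inequality
  have hp : ∀ i, 2 * lam * (conj (z i) * UD s d m i).re - KS s * lam ^ 2 * (w i * ‖z i‖ ^ 2)
      ≤ ‖UD s d m i‖ ^ 2 / aD s b m i := by
    intro i
    have e1 : 2 * lam * (conj (z i) * UD s d m i).re ≤ 2 * (lam * ‖z i‖) * ‖UD s d m i‖ := by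
      have h3 : (conj (z i) * UD s d m i).re ≤ ‖z i‖ * ‖UD s d m i‖ := by
        refine (Complex.re_le_norm _).trans (le_of_eq ?_)
        rw [norm_mul, RCLike.norm_conj]
      have : 0 < 2 * lam := by positivity
      nlinarith
    have e2 : aD s b m i * (lam * ‖z i‖) ^ 2 ≤ KS s * lam ^ 2 * (w i * ‖z i‖ ^ 2) := by
      have h4 := mul_le_mul_of_nonneg_right (ha1 i) (sq_nonneg (lam * ‖z i‖))
      calc _ ≤ _ := h4
        _ = _ := by ring
    have e3 : 2 * (lam * ‖z i‖) * ‖UD s d m i‖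
        ≤ ‖UD s d m i‖ ^ 2 / aD s b m i + aD s b m i * (lam * ‖z i‖) ^ 2 := by
      have h5 := ha0 i
      have h6 : 0 ≤ (‖UD s d m i‖ - aD s b m i * (lam * ‖z i‖)) ^ 2 / aD s b m i := by positivity
      have h7 : (‖UD s d m i‖ - aD s b m i * (lam * ‖z i‖)) ^ 2 / aD s b m i
          = ‖UD s d m i‖ ^ 2 / aD s b m i + aD s b m i * (lam * ‖z i‖) ^ 2
            - 2 * (lam * ‖z i‖) * ‖UD s d m i‖ := by
        field_simp
        ring
      linarith
    linarith
  have hsum := Finset.sum_le_sum (fun i (_ : i ∈ Finset.range m) => hp i)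
  refine le_trans ?_ hsum
  rw [Finset.sum_sub_distrib, ← Finset.mul_sum, ← Finset.mul_sum]
  -- the linear part
  set A : ℕ → ℂ := fun n => (∑ i ∈ Finset.range m, XD s m n i * UD s d m i) / m with hA
  have hL : ∑ i ∈ Finset.range m, (conj (z i) * UD s d m i).re
      = m * (∑ n ∈ Finset.range N, conj (y n) * A n).re := by
    have hmC : (m : ℂ) ≠ 0 := by
      have : m ≠ 0 := by omega
      exact_mod_cast this
    have e0 : (m : ℝ) * (∑ n ∈ Finset.range N, conj (y n) * A n).re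
        = ((m : ℂ) * ∑ n ∈ Finset.range N, conj (y n) * A n).re := by
      rw [← Complex.ofReal_natCast, Complex.re_ofReal_mul]
    rw [e0, ← Complex.re_sum]
    congr 1
    rw [Finset.mul_sum]
    have e1 : ∀ i ∈ Finset.range m, conj (z i) * UD s d m i
        = ∑ n ∈ Finset.range N, conj (y n) * (XD s m n i * UD s d m i) := by
      intro i _
      rw [hz]
      simp only [map_sum, map_mul, Complex.conj_conj, Finset.sum_mul]
      apply Finset.sum_congr rfl
      intro n _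
      ring
    rw [Finset.sum_congr rfl e1, Finset.sum_comm]
    apply Finset.sum_congr rfl
    intro n _
    rw [← Finset.mul_sum, hA]
    field_simp
  set G : ℕ → ℕ → ℂ := fun n k => (∑ i ∈ Finset.range m, ((w i : ℝ) : ℂ)
      * (XD s m n i * conj (XD s m k i))) / (T : ℝ) with hGd
  have hQ : ∑ i ∈ Finset.range m, w i * ‖z i‖ ^ 2
      = T * (∑ n ∈ Finset.range N, ∑ k ∈ Finset.range N, (y n * conj (y k)) * G k n).re := by
    have hTC : (T : ℂ) ≠ 0 := by exact_mod_cast hS.ne'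
    have e0 : T * (∑ n ∈ Finset.range N, ∑ k ∈ Finset.range N, (y n * conj (y k)) * G k n).re
        = ((T : ℂ) * ∑ n ∈ Finset.range N, ∑ k ∈ Finset.range N,
          (y n * conj (y k)) * G k n).re := by
      rw [Complex.re_ofReal_mul]
    have e2 : ∑ i ∈ Finset.range m, w i * ‖z i‖ ^ 2
        = (∑ i ∈ Finset.range m, (w i : ℂ) * (z i * conj (z i))).re := by
      rw [Complex.re_sum]
      apply Finset.sum_congr rfl
      intro i _
      rw [Complex.re_ofReal_mul, Complex.mul_conj, Complex.ofReal_re, Complex.normSq_eq_norm_sq]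
    rw [e0, e2]
    congr 1
    rw [Finset.mul_sum]
    have e3 : ∀ i ∈ Finset.range m, (w i : ℂ) * (z i * conj (z i))
        = ∑ n ∈ Finset.range N, ∑ k ∈ Finset.range N,
          (y n * conj (y k)) * ((w i : ℂ) * (XD s m k i * conj (XD s m n i))) := by
      intro i _
      rw [hz]
      simp only [map_sum, map_mul, Complex.conj_conj]
      rw [Finset.sum_mul_sum, Finset.mul_sum]
      apply Finset.sum_congr rfl
      intro n _
      rw [Finset.mul_sum]
      apply Finset.sum_congr rfl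
      intro k _
      ring
    rw [Finset.sum_congr rfl e3, Finset.sum_comm]
    apply Finset.sum_congr rfl
    intro n _
    rw [Finset.sum_comm, Finset.mul_sum]
    apply Finset.sum_congr rfl
    intro k _
    rw [← Finset.mul_sum, hGd]
    field_simp
  rw [hL, hQ]
  -- errors
  set Y : ℝ := ∑ n ∈ Finset.range N, ‖y n‖ with hY
  set V : ℝ := ∑ r ∈ Finset.range K, ‖vS d m r‖ with hV
  have hY0 : 0 ≤ Y := Finset.sum_nonneg fun _ _ => norm_nonneg _
  have hV0 : 0 ≤ V := Finset.sum_nonneg fun _ _ => norm_nonneg _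
  have hlin : linF s K N (vS d m) y - 2 * (Y * (C1 / m * V))
      ≤ 2 * (∑ n ∈ Finset.range N, conj (y n) * A n).re := by
    unfold linF
    have e1 : (∑ n ∈ Finset.range N, conj (y n) * muS s K (vS d m) n)
        - (∑ n ∈ Finset.range N, conj (y n) * A n)
        = -∑ n ∈ Finset.range N, conj (y n) * (A n - muS s K (vS d m) n) := by
      rw [← Finset.sum_sub_distrib, ← Finset.sum_neg_distrib]
      apply Finset.sum_congr rfl
      intro n _
      ring
    have e2 : ‖∑ n ∈ Finset.range N, conj (y n) * (A n - muS s K (vS d m) n)‖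
        ≤ Y * (C1 / m * V) := by
      rw [hY, Finset.sum_mul]
      refine (norm_sum_le _ _).trans (Finset.sum_le_sum ?_)
      intro n hn
      rw [norm_mul, RCLike.norm_conj]
      exact mul_le_mul_of_nonneg_left (h1' n (Finset.mem_range.mp hn)) (norm_nonneg _)
    have e3 := (Complex.re_le_norm _).trans_eq
      (norm_neg (∑ n ∈ Finset.range N, conj (y n) * (A n - muS s K (vS d m) n)))
    rw [← e1, Complex.sub_re] at e3
    linarith
  have hquad : (∑ n ∈ Finset.range N, ∑ k ∈ Finset.range N, (y n * conj (y k)) * G k n).re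
      ≤ gamF s b N y + C2 / m * Y ^ 2 := by
    unfold gamF
    have e1 : (∑ n ∈ Finset.range N, ∑ k ∈ Finset.range N, (y n * conj (y k)) * G k n).re
        = (∑ n ∈ Finset.range N, ∑ k ∈ Finset.range N, Gm s b (n + k) * (y n * conj (y k)).re)
          + (∑ n ∈ Finset.range N, ∑ k ∈ Finset.range N,
            (y n * conj (y k)) * (G k n - (Gm s b (k + n) : ℂ))).re := by
      rw [Complex.re_sum, Complex.re_sum, ← Finset.sum_add_distrib]
      apply Finset.sum_congr rfl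
      intro n _
      rw [Complex.re_sum, Complex.re_sum, ← Finset.sum_add_distrib]
      apply Finset.sum_congr rfl
      intro k _
      rw [← Complex.re_ofReal_mul, ← Complex.add_re, add_comm k n]
      congr 1
      ring
    have e2 : ‖∑ n ∈ Finset.range N, ∑ k ∈ Finset.range N,
        (y n * conj (y k)) * (G k n - (Gm s b (k + n) : ℂ))‖ ≤ C2 / m * Y ^ 2 := by
      have e3 : C2 / m * Y ^ 2 = ∑ n ∈ Finset.range N, ∑ k ∈ Finset.range N,
          ‖y n‖ * ‖y k‖ * (C2 / m) := by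
        rw [pow_two, hY, Finset.sum_mul_sum, Finset.mul_sum]
        apply Finset.sum_congr rfl
        intro n _
        rw [Finset.mul_sum]
        apply Finset.sum_congr rfl
        intro k _
        ring
      rw [e3]
      refine (norm_sum_le _ _).trans (Finset.sum_le_sum ?_)
      intro n hn
      refine (norm_sum_le _ _).trans (Finset.sum_le_sum ?_)
      intro k hk
      rw [norm_mul, norm_mul, RCLike.norm_conj]
      exact mul_le_mul_of_nonneg_left
        (h2' k (Finset.mem_range.mp hk) n (Finset.mem_range.mp hn)) (by positivity)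
    have e4 := (Complex.re_le_norm (∑ n ∈ Finset.range N, ∑ k ∈ Finset.range N,
        (y n * conj (y k)) * (G k n - (Gm s b (k + n) : ℂ)))).trans e2
    linarith
  have hY2 : Y ^ 2 ≤ N * ∑ n ∈ Finset.range N, ‖y n‖ ^ 2 := by
    have := sq_sum_le_card_mul_sum_sq (s := Finset.range N) (f := fun n => ‖y n‖)
    rwa [Finset.card_range] at this
  have hV2 : V ^ 2 ≤ K * ∑ r ∈ Finset.range K, ‖vS d m r‖ ^ 2 := by
    have := sq_sum_le_card_mul_sum_sq (s := Finset.range K) (f := fun r => ‖vS d m r‖)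
    rwa [Finset.card_range] at this
  set Y2 : ℝ := ∑ n ∈ Finset.range N, ‖y n‖ ^ 2 with hY2d
  set V2 : ℝ := ∑ r ∈ Finset.range K, ‖vS d m r‖ ^ 2 with hV2d
  have hY20 : 0 ≤ Y2 := Finset.sum_nonneg fun _ _ => by positivity
  have hV20 : 0 ≤ V2 := Finset.sum_nonneg fun _ _ => by positivity
  have herr : 2 * (Y * (C1 / m * V)) + C2 / m * Y ^ 2
      ≤ (C1 * (N + K) + C2 * N) / m * (Y2 + V2) := by
    have g1 : 2 * (Y * V) ≤ N * Y2 + K * V2 := by nlinarith [sq_nonneg (Y - V)]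
    have hN0 : (0 : ℝ) ≤ N := Nat.cast_nonneg N
    have hKn : (0 : ℝ) ≤ K := Nat.cast_nonneg K
    have g2 : (N : ℝ) * Y2 + K * V2 ≤ (N + K) * (Y2 + V2) := by
      nlinarith [mul_nonneg hN0 hV20, mul_nonneg hKn hY20]
    have g3 : (N : ℝ) * Y2 ≤ N * (Y2 + V2) := by nlinarith [mul_nonneg hN0 hV20]
    have g4 : C1 * (2 * (Y * V)) + C2 * Y ^ 2 ≤ (C1 * (N + K) + C2 * N) * (Y2 + V2) := by
      have g5 := mul_le_mul_of_nonneg_left (g1.trans g2) hC1
      have g6 := mul_le_mul_of_nonneg_left (hY2.trans g3) hC2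
      linarith
    calc 2 * (Y * (C1 / m * V)) + C2 / m * Y ^ 2
        = (C1 * (2 * (Y * V)) + C2 * Y ^ 2) / m := by ring
      _ ≤ ((C1 * (N + K) + C2 * N) * (Y2 + V2)) / m := by
          apply div_le_div_of_nonneg_right g4 hmR0.le
      _ = _ := by ring
  set Lr := (∑ n ∈ Finset.range N, conj (y n) * A n).re with hLr
  set Qr := (∑ n ∈ Finset.range N, ∑ k ∈ Finset.range N, (y n * conj (y k)) * G k n).re with hQr
  have hid : 2 * lam * (m * Lr) - KS s * lam ^ 2 * (T * Qr)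
      = (m : ℝ) ^ 2 / (KS s * T) * (2 * Lr - Qr) := by
    rw [hlam]
    field_simp
  rw [hid]
  apply mul_le_mul_of_nonneg_left _ (by positivity)
  linarith

theorem P_lower (K N : ℕ) (hN : N + 1 ≤ 2 * K) : ∃ C : ℝ, 0 ≤ C ∧ ∀ s : ℂ, ‖s‖ ≤ 7 / 10 →
    ∀ b : ℝ, 0 < b → b ≤ 1 → 0 < b + 1 - 2 * s.re → ∀ m : ℕ, 1 ≤ m → ∀ d : ℕ → ℂ,
    (∀ l ≤ m, d l = d (m - l)) → ∀ y : ℕ → ℂ,
      (m : ℝ) ^ 2 / (KS s * pq (b + 3) (m - 1)) * (linF s K N (vS d m) y - gamF s b N y
        - C / m * (∑ n ∈ Finset.range N, ‖y n‖ ^ 2 + ∑ r ∈ Finset.range K, ‖vS d m r‖ ^ 2))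
      ≤ Pf s b d m :=
  P_lower_of K N hN (fun _ hs => ⟨(KS_facts hs).1, (KS_facts hs).2.1⟩)
    (fun _ hs _ hσ d m => Pf_eq hs hσ d m) (gram_eq N)

end Pool.Agent.Helper24.HR2
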