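import Mathlib
import Pool.Agent.Helper24.HR2.Defs
import Pool.Agent.Helper24.HR2.PLowerA
import Pool.Agent.Helper24.HR2.PLowerB
import Pool.Agent.Helper24.HR2.LimHS
import Pool.Agent.Helper24.HR2.LimX
import Pool.Agent.Helper37.PFS.Lim
import Pool.Agent.Helper37.PFS.Crs

/-!
MP_16b0ee, project HR2: the inequality for an antidiagonal of large order.
-/

set_option autoImplicit false

open MeasureTheory Set Metric Filter Topology
open scoped Real ComplexConjugate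

namespace Pool.Agent.Helper24.HR2

open Pool.Agent.Helper22.Half
open Pool.Agent.Helper22.Marshall (coeff SepHol LogPhi dcoeff GLe)
open Pool.Agent.Helper39.Area (Ext phi)
open Pool.Agent.Helper39.MH
open Pool.Agent.Helper37.PFS (El Ncross_eq ap_E bd_gam disc Ap.lower G1 G1_sq_le G1_nonneg)

theorem El_eq {s : ℂ} (hs : ‖s‖ < 1) {b : ℝ} (hb : 0 < b) (hσ : 0 < b + 1 - 2 * s.re)
    (K N D : ℕ) (p : ℕ → ℕ → ℝ) (ε κ τ δ₁ : ℝ) (g y : ℕ → ℂ) :
    El s b K N D p κ τ (ε + δ₁) g y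
      = limF s b K N D p ε κ τ g y - (1 + 1 / κ) * δ₁ * gamF s b N y := by
  have e2 : (∑ n ∈ Finset.range N, ∑ k ∈ Finset.range N,
        y n * conj (y k) * (Gm s b (k + n) : ℂ)).re = gamF s b N y := by
    rw [Complex.re_sum]
    unfold gamF
    apply Finset.sum_congr rfl
    intro n _
    rw [Complex.re_sum]
    apply Finset.sum_congr rfl
    intro k _
    rw [Complex.re_mul_ofReal, add_comm k n]
    ring
  have e3 : (∑ l ∈ Finset.range (D + 1), ∑ k ∈ Finset.range (D + 1),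
        (FF s D p (muS s K g) l * conj (FF s D p (muS s K g) k)).re
          * (Es s b / ((b + (l + k : ℕ)) * (b + (l + k : ℕ) + 1))))
      = Es s b * Nmain b D (FF s D p (muS s K g)) := by
    unfold Nmain
    rw [Finset.mul_sum]
    apply Finset.sum_congr rfl
    intro l _
    rw [Finset.mul_sum]
    apply Finset.sum_congr rfl
    intro k _
    push_cast
    rw [← add_assoc b (l : ℝ) (k : ℝ)]
    ring
  have e4 : 2 * (∑ l ∈ Finset.range (D + 1), ∑ n ∈ Finset.range N,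
        conj (FF s D p (muS s K g) l) * y n * ((Es s b * xln s b D p l n : ℝ) : ℂ)).re
      = Es s b * Nx s b D N p (FF s D p (muS s K g)) y := by
    unfold Nx
    rw [Complex.re_sum, Finset.mul_sum, Finset.mul_sum, Finset.mul_sum]
    apply Finset.sum_congr rfl
    intro l _
    rw [Complex.re_sum, Finset.mul_sum, Finset.mul_sum, Finset.mul_sum]
    apply Finset.sum_congr rfl
    intro n _
    rw [Complex.re_mul_ofReal]
    ring
  have e5 : 1 / τ * (∑ l ∈ Finset.range (D + 1), ∑ k ∈ Finset.range (D + 1),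
        conj (FF s D p (muS s K g) l) * FF s D p (muS s K g) k
          * ((Es s b ^ 2 / B0 s b
            * ∫ x in Ioo (0 : ℝ) 1, alp s b x * rl b D p l x * rl b D p k x : ℝ) : ℂ)).re
      = Es s b ^ 2 / τ * Ncross s b D p (FF s D p (muS s K g)) := by
    rw [Ncross_eq hs hb hσ, Complex.re_sum, Finset.mul_sum, Finset.mul_sum, Finset.mul_sum]
    apply Finset.sum_congr rfl
    intro l _
    rw [Complex.re_sum, Finset.mul_sum, Finset.mul_sum, Finset.mul_sum]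
    apply Finset.sum_congr rfl
    intro k _
    rw [Complex.re_mul_ofReal]
    ring
  unfold El limF
  rw [e2, e3, e4, e5]
  unfold linF
  ring

theorem perfreq_s {s : ℂ} (hs0 : s ≠ 0) (hs : ‖s‖ ≤ 7 / 10) {b : ℝ} (hb : 0 < b) (hb1 : b ≤ 1)
    (hσ : 0 < b + 1 - 2 * s.re) {K N D : ℕ} (hN : N + 1 ≤ 2 * K) (hD : D ≤ N)
    (hN1 : 1 ≤ N) (p : ℕ → ℕ → ℝ) (T : ℕ → ℕ → ℂ) {ε κ τ : ℝ} (hε : Es s b * HSn s b D p ≤ ε)
    (hκ : 0 < κ) (hτ : 0 < τ) (h1 : (1 + κ) * ε + τ < 1) {δ : ℝ} (hδ : 0 < δ) :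
    ∃ m0 : ℕ, ∀ m : ℕ, 1 ≤ m → m0 ≤ m → ∀ (J : ℕ) (d : ℕ → ℂ), (∀ l ≤ m, d l = d (m - l)) →
      (m : ℝ) ^ 2 / (KS s * pq (b + 3) (m - 1))
        * (limF s b K N D p ε κ τ (vS d m) (Tg K T (vS d m))
          - δ * ∑ r ∈ Finset.range K, ‖vS d m r‖ ^ 2)
      ≤ Pf s b d m - Nf s b d m J := by
  have hs1 : ‖s‖ < 1 := by linarith
  have hK0 : (0 : ℝ) < K := by
    have : 0 < K := by omega
    exact_mod_cast this
  -- the bound of the quadratic form in the test vector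
  obtain ⟨Cg, hCg0, hCg⟩ := bd_gam (K := K) s b N T
  -- the choice of the parameter
  set c1 := (1 + 1 / κ) * Cg with hc1
  have hc1n : 0 ≤ c1 := by positivity
  set δ₁ := min ((1 - ((1 + κ) * ε + τ)) / (1 + κ)) (δ / (2 * K * (c1 + 1))) with hδ₁
  have hδ₁0 : 0 < δ₁ := by
    apply lt_min
    · apply div_pos
      · linarith
      · linarith
    · positivity
  have hδ₁a : (1 + κ) * (ε + δ₁) + τ ≤ 1 := by
    have h := min_le_left ((1 - ((1 + κ) * ε + τ)) / (1 + κ)) (δ / (2 * K * (c1 + 1)))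
    rw [← hδ₁, le_div_iff₀ (by linarith)] at h
    linarith
  have hδ₁b : δ₁ * c1 * K ≤ δ / 2 := by
    have h := min_le_right ((1 - ((1 + κ) * ε + τ)) / (1 + κ)) (δ / (2 * K * (c1 + 1)))
    rw [← hδ₁, le_div_iff₀ (by positivity)] at h
    have h5 : 0 ≤ δ₁ * K := by positivity
    nlinarith
  have hlow := Ap.lower (ap_E (K := K) hs0 hs hb hb1 hσ hN hD hN1 p T κ τ (ε + δ₁))
    (η := δ / (2 * K)) (by positivity)
  obtain ⟨m1, hm1⟩ := hlow
  obtain ⟨m2, hm2⟩ := eventually_atTop.1 (lim_HS hs0 hs1 hb hσ D p hδ₁0)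
  refine ⟨max m1 m2, fun m hm hmm J d hd => ?_⟩
  have hmm1 : m1 ≤ m := le_of_max_le_left hmm
  have hmm2 : m2 ≤ m := le_of_max_le_right hmm
  have hd2 := disc hs1 hb hσ (N := N) (D := D) p hκ hτ hδ₁a hm
    (fun J => (hm2 m hmm2 J).trans (by linarith)) (fun l => (lim_bD hs0 hs1 hb hσ l).1 m)
    (fun l i hi => (lim_x hs0 hs1 hb hσ D p l 0).1 m i hi) hd (Tg K T (vS d m)) J
  refine le_trans ?_ hd2
  have hKS := KS_facts hs1
  have hS0 := pq_pos (z := b + 3) (by linarith) (m - 1)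
  have hKSp : 0 < KS s := by linarith [hKS.1]
  apply mul_le_mul_of_nonneg_left _ (by positivity)
  have h2 := hm1 m hmm1 hm d hd
  rw [El_eq hs1 hb hσ] at h2
  have h3 := hCg m hm d hd
  have h4 := (abs_le.1 h3).2
  have h5 := G1_sq_le K m d
  have h6 : (1 + 1 / κ) * δ₁ * gamF s b N (Tg K T (vS d m)) ≤ δ₁ * c1 * G1 K m d ^ 2 := by
    have := mul_le_mul_of_nonneg_left h4 (by positivity : 0 ≤ (1 + 1 / κ) * δ₁)
    refine this.trans (le_of_eq ?_)
    rw [hc1]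
    ring
  have h7 : δ₁ * c1 * G1 K m d ^ 2 ≤ δ₁ * c1 * (K * ∑ r ∈ Finset.range K, ‖vS d m r‖ ^ 2) :=
    mul_le_mul_of_nonneg_left h5 (by positivity)
  have hsn : 0 ≤ ∑ r ∈ Finset.range K, ‖vS d m r‖ ^ 2 :=
    Finset.sum_nonneg (fun _ _ => sq_nonneg _)
  have h8 : δ₁ * c1 * (K * ∑ r ∈ Finset.range K, ‖vS d m r‖ ^ 2)
      ≤ δ / 2 * ∑ r ∈ Finset.range K, ‖vS d m r‖ ^ 2 := by
    have := mul_le_mul_of_nonneg_right hδ₁b hsn
    linarith
  have h9 : δ / (2 * K) * G1 K m d ^ 2 ≤ δ / 2 * ∑ r ∈ Finset.range K, ‖vS d m r‖ ^ 2 := by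
    have := mul_le_mul_of_nonneg_left h5 (by positivity : 0 ≤ δ / (2 * K))
    refine this.trans (le_of_eq ?_)
    field_simp
  linarith

end Pool.Agent.Helper24.HR2
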