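import Mathlib
import Pool.Agent.Helper24.HR2.Defs
import Pool.Agent.Helper24.HR2.JetsS
import Pool.Agent.Helper24.HR2.AreaS
import Pool.Agent.Helper24.HR2.PLowerA
import Pool.Agent.Helper24.HR2.PerFreqS
import Pool.Agent.Helper24.HR2.FormBase

/-!
MP_16b0ee, project HR2, section R8: the area form in the scaled variables.
-/

set_option autoImplicit false

open MeasureTheory Set Metric Filter Topology
open scoped Real ComplexConjugate

namespace Pool.Agent.Helper24.HR2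

open Pool.Agent.Helper22.Half
open Pool.Agent.Helper22.Marshall (coeff SepHol LogPhi dcoeff GLe coeff_const_mul)
open Pool.Agent.Helper39.Area (Ext phi)
open Pool.Agent.Helper39.MH

namespace FS

theorem pv_append (c : ℕ → ℂ) (P R : List (ℂ × List ℕ)) : pv c (P ++ R) = pv c P + pv c R := by
  unfold pv
  rw [List.map_append, List.sum_append]

theorem px_append (s : ℂ) (H : ℂ → ℂ) (P R : List (ℂ × List ℕ)) (m : ℕ) :
    px s H (P ++ R) m = px s H P m + px s H R m := by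
  unfold px
  rw [List.map_append, List.sum_append]

/-- the leading parts of the even moments, as polynomials in the jets -/
noncomputable def LP (s : ℂ) : ℕ → List (ℂ × List ℕ)
  | 0 => [(1, [])]
  | 1 => [(s / 2, [0, 0]), (-(s / 2), [1])]
  | 2 => [(-(3 / 2) * s, [3]), (3 / 4 * (s ^ 2 - s) + 3 / 2 * s, [1, 1]), (3 * s, [0, 2]),
      (-(3 / 2) * (s ^ 2 - s) - 9 / 2 * s, [0, 0, 1]),
      (3 / 4 * (s ^ 2 - s) + 3 / 2 * s, [0, 0, 0, 0])]
  | _ => []

/-- the lower order parts of the even moments, as polynomials in the jets -/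
noncomputable def lP (s : ℂ) : ℕ → List (ℂ × List ℕ)
  | 1 => [(1 / 3 * s, [0])]
  | 2 => [(6 / 5 * s, [2]), (-(7 / 5) * s - s ^ 2, [0, 1]), (1 / 5 * s + s ^ 2, [0, 0, 0]),
      (-(1 / 5) * s, [1]), (-(2 / 15) * s + 1 / 3 * s ^ 2, [0, 0]), (-(1 / 15) * s, [0])]
  | _ => []

theorem XS_eq (s : ℂ) (c : ℕ → ℂ) {r : ℕ} (hr : r < 3) : XS s c r = pv c (LP s r) := by
  interval_cases r
  · simp [XS, pv, LP, ev]
  · simp [XS, pv, LP, ev]
    ring
  · simp [XS, pv, LP, ev]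
    ring

theorem low2S_eq (s : ℂ) (c : ℕ → ℂ) : low2S s c = pv c (lP s 1) := by
  simp [low2S, pv, lP, ev]

theorem low4S_eq (s : ℂ) (c : ℕ → ℂ) : low4S s c = pv c (lP s 2) := by
  simp [low4S, pv, lP, ev]
  ring

theorem LP_wt (s : ℂ) {r : ℕ} (hr : r < 3) : ∀ x ∈ LP s r, wt x.2 = 2 * r := by
  interval_cases r
  · simp [LP, wt]
  · simp [LP, wt]
  · simp [LP, wt]

theorem lP_wt (s : ℂ) {r : ℕ} (hr : r < 3) : ∀ x ∈ lP s r, wt x.2 + 1 ≤ 2 * r := by
  interval_cases r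
  · simp [lP]
  · simp [lP, wt]
  · simp [lP, wt]

/-- the monomials which occur -/
def Ls : Fin 12 → List ℕ :=
  ![[], [0, 0], [1], [3], [1, 1], [0, 2], [0, 0, 1], [0, 0, 0, 0], [0], [2], [0, 1], [0, 0, 0]]

theorem LP_mem (s : ℂ) {r : ℕ} (hr : r < 3) : ∀ x ∈ LP s r, ∃ i, x.2 = Ls i := by
  interval_cases r
  · intro x hx
    simp only [LP, List.mem_cons, List.not_mem_nil, or_false] at hx
    subst hx
    exact ⟨0, rfl⟩
  · intro x hx
    simp only [LP, List.mem_cons, List.not_mem_nil, or_false] at hx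
    rcases hx with rfl | rfl
    · exact ⟨1, rfl⟩
    · exact ⟨2, rfl⟩
  · intro x hx
    simp only [LP, List.mem_cons, List.not_mem_nil, or_false] at hx
    rcases hx with rfl | rfl | rfl | rfl | rfl
    · exact ⟨3, rfl⟩
    · exact ⟨4, rfl⟩
    · exact ⟨5, rfl⟩
    · exact ⟨6, rfl⟩
    · exact ⟨7, rfl⟩

theorem lP_mem (s : ℂ) {r : ℕ} (hr : r < 3) : ∀ x ∈ lP s r, ∃ i, x.2 = Ls i := by
  interval_cases r
  · intro x hx
    simp [lP] at hx
  · intro x hx
    simp only [lP, List.mem_cons, List.not_mem_nil, or_false] at hx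
    subst hx
    exact ⟨8, rfl⟩
  · intro x hx
    simp only [lP, List.mem_cons, List.not_mem_nil, or_false] at hx
    rcases hx with rfl | rfl | rfl | rfl | rfl | rfl
    · exact ⟨9, rfl⟩
    · exact ⟨10, rfl⟩
    · exact ⟨11, rfl⟩
    · exact ⟨2, rfl⟩
    · exact ⟨1, rfl⟩
    · exact ⟨8, rfl⟩

/-- the sum of the normalised moduli -/
noncomputable def NS (s : ℂ) (H : ℂ → ℂ) (m : ℕ) : ℝ := ∑ i, ys s H (Ls i) m

/-- the sum of the squares of the normalised moduli -/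
noncomputable def S2S (s : ℂ) (H : ℂ → ℂ) (m : ℕ) : ℝ := ∑ i, ys s H (Ls i) m ^ 2

theorem ys_le (s : ℂ) (H : ℂ → ℂ) (m : ℕ) (i : Fin 12) : ys s H (Ls i) m ≤ NS s H m :=
  Finset.single_le_sum (f := fun i => ys s H (Ls i) m) (fun i _ => ys_nonneg s H (Ls i) m)
    (Finset.mem_univ i)

theorem NS_nonneg (s : ℂ) (H : ℂ → ℂ) (m : ℕ) : 0 ≤ NS s H m :=
  Finset.sum_nonneg fun i _ => ys_nonneg s H (Ls i) m

theorem NS_sq (s : ℂ) (H : ℂ → ℂ) (m : ℕ) : NS s H m ^ 2 ≤ 12 * S2S s H m := by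
  have h := sq_sum_le_card_mul_sum_sq (s := (Finset.univ : Finset (Fin 12)))
    (f := fun i => ys s H (Ls i) m)
  unfold NS S2S
  simpa using h

theorem S2S_nonneg (s : ℂ) (H : ℂ → ℂ) (m : ℕ) : 0 ≤ S2S s H m :=
  Finset.sum_nonneg fun i _ => by positivity

/-- the leading part of the normalised moments -/
noncomputable def us (s : ℂ) (H : ℂ → ℂ) (m r : ℕ) : ℂ := px s H (LP s r) m / (m : ℂ) ^ (2 * r)

/-- the lower order part of the normalised moments -/
noncomputable def es (s : ℂ) (H : ℂ → ℂ) (m r : ℕ) : ℂ := px s H (lP s r) m / (m : ℂ) ^ (2 * r)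

theorem vS_split {ρ : ℝ} {β H : ℂ → ℂ} {Φ : ℂ → ℂ → ℂ} (h : Dat ρ β H Φ) (s : ℂ) (m : ℕ)
    {r : ℕ} (hr : r < 3) : vS (diagc (EE Φ s) m) m r = us s H m r + es s H m r := by
  have hH : DifferentiableOn ℂ H (ball 0 1) := (dat_hyp h).1
  have key : ∑ l ∈ Finset.range (m + 1), diagc (EE Φ s) m l * ((l : ℂ) - m / 2) ^ (2 * r)
      = px s H (LP s r) m + px s H (lP s r) m := by
    rw [← px_append, ← coeff_pv s hH]
    interval_cases r
    · have e1 := EE_diag h.logPhi s m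
      simp only [mul_zero, pow_zero, mul_one]
      rw [e1]
      congr 1
      funext z
      simp [pv, LP, lP, ev]
    · have e1 := jetS2 h.toData s m
      rw [mul_one, e1]
      congr 1
      funext z
      rw [pv_append, ← XS_eq s _ (by norm_num), ← low2S_eq]
    · have e1 := jetS4 h.toData s m
      rw [show 2 * 2 = 4 by norm_num, e1]
      congr 1
      funext z
      rw [pv_append, ← XS_eq s _ (by norm_num), ← low4S_eq]
  unfold vS us es
  rw [key, add_div]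

/-- a common bound of the coefficients -/
noncomputable def CP (s : ℂ) : ℝ :=
  1 + ∑ r ∈ Finset.range 3, (pn (LP s r) + pn (lP s r))

theorem CP_ge (s : ℂ) {r : ℕ} (hr : r < 3) : pn (LP s r) + pn (lP s r) ≤ CP s := by
  unfold CP
  have h1 := Finset.single_le_sum (f := fun r => pn (LP s r) + pn (lP s r))
    (s := Finset.range 3) (fun r _ => add_nonneg (pn_nonneg _) (pn_nonneg _))
    (Finset.mem_range.mpr hr)
  linarith

theorem CP_pos (s : ℂ) : 1 ≤ CP s := by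
  unfold CP
  have h1 := Finset.sum_nonneg (f := fun r => pn (LP s r) + pn (lP s r))
    (s := Finset.range 3) (fun r _ => add_nonneg (pn_nonneg _) (pn_nonneg _))
  linarith

theorem norm_us_le (s : ℂ) (H : ℂ → ℂ) {m : ℕ} (hm : 1 ≤ m) {r : ℕ} (hr : r < 3) :
    ‖us s H m r‖ ≤ CP s * NS s H m := by
  have hm0 : (0 : ℝ) < m := by exact_mod_cast hm
  have h1 := norm_px_le s H (LP s r) (w := 2 * r) hm (N := NS s H m) (fun x hx => by
    obtain ⟨i, hi⟩ := LP_mem s hr x hx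
    exact ⟨(LP_wt s hr x hx).le, by rw [hi]; exact ys_le s H m i⟩)
  unfold us
  rw [norm_div, norm_pow, Complex.norm_natCast, div_le_iff₀ (by positivity)]
  have hN := NS_nonneg s H m
  have h2 := CP_ge s hr
  have h3 := pn_nonneg (lP s r)
  refine h1.trans ?_
  apply mul_le_mul_of_nonneg_right _ (by positivity)
  apply mul_le_mul_of_nonneg_right _ hN
  linarith

theorem norm_es_le (s : ℂ) (H : ℂ → ℂ) {m : ℕ} (hm : 1 ≤ m) {r : ℕ} (hr : r < 3) :
    ‖es s H m r‖ ≤ CP s * NS s H m / m := by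
  have hm0 : (0 : ℝ) < m := by exact_mod_cast hm
  have hN := NS_nonneg s H m
  have hC := CP_pos s
  rcases Nat.eq_zero_or_pos r with h0 | h0
  · subst h0
    have e : es s H m 0 = 0 := by
      unfold es
      have : lP s 0 = [] := rfl
      rw [this, px_nil, zero_div]
    rw [e, norm_zero]
    positivity
  · have h1 := norm_px_le s H (lP s r) (w := 2 * r - 1) hm (N := NS s H m) (fun x hx => by
      obtain ⟨i, hi⟩ := lP_mem s hr x hx
      have h2 := lP_wt s hr x hx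
      exact ⟨by omega, by rw [hi]; exact ys_le s H m i⟩)
    unfold es
    have h2 := CP_ge s hr
    have h3 := pn_nonneg (LP s r)
    have e : (m : ℝ) ^ (2 * r) = (m : ℝ) ^ (2 * r - 1) * m := by
      rw [← pow_succ]
      congr 1
      omega
    rw [norm_div, norm_pow, Complex.norm_natCast, e, ← div_div]
    apply div_le_div_of_nonneg_right _ hm0.le
    rw [div_le_iff₀ (by positivity)]
    refine h1.trans ?_
    apply mul_le_mul_of_nonneg_right _ (by positivity)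
    apply mul_le_mul_of_nonneg_right _ hN
    linarith

/-! ### the area form as a series -/

/-- the term of order `m` of the area form -/
noncomputable def cmS (Q : ℕ → ℕ → ℂ) (s : ℂ) (b : ℝ) (H : ℂ → ℂ) (m : ℕ) : ℝ :=
  ∑ r ∈ Finset.range 3, ∑ t ∈ Finset.range 3, b * (b + 1) * (b + 2) / poch b (2 * r + 2 * t)
    * (((b + (2 * t : ℕ) + (2 * r : ℕ)) * pq (b + (2 * t : ℕ) + (2 * r : ℕ) + 1) m)⁻¹
      * (Q r t * (px s H (LP s t) m * conj (px s H (LP s r) m))).re)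

theorem cmS_hasSum {ρ : ℝ} {β H : ℂ → ℂ} {Φ : ℂ → ℂ → ℂ} (h : Dat ρ β H Φ) {b : ℝ} (hb : 0 < b)
    (s : ℂ) (Q : ℕ → ℕ → ℂ) :
    HasSum (cmS Q s b H) (LS s H b (fun z => qS Q s b (cc H z))) := by
  have hH := dat_cont h
  have e : LS s H b (fun z => qS Q s b (cc H z)) = ∑ r ∈ Finset.range 3, ∑ t ∈ Finset.range 3,
      b * (b + 1) * (b + 2) / poch b (2 * r + 2 * t)
        * LS s H b (fun z => (Q r t * (pv (cc H z) (LP s t)
          * conj (pv (cc H z) (LP s r)))).re) := by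
    have e1 : (fun z => qS Q s b (cc H z)) = fun z => ∑ r ∈ Finset.range 3,
        ∑ t ∈ Finset.range 3, b * (b + 1) * (b + 2) / poch b (2 * r + 2 * t)
        * (Q r t * (pv (cc H z) (LP s t) * conj (pv (cc H z) (LP s r)))).re := by
      funext z
      unfold qS
      rw [Finset.mul_sum]
      apply Finset.sum_congr rfl
      intro r hr
      rw [Finset.mul_sum]
      apply Finset.sum_congr rfl
      intro t ht
      rw [Finset.mem_range] at hr ht
      rw [XS_eq s _ ht, XS_eq s _ hr]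
      ring
    rw [e1, LS_fsum hH hb]
    · apply Finset.sum_congr rfl
      intro r _
      rw [LS_fsum hH hb]
      · apply Finset.sum_congr rfl
        intro t _
        exact LS_smul _ _
      · intro t _
        exact (cont_pair (cont_pv h _) (cont_pv h _) _).const_mul _
    · intro r _
      apply continuousOn_finsetSum
      intro t _
      exact (cont_pair (cont_pv h _) (cont_pv h _) _).const_mul _
  rw [e]
  apply hasSum_sum
  intro r hr
  apply hasSum_sum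
  intro t ht
  rw [Finset.mem_range] at hr ht
  exact (pair_hasSum h hb s (LP s t) (LP s r) (LP_wt s ht) (LP_wt s hr) (Q r t)).mul_left _

theorem cmS_eq {b : ℝ} (hb : 0 < b) (Q : ℕ → ℕ → ℂ) (s : ℂ) (H : ℂ → ℂ) {m : ℕ} (hm : 1 ≤ m) :
    cmS Q s b H m = WtS b m * ∑ r ∈ Finset.range 3, ∑ t ∈ Finset.range 3,
      trS b m (2 * r + 2 * t) * (Q r t * (us s H m t * conj (us s H m r))).re := by
  have hm0 : (0:ℝ) < m := by exact_mod_cast hm
  have hW := WtS_pos hb hm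
  unfold cmS
  rw [Finset.mul_sum]
  apply Finset.sum_congr rfl
  intro r _
  rw [Finset.mul_sum]
  apply Finset.sum_congr rfl
  intro t _
  have e1 : (Q r t * (us s H m t * conj (us s H m r))).re
      = (Q r t * (px s H (LP s t) m * conj (px s H (LP s r) m))).re
        / (m : ℝ) ^ (2 * r + 2 * t) := by
    unfold us
    rw [map_div₀, map_pow, Complex.conj_natCast, div_mul_div_comm, ← pow_add, mul_div_assoc']
    have e2 : (m : ℂ) ^ (2 * t + 2 * r) = (((m : ℝ) ^ (2 * r + 2 * t) : ℝ) : ℂ) := by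
      push_cast
      rw [Nat.add_comm]
    rw [e2, Complex.div_ofReal_re]
  rw [e1]
  unfold trS
  have hc : (b + ((2 * t : ℕ) : ℝ) + ((2 * r : ℕ) : ℝ)) = b + ((2 * r + 2 * t : ℕ) : ℝ) := by
    push_cast
    ring
  rw [hc]
  set w := 2 * r + 2 * t with hw
  have hp1 := poch_pos hb w
  have hp2 := pq_pos (show (0:ℝ) < b + w + 1 by positivity) m
  have hbw : (0:ℝ) < b + w := by positivity
  field_simp

/-! ### the inequality for a large order -/

theorem KS_pos {s : ℂ} (hs : ‖s‖ < 1) : 0 < KS s := lt_of_lt_of_le one_pos (KS_facts hs).1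

theorem per_order_s {s : ℂ} (hs0 : s ≠ 0) (hs : ‖s‖ ≤ 7 / 10) {b : ℝ} (hb : 0 < b)
    (hb1 : b ≤ 1) (hσ : 0 < b + 1 - 2 * s.re) {D : ℕ} (hD : D ≤ 5)
    (p : ℕ → ℕ → ℝ) (T Q : ℕ → ℕ → ℂ) {ε κ τ : ℝ} (hε : Es s b * HSn s b D p ≤ ε)
    (hκ : 0 < κ) (hτ : 0 < τ) (h1 : (1 + κ) * ε + τ < 1)
    (hQ : ∀ g : ℕ → ℂ, hF 3 Q g ≤ limF s b 3 5 D p ε κ τ g (Tg 3 T g)) {δ : ℝ} (hδ : 0 < δ) :
    ∃ m1 : ℕ, ∀ m : ℕ, m1 ≤ m → ∀ (J : ℕ) (ρ : ℝ) (β H : ℂ → ℂ) (Φ : ℂ → ℂ → ℂ),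
      Dat ρ β H Φ → cmS Q s b H m
        ≤ KS s * (Pf s b (diagc (EE Φ s) m) m - Nf s b (diagc (EE Φ s) m) m J)
          + δ * (WtS b m * S2S s H m) := by
  have hs1 : ‖s‖ < 1 := by linarith
  have hK := KS_pos hs1
  have hC := CP_pos s
  set C := CP s with hCdef
  have hq := qn_nonneg 3 Q
  obtain ⟨m0, hm0⟩ := perfreq_s hs0 hs hb hb1 hσ (K := 3) (N := 5) (by norm_num) hD
    (by norm_num) p T hε hκ hτ h1 (δ := δ / (432 * C ^ 2)) (by positivity)
  set e2 : ℝ := δ / (36 * C ^ 2 * (qn 3 Q + 1)) with he2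
  have he2p : 0 < e2 := by positivity
  have hev : ∀ᶠ m : ℕ in atTop, ∀ w ∈ Finset.range 9, |trS b m w - 1| ≤ e2 := by
    rw [Finset.eventually_all]
    intro w _
    have h1 := trS_tendsto hb w
    have h2 := Metric.tendsto_atTop.mp h1 e2 he2p
    obtain ⟨n0, hn0⟩ := h2
    filter_upwards [eventually_ge_atTop n0] with m hm
    have h3 := hn0 m hm
    rw [Real.dist_eq] at h3
    exact h3.le
  have hev2 : ∀ᶠ m : ℕ in atTop, 1 ≤ m ∧ m0 ≤ m ∧ 108 * C ^ 2 * qn 3 Q / δ ≤ (m : ℝ) ∧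
      ∀ w ∈ Finset.range 9, |trS b m w - 1| ≤ e2 := by
    filter_upwards [eventually_ge_atTop 1, eventually_ge_atTop m0,
      eventually_ge_atTop ⌈108 * C ^ 2 * qn 3 Q / δ⌉₊, hev] with m h1 h2 h3 h4
    exact ⟨h1, h2, (Nat.le_ceil _).trans (by exact_mod_cast h3), h4⟩
  obtain ⟨m1, hm1⟩ := eventually_atTop.mp hev2
  refine ⟨m1, fun m hm J ρ β H Φ h => ?_⟩
  obtain ⟨g1, g2, g3, g4⟩ := hm1 m hm
  have hmr : (0:ℝ) < m := by exact_mod_cast g1
  have hmr1 : (1:ℝ) ≤ m := by exact_mod_cast g1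
  have hW := WtS_pos hb g1
  have hN := NS_nonneg s H m
  set N := NS s H m with hNdef
  have hN2 := NS_sq s H m
  rw [← hNdef] at hN2
  -- the exact form
  have hA : cmS Q s b H m ≤ WtS b m * (hF 3 Q (us s H m) + e2 * (qn 3 Q * (C * N) ^ 2)) := by
    rw [cmS_eq hb Q s H g1]
    apply mul_le_mul_of_nonneg_left _ hW.le
    apply hF_pert 3 Q (fun r t => trS b m (2 * r + 2 * t)) (us s H m) (by positivity) he2p.le
    · intro i hi
      exact norm_us_le s H g1 hi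
    · intro r hr t ht
      apply g4
      rw [Finset.mem_range]
      omega
  set v : ℕ → ℂ := vS (diagc (EE Φ s) m) m with hv
  have hve : ∀ i < 3, ‖us s H m i - v i‖ ≤ C * N / m := by
    intro i hi
    rw [hv, vS_split h s m hi]
    have e : us s H m i - (us s H m i + es s H m i) = -es s H m i := by ring
    rw [e, norm_neg]
    exact norm_es_le s H g1 hi
  have h2N : C * N / m ≤ C * N := div_le_self (by positivity) hmr1
  have hvn : ∀ i < 3, ‖v i‖ ≤ 2 * (C * N) := by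
    intro i hi
    have e : v i = us s H m i - (us s H m i - v i) := by ring
    rw [e]
    refine (norm_sub_le _ _).trans ?_
    have a1 := norm_us_le s H g1 hi
    have a2 := hve i hi
    rw [← hNdef, ← hCdef] at a1
    linarith
  have hB : hF 3 Q (us s H m) ≤ hF 3 Q v + 3 * C ^ 2 * qn 3 Q * N ^ 2 / m := by
    have a1 := hF_diff 3 Q (us s H m) v (U := C * N) (V := 2 * (C * N)) (e := C * N / m)
      (by positivity) (fun i hi => norm_us_le s H g1 hi) hvn hve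
    have e3 : qn 3 Q * (C * N / m * (C * N + 2 * (C * N)))
        = 3 * C ^ 2 * qn 3 Q * N ^ 2 / m := by
      field_simp
      ring
    rw [e3] at a1
    linarith
  have hC2 := hQ v
  have hD2 := hm0 m g1 g2 J (diagc (EE Φ s) m) (EE_symm h.logPhi s m)
  rw [← hv] at hD2
  have hWK : (m : ℝ) ^ 2 / (KS s * pq (b + 3) (m - 1)) = WtS b m / KS s := by
    unfold WtS
    rw [div_div, mul_comm (pq (b + 3) (m - 1))]
  rw [hWK] at hD2
  have hD3 : WtS b m * (hF 3 Q v - δ / (432 * C ^ 2) * ∑ r ∈ Finset.range 3, ‖v r‖ ^ 2)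
      ≤ KS s * (Pf s b (diagc (EE Φ s) m) m - Nf s b (diagc (EE Φ s) m) m J) := by
    have a1 : WtS b m / KS s * (hF 3 Q v - δ / (432 * C ^ 2) * ∑ r ∈ Finset.range 3, ‖v r‖ ^ 2)
        ≤ Pf s b (diagc (EE Φ s) m) m - Nf s b (diagc (EE Φ s) m) m J := by
      refine le_trans ?_ hD2
      apply mul_le_mul_of_nonneg_left _ (by positivity)
      linarith
    have a2 := mul_le_mul_of_nonneg_left a1 hK.le
    have e4 : KS s * (WtS b m / KS s
        * (hF 3 Q v - δ / (432 * C ^ 2) * ∑ r ∈ Finset.range 3, ‖v r‖ ^ 2))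
        = WtS b m * (hF 3 Q v - δ / (432 * C ^ 2) * ∑ r ∈ Finset.range 3, ‖v r‖ ^ 2) := by
      field_simp
    rw [e4] at a2
    exact a2
  have hE : ∑ r ∈ Finset.range 3, ‖v r‖ ^ 2 ≤ 12 * C ^ 2 * N ^ 2 := by
    have a : ∀ r < 3, ‖v r‖ ^ 2 ≤ (2 * (C * N)) ^ 2 := fun r hr =>
      pow_le_pow_left₀ (norm_nonneg _) (hvn r hr) 2
    simp only [Finset.sum_range_succ, Finset.sum_range_zero]
    have a0 := a 0 (by norm_num)
    have a1 := a 1 (by norm_num)
    have a2 := a 2 (by norm_num)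
    nlinarith
  have hF1 : 3 * C ^ 2 * qn 3 Q * N ^ 2 / m ≤ δ / 36 * N ^ 2 := by
    rw [div_le_iff₀ hmr]
    rw [div_le_iff₀ hδ] at g3
    have a := mul_le_mul_of_nonneg_right g3 (sq_nonneg N)
    nlinarith
  have hG : e2 * (qn 3 Q * (C * N) ^ 2) ≤ δ / 36 * N ^ 2 := by
    have a : e2 * (qn 3 Q * C ^ 2) ≤ δ / 36 := by
      rw [he2, div_mul_eq_mul_div, div_le_iff₀ (by positivity)]
      have : 0 ≤ δ * C ^ 2 := by positivity
      nlinarith
    have a2 := mul_le_mul_of_nonneg_right a (sq_nonneg N)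
    calc e2 * (qn 3 Q * (C * N) ^ 2) = e2 * (qn 3 Q * C ^ 2) * N ^ 2 := by ring
      _ ≤ δ / 36 * N ^ 2 := a2
  -- conclusion
  have hI : hF 3 Q (us s H m) + e2 * (qn 3 Q * (C * N) ^ 2)
      ≤ (hF 3 Q v - δ / (432 * C ^ 2) * ∑ r ∈ Finset.range 3, ‖v r‖ ^ 2) + δ * S2S s H m := by
    have a : δ / (432 * C ^ 2) * ∑ r ∈ Finset.range 3, ‖v r‖ ^ 2 ≤ δ / 36 * N ^ 2 := by
      have a1 := mul_le_mul_of_nonneg_left hE (show 0 ≤ δ / (432 * C ^ 2) by positivity)
      have e5 : δ / (432 * C ^ 2) * (12 * C ^ 2 * N ^ 2) = δ / 36 * N ^ 2 := by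
        field_simp
        ring
      rw [e5] at a1
      exact a1
    have a2 : δ / 12 * N ^ 2 ≤ δ / 12 * (12 * S2S s H m) :=
      mul_le_mul_of_nonneg_left hN2 (by positivity)
    linarith
  calc cmS Q s b H m ≤ WtS b m * (hF 3 Q (us s H m) + e2 * (qn 3 Q * (C * N) ^ 2)) := hA
    _ ≤ WtS b m * ((hF 3 Q v - δ / (432 * C ^ 2) * ∑ r ∈ Finset.range 3, ‖v r‖ ^ 2)
        + δ * S2S s H m) := mul_le_mul_of_nonneg_left hI hW.le
    _ = WtS b m * (hF 3 Q v - δ / (432 * C ^ 2) * ∑ r ∈ Finset.range 3, ‖v r‖ ^ 2)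
        + δ * (WtS b m * S2S s H m) := by ring
    _ ≤ _ := add_le_add hD3 (le_refl _)

/-! ### the finite part -/

theorem cmS_bound {b : ℝ} (Q : ℕ → ℕ → ℂ) {s : ℂ} (hs : ‖s‖ ≤ 1) (m : ℕ) : ∃ C : ℝ, 0 ≤ C ∧
    ∀ (ρ : ℝ) (β H : ℂ → ℂ) (Φ : ℂ → ℂ → ℂ), Dat ρ β H Φ → cmS Q s b H m ≤ C := by
  have h := fun r : ℕ => px_bound s hs (LP s r) m
  choose B hB0 hB using h
  refine ⟨∑ r ∈ Finset.range 3, ∑ t ∈ Finset.range 3,
    |b * (b + 1) * (b + 2) / poch b (2 * r + 2 * t)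
      * ((b + (2 * t : ℕ) + (2 * r : ℕ)) * pq (b + (2 * t : ℕ) + (2 * r : ℕ) + 1) m)⁻¹|
      * (‖Q r t‖ * (B t * B r)), ?_, fun ρ β H Φ hd => ?_⟩
  · exact Finset.sum_nonneg fun r _ => Finset.sum_nonneg fun t _ =>
      mul_nonneg (abs_nonneg _) (mul_nonneg (norm_nonneg _) (mul_nonneg (hB0 t) (hB0 r)))
  · unfold cmS
    apply Finset.sum_le_sum
    intro r _
    apply Finset.sum_le_sum
    intro t _
    rw [← mul_assoc]
    refine (le_abs_self _).trans ?_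
    rw [abs_mul]
    apply mul_le_mul_of_nonneg_left _ (abs_nonneg _)
    refine (Complex.abs_re_le_norm _).trans ?_
    rw [norm_mul, norm_mul, RCLike.norm_conj]
    exact mul_le_mul_of_nonneg_left
      (mul_le_mul (hB t ρ β H Φ hd) (hB r ρ β H Φ hd) (norm_nonneg _) (hB0 t)) (norm_nonneg _)

theorem S2S_sum {b : ℝ} (hb : 0 < b) : ∃ C : ℝ, 0 ≤ C ∧
    ∀ (ρ : ℝ) (β H : ℂ → ℂ) (Φ : ℂ → ℂ → ℂ), Dat ρ β H Φ → ∀ (s : ℂ) (F : Finset ℕ),
      ∑ m ∈ F, WtS b m * S2S s H m ≤ C * LS s H b (fun _ => 1) := by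
  have h := fun i : Fin 12 => norm_sum_s hb (Ls i)
  choose C hC0 hC using h
  refine ⟨∑ i, C i, Finset.sum_nonneg fun i _ => hC0 i, fun ρ β H Φ hd s F => ?_⟩
  have e : ∑ m ∈ F, WtS b m * S2S s H m = ∑ i, ∑ m ∈ F, WtS b m * ys s H (Ls i) m ^ 2 := by
    rw [Finset.sum_comm]
    apply Finset.sum_congr rfl
    intro m _
    unfold S2S
    rw [Finset.mul_sum]
  rw [e, Finset.sum_mul]
  apply Finset.sum_le_sum
  intro i _
  exact hC i ρ β H Φ hd s F

end FS

open FS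

theorem area_form_s {s : ℂ} (hs0 : s ≠ 0) (hs : ‖s‖ ≤ 7 / 10) {b : ℝ} (hb : 0 < b)
    (hb1 : b ≤ 1) (hσ : 0 < b + 1 - 2 * s.re) (hg : 2 * ‖s‖ < b + 1) {D : ℕ} (hD : D ≤ 5)
    (p : ℕ → ℕ → ℝ) (T Q : ℕ → ℕ → ℂ) {ε κ τ : ℝ} (hε : Es s b * HSn s b D p ≤ ε)
    (hκ : 0 < κ) (hτ : 0 < τ) (h1 : (1 + κ) * ε + τ < 1)
    (hQ : ∀ g : ℕ → ℂ, hF 3 Q g ≤ limF s b 3 5 D p ε κ τ g (Tg 3 T g)) {δ : ℝ} (hδ : 0 < δ) :
    ∃ C : ℝ, ∀ (ρ : ℝ) (β H : ℂ → ℂ) (Φ : ℂ → ℂ → ℂ), Dat ρ β H Φ →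
      LS s H b (fun z => qS Q s b (cc H z)) ≤ δ * LS s H b (fun _ => 1) + C := by
  have hs1 : ‖s‖ < 1 := by linarith
  have hK := KS_pos hs1
  obtain ⟨C4, hC40, hC4⟩ := S2S_sum hb
  set δ' : ℝ := δ / (C4 + 1) with hδ'
  have hδp : 0 < δ' := by positivity
  obtain ⟨m1, hm1⟩ := per_order_s hs0 hs hb hb1 hσ hD p T Q hε hκ hτ h1 hQ hδp
  have hfin := fun m : ℕ => cmS_bound (b := b) Q hs1.le m
  choose B hB0 hB using hfin
  have hNf := fun m : ℕ => Nf_small_fixed hs1 hb hσ m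
  choose B' hB'0 hB' using hNf
  refine ⟨∑ m ∈ Finset.range m1, B m + KS s * ∑ m ∈ Finset.range m1, B' m,
    fun ρ β H Φ h => ?_⟩
  have hsum := (cmS_hasSum h hb s Q).tendsto_sum_nat
  apply le_of_tendsto hsum
  filter_upwards [eventually_ge_atTop m1] with M hM
  have hLS : 0 ≤ LS s H b (fun _ => 1) :=
    LS_nonneg (dat_cont h) hb continuousOn_const (fun z _ => zero_le_one)
  have hPf0 : ∀ m, 0 ≤ Pf s b (diagc (EE Φ s) m) m := fun m => Pf_nonneg hσ _ m
  rw [← Finset.sum_range_add_sum_Ico _ hM]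
  have a1 : ∑ m ∈ Finset.range m1, cmS Q s b H m ≤ ∑ m ∈ Finset.range m1, B m :=
    Finset.sum_le_sum fun m _ => hB m ρ β H Φ h
  have a2 : ∑ m ∈ Finset.Ico m1 M, cmS Q s b H m
      ≤ ∑ m ∈ Finset.Ico m1 M, (KS s * (Pf s b (diagc (EE Φ s) m) m
        - Nf s b (diagc (EE Φ s) m) m (M - (m + 1))) + δ' * (WtS b m * S2S s H m)) :=
    Finset.sum_le_sum fun m hm => hm1 m (Finset.mem_Ico.mp hm).1 (M - (m + 1)) ρ β H Φ h
  rw [Finset.sum_add_distrib, ← Finset.mul_sum, ← Finset.mul_sum, Finset.sum_sub_distrib] at a2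
  have a3 := area_sum_s h.ext h.logPhi hσ M
  rw [← Finset.sum_range_add_sum_Ico (fun m => Pf s b (diagc (EE Φ s) m) m) hM,
    ← Finset.sum_range_add_sum_Ico
      (fun m => Nf s b (diagc (EE Φ s) m) m (M - (m + 1))) hM] at a3
  have a4 : 0 ≤ ∑ m ∈ Finset.range m1, Pf s b (diagc (EE Φ s) m) m :=
    Finset.sum_nonneg fun m _ => hPf0 m
  have a5 : ∑ m ∈ Finset.range m1, Nf s b (diagc (EE Φ s) m) m (M - (m + 1))
      ≤ ∑ m ∈ Finset.range m1, B' m :=
    Finset.sum_le_sum fun m _ => hB' m ρ β H Φ h (M - (m + 1))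
  have a6 : ∑ m ∈ Finset.Ico m1 M, Pf s b (diagc (EE Φ s) m) m
      - ∑ m ∈ Finset.Ico m1 M, Nf s b (diagc (EE Φ s) m) m (M - (m + 1))
      ≤ ∑ m ∈ Finset.range m1, B' m := by linarith
  have a7 := mul_le_mul_of_nonneg_left a6 hK.le
  have a8 := hC4 ρ β H Φ h s (Finset.Ico m1 M)
  have a9 : δ' * ∑ m ∈ Finset.Ico m1 M, WtS b m * S2S s H m ≤ δ * LS s H b (fun _ => 1) := by
    calc δ' * ∑ m ∈ Finset.Ico m1 M, WtS b m * S2S s H m
        ≤ δ' * (C4 * LS s H b (fun _ => 1)) := mul_le_mul_of_nonneg_left a8 hδp.le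
      _ = (δ * (C4 / (C4 + 1))) * LS s H b (fun _ => 1) := by rw [hδ']; ring
      _ ≤ (δ * 1) * LS s H b (fun _ => 1) := by
          apply mul_le_mul_of_nonneg_right _ hLS
          apply mul_le_mul_of_nonneg_left _ hδ.le
          rw [div_le_one (by linarith)]
          linarith
      _ = δ * LS s H b (fun _ => 1) := by ring
  linarith

end Pool.Agent.Helper24.HR2
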