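import Mathlib
import Pool.Agent.Helper24.HR2.Defs
import Pool.Agent.Helper24.HR2.LSBase
import Pool.Agent.Helper24.HR2.RelS
import Pool.Agent.Helper24.HR2.FormS
import Pool.Agent.Helper39.MH.Weights

/-!
MP_16b0ee, project HR2, section R9: a certificate gives the bound (fixed exponent `s`).
-/

set_option autoImplicit false

open MeasureTheory Set Metric Filter Topology
open scoped Real ComplexConjugate

namespace Pool.Agent.Helper24.HR2

open Pool.Agent.Helper22.Half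
open Pool.Agent.Helper22.Marshall (coeff SepHol LogPhi dcoeff GLe)
open Pool.Agent.Helper39.Area (Ext phi)
open Pool.Agent.Helper39.MH

namespace CoreS

section
variable {H : ℂ → ℂ} {ρ : ℝ}

theorem dval_cont (hρ : 1 < ρ) (hH : DifferentiableOn ℂ H (ball 0 ρ)) (n : ℕ) :
    ContinuousOn (fun z => dval (cc H z) n) (closedBall 0 1) := by
  unfold dval
  split_ifs
  · exact (continuousOn_const.mul (cont_cc hρ hH 1)).sub ((cont_cc hρ hH 0).pow 2)
  · exact (continuousOn_const.mul (cont_cc hρ hH (n + 1))).add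
      (continuousOn_finsetSum _ (fun i _ => (cont_cc hρ hH _).mul (cont_cc hρ hH _)))

theorem Dv_cont (hρ : 1 < ρ) (hH : DifferentiableOn ℂ H (ball 0 ρ)) (A : List ℕ) :
    ContinuousOn (fun z => Dv (cc H z) A) (closedBall 0 1) := by
  induction A with
  | nil =>
    simp only [Dv]
    exact continuousOn_const
  | cons a A ih =>
    simp only [Dv]
    exact ((dval_cont hρ hH a).mul (cont_ev_cc hρ hH A)).add ((cont_cc hρ hH a).mul ih)

theorem pair_cont (hρ : 1 < ρ) (hH : DifferentiableOn ℂ H (ball 0 ρ)) (ζ : ℂ) (A B : List ℕ) :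
    ContinuousOn (fun z => (ζ * (ev (cc H z) A * conj (ev (cc H z) B))).re) (closedBall 0 1) :=
  Complex.continuous_re.comp_continuousOn (continuousOn_const.mul ((cont_ev_cc hρ hH A).mul
    (Complex.continuous_conj.comp_continuousOn (cont_ev_cc hρ hH B))))

theorem relS_cont (hρ : 1 < ρ) (hH : DifferentiableOn ℂ H (ball 0 ρ)) (s : ℂ) (b : ℝ) (ζ : ℂ)
    (A B : List ℕ) :
    ContinuousOn (fun z => (ζ * relS s b (cc H z) A B).re) (closedBall 0 1) := by
  unfold relS DGs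
  have hB := Complex.continuous_conj.comp_continuousOn (cont_ev_cc hρ hH B)
  exact Complex.continuous_re.comp_continuousOn (continuousOn_const.mul
    (((((continuousOn_const.mul (cont_cc hρ hH 0)).mul (cont_ev_cc hρ hH A)).add
      (Dv_cont hρ hH A)).mul hB).sub
    (continuousOn_const.mul ((cont_ev_cc hρ hH A).mul hB))))

theorem XS_cont (hρ : 1 < ρ) (hH : DifferentiableOn ℂ H (ball 0 ρ)) (s : ℂ) (r : ℕ) :
    ContinuousOn (fun z => XS s (cc H z) r) (closedBall 0 1) := by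
  have h0 := cont_cc hρ hH 0
  have h1 := cont_cc hρ hH 1
  have h2 := cont_cc hρ hH 2
  have h3 := cont_cc hρ hH 3
  match r with
  | 0 =>
    simp only [XS]
    exact continuousOn_const
  | 1 =>
    simp only [XS]
    fun_prop
  | 2 =>
    simp only [XS]
    fun_prop
  | (n + 3) =>
    simp only [XS]
    exact continuousOn_const

theorem qS_cont (hρ : 1 < ρ) (hH : DifferentiableOn ℂ H (ball 0 ρ)) (Q : ℕ → ℕ → ℂ) (s : ℂ)
    (b : ℝ) : ContinuousOn (fun z => qS Q s b (cc H z)) (closedBall 0 1) := by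
  unfold qS
  refine continuousOn_const.mul (continuousOn_finsetSum _ fun r _ =>
    continuousOn_finsetSum _ fun t _ => ContinuousOn.div_const ?_ _)
  exact Complex.continuous_re.comp_continuousOn (continuousOn_const.mul ((XS_cont hρ hH s t).mul
    (Complex.continuous_conj.comp_continuousOn (XS_cont hρ hH s r))))

end

/-- one term of the relations -/
theorem rel_term (s : ℂ) {b : ℝ} (hb : 0 < b) (hg : 2 * ‖s‖ < b + 1) (x : ℂ × List ℕ × List ℕ) :
    ∃ K : ℝ, ∀ (ρ : ℝ) (β H : ℂ → ℂ) (Φ : ℂ → ℂ → ℂ), Dat ρ β H Φ →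
      LS s H b (fun z => (x.1 * relS s b (cc H z) x.2.1 x.2.2).re) ≤ K := by
  obtain ⟨Cb, hC0, hCb⟩ := gg_bound
  obtain ⟨ζ, A, B⟩ := x
  have hA0 := (ev_bound hC0 (c := fun n => (0:ℂ)) (fun n => by simpa using hC0 n) A).2
  have hB0 := (ev_bound hC0 (c := fun n => (0:ℂ)) (fun n => by simpa using hC0 n) B).2
  refine ⟨(b + wt A + wt B + 1) * ((‖ζ‖ * ((A.map Cb).prod * (B.map Cb).prod))
    / (b + 1 - 2 * ‖s‖)), ?_⟩
  intro ρ β H Φ h
  have hHd : DifferentiableOn ℂ H (ball 0 1) := h.diff.mono (ball_subset_ball h.one_lt.le)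
  have h1 := LS_err h hb hg (M := ‖ζ‖ * ((A.map Cb).prod * (B.map Cb).prod))
    (pair_cont h.one_lt h.diff ζ A B) (fun z hz => by
      refine (Complex.abs_re_le_norm _).trans ?_
      rw [norm_mul, norm_mul, RCLike.norm_conj]
      have e1 := (ev_bound hC0 (fun n => hCb H hHd h.bloch n z hz) A).1
      have e2 := (ev_bound hC0 (fun n => hCb H hHd h.bloch n z hz) B).1
      exact mul_le_mul_of_nonneg_left (mul_le_mul e1 e2 (norm_nonneg _) hA0) (norm_nonneg _))
  simp only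
  rw [relS_LS h hb s ζ A B]
  have hw : 0 ≤ b + wt A + wt B + 1 := by positivity
  have h2 := (abs_le.mp h1).1
  have h3 := mul_le_mul_of_nonneg_left h2 hw
  linarith

theorem rel_sum (s : ℂ) {b : ℝ} (hb : 0 < b) (hg : 2 * ‖s‖ < b + 1)
    (rels : List (ℂ × List ℕ × List ℕ)) :
    ∃ K : ℝ, ∀ (ρ : ℝ) (β H : ℂ → ℂ) (Φ : ℂ → ℂ → ℂ), Dat ρ β H Φ →
      LS s H b (fun z => (rels.map (fun x => (x.1 * relS s b (cc H z) x.2.1 x.2.2).re)).sum)
        ≤ K ∧ ContinuousOn (fun z =>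
          (rels.map (fun x => (x.1 * relS s b (cc H z) x.2.1 x.2.2).re)).sum)
          (closedBall 0 1) := by
  choose K hK using rel_term s hb hg
  refine ⟨(rels.map K).sum, ?_⟩
  intro ρ β H Φ h
  have hHc : ContinuousOn H (closedBall 0 1) :=
    h.diff.continuousOn.mono (closedBall_subset_ball h.one_lt)
  have hl := LS_list (s := s) hHc hb rels
    (fun x z => (x.1 * relS s b (cc H z) x.2.1 x.2.2).re)
    (fun x _ => relS_cont h.one_lt h.diff s b _ _ _)
  refine ⟨?_, hl.2⟩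
  rw [hl.1]
  exact List.sum_le_sum fun x _ => hK x ρ β H Φ h

end CoreS

open CoreS

theorem core_s {s : ℂ} (hs0 : s ≠ 0) (hs : ‖s‖ ≤ 7 / 10) {b : ℝ} (hb : 0 < b)
    (hb1 : b ≤ 1) (hσ : 0 < b + 1 - 2 * s.re) (hg : 2 * ‖s‖ < b + 1) {D : ℕ} (hD : D ≤ 5)
    (p : ℕ → ℕ → ℝ) (T Q : ℕ → ℕ → ℂ) {ε κ τ : ℝ} (hε : Es s b * HSn s b D p ≤ ε)
    (hκ : 0 < κ) (hτ : 0 < τ) (h1 : (1 + κ) * ε + τ < 1)
    (hQ : ∀ g : ℕ → ℂ, hF 3 Q g ≤ limF s b 3 5 D p ε κ τ g (Tg 3 T g))
    (rels : List (ℂ × List ℕ × List ℕ)) {η : ℝ} (hη : 0 < η)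
    (hc : ∀ c : ℕ → ℂ, η ≤ qS Q s b c
      + (rels.map (fun x => (x.1 * relS s b c x.2.1 x.2.2).re)).sum) :
    ∃ C : ℝ, ∀ (ρ : ℝ) (β H : ℂ → ℂ) (Φ : ℂ → ℂ → ℂ), Dat ρ β H Φ →
      LS s H b (fun _ => 1) ≤ C := by
  obtain ⟨CA, hCA⟩ := area_form_s hs0 hs hb hb1 hσ hg hD p T Q hε hκ hτ h1 hQ
    (δ := η / 2) (by positivity)
  obtain ⟨K, hK⟩ := rel_sum s hb hg rels
  refine ⟨(CA + K) * (2 / η), ?_⟩
  intro ρ β H Φ h
  have hHc : ContinuousOn H (closedBall 0 1) :=
    h.diff.continuousOn.mono (closedBall_subset_ball h.one_lt)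
  have hA := hCA ρ β H Φ h
  obtain ⟨hR, hRc⟩ := hK ρ β H Φ h
  have hq := qS_cont h.one_lt h.diff Q s b
  have h2 : LS s H b (fun _ => η * 1) ≤ LS s H b (fun z => qS Q s b (cc H z)
      + (rels.map (fun x => (x.1 * relS s b (cc H z) x.2.1 x.2.2).re)).sum) := by
    apply LS_mono hHc hb continuousOn_const (hq.add hRc)
    intro z _
    have h4 := hc (cc H z)
    beta_reduce
    rw [mul_one]
    exact h4
  rw [LS_smul, LS_add hHc hb hq hRc] at h2
  obtain ⟨I, hI⟩ : ∃ I, I = LS s H b (fun _ => 1) := ⟨_, rfl⟩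
  rw [← hI] at h2 hA ⊢
  have h3 : η / 2 * I ≤ CA + K := by linarith
  have e : I = (η / 2 * I) * (2 / η) := by field_simp
  rw [e]
  exact mul_le_mul_of_nonneg_right h3 (by positivity)

end Pool.Agent.Helper24.HR2
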