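import Mathlib
import Pool.Agent.Helper24.HR2.Defs

/-!
MP_16b0ee, project HR2, second form of the area inequality: the term `|R u0|^2` of the test
polynomial is kept exactly instead of being bounded by the Hilbert-Schmidt norm.
-/

set_option autoImplicit false

open MeasureTheory Set Metric Filter Topology
open scoped Real ComplexConjugate

namespace Pool.Agent.Helper24.HR2

open Pool.Agent.Helper22.Half
open Pool.Agent.Helper39.MH

/-- the remainder tested on the power `X^n` -/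
noncomputable def ryn (s : ℂ) (b : ℝ) (D : ℕ) (p : ℕ → ℕ → ℝ) (n : ℕ) (y : ℝ) : ℝ :=
  (1 / B0 s b) * ∫ x in Ioo (0 : ℝ) 1, alp s b x * (1 - x) ^ n * RR D p x y

/-- the Gram matrix of the remainder on the powers -/
noncomputable def MR (s : ℂ) (b : ℝ) (D : ℕ) (p : ℕ → ℕ → ℝ) (n k : ℕ) : ℝ :=
  ∫ y in Ioi (0 : ℝ), bet b y * ryn s b D p n y * ryn s b D p k y

noncomputable def gamR (s : ℂ) (b : ℝ) (N D : ℕ) (p : ℕ → ℕ → ℝ) (y : ℕ → ℂ) : ℝ :=
  ∑ n ∈ Finset.range N, ∑ k ∈ Finset.range N, MR s b D p n k * (y n * conj (y k)).re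

/-- the second limit form of `P - N` (lower bound) -/
noncomputable def limG (s : ℂ) (b : ℝ) (K N D : ℕ) (p : ℕ → ℕ → ℝ) (κ τ : ℝ)
    (g y : ℕ → ℂ) : ℝ :=
  linF s K N g y - gamF s b N y - (1 + 1 / κ) * Es s b * gamR s b N D p y
    - Es s b * Nmain b D (FF s D p (muS s K g))
    - Es s b * Nx s b D N p (FF s D p (muS s K g)) y
    - Es s b ^ 2 / τ * Ncross s b D p (FF s D p (muS s K g))

/-- the inequality `q ≤ P - N` for all large orders, up to small errors -/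
def PF (s : ℂ) (b : ℝ) (K : ℕ) (q : (ℕ → ℂ) → ℝ) : Prop :=
  ∀ δ : ℝ, 0 < δ → ∃ m0 : ℕ, ∀ m : ℕ, 1 ≤ m → m0 ≤ m → ∀ (J : ℕ) (d : ℕ → ℂ),
    (∀ l ≤ m, d l = d (m - l)) →
      (m : ℝ) ^ 2 / (KS s * pq (b + 3) (m - 1))
        * (q (vS d m) - δ * ∑ r ∈ Finset.range K, ‖vS d m r‖ ^ 2)
      ≤ Pf s b d m - Nf s b d m J

/-- convolutions of the moments -/
noncomputable def CN (s : ℂ) (b : ℝ) (n k N : ℕ) : ℝ :=
  ∑ j ∈ Finset.range (N + 1), Gm s b (n + j) * Gm s b (k + (N - j))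

/-- the Gram matrix of the kernel `1 / (x + y)` on the powers -/
noncomputable def MM (s : ℂ) (b : ℝ) (n k : ℕ) : ℝ :=
  ∑' N : ℕ, CN s b n k N / ((b + N + 2) * (b + N + 3))

/-- coefficients of the projection of the polynomial kernel -/
noncomputable def pil (s : ℂ) (b : ℝ) (D : ℕ) (p : ℕ → ℕ → ℝ) (n l : ℕ) : ℝ :=
  ∑ n' ∈ Finset.range D, p n' l * Gm s b (n + n')

/-- test functions for the tail -/
noncomputable def ph (c1 c2 b : ℝ) (N : ℕ) : ℝ :=
  c1 / (N + 2 * b + 5) + c2 / ((N + 2 * b + 5) * (N + 2 * b + 6))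

noncomputable def ch (c1 c2 b : ℝ) (N : ℕ) : ℝ :=
  c1 / (N + b + 3) + c2 / ((N + b + 3) * (N + b + 4))

end Pool.Agent.Helper24.HR2
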