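import Mathlib
import Pool.Agent.Helper24.HR2.Defs

/-!
MP_16b0ee, project HR2: the sixth central moment of the antidiagonals of `exp (s Phi)`:
leading part (weight 6, the weight of `g k` is `k + 1`) and lower order part.
-/

set_option autoImplicit false

namespace Pool.Agent.Helper24.HR2

/-- leading part (weight 6) of the sixth central moment -/
noncomputable def XS6 (s : ℂ) (c : ℕ → ℂ) : ℂ :=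
  s * (-(45 / 4) * c 5 + 45 / 2 * c 0 * c 4 + 45 / 4 * c 1 * c 3 - 45 / 2 * c 0 ^ 2 * c 3
      + 45 / 4 * c 2 ^ 2 - 45 * c 0 * c 1 * c 2 + 45 / 2 * c 0 ^ 3 * c 2 - 15 / 4 * c 1 ^ 3
      + 135 / 4 * c 0 ^ 2 * c 1 ^ 2 - 45 / 2 * c 0 ^ 4 * c 1 + 15 / 4 * c 0 ^ 6)
    + s ^ 2 * (45 / 4 * c 1 * c 3 - 45 / 4 * c 0 ^ 2 * c 3 - 45 / 2 * c 0 * c 1 * c 2
      + 45 / 2 * c 0 ^ 3 * c 2 - 45 / 8 * c 1 ^ 3 + 225 / 8 * c 0 ^ 2 * c 1 ^ 2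
      - 225 / 8 * c 0 ^ 4 * c 1 + 45 / 8 * c 0 ^ 6)
    + s ^ 3 * (15 / 8 * (c 0 ^ 2 - c 1) ^ 3)

/-- the lower order part of the sixth central moment -/
noncomputable def low6S (s : ℂ) (g : ℕ → ℂ) : ℂ :=
  s * (135 / 14 * g 4 - 165 / 14 * g 0 * g 3 - 72 / 7 * g 1 * g 2 + 69 / 14 * g 0 ^ 2 * g 2
      + 153 / 14 * g 0 * g 1 ^ 2 - 57 / 14 * g 0 ^ 3 * g 1 + 9 / 14 * g 0 ^ 5
      - 15 / 7 * g 3 - 12 / 7 * g 0 * g 2 + 9 / 14 * g 1 ^ 2 + 25 / 7 * g 0 ^ 2 * g 1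
      - 5 / 14 * g 0 ^ 4
      - 3 / 7 * g 2 + 19 / 14 * g 0 * g 1 + 23 / 126 * g 0 ^ 3
      + 1 / 7 * g 1 + 4 / 21 * g 0 ^ 2 + 1 / 21 * g 0)
    + s ^ 2 * (-(15 / 2) * g 0 * g 3 - 9 * g 1 * g 2 + 24 * g 0 ^ 2 * g 2
      + 57 / 4 * g 0 * g 1 ^ 2 - 27 * g 0 ^ 3 * g 1 + 21 / 4 * g 0 ^ 5
      + 6 * g 0 * g 2 + 3 / 2 * g 1 ^ 2 - 15 / 2 * g 0 ^ 2 * g 1
      - 1 / 2 * g 0 * g 1 - 7 / 6 * g 0 ^ 3 - 1 / 3 * g 0 ^ 2)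
    + s ^ 3 * (15 / 4 * g 0 * g 1 ^ 2 - 15 / 2 * g 0 ^ 3 * g 1 + 15 / 4 * g 0 ^ 5
      - 5 / 2 * g 0 ^ 2 * g 1 + 5 / 2 * g 0 ^ 4 + 5 / 9 * g 0 ^ 3)

end Pool.Agent.Helper24.HR2
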