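import Mathlib
import Pool.Agent.Helper24.HR2.Defs6
import Pool.Agent.Helper24.HR2.JetsS

/-!
MP_16b0ee, project HR2: the sixth moment of the antidiagonals of `exp (s Phi)` in terms of the jets
`g0, ..., g5`, for every complex `s`.
-/

set_option autoImplicit false

open MeasureTheory Set Metric Filter Topology
open scoped Real ComplexConjugate

namespace Pool.Agent.Helper24.HR2

open Pool.Agent.Helper22.Half
open Pool.Agent.Helper22.Marshall (coeff SepHol LogPhi dcoeff GLe)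
open Pool.Agent.Helper39.Area (Ext phi)
open Pool.Agent.Helper39.MH
open Pool.Agent.Helper39.HR (Dt coeff_Dt Dt_mul Dt_sub Dt_C_mul Dt_Th Th coeff_Th Th_mul Th_C_mul
  Th_Pa Ev Pa Ev_Pa psf coeff_psf psf_mul psf_congr psf_const_mul qa qa_sum Ev_Q poly_ode)

/-! the sixth power sum -/

private theorem sum_pow6 (c : ℂ) (k : ℕ) : ∑ l ∈ Finset.range k, (((l + 1 : ℕ) : ℂ) - c) ^ 6
    = (k : ℂ) * (k + 1) * (2 * k + 1) * (3 * k ^ 4 + 6 * k ^ 3 - 3 * k + 1) / 42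
      - c * (k ^ 2 * (k + 1) ^ 2 * (2 * k ^ 2 + 2 * k - 1) / 2)
      + c ^ 2 * (k * (k + 1) * (2 * k + 1) * (3 * k ^ 2 + 3 * k - 1) / 2)
      - c ^ 3 * (5 * (k * (k + 1)) ^ 2) + c ^ 4 * (5 * (k * (k + 1) * (2 * k + 1)) / 2)
      - c ^ 5 * (3 * (k * (k + 1))) + c ^ 6 * k := by
  induction k with
  | zero => simp
  | succ k ih =>
    rw [Finset.sum_range_succ, ih]
    push_cast
    ring

theorem ev_Q6 (β : ℂ → ℂ) : Ev (La (La (La (La (La (La (Pa (qa β))))))))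
    = PowerSeries.C (1 / 1344) * (3 * Dm (Dm (Dm (Dm (Dm (Dm (Ev (Pa (qa β))))))))
        - 21 * Dm (Dm (Dm (Dm (Ev (Pa (qa β)))))) + 49 * Dm (Dm (Ev (Pa (qa β))))
        - 31 * Ev (Pa (qa β))) := by
  have hc : ∀ (k : ℕ) (f : PowerSeries ℂ) (n : ℕ), PowerSeries.coeff n ((k : PowerSeries ℂ) * f)
      = (k : ℂ) * PowerSeries.coeff n f := by
    intro k f n
    rw [← map_natCast (PowerSeries.C (R := ℂ)) k, PowerSeries.coeff_C_mul]
  ext m
  have h3' := hc 3 (Dm (Dm (Dm (Dm (Dm (Dm (Ev (Pa (qa β))))))))) m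
  have h21' := hc 21 (Dm (Dm (Dm (Dm (Ev (Pa (qa β))))))) m
  have h49' := hc 49 (Dm (Dm (Ev (Pa (qa β))))) m
  have h31' := hc 31 (Ev (Pa (qa β))) m
  push_cast at h3' h21' h49' h31'
  rw [La_Pa, La_Pa, La_Pa, La_Pa, La_Pa, La_Pa, Ev_Pa, PowerSeries.coeff_C_mul, map_sub, map_add,
    map_sub, h3', h21', h49', h31', coeff_Dm, coeff_Dm, coeff_Dm, coeff_Dm, coeff_Dm, coeff_Dm,
    ev_Q0]
  cases m with
  | zero => simp [qa]; norm_num
  | succ m =>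
    have h1 := qa_sum β (fun l => ((l : ℂ) - ((m + 1 : ℕ) : ℂ) / 2) ^ 6) m
    rw [sum_pow6] at h1
    rw [if_neg (Nat.succ_ne_zero m), Nat.add_sub_cancel]
    have h3 : ∑ l ∈ Finset.range (m + 1 + 1), ((l : ℂ) - ((m + 1 : ℕ) : ℂ) / 2)
          * (((l : ℂ) - ((m + 1 : ℕ) : ℂ) / 2) * (((l : ℂ) - ((m + 1 : ℕ) : ℂ) / 2)
          * (((l : ℂ) - ((m + 1 : ℕ) : ℂ) / 2) * (((l : ℂ) - ((m + 1 : ℕ) : ℂ) / 2)
          * (((l : ℂ) - ((m + 1 : ℕ) : ℂ) / 2) * qa β (m + 1) l)))))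
        = ∑ l ∈ Finset.range (m + 1 + 1), qa β (m + 1) l * ((l : ℂ) - ((m + 1 : ℕ) : ℂ) / 2) ^ 6 := by
      apply Finset.sum_congr rfl
      intro l _
      ring
    rw [h3, h1]
    push_cast
    ring

/-! the jets `X_5`, `X_6` -/

section

variable {H : ℂ → ℂ} {ρ : ℝ}

theorem HT_g3 (hρ : 0 < ρ) (hH : DifferentiableOn ℂ H (ball 0 ρ)) {z : ℂ}
    (hz : z ∈ ball (0 : ℂ) ρ) : HT (gg H 3) z (6 * gg H 4 z + 2 * gg H 1 z * gg H 2 z) := by
  have h := HT_gg hρ hH hz 3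
  have e : dval (fun k => gg H k z) 3 = 6 * gg H 4 z + 2 * gg H 1 z * gg H 2 z := by
    unfold dval
    rw [if_neg (by norm_num)]
    have e1 : Finset.range (3 - 1) = Finset.range 2 := rfl
    rw [e1, Finset.sum_range_succ, Finset.sum_range_one]
    push_cast
    ring_nf
  rw [e] at h
  exact h

theorem HT_g4 (hρ : 0 < ρ) (hH : DifferentiableOn ℂ H (ball 0 ρ)) {z : ℂ}
    (hz : z ∈ ball (0 : ℂ) ρ) :
    HT (gg H 4) z (7 * gg H 5 z + 2 * gg H 1 z * gg H 3 z + gg H 2 z ^ 2) := by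
  have h := HT_gg hρ hH hz 4
  have e : dval (fun k => gg H k z) 4
      = 7 * gg H 5 z + 2 * gg H 1 z * gg H 3 z + gg H 2 z ^ 2 := by
    unfold dval
    rw [if_neg (by norm_num)]
    have e1 : Finset.range (4 - 1) = Finset.range 3 := rfl
    rw [e1, Finset.sum_range_succ, Finset.sum_range_succ, Finset.sum_range_one]
    push_cast
    ring_nf
  rw [e] at h
  exact h

theorem XX_four' (hρ : 0 < ρ) (hH : DifferentiableOn ℂ H (ball 0 ρ)) {z : ℂ}
    (hz : z ∈ ball (0 : ℂ) ρ) :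
    XX H 4 z = 120 * gg H 0 z ^ 4 - 360 * gg H 0 z ^ 2 * gg H 1 z + 120 * gg H 1 z ^ 2
       + 240 * gg H 0 z * gg H 2 z - 120 * gg H 3 z + 96 * gg H 0 z ^ 3
       - 192 * gg H 0 z * gg H 1 z + 96 * gg H 2 z + 36 * gg H 0 z ^ 2 - 36 * gg H 1 z
       + 8 * gg H 0 z + 1 := by
  rw [XX_four hρ hH hz]
  ring

theorem HT_XX4 (hρ : 0 < ρ) (hH : DifferentiableOn ℂ H (ball 0 ρ)) {z : ℂ}
    (hz : z ∈ ball (0 : ℂ) ρ) :
    HT (XX H 4) z (-(480 * gg H 0 z ^ 5) + 2160 * gg H 0 z ^ 3 * gg H 1 z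
       - 1920 * gg H 0 z * gg H 1 z ^ 2 - 1680 * gg H 0 z ^ 2 * gg H 2 z
       + 1440 * gg H 1 z * gg H 2 z + 1200 * gg H 0 z * gg H 3 z - 720 * gg H 4 z
       - 288 * gg H 0 z ^ 4 + 1056 * gg H 0 z ^ 2 * gg H 1 z - 480 * gg H 1 z ^ 2
       - 768 * gg H 0 z * gg H 2 z + 480 * gg H 3 z - 72 * gg H 0 z ^ 3
       + 216 * gg H 0 z * gg H 1 z - 144 * gg H 2 z - 8 * gg H 0 z ^ 2 + 24 * gg H 1 z) := by
  have h0 := HT_g0 hρ hH hz
  have h1 := HT_g1 hρ hH hz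
  have h2 := HT_g2 hρ hH hz
  have h3 := HT_g3 hρ hH hz
  have h := ((((((((((((h0.mul (h0.mul (h0.mul h0))).cm (120)).add
      ((h0.mul (h0.mul h1)).cm (-360))).add
      ((h1.mul h1).cm (120))).add
      ((h0.mul h2).cm (240))).add
      (h3.cm (-120))).add
      ((h0.mul (h0.mul h0)).cm (96))).add
      ((h0.mul h1).cm (-192))).add
      (h2.cm (96))).add
      ((h0.mul h0).cm (36))).add
      (h1.cm (-36))).add
      (h0.cm (8))).add
      (HT.const (1) z)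
  have h' := h.congr (K := XX H 4) (by
    filter_upwards [isOpen_ball.mem_nhds hz] with w hw
    rw [XX_four' hρ hH hw]
    ring)
  refine ⟨h'.1, ?_⟩
  rw [h'.2]
  ring

theorem XX_five' (hρ : 0 < ρ) (hH : DifferentiableOn ℂ H (ball 0 ρ)) {z : ℂ}
    (hz : z ∈ ball (0 : ℂ) ρ) :
    XX H 5 z = -(720 * gg H 0 z ^ 5) + 2880 * gg H 0 z ^ 3 * gg H 1 z
       - 2160 * gg H 0 z * gg H 1 z ^ 2 - 2160 * gg H 0 z ^ 2 * gg H 2 z
       + 1440 * gg H 1 z * gg H 2 z + 1440 * gg H 0 z * gg H 3 z - 720 * gg H 4 z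
       - 600 * gg H 0 z ^ 4 + 1800 * gg H 0 z ^ 2 * gg H 1 z - 600 * gg H 1 z ^ 2
       - 1200 * gg H 0 z * gg H 2 z + 600 * gg H 3 z - 240 * gg H 0 z ^ 3
       + 480 * gg H 0 z * gg H 1 z - 240 * gg H 2 z - 60 * gg H 0 z ^ 2
       + 60 * gg H 1 z - 10 * gg H 0 z - 1 := by
  rw [XX_succ, (HT_XX4 hρ hH hz).2, XX_four' hρ hH hz]
  ring

theorem HT_XX5 (hρ : 0 < ρ) (hH : DifferentiableOn ℂ H (ball 0 ρ)) {z : ℂ}
    (hz : z ∈ ball (0 : ℂ) ρ) :
    HT (XX H 5) z (3600 * gg H 0 z ^ 6 - 19440 * gg H 0 z ^ 4 * gg H 1 z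
       + 25920 * gg H 0 z ^ 2 * gg H 1 z ^ 2 - 5040 * gg H 1 z ^ 3
       + 15840 * gg H 0 z ^ 3 * gg H 2 z - 27360 * gg H 0 z * gg H 1 z * gg H 2 z
       + 5040 * gg H 2 z ^ 2 - 12240 * gg H 0 z ^ 2 * gg H 3 z
       + 10080 * gg H 1 z * gg H 3 z + 8640 * gg H 0 z * gg H 4 z - 5040 * gg H 5 z
       + 2400 * gg H 0 z ^ 5 - 10800 * gg H 0 z ^ 3 * gg H 1 z
       + 9600 * gg H 0 z * gg H 1 z ^ 2 + 8400 * gg H 0 z ^ 2 * gg H 2 z
       - 7200 * gg H 1 z * gg H 2 z - 6000 * gg H 0 z * gg H 3 z + 3600 * gg H 4 z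
       + 720 * gg H 0 z ^ 4 - 2640 * gg H 0 z ^ 2 * gg H 1 z + 1200 * gg H 1 z ^ 2
       + 1920 * gg H 0 z * gg H 2 z - 1200 * gg H 3 z + 120 * gg H 0 z ^ 3
       - 360 * gg H 0 z * gg H 1 z + 240 * gg H 2 z + 10 * gg H 0 z ^ 2
       - 30 * gg H 1 z) := by
  have h0 := HT_g0 hρ hH hz
  have h1 := HT_g1 hρ hH hz
  have h2 := HT_g2 hρ hH hz
  have h3 := HT_g3 hρ hH hz
  have h4 := HT_g4 hρ hH hz
  have h := (((((((((((((((((((h0.mul (h0.mul (h0.mul (h0.mul h0)))).cm (-720)).add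
      ((h0.mul (h0.mul (h0.mul h1))).cm (2880))).add
      ((h0.mul (h1.mul h1)).cm (-2160))).add
      ((h0.mul (h0.mul h2)).cm (-2160))).add
      ((h1.mul h2).cm (1440))).add
      ((h0.mul h3).cm (1440))).add
      (h4.cm (-720))).add
      ((h0.mul (h0.mul (h0.mul h0))).cm (-600))).add
      ((h0.mul (h0.mul h1)).cm (1800))).add
      ((h1.mul h1).cm (-600))).add
      ((h0.mul h2).cm (-1200))).add
      (h3.cm (600))).add
      ((h0.mul (h0.mul h0)).cm (-240))).add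
      ((h0.mul h1).cm (480))).add
      (h2.cm (-240))).add
      ((h0.mul h0).cm (-60))).add
      (h1.cm (60))).add
      (h0.cm (-10))).add
      (HT.const (-1) z)
  have h' := h.congr (K := XX H 5) (by
    filter_upwards [isOpen_ball.mem_nhds hz] with w hw
    rw [XX_five' hρ hH hw]
    ring)
  refine ⟨h'.1, ?_⟩
  rw [h'.2]
  ring

theorem XX_six' (hρ : 0 < ρ) (hH : DifferentiableOn ℂ H (ball 0 ρ)) {z : ℂ}
    (hz : z ∈ ball (0 : ℂ) ρ) :
    XX H 6 z = 5040 * gg H 0 z ^ 6 - 25200 * gg H 0 z ^ 4 * gg H 1 z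
       + 30240 * gg H 0 z ^ 2 * gg H 1 z ^ 2 - 5040 * gg H 1 z ^ 3
       + 20160 * gg H 0 z ^ 3 * gg H 2 z - 30240 * gg H 0 z * gg H 1 z * gg H 2 z
       + 5040 * gg H 2 z ^ 2 - 15120 * gg H 0 z ^ 2 * gg H 3 z
       + 10080 * gg H 1 z * gg H 3 z + 10080 * gg H 0 z * gg H 4 z - 5040 * gg H 5 z
       + 4320 * gg H 0 z ^ 5 - 17280 * gg H 0 z ^ 3 * gg H 1 z
       + 12960 * gg H 0 z * gg H 1 z ^ 2 + 12960 * gg H 0 z ^ 2 * gg H 2 z
       - 8640 * gg H 1 z * gg H 2 z - 8640 * gg H 0 z * gg H 3 z + 4320 * gg H 4 z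
       + 1800 * gg H 0 z ^ 4 - 5400 * gg H 0 z ^ 2 * gg H 1 z + 1800 * gg H 1 z ^ 2
       + 3600 * gg H 0 z * gg H 2 z - 1800 * gg H 3 z + 480 * gg H 0 z ^ 3
       - 960 * gg H 0 z * gg H 1 z + 480 * gg H 2 z + 90 * gg H 0 z ^ 2
       - 90 * gg H 1 z + 12 * gg H 0 z + 1 := by
  rw [XX_succ, (HT_XX5 hρ hH hz).2, XX_five' hρ hH hz]
  ring

end

section

variable {β H : ℂ → ℂ} {Φ : ℂ → ℂ → ℂ}

private theorem half_refl (m l : ℕ) (hl : l ≤ m) :
    (((m - l : ℕ) : ℂ) - m / 2) = -((l : ℂ) - m / 2) := by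
  rw [Nat.cast_sub hl]
  ring

private theorem odd1 {a : ℕ → ℕ → ℂ} (ha : ∀ m, ∀ l ≤ m, a m l = a m (m - l)) :
    Ev (La (Pa a)) = 0 := by
  rw [La_Pa]
  exact ev_odd ha (fun m l hl => half_refl m l hl)

private theorem odd3 {a : ℕ → ℕ → ℂ} (ha : ∀ m, ∀ l ≤ m, a m l = a m (m - l)) :
    Ev (La (La (La (Pa a)))) = 0 := by
  rw [La_Pa, La_Pa, La_Pa]
  have h := ev_odd (c := fun m l => ((l : ℂ) - m / 2) ^ 3) ha
    (fun m l hl => by simp only [half_refl m l hl]; ring)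
  rw [← h]
  congr 1
  congr 1
  funext m l
  ring

private theorem odd5 {a : ℕ → ℕ → ℂ} (ha : ∀ m, ∀ l ≤ m, a m l = a m (m - l)) :
    Ev (La (La (La (La (La (Pa a)))))) = 0 := by
  rw [La_Pa, La_Pa, La_Pa, La_Pa, La_Pa]
  have h := ev_odd (c := fun m l => ((l : ℂ) - m / 2) ^ 5) ha
    (fun m l hl => by simp only [half_refl m l hl]; ring)
  rw [← h]
  congr 1
  congr 1
  funext m l
  ring

/-- the identity of order six at the diagonal,
`q0 e6 = s (e0 q6 + 10 e2 q4 + 5 e4 q2) - 10 e4 q2 - 5 e2 q4` -/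
theorem momentsS6 (hE : Ext β) (hΦ : LogPhi β H Φ) (s : ℂ) {e0 e2 e4 e6 q0 q2 q4 q6 : PowerSeries ℂ}
    (he0 : Ev (Pa (fun m l => diagc (EE Φ s) m l)) = e0)
    (he2 : Ev (La (La (Pa (fun m l => diagc (EE Φ s) m l)))) = e2)
    (he4 : Ev (La (La (La (La (Pa (fun m l => diagc (EE Φ s) m l)))))) = e4)
    (he6 : Ev (La (La (La (La (La (La (Pa (fun m l => diagc (EE Φ s) m l)))))))) = e6)
    (hq0 : Ev (Pa (qa β)) = q0) (hq2 : Ev (La (La (Pa (qa β)))) = q2)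
    (hq4 : Ev (La (La (La (La (Pa (qa β)))))) = q4)
    (hq6 : Ev (La (La (La (La (La (La (Pa (qa β)))))))) = q6) :
    e6 * q0 = PowerSeries.C s * (e0 * q6 + 10 * (e2 * q4) + 5 * (e4 * q2))
      - 10 * (e4 * q2) - 5 * (e2 * q4) := by
  have h1 := la_ode hE hΦ s
  have hsE := fun m => EE_symm hΦ s m
  have hsQ := fun m => qa_symm β m
  have oE1 : Ev (La (Pa (fun m l => diagc (EE Φ s) m l))) = 0 := odd1 hsE
  have oE3 : Ev (La (La (La (Pa (fun m l => diagc (EE Φ s) m l))))) = 0 := odd3 hsE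
  have oE5 : Ev (La (La (La (La (La (Pa (fun m l => diagc (EE Φ s) m l))))))) = 0 := odd5 hsE
  have oQ1 : Ev (La (Pa (qa β))) = 0 := odd1 hsQ
  have oQ3 : Ev (La (La (La (Pa (qa β))))) = 0 := odd3 hsQ
  have oQ5 : Ev (La (La (La (La (La (Pa (qa β))))))) = 0 := odd5 hsQ
  generalize Pa (fun m l => diagc (EE Φ s) m l) = E at *
  generalize Pa (qa β) = Q at *
  have h2 := congrArg La h1
  rw [La_C_mul] at h2
  simp only [La_mul] at h2
  have h3 := congrArg La h2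
  rw [La_C_mul] at h3
  simp only [La_add, La_mul] at h3
  have h4 := congrArg La h3
  rw [La_C_mul] at h4
  simp only [La_add, La_mul] at h4
  have h5 := congrArg La h4
  rw [La_C_mul] at h5
  simp only [La_add, La_mul] at h5
  have h6 := congrArg La h5
  rw [La_C_mul] at h6
  simp only [La_add, La_mul] at h6
  have hmul : ∀ a b, Ev (a * b) = Ev a * Ev b := fun a b => map_mul _ a b
  have hadd : ∀ a b, Ev (a + b) = Ev a + Ev b := fun a b => map_add _ a b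
  have hC : Ev (PowerSeries.C (Polynomial.C s)) = PowerSeries.C s := by
    rw [Ev, PowerSeries.map_C, Polynomial.coe_evalRingHom, Polynomial.eval_C]
  have g6 := congrArg Ev h6
  simp only [hmul, hadd, hC, oE1, oE3, oE5, oQ1, oQ3, oQ5, he0, he2, he4, he6, hq0, hq2, hq4,
    hq6] at g6
  linear_combination g6

end

private theorem half_sum6 (d : ℕ → ℂ) (m : ℕ) :
    ∑ l ∈ Finset.range (m + 1), d l * ((l : ℂ) - m / 2) ^ 6
      = ∑ l ∈ Finset.range (m + 1), ((l : ℂ) - m / 2) * (((l : ℂ) - m / 2)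
        * (((l : ℂ) - m / 2) * (((l : ℂ) - m / 2) * (((l : ℂ) - m / 2)
        * (((l : ℂ) - m / 2) * d l))))) := by
  apply Finset.sum_congr rfl
  intro l _
  ring

/-! functions on the disc -/

private theorem dsub {f g : ℂ → ℂ} (hf : DifferentiableOn ℂ f (ball 0 1))
    (hg : DifferentiableOn ℂ g (ball 0 1)) : DifferentiableOn ℂ (fun z => f z - g z) (ball 0 1) :=
  hf.sub hg

private theorem dmul {f g : ℂ → ℂ} (hf : DifferentiableOn ℂ f (ball 0 1))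
    (hg : DifferentiableOn ℂ g (ball 0 1)) : DifferentiableOn ℂ (fun z => f z * g z) (ball 0 1) :=
  hf.mul hg

private theorem dcm (c : ℂ) {f : ℂ → ℂ} (hf : DifferentiableOn ℂ f (ball 0 1)) :
    DifferentiableOn ℂ (fun z => c * f z) (ball 0 1) := hf.const_mul c

/-- the diagonal of `La La La La La La Q` -/
noncomputable def q6f (H : ℂ → ℂ) (z : ℂ) : ℂ :=
  1 / 1344 * (3 * (XX H 6 z * Complex.exp (H z)) - (21 * (XX H 4 z * Complex.exp (H z))
    - (49 * (XX H 2 z * Complex.exp (H z)) - 31 * (XX H 0 z * Complex.exp (H z)))))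

theorem q6f_diff {H : ℂ → ℂ} (hH : DifferentiableOn ℂ H (ball 0 1)) :
    DifferentiableOn ℂ (q6f H) (ball 0 1) := by
  have hX : ∀ n, DifferentiableOn ℂ (fun z => XX H n z * Complex.exp (H z)) (ball 0 1) :=
    fun n => (XX_diff hH n).mul hH.cexp
  exact dcm _ (dsub (dcm _ (hX 6)) (dsub (dcm _ (hX 4)) (dsub (dcm _ (hX 2)) (dcm _ (hX 0)))))

theorem ev_q6f {β H : ℂ → ℂ} {Φ : ℂ → ℂ → ℂ} (hE : Ext β) (hΦ : LogPhi β H Φ)
    (hH : DifferentiableOn ℂ H (ball 0 1)) :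
    Ev (La (La (La (La (La (La (Pa (qa β)))))))) = psf (q6f H) := by
  have hX : ∀ n, DifferentiableOn ℂ (fun z => XX H n z * Complex.exp (H z)) (ball 0 1) :=
    fun n => (XX_diff hH n).mul hH.cexp
  have cst : ∀ k : ℕ, (k : PowerSeries ℂ) = PowerSeries.C (k : ℂ) := by
    intro k
    rw [map_natCast]
  have c3 : (3 : PowerSeries ℂ) = PowerSeries.C (3 : ℂ) := by exact_mod_cast cst 3
  have c21 : (21 : PowerSeries ℂ) = PowerSeries.C (21 : ℂ) := by exact_mod_cast cst 21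
  have c49 : (49 : PowerSeries ℂ) = PowerSeries.C (49 : ℂ) := by exact_mod_cast cst 49
  have c31 : (31 : PowerSeries ℂ) = PowerSeries.C (31 : ℂ) := by exact_mod_cast cst 31
  rw [ev_Q6, Ev_Q hE hΦ, ← psf_X0, ← psf_XX hH, ← psf_XX hH, ← psf_XX hH, ← psf_XX hH,
    ← psf_XX hH, ← psf_XX hH]
  have e : psf (q6f H) = psf (fun z => 1 / 1344 * (3 * (XX H 6 z * Complex.exp (H z))
        - (21 * (XX H 4 z * Complex.exp (H z)) - (49 * (XX H 2 z * Complex.exp (H z))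
        - 31 * (XX H 0 z * Complex.exp (H z)))))) := rfl
  rw [e, psf_const_mul, psf_sub (dcm 3 (hX 6)) (dsub (dcm 21 (hX 4)) (dsub (dcm 49 (hX 2))
      (dcm 31 (hX 0)))), psf_sub (dcm 21 (hX 4)) (dsub (dcm 49 (hX 2)) (dcm 31 (hX 0))),
    psf_sub (dcm 49 (hX 2)) (dcm 31 (hX 0)), psf_const_mul, psf_const_mul, psf_const_mul,
    psf_const_mul, c3, c21, c49, c31]
  ring

/-- the sixth moment on the diagonal -/
noncomputable def k6f (s : ℂ) (H : ℂ → ℂ) (z : ℂ) : ℂ :=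
  Complex.exp (s * H z) * (XS6 s (fun k => gg H k z) + low6S s (fun k => gg H k z))

theorem k6f_diff {H : ℂ → ℂ} (hH : DifferentiableOn ℂ H (ball 0 1)) (s : ℂ) :
    DifferentiableOn ℂ (k6f s H) (ball 0 1) := by
  have d0 := gg_diff one_pos hH 0
  have d1 := gg_diff one_pos hH 1
  have d2 := gg_diff one_pos hH 2
  have d3 := gg_diff one_pos hH 3
  have d4 := gg_diff one_pos hH 4
  have d5 := gg_diff one_pos hH 5
  have dE : DifferentiableOn ℂ (fun z => Complex.exp (s * H z)) (ball 0 1) :=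
    (hH.const_mul s).cexp
  unfold k6f low6S XS6
  fun_prop

private theorem q0_ne {β H : ℂ → ℂ} {Φ : ℂ → ℂ → ℂ} (hE : Ext β) (hΦ : LogPhi β H Φ) :
    psf (fun z => Complex.exp (1 * H z)) ≠ 0 := by
  intro h
  rw [← Ev_Q hE hΦ] at h
  have h1 := congrArg (PowerSeries.coeff 0) h
  rw [Ev_Pa, map_zero] at h1
  simp [qa] at h1

theorem ev_k6f {β H : ℂ → ℂ} {Φ : ℂ → ℂ → ℂ} (hE : Ext β) (hΦ : LogPhi β H Φ)
    (hH : DifferentiableOn ℂ H (ball 0 1)) (s : ℂ) :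
    Ev (La (La (La (La (La (La (Pa (fun m l => diagc (EE Φ s) m l)))))))) = psf (k6f s H) := by
  have h1 := momentsS6 hE hΦ s (ev_ES hΦ s) (ev_k2f hE hΦ hH s) (ev_k4f hE hΦ hH s) rfl
    (Ev_Q hE hΦ) (ev_q2f hE hΦ hH) (ev_q4f hE hΦ hH) (ev_q6f hE hΦ hH)
  have dE : DifferentiableOn ℂ (fun z => Complex.exp (s * H z)) (ball 0 1) :=
    (hH.const_mul s).cexp
  have d1 : DifferentiableOn ℂ (fun z => Complex.exp (1 * H z)) (ball 0 1) :=
    (hH.const_mul 1).cexp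
  have dk2 := k2f_diff hH s
  have dk4 := k4f_diff hH s
  have dq2 := q2f_diff hH
  have dq4 := q4f_diff hH
  have dq6 := q6f_diff hH
  have c10 : (10 : PowerSeries ℂ) = PowerSeries.C (10 : ℂ) := (map_ofNat PowerSeries.C 10).symm
  have c5 : (5 : PowerSeries ℂ) = PowerSeries.C (5 : ℂ) := (map_ofNat PowerSeries.C 5).symm
  have hA := dmul dE dq6
  have hB := dmul dk2 dq4
  have hC := dmul dk4 dq2
  have f1 : psf (fun z => s * (Complex.exp (s * H z) * q6f H z)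
          - ((5 - 10 * s) * (k2f s H z * q4f H z) - (5 * s - 10) * (k4f s H z * q2f H z)))
      = PowerSeries.C s * (psf (fun z => Complex.exp (s * H z)) * psf (q6f H))
        - (PowerSeries.C (5 - 10 * s) * (psf (k2f s H) * psf (q4f H))
          - PowerSeries.C (5 * s - 10) * (psf (k4f s H) * psf (q2f H))) := by
    rw [psf_sub (dcm s hA) (dsub (dcm (5 - 10 * s) hB) (dcm (5 * s - 10) hC)),
      psf_sub (dcm (5 - 10 * s) hB) (dcm (5 * s - 10) hC), psf_const_mul, psf_const_mul,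
      psf_const_mul, psf_mul dE dq6, psf_mul dk2 dq4, psf_mul dk4 dq2]
  have f2 : psf (fun z => s * (Complex.exp (s * H z) * q6f H z)
          - ((5 - 10 * s) * (k2f s H z * q4f H z) - (5 * s - 10) * (k4f s H z * q2f H z)))
      = psf (fun z => k6f s H z * Complex.exp (1 * H z)) := by
    apply psf_congr
    intro z hz
    have e3 : XX H 0 z = 1 := rfl
    unfold q2f q4f q6f k2f k4f k6f low2S low4S low6S XS6
    rw [XS_one, XS_two, e3, XX_two one_pos hH hz, XX_four' one_pos hH hz, XX_six' one_pos hH hz,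
      one_mul (H z)]
    ring
  apply mul_right_cancel₀ (q0_ne hE hΦ)
  rw [h1, ← psf_mul (k6f_diff hH s) d1, ← f2, f1, c10, c5, map_sub, map_sub, map_mul, map_mul]
  ring

theorem jetS6 {ρ : ℝ} {β H : ℂ → ℂ} {Φ : ℂ → ℂ → ℂ} (h : Data ρ β H Φ) (s : ℂ) (m : ℕ) :
    ∑ l ∈ Finset.range (m + 1), diagc (EE Φ s) m l * ((l : ℂ) - m / 2) ^ 6
      = coeff (fun z => Complex.exp (s * H z)
        * (XS6 s (fun k => gg H k z) + low6S s (fun k => gg H k z))) m := by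
  have h1 := congrArg (PowerSeries.coeff m) (ev_k6f h.ext h.logPhi h.diff1 s)
  rw [La_Pa, La_Pa, La_Pa, La_Pa, La_Pa, La_Pa, Ev_Pa, ← half_sum6, coeff_psf] at h1
  exact h1

end Pool.Agent.Helper24.HR2
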