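import Mathlib
import Pool.Agent.Helper24.HR2.Defs2
import Pool.Agent.Helper24.HR2.Defs6
import Pool.Agent.Helper24.HR2.FormBase
import Pool.Agent.Helper24.HR2.FormS
import Pool.Agent.Helper24.HR2.CoreS
import Pool.Agent.Helper24.HR2.JetS6

/-!
MP_16b0ee, project HR2, section T3: from an abstract inequality for large orders to the bound,
for an arbitrary number of even moments; the cases of three and of four moments.
-/

set_option autoImplicit false

open MeasureTheory Set Metric Filter Topology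
open scoped Real ComplexConjugate

namespace Pool.Agent.Helper24.HR2

open Pool.Agent.Helper22.Half
open Pool.Agent.Helper22.Marshall (coeff SepHol LogPhi dcoeff GLe)
open Pool.Agent.Helper39.Area (Ext phi)
open Pool.Agent.Helper39.MH

namespace CG

theorem pref_nonneg {s : ℂ} (hs : ‖s‖ < 1) {b : ℝ} (hb : 0 < b) (m : ℕ) :
    0 ≤ (m : ℝ) ^ 2 / (KS s * pq (b + 3) (m - 1)) := by
  have h1 := FS.KS_pos hs
  have h2 := pq_pos (z := b + 3) (by linarith) (m - 1)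
  positivity

end CG

/-- elimination of the last moment, any number of moments -/
theorem PF_ext_gen {s : ℂ} (hs : ‖s‖ < 1) {b : ℝ} (hb : 0 < b) {R : ℕ} {q : (ℕ → ℂ) → ℝ}
    (h : PF s b (R + 1) q) (Q : ℕ → ℕ → ℂ) {δ' : ℝ} (hδ' : 0 < δ')
    (hQ : ∀ g : ℕ → ℂ, hF R Q g + δ' * ‖g R‖ ^ 2 ≤ q g) : PF s b R (hF R Q) := by
  intro δ hδ
  obtain ⟨m0, hm0⟩ := h (min δ δ') (lt_min hδ hδ')
  refine ⟨m0, fun m h1 h2 J d hd =>
    (mul_le_mul_of_nonneg_left ?_ (CG.pref_nonneg hs hb m)).trans (hm0 m h1 h2 J d hd)⟩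
  rw [Finset.sum_range_succ, mul_add]
  have a := hQ (vS d m)
  have b1 : min δ δ' * ∑ r ∈ Finset.range R, ‖vS d m r‖ ^ 2
      ≤ δ * ∑ r ∈ Finset.range R, ‖vS d m r‖ ^ 2 :=
    mul_le_mul_of_nonneg_right (min_le_left _ _) (Finset.sum_nonneg fun _ _ => by positivity)
  have b2 : min δ δ' * ‖vS d m R‖ ^ 2 ≤ δ' * ‖vS d m R‖ ^ 2 :=
    mul_le_mul_of_nonneg_right (min_le_right _ _) (by positivity)
  linarith

/-- elimination of the last moment -/
theorem PF_ext {s : ℂ} (hs : ‖s‖ < 1) {b : ℝ} (hb : 0 < b) {q : (ℕ → ℂ) → ℝ} (h : PF s b 4 q)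
    (Q : ℕ → ℕ → ℂ) {δ' : ℝ} (hδ' : 0 < δ')
    (hQ : ∀ g : ℕ → ℂ, hF 3 Q g + δ' * ‖g 3‖ ^ 2 ≤ q g) : PF s b 3 (hF 3 Q) :=
  PF_ext_gen hs hb h Q hδ' hQ

theorem PF_mono {s : ℂ} (hs : ‖s‖ < 1) {b : ℝ} (hb : 0 < b) {K : ℕ} {q q' : (ℕ → ℂ) → ℝ}
    (h : PF s b K q) (hq : ∀ g : ℕ → ℂ, q' g ≤ q g) : PF s b K q' := by
  intro δ hδ
  obtain ⟨m0, hm0⟩ := h δ hδ
  refine ⟨m0, fun m h1 h2 J d hd =>
    (mul_le_mul_of_nonneg_left ?_ (CG.pref_nonneg hs hb m)).trans (hm0 m h1 h2 J d hd)⟩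
  have := hq (vS d m)
  linarith

namespace CG

open FS

/-- a family of leading parts and of lower order parts of the first `R` even moments -/
structure Fam (s : ℂ) (R : ℕ) (L l : ℕ → List (ℂ × List ℕ)) : Prop where
  wtL : ∀ r < R, ∀ x ∈ L r, wt x.2 = 2 * r
  wtl : ∀ r < R, ∀ x ∈ l r, wt x.2 + 1 ≤ 2 * r
  split : ∀ (ρ : ℝ) (β H : ℂ → ℂ) (Φ : ℂ → ℂ → ℂ), Dat ρ β H Φ → ∀ m : ℕ, ∀ r < R,
    ∑ i ∈ Finset.range (m + 1), diagc (EE Φ s) m i * ((i : ℂ) - m / 2) ^ (2 * r)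
      = px s H (L r) m + px s H (l r) m

/-- the monomials which occur -/
def mons (R : ℕ) (L l : ℕ → List (ℂ × List ℕ)) : Finset (List ℕ) :=
  (Finset.range R).biUnion fun r => ((L r ++ l r).map Prod.snd).toFinset

theorem mem_mons {R : ℕ} {L l : ℕ → List (ℂ × List ℕ)} {r : ℕ} (hr : r < R) {x : ℂ × List ℕ}
    (hx : x ∈ L r ∨ x ∈ l r) : x.2 ∈ mons R L l := by
  unfold mons
  rw [Finset.mem_biUnion]
  refine ⟨r, Finset.mem_range.mpr hr, ?_⟩
  rw [List.mem_toFinset, List.mem_map]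
  exact ⟨x, List.mem_append.mpr hx, rfl⟩

/-- the sum of the normalised moduli -/
noncomputable def NG (M : Finset (List ℕ)) (s : ℂ) (H : ℂ → ℂ) (m : ℕ) : ℝ :=
  ∑ A ∈ M, ys s H A m

/-- the sum of the squares of the normalised moduli -/
noncomputable def S2G (M : Finset (List ℕ)) (s : ℂ) (H : ℂ → ℂ) (m : ℕ) : ℝ :=
  ∑ A ∈ M, ys s H A m ^ 2

theorem ys_le {M : Finset (List ℕ)} (s : ℂ) (H : ℂ → ℂ) (m : ℕ) {A : List ℕ} (hA : A ∈ M) :
    ys s H A m ≤ NG M s H m :=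
  Finset.single_le_sum (f := fun A => ys s H A m) (fun A _ => ys_nonneg s H A m) hA

theorem NG_nonneg (M : Finset (List ℕ)) (s : ℂ) (H : ℂ → ℂ) (m : ℕ) : 0 ≤ NG M s H m :=
  Finset.sum_nonneg fun A _ => ys_nonneg s H A m

theorem S2G_nonneg (M : Finset (List ℕ)) (s : ℂ) (H : ℂ → ℂ) (m : ℕ) : 0 ≤ S2G M s H m :=
  Finset.sum_nonneg fun A _ => by positivity

theorem NG_sq (M : Finset (List ℕ)) (s : ℂ) (H : ℂ → ℂ) (m : ℕ) :
    NG M s H m ^ 2 ≤ ((M.card : ℝ) + 1) * S2G M s H m := by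
  have h := sq_sum_le_card_mul_sum_sq (s := M) (f := fun A => ys s H A m)
  have h2 := S2G_nonneg M s H m
  unfold NG
  unfold S2G at h2 ⊢
  linarith

/-- the leading part of the normalised moments -/
noncomputable def ug (L : ℕ → List (ℂ × List ℕ)) (s : ℂ) (H : ℂ → ℂ) (m r : ℕ) : ℂ :=
  px s H (L r) m / (m : ℂ) ^ (2 * r)

theorem vS_split {s : ℂ} {R : ℕ} {L l : ℕ → List (ℂ × List ℕ)} (hf : Fam s R L l)
    {ρ : ℝ} {β H : ℂ → ℂ} {Φ : ℂ → ℂ → ℂ} (h : Dat ρ β H Φ) (m : ℕ) {r : ℕ} (hr : r < R) :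
    vS (diagc (EE Φ s) m) m r = ug L s H m r + ug l s H m r := by
  unfold vS ug
  rw [hf.split ρ β H Φ h m r hr, add_div]

/-- a common bound of the coefficients -/
noncomputable def CPG (R : ℕ) (L l : ℕ → List (ℂ × List ℕ)) : ℝ :=
  1 + ∑ r ∈ Finset.range R, (pn (L r) + pn (l r))

theorem CPG_ge {R : ℕ} (L l : ℕ → List (ℂ × List ℕ)) {r : ℕ} (hr : r < R) :
    pn (L r) + pn (l r) ≤ CPG R L l := by
  unfold CPG
  have h1 := Finset.single_le_sum (f := fun r => pn (L r) + pn (l r))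
    (s := Finset.range R) (fun r _ => add_nonneg (pn_nonneg _) (pn_nonneg _))
    (Finset.mem_range.mpr hr)
  linarith

theorem CPG_pos (R : ℕ) (L l : ℕ → List (ℂ × List ℕ)) : 1 ≤ CPG R L l := by
  unfold CPG
  have h1 := Finset.sum_nonneg (f := fun r => pn (L r) + pn (l r))
    (s := Finset.range R) (fun r _ => add_nonneg (pn_nonneg _) (pn_nonneg _))
  linarith

theorem norm_ug_le {s : ℂ} {R : ℕ} {L l : ℕ → List (ℂ × List ℕ)} (hf : Fam s R L l)
    (H : ℂ → ℂ) {m : ℕ} (hm : 1 ≤ m) {r : ℕ} (hr : r < R) :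
    ‖ug L s H m r‖ ≤ CPG R L l * NG (mons R L l) s H m := by
  have hm0 : (0 : ℝ) < m := by exact_mod_cast hm
  have h1 := norm_px_le s H (L r) (w := 2 * r) hm (N := NG (mons R L l) s H m) (fun x hx =>
    ⟨(hf.wtL r hr x hx).le, ys_le s H m (mem_mons hr (Or.inl hx))⟩)
  unfold ug
  rw [norm_div, norm_pow, Complex.norm_natCast, div_le_iff₀ (by positivity)]
  have hN := NG_nonneg (mons R L l) s H m
  have h2 := CPG_ge L l hr
  have h3 := pn_nonneg (l r)
  refine h1.trans ?_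
  apply mul_le_mul_of_nonneg_right _ (by positivity)
  apply mul_le_mul_of_nonneg_right _ hN
  linarith

theorem norm_eg_le {s : ℂ} {R : ℕ} {L l : ℕ → List (ℂ × List ℕ)} (hf : Fam s R L l)
    (H : ℂ → ℂ) {m : ℕ} (hm : 1 ≤ m) {r : ℕ} (hr : r < R) :
    ‖ug l s H m r‖ ≤ CPG R L l * NG (mons R L l) s H m / m := by
  have hm0 : (0 : ℝ) < m := by exact_mod_cast hm
  have hN := NG_nonneg (mons R L l) s H m
  have hC := CPG_pos R L l
  rcases Nat.eq_zero_or_pos r with h0 | h0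
  · subst h0
    have e : ug l s H m 0 = 0 := by
      unfold ug
      have : l 0 = [] := by
        rw [List.eq_nil_iff_forall_not_mem]
        intro x hx
        have := hf.wtl 0 hr x hx
        omega
      rw [this, px_nil, zero_div]
    rw [e, norm_zero]
    positivity
  · have h1 := norm_px_le s H (l r) (w := 2 * r - 1) hm (N := NG (mons R L l) s H m)
      (fun x hx => ⟨by have := hf.wtl r hr x hx; omega, ys_le s H m (mem_mons hr (Or.inr hx))⟩)
    unfold ug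
    have h2 := CPG_ge L l hr
    have h3 := pn_nonneg (L r)
    have e : (m : ℝ) ^ (2 * r) = (m : ℝ) ^ (2 * r - 1) * m := by
      rw [← pow_succ]
      congr 1
      omega
    rw [norm_div, norm_pow, Complex.norm_natCast, e, ← div_div]
    apply div_le_div_of_nonneg_right _ hm0.le
    rw [div_le_iff₀ (by positivity)]
    refine h1.trans ?_
    apply mul_le_mul_of_nonneg_right _ (by positivity)
    apply mul_le_mul_of_nonneg_right _ hN
    linarith

/-! ### the area form as a series -/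

/-- the area form of a family -/
noncomputable def qG (R : ℕ) (L : ℕ → List (ℂ × List ℕ)) (Q : ℕ → ℕ → ℂ) (b : ℝ)
    (c : ℕ → ℂ) : ℝ :=
  b * (b + 1) * (b + 2) * ∑ r ∈ Finset.range R, ∑ t ∈ Finset.range R,
    (Q r t * (pv c (L t) * conj (pv c (L r)))).re / poch b (2 * r + 2 * t)

/-- the term of order `m` of the area form -/
noncomputable def cmG (R : ℕ) (L : ℕ → List (ℂ × List ℕ)) (Q : ℕ → ℕ → ℂ) (s : ℂ) (b : ℝ)
    (H : ℂ → ℂ) (m : ℕ) : ℝ :=
  ∑ r ∈ Finset.range R, ∑ t ∈ Finset.range R, b * (b + 1) * (b + 2) / poch b (2 * r + 2 * t)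
    * (((b + (2 * t : ℕ) + (2 * r : ℕ)) * pq (b + (2 * t : ℕ) + (2 * r : ℕ) + 1) m)⁻¹
      * (Q r t * (px s H (L t) m * conj (px s H (L r) m))).re)

theorem qG_cont (R : ℕ) (L : ℕ → List (ℂ × List ℕ)) {ρ : ℝ} {β H : ℂ → ℂ} {Φ : ℂ → ℂ → ℂ}
    (h : Dat ρ β H Φ) (b : ℝ) (Q : ℕ → ℕ → ℂ) :
    ContinuousOn (fun z => qG R L Q b (cc H z)) (closedBall 0 1) := by
  unfold qG
  refine continuousOn_const.mul (continuousOn_finsetSum _ fun r _ =>
    continuousOn_finsetSum _ fun t _ => ContinuousOn.div_const ?_ _)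
  exact cont_pair (cont_pv h _) (cont_pv h _) _

theorem cmG_hasSum {s : ℂ} {R : ℕ} {L l : ℕ → List (ℂ × List ℕ)} (hf : Fam s R L l)
    {ρ : ℝ} {β H : ℂ → ℂ} {Φ : ℂ → ℂ → ℂ} (h : Dat ρ β H Φ) {b : ℝ} (hb : 0 < b)
    (Q : ℕ → ℕ → ℂ) :
    HasSum (cmG R L Q s b H) (LS s H b (fun z => qG R L Q b (cc H z))) := by
  have hH := dat_cont h
  have e : LS s H b (fun z => qG R L Q b (cc H z))
      = ∑ r ∈ Finset.range R, ∑ t ∈ Finset.range R,
      b * (b + 1) * (b + 2) / poch b (2 * r + 2 * t)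
        * LS s H b (fun z => (Q r t * (pv (cc H z) (L t)
          * conj (pv (cc H z) (L r)))).re) := by
    have e1 : (fun z => qG R L Q b (cc H z)) = fun z => ∑ r ∈ Finset.range R,
        ∑ t ∈ Finset.range R, b * (b + 1) * (b + 2) / poch b (2 * r + 2 * t)
        * (Q r t * (pv (cc H z) (L t) * conj (pv (cc H z) (L r)))).re := by
      funext z
      unfold qG
      rw [Finset.mul_sum]
      apply Finset.sum_congr rfl
      intro r _
      rw [Finset.mul_sum]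
      apply Finset.sum_congr rfl
      intro t _
      ring
    rw [e1, LS_fsum hH hb]
    · apply Finset.sum_congr rfl
      intro r _
      rw [LS_fsum hH hb]
      · apply Finset.sum_congr rfl
        intro t _
        exact LS_smul _ _
      · intro t _
        exact (cont_pair (cont_pv h _) (cont_pv h _) _).const_mul _
    · intro r _
      apply continuousOn_finsetSum
      intro t _
      exact (cont_pair (cont_pv h _) (cont_pv h _) _).const_mul _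
  rw [e]
  apply hasSum_sum
  intro r hr
  apply hasSum_sum
  intro t ht
  rw [Finset.mem_range] at hr ht
  exact (pair_hasSum h hb s (L t) (L r) (hf.wtL t ht) (hf.wtL r hr) (Q r t)).mul_left _

theorem cmG_eq (R : ℕ) (L : ℕ → List (ℂ × List ℕ)) {b : ℝ} (hb : 0 < b) (Q : ℕ → ℕ → ℂ)
    (s : ℂ) (H : ℂ → ℂ) {m : ℕ} (hm : 1 ≤ m) :
    cmG R L Q s b H m = WtS b m * ∑ r ∈ Finset.range R, ∑ t ∈ Finset.range R,
      trS b m (2 * r + 2 * t) * (Q r t * (ug L s H m t * conj (ug L s H m r))).re := by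
  have hm0 : (0:ℝ) < m := by exact_mod_cast hm
  have hW := WtS_pos hb hm
  unfold cmG
  rw [Finset.mul_sum]
  apply Finset.sum_congr rfl
  intro r _
  rw [Finset.mul_sum]
  apply Finset.sum_congr rfl
  intro t _
  have e1 : (Q r t * (ug L s H m t * conj (ug L s H m r))).re
      = (Q r t * (px s H (L t) m * conj (px s H (L r) m))).re
        / (m : ℝ) ^ (2 * r + 2 * t) := by
    unfold ug
    rw [map_div₀, map_pow, Complex.conj_natCast, div_mul_div_comm, ← pow_add, mul_div_assoc']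
    have e2 : (m : ℂ) ^ (2 * t + 2 * r) = (((m : ℝ) ^ (2 * r + 2 * t) : ℝ) : ℂ) := by
      push_cast
      rw [Nat.add_comm]
    rw [e2, Complex.div_ofReal_re]
  rw [e1]
  unfold trS
  have hc : (b + ((2 * t : ℕ) : ℝ) + ((2 * r : ℕ) : ℝ)) = b + ((2 * r + 2 * t : ℕ) : ℝ) := by
    push_cast
    ring
  rw [hc]
  set w := 2 * r + 2 * t with hw
  have hp1 := poch_pos hb w
  have hp2 := pq_pos (show (0:ℝ) < b + w + 1 by positivity) m
  have hbw : (0:ℝ) < b + w := by positivity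
  field_simp

/-! ### the inequality for a large order -/

theorem per_order_g {s : ℂ} (hs1 : ‖s‖ < 1) {b : ℝ} (hb : 0 < b) {R : ℕ}
    {L l : ℕ → List (ℂ × List ℕ)} (hf : Fam s R L l) (Q : ℕ → ℕ → ℂ)
    (hQ : PF s b R (hF R Q)) {δ : ℝ} (hδ : 0 < δ) :
    ∃ m1 : ℕ, ∀ m : ℕ, m1 ≤ m → ∀ (J : ℕ) (ρ : ℝ) (β H : ℂ → ℂ) (Φ : ℂ → ℂ → ℂ),
      Dat ρ β H Φ → cmG R L Q s b H m
        ≤ KS s * (Pf s b (diagc (EE Φ s) m) m - Nf s b (diagc (EE Φ s) m) m J)
          + δ * (WtS b m * S2G (mons R L l) s H m) := by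
  have hK := KS_pos hs1
  have hC := CPG_pos R L l
  set C := CPG R L l with hCdef
  have hq := qn_nonneg R Q
  set n : ℝ := ((mons R L l).card : ℝ) + 1 with hn
  have hnp : 1 ≤ n := by
    have : (0 : ℝ) ≤ ((mons R L l).card : ℝ) := by positivity
    linarith
  obtain ⟨m0, hm0⟩ := hQ (δ / (12 * (R + 1) * C ^ 2 * n)) (by positivity)
  set e2 : ℝ := δ / (3 * n * C ^ 2 * (qn R Q + 1)) with he2
  have he2p : 0 < e2 := by positivity
  have hev : ∀ᶠ m : ℕ in atTop, ∀ w ∈ Finset.range (4 * R), |trS b m w - 1| ≤ e2 := by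
    rw [Finset.eventually_all]
    intro w _
    have h1 := trS_tendsto hb w
    have h2 := Metric.tendsto_atTop.mp h1 e2 he2p
    obtain ⟨n0, hn0⟩ := h2
    filter_upwards [eventually_ge_atTop n0] with m hm
    have h3 := hn0 m hm
    rw [Real.dist_eq] at h3
    exact h3.le
  have hev2 : ∀ᶠ m : ℕ in atTop, 1 ≤ m ∧ m0 ≤ m ∧ 9 * n * C ^ 2 * qn R Q / δ ≤ (m : ℝ) ∧
      ∀ w ∈ Finset.range (4 * R), |trS b m w - 1| ≤ e2 := by
    filter_upwards [eventually_ge_atTop 1, eventually_ge_atTop m0,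
      eventually_ge_atTop ⌈9 * n * C ^ 2 * qn R Q / δ⌉₊, hev] with m h1 h2 h3 h4
    exact ⟨h1, h2, (Nat.le_ceil _).trans (by exact_mod_cast h3), h4⟩
  obtain ⟨m1, hm1⟩ := eventually_atTop.mp hev2
  refine ⟨m1, fun m hm J ρ β H Φ h => ?_⟩
  obtain ⟨g1, g2, g3, g4⟩ := hm1 m hm
  have hmr : (0:ℝ) < m := by exact_mod_cast g1
  have hmr1 : (1:ℝ) ≤ m := by exact_mod_cast g1
  have hW := WtS_pos hb g1
  have hN := NG_nonneg (mons R L l) s H m
  have hN2 := NG_sq (mons R L l) s H m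
  rw [← hn] at hN2
  set N := NG (mons R L l) s H m with hNdef
  set S2 := S2G (mons R L l) s H m with hS2
  -- the exact form
  have hA : cmG R L Q s b H m
      ≤ WtS b m * (hF R Q (ug L s H m) + e2 * (qn R Q * (C * N) ^ 2)) := by
    rw [cmG_eq R L hb Q s H g1]
    apply mul_le_mul_of_nonneg_left _ hW.le
    apply hF_pert R Q (fun r t => trS b m (2 * r + 2 * t)) (ug L s H m) (by positivity) he2p.le
    · intro i hi
      exact norm_ug_le hf H g1 hi
    · intro r hr t ht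
      apply g4
      rw [Finset.mem_range]
      omega
  set v : ℕ → ℂ := vS (diagc (EE Φ s) m) m with hv
  have hve : ∀ i < R, ‖ug L s H m i - v i‖ ≤ C * N / m := by
    intro i hi
    rw [hv, vS_split hf h m hi]
    have e : ug L s H m i - (ug L s H m i + ug l s H m i) = -ug l s H m i := by ring
    rw [e, norm_neg]
    exact norm_eg_le hf H g1 hi
  have h2N : C * N / m ≤ C * N := div_le_self (by positivity) hmr1
  have hvn : ∀ i < R, ‖v i‖ ≤ 2 * (C * N) := by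
    intro i hi
    have e : v i = ug L s H m i - (ug L s H m i - v i) := by ring
    rw [e]
    refine (norm_sub_le _ _).trans ?_
    have a1 := norm_ug_le hf H g1 hi
    have a2 := hve i hi
    rw [← hNdef, ← hCdef] at a1
    linarith
  have hB : hF R Q (ug L s H m) ≤ hF R Q v + 3 * C ^ 2 * qn R Q * N ^ 2 / m := by
    have a1 := hF_diff R Q (ug L s H m) v (U := C * N) (V := 2 * (C * N)) (e := C * N / m)
      (by positivity) (fun i hi => norm_ug_le hf H g1 hi) hvn hve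
    have e3 : qn R Q * (C * N / m * (C * N + 2 * (C * N)))
        = 3 * C ^ 2 * qn R Q * N ^ 2 / m := by
      field_simp
      ring
    rw [e3] at a1
    linarith
  have hD2 := hm0 m g1 g2 J (diagc (EE Φ s) m) (EE_symm h.logPhi s m)
  rw [← hv] at hD2
  have hWK : (m : ℝ) ^ 2 / (KS s * pq (b + 3) (m - 1)) = WtS b m / KS s := by
    unfold WtS
    rw [div_div, mul_comm (pq (b + 3) (m - 1))]
  rw [hWK] at hD2
  set E : ℝ := ∑ r ∈ Finset.range R, ‖v r‖ ^ 2 with hEdef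
  have hD3 : WtS b m * (hF R Q v - δ / (12 * (R + 1) * C ^ 2 * n) * E)
      ≤ KS s * (Pf s b (diagc (EE Φ s) m) m - Nf s b (diagc (EE Φ s) m) m J) := by
    have a2 := mul_le_mul_of_nonneg_left hD2 hK.le
    have e4 : KS s * (WtS b m / KS s
        * (hF R Q v - δ / (12 * (R + 1) * C ^ 2 * n) * E))
        = WtS b m * (hF R Q v - δ / (12 * (R + 1) * C ^ 2 * n) * E) := by
      rw [← mul_assoc, mul_div_cancel₀ _ hK.ne']
    rw [e4] at a2
    exact a2
  have hE : E ≤ R * (2 * (C * N)) ^ 2 := by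
    have a : ∀ r ∈ Finset.range R, ‖v r‖ ^ 2 ≤ (2 * (C * N)) ^ 2 := fun r hr =>
      pow_le_pow_left₀ (norm_nonneg _) (hvn r (Finset.mem_range.mp hr)) 2
    have a2 := Finset.sum_le_card_nsmul _ _ _ a
    rw [Finset.card_range, nsmul_eq_mul] at a2
    exact a2
  have hF1 : 3 * C ^ 2 * qn R Q * N ^ 2 / m ≤ δ / (3 * n) * N ^ 2 := by
    rw [div_le_iff₀ hmr]
    rw [div_le_iff₀ hδ] at g3
    have a := mul_le_mul_of_nonneg_right g3 (sq_nonneg N)
    have e : δ / (3 * n) * N ^ 2 * m = (m * δ) * N ^ 2 / (3 * n) := by ring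
    rw [e, le_div_iff₀ (by positivity)]
    linarith
  have hG : e2 * (qn R Q * (C * N) ^ 2) ≤ δ / (3 * n) * N ^ 2 := by
    have a : e2 * (qn R Q * C ^ 2) ≤ δ / (3 * n) := by
      have e : e2 * (qn R Q * C ^ 2) = δ / (3 * n) * (qn R Q / (qn R Q + 1)) := by
        rw [he2]
        field_simp
      rw [e]
      apply mul_le_of_le_one_right (by positivity)
      rw [div_le_one (by positivity)]
      linarith
    have a2 := mul_le_mul_of_nonneg_right a (sq_nonneg N)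
    calc e2 * (qn R Q * (C * N) ^ 2) = e2 * (qn R Q * C ^ 2) * N ^ 2 := by ring
      _ ≤ δ / (3 * n) * N ^ 2 := a2
  have hE2 : δ / (12 * (R + 1) * C ^ 2 * n) * E ≤ δ / (3 * n) * N ^ 2 := by
    have a1 := mul_le_mul_of_nonneg_left hE
      (show 0 ≤ δ / (12 * (R + 1) * C ^ 2 * n) by positivity)
    have e5 : δ / (12 * (R + 1) * C ^ 2 * n) * (R * (2 * (C * N)) ^ 2)
        = (δ / (3 * n) * N ^ 2) * (R / (R + 1)) := by
      field_simp
      ring
    rw [e5] at a1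
    refine a1.trans (mul_le_of_le_one_right (by positivity) ?_)
    rw [div_le_one (by positivity)]
    linarith
  -- conclusion
  have hI : hF R Q (ug L s H m) + e2 * (qn R Q * (C * N) ^ 2)
      ≤ (hF R Q v - δ / (12 * (R + 1) * C ^ 2 * n) * E) + δ * S2 := by
    have a2 : δ / n * N ^ 2 ≤ δ / n * (n * S2) :=
      mul_le_mul_of_nonneg_left hN2 (by positivity)
    have e6 : δ / n * (n * S2) = δ * S2 := by field_simp
    have e7 : δ / (3 * n) * N ^ 2 * 3 = δ / n * N ^ 2 := by field_simp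
    linarith
  calc cmG R L Q s b H m
      ≤ WtS b m * (hF R Q (ug L s H m) + e2 * (qn R Q * (C * N) ^ 2)) := hA
    _ ≤ WtS b m * ((hF R Q v - δ / (12 * (R + 1) * C ^ 2 * n) * E) + δ * S2) :=
        mul_le_mul_of_nonneg_left hI hW.le
    _ = WtS b m * (hF R Q v - δ / (12 * (R + 1) * C ^ 2 * n) * E)
        + δ * (WtS b m * S2) := by ring
    _ ≤ _ := add_le_add hD3 (le_refl _)

/-! ### the finite part -/

theorem cmG_bound (R : ℕ) (L : ℕ → List (ℂ × List ℕ)) {b : ℝ} (Q : ℕ → ℕ → ℂ) {s : ℂ}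
    (hs : ‖s‖ ≤ 1) (m : ℕ) : ∃ C : ℝ, 0 ≤ C ∧
    ∀ (ρ : ℝ) (β H : ℂ → ℂ) (Φ : ℂ → ℂ → ℂ), Dat ρ β H Φ → cmG R L Q s b H m ≤ C := by
  have h := fun r : ℕ => px_bound s hs (L r) m
  choose B hB0 hB using h
  refine ⟨∑ r ∈ Finset.range R, ∑ t ∈ Finset.range R,
    |b * (b + 1) * (b + 2) / poch b (2 * r + 2 * t)
      * ((b + (2 * t : ℕ) + (2 * r : ℕ)) * pq (b + (2 * t : ℕ) + (2 * r : ℕ) + 1) m)⁻¹|
      * (‖Q r t‖ * (B t * B r)), ?_, fun ρ β H Φ hd => ?_⟩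
  · exact Finset.sum_nonneg fun r _ => Finset.sum_nonneg fun t _ =>
      mul_nonneg (abs_nonneg _) (mul_nonneg (norm_nonneg _) (mul_nonneg (hB0 t) (hB0 r)))
  · unfold cmG
    apply Finset.sum_le_sum
    intro r _
    apply Finset.sum_le_sum
    intro t _
    rw [← mul_assoc]
    refine (le_abs_self _).trans ?_
    rw [abs_mul]
    apply mul_le_mul_of_nonneg_left _ (abs_nonneg _)
    refine (Complex.abs_re_le_norm _).trans ?_
    rw [norm_mul, norm_mul, RCLike.norm_conj]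
    exact mul_le_mul_of_nonneg_left
      (mul_le_mul (hB t ρ β H Φ hd) (hB r ρ β H Φ hd) (norm_nonneg _) (hB0 t)) (norm_nonneg _)

theorem S2G_sum (M : Finset (List ℕ)) {b : ℝ} (hb : 0 < b) : ∃ C : ℝ, 0 ≤ C ∧
    ∀ (ρ : ℝ) (β H : ℂ → ℂ) (Φ : ℂ → ℂ → ℂ), Dat ρ β H Φ → ∀ (s : ℂ) (F : Finset ℕ),
      ∑ m ∈ F, WtS b m * S2G M s H m ≤ C * LS s H b (fun _ => 1) := by
  have h := fun A : List ℕ => norm_sum_s hb A
  choose C hC0 hC using h
  refine ⟨∑ A ∈ M, C A, Finset.sum_nonneg fun A _ => hC0 A, fun ρ β H Φ hd s F => ?_⟩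
  have e : ∑ m ∈ F, WtS b m * S2G M s H m
      = ∑ A ∈ M, ∑ m ∈ F, WtS b m * ys s H A m ^ 2 := by
    rw [Finset.sum_comm]
    apply Finset.sum_congr rfl
    intro m _
    unfold S2G
    rw [Finset.mul_sum]
  rw [e, Finset.sum_mul]
  apply Finset.sum_le_sum
  intro A _
  exact hC A ρ β H Φ hd s F

theorem area_form_gen {s : ℂ} (hs1 : ‖s‖ < 1) {b : ℝ} (hb : 0 < b)
    (hσ : 0 < b + 1 - 2 * s.re) {R : ℕ} {L l : ℕ → List (ℂ × List ℕ)} (hf : Fam s R L l)
    (Q : ℕ → ℕ → ℂ) (hQ : PF s b R (hF R Q)) {δ : ℝ} (hδ : 0 < δ) :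
    ∃ C : ℝ, ∀ (ρ : ℝ) (β H : ℂ → ℂ) (Φ : ℂ → ℂ → ℂ), Dat ρ β H Φ →
      LS s H b (fun z => qG R L Q b (cc H z)) ≤ δ * LS s H b (fun _ => 1) + C := by
  have hK := KS_pos hs1
  obtain ⟨C4, hC40, hC4⟩ := S2G_sum (mons R L l) hb
  set δ' : ℝ := δ / (C4 + 1) with hδ'
  have hδp : 0 < δ' := by positivity
  obtain ⟨m1, hm1⟩ := per_order_g hs1 hb hf Q hQ hδp
  have hfin := fun m : ℕ => cmG_bound R L (b := b) Q hs1.le m
  choose B hB0 hB using hfin
  have hNf := fun m : ℕ => Nf_small_fixed hs1 hb hσ m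
  choose B' hB'0 hB' using hNf
  refine ⟨∑ m ∈ Finset.range m1, B m + KS s * ∑ m ∈ Finset.range m1, B' m,
    fun ρ β H Φ h => ?_⟩
  have hsum := (cmG_hasSum hf h hb Q).tendsto_sum_nat
  apply le_of_tendsto hsum
  filter_upwards [eventually_ge_atTop m1] with M hM
  have hLS : 0 ≤ LS s H b (fun _ => 1) :=
    LS_nonneg (dat_cont h) hb continuousOn_const (fun z _ => zero_le_one)
  have hPf0 : ∀ m, 0 ≤ Pf s b (diagc (EE Φ s) m) m := fun m => Pf_nonneg hσ _ m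
  rw [← Finset.sum_range_add_sum_Ico _ hM]
  have a1 : ∑ m ∈ Finset.range m1, cmG R L Q s b H m ≤ ∑ m ∈ Finset.range m1, B m :=
    Finset.sum_le_sum fun m _ => hB m ρ β H Φ h
  have a2 : ∑ m ∈ Finset.Ico m1 M, cmG R L Q s b H m
      ≤ ∑ m ∈ Finset.Ico m1 M, (KS s * (Pf s b (diagc (EE Φ s) m) m
        - Nf s b (diagc (EE Φ s) m) m (M - (m + 1)))
        + δ' * (WtS b m * S2G (mons R L l) s H m)) :=
    Finset.sum_le_sum fun m hm => hm1 m (Finset.mem_Ico.mp hm).1 (M - (m + 1)) ρ β H Φ h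
  rw [Finset.sum_add_distrib, ← Finset.mul_sum, ← Finset.mul_sum, Finset.sum_sub_distrib] at a2
  have a3 := area_sum_s h.ext h.logPhi hσ M
  rw [← Finset.sum_range_add_sum_Ico (fun m => Pf s b (diagc (EE Φ s) m) m) hM,
    ← Finset.sum_range_add_sum_Ico
      (fun m => Nf s b (diagc (EE Φ s) m) m (M - (m + 1))) hM] at a3
  have a4 : 0 ≤ ∑ m ∈ Finset.range m1, Pf s b (diagc (EE Φ s) m) m :=
    Finset.sum_nonneg fun m _ => hPf0 m
  have a5 : ∑ m ∈ Finset.range m1, Nf s b (diagc (EE Φ s) m) m (M - (m + 1))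
      ≤ ∑ m ∈ Finset.range m1, B' m :=
    Finset.sum_le_sum fun m _ => hB' m ρ β H Φ h (M - (m + 1))
  have a6 : ∑ m ∈ Finset.Ico m1 M, Pf s b (diagc (EE Φ s) m) m
      - ∑ m ∈ Finset.Ico m1 M, Nf s b (diagc (EE Φ s) m) m (M - (m + 1))
      ≤ ∑ m ∈ Finset.range m1, B' m := by linarith
  have a7 := mul_le_mul_of_nonneg_left a6 hK.le
  have a8 := hC4 ρ β H Φ h s (Finset.Ico m1 M)
  have a9 : δ' * ∑ m ∈ Finset.Ico m1 M, WtS b m * S2G (mons R L l) s H m
      ≤ δ * LS s H b (fun _ => 1) := by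
    calc δ' * ∑ m ∈ Finset.Ico m1 M, WtS b m * S2G (mons R L l) s H m
        ≤ δ' * (C4 * LS s H b (fun _ => 1)) := mul_le_mul_of_nonneg_left a8 hδp.le
      _ = (δ * (C4 / (C4 + 1))) * LS s H b (fun _ => 1) := by rw [hδ']; ring
      _ ≤ (δ * 1) * LS s H b (fun _ => 1) := by
          apply mul_le_mul_of_nonneg_right _ hLS
          apply mul_le_mul_of_nonneg_left _ hδ.le
          rw [div_le_one (by linarith)]
          linarith
      _ = δ * LS s H b (fun _ => 1) := by ring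
  linarith

open CoreS in
/-- the bound, for any family -/
theorem core_gen {s : ℂ} (hs1 : ‖s‖ < 1) {b : ℝ} (hb : 0 < b)
    (hσ : 0 < b + 1 - 2 * s.re) (hg : 2 * ‖s‖ < b + 1) {R : ℕ} {L l : ℕ → List (ℂ × List ℕ)}
    (hf : Fam s R L l) (Q : ℕ → ℕ → ℂ) (hQ : PF s b R (hF R Q))
    (rels : List (ℂ × List ℕ × List ℕ)) {η : ℝ} (hη : 0 < η)
    (hc : ∀ c : ℕ → ℂ, η ≤ qG R L Q b c
      + (rels.map (fun x => (x.1 * relS s b c x.2.1 x.2.2).re)).sum) :
    ∃ C : ℝ, ∀ (ρ : ℝ) (β H : ℂ → ℂ) (Φ : ℂ → ℂ → ℂ), Dat ρ β H Φ →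
      LS s H b (fun _ => 1) ≤ C := by
  obtain ⟨CA, hCA⟩ := area_form_gen hs1 hb hσ hf Q hQ (δ := η / 2) (by positivity)
  obtain ⟨K, hK⟩ := rel_sum s hb hg rels
  refine ⟨(CA + K) * (2 / η), ?_⟩
  intro ρ β H Φ h
  have hHc : ContinuousOn H (closedBall 0 1) := dat_cont h
  have hA := hCA ρ β H Φ h
  obtain ⟨hR, hRc⟩ := hK ρ β H Φ h
  have hq := qG_cont R L h b Q
  have h2 : LS s H b (fun _ => η * 1) ≤ LS s H b (fun z => qG R L Q b (cc H z)
      + (rels.map (fun x => (x.1 * relS s b (cc H z) x.2.1 x.2.2).re)).sum) := by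
    apply LS_mono hHc hb continuousOn_const (hq.add hRc)
    intro z _
    have h4 := hc (cc H z)
    beta_reduce
    rw [mul_one]
    exact h4
  rw [LS_smul, LS_add hHc hb hq hRc] at h2
  obtain ⟨I, hI⟩ : ∃ I, I = LS s H b (fun _ => 1) := ⟨_, rfl⟩
  rw [← hI] at h2 hA ⊢
  have h3 : η / 2 * I ≤ CA + K := by linarith
  have e : I = (η / 2 * I) * (2 / η) := by field_simp
  rw [e]
  exact mul_le_mul_of_nonneg_right h3 (by positivity)

/-! ### three moments -/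

theorem fam3 (s : ℂ) : Fam s 3 (LP s) (lP s) where
  wtL := fun _ hr => LP_wt s hr
  wtl := fun _ hr => lP_wt s hr
  split := by
    intro ρ β H Φ h m r hr
    have hH : DifferentiableOn ℂ H (ball 0 1) := (dat_hyp h).1
    rw [← px_append, ← coeff_pv s hH]
    interval_cases r
    · have e1 := EE_diag h.logPhi s m
      simp only [mul_zero, pow_zero, mul_one]
      rw [e1]
      congr 1
      funext z
      simp [pv, LP, lP, ev]
    · have e1 := jetS2 h.toData s m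
      rw [mul_one, e1]
      congr 1
      funext z
      rw [pv_append, ← XS_eq s _ (by norm_num), ← low2S_eq]
    · have e1 := jetS4 h.toData s m
      rw [show 2 * 2 = 4 by norm_num, e1]
      congr 1
      funext z
      rw [pv_append, ← XS_eq s _ (by norm_num), ← low4S_eq]

theorem qS_eq (Q : ℕ → ℕ → ℂ) (s : ℂ) (b : ℝ) (c : ℕ → ℂ) : qS Q s b c = qG 3 (LP s) Q b c := by
  unfold qS qG
  congr 1
  apply Finset.sum_congr rfl
  intro r hr
  apply Finset.sum_congr rfl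
  intro t ht
  rw [Finset.mem_range] at hr ht
  rw [XS_eq s _ ht, XS_eq s _ hr]

end CG

theorem core_g {s : ℂ} (hs0 : s ≠ 0) (hs : ‖s‖ ≤ 7 / 10) {b : ℝ} (hb : 0 < b)
    (hb1 : b ≤ 1) (hσ : 0 < b + 1 - 2 * s.re) (hg : 2 * ‖s‖ < b + 1)
    (Q : ℕ → ℕ → ℂ) (hQ : PF s b 3 (hF 3 Q))
    (rels : List (ℂ × List ℕ × List ℕ)) {η : ℝ} (hη : 0 < η)
    (hc : ∀ c : ℕ → ℂ, η ≤ qS Q s b c
      + (rels.map (fun x => (x.1 * relS s b c x.2.1 x.2.2).re)).sum) :
    ∃ C : ℝ, ∀ (ρ : ℝ) (β H : ℂ → ℂ) (Φ : ℂ → ℂ → ℂ), Dat ρ β H Φ →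
      LS s H b (fun _ => 1) ≤ C :=
  CG.core_gen (by linarith) hb hσ hg (CG.fam3 s) Q hQ rels hη
    (fun c => by rw [← CG.qS_eq]; exact hc c)

end Pool.Agent.Helper24.HR2
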