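import Mathlib
import Pool.Agent.Helper24.HR2.Defs2
import Pool.Agent.Helper24.HR2.Defs6

/-!
MP_16b0ee, project HR2: the area form with four moments (orders 0, 2, 4, 6).
-/

set_option autoImplicit false

open MeasureTheory Set Metric Filter Topology
open scoped Real ComplexConjugate

namespace Pool.Agent.Helper24.HR2

/-- leading parts (weight `2 r`) of the even moments of order at most 6 -/
noncomputable def XT (s : ℂ) (c : ℕ → ℂ) (r : ℕ) : ℂ := if r = 3 then XS6 s c else XS s c r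

/-- the area form with four moments (fixed exponent) -/
noncomputable def qT (Q : ℕ → ℕ → ℂ) (s : ℂ) (b : ℝ) (c : ℕ → ℂ) : ℝ :=
  b * (b + 1) * (b + 2) * ∑ r ∈ Finset.range 4, ∑ t ∈ Finset.range 4,
    (Q r t * (XT s c t * conj (XT s c r))).re / poch b (2 * r + 2 * t)

/-- the sixth moment divided by `s` -/
noncomputable def YS6 (s : ℂ) (c : ℕ → ℂ) : ℂ :=
  (-(45 / 4) * c 5 + 45 / 2 * c 0 * c 4 + 45 / 4 * c 1 * c 3 - 45 / 2 * c 0 ^ 2 * c 3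
      + 45 / 4 * c 2 ^ 2 - 45 * c 0 * c 1 * c 2 + 45 / 2 * c 0 ^ 3 * c 2 - 15 / 4 * c 1 ^ 3
      + 135 / 4 * c 0 ^ 2 * c 1 ^ 2 - 45 / 2 * c 0 ^ 4 * c 1 + 15 / 4 * c 0 ^ 6)
    + s * (45 / 4 * c 1 * c 3 - 45 / 4 * c 0 ^ 2 * c 3 - 45 / 2 * c 0 * c 1 * c 2
      + 45 / 2 * c 0 ^ 3 * c 2 - 45 / 8 * c 1 ^ 3 + 225 / 8 * c 0 ^ 2 * c 1 ^ 2
      - 225 / 8 * c 0 ^ 4 * c 1 + 45 / 8 * c 0 ^ 6)
    + s ^ 2 * (15 / 8 * (c 0 ^ 2 - c 1) ^ 3)

/-- the even moments divided by `s`: weights 1, 2, 4, 6 -/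
noncomputable def YT (s : ℂ) (c : ℕ → ℂ) (r : ℕ) : ℂ := if r = 3 then YS6 s c else YS s c r

def wYT (r : ℕ) : ℕ := if r = 3 then 6 else wY r

/-- the area form with four moments (small exponents) -/
noncomputable def qYT (Q : ℕ → ℕ → ℂ) (s : ℂ) (b : ℝ) (c : ℕ → ℂ) : ℝ :=
  (b + 1) * (b + 2) * ∑ r ∈ Finset.range 4, ∑ t ∈ Finset.range 4,
    (Q r t * (YT s c t * conj (YT s c r))).re / poch (b + 1) (wYT r + wYT t - 1)

end Pool.Agent.Helper24.HR2
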