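import Mathlib
import Pool.Agent.Helper24.HR2.CoreG
import Pool.Agent.Helper24.HR2.Defs4

/-!
MP_16b0ee, project HR2, section U1: the case of four moments (with the sixth central moment).
-/

set_option autoImplicit false

open MeasureTheory Set Metric Filter Topology
open scoped Real ComplexConjugate

namespace Pool.Agent.Helper24.HR2

open Pool.Agent.Helper22.Half
open Pool.Agent.Helper22.Marshall (coeff SepHol LogPhi dcoeff GLe)
open Pool.Agent.Helper39.Area (Ext phi)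
open Pool.Agent.Helper39.MH

namespace CG

open FS

/-- the leading part of the sixth moment -/
noncomputable def L6 (s : ℂ) : List (ℂ × List ℕ) :=
  [(-(45 / 4) * s, [5]), (45 / 2 * s, [0, 4]), (45 / 4 * s + 45 / 4 * s ^ 2, [1, 3]),
    (-(45 / 2) * s - 45 / 4 * s ^ 2, [0, 0, 3]), (45 / 4 * s, [2, 2]),
    (-45 * s - 45 / 2 * s ^ 2, [0, 1, 2]), (45 / 2 * s + 45 / 2 * s ^ 2, [0, 0, 0, 2]),
    (-(15 / 4) * s - 45 / 8 * s ^ 2 - 15 / 8 * s ^ 3, [1, 1, 1]),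
    (135 / 4 * s + 225 / 8 * s ^ 2 + 45 / 8 * s ^ 3, [0, 0, 1, 1]),
    (-(45 / 2) * s - 225 / 8 * s ^ 2 - 45 / 8 * s ^ 3, [0, 0, 0, 0, 1]),
    (15 / 4 * s + 45 / 8 * s ^ 2 + 15 / 8 * s ^ 3, [0, 0, 0, 0, 0, 0])]

/-- the lower order part of the sixth moment -/
noncomputable def l6 (s : ℂ) : List (ℂ × List ℕ) :=
  [(135 / 14 * s, [4]), (-(165 / 14) * s - 15 / 2 * s ^ 2, [0, 3]),
    (-(72 / 7) * s - 9 * s ^ 2, [1, 2]), (69 / 14 * s + 24 * s ^ 2, [0, 0, 2]),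
    (153 / 14 * s + 57 / 4 * s ^ 2 + 15 / 4 * s ^ 3, [0, 1, 1]),
    (-(57 / 14) * s - 27 * s ^ 2 - 15 / 2 * s ^ 3, [0, 0, 0, 1]),
    (9 / 14 * s + 21 / 4 * s ^ 2 + 15 / 4 * s ^ 3, [0, 0, 0, 0, 0]),
    (-(15 / 7) * s, [3]), (-(12 / 7) * s + 6 * s ^ 2, [0, 2]),
    (9 / 14 * s + 3 / 2 * s ^ 2, [1, 1]),
    (25 / 7 * s - 15 / 2 * s ^ 2 - 5 / 2 * s ^ 3, [0, 0, 1]),
    (-(5 / 14) * s + 5 / 2 * s ^ 3, [0, 0, 0, 0]), (-(3 / 7) * s, [2]),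
    (19 / 14 * s - 1 / 2 * s ^ 2, [0, 1]),
    (23 / 126 * s - 7 / 6 * s ^ 2 + 5 / 9 * s ^ 3, [0, 0, 0]), (1 / 7 * s, [1]),
    (4 / 21 * s - 1 / 3 * s ^ 2, [0, 0]), (1 / 21 * s, [0])]

/-- the leading parts of the first four even moments -/
noncomputable def L4 (s : ℂ) : ℕ → List (ℂ × List ℕ)
  | 0 => LP s 0
  | 1 => LP s 1
  | 2 => LP s 2
  | 3 => L6 s
  | _ => []

/-- the lower order parts of the first four even moments -/
noncomputable def l4 (s : ℂ) : ℕ → List (ℂ × List ℕ)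
  | 0 => lP s 0
  | 1 => lP s 1
  | 2 => lP s 2
  | 3 => l6 s
  | _ => []

theorem XS6_eq (s : ℂ) (c : ℕ → ℂ) : XS6 s c = pv c (L6 s) := by
  simp only [XS6, pv, L6, ev, List.map_cons, List.map_nil, List.sum_cons, List.sum_nil,
    List.prod_cons, List.prod_nil]
  ring

theorem low6S_eq (s : ℂ) (c : ℕ → ℂ) : low6S s c = pv c (l6 s) := by
  simp only [low6S, pv, l6, ev, List.map_cons, List.map_nil, List.sum_cons, List.sum_nil,
    List.prod_cons, List.prod_nil]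
  ring

theorem XT_eq (s : ℂ) (c : ℕ → ℂ) {r : ℕ} (hr : r < 4) : XT s c r = pv c (L4 s r) := by
  interval_cases r
  · exact XS_eq s c (r := 0) (by norm_num)
  · exact XS_eq s c (r := 1) (by norm_num)
  · exact XS_eq s c (r := 2) (by norm_num)
  · exact XS6_eq s c

theorem qT_eq (Q : ℕ → ℕ → ℂ) (s : ℂ) (b : ℝ) (c : ℕ → ℂ) : qT Q s b c = qG 4 (L4 s) Q b c := by
  unfold qT qG
  congr 1
  apply Finset.sum_congr rfl
  intro r hr
  apply Finset.sum_congr rfl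
  intro t ht
  rw [Finset.mem_range] at hr ht
  rw [XT_eq s _ ht, XT_eq s _ hr]

theorem L6_wt (s : ℂ) : ∀ x ∈ L6 s, wt x.2 = 6 := by
  simp [L6, wt]

theorem l6_wt (s : ℂ) : ∀ x ∈ l6 s, wt x.2 + 1 ≤ 6 := by
  simp [l6, wt]

theorem fam4 (s : ℂ) : Fam s 4 (L4 s) (l4 s) where
  wtL := by
    intro r hr
    interval_cases r
    · exact (fam3 s).wtL 0 (by norm_num)
    · exact (fam3 s).wtL 1 (by norm_num)
    · exact (fam3 s).wtL 2 (by norm_num)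
    · exact L6_wt s
  wtl := by
    intro r hr
    interval_cases r
    · exact (fam3 s).wtl 0 (by norm_num)
    · exact (fam3 s).wtl 1 (by norm_num)
    · exact (fam3 s).wtl 2 (by norm_num)
    · exact l6_wt s
  split := by
    intro ρ β H Φ h m r hr
    interval_cases r
    · exact (fam3 s).split ρ β H Φ h m 0 (by norm_num)
    · exact (fam3 s).split ρ β H Φ h m 1 (by norm_num)
    · exact (fam3 s).split ρ β H Φ h m 2 (by norm_num)
    · have hH : DifferentiableOn ℂ H (ball 0 1) := (dat_hyp h).1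
      have e1 := jetS6 h.toData s m
      rw [← px_append, ← coeff_pv s hH, show 2 * 3 = 6 by norm_num, e1]
      congr 1
      funext z
      rw [pv_append, XS6_eq, low6S_eq]
      rfl

end CG

/-- elimination of the last moment, any form -/
theorem PF_extK {s : ℂ} (hs : ‖s‖ < 1) {b : ℝ} (hb : 0 < b) {K : ℕ} {q q' : (ℕ → ℂ) → ℝ}
    (h : PF s b (K + 1) q) {δ' : ℝ} (hδ' : 0 < δ')
    (hQ : ∀ g : ℕ → ℂ, q' g + δ' * ‖g K‖ ^ 2 ≤ q g) : PF s b K q' := by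
  intro δ hδ
  obtain ⟨m0, hm0⟩ := h (min δ δ') (lt_min hδ hδ')
  refine ⟨m0, fun m h1 h2 J d hd =>
    (mul_le_mul_of_nonneg_left ?_ (CG.pref_nonneg hs hb m)).trans (hm0 m h1 h2 J d hd)⟩
  rw [Finset.sum_range_succ, mul_add]
  have a := hQ (vS d m)
  have b1 : min δ δ' * ∑ r ∈ Finset.range K, ‖vS d m r‖ ^ 2
      ≤ δ * ∑ r ∈ Finset.range K, ‖vS d m r‖ ^ 2 :=
    mul_le_mul_of_nonneg_right (min_le_left _ _) (Finset.sum_nonneg fun _ _ => by positivity)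
  have b2 : min δ δ' * ‖vS d m K‖ ^ 2 ≤ δ' * ‖vS d m K‖ ^ 2 :=
    mul_le_mul_of_nonneg_right (min_le_right _ _) (by positivity)
  linarith

/-- the bound from four moments, any exponent in the unit disc -/
theorem core_t' {s : ℂ} (hs : ‖s‖ < 1) {b : ℝ} (hb : 0 < b)
    (hσ : 0 < b + 1 - 2 * s.re) (hg : 2 * ‖s‖ < b + 1)
    (Q : ℕ → ℕ → ℂ) (hQ : PF s b 4 (hF 4 Q))
    (rels : List (ℂ × List ℕ × List ℕ)) {η : ℝ} (hη : 0 < η)
    (hc : ∀ c : ℕ → ℂ, η ≤ qT Q s b c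
      + (rels.map (fun x => (x.1 * relS s b c x.2.1 x.2.2).re)).sum) :
    ∃ C : ℝ, ∀ (ρ : ℝ) (β H : ℂ → ℂ) (Φ : ℂ → ℂ → ℂ), Dat ρ β H Φ →
      LS s H b (fun _ => 1) ≤ C :=
  CG.core_gen hs hb hσ hg (CG.fam4 s) Q hQ rels hη
    (fun c => by rw [← CG.qT_eq]; exact hc c)

theorem core_t {s : ℂ} (_hs0 : s ≠ 0) (hs : ‖s‖ ≤ 7 / 10) {b : ℝ} (hb : 0 < b)
    (_hb1 : b ≤ 1) (hσ : 0 < b + 1 - 2 * s.re) (hg : 2 * ‖s‖ < b + 1)
    (Q : ℕ → ℕ → ℂ) (hQ : PF s b 4 (hF 4 Q))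
    (rels : List (ℂ × List ℕ × List ℕ)) {η : ℝ} (hη : 0 < η)
    (hc : ∀ c : ℕ → ℂ, η ≤ qT Q s b c
      + (rels.map (fun x => (x.1 * relS s b c x.2.1 x.2.2).re)).sum) :
    ∃ C : ℝ, ∀ (ρ : ℝ) (β H : ℂ → ℂ) (Φ : ℂ → ℂ → ℂ), Dat ρ β H Φ →
      LS s H b (fun _ => 1) ≤ C :=
  core_t' (by linarith) hb hσ hg Q hQ rels hη hc

end Pool.Agent.Helper24.HR2
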