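import Mathlib
import Pool.Agent.Helper24.HR2.CoreT

/-!
MP_16b0ee, project HR2: the sixth moment; everything is in `CoreT.lean`.
-/

set_option autoImplicit false

namespace Pool.Agent.Helper24.HR2

/-- elimination of the fifth moment -/
theorem PF_ext4 {s : ℂ} (hs : ‖s‖ < 1) {b : ℝ} (hb : 0 < b) {q : (ℕ → ℂ) → ℝ}
    (h : PF s b 5 q) (Q : ℕ → ℕ → ℂ) {δ' : ℝ} (hδ' : 0 < δ')
    (hQ : ∀ g : ℕ → ℂ, hF 4 Q g + δ' * ‖g 4‖ ^ 2 ≤ q g) : PF s b 4 (hF 4 Q) :=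
  PF_extK hs hb h hδ' hQ

end Pool.Agent.Helper24.HR2
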