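import Mathlib
import Pool.Agent.Helper22.Half.FamExt

/-!
MP_16b0ee, project HR2: from one bound for the whole class Sigma to the bound for holomorphic
families, with a general threshold `a0`.
-/

set_option autoImplicit false

open MeasureTheory Set Metric Filter Topology
open scoped ENNReal NNReal Real ComplexConjugate

namespace Pool.Agent.Helper24.HR2

open Pool.Agent.Helper22.Half
open Pool.Agent.Helper39.Area (toDisc)

/-- The bound of a holomorphic family at `l` with `‖l‖ ≤ k`, from the bound for the class Sigma with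
every exponent below `a0`. -/
theorem mInt_family_of {a0 : ℝ} (ha0 : 0 < a0)
    (hS : ∀ a : ℝ, 0 < a → a < a0 → ∃ C : ℝ, ∀ R : ℝ, 1 < R → ∀ ψ h : ℂ → ℂ,
      SigmaLog ψ h → mInt a R h ≤ C)
    {k a : ℝ} (hk0 : 0 < k) (hk1 : k < 1) (ha : 0 < a) (hak : a * k ^ 2 < a0) :
    ∃ C : ℝ, 0 ≤ C ∧ ∀ R : ℝ, 1 < R → ∀ ψ h : ℂ → ℂ → ℂ, HolFam ψ h →
      ∀ l : ℂ, ‖l‖ ≤ k → mInt a R (h l) ≤ C := by
  have hpi := Real.pi_pos
  obtain ⟨A, hA⟩ : ∃ A, A = a * k ^ 2 := ⟨_, rfl⟩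
  have hA0 : 0 < A := by rw [hA]; positivity
  have hA1 : A < a0 := by rw [hA]; exact hak
  obtain ⟨m, hm⟩ : ∃ m, m = max (k ^ 2) (A / a0) := ⟨_, rfl⟩
  have hm1 : m < 1 := by
    rw [hm]
    apply max_lt
    · nlinarith
    · rw [div_lt_one ha0]; exact hA1
  have hmk : k ^ 2 ≤ m := by rw [hm]; exact le_max_left _ _
  have hmA : A / a0 ≤ m := by rw [hm]; exact le_max_right _ _
  have hm0 : 0 < m := lt_of_lt_of_le (by positivity) hmk
  obtain ⟨κ, hκ⟩ : ∃ κ, κ = Real.sqrt ((m + 1) / 2) := ⟨_, rfl⟩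
  have hκ2 : κ ^ 2 = (m + 1) / 2 := by
    rw [hκ, Real.sq_sqrt (by linarith)]
  have hκ0 : 0 < κ := by rw [hκ]; exact Real.sqrt_pos.mpr (by linarith)
  have hκ1 : κ < 1 := by nlinarith
  have hkκ : k < κ := by nlinarith
  have hAκ : A / κ ^ 2 < a0 := by
    rw [div_lt_iff₀ (by positivity), hκ2]
    rw [div_le_iff₀ ha0] at hmA
    nlinarith
  obtain ⟨C, hmain⟩ := hS (A / κ ^ 2) (by positivity) hAκ
  refine ⟨|C| + 1, by positivity, ?_⟩
  intro R hR ψ h H l hl
  have hR0 : 0 < R⁻¹ := by positivity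
  have hR1 : R⁻¹ < 1 := inv_lt_one_of_one_lt₀ hR
  obtain ⟨r, hr⟩ : ∃ r, r = R⁻¹ := ⟨_, rfl⟩
  obtain ⟨L, hL⟩ : ∃ L, L = Real.log (1 / (1 - r ^ 2)) := ⟨_, rfl⟩
  rw [← hr] at hR0 hR1
  have hx : 0 < 1 - r ^ 2 := by nlinarith
  have hLpos : 0 < L := by
    rw [hL]
    apply Real.log_pos
    rw [one_lt_div hx]
    have : 0 < r ^ 2 := by positivity
    linarith
  have hmem : ∀ θ : ℝ, (r : ℂ) * Complex.exp ((θ : ℂ) * Complex.I) ∈ ball (0 : ℂ) 1 := by
    intro θ
    rw [mem_ball_zero_iff, norm_mul, Complex.norm_exp_ofReal_mul_I, mul_one, Complex.norm_real,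
      Real.norm_of_nonneg hR0.le]
    exact hR1
  have hl1 : l ∈ ball (0:ℂ) 1 := by
    rw [mem_ball_zero_iff]; linarith
  have hCabs := le_abs_self C
  have hCnn := abs_nonneg C
  rw [mInt_disc a R hR, ← hr, ← hL]
  by_cases hl0 : l = 0
  · subst hl0
    have h1 : ∀ θ : ℝ, Real.exp (a * ‖toDisc 0 (h 0) ((r : ℂ) * Complex.exp ((θ : ℂ) * Complex.I))‖ ^ 2
          / L) = 1 := by
      intro θ
      rw [H.h_zero _ (hmem θ)]
      simp
    simp_rw [h1]
    rw [intervalIntegral.integral_const, smul_eq_mul]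
    have : 1 / (2 * π) * ((2 * π - 0) * 1) = 1 := by
      field_simp
      ring
    rw [this]
    linarith
  · have hln : 0 < ‖l‖ := norm_pos_iff.mpr hl0
    have hfam := fam_disc H (A := A) (C := 2 * π * C) (κ := κ) (L := L) (r := r) hA0.le hLpos hκ0 hκ1
      hR0.le hR1 (fun l' hl' => by
        have h1 := hmain R hR (ψ l') (h l') (H.mem l' hl')
        rw [mInt_disc _ R hR, ← hr, ← hL] at h1
        rw [one_div, inv_mul_le_iff₀ (by positivity)] at h1
        exact h1) (lt_of_le_of_lt hl hkκ) hl0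
    have hfc : Continuous (fun θ : ℝ => toDisc 0 (h l) ((r : ℂ) * Complex.exp ((θ : ℂ) * Complex.I))) :=
      ((H.mem l hl1).goluzin.1.continuousOn).comp_continuous (by fun_prop) hmem
    have haA : a ≤ A / ‖l‖ ^ 2 := by
      rw [le_div_iff₀ (by positivity), hA]
      gcongr
    have hmono : ∫ θ in (0:ℝ)..(2 * π),
        Real.exp (a * ‖toDisc 0 (h l) ((r : ℂ) * Complex.exp ((θ : ℂ) * Complex.I))‖ ^ 2 / L)
        ≤ ∫ θ in (0:ℝ)..(2 * π),
        Real.exp (A / ‖l‖ ^ 2 *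
          ‖toDisc 0 (h l) ((r : ℂ) * Complex.exp ((θ : ℂ) * Complex.I))‖ ^ 2 / L) := by
      apply intervalIntegral.integral_mono (by positivity)
      · apply Continuous.intervalIntegrable
        exact Real.continuous_exp.comp ((continuous_const.mul (hfc.norm.pow 2)).div_const L)
      · apply Continuous.intervalIntegrable
        exact Real.continuous_exp.comp ((continuous_const.mul (hfc.norm.pow 2)).div_const L)
      · intro θ
        simp only
        gcongr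
    have h2 := hmono.trans hfam
    rw [one_div, inv_mul_le_iff₀ (by positivity)]
    have h3 : 2 * π * C ≤ 2 * π * (|C| + 1) := by
      apply mul_le_mul_of_nonneg_left _ (by positivity)
      linarith
    linarith

/-- The closed form: from the bound with the single exponent `a0` for the class Sigma to all
exponents `a ≤ a0 / k ^ 2` for a holomorphic family at `‖l‖ ≤ k`. -/
theorem mInt_family_closed {a0 : ℝ} (ha0 : 0 < a0)
    (hS : ∃ C : ℝ, ∀ R : ℝ, 1 < R → ∀ ψ h : ℂ → ℂ, SigmaLog ψ h → mInt a0 R h ≤ C)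
    {k a : ℝ} (hk0 : 0 < k) (hk1 : k < 1) (ha : 0 < a) (hak : a * k ^ 2 ≤ a0) :
    ∃ C : ℝ, 0 ≤ C ∧ ∀ R : ℝ, 1 < R → ∀ ψ h : ℂ → ℂ → ℂ, HolFam ψ h →
      ∀ l : ℂ, ‖l‖ ≤ k → mInt a R (h l) ≤ C := by
  have hpi := Real.pi_pos
  obtain ⟨C, hmain⟩ := hS
  refine ⟨|C| + 1, by positivity, ?_⟩
  intro R hR ψ h H l hl
  have hR0 : 0 < R⁻¹ := by positivity
  have hR1 : R⁻¹ < 1 := inv_lt_one_of_one_lt₀ hR
  obtain ⟨r, hr⟩ : ∃ r, r = R⁻¹ := ⟨_, rfl⟩
  obtain ⟨L, hL⟩ : ∃ L, L = Real.log (1 / (1 - r ^ 2)) := ⟨_, rfl⟩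
  rw [← hr] at hR0 hR1
  have hx : 0 < 1 - r ^ 2 := by nlinarith
  have hLpos : 0 < L := by
    rw [hL]
    apply Real.log_pos
    rw [one_lt_div hx]
    have : 0 < r ^ 2 := by positivity
    linarith
  have hmem : ∀ θ : ℝ, (r : ℂ) * Complex.exp ((θ : ℂ) * Complex.I) ∈ ball (0 : ℂ) 1 := by
    intro θ
    rw [mem_ball_zero_iff, norm_mul, Complex.norm_exp_ofReal_mul_I, mul_one, Complex.norm_real,
      Real.norm_of_nonneg hR0.le]
    exact hR1
  have hl1 : l ∈ ball (0:ℂ) 1 := by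
    rw [mem_ball_zero_iff]; linarith
  have hCabs := le_abs_self C
  have hCnn := abs_nonneg C
  rw [mInt_disc a R hR, ← hr, ← hL]
  by_cases hl0 : l = 0
  · subst hl0
    have h1 : ∀ θ : ℝ, Real.exp (a * ‖toDisc 0 (h 0) ((r : ℂ) * Complex.exp ((θ : ℂ) * Complex.I))‖ ^ 2
          / L) = 1 := by
      intro θ
      rw [H.h_zero _ (hmem θ)]
      simp
    simp_rw [h1]
    rw [intervalIntegral.integral_const, smul_eq_mul]
    have : 1 / (2 * π) * ((2 * π - 0) * 1) = 1 := by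
      field_simp
      ring
    rw [this]
    linarith
  · have hln : 0 < ‖l‖ := norm_pos_iff.mpr hl0
    have hln1 : ‖l‖ < 1 := lt_of_le_of_lt hl hk1
    have hfc : Continuous (fun θ : ℝ => toDisc 0 (h l) ((r : ℂ) * Complex.exp ((θ : ℂ) * Complex.I))) :=
      ((H.mem l hl1).goluzin.1.continuousOn).comp_continuous (by fun_prop) hmem
    have hfam : ∀ κ : ℝ, ‖l‖ < κ → κ < 1 → ∫ θ in (0:ℝ)..(2 * π),
        Real.exp (a0 * κ ^ 2 / ‖l‖ ^ 2 *
          ‖toDisc 0 (h l) ((r : ℂ) * Complex.exp ((θ : ℂ) * Complex.I))‖ ^ 2 / L)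
        ≤ 2 * π * C := by
      intro κ hκ hκ1
      have hκ0 : 0 < κ := hln.trans hκ
      have e1 : a0 * κ ^ 2 / κ ^ 2 = a0 := by field_simp
      exact fam_disc H (A := a0 * κ ^ 2) (C := 2 * π * C) (κ := κ) (L := L) (r := r)
        (by positivity) hLpos hκ0 hκ1 hR0.le hR1 (fun l' hl' => by
        rw [e1]
        have h1 := hmain R hR (ψ l') (h l') (H.mem l' hl')
        rw [mInt_disc _ R hR, ← hr, ← hL] at h1
        rw [one_div, inv_mul_le_iff₀ (by positivity)] at h1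
        exact h1) hκ hl0
    have hcont : Continuous (fun κ : ℝ => ∫ θ in (0:ℝ)..(2 * π),
        Real.exp (a0 * κ ^ 2 / ‖l‖ ^ 2 *
          ‖toDisc 0 (h l) ((r : ℂ) * Complex.exp ((θ : ℂ) * Complex.I))‖ ^ 2 / L)) := by
      apply intervalIntegral.continuous_parametric_intervalIntegral_of_continuous'
      have hf2 : Continuous (fun p : ℝ × ℝ =>
          toDisc 0 (h l) ((r : ℂ) * Complex.exp ((p.2 : ℂ) * Complex.I))) :=
        hfc.comp continuous_snd
      have hg : Continuous (fun p : ℝ × ℝ => a0 * p.1 ^ 2 / ‖l‖ ^ 2) := by fun_prop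
      exact Real.continuous_exp.comp ((hg.mul (hf2.norm.pow 2)).div_const L)
    have hone : ∫ θ in (0:ℝ)..(2 * π),
        Real.exp (a0 * 1 ^ 2 / ‖l‖ ^ 2 *
          ‖toDisc 0 (h l) ((r : ℂ) * Complex.exp ((θ : ℂ) * Complex.I))‖ ^ 2 / L)
        ≤ 2 * π * C := by
      have ht : Tendsto (fun κ : ℝ => ∫ θ in (0:ℝ)..(2 * π),
        Real.exp (a0 * κ ^ 2 / ‖l‖ ^ 2 *
          ‖toDisc 0 (h l) ((r : ℂ) * Complex.exp ((θ : ℂ) * Complex.I))‖ ^ 2 / L)) (𝓝[<] 1)
          (𝓝 (∫ θ in (0:ℝ)..(2 * π),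
        Real.exp (a0 * 1 ^ 2 / ‖l‖ ^ 2 *
          ‖toDisc 0 (h l) ((r : ℂ) * Complex.exp ((θ : ℂ) * Complex.I))‖ ^ 2 / L))) :=
        (hcont.tendsto 1).mono_left nhdsWithin_le_nhds
      refine le_of_tendsto ht ?_
      filter_upwards [Ioo_mem_nhdsLT hln1] with κ hκ
      exact hfam κ hκ.1 hκ.2
    have haA : a ≤ a0 * 1 ^ 2 / ‖l‖ ^ 2 := by
      rw [le_div_iff₀ (by positivity), one_pow, mul_one]
      refine le_trans ?_ hak
      gcongr
    have hmono : ∫ θ in (0:ℝ)..(2 * π),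
        Real.exp (a * ‖toDisc 0 (h l) ((r : ℂ) * Complex.exp ((θ : ℂ) * Complex.I))‖ ^ 2 / L)
        ≤ ∫ θ in (0:ℝ)..(2 * π),
        Real.exp (a0 * 1 ^ 2 / ‖l‖ ^ 2 *
          ‖toDisc 0 (h l) ((r : ℂ) * Complex.exp ((θ : ℂ) * Complex.I))‖ ^ 2 / L) := by
      apply intervalIntegral.integral_mono (by positivity)
      · apply Continuous.intervalIntegrable
        exact Real.continuous_exp.comp ((continuous_const.mul (hfc.norm.pow 2)).div_const L)
      · apply Continuous.intervalIntegrable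
        exact Real.continuous_exp.comp ((continuous_const.mul (hfc.norm.pow 2)).div_const L)
      · intro θ
        simp only
        gcongr
    have h2 := hmono.trans hone
    rw [one_div, inv_mul_le_iff₀ (by positivity)]
    have h3 : 2 * π * C ≤ 2 * π * (|C| + 1) := by
      apply mul_le_mul_of_nonneg_left _ (by positivity)
      linarith
    linarith

end Pool.Agent.Helper24.HR2
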