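import Mathlib
import Pool.Agent.Helper24.HR2.Family

/-!
MP_16b0ee, project HR2: the statements of the hand-ins, from one bound
`mInt a0 R h ≤ C` for the class Sigma.
-/

set_option autoImplicit false

open MeasureTheory Set Metric Filter Topology
open scoped ENNReal NNReal Real ComplexConjugate

namespace Pool.Agent.Helper24.HR2

open Pool.Agent.Helper22.Half
open Pool.Agent.Helper39.Area (toDisc)

/-- monotonicity in the exponent -/
theorem mInt_mono {a a0 R : ℝ} (ha : a ≤ a0) (hR : 1 < R) {ψ h : ℂ → ℂ} (H : SigmaLog ψ h) :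
    mInt a R h ≤ mInt a0 R h := by
  have hpi := Real.pi_pos
  have hR0 : 0 < R := by linarith
  have hL : 0 < Real.log (R ^ 2 / (R ^ 2 - 1)) := by
    apply Real.log_pos
    have h1 : 0 < R ^ 2 - 1 := by nlinarith
    rw [one_lt_div h1]
    linarith
  have hmem : ∀ θ : ℝ, (R : ℂ) * Complex.exp ((θ : ℂ) * Complex.I) ∈ {z : ℂ | 1 < ‖z‖} := by
    intro θ
    show 1 < ‖(R : ℂ) * Complex.exp ((θ : ℂ) * Complex.I)‖
    rw [norm_mul, Complex.norm_exp_ofReal_mul_I, mul_one, Complex.norm_real,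
      Real.norm_of_nonneg hR0.le]
    exact hR
  have hfc : Continuous (fun θ : ℝ => h ((R : ℂ) * Complex.exp ((θ : ℂ) * Complex.I))) :=
    (H.hdiff.continuousOn).comp_continuous (by fun_prop) hmem
  unfold mInt
  apply mul_le_mul_of_nonneg_left _ (by positivity)
  apply intervalIntegral.integral_mono (by positivity)
  · apply Continuous.intervalIntegrable
    exact Real.continuous_exp.comp ((continuous_const.mul (hfc.norm.pow 2)).div_const _)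
  · apply Continuous.intervalIntegrable
    exact Real.continuous_exp.comp ((continuous_const.mul (hfc.norm.pow 2)).div_const _)
  · intro θ
    simp only
    gcongr

/-- The statement for the class Sigma with the closed range `0 < a ≤ a0`. -/
theorem final_sigma {a0 : ℝ}
    (hS : ∃ C : ℝ, ∀ R : ℝ, 1 < R → ∀ ψ h : ℂ → ℂ, SigmaLog ψ h → mInt a0 R h ≤ C) :
    ∃ C : ℝ, ∀ a : ℝ, a ≤ a0 → ∀ R : ℝ, 1 < R → ∀ ψ h : ℂ → ℂ,
      DifferentiableOn ℂ ψ {z : ℂ | 1 < ‖z‖} →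
      Set.InjOn ψ {z : ℂ | 1 < ‖z‖} →
      (∃ b : ℂ, Filter.Tendsto (fun z => ψ z - z) (Bornology.cobounded ℂ) (nhds b)) →
      DifferentiableOn ℂ h {z : ℂ | 1 < ‖z‖} →
      (∀ z : ℂ, 1 < ‖z‖ → Complex.exp (h z) = deriv ψ z) →
      Filter.Tendsto h (Bornology.cobounded ℂ) (nhds 0) →
      (1 / (2 * Real.pi)) * ∫ θ in (0:ℝ)..(2 * Real.pi),
        Real.exp (a * ‖h ((R : ℂ) * Complex.exp ((θ : ℂ) * Complex.I))‖ ^ 2
          / Real.log (R ^ 2 / (R ^ 2 - 1))) ≤ C := by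
  obtain ⟨C, hm⟩ := hS
  refine ⟨C, fun a ha R hR ψ h h1 h2 h3 h4 h5 h6 => ?_⟩
  have H : SigmaLog ψ h := ⟨h1, h2, h3, h4, h5, h6⟩
  exact (mInt_mono ha hR H).trans (hm R hR ψ h H)

/-- The statement for holomorphic families with the closed range `0 < a ≤ a0 / k ^ 2`. -/
theorem final_family {a0 : ℝ} (ha0 : 0 < a0)
    (hS : ∃ C : ℝ, ∀ R : ℝ, 1 < R → ∀ ψ h : ℂ → ℂ, SigmaLog ψ h → mInt a0 R h ≤ C) :
    ∀ k a : ℝ, 0 < k → k < 1 → 0 < a → a * k ^ 2 ≤ a0 → ∃ C : ℝ, ∀ R : ℝ, 1 < R →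
      ∀ ψ h : ℂ → ℂ → ℂ,
      (∀ l : ℂ, ‖l‖ < 1 →
        DifferentiableOn ℂ (ψ l) {z : ℂ | 1 < ‖z‖} ∧
        Set.InjOn (ψ l) {z : ℂ | 1 < ‖z‖} ∧
        (∃ b : ℂ, Filter.Tendsto (fun z => ψ l z - z) (Bornology.cobounded ℂ) (nhds b)) ∧
        DifferentiableOn ℂ (h l) {z : ℂ | 1 < ‖z‖} ∧
        (∀ z : ℂ, 1 < ‖z‖ → Complex.exp (h l z) = deriv (ψ l) z) ∧
        Filter.Tendsto (h l) (Bornology.cobounded ℂ) (nhds 0)) →
      (∀ z : ℂ, 1 < ‖z‖ → DifferentiableOn ℂ (fun l => ψ l z) {l : ℂ | ‖l‖ < 1}) →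
      (∀ z : ℂ, 1 < ‖z‖ → ψ 0 z = z) →
      ∀ l : ℂ, ‖l‖ ≤ k →
      (1 / (2 * Real.pi)) * ∫ θ in (0:ℝ)..(2 * Real.pi),
        Real.exp (a * ‖h l ((R : ℂ) * Complex.exp ((θ : ℂ) * Complex.I))‖ ^ 2
          / Real.log (R ^ 2 / (R ^ 2 - 1))) ≤ C := by
  intro k a hk0 hk1 ha hak
  obtain ⟨C, _, hm⟩ := mInt_family_closed ha0 hS hk0 hk1 ha hak
  refine ⟨C, fun R hR ψ h hmem hhol hbase l hl => ?_⟩
  have hball : Metric.ball (0:ℂ) 1 = {l : ℂ | ‖l‖ < 1} := by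
    ext l
    simp
  refine hm R hR ψ h ⟨?_, ?_, hbase⟩ l hl
  · intro l' hl'
    rw [hball] at hl'
    obtain ⟨h1, h2, h3, h4, h5, h6⟩ := hmem l' hl'
    exact ⟨h1, h2, h3, h4, h5, h6⟩
  · intro z hz
    rw [hball]
    exact hhol z hz

end Pool.Agent.Helper24.HR2
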