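import Mathlib
import Pool.Agent.Helper24.HR2.MSdef
import Pool.Agent.Helper22.Half.Defs
import Pool.Agent.Helper22.Marshall.Gauss
import Pool.Agent.Helper39.Area.Exterior

/-!
MP_16b0ee, project HR2: Gaussian averaging, from the bounds of the means of `|exp (s h)|^2` in a
disc of exponents to exponential square integrability.
-/

set_option autoImplicit false

open MeasureTheory Set Metric Filter Topology
open scoped Real ComplexConjugate

namespace Pool.Agent.Helper24.HR2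

open Pool.Agent.Helper22.Half
open Pool.Agent.Helper22.Marshall (gauss_average)

theorem exp_innerG (v w : ℂ) : Real.exp (inner ℝ v w) = ‖Complex.exp (conj v / 2 * w)‖ ^ 2 := by
  rw [Complex.norm_exp, ← Real.exp_nat_mul]
  congr 1
  rw [Complex.inner]
  have : conj v / 2 * w = ((1 / 2 : ℝ) : ℂ) * (conj v * w) := by push_cast; ring
  rw [this, Complex.re_ofReal_mul]
  push_cast
  ring_nf

/-- Gaussian averaging -/
theorem mInt_of_means {a0 r1 C : ℝ} (ha0 : 0 < a0) (hr1 : a0 ≤ r1)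
    (hm : ∀ s : ℂ, ‖s‖ ≤ r1 → ∀ ψ h : ℂ → ℂ, SigmaLog ψ h → ∀ R : ℝ, 1 < R →
      mS s R h ≤ C * (R ^ 2 / (R ^ 2 - 1)) ^ (‖s‖ ^ 2 / a0)) {a : ℝ} (ha : 0 < a) (haa : a < a0) :
    ∃ C' : ℝ, ∀ R : ℝ, 1 < R → ∀ ψ h : ℂ → ℂ, SigmaLog ψ h → mInt a R h ≤ C' := by
  have hpi := Real.pi_pos
  obtain ⟨δ, hδ⟩ : ∃ δ : ℝ, δ = 2 * (a0 - a) := ⟨_, rfl⟩
  have hδ0 : 0 < δ := by rw [hδ]; linarith
  obtain ⟨L0, hL0⟩ : ∃ L0, L0 = 8 * a * Real.log 4 / δ ^ 2 := ⟨_, rfl⟩
  obtain ⟨K, hK⟩ : ∃ K, K = 2 * π * |C| := ⟨_, rfl⟩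
  have hK0 : 0 ≤ K := by rw [hK]; positivity
  have hrat : 0 < 1 - a / a0 := by
    have : a / a0 < 1 := (div_lt_one ha0).mpr haa
    linarith
  refine ⟨1 / (2 * π) * (2 * π * Real.exp (a * L0) + 2 * K / (1 - a / a0)), ?_⟩
  intro R hR ψ h H
  have hR2 : 0 < R ^ 2 - 1 := by nlinarith
  obtain ⟨q, hq⟩ : ∃ q, q = R ^ 2 / (R ^ 2 - 1) := ⟨_, rfl⟩
  have hq1 : 1 < q := by
    rw [hq, one_lt_div hR2]; linarith
  have hq0 : 0 < q := by linarith
  obtain ⟨L, hL⟩ : ∃ L, L = Real.log q := ⟨_, rfl⟩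
  have hLpos : 0 < L := by rw [hL]; exact Real.log_pos hq1
  have hnorm : ∀ θ : ℝ, ‖(R : ℂ) * Complex.exp ((θ : ℂ) * Complex.I)‖ = R := by
    intro θ
    rw [norm_mul, Complex.norm_exp_ofReal_mul_I, mul_one, Complex.norm_real,
      Real.norm_of_nonneg (by linarith)]
  obtain ⟨f, hfdef⟩ : ∃ f : ℝ → ℂ, f = fun θ : ℝ =>
      h ((R : ℂ) * Complex.exp ((θ : ℂ) * Complex.I)) := ⟨_, rfl⟩
  have hf : Continuous f := by
    rw [hfdef]
    exact H.hdiff.continuousOn.comp_continuous (by fun_prop)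
      (fun θ => by rw [Set.mem_ofPred_eq, hnorm]; exact hR)
  have hfb : ∀ θ : ℝ, ‖f θ‖ ≤ L := by
    intro θ
    have := Pool.Agent.Helper39.Area.goluzin_ext H.diff H.inj H.normalised H.hdiff H.exp_eq H.lim
      (z := (R : ℂ) * Complex.exp ((θ : ℂ) * Complex.I)) (by rw [hnorm]; exact hR)
    rw [hnorm, ← hq, ← hL] at this
    rw [hfdef]
    exact this
  have hgoal : mInt a R h = (1 / (2 * π)) * ∫ θ in (0:ℝ)..(2 * π),
      Real.exp (a * ‖f θ‖ ^ 2 / L) := by
    unfold mInt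
    rw [hL, hq, hfdef]
  rw [hgoal]
  apply mul_le_mul_of_nonneg_left _ (by positivity)
  have hcont : Continuous (fun θ : ℝ => Real.exp (a * ‖f θ‖ ^ 2 / L)) :=
    Real.continuous_exp.comp ((continuous_const.mul (hf.norm.pow 2)).div_const L)
  have hA1 : 0 ≤ 2 * π * Real.exp (a * L0) := by positivity
  have hA2 : 0 ≤ 2 * K / (1 - a / a0) := by positivity
  rcases le_total L L0 with hcase | hcase
  · -- small L
    have h1 : ∀ θ : ℝ, Real.exp (a * ‖f θ‖ ^ 2 / L) ≤ Real.exp (a * L0) := by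
      intro θ
      apply Real.exp_le_exp.mpr
      rw [div_le_iff₀ hLpos]
      have h4 : ‖f θ‖ ^ 2 ≤ L ^ 2 := pow_le_pow_left₀ (norm_nonneg _) (hfb θ) 2
      calc a * ‖f θ‖ ^ 2 ≤ a * L ^ 2 := by gcongr
        _ = a * L * L := by ring
        _ ≤ a * L0 * L := by gcongr
    have h5 : ∫ θ in (0:ℝ)..(2 * π), Real.exp (a * ‖f θ‖ ^ 2 / L)
        ≤ ∫ θ in (0:ℝ)..(2 * π), Real.exp (a * L0) := by
      apply intervalIntegral.integral_mono (by positivity) (hcont.intervalIntegrable _ _)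
        (continuous_const.intervalIntegrable _ _)
      intro θ
      exact h1 θ
    rw [intervalIntegral.integral_const, smul_eq_mul, sub_zero] at h5
    linarith
  · -- large L
    have hbig : Real.log 4 ≤ L / (4 * a) * δ ^ 2 / 2 := by
      have h1 : L0 * δ ^ 2 = 8 * a * Real.log 4 := by
        rw [hL0]; field_simp
      have h2 : L0 * δ ^ 2 ≤ L * δ ^ 2 := by gcongr
      rw [h1] at h2
      have h3 : L / (4 * a) * δ ^ 2 / 2 = L * δ ^ 2 / (8 * a) := by
        field_simp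
        norm_num
      rw [h3, le_div_iff₀ (by positivity)]
      linarith
    have hgm : ∀ v : ℂ, ‖v‖ ≤ 2 * a * 1 + δ →
        ∫⁻ θ in Ioc (0:ℝ) (2 * π), ENNReal.ofReal (Real.exp (inner ℝ v (f θ)))
        ≤ ENNReal.ofReal (K * Real.exp (L / (4 * a0) * ‖v‖ ^ 2)) := by
      intro v hv
      have hcv : Continuous (fun θ : ℝ => Real.exp (inner ℝ v (f θ))) :=
        Real.continuous_exp.comp (Continuous.inner continuous_const hf)
      rw [← ofReal_integral_eq_lintegral_ofReal hcv.integrableOn_Ioc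
        (Eventually.of_forall fun θ => (Real.exp_pos _).le)]
      apply ENNReal.ofReal_le_ofReal
      rw [← intervalIntegral.integral_of_le (by positivity : (0:ℝ) ≤ 2 * π)]
      have hns : ‖conj v / 2‖ = ‖v‖ / 2 := by
        rw [norm_div, RCLike.norm_conj]
        norm_num
      have h1 := hm (conj v / 2) (by rw [hns]; rw [hδ] at hv; linarith) ψ h H R hR
      have h2 : mS (conj v / 2) R h = (1 / (2 * π)) * ∫ θ in (0:ℝ)..(2 * π),
          Real.exp (inner ℝ v (f θ)) := by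
        unfold mS
        simp_rw [exp_innerG]
        rw [hfdef]
      rw [h2, ← hq, hns] at h1
      have h3 : q ^ ((‖v‖ / 2) ^ 2 / a0) = Real.exp (L / (4 * a0) * ‖v‖ ^ 2) := by
        rw [Real.rpow_def_of_pos hq0, ← hL]
        congr 1
        field_simp
        ring
      rw [h3] at h1
      have h4 : C * Real.exp (L / (4 * a0) * ‖v‖ ^ 2) ≤ |C| * Real.exp (L / (4 * a0) * ‖v‖ ^ 2) :=
        mul_le_mul_of_nonneg_right (le_abs_self C) (Real.exp_pos _).le
      have h5 := h1.trans h4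
      rw [one_div, inv_mul_le_iff₀ (by positivity)] at h5
      rw [hK]
      linarith
    have h1 := gauss_average (L := L) (k := 1) (δ := δ) (C := K) ha haa hLpos hδ0 hK0
      hbig hf (fun θ => by rw [one_mul]; exact hfb θ) (s := Ioc (0:ℝ) (2 * π)) hgm
    rw [← ofReal_integral_eq_lintegral_ofReal hcont.integrableOn_Ioc
      (Eventually.of_forall fun θ => (Real.exp_pos _).le)] at h1
    rw [← intervalIntegral.integral_of_le (by positivity : (0:ℝ) ≤ 2 * π)] at h1
    have h2 := (ENNReal.ofReal_le_ofReal_iff hA2).mp h1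
    linarith

end Pool.Agent.Helper24.HR2
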