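import Mathlib
import Pool.Agent.Helper24.HR2.Defs2
import Pool.Agent.Helper24.HR2.LimX
import Pool.Agent.Helper24.HR2.LimHS

/-!
MP_16b0ee, project HR2, module T1: the limit of the quadratic form of `R u0` by dominated
convergence. The inner sums over `i < m` are integrals over `(0, 1)`, the outer sum over `j` is an
integral over `(0, ∞)`.
-/

set_option autoImplicit false

open MeasureTheory Set Metric Filter Topology
open scoped Real ComplexConjugate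

namespace Pool.Agent.Helper24.HR2

open Pool.Agent.Helper22.Half
open Pool.Agent.Helper39.MH
open Pool.Agent.Helper3.HR2 (inv_add_le integrable_domy integrable_tail)

namespace LimY

/-- the scaled inner sums -/
noncomputable def inn (s : ℂ) (b : ℝ) (D : ℕ) (p : ℕ → ℕ → ℝ) (n m j : ℕ) : ℂ :=
  (((m : ℝ) ^ (b + 2) : ℝ) : ℂ)⁻¹ * ∑ i ∈ Finset.range m,
    (aD s b m i : ℂ) * conj (XD s m n i) * rD s D p m i j

/-- the integrand of the inner sums -/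
noncomputable def itg (s : ℂ) (b : ℝ) (D : ℕ) (p : ℕ → ℕ → ℝ) (n m j : ℕ) (x : ℝ) : ℂ :=
  ((alm s b m x : ℝ) : ℂ) * conj (XD s m n ⌊(m : ℝ) * x⌋₊) * rD s D p m ⌊(m : ℝ) * x⌋₊ j

theorem inn_eq (s : ℂ) (b : ℝ) (D : ℕ) (p : ℕ → ℕ → ℝ) (n : ℕ) {m : ℕ} (hm : 1 ≤ m) (j : ℕ) :
    inn s b D p n m j = ∫ x in Ioo (0 : ℝ) 1, itg s b D p n m j x := by
  have hm0 : (0 : ℝ) < m := by exact_mod_cast hm
  have hmc : (m : ℂ) ≠ 0 := by
    have : m ≠ 0 := by omega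
    exact_mod_cast this
  have h := LimX.step_fin hm (fun i => ((aD s b m i / (m : ℝ) ^ (b + 1) : ℝ) : ℂ)
        * conj (XD s m n i) * rD s D p m i j)
  unfold itg alm
  rw [h]
  unfold inn
  rw [Finset.mul_sum, Finset.mul_sum]
  apply Finset.sum_congr rfl
  intro i _
  have e : (m : ℝ) ^ (b + 2) = (m : ℝ) ^ (b + 1) * m := by
    rw [show b + 2 = (b + 1) + 1 by ring, Real.rpow_add hm0 (b + 1) 1, Real.rpow_one]
  rw [e]
  have hb1 : (((m : ℝ) ^ (b + 1) : ℝ) : ℂ) ≠ 0 := by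
    exact_mod_cast (Real.rpow_pos_of_pos hm0 _).ne'
  push_cast
  field_simp

theorem itg_meas (s : ℂ) (b : ℝ) (D : ℕ) (p : ℕ → ℕ → ℝ) (n m j : ℕ) :
    Measurable (itg s b D p n m j) :=
  LimX.step_meas m (fun i => ((aD s b m i / (m : ℝ) ^ (b + 1) : ℝ) : ℂ)
        * conj (XD s m n i) * rD s D p m i j)

theorem itg_le {s : ℂ} (hs : ‖s‖ < 1) {b : ℝ} (hb : 0 < b) (hσ : 0 < b + 1 - 2 * s.re)
    (D : ℕ) (p : ℕ → ℕ → ℝ) (n : ℕ) : ∃ C P : ℝ, 0 ≤ C ∧ 0 ≤ P ∧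
    ∀ m : ℕ, 1 ≤ m → ∀ x ∈ Ioo (0 : ℝ) 1, ∀ y : ℝ, 0 < y →
      ‖itg s b D p n m ⌊(m : ℝ) * y⌋₊ x‖ ≤ LimHS.domA s b x * (C / (x + y + 1 / m) + P) := by
  obtain ⟨Ca, hCa, hal⟩ := alm_le hs hb hσ
  obtain ⟨C, P, hC, hP, hr⟩ := LimHS.rD_le hs D p
  obtain ⟨Cx, hCx, hxl⟩ := XD_le n
  refine ⟨Ca * Cx * C, Ca * Cx * P, by positivity, by positivity, fun m hm x hx y hy => ?_⟩
  have hm0 : (0 : ℝ) < m := by exact_mod_cast hm
  obtain ⟨g0, g1⟩ := hal m hm x hx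
  have g2 := hr m hm x hx y hy
  have g3 := hxl s hs m hm _ (floor_lt_m hm hx)
  have g4 := (LimHS.domA_pos s b hx).le
  have hx0 := hx.1
  unfold itg
  rw [norm_mul, norm_mul, RCLike.norm_conj, Complex.norm_real, Real.norm_eq_abs,
    abs_of_nonneg g0]
  have g1' : alm s b m x ≤ Ca * LimHS.domA s b x := g1
  calc alm s b m x * ‖XD s m n ⌊(m : ℝ) * x⌋₊‖
        * ‖rD s D p m ⌊(m : ℝ) * x⌋₊ ⌊(m : ℝ) * y⌋₊‖
      ≤ (Ca * LimHS.domA s b x) * Cx * (C / (x + y + 1 / m) + P) := by gcongr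
    _ = _ := by ring

theorem inn_le {s : ℂ} (hs : ‖s‖ < 1) {b : ℝ} (hb : 0 < b) (hσ : 0 < b + 1 - 2 * s.re)
    (D : ℕ) (p : ℕ → ℕ → ℝ) (n : ℕ) {t : ℝ} (ht0 : 0 ≤ t) (ht1 : t < 1)
    (ht : t < b + 1 - 2 * s.re) : ∃ K : ℝ, 0 ≤ K ∧
    ∀ m : ℕ, 1 ≤ m → ∀ y : ℝ, 0 < y →
      ‖inn s b D p n m ⌊(m : ℝ) * y⌋₊‖ ≤ K * ((y + 1 / m) ^ (t - 1) + 1) := by
  obtain ⟨C, P, hC, hP, h⟩ := itg_le hs hb hσ D p n
  set I1 : ℝ := ∫ x in Ioo (0 : ℝ) 1, LimHS.domA s b x * x ^ (-t) with hI1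
  set I0 : ℝ := ∫ x in Ioo (0 : ℝ) 1, LimHS.domA s b x with hI0
  have h1 : 0 ≤ I1 := setIntegral_nonneg measurableSet_Ioo fun x hx =>
    mul_nonneg (LimHS.domA_pos s b hx).le (Real.rpow_nonneg hx.1.le _)
  have h0 : 0 ≤ I0 := setIntegral_nonneg measurableSet_Ioo fun x hx => (LimHS.domA_pos s b hx).le
  refine ⟨C * I1 + P * I0, by positivity, fun m hm y hy => ?_⟩
  have hm0 : (0 : ℝ) < m := by exact_mod_cast hm
  have hy1 : (0 : ℝ) < y + 1 / m := by positivity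
  rw [inn_eq s b D p n hm]
  have i1 := LimHS.domA_int hs (b := b) ht ht1
  have i0 := LimHS.domA_int0 hs (b := b) hσ
  have hle : ‖∫ x in Ioo (0 : ℝ) 1, itg s b D p n m ⌊(m : ℝ) * y⌋₊ x‖
      ≤ ∫ x in Ioo (0 : ℝ) 1, (C * (y + 1 / m) ^ (t - 1) * (LimHS.domA s b x * x ^ (-t))
        + P * LimHS.domA s b x) := by
    have hg : IntegrableOn (fun x => C * (y + 1 / m) ^ (t - 1) * (LimHS.domA s b x * x ^ (-t))
        + P * LimHS.domA s b x) (Ioo (0 : ℝ) 1) := (i1.const_mul _).add (i0.const_mul _)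
    refine norm_integral_le_of_norm_le hg ?_
    filter_upwards [ae_restrict_mem measurableSet_Ioo] with x hx
    have hx0 := hx.1
    have g4 := (LimHS.domA_pos s b hx).le
    refine (h m hm x hx y hy).trans ?_
    have h5 := inv_add_le hx0 hy1 ht0 ht1.le
    have h6 : C / (x + y + 1 / m) ≤ C * (x ^ (-t) * (y + 1 / m) ^ (t - 1)) := by
      rw [div_eq_mul_one_div, add_assoc]
      gcongr
    calc LimHS.domA s b x * (C / (x + y + 1 / m) + P)
        ≤ LimHS.domA s b x * (C * (x ^ (-t) * (y + 1 / m) ^ (t - 1)) + P) := by gcongr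
      _ = _ := by ring
  refine hle.trans ?_
  rw [integral_add (i1.const_mul _) (i0.const_mul _), integral_const_mul, integral_const_mul,
    ← hI1, ← hI0]
  have h7 : 0 ≤ (y + 1 / m) ^ (t - 1) := by positivity
  nlinarith [mul_nonneg hC h1, mul_nonneg hP h0, mul_nonneg (mul_nonneg hP h0) h7]

theorem inn_tendsto {s : ℂ} (hs : ‖s‖ < 1) {b : ℝ} (hb : 0 < b) (hσ : 0 < b + 1 - 2 * s.re)
    (D : ℕ) (p : ℕ → ℕ → ℝ) (n : ℕ) {ca : ℝ}
    (ha : ∀ x ∈ Ioo (0 : ℝ) 1, Tendsto (fun m : ℕ => alm s b m x) atTop (𝓝 (ca * alp s b x)))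
    {y : ℝ} (hy : 0 < y) :
    Tendsto (fun m : ℕ => inn s b D p n m ⌊(m : ℝ) * y⌋₊) atTop
      (𝓝 ((ca * B0 s b * ryn s b D p n y : ℝ) : ℂ)) := by
  obtain ⟨C, P, hC, hP, h⟩ := itg_le hs hb hσ D p n
  have key : Tendsto (fun m : ℕ => ∫ x in Ioo (0 : ℝ) 1, itg s b D p n m ⌊(m : ℝ) * y⌋₊ x)
      atTop (𝓝 (∫ x in Ioo (0 : ℝ) 1, ((ca * alp s b x : ℝ) : ℂ) * conj (((1 - x) ^ n : ℝ) : ℂ)
        * ((RR D p x y : ℝ) : ℂ))) := by
    apply tendsto_integral_filter_of_dominated_convergence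
      (fun x => (C / y + P) * LimHS.domA s b x)
    · filter_upwards with m
      exact (itg_meas s b D p n m _).aestronglyMeasurable
    · filter_upwards [eventually_ge_atTop 1] with m hm
      filter_upwards [ae_restrict_mem measurableSet_Ioo] with x hx
      have hm0 : (0 : ℝ) < m := by exact_mod_cast hm
      have hx0 := hx.1
      have g4 := (LimHS.domA_pos s b hx).le
      refine (h m hm x hx y hy).trans ?_
      rw [mul_comm]
      have h6 : C / (x + y + 1 / m) ≤ C / y := by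
        apply div_le_div_of_nonneg_left hC hy
        have : (0 : ℝ) < 1 / m := by positivity
        linarith
      gcongr
    · exact (LimHS.domA_int0 hs (b := b) hσ).const_mul _
    · filter_upwards [ae_restrict_mem measurableSet_Ioo] with x hx
      exact (((Complex.continuous_ofReal.tendsto _).comp (ha x hx)).mul
        ((Complex.continuous_conj.tendsto _).comp (XD_tendsto n hx))).mul
        (LimHS.rD_tendsto D p hx hy)
  have e : ∫ x in Ioo (0 : ℝ) 1, ((ca * alp s b x : ℝ) : ℂ) * conj (((1 - x) ^ n : ℝ) : ℂ)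
        * ((RR D p x y : ℝ) : ℂ) = ((ca * B0 s b * ryn s b D p n y : ℝ) : ℂ) := by
    have hB := (LimHS.B0_pos hs hσ).ne'
    have e1 : ca * B0 s b * ryn s b D p n y
        = ca * ∫ x in Ioo (0 : ℝ) 1, alp s b x * (1 - x) ^ n * RR D p x y := by
      unfold ryn
      field_simp
    rw [e1, ← integral_const_mul, ← integral_complex_ofReal]
    congr 1
    funext x
    rw [Complex.conj_ofReal]
    push_cast
    ring
  rw [e] at key
  refine key.congr' ?_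
  filter_upwards [eventually_ge_atTop 1] with m hm
  exact (inn_eq s b D p n hm _).symm

/-- the integrand of the outer sum -/
noncomputable def oug (s : ℂ) (b : ℝ) (D : ℕ) (p : ℕ → ℕ → ℝ) (n k m : ℕ) (y : ℝ) : ℂ :=
  ((bem s b m y : ℝ) : ℂ) * (inn s b D p n m ⌊(m : ℝ) * y⌋₊
    * conj (inn s b D p k m ⌊(m : ℝ) * y⌋₊))

theorem oug_meas (s : ℂ) (b : ℝ) (D : ℕ) (p : ℕ → ℕ → ℝ) (n k m : ℕ) :
    Measurable (oug s b D p n k m) :=
  LimX.step_meas m (fun j => ((bD s b m j * (m : ℝ) ^ (b + 1) : ℝ) : ℂ)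
        * (inn s b D p n m j * conj (inn s b D p k m j)))

theorem oug_le {s : ℂ} (hs : ‖s‖ < 1) {b : ℝ} (hb : 0 < b) (hσ : 0 < b + 1 - 2 * s.re)
    (D : ℕ) (p : ℕ → ℕ → ℝ) (n k : ℕ) {t : ℝ} (ht0 : 0 < t) (ht1 : 2 * t ≤ 1)
    (ht : t < b + 1 - 2 * s.re) : ∃ K : ℝ, 0 ≤ K ∧
    ∀ m : ℕ, 1 ≤ m → ∀ y : ℝ, 0 < y → ‖oug s b D p n k m y‖
      ≤ K * ((1 + y) ^ (-b - 2) * y ^ (2 * t - 1) + (1 + y) ^ (-b - 1)) := by
  obtain ⟨K1, hK1, h1⟩ := inn_le hs hb hσ D p n ht0.le (by linarith) ht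
  obtain ⟨K2, hK2, h2⟩ := inn_le hs hb hσ D p k ht0.le (by linarith) ht
  obtain ⟨Cb, hCb, hbl⟩ := bem_le hs hb hσ
  refine ⟨2 * Cb * K1 * K2, by positivity, fun m hm y hy => ?_⟩
  have hm0 : (0 : ℝ) < m := by exact_mod_cast hm
  have hm1 : (1 : ℝ) / m ≤ 1 := by
    rw [div_le_one hm0]
    exact_mod_cast hm
  obtain ⟨g0, g1⟩ := hbl m hm y hy
  have g2 := h1 m hm y hy
  have g3 := h2 m hm y hy
  set u : ℝ := y + 1 / m with hu
  have hu0 : 0 < u := by positivity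
  have huy : y ≤ u := by
    have : (0 : ℝ) < 1 / m := by positivity
    linarith
  have hu1 : u ≤ 1 + y := by linarith
  have hW : 0 ≤ (1 + y) ^ (-b - 2) := by positivity
  have hU : 0 ≤ u ^ (t - 1) := by positivity
  unfold oug
  rw [norm_mul, norm_mul, RCLike.norm_conj, Complex.norm_real, Real.norm_eq_abs,
    abs_of_nonneg g0]
  have e1 : u * (u ^ (t - 1)) ^ 2 = u ^ (2 * t - 1) := by
    rw [← Real.rpow_natCast (u ^ (t - 1)) 2, ← Real.rpow_mul hu0.le]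
    nth_rewrite 1 [← Real.rpow_one u]
    rw [← Real.rpow_add hu0]
    congr 1
    push_cast
    ring
  have e2 : u ^ (2 * t - 1) ≤ y ^ (2 * t - 1) :=
    Real.rpow_le_rpow_of_nonpos hy huy (by linarith)
  have e3 : (1 + y) ^ (-b - 2) * (1 + y) = (1 + y) ^ (-b - 1) := by
    have hy1 : (0 : ℝ) < 1 + y := by linarith
    rw [← Real.rpow_add_one hy1.ne']
    congr 1
    ring
  have e4 : (u ^ (t - 1) + 1) * (u ^ (t - 1) + 1) ≤ 2 * (u ^ (t - 1)) ^ 2 + 2 := by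
    nlinarith [sq_nonneg (u ^ (t - 1) - 1)]
  calc bem s b m y * (‖inn s b D p n m ⌊(m : ℝ) * y⌋₊‖ * ‖inn s b D p k m ⌊(m : ℝ) * y⌋₊‖)
      ≤ (Cb * (u * (1 + y) ^ (-b - 2))) * ((K1 * (u ^ (t - 1) + 1))
          * (K2 * (u ^ (t - 1) + 1))) := by gcongr
    _ = Cb * K1 * K2 * (1 + y) ^ (-b - 2) * (u * ((u ^ (t - 1) + 1) * (u ^ (t - 1) + 1))) := by
        ring
    _ ≤ Cb * K1 * K2 * (1 + y) ^ (-b - 2) * (u * (2 * (u ^ (t - 1)) ^ 2 + 2)) := by gcongr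
    _ = 2 * Cb * K1 * K2 * (1 + y) ^ (-b - 2) * (u * (u ^ (t - 1)) ^ 2 + u) := by ring
    _ ≤ 2 * Cb * K1 * K2 * (1 + y) ^ (-b - 2) * (y ^ (2 * t - 1) + (1 + y)) := by
        rw [e1]
        gcongr
    _ = 2 * Cb * K1 * K2 * ((1 + y) ^ (-b - 2) * y ^ (2 * t - 1)
          + (1 + y) ^ (-b - 2) * (1 + y)) := by ring
    _ = _ := by rw [e3]

theorem dom_int {b t : ℝ} (hb : 0 < b) (ht0 : 0 < t) (ht1 : 2 * t ≤ 1) :
    IntegrableOn (fun y : ℝ => (1 + y) ^ (-b - 2) * y ^ (2 * t - 1) + (1 + y) ^ (-b - 1))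
      (Ioi 0) :=
  (integrable_domy hb (by linarith) ht1).add (integrable_tail hb)

theorem exists_t {s : ℂ} {b : ℝ} (hσ : 0 < b + 1 - 2 * s.re) :
    ∃ t : ℝ, 0 < t ∧ 2 * t ≤ 1 ∧ t < b + 1 - 2 * s.re :=
  ⟨min (1 / 2) ((b + 1 - 2 * s.re) / 2), lt_min (by norm_num) (by linarith),
    by linarith [min_le_left (1 / 2) ((b + 1 - 2 * s.re) / 2)],
    lt_of_le_of_lt (min_le_right _ _) (by linarith)⟩

theorem oug_int {s : ℂ} (hs : ‖s‖ < 1) {b : ℝ} (hb : 0 < b) (hσ : 0 < b + 1 - 2 * s.re)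
    (D : ℕ) (p : ℕ → ℕ → ℝ) (n k : ℕ) {m : ℕ} (hm : 1 ≤ m) :
    IntegrableOn (oug s b D p n k m) (Ioi 0) := by
  obtain ⟨t, ht0, ht1, ht⟩ := exists_t hσ
  obtain ⟨K, hK, h⟩ := oug_le hs hb hσ D p n k ht0 ht1 ht
  refine Integrable.mono' ((dom_int hb ht0 ht1).const_mul K)
    (oug_meas s b D p n k m).aestronglyMeasurable ?_
  filter_upwards [ae_restrict_mem measurableSet_Ioi] with y hy
  exact h m hm y hy

theorem summable_scaled {s : ℂ} (hs : ‖s‖ < 1) {b : ℝ} (hb : 0 < b)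
    (hσ : 0 < b + 1 - 2 * s.re) (D : ℕ) (p : ℕ → ℕ → ℝ) (n k : ℕ) {m : ℕ} (hm : 1 ≤ m) :
    Summable (fun j => ‖((bD s b m j * (m : ℝ) ^ (b + 1) : ℝ) : ℂ)
        * (inn s b D p n m j * conj (inn s b D p k m j))‖) :=
  (LimX.step_int hm _).mp (oug_int hs hb hσ D p n k hm)

theorem scaled_eq (s : ℂ) (b : ℝ) (D : ℕ) (p : ℕ → ℕ → ℝ) (n k : ℕ) {m : ℕ} (hm : 1 ≤ m)
    (j : ℕ) : (bD s b m j : ℂ)
      * ((∑ i ∈ Finset.range m, (aD s b m i : ℂ) * conj (XD s m n i) * rD s D p m i j)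
        * conj (∑ i ∈ Finset.range m, (aD s b m i : ℂ) * conj (XD s m k i)
            * rD s D p m i j))
      = (((m : ℝ) ^ (b + 3) : ℝ) : ℂ) * (((bD s b m j * (m : ℝ) ^ (b + 1) : ℝ) : ℂ)
        * (inn s b D p n m j * conj (inn s b D p k m j))) := by
  have hm0 : (0 : ℝ) < m := by exact_mod_cast hm
  have h2 : (((m : ℝ) ^ (b + 2) : ℝ) : ℂ) ≠ 0 := by
    exact_mod_cast (Real.rpow_pos_of_pos hm0 _).ne'
  have e : ((m : ℝ) ^ (b + 3)) * (m : ℝ) ^ (b + 1) = ((m : ℝ) ^ (b + 2)) ^ 2 := by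
    rw [← Real.rpow_natCast ((m : ℝ) ^ (b + 2)) 2, ← Real.rpow_mul hm0.le, ← Real.rpow_add hm0]
    congr 1
    push_cast
    ring
  have e2 : (((m : ℝ) ^ (b + 3) : ℝ) : ℂ) * (((bD s b m j * (m : ℝ) ^ (b + 1) : ℝ) : ℂ))
      = (bD s b m j : ℂ) * (((m : ℝ) ^ (b + 2) : ℝ) : ℂ) ^ 2 := by
    rw [← Complex.ofReal_mul, ← Complex.ofReal_pow, ← Complex.ofReal_mul, ← e]
    congr 1
    ring
  rw [← mul_assoc (((m : ℝ) ^ (b + 3) : ℝ) : ℂ), e2]
  unfold inn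
  rw [map_mul, map_inv₀, Complex.conj_ofReal]
  field_simp

theorem summable_main {s : ℂ} (hs : ‖s‖ < 1) {b : ℝ} (hb : 0 < b) (hσ : 0 < b + 1 - 2 * s.re)
    (D : ℕ) (p : ℕ → ℕ → ℝ) (n k m : ℕ) : Summable (fun j => (bD s b m j : ℂ)
      * ((∑ i ∈ Finset.range m, (aD s b m i : ℂ) * conj (XD s m n i) * rD s D p m i j)
        * conj (∑ i ∈ Finset.range m, (aD s b m i : ℂ) * conj (XD s m k i)
            * rD s D p m i j))) := by
  rcases Nat.eq_zero_or_pos m with hm | hm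
  · rw [hm]
    simp only [Finset.range_zero, Finset.sum_empty, zero_mul, mul_zero]
    exact summable_zero
  · have h := (summable_scaled hs hb hσ D p n k hm).of_norm
    refine (h.mul_left (((m : ℝ) ^ (b + 3) : ℝ) : ℂ)).congr fun j => ?_
    rw [scaled_eq s b D p n k hm]

end LimY

open LimY

theorem lim_y {s : ℂ} (hs0 : s ≠ 0) (hs : ‖s‖ < 1) {b : ℝ} (hb : 0 < b)
    (hσ : 0 < b + 1 - 2 * s.re) (D : ℕ) (p : ℕ → ℕ → ℝ) (n k : ℕ) :
    (∀ m, Summable (fun j => (bD s b m j : ℂ)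
      * ((∑ i ∈ Finset.range m, (aD s b m i : ℂ) * conj (XD s m n i) * rD s D p m i j)
        * conj (∑ i ∈ Finset.range m, (aD s b m i : ℂ) * conj (XD s m k i)
            * rD s D p m i j)))) ∧
    Tendsto (fun m : ℕ => ((1 / ((m : ℝ) ^ 2 * (KS s * pq (b + 3) (m - 1))) : ℝ) : ℂ)
      * ∑' j, (bD s b m j : ℂ)
        * ((∑ i ∈ Finset.range m, (aD s b m i : ℂ) * conj (XD s m n i) * rD s D p m i j)
          * conj (∑ i ∈ Finset.range m, (aD s b m i : ℂ) * conj (XD s m k i)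
              * rD s D p m i j))) atTop
      (𝓝 ((Es s b * MR s b D p n k : ℝ) : ℂ)) := by
  refine ⟨fun m => summable_main hs hb hσ D p n k m, ?_⟩
  obtain ⟨ca, cb, hca, hcb, hcc, ha, hbt, hK⟩ := asy_consts hs0 hs hb hσ
  obtain ⟨t, ht0, ht1, ht⟩ := exists_t hσ
  obtain ⟨K, hK0, h⟩ := oug_le hs hb hσ D p n k ht0 ht1 ht
  have hB := LimHS.B0_pos hs hσ
  have key : Tendsto (fun m : ℕ => ∫ y in Ioi (0 : ℝ), oug s b D p n k m y) atTop
      (𝓝 (∫ y in Ioi (0 : ℝ), ((cb * bet b y : ℝ) : ℂ)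
        * (((ca * B0 s b * ryn s b D p n y : ℝ) : ℂ)
          * conj ((ca * B0 s b * ryn s b D p k y : ℝ) : ℂ)))) := by
    apply tendsto_integral_filter_of_dominated_convergence
      (fun y => K * ((1 + y) ^ (-b - 2) * y ^ (2 * t - 1) + (1 + y) ^ (-b - 1)))
    · filter_upwards with m
      exact (oug_meas s b D p n k m).aestronglyMeasurable
    · filter_upwards [eventually_ge_atTop 1] with m hm
      filter_upwards [ae_restrict_mem measurableSet_Ioi] with y hy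
      exact h m hm y hy
    · exact (dom_int hb ht0 ht1).const_mul K
    · filter_upwards [ae_restrict_mem measurableSet_Ioi] with y hy
      have hy0 : 0 < y := hy
      exact ((Complex.continuous_ofReal.tendsto _).comp (hbt y hy0)).mul
        ((inn_tendsto hs hb hσ D p n ha hy0).mul
          ((Complex.continuous_conj.tendsto _).comp (inn_tendsto hs hb hσ D p k ha hy0)))
  have hKi := hK.inv₀ (by positivity)
  have key2 := ((Complex.continuous_ofReal.tendsto _).comp hKi).mul key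
  have e : (((ca * B0 s b)⁻¹ : ℝ) : ℂ) * ∫ y in Ioi (0 : ℝ), ((cb * bet b y : ℝ) : ℂ)
        * (((ca * B0 s b * ryn s b D p n y : ℝ) : ℂ)
          * conj ((ca * B0 s b * ryn s b D p k y : ℝ) : ℂ))
      = ((Es s b * MR s b D p n k : ℝ) : ℂ) := by
    have e1 : ∫ y in Ioi (0 : ℝ), ((cb * bet b y : ℝ) : ℂ)
        * (((ca * B0 s b * ryn s b D p n y : ℝ) : ℂ)
          * conj ((ca * B0 s b * ryn s b D p k y : ℝ) : ℂ))
        = ((cb * (ca * B0 s b) ^ 2 * MR s b D p n k : ℝ) : ℂ) := by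
      unfold MR
      rw [← integral_const_mul, ← integral_complex_ofReal]
      congr 1
      funext y
      rw [Complex.conj_ofReal]
      push_cast
      ring
    rw [e1, ← Complex.ofReal_mul]
    congr 1
    unfold Es
    rw [← hcc]
    field_simp
  rw [e] at key2
  refine key2.congr' ?_
  filter_upwards [eventually_ge_atTop 1] with m hm
  have hm0 : (0 : ℝ) < m := by exact_mod_cast hm
  have h1 := LimX.step_eq hm _ (summable_scaled hs hb hσ D p n k hm)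
  simp only [Function.comp_apply]
  have h2 : ∫ y in Ioi (0 : ℝ), oug s b D p n k m y
      = (1 / (m : ℂ)) * ∑' j, ((bD s b m j * (m : ℝ) ^ (b + 1) : ℝ) : ℂ)
        * (inn s b D p n m j * conj (inn s b D p k m j)) := h1
  rw [h2]
  simp only [scaled_eq s b D p n k hm]
  rw [tsum_mul_left, ← mul_assoc, ← mul_assoc]
  congr 1
  have hpq : 0 < pq (b + 3) (m - 1) := pq_pos (by linarith) _
  have hKS := KS_pos hs
  have e3 : (m : ℝ) ^ (b + 3) = (m : ℝ) ^ (b + 2) * m := by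
    rw [show b + 3 = (b + 2) + 1 by ring, Real.rpow_add hm0 (b + 2) 1, Real.rpow_one]
  have e4 : (KS s * pq (b + 3) (m - 1) / (m : ℝ) ^ (b + 2))⁻¹ * (1 / (m : ℝ))
      = 1 / ((m : ℝ) ^ 2 * (KS s * pq (b + 3) (m - 1))) * (m : ℝ) ^ (b + 3) := by
    rw [e3]
    have : (m : ℝ) ^ (b + 2) ≠ 0 := (Real.rpow_pos_of_pos hm0 _).ne'
    field_simp
  rw [← Complex.ofReal_mul, ← e4]
  push_cast
  rfl

end Pool.Agent.Helper24.HR2
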