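import Mathlib
import Pool.Agent.Helper24.HR2.Defs

/-!
MP_16b0ee, project HR2: the moments of the limit densities.
-/

set_option autoImplicit false

open MeasureTheory Set Metric Filter Topology
open scoped Real ComplexConjugate

namespace Pool.Agent.Helper24.HR2

open Pool.Agent.Helper22.Half

private lemma beta_real {u v : ℝ} (hu : 0 < u) (hv : 0 < v) :
    IntegrableOn (fun x : ℝ => (1 - x) ^ (v - 1) * x ^ (u - 1)) (Ioo 0 1) ∧
      ∫ x in Ioo (0 : ℝ) 1, (1 - x) ^ (v - 1) * x ^ (u - 1) = ProbabilityTheory.beta u v := by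
  have h1 := Complex.betaIntegral_convergent (u := (u : ℂ)) (v := (v : ℂ)) (by simpa) (by simpa)
  rw [intervalIntegrable_iff_integrableOn_Ioc_of_le zero_le_one] at h1
  have h2 : IntegrableOn (fun x : ℝ => ((x : ℂ) ^ ((u : ℂ) - 1)
      * (1 - (x : ℂ)) ^ ((v : ℂ) - 1)).re) (Ioc 0 1) := h1.re
  have h3 : ∀ x ∈ Ioc (0 : ℝ) 1, ((x : ℂ) ^ ((u : ℂ) - 1) * (1 - (x : ℂ)) ^ ((v : ℂ) - 1)).re
      = (1 - x) ^ (v - 1) * x ^ (u - 1) := by
    intro x hx
    have e1 : ((x : ℂ) ^ ((u : ℂ) - 1)) = ((x ^ (u - 1) : ℝ) : ℂ) := by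
      rw [Complex.ofReal_cpow hx.1.le]
      norm_num
    have e2 : ((1 - (x : ℂ)) ^ ((v : ℂ) - 1)) = (((1 - x) ^ (v - 1) : ℝ) : ℂ) := by
      rw [Complex.ofReal_cpow (by linarith [hx.2])]
      norm_num
    rw [e1, e2, ← Complex.ofReal_mul, Complex.ofReal_re, mul_comm]
  constructor
  · exact (h2.congr_fun h3 measurableSet_Ioc).mono_set Ioo_subset_Ioc_self
  · rw [ProbabilityTheory.beta_eq_betaIntegralReal u v hu hv, Complex.betaIntegral,
      intervalIntegral.integral_of_le zero_le_one, ← integral_Ioc_eq_integral_Ioo]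
    have h4 : (∫ x in Ioc (0 : ℝ) 1, (x : ℂ) ^ ((u : ℂ) - 1)
        * (1 - (x : ℂ)) ^ ((v : ℂ) - 1)).re = ∫ x in Ioc (0 : ℝ) 1, ((x : ℂ) ^ ((u : ℂ) - 1)
        * (1 - (x : ℂ)) ^ ((v : ℂ) - 1)).re := by
      have := integral_re (𝕜 := ℂ) h1
      simpa using this.symm
    rw [h4]
    exact (setIntegral_congr_fun measurableSet_Ioc h3).symm

private lemma beta_succ {u v : ℝ} (hu : 0 < u) (hv : 0 < v) :
    ProbabilityTheory.beta u (v + 1) = ProbabilityTheory.beta u v * (v / (u + v)) := by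
  unfold ProbabilityTheory.beta
  rw [Real.Gamma_add_one hv.ne', ← add_assoc, Real.Gamma_add_one (by positivity)]
  have h1 : Real.Gamma (u + v) ≠ 0 := (Real.Gamma_pos_of_pos (by positivity)).ne'
  have h2 : u + v ≠ 0 := by positivity
  field_simp

private lemma beta_add_nat {u v : ℝ} (hu : 0 < u) (hv : 0 < v) (n : ℕ) :
    ProbabilityTheory.beta u (v + n) = ProbabilityTheory.beta u v
      * ∏ k ∈ Finset.range n, (v + k) / (u + v + k) := by
  induction n with
  | zero => simp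
  | succ n ih =>
    rw [Finset.prod_range_succ, ← mul_assoc, ← ih, Nat.cast_succ, ← add_assoc,
      beta_succ hu (by positivity), add_assoc u v (n : ℝ)]

theorem B0_pos {s : ℂ} (hs : -1 < s.re) {b : ℝ} (hσ : 0 < b + 1 - 2 * s.re) :
    0 < B0 s b ∧ IntegrableOn (alp s b) (Ioo 0 1) := by
  have hv : 0 < 2 * s.re + 2 := by linarith
  obtain ⟨h1, h2⟩ := beta_real hσ hv
  have e : (fun x : ℝ => (1 - x) ^ (2 * s.re + 2 - 1) * x ^ (b + 1 - 2 * s.re - 1)) = alp s b := by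
    funext x
    unfold alp
    congr 2 <;> ring
  rw [e] at h1 h2
  refine ⟨?_, h1⟩
  unfold B0
  rw [h2]
  exact ProbabilityTheory.beta_pos hσ hv

theorem mom_alp {s : ℂ} (hs : -1 < s.re) {b : ℝ} (hσ : 0 < b + 1 - 2 * s.re) (n : ℕ) :
    (1 / B0 s b) * ∫ x in Ioo (0 : ℝ) 1, alp s b x * (1 - x) ^ n = Gm s b n := by
  have hv : 0 < 2 * s.re + 2 := by linarith
  obtain ⟨h1, h2⟩ := beta_real hσ hv
  have hvn : 0 < 2 * s.re + 2 + n := by positivity
  obtain ⟨h3, h4⟩ := beta_real hσ hvn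
  have e : ∀ x : ℝ, (1 - x) ^ (2 * s.re + 2 - 1) * x ^ (b + 1 - 2 * s.re - 1) = alp s b x := by
    intro x
    unfold alp
    congr 2 <;> ring
  simp only [e] at h1 h2
  have e2 : ∫ x in Ioo (0 : ℝ) 1, alp s b x * (1 - x) ^ n
      = ProbabilityTheory.beta (b + 1 - 2 * s.re) (2 * s.re + 2 + n) := by
    rw [← h4]
    refine setIntegral_congr_fun measurableSet_Ioo fun x hx => ?_
    have hx1 : 0 < 1 - x := by linarith [hx.2]
    show alp s b x * (1 - x) ^ n = _
    rw [← e x, mul_right_comm, ← Real.rpow_add_natCast hx1.ne']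
    congr 2
    ring
  have e3 : B0 s b = ProbabilityTheory.beta (b + 1 - 2 * s.re) (2 * s.re + 2) := h2
  have hB := ProbabilityTheory.beta_pos hσ hv
  rw [e2, e3, beta_add_nat hσ hv, ← mul_assoc, one_div, inv_mul_cancel₀ hB.ne', one_mul]
  unfold Gm
  refine Finset.prod_congr rfl fun k _ => ?_
  congr 1
  ring

theorem mom_bet {b : ℝ} (hb : 0 < b) (l : ℕ) :
    ∫ y in Ioi (0 : ℝ), bet b y * (1 / (1 + y)) ^ l = 1 / ((b + l) * (b + l + 1)) := by
  have hbl : 0 < b + l := by positivity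
  have hbl1 : 0 < b + l + 1 := by positivity
  have e1 : ∀ y : ℝ, 0 ≤ y → bet b y * (1 / (1 + y)) ^ l =
      (1 + y) ^ (-(b + l) - 1) - (1 + y) ^ (-(b + l + 1) - 1) := by
    intro y hy
    have hy1 : 0 < 1 + y := by linarith
    unfold bet
    have h1 : (1 / (1 + y)) ^ l = (1 + y) ^ (-(l : ℝ)) := by
      rw [Real.rpow_neg hy1.le, Real.rpow_natCast, one_div, inv_pow]
    have h2 : (1 + y) ^ (-(b + l) - 1) = (1 + y) * (1 + y) ^ (-(b + l + 1) - 1) := by
      have h3 := Real.rpow_add hy1 1 (-(b + l + 1) - 1)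
      rw [Real.rpow_one] at h3
      rw [← h3]
      congr 1
      ring
    rw [h1, h2, mul_assoc, ← Real.rpow_add hy1]
    have h4 : -b - 2 + -(l : ℝ) = -(b + l + 1) - 1 := by ring
    rw [h4]
    ring
  have e2 : ∫ y in Ioi (0 : ℝ), bet b y * (1 / (1 + y)) ^ l
      = ∫ y in Ioi (0 : ℝ), ((1 + y) ^ (-(b + l) - 1) - (1 + y) ^ (-(b + l + 1) - 1)) :=
    setIntegral_congr_fun measurableSet_Ioi fun y hy => e1 y (le_of_lt hy)
  rw [e2]
  have hd : ∀ y ∈ Ici (0 : ℝ), HasDerivAt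
      (fun y : ℝ => -(1 + y) ^ (-(b + l)) / (b + l) + (1 + y) ^ (-(b + l + 1)) / (b + l + 1))
      ((1 + y) ^ (-(b + l) - 1) - (1 + y) ^ (-(b + l + 1) - 1)) y := by
    intro y hy
    have hy1 : 0 < 1 + y := by linarith [mem_Ici.1 hy]
    have h0 : HasDerivAt (fun y : ℝ => 1 + y) 1 y := by
      simpa using (hasDerivAt_id y).const_add 1
    have h1 := (h0.rpow_const (p := -(b + l)) (Or.inl hy1.ne')).neg.div_const (b + l)
    have h2 := (h0.rpow_const (p := -(b + l + 1)) (Or.inl hy1.ne')).div_const (b + l + 1)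
    have h3 := h1.add h2
    convert! h3 using 1
    field_simp
    ring
  have ht : Tendsto
      (fun y : ℝ => -(1 + y) ^ (-(b + l)) / (b + l) + (1 + y) ^ (-(b + l + 1)) / (b + l + 1))
      atTop (𝓝 (-0 / (b + l) + 0 / (b + l + 1))) := by
    have h0 : Tendsto (fun y : ℝ => 1 + y) atTop atTop := tendsto_atTop_add_const_left _ _ tendsto_id
    exact (((tendsto_rpow_neg_atTop hbl).comp h0).neg.div_const _).add
      (((tendsto_rpow_neg_atTop hbl1).comp h0).div_const _)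
  have hp : ∀ y ∈ Ioi (0 : ℝ), 0 ≤ (1 + y) ^ (-(b + l) - 1) - (1 + y) ^ (-(b + l + 1) - 1) := by
    intro y hy
    rw [← e1 y (le_of_lt hy)]
    have hy1 : 0 < 1 + y := by linarith [mem_Ioi.1 hy]
    have hy0 : 0 < y := hy
    unfold bet
    positivity
  rw [integral_Ioi_of_hasDerivAt_of_nonneg' hd hp ht]
  simp only [add_zero, Real.one_rpow]
  field_simp
  ring

end Pool.Agent.Helper24.HR2
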