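import Mathlib
import Pool.Agent.Helper24.HR2.Defs

/-!
MP_16b0ee, project HR2, section R12b: the series `SS`.
-/

set_option autoImplicit false

open MeasureTheory Set Metric Filter Topology
open scoped Real ComplexConjugate

namespace Pool.Agent.Helper24.HR2

open Pool.Agent.Helper22.Half

noncomputable def SS (s : ℂ) (b : ℝ) (n j : ℕ) : ℝ := ∑' i : ℕ, Gm s b (n + i) / (b + 1 + i + j)

namespace NB

variable {s : ℂ} {b : ℝ}

theorem Gm_zero : Gm s b 0 = 1 := by simp [Gm]

theorem Gm_succ (n : ℕ) : Gm s b (n + 1) = Gm s b n * ((2 * s.re + 2 + n) / (b + 3 + n)) := by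
  simp only [Gm]
  rw [Finset.prod_range_succ]

theorem Gm_pos (hs : -1 < s.re) (hb : 0 < b) (n : ℕ) : 0 < Gm s b n := by
  induction n with
  | zero =>
    rw [Gm_zero]
    exact one_pos
  | succ n ih =>
    rw [Gm_succ]
    have hn : (0 : ℝ) ≤ n := Nat.cast_nonneg n
    exact mul_pos ih (div_pos (by linarith) (by linarith))

/-- the telescoping step -/
theorem Gm_step (hb : 0 < b) (n : ℕ) :
    Gm s b n - Gm s b (n + 1) = (b + 1 - 2 * s.re) * (Gm s b n / (b + 3 + n)) := by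
  have hn : (0 : ℝ) ≤ n := Nat.cast_nonneg n
  have h : b + 3 + n ≠ 0 := by positivity
  rw [Gm_succ]
  field_simp
  ring

theorem Gm_part (hb : 0 < b) (n M : ℕ) :
    ∑ i ∈ Finset.range M, (b + 1 - 2 * s.re) * (Gm s b (n + i) / (b + 3 + (n + i : ℕ)))
      = Gm s b n - Gm s b (n + M) := by
  induction M with
  | zero => simp
  | succ M ih =>
    rw [Finset.sum_range_succ, ih, ← Gm_step hb (n + M), ← add_assoc]
    ring

theorem Gm_anti (hs : -1 < s.re) (hb : 0 < b) (hσ : 0 < b + 1 - 2 * s.re) :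
    Antitone (Gm s b) := by
  apply antitone_nat_of_succ_le
  intro n
  have h := Gm_step (s := s) hb n
  have hn : (0 : ℝ) ≤ n := Nat.cast_nonneg n
  have h2 : 0 ≤ (b + 1 - 2 * s.re) * (Gm s b n / (b + 3 + n)) :=
    mul_nonneg hσ.le (div_nonneg (Gm_pos hs hb n).le (by linarith))
  linarith

theorem Gm_summable (hs : -1 < s.re) (hb : 0 < b) (hσ : 0 < b + 1 - 2 * s.re) (n : ℕ) :
    Summable (fun i : ℕ => Gm s b (n + i) / (b + 3 + (n + i : ℕ))) := by
  have hpos : ∀ i : ℕ, 0 ≤ Gm s b (n + i) / (b + 3 + (n + i : ℕ)) := by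
    intro i
    have hn : (0 : ℝ) ≤ (n + i : ℕ) := Nat.cast_nonneg _
    exact div_nonneg (Gm_pos hs hb _).le (by linarith)
  apply summable_of_sum_range_le (c := Gm s b n / (b + 1 - 2 * s.re)) hpos
  intro M
  have h := Gm_part (s := s) hb n M
  rw [← Finset.mul_sum] at h
  rw [le_div_iff₀ hσ, mul_comm, h]
  have := (Gm_pos hs hb (n + M)).le
  linarith

theorem Gm_tendsto (hs : -1 < s.re) (hb : 0 < b) (hσ : 0 < b + 1 - 2 * s.re) :
    Tendsto (Gm s b) atTop (𝓝 0) := by
  have hbd : BddBelow (range (Gm s b)) := by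
    refine ⟨0, ?_⟩
    rintro _ ⟨n, rfl⟩
    exact (Gm_pos hs hb n).le
  have hlim := tendsto_atTop_ciInf (Gm_anti hs hb hσ) hbd
  set L := ⨅ n, Gm s b n with hL
  have hL0 : 0 ≤ L := le_ciInf (fun n => (Gm_pos hs hb n).le)
  rcases hL0.eq_or_lt with h0 | h0
  · rw [← h0] at hlim
    exact hlim
  · exfalso
    have hLle : ∀ n, L ≤ Gm s b n := fun n => ciInf_le hbd n
    have hsum := Gm_summable hs hb hσ 0
    obtain ⟨k, hk⟩ := exists_nat_ge (b + 3)
    have h1 : Summable (fun i : ℕ => (1 : ℝ) / ((i + k : ℕ) : ℝ)) := by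
      have h2 : Summable (fun i : ℕ => L⁻¹ * (Gm s b (0 + i) / (b + 3 + (0 + i : ℕ)))) :=
        hsum.mul_left _
      apply Summable.of_nonneg_of_le _ _ h2
      · intro i
        positivity
      · intro i
        have hi : (0 : ℝ) ≤ i := Nat.cast_nonneg i
        have h3 : (0 : ℝ) < b + 3 + i := by linarith
        have h4 : (b + 3 + i : ℝ) ≤ ((i + k : ℕ) : ℝ) := by
          push_cast
          linarith
        rw [zero_add]
        calc (1 : ℝ) / ((i + k : ℕ) : ℝ) ≤ 1 / (b + 3 + i) :=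
              one_div_le_one_div_of_le h3 h4
          _ = L⁻¹ * (L / (b + 3 + i)) := by field_simp
          _ ≤ L⁻¹ * (Gm s b i / (b + 3 + i)) := by
              apply mul_le_mul_of_nonneg_left _ (inv_nonneg.mpr h0.le)
              exact div_le_div_of_nonneg_right (hLle i) h3.le
    have h5 := (summable_nat_add_iff (f := fun i : ℕ => (1 : ℝ) / (i : ℝ)) k).mp h1
    exact Real.not_summable_one_div_natCast h5

theorem hasSum_diag (hs : -1 < s.re) (hb : 0 < b) (hσ : 0 < b + 1 - 2 * s.re) (n : ℕ) :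
    HasSum (fun i : ℕ => Gm s b (n + i) / (b + 3 + (n + i : ℕ)))
      (Gm s b n / (b + 1 - 2 * s.re)) := by
  have hpos : ∀ i : ℕ, 0 ≤ Gm s b (n + i) / (b + 3 + (n + i : ℕ)) := by
    intro i
    have hn : (0 : ℝ) ≤ (n + i : ℕ) := Nat.cast_nonneg _
    exact div_nonneg (Gm_pos hs hb _).le (by linarith)
  rw [hasSum_iff_tendsto_nat_of_nonneg hpos]
  have h1 : Tendsto (fun M : ℕ => (Gm s b n - Gm s b (n + M)) / (b + 1 - 2 * s.re)) atTop
      (𝓝 ((Gm s b n - 0) / (b + 1 - 2 * s.re))) := by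
    apply Tendsto.div_const
    apply Tendsto.const_sub
    have h2 : Tendsto (fun M : ℕ => n + M) atTop atTop := by
      apply tendsto_atTop_mono (f := fun M : ℕ => M) _ tendsto_id
      intro M
      exact Nat.le_add_left M n
    exact (Gm_tendsto hs hb hσ).comp h2
  rw [sub_zero] at h1
  apply h1.congr
  intro M
  rw [← Gm_part hb n M, ← Finset.mul_sum]
  field_simp

/-- the second telescoping series -/
theorem hasSum_two (hs : -1 < s.re) (hb : 0 < b) (hσ : 0 < b + 1 - 2 * s.re) (n : ℕ) :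
    HasSum (fun i : ℕ => Gm s b (n + i) / ((b + 3 + (n + i : ℕ)) * (b + 4 + (n + i : ℕ))))
      (Gm s b n / ((b + 2 - 2 * s.re) * (b + 3 + n))) := by
  have hpos : ∀ i : ℕ,
      0 ≤ Gm s b (n + i) / ((b + 3 + (n + i : ℕ)) * (b + 4 + (n + i : ℕ))) := by
    intro i
    have hn : (0 : ℝ) ≤ (n + i : ℕ) := Nat.cast_nonneg _
    exact div_nonneg (Gm_pos hs hb _).le (mul_nonneg (by linarith) (by linarith))
  rw [hasSum_iff_tendsto_nat_of_nonneg hpos]
  have hτ : (0 : ℝ) < b + 2 - 2 * s.re := by linarith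
  have hpart : ∀ M : ℕ, ∑ i ∈ Finset.range M,
      Gm s b (n + i) / ((b + 3 + (n + i : ℕ)) * (b + 4 + (n + i : ℕ)))
      = Gm s b n / ((b + 2 - 2 * s.re) * (b + 3 + n))
        - Gm s b (n + M) / ((b + 2 - 2 * s.re) * (b + 3 + (n + M : ℕ))) := by
    intro M
    induction M with
    | zero => simp
    | succ M ih =>
      rw [Finset.sum_range_succ, ih, ← add_assoc, Gm_succ]
      have hn : (0 : ℝ) ≤ (n + M : ℕ) := Nat.cast_nonneg _
      have e : ((n + M + 1 : ℕ) : ℝ) = ((n + M : ℕ) : ℝ) + 1 := by push_cast; ring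
      rw [e]
      set x : ℝ := ((n + M : ℕ) : ℝ)
      have h3 : b + 3 + x ≠ 0 := by positivity
      have h4 : b + 4 + x ≠ 0 := by positivity
      have h5 : b + 3 + (x + 1) ≠ 0 := by positivity
      have h6 : b + 2 - 2 * s.re ≠ 0 := hτ.ne'
      have e2 : b + 3 + (x + 1) = b + 4 + x := by ring
      rw [e2]
      field_simp
      ring
  have h1 : Tendsto (fun M : ℕ => Gm s b n / ((b + 2 - 2 * s.re) * (b + 3 + n))
      - Gm s b (n + M) / ((b + 2 - 2 * s.re) * (b + 3 + (n + M : ℕ)))) atTop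
      (𝓝 (Gm s b n / ((b + 2 - 2 * s.re) * (b + 3 + n)) - 0)) := by
    apply Tendsto.const_sub
    have h2 : Tendsto (fun M : ℕ => n + M) atTop atTop := by
      apply tendsto_atTop_mono (f := fun M : ℕ => M) _ tendsto_id
      intro M
      exact Nat.le_add_left M n
    have h3 : Tendsto (fun M : ℕ => Gm s b (n + M) / (b + 2 - 2 * s.re)) atTop
        (𝓝 (0 / (b + 2 - 2 * s.re))) :=
      ((Gm_tendsto hs hb hσ).comp h2).div_const _
    rw [zero_div] at h3
    apply squeeze_zero _ _ h3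
    · intro M
      have hn : (0 : ℝ) ≤ (n + M : ℕ) := Nat.cast_nonneg _
      exact div_nonneg (Gm_pos hs hb _).le (mul_nonneg hτ.le (by linarith))
    · intro M
      have hn : (0 : ℝ) ≤ (n + M : ℕ) := Nat.cast_nonneg _
      apply div_le_div_of_nonneg_left (Gm_pos hs hb _).le hτ
      nlinarith
  rw [sub_zero] at h1
  apply h1.congr
  intro M
  rw [hpart M]

end NB

open NB

theorem SS_summable {s : ℂ} (hs : -1 < s.re) {b : ℝ} (hb : 0 < b)
    (hσ : 0 < b + 1 - 2 * s.re) (n j : ℕ) :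
    Summable (fun i : ℕ => Gm s b (n + i) / (b + 1 + i + j)) := by
  have h := (Gm_summable hs hb hσ n).mul_left ((n : ℝ) + 3)
  apply Summable.of_nonneg_of_le _ _ h
  · intro i
    exact div_nonneg (Gm_pos hs hb _).le (by positivity)
  · intro i
    have hi : (0 : ℝ) ≤ i := Nat.cast_nonneg i
    have hj : (0 : ℝ) ≤ j := Nat.cast_nonneg j
    have hn : (0 : ℝ) ≤ n := Nat.cast_nonneg n
    have h1 : (0 : ℝ) < b + 1 + i + j := by positivity
    have h2 : (0 : ℝ) < b + 3 + (n + i : ℕ) := by positivity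
    have hG := (Gm_pos hs hb (n + i)).le
    rw [← mul_div_assoc, div_le_div_iff₀ h1 h2]
    push_cast
    have h3 : b + 3 + (n + i) ≤ (n + 3) * (b + 1 + i + j) := by nlinarith [mul_nonneg hn hb.le, mul_nonneg hn hi, mul_nonneg hn hj]
    calc Gm s b (n + i) * (b + 3 + (n + i)) ≤ Gm s b (n + i) * ((n + 3) * (b + 1 + i + j)) :=
          mul_le_mul_of_nonneg_left h3 hG
      _ = (n + 3) * Gm s b (n + i) * (b + 1 + i + j) := by ring

theorem SS_diag {s : ℂ} (hs : -1 < s.re) {b : ℝ} (hb : 0 < b) (hσ : 0 < b + 1 - 2 * s.re)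
    (n : ℕ) : SS s b n (n + 2) = Gm s b n / (b + 1 - 2 * s.re) := by
  have h := hasSum_diag hs hb hσ n
  rw [SS, ← h.tsum_eq]
  congr 1
  funext i
  congr 1
  push_cast
  ring

theorem SS_shift {s : ℂ} (hs : -1 < s.re) {b : ℝ} (hb : 0 < b) (hσ : 0 < b + 1 - 2 * s.re)
    (n j : ℕ) : SS s b (n + 1) (j + 1) = SS s b n j - Gm s b n / (b + 1 + j) := by
  have h := (SS_summable hs hb hσ n j).tsum_eq_zero_add
  have e1 : SS s b n j = Gm s b n / (b + 1 + j) + SS s b (n + 1) (j + 1) := by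
    unfold SS
    rw [h]
    congr 1
    · simp
    · congr 1
      funext i
      have e2 : n + 1 + i = n + (i + 1) := by ring
      rw [e2]
      congr 1
      push_cast
      ring
  rw [e1]
  ring

theorem SS_rec {s : ℂ} (hs : -1 < s.re) {b : ℝ} (hb : 0 < b) (hσ : 0 < b + 1 - 2 * s.re)
    (n j : ℕ) : ((n : ℝ) + 2 - j) * SS s b (n + 1) j
      = Gm s b n + (2 * s.re + 1 + n - b - j) * SS s b n j := by
  have h1 := (SS_summable hs hb hσ n j).hasSum.mul_left (2 * s.re + 1 + n - b - j)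
  have h2 := (hasSum_diag hs hb hσ n).mul_left (b + 1 - 2 * s.re)
  have h3 := (SS_summable hs hb hσ (n + 1) j).hasSum.mul_left ((n : ℝ) + 2 - j)
  have h4 := h2.add h1
  have e : (fun i : ℕ => ((n : ℝ) + 2 - j) * (Gm s b (n + 1 + i) / (b + 1 + i + j)))
      = fun i : ℕ => (b + 1 - 2 * s.re) * (Gm s b (n + i) / (b + 3 + (n + i : ℕ)))
        + (2 * s.re + 1 + n - b - j) * (Gm s b (n + i) / (b + 1 + i + j)) := by
    funext i
    have e1 : n + 1 + i = n + i + 1 := by ring
    have hi : (0 : ℝ) ≤ i := Nat.cast_nonneg i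
    have hj : (0 : ℝ) ≤ j := Nat.cast_nonneg j
    have hn : (0 : ℝ) ≤ n := Nat.cast_nonneg n
    have h5 : b + 1 + (i : ℝ) + j ≠ 0 := by positivity
    have h6 : b + 3 + ((n : ℝ) + i) ≠ 0 := by positivity
    rw [e1, Gm_succ]
    push_cast
    field_simp
    ring
  rw [e] at h3
  have h7 := h3.unique h4
  have h8 : (b + 1 - 2 * s.re) * (Gm s b n / (b + 1 - 2 * s.re)) = Gm s b n := by
    field_simp
  rw [h8] at h7
  exact h7

/-- two-sided enclosure of the only transcendental number `SS s b 0 1` -/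
theorem SS_bounds {s : ℂ} (hs : -1 < s.re) {b : ℝ} (hb : 0 < b) (hσ : 0 < b + 1 - 2 * s.re)
    (J : ℕ) :
    (∑ i ∈ Finset.range J, Gm s b i / (b + 2 + i)) + Gm s b J * (1 / (b + 1 - 2 * s.re)
        + 1 / ((b + 2 - 2 * s.re) * (b + 3 + J))) ≤ SS s b 0 1 ∧
    SS s b 0 1 ≤ (∑ i ∈ Finset.range J, Gm s b i / (b + 2 + i))
      + Gm s b J * (1 / (b + 1 - 2 * s.re)
        + (1 + 2 / (b + 2 + J)) / ((b + 2 - 2 * s.re) * (b + 3 + J))) := by
  have hS := SS_summable hs hb hσ 0 1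
  have hJ : (0 : ℝ) ≤ J := Nat.cast_nonneg J
  have hτ : (0 : ℝ) < b + 2 - 2 * s.re := by linarith
  have hsplit := hS.sum_add_tsum_nat_add J
  have e0 : ∑ i ∈ Finset.range J, Gm s b (0 + i) / (b + 1 + i + (1 : ℕ))
      = ∑ i ∈ Finset.range J, Gm s b i / (b + 2 + i) := by
    apply Finset.sum_congr rfl
    intro i _
    rw [zero_add]
    congr 1
    push_cast
    ring
  have hTs := (summable_nat_add_iff (f := fun i : ℕ => Gm s b (0 + i) / (b + 1 + i + (1 : ℕ)))
    J).mpr hS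
  have hA := hasSum_diag hs hb hσ J
  have hB := hasSum_two hs hb hσ J
  have hlow := hA.add hB
  have hup := hA.add (hB.mul_left (1 + 2 / (b + 2 + J)))
  have key : ∀ i : ℕ, Gm s b (J + i) / (b + 3 + (J + i : ℕ))
      + Gm s b (J + i) / ((b + 3 + (J + i : ℕ)) * (b + 4 + (J + i : ℕ)))
      ≤ Gm s b (0 + (i + J)) / (b + 1 + (i + J : ℕ) + (1 : ℕ)) ∧
      Gm s b (0 + (i + J)) / (b + 1 + (i + J : ℕ) + (1 : ℕ))
      ≤ Gm s b (J + i) / (b + 3 + (J + i : ℕ)) + (1 + 2 / (b + 2 + J))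
        * (Gm s b (J + i) / ((b + 3 + (J + i : ℕ)) * (b + 4 + (J + i : ℕ)))) := by
    intro i
    have hi : (0 : ℝ) ≤ i := Nat.cast_nonneg i
    have e1 : 0 + (i + J) = J + i := by ring
    rw [e1]
    have e2 : ((i + J : ℕ) : ℝ) = ((J + i : ℕ) : ℝ) := by rw [add_comm]
    rw [e2]
    have hx : ((J + i : ℕ) : ℝ) = (J : ℝ) + i := by push_cast; ring
    rw [hx]
    push_cast
    set x : ℝ := (J : ℝ) + i with hxd
    have hx0 : 0 ≤ x := by positivity
    have hG := (Gm_pos hs hb (J + i)).le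
    set g := Gm s b (J + i)
    have h2 : (0 : ℝ) < b + 2 + x := by positivity
    have h3 : (0 : ℝ) < b + 3 + x := by positivity
    have h4 : (0 : ℝ) < b + 4 + x := by positivity
    have h2J : (0 : ℝ) < b + 2 + J := by positivity
    have e3 : b + 1 + x + 1 = b + 2 + x := by ring
    rw [e3]
    have hd : g / (b + 2 + x) = g / (b + 3 + x) + g / ((b + 2 + x) * (b + 3 + x)) := by
      field_simp
      ring
    rw [hd]
    constructor
    · have h5 : g / ((b + 3 + x) * (b + 4 + x)) ≤ g / ((b + 2 + x) * (b + 3 + x)) := by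
        apply div_le_div_of_nonneg_left hG (by positivity)
        nlinarith
      linarith
    · have h6 : g / ((b + 2 + x) * (b + 3 + x))
          = (1 + 2 / (b + 2 + x)) * (g / ((b + 3 + x) * (b + 4 + x))) := by
        field_simp
        ring
      have h7 : 2 / (b + 2 + x) ≤ 2 / (b + 2 + J) := by
        apply div_le_div_of_nonneg_left (by norm_num) h2J
        rw [hxd]
        linarith
      have h8 : 0 ≤ g / ((b + 3 + x) * (b + 4 + x)) := by positivity
      rw [h6]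
      have h9 := mul_le_mul_of_nonneg_right h7 h8
      nlinarith
  have hT1 := hasSum_le (fun i => (key i).1) hlow hTs.hasSum
  have hT2 := hasSum_le (fun i => (key i).2) hTs.hasSum hup
  have hSS : SS s b 0 1 = (∑ i ∈ Finset.range J, Gm s b i / (b + 2 + i))
      + ∑' i : ℕ, Gm s b (0 + (i + J)) / (b + 1 + (i + J : ℕ) + (1 : ℕ)) := by
    rw [← e0, SS]
    exact hsplit.symm
  rw [hSS]
  constructor
  · have e4 : Gm s b J * (1 / (b + 1 - 2 * s.re) + 1 / ((b + 2 - 2 * s.re) * (b + 3 + J)))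
        = Gm s b J / (b + 1 - 2 * s.re) + Gm s b J / ((b + 2 - 2 * s.re) * (b + 3 + J)) := by
      ring
    rw [e4]
    linarith
  · have e4 : Gm s b J * (1 / (b + 1 - 2 * s.re)
          + (1 + 2 / (b + 2 + J)) / ((b + 2 - 2 * s.re) * (b + 3 + J)))
        = Gm s b J / (b + 1 - 2 * s.re)
          + (1 + 2 / (b + 2 + J)) * (Gm s b J / ((b + 2 - 2 * s.re) * (b + 3 + J))) := by
      ring
    rw [e4]
    linarith

end Pool.Agent.Helper24.HR2
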