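import Mathlib
import Pool.Agent.Helper24.HR2.Defs
import Pool.Agent.Helper24.HR2.NumA
import Pool.Agent.Helper24.HR2.NumB

/-!
MP_16b0ee, project HR2, module R12c: the exact value of the Hilbert-Schmidt norm and of the mixed
moments of the remainder.
-/

set_option autoImplicit false

open MeasureTheory Set Metric Filter Topology
open scoped Real ComplexConjugate

namespace Pool.Agent.Helper24.HR2

open Pool.Agent.Helper22.Half

namespace NC

theorem Gm_pos {s : ℂ} (hs : -1 < s.re) {b : ℝ} (hb : 0 < b) (n : ℕ) : 0 < Gm s b n := by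
  unfold Gm
  apply Finset.prod_pos
  intro k _
  have : (0:ℝ) ≤ k := Nat.cast_nonneg k
  apply div_pos <;> linarith

theorem bet_nonneg {b y : ℝ} (hy : y ∈ Ioi (0:ℝ)) : 0 ≤ bet b y := by
  have hy0 : 0 < y := hy
  unfold bet
  positivity

theorem alp_nonneg {s : ℂ} {b x : ℝ} (hx : x ∈ Ioo (0:ℝ) 1) : 0 ≤ alp s b x := by
  have h1 : 0 ≤ 1 - x := by linarith [hx.2]
  have h2 : 0 ≤ x := hx.1.le
  unfold alp
  positivity

theorem bet_int {b : ℝ} (hb : 0 < b) (l : ℕ) :
    IntegrableOn (fun y => bet b y * (1 / (1 + y)) ^ l) (Ioi (0:ℝ)) := by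
  by_contra h
  have h1 := mom_bet hb l
  rw [integral_undef h] at h1
  have : 0 < 1 / ((b + l) * (b + l + 1)) := by positivity
  linarith

theorem alp_mom {s : ℂ} (hs : -1 < s.re) {b : ℝ} (hσ : 0 < b + 1 - 2 * s.re) (n : ℕ) :
    ∫ x in Ioo (0 : ℝ) 1, alp s b x * (1 - x) ^ n = B0 s b * Gm s b n := by
  have h1 := mom_alp hs hσ n
  have h2 := (B0_pos hs hσ).1
  rw [← h1]
  field_simp

theorem alp_int {s : ℂ} (hs : -1 < s.re) {b : ℝ} (hb : 0 < b) (hσ : 0 < b + 1 - 2 * s.re)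
    (n : ℕ) : IntegrableOn (fun x => alp s b x * (1 - x) ^ n) (Ioo (0:ℝ) 1) := by
  by_contra h
  have h1 := alp_mom hs hσ n
  rw [integral_undef h] at h1
  have := mul_pos (B0_pos hs hσ).1 (Gm_pos hs hb n)
  linarith

theorem hasSum_of_eq {f g : ℕ → ℝ} {a : ℝ} (h : HasSum f a) (e : ∀ j, g j = f j) :
    HasSum g a := by
  have : g = f := funext e
  rw [this]
  exact h

/-- integral of a series of nonnegative functions -/
theorem int_tsum {S : Set ℝ} (hS : MeasurableSet S) (F : ℕ → ℝ → ℝ) (G : ℝ → ℝ) (v : ℕ → ℝ)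
    (hF : ∀ j, IntegrableOn (F j) S) (h0 : ∀ j, ∀ y ∈ S, 0 ≤ F j y)
    (hv : ∀ j, ∫ y in S, F j y = v j) (hs : Summable v)
    (hG : ∀ y ∈ S, HasSum (fun j => F j y) (G y)) (hpos : 0 < v 0) :
    IntegrableOn G S ∧ ∫ y in S, G y = ∑' j, v j := by
  have hn : ∀ j, ∫ y in S, ‖F j y‖ = v j := by
    intro j
    rw [← hv j]
    apply setIntegral_congr_fun hS
    intro y hy
    exact Real.norm_of_nonneg (h0 j y hy)
  have h1 := hasSum_integral_of_summable_integral_norm (μ := volume.restrict S) (F := F) hF (by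
    simp only [hn]
    exact hs)
  simp only [hv] at h1
  have h2 : ∫ y in S, ∑' j, F j y = ∫ y in S, G y := by
    apply setIntegral_congr_fun hS
    intro y hy
    exact (hG y hy).tsum_eq
  rw [h2] at h1
  refine ⟨?_, h1.tsum_eq.symm⟩
  by_contra h
  have h3 := h1.tsum_eq
  rw [integral_undef h] at h3
  have h4 : ∀ j, 0 ≤ v j := fun j => by
    rw [← hv j]
    exact setIntegral_nonneg hS (h0 j)
  have h5 : v 0 ≤ ∑' j, v j := hs.le_tsum 0 (fun j _ => h4 j)
  linarith

theorem kernel_one {x y : ℝ} (hx : x ∈ Ioo (0:ℝ) 1) (hy : y ∈ Ioi (0:ℝ)) :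
    HasSum (fun j : ℕ => (1 - x) ^ j * (1 / (1 + y)) ^ (j + 1)) (1 / (x + y)) := by
  have hy0 : 0 < y := hy
  have hx0 := hx.1
  have hx1 := hx.2
  have hr0 : 0 ≤ (1 - x) * (1 / (1 + y)) := by
    have : 0 ≤ 1 - x := by linarith
    positivity
  have hr1 : (1 - x) * (1 / (1 + y)) < 1 := by
    rw [mul_one_div, div_lt_one (by linarith)]
    linarith
  have h := (hasSum_geometric_of_lt_one hr0 hr1).mul_left (1 / (1 + y))
  have e1 : 1 / (1 + y) * (1 - (1 - x) * (1 / (1 + y)))⁻¹ = 1 / (x + y) := by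
    have h1 : (1 + y) ≠ 0 := by linarith
    have h2 : x + y ≠ 0 := by linarith
    have h3 : 1 - (1 - x) * (1 / (1 + y)) = (x + y) / (1 + y) := by
      field_simp
      ring
    rw [h3]
    field_simp
  rw [e1] at h
  refine hasSum_of_eq h fun j => ?_
  rw [mul_pow, pow_succ]
  ring

theorem kernel_two {x y : ℝ} (hx : x ∈ Ioo (0:ℝ) 1) (hy : y ∈ Ioi (0:ℝ)) :
    HasSum (fun j : ℕ => ((j : ℝ) + 1) * ((1 - x) ^ j * (1 / (1 + y)) ^ (j + 2)))
      ((1 / (x + y)) ^ 2) := by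
  have hy0 : 0 < y := hy
  have hx0 := hx.1
  have hx1 := hx.2
  have hr0 : 0 ≤ (1 - x) * (1 / (1 + y)) := by
    have : 0 ≤ 1 - x := by linarith
    positivity
  have hr1 : (1 - x) * (1 / (1 + y)) < 1 := by
    rw [mul_one_div, div_lt_one (by linarith)]
    linarith
  have hr : ‖(1 - x) * (1 / (1 + y))‖ < 1 := by
    rwa [Real.norm_of_nonneg hr0]
  have h := ((hasSum_coe_mul_geometric_of_norm_lt_one hr).add
    (hasSum_geometric_of_norm_lt_one hr)).mul_left ((1 / (1 + y)) ^ 2)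
  have e1 : (1 / (1 + y)) ^ 2 * ((1 - x) * (1 / (1 + y)) / (1 - (1 - x) * (1 / (1 + y))) ^ 2
      + (1 - (1 - x) * (1 / (1 + y)))⁻¹) = (1 / (x + y)) ^ 2 := by
    have h1 : (1 + y) ≠ 0 := by linarith
    have h2 : x + y ≠ 0 := by linarith
    have h3 : 1 - (1 - x) * (1 / (1 + y)) = (x + y) / (1 + y) := by
      field_simp
      ring
    rw [h3]
    field_simp
    ring
  rw [e1] at h
  refine hasSum_of_eq h fun j => ?_
  rw [mul_pow]
  ring

/-- functions of two variables with a computed iterated integral -/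
structure Good (s : ℂ) (b : ℝ) (f : ℝ → ℝ → ℝ) (v : ℝ) : Prop where
  inn : ∀ x ∈ Ioo (0:ℝ) 1, IntegrableOn (fun y => bet b y * f x y) (Ioi 0)
  out : IntegrableOn (fun x => alp s b x * ∫ y in Ioi (0:ℝ), bet b y * f x y) (Ioo 0 1)
  val : (1 / B0 s b) * ∫ x in Ioo (0:ℝ) 1, alp s b x * ∫ y in Ioi (0:ℝ), bet b y * f x y = v

theorem Good.zero (s : ℂ) (b : ℝ) : Good s b (fun _ _ => 0) 0 := by
  constructor
  · intro x _
    simp
  · simp
  · simp

theorem Good.add {s : ℂ} {b : ℝ} {f g : ℝ → ℝ → ℝ} {v w : ℝ} (hf : Good s b f v)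
    (hg : Good s b g w) : Good s b (fun x y => f x y + g x y) (v + w) := by
  have h1 : ∀ x ∈ Ioo (0:ℝ) 1, ∫ y in Ioi (0:ℝ), bet b y * (f x y + g x y)
      = (∫ y in Ioi (0:ℝ), bet b y * f x y) + ∫ y in Ioi (0:ℝ), bet b y * g x y := by
    intro x hx
    rw [← integral_add (hf.inn x hx) (hg.inn x hx)]
    congr 1
    ext y
    ring
  have h2 : EqOn (fun x => alp s b x * ∫ y in Ioi (0:ℝ), bet b y * (f x y + g x y))
      (fun x => alp s b x * (∫ y in Ioi (0:ℝ), bet b y * f x y)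
        + alp s b x * ∫ y in Ioi (0:ℝ), bet b y * g x y) (Ioo 0 1) := by
    intro x hx
    simp only
    rw [h1 x hx]
    ring
  refine ⟨fun x hx => ?_, ?_, ?_⟩
  · have := (hf.inn x hx).add (hg.inn x hx)
    refine this.congr (Filter.Eventually.of_forall fun y => ?_)
    simp only [Pi.add_apply]
    ring
  · exact (integrableOn_congr_fun h2 measurableSet_Ioo).mpr (hf.out.add hg.out)
  · rw [setIntegral_congr_fun measurableSet_Ioo h2, integral_add hf.out hg.out, mul_add, hf.val,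
      hg.val]

theorem Good.smul {s : ℂ} {b : ℝ} {f : ℝ → ℝ → ℝ} {v : ℝ} (c : ℝ) (hf : Good s b f v) :
    Good s b (fun x y => c * f x y) (c * v) := by
  have h1 : ∀ x, ∫ y in Ioi (0:ℝ), bet b y * (c * f x y)
      = c * ∫ y in Ioi (0:ℝ), bet b y * f x y := by
    intro x
    rw [← integral_const_mul]
    congr 1
    ext y
    ring
  have h2 : (fun x => alp s b x * ∫ y in Ioi (0:ℝ), bet b y * (c * f x y))
      = fun x => c * (alp s b x * ∫ y in Ioi (0:ℝ), bet b y * f x y) := by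
    ext x
    rw [h1 x]
    ring
  refine ⟨fun x hx => ?_, ?_, ?_⟩
  · have := (hf.inn x hx).const_mul c
    refine this.congr (Filter.Eventually.of_forall fun y => ?_)
    simp only
    ring
  · rw [h2]
    exact hf.out.const_mul c
  · rw [h2, integral_const_mul, ← hf.val]
    ring

theorem Good.sum {s : ℂ} {b : ℝ} {ι : Type} (S : Finset ι) {f : ι → ℝ → ℝ → ℝ} {v : ι → ℝ}
    (h : ∀ i ∈ S, Good s b (f i) (v i)) :
    Good s b (fun x y => ∑ i ∈ S, f i x y) (∑ i ∈ S, v i) := by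
  classical
  induction S using Finset.induction_on with
  | empty => simpa using Good.zero s b
  | insert a S ha ih =>
    have h1 := (h a (Finset.mem_insert_self a S)).add
      (ih fun i hi => h i (Finset.mem_insert_of_mem hi))
    simp only [Finset.sum_insert ha]
    exact h1

theorem Good.congr {s : ℂ} {b : ℝ} {f g : ℝ → ℝ → ℝ} {v w : ℝ} (hf : Good s b f v)
    (h : ∀ x ∈ Ioo (0:ℝ) 1, ∀ y ∈ Ioi (0:ℝ), g x y = f x y) (hw : w = v) : Good s b g w := by
  have h1 : ∀ x ∈ Ioo (0:ℝ) 1, EqOn (fun y => bet b y * g x y) (fun y => bet b y * f x y)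
      (Ioi 0) := by
    intro x hx y hy
    simp only
    rw [h x hx y hy]
  have h2 : EqOn (fun x => alp s b x * ∫ y in Ioi (0:ℝ), bet b y * g x y)
      (fun x => alp s b x * ∫ y in Ioi (0:ℝ), bet b y * f x y) (Ioo 0 1) := by
    intro x hx
    simp only
    rw [setIntegral_congr_fun measurableSet_Ioi (h1 x hx)]
  refine ⟨fun x hx => ?_, ?_, ?_⟩
  · exact (integrableOn_congr_fun (h1 x hx) measurableSet_Ioi).mpr (hf.inn x hx)
  · exact (integrableOn_congr_fun h2 measurableSet_Ioo).mpr hf.out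
  · rw [setIntegral_congr_fun measurableSet_Ioo h2, hf.val, hw]

/-- a function whose inner integral is a power series with positive bounded coefficients -/
theorem good_of_series {s : ℂ} (hs : -1 < s.re) {b : ℝ} (hb : 0 < b)
    (hσ : 0 < b + 1 - 2 * s.re) (n : ℕ) (f : ℝ → ℝ → ℝ) (c : ℕ → ℝ) (F : ℕ → ℝ → ℝ → ℝ)
    (hF : ∀ x ∈ Ioo (0:ℝ) 1, ∀ j, IntegrableOn (fun y => bet b y * F j x y) (Ioi 0))
    (hF0 : ∀ x ∈ Ioo (0:ℝ) 1, ∀ j, ∀ y ∈ Ioi (0:ℝ), 0 ≤ F j x y)
    (hFv : ∀ x ∈ Ioo (0:ℝ) 1, ∀ j, ∫ y in Ioi (0:ℝ), bet b y * F j x y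
      = (1 - x) ^ n * (c j * (1 - x) ^ j))
    (hsum : ∀ x ∈ Ioo (0:ℝ) 1, ∀ y ∈ Ioi (0:ℝ), HasSum (fun j => F j x y) (f x y))
    (hc : ∀ j, 0 < c j) (hc1 : ∀ j, c j ≤ 1)
    (hG : Summable (fun j => c j * Gm s b (n + j))) :
    Good s b f (∑' j, c j * Gm s b (n + j)) := by
  have hS : ∀ x ∈ Ioo (0:ℝ) 1, Summable (fun j => c j * (1 - x) ^ j) := by
    intro x hx
    have h0 : 0 ≤ 1 - x := by linarith [hx.2]
    have h1 : 1 - x < 1 := by linarith [hx.1]
    refine Summable.of_nonneg_of_le (fun j => mul_nonneg (hc j).le (pow_nonneg h0 j))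
      (fun j => ?_) (summable_geometric_of_lt_one h0 h1)
    calc c j * (1 - x) ^ j ≤ 1 * (1 - x) ^ j := mul_le_mul_of_nonneg_right (hc1 j) (pow_nonneg h0 j)
      _ = (1 - x) ^ j := one_mul _
  have hI : ∀ x ∈ Ioo (0:ℝ) 1, IntegrableOn (fun y => bet b y * f x y) (Ioi 0) ∧
      ∫ y in Ioi (0:ℝ), bet b y * f x y = ∑' j, (1 - x) ^ n * (c j * (1 - x) ^ j) := by
    intro x hx
    have h0 : 0 < 1 - x := by linarith [hx.2]
    apply int_tsum measurableSet_Ioi (fun j y => bet b y * F j x y) _ _ (hF x hx)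
      (fun j y hy => mul_nonneg (bet_nonneg hy) (hF0 x hx j y hy)) (hFv x hx)
      ((hS x hx).mul_left _) (fun y hy => (hsum x hx y hy).mul_left _)
    have := hc 0
    positivity
  have hB := (B0_pos hs hσ).1
  have hO := int_tsum (S := Ioo (0:ℝ) 1) measurableSet_Ioo
    (fun j x => c j * (alp s b x * (1 - x) ^ (n + j)))
    (fun x => alp s b x * ∫ y in Ioi (0:ℝ), bet b y * f x y)
    (fun j => c j * (B0 s b * Gm s b (n + j)))
    (fun j => (alp_int hs hb hσ (n + j)).const_mul (c j))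
    (fun j x hx => by
      have h0 : 0 ≤ 1 - x := by linarith [hx.2]
      exact mul_nonneg (hc j).le (mul_nonneg (alp_nonneg hx) (pow_nonneg h0 _)))
    (fun j => by rw [integral_const_mul, alp_mom hs hσ])
    (by
      refine (hG.mul_left (B0 s b)).congr fun j => ?_
      ring)
    (fun x hx => by
      have h1 := (hS x hx).hasSum.mul_left (alp s b x * (1 - x) ^ n)
      have h2 : alp s b x * ∫ y in Ioi (0:ℝ), bet b y * f x y
          = alp s b x * (1 - x) ^ n * ∑' j, c j * (1 - x) ^ j := by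
        rw [(hI x hx).2, tsum_mul_left]
        ring
      rw [h2]
      refine hasSum_of_eq h1 fun j => ?_
      rw [pow_add]
      ring)
    (mul_pos (hc 0) (mul_pos hB (Gm_pos hs hb _)))
  refine ⟨fun x hx => (hI x hx).1, hO.1, ?_⟩
  rw [hO.2, ← tsum_mul_left]
  apply tsum_congr
  intro j
  field_simp

theorem good_mono {s : ℂ} (hs : -1 < s.re) {b : ℝ} (hb : 0 < b) (hσ : 0 < b + 1 - 2 * s.re)
    (n l : ℕ) : Good s b (fun x y => (1 - x) ^ n * (1 / (1 + y)) ^ l)
      (Gm s b n / ((b + l) * (b + l + 1))) := by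
  have h1 : ∀ x : ℝ, ∫ y in Ioi (0:ℝ), bet b y * ((1 - x) ^ n * (1 / (1 + y)) ^ l)
      = (1 - x) ^ n * (1 / ((b + l) * (b + l + 1))) := by
    intro x
    rw [← mom_bet hb l, ← integral_const_mul]
    congr 1
    ext y
    ring
  have h2 : (fun x => alp s b x * ∫ y in Ioi (0:ℝ), bet b y * ((1 - x) ^ n * (1 / (1 + y)) ^ l))
      = fun x => (1 / ((b + l) * (b + l + 1))) * (alp s b x * (1 - x) ^ n) := by
    ext x
    rw [h1 x]
    ring
  refine ⟨fun x hx => ?_, ?_, ?_⟩
  · refine ((bet_int hb l).const_mul ((1 - x) ^ n)).congr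
      (Filter.Eventually.of_forall fun y => ?_)
    simp only
    ring
  · rw [h2]
    exact (alp_int hs hb hσ n).const_mul _
  · rw [h2, integral_const_mul, alp_mom hs hσ n]
    have hB := (B0_pos hs hσ).1
    have h3 : 0 < (b + l) * (b + l + 1) := by positivity
    field_simp

theorem good_one {s : ℂ} (hs : -1 < s.re) {b : ℝ} (hb : 0 < b) (hσ : 0 < b + 1 - 2 * s.re)
    (n l : ℕ) : Good s b (fun x y => (1 - x) ^ n * (1 / (1 + y)) ^ l * (1 / (x + y)))
      (SS s b n l - SS s b n (l + 1)) := by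
  have hsm := (SS_summable hs hb hσ n l).sub (SS_summable hs hb hσ n (l + 1))
  have hcj : ∀ j : ℕ, 1 / ((b + ((l + j + 1 : ℕ) : ℝ)) * (b + ((l + j + 1 : ℕ) : ℝ) + 1))
      * Gm s b (n + j) = Gm s b (n + j) / (b + 1 + j + l) - Gm s b (n + j)
        / (b + 1 + j + (l + 1 : ℕ)) := by
    intro j
    have h1 : 0 < b + 1 + j + l := by positivity
    have h2 : 0 < b + 1 + j + (l + 1 : ℕ) := by positivity
    have h3 : 0 < b + ((l + j + 1 : ℕ) : ℝ) := by positivity
    push_cast at *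
    field_simp
    ring
  have h := good_of_series hs hb hσ n
    (fun x y => (1 - x) ^ n * (1 / (1 + y)) ^ l * (1 / (x + y)))
    (fun j => 1 / ((b + ((l + j + 1 : ℕ) : ℝ)) * (b + ((l + j + 1 : ℕ) : ℝ) + 1)))
    (fun j x y => (1 - x) ^ n * (1 / (1 + y)) ^ l * ((1 - x) ^ j * (1 / (1 + y)) ^ (j + 1)))
    (fun x _ j => by
      refine ((bet_int hb (l + j + 1)).const_mul ((1 - x) ^ (n + j))).congr
        (Filter.Eventually.of_forall fun y => ?_)
      simp only
      ring)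
    (fun x hx j y hy => by
      have h0 : 0 ≤ 1 - x := by linarith [hx.2]
      have hy0 : 0 < y := hy
      positivity)
    (fun x _ j => by
      rw [← mom_bet hb (l + j + 1), ← integral_mul_const, ← integral_const_mul]
      congr 1
      ext y
      ring)
    (fun x hx y hy => (kernel_one hx hy).mul_left _)
    (fun j => by positivity)
    (fun j => by
      have h3 : 1 ≤ b + ((l + j + 1 : ℕ) : ℝ) := by
        push_cast
        have : (0:ℝ) ≤ l := Nat.cast_nonneg l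
        have : (0:ℝ) ≤ j := Nat.cast_nonneg j
        linarith
      rw [div_le_one (by positivity)]
      nlinarith)
    (hsm.congr fun j => (hcj j).symm)
  refine h.congr (fun _ _ _ _ => rfl) ?_
  rw [tsum_congr hcj, (SS_summable hs hb hσ n l).tsum_sub (SS_summable hs hb hσ n (l + 1))]
  rfl

theorem good_two {s : ℂ} (hs : -1 < s.re) {b : ℝ} (hb : 0 < b) (hσ : 0 < b + 1 - 2 * s.re) :
    Good s b (fun x y => (1 / (x + y)) ^ 2)
      (-(b + 1) * SS s b 0 1 + (b + 2) * SS s b 0 2) := by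
  have hs1 := (SS_summable hs hb hσ 0 1).mul_left (-(b + 1))
  have hs2 := (SS_summable hs hb hσ 0 2).mul_left (b + 2)
  have hcj : ∀ j : ℕ, ((j : ℝ) + 1) * (1 / ((b + ((j + 2 : ℕ) : ℝ)) * (b + ((j + 2 : ℕ) : ℝ) + 1)))
      * Gm s b (0 + j) = -(b + 1) * (Gm s b (0 + j) / (b + 1 + j + (1 : ℕ)))
        + (b + 2) * (Gm s b (0 + j) / (b + 1 + j + (2 : ℕ))) := by
    intro j
    have h1 : 0 < b + 1 + j + (1 : ℕ) := by positivity
    have h2 : 0 < b + 1 + j + (2 : ℕ) := by positivity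
    have h3 : 0 < b + ((j + 2 : ℕ) : ℝ) := by positivity
    push_cast at *
    field_simp
    ring
  have h := good_of_series hs hb hσ 0
    (fun x y => (1 / (x + y)) ^ 2)
    (fun j => ((j : ℝ) + 1) * (1 / ((b + ((j + 2 : ℕ) : ℝ)) * (b + ((j + 2 : ℕ) : ℝ) + 1))))
    (fun j x y => ((j : ℝ) + 1) * ((1 - x) ^ j * (1 / (1 + y)) ^ (j + 2)))
    (fun x _ j => by
      refine ((bet_int hb (j + 2)).const_mul (((j : ℝ) + 1) * (1 - x) ^ j)).congr
        (Filter.Eventually.of_forall fun y => ?_)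
      simp only
      ring)
    (fun x hx j y hy => by
      have h0 : 0 ≤ 1 - x := by linarith [hx.2]
      have hy0 : 0 < y := hy
      positivity)
    (fun x _ j => by
      rw [← mom_bet hb (j + 2), mul_right_comm, pow_zero, one_mul, ← integral_const_mul]
      congr 1
      ext y
      ring)
    (fun x hx y hy => kernel_two hx hy)
    (fun j => by positivity)
    (fun j => by
      have h3 : 0 < (b + ((j + 2 : ℕ) : ℝ)) * (b + ((j + 2 : ℕ) : ℝ) + 1) := by positivity
      rw [mul_one_div, div_le_one h3]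
      push_cast
      have : (0:ℝ) ≤ j := Nat.cast_nonneg j
      nlinarith)
    ((hs1.add hs2).congr fun j => (hcj j).symm)
  refine h.congr (fun _ _ _ _ => rfl) ?_
  rw [tsum_congr hcj, hs1.tsum_add hs2, tsum_mul_left, tsum_mul_left]
  rfl

theorem HSn_of_good {s : ℂ} {b : ℝ} {D : ℕ} {p : ℕ → ℕ → ℝ} {v : ℝ}
    (h : Good s b (fun x y => RR D p x y ^ 2) v) : HSn s b D p = v := by
  rw [← h.val]
  unfold HSn
  congr 2
  ext x
  rw [← integral_const_mul]
  congr 1
  ext y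
  ring

theorem xln_of_good {s : ℂ} {b : ℝ} {D : ℕ} {p : ℕ → ℕ → ℝ} {l n : ℕ} {v : ℝ}
    (h : Good s b (fun x y => (1 - x) ^ n * (1 / (1 + y)) ^ l * RR D p x y) v) :
    xln s b D p l n = v := by
  rw [← h.val]
  unfold xln
  congr 2
  ext x
  rw [← integral_const_mul]
  congr 1
  ext y
  ring

end NC

open NC

theorem HSn_eq {s : ℂ} (hs : -1 < s.re) {b : ℝ} (hb : 0 < b) (hσ : 0 < b + 1 - 2 * s.re)
    (D : ℕ) (p : ℕ → ℕ → ℝ) : HSn s b D p = -(b + 1) * SS s b 0 1 + (b + 2) * SS s b 0 2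
      - 2 * ∑ n ∈ Finset.range D, ∑ l ∈ Finset.range D,
          p n l * (SS s b n (l + 1) - SS s b n (l + 2))
      + ∑ n ∈ Finset.range D, ∑ l ∈ Finset.range D, ∑ n' ∈ Finset.range D,
          ∑ l' ∈ Finset.range D, p n l * p n' l' * Gm s b (n + n')
            / ((b + l + l' + 2) * (b + l + l' + 3)) := by
  apply HSn_of_good
  have h1 := good_two hs hb hσ
  have h2 : Good s b (fun x y => ∑ n ∈ Finset.range D, ∑ l ∈ Finset.range D,
      p n l * ((1 - x) ^ n * (1 / (1 + y)) ^ (l + 1) * (1 / (x + y))))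
      (∑ n ∈ Finset.range D, ∑ l ∈ Finset.range D,
          p n l * (SS s b n (l + 1) - SS s b n (l + 2))) :=
    Good.sum _ fun n _ => Good.sum _ fun l _ => (good_one hs hb hσ n (l + 1)).smul (p n l)
  have h3 : Good s b (fun x y => ∑ n ∈ Finset.range D, ∑ l ∈ Finset.range D,
      ∑ n' ∈ Finset.range D, ∑ l' ∈ Finset.range D,
      (p n l * p n' l') * ((1 - x) ^ (n + n') * (1 / (1 + y)) ^ (l + l' + 2)))
      (∑ n ∈ Finset.range D, ∑ l ∈ Finset.range D, ∑ n' ∈ Finset.range D,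
          ∑ l' ∈ Finset.range D, (p n l * p n' l') * (Gm s b (n + n')
            / ((b + ((l + l' + 2 : ℕ) : ℝ)) * (b + ((l + l' + 2 : ℕ) : ℝ) + 1)))) :=
    Good.sum _ fun n _ => Good.sum _ fun l _ => Good.sum _ fun n' _ => Good.sum _ fun l' _ =>
      (good_mono hs hb hσ (n + n') (l + l' + 2)).smul (p n l * p n' l')
  refine ((h1.add (h2.smul (-2))).add h3).congr (fun x hx y hy => ?_) ?_
  · have e1 : 1 / (x + y) * kp D p (1 - x) (1 / (1 + y))
        = ∑ n ∈ Finset.range D, ∑ l ∈ Finset.range D,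
          p n l * ((1 - x) ^ n * (1 / (1 + y)) ^ (l + 1) * (1 / (x + y))) := by
      unfold kp
      rw [Finset.mul_sum]
      refine Finset.sum_congr rfl fun n _ => ?_
      rw [Finset.mul_sum]
      refine Finset.sum_congr rfl fun l _ => ?_
      ring
    have e2 : kp D p (1 - x) (1 / (1 + y)) * kp D p (1 - x) (1 / (1 + y))
        = ∑ n ∈ Finset.range D, ∑ l ∈ Finset.range D,
      ∑ n' ∈ Finset.range D, ∑ l' ∈ Finset.range D,
      (p n l * p n' l') * ((1 - x) ^ (n + n') * (1 / (1 + y)) ^ (l + l' + 2)) := by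
      conv_lhs => unfold kp
      rw [Finset.sum_mul]
      refine Finset.sum_congr rfl fun n _ => ?_
      rw [Finset.sum_mul]
      refine Finset.sum_congr rfl fun l _ => ?_
      rw [Finset.mul_sum]
      refine Finset.sum_congr rfl fun n' _ => ?_
      rw [Finset.mul_sum]
      refine Finset.sum_congr rfl fun l' _ => ?_
      ring
    rw [← e1, ← e2]
    unfold RR
    ring
  · have e3 : ∑ n ∈ Finset.range D, ∑ l ∈ Finset.range D, ∑ n' ∈ Finset.range D,
          ∑ l' ∈ Finset.range D, p n l * p n' l' * Gm s b (n + n')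
            / ((b + l + l' + 2) * (b + l + l' + 3))
        = ∑ n ∈ Finset.range D, ∑ l ∈ Finset.range D, ∑ n' ∈ Finset.range D,
          ∑ l' ∈ Finset.range D, (p n l * p n' l') * (Gm s b (n + n')
            / ((b + ((l + l' + 2 : ℕ) : ℝ)) * (b + ((l + l' + 2 : ℕ) : ℝ) + 1))) := by
      refine Finset.sum_congr rfl fun n _ => Finset.sum_congr rfl fun l _ =>
        Finset.sum_congr rfl fun n' _ => Finset.sum_congr rfl fun l' _ => ?_
      have e4 : (b + ((l + l' + 2 : ℕ) : ℝ)) * (b + ((l + l' + 2 : ℕ) : ℝ) + 1)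
          = (b + l + l' + 2) * (b + l + l' + 3) := by
        push_cast
        ring
      rw [e4, mul_div_assoc]
    rw [e3]
    ring

theorem xln_eq {s : ℂ} (hs : -1 < s.re) {b : ℝ} (hb : 0 < b) (hσ : 0 < b + 1 - 2 * s.re)
    (D : ℕ) (p : ℕ → ℕ → ℝ) (l n : ℕ) : xln s b D p l n = SS s b n l - SS s b n (l + 1)
      - ∑ n' ∈ Finset.range D, ∑ l' ∈ Finset.range D, p n' l' * Gm s b (n + n')
          / ((b + l + l' + 1) * (b + l + l' + 2)) := by
  apply xln_of_good
  have h1 := good_one hs hb hσ n l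
  have h2 : Good s b (fun x y => ∑ n' ∈ Finset.range D, ∑ l' ∈ Finset.range D,
      p n' l' * ((1 - x) ^ (n + n') * (1 / (1 + y)) ^ (l + l' + 1)))
      (∑ n' ∈ Finset.range D, ∑ l' ∈ Finset.range D, p n' l' * (Gm s b (n + n')
          / ((b + ((l + l' + 1 : ℕ) : ℝ)) * (b + ((l + l' + 1 : ℕ) : ℝ) + 1)))) :=
    Good.sum _ fun n' _ => Good.sum _ fun l' _ =>
      (good_mono hs hb hσ (n + n') (l + l' + 1)).smul (p n' l')
  refine (h1.add (h2.smul (-1))).congr (fun x hx y hy => ?_) ?_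
  · have e1 : (1 - x) ^ n * (1 / (1 + y)) ^ l * kp D p (1 - x) (1 / (1 + y))
        = ∑ n' ∈ Finset.range D, ∑ l' ∈ Finset.range D,
          p n' l' * ((1 - x) ^ (n + n') * (1 / (1 + y)) ^ (l + l' + 1)) := by
      unfold kp
      rw [Finset.mul_sum]
      refine Finset.sum_congr rfl fun n' _ => ?_
      rw [Finset.mul_sum]
      refine Finset.sum_congr rfl fun l' _ => ?_
      ring
    rw [← e1]
    unfold RR
    ring
  · have e3 : ∑ n' ∈ Finset.range D, ∑ l' ∈ Finset.range D, p n' l' * Gm s b (n + n')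
          / ((b + l + l' + 1) * (b + l + l' + 2))
        = ∑ n' ∈ Finset.range D, ∑ l' ∈ Finset.range D, p n' l' * (Gm s b (n + n')
          / ((b + ((l + l' + 1 : ℕ) : ℝ)) * (b + ((l + l' + 1 : ℕ) : ℝ) + 1))) := by
      refine Finset.sum_congr rfl fun n' _ => Finset.sum_congr rfl fun l' _ => ?_
      have e4 : (b + ((l + l' + 1 : ℕ) : ℝ)) * (b + ((l + l' + 1 : ℕ) : ℝ) + 1)
          = (b + l + l' + 1) * (b + l + l' + 2) := by
        push_cast
        ring
      rw [e4, mul_div_assoc]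
    rw [e3]
    ring

end Pool.Agent.Helper24.HR2
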