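import Mathlib
import Pool.Agent.Helper24.HR2.Defs
import Pool.Agent.Helper24.HR2.NumA

/-!
MP_16b0ee, project HR2, module R12d: upper bound of the cross functional.
-/

set_option autoImplicit false

open MeasureTheory Set Metric Filter Topology
open scoped Real ComplexConjugate

namespace Pool.Agent.Helper24.HR2

open Pool.Agent.Helper22.Half

noncomputable def cJ (b : ℝ) (D : ℕ) (p : ℕ → ℕ → ℝ) (l j : ℕ) : ℝ :=
  1 / ((b + l + 1 + j) * (b + l + 2 + j))
    - if j < D then ∑ l' ∈ Finset.range D, p j l' / ((b + l + l' + 1) * (b + l + l' + 2)) else 0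

namespace ND

theorem Gm_pos {s : ℂ} (hs : -1 < s.re) {b : ℝ} (hb : 0 < b) (n : ℕ) : 0 < Gm s b n := by
  unfold Gm
  apply Finset.prod_pos
  intro k _
  have : (0:ℝ) ≤ k := Nat.cast_nonneg k
  apply div_pos <;> linarith

theorem bet_nonneg {b y : ℝ} (hy : 0 < y) : 0 ≤ bet b y := by
  unfold bet
  positivity

theorem alp_nonneg {s : ℂ} {b x : ℝ} (hx : x ∈ Ioo (0:ℝ) 1) : 0 ≤ alp s b x := by
  have h1 : 0 ≤ 1 - x := by linarith [hx.2]
  have h2 : 0 ≤ x := hx.1.le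
  unfold alp
  positivity

theorem bet_int {b : ℝ} (hb : 0 < b) (l : ℕ) :
    IntegrableOn (fun y => bet b y * (1 / (1 + y)) ^ l) (Ioi (0:ℝ)) := by
  by_contra h
  have h1 := mom_bet hb l
  rw [integral_undef h] at h1
  have : 0 < 1 / ((b + l) * (b + l + 1)) := by positivity
  linarith

theorem alp_mom {s : ℂ} (hs : -1 < s.re) {b : ℝ} (hσ : 0 < b + 1 - 2 * s.re) (n : ℕ) :
    ∫ x in Ioo (0 : ℝ) 1, alp s b x * (1 - x) ^ n = B0 s b * Gm s b n := by
  have h1 := mom_alp hs hσ n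
  have h2 := (B0_pos hs hσ).1
  rw [← h1]
  field_simp

theorem alp_int {s : ℂ} (hs : -1 < s.re) {b : ℝ} (hb : 0 < b) (hσ : 0 < b + 1 - 2 * s.re)
    (n : ℕ) : IntegrableOn (fun x => alp s b x * (1 - x) ^ n) (Ioo (0:ℝ) 1) := by
  by_contra h
  have h1 := alp_mom hs hσ n
  rw [integral_undef h] at h1
  have := mul_pos (B0_pos hs hσ).1 (Gm_pos hs hb n)
  linarith

/-- finite geometric expansion of the kernel -/
theorem kernel_fin {x y : ℝ} (hx : 0 < x) (hy : 0 < y) (J : ℕ) :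
    1 / (x + y) = ∑ j ∈ Finset.range J, (1 - x) ^ j * (1 / (1 + y)) ^ (j + 1)
      + (1 - x) ^ J * ((1 / (1 + y)) ^ J * (1 / (x + y))) := by
  have h1 : (1 + y) ≠ 0 := by linarith
  have h2 : x + y ≠ 0 := by linarith
  have h3 : 1 / (x + y) = 1 / (1 + y) + (1 - x) * (1 / (1 + y)) * (1 / (x + y)) := by
    field_simp
    ring
  induction J with
  | zero => simp
  | succ J ih =>
    rw [Finset.sum_range_succ]
    have h4 : (1 - x) ^ J * ((1 / (1 + y)) ^ J * (1 / (x + y)))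
        = (1 - x) ^ J * (1 / (1 + y)) ^ (J + 1)
          + (1 - x) ^ (J + 1) * ((1 / (1 + y)) ^ (J + 1) * (1 / (x + y))) := by
      conv_lhs => rw [h3]
      ring
    rw [h4] at ih
    rw [add_assoc]
    exact ih

/-- the tail of the cross function -/
noncomputable def tl (b : ℝ) (J l : ℕ) (x : ℝ) : ℝ :=
  ∫ y in Ioi (0 : ℝ), bet b y * (1 / (1 + y)) ^ (l + J) * (1 / (x + y))

theorem bet_meas (b : ℝ) (l : ℕ) (x : ℝ) :
    Measurable (fun y : ℝ => bet b y * (1 / (1 + y)) ^ l * (1 / (x + y))) := by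
  unfold bet
  fun_prop

theorem tl_int {b : ℝ} (hb : 0 < b) (l : ℕ) {x : ℝ} (hx : 0 < x) :
    IntegrableOn (fun y => bet b y * (1 / (1 + y)) ^ l * (1 / (x + y))) (Ioi (0:ℝ)) := by
  refine Integrable.mono' ((bet_int hb l).mul_const (1 / x)) (bet_meas b l x).aestronglyMeasurable ?_
  refine (ae_restrict_iff' measurableSet_Ioi).2 (Filter.Eventually.of_forall fun y hy => ?_)
  have hy0 : 0 < y := hy
  have hb0 := bet_nonneg (b := b) hy0
  have h1 : 0 ≤ bet b y * (1 / (1 + y)) ^ l := by positivity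
  rw [Real.norm_of_nonneg (mul_nonneg h1 (by positivity))]
  apply mul_le_mul_of_nonneg_left _ h1
  apply one_div_le_one_div_of_le hx
  linarith

theorem pow_int {c : ℝ} (hc : 0 < c) :
    IntegrableOn (fun y : ℝ => (1 + y) ^ (-c - 1)) (Ioi 0) ∧
    ∫ y in Ioi (0 : ℝ), (1 + y) ^ (-c - 1) = 1 / c := by
  have hd : ∀ y ∈ Ici (0 : ℝ), HasDerivAt (fun y : ℝ => -(1 + y) ^ (-c) / c)
      ((1 + y) ^ (-c - 1)) y := by
    intro y hy
    have hy1 : 0 < 1 + y := by linarith [mem_Ici.1 hy]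
    have h0 : HasDerivAt (fun y : ℝ => 1 + y) 1 y := by
      simpa using (hasDerivAt_id y).const_add 1
    have h1 := (h0.rpow_const (p := -c) (Or.inl hy1.ne')).neg.div_const c
    have e : -(1 * -c * (1 + y) ^ (-c - 1)) / c = (1 + y) ^ (-c - 1) := by
      field_simp
    rw [e] at h1
    exact h1
  have ht : Tendsto (fun y : ℝ => -(1 + y) ^ (-c) / c) atTop (𝓝 (-0 / c)) := by
    have h0 : Tendsto (fun y : ℝ => 1 + y) atTop atTop := tendsto_atTop_add_const_left _ _ tendsto_id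
    exact ((tendsto_rpow_neg_atTop hc).comp h0).neg.div_const _
  have hp : ∀ y ∈ Ioi (0 : ℝ), 0 ≤ (1 + y) ^ (-c - 1) := by
    intro y hy
    have hy1 : 0 < 1 + y := by linarith [mem_Ioi.1 hy]
    positivity
  constructor
  · exact integrableOn_Ioi_deriv_of_nonneg' hd hp ht
  · rw [integral_Ioi_of_hasDerivAt_of_nonneg' hd hp ht]
    simp only [add_zero, Real.one_rpow]
    ring

theorem tl_bounds {b : ℝ} (hb : 0 < b) (J l : ℕ) {x : ℝ} (hx : 0 < x) :
    0 ≤ tl b J l x ∧ tl b J l x ≤ 1 / (b + l + 1 + J) := by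
  have hc : 0 < b + l + 1 + J := by positivity
  obtain ⟨h1, h2⟩ := pow_int hc
  constructor
  · apply setIntegral_nonneg measurableSet_Ioi
    intro y hy
    have hy0 : 0 < y := hy
    have hb0 := bet_nonneg (b := b) hy0
    positivity
  · rw [← h2]
    apply setIntegral_mono_on (tl_int hb (l + J) hx) h1 measurableSet_Ioi
    intro y hy
    have hy0 : 0 < y := hy
    have hy1 : 0 < 1 + y := by linarith
    have e1 : (1 / (1 + y)) ^ (l + J) = (1 + y) ^ (-((l + J : ℕ) : ℝ)) := by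
      rw [Real.rpow_neg hy1.le, Real.rpow_natCast, one_div, inv_pow]
    have e2 : (1 + y) ^ (-(b + l + 1 + J) - 1) = (1 + y) ^ (-b - 2) * (1 + y) ^ (-((l + J : ℕ) : ℝ)) := by
      rw [← Real.rpow_add hy1]
      congr 1
      push_cast
      ring
    have e3 : y * (1 / (x + y)) ≤ 1 := by
      rw [mul_one_div, div_le_one (by linarith)]
      linarith
    rw [e1, e2]
    unfold bet
    have h3 : 0 ≤ (1 + y) ^ (-b - 2) * (1 + y) ^ (-((l + J : ℕ) : ℝ)) := by positivity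
    calc y * (1 + y) ^ (-b - 2) * (1 + y) ^ (-((l + J : ℕ) : ℝ)) * (1 / (x + y))
        = (1 + y) ^ (-b - 2) * (1 + y) ^ (-((l + J : ℕ) : ℝ)) * (y * (1 / (x + y))) := by ring
      _ ≤ (1 + y) ^ (-b - 2) * (1 + y) ^ (-((l + J : ℕ) : ℝ)) * 1 :=
          mul_le_mul_of_nonneg_left e3 h3
      _ = _ := by ring

theorem rl_eq {b : ℝ} (hb : 0 < b) {D J : ℕ} (hJ : D ≤ J) (p : ℕ → ℕ → ℝ) (l : ℕ) {x : ℝ}
    (hx : 0 < x) :
    rl b D p l x = ∑ j ∈ Finset.range J, cJ b D p l j * (1 - x) ^ j + (1 - x) ^ J * tl b J l x := by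
  have e1 : ∀ y ∈ Ioi (0:ℝ), bet b y * (1 / (1 + y)) ^ l * RR D p x y
      = ∑ j ∈ Finset.range J, (1 - x) ^ j * (bet b y * (1 / (1 + y)) ^ (l + 1 + j))
        + (1 - x) ^ J * (bet b y * (1 / (1 + y)) ^ (l + J) * (1 / (x + y)))
        - ∑ n ∈ Finset.range D, ∑ l' ∈ Finset.range D,
            p n l' * (1 - x) ^ n * (bet b y * (1 / (1 + y)) ^ (l + l' + 1)) := by
    intro y hy
    have hy0 : 0 < y := hy
    unfold RR kp
    conv_lhs => rw [kernel_fin hx hy0 J]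
    rw [mul_sub, mul_add, Finset.mul_sum, Finset.mul_sum]
    congr 1
    · congr 1
      · apply Finset.sum_congr rfl
        intro j _
        ring
      · ring
    · apply Finset.sum_congr rfl
      intro n _
      rw [Finset.mul_sum]
      apply Finset.sum_congr rfl
      intro l' _
      ring
  unfold rl
  rw [setIntegral_congr_fun measurableSet_Ioi e1]
  have i1 : ∀ j ∈ Finset.range J, IntegrableOn
      (fun y => (1 - x) ^ j * (bet b y * (1 / (1 + y)) ^ (l + 1 + j))) (Ioi (0:ℝ)) :=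
    fun j _ => (bet_int hb (l + 1 + j)).const_mul _
  have i2 : IntegrableOn
      (fun y => (1 - x) ^ J * (bet b y * (1 / (1 + y)) ^ (l + J) * (1 / (x + y)))) (Ioi (0:ℝ)) :=
    (tl_int hb (l + J) hx).const_mul _
  have i3 : ∀ n ∈ Finset.range D, ∀ l' ∈ Finset.range D, IntegrableOn
      (fun y => p n l' * (1 - x) ^ n * (bet b y * (1 / (1 + y)) ^ (l + l' + 1))) (Ioi (0:ℝ)) :=
    fun n _ l' _ => (bet_int hb (l + l' + 1)).const_mul _
  have i4 : ∀ n ∈ Finset.range D, IntegrableOn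
      (fun y => ∑ l' ∈ Finset.range D,
        p n l' * (1 - x) ^ n * (bet b y * (1 / (1 + y)) ^ (l + l' + 1))) (Ioi (0:ℝ)) :=
    fun n hn => integrable_finsetSum _ (i3 n hn)
  have i5 : IntegrableOn (fun y => ∑ j ∈ Finset.range J,
      (1 - x) ^ j * (bet b y * (1 / (1 + y)) ^ (l + 1 + j))) (Ioi (0:ℝ)) :=
    integrable_finsetSum _ i1
  have i6 : IntegrableOn (fun y => ∑ n ∈ Finset.range D, ∑ l' ∈ Finset.range D,
      p n l' * (1 - x) ^ n * (bet b y * (1 / (1 + y)) ^ (l + l' + 1))) (Ioi (0:ℝ)) :=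
    integrable_finsetSum _ i4
  have i7 : IntegrableOn (fun y => ∑ j ∈ Finset.range J,
      (1 - x) ^ j * (bet b y * (1 / (1 + y)) ^ (l + 1 + j))
      + (1 - x) ^ J * (bet b y * (1 / (1 + y)) ^ (l + J) * (1 / (x + y)))) (Ioi (0:ℝ)) := i5.add i2
  rw [integral_sub i7 i6, integral_add i5 i2, integral_finsetSum _ i1,
    integral_finsetSum _ i4]
  have k1 : ∀ j ∈ Finset.range J, ∫ y in Ioi (0:ℝ),
      (1 - x) ^ j * (bet b y * (1 / (1 + y)) ^ (l + 1 + j))
      = (1 / ((b + l + 1 + j) * (b + l + 2 + j))) * (1 - x) ^ j := by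
    intro j _
    rw [integral_const_mul, mom_bet hb]
    push_cast
    rw [mul_comm]
    congr 2
    ring
  have k2 : ∀ n ∈ Finset.range D, ∫ y in Ioi (0:ℝ), ∑ l' ∈ Finset.range D,
      p n l' * (1 - x) ^ n * (bet b y * (1 / (1 + y)) ^ (l + l' + 1))
      = (∑ l' ∈ Finset.range D, p n l' / ((b + l + l' + 1) * (b + l + l' + 2))) * (1 - x) ^ n := by
    intro n hn
    rw [integral_finsetSum _ (i3 n hn), Finset.sum_mul]
    apply Finset.sum_congr rfl
    intro l' _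
    rw [integral_const_mul, mom_bet hb]
    push_cast
    have e : (b + ((l:ℝ) + l' + 1)) * (b + ((l:ℝ) + l' + 1) + 1)
        = (b + l + l' + 1) * (b + l + l' + 2) := by ring
    rw [e]
    ring
  rw [Finset.sum_congr rfl k1, Finset.sum_congr rfl k2, integral_const_mul]
  have k3 : ∑ n ∈ Finset.range D,
      (∑ l' ∈ Finset.range D, p n l' / ((b + l + l' + 1) * (b + l + l' + 2))) * (1 - x) ^ n
      = ∑ j ∈ Finset.range J, (if j < D then
        ∑ l' ∈ Finset.range D, p j l' / ((b + l + l' + 1) * (b + l + l' + 2)) else 0)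
          * (1 - x) ^ j := by
    rw [← Finset.sum_subset (Finset.range_subset_range.2 hJ)]
    · apply Finset.sum_congr rfl
      intro n hn
      rw [if_pos (Finset.mem_range.1 hn)]
    · intro n _ hn
      rw [if_neg (fun h => hn (Finset.mem_range.2 h)), zero_mul]
  rw [k3]
  unfold cJ tl
  simp only [sub_mul, Finset.sum_sub_distrib]
  ring

theorem sq_add_le {θ : ℝ} (hθ : 0 < θ) (u v : ℂ) :
    ‖u + v‖ ^ 2 ≤ (1 + θ) * ‖u‖ ^ 2 + (1 + 1 / θ) * ‖v‖ ^ 2 := by
  have h1 : ‖u + v‖ ^ 2 ≤ (‖u‖ + ‖v‖) ^ 2 :=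
    pow_le_pow_left₀ (norm_nonneg _) (norm_add_le u v) 2
  have h2 : 0 ≤ (θ * ‖u‖ - ‖v‖) ^ 2 / θ := by positivity
  have h3 : (θ * ‖u‖ - ‖v‖) ^ 2 / θ = θ * ‖u‖ ^ 2 - 2 * ‖u‖ * ‖v‖ + 1 / θ * ‖v‖ ^ 2 := by
    field_simp
    ring
  nlinarith

theorem normSq_sum (J : ℕ) (A : ℕ → ℂ) (X : ℝ) :
    ‖∑ j ∈ Finset.range J, A j * ((X ^ j : ℝ) : ℂ)‖ ^ 2
      = ∑ i ∈ Finset.range J, ∑ j ∈ Finset.range J, X ^ (i + j) * (A i * conj (A j)).re := by
  have h1 : ∀ z : ℂ, ‖z‖ ^ 2 = (z * conj z).re := by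
    intro z
    rw [Complex.mul_conj, Complex.ofReal_re, Complex.normSq_eq_norm_sq]
  rw [h1, map_sum, Finset.sum_mul_sum, Complex.re_sum]
  apply Finset.sum_congr rfl
  intro i _
  rw [Complex.re_sum]
  apply Finset.sum_congr rfl
  intro j _
  rw [map_mul, Complex.conj_ofReal]
  have e : A i * ((X ^ i : ℝ) : ℂ) * (conj (A j) * ((X ^ j : ℝ) : ℂ))
      = ((X ^ (i + j) : ℝ) : ℂ) * (A i * conj (A j)) := by
    push_cast
    ring
  rw [e, Complex.re_ofReal_mul]

end ND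

theorem Ncross_le {s : ℂ} (hs : -1 < s.re) {b : ℝ} (hb : 0 < b) (hσ : 0 < b + 1 - 2 * s.re)
    {D J : ℕ} (hJ : D ≤ J) (p : ℕ → ℕ → ℝ) (F : ℕ → ℂ) {θ : ℝ} (hθ : 0 < θ) :
    Ncross s b D p F ≤ (1 + θ) * ∑ i ∈ Finset.range J, ∑ j ∈ Finset.range J, Gm s b (i + j)
        * ((∑ l ∈ Finset.range (D + 1), F l * (cJ b D p l i : ℂ))
          * conj (∑ l ∈ Finset.range (D + 1), F l * (cJ b D p l j : ℂ))).re
      + (1 + 1 / θ) * Gm s b (2 * J)
        * (∑ l ∈ Finset.range (D + 1), ‖F l‖ / (b + l + 1 + J)) ^ 2 := by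
  set A : ℕ → ℂ := fun i => ∑ l ∈ Finset.range (D + 1), F l * (cJ b D p l i : ℂ) with hA
  set τ : ℝ := ∑ l ∈ Finset.range (D + 1), ‖F l‖ / (b + l + 1 + J) with hτ
  have hτ0 : 0 ≤ τ := Finset.sum_nonneg fun l _ => by positivity
  -- the majorant
  set g : ℝ → ℝ := fun x => (1 + θ) * ∑ i ∈ Finset.range J, ∑ j ∈ Finset.range J,
      (A i * conj (A j)).re * (alp s b x * (1 - x) ^ (i + j))
      + (1 + 1 / θ) * τ ^ 2 * (alp s b x * (1 - x) ^ (2 * J)) with hg
  have i1 : ∀ i ∈ Finset.range J, ∀ j ∈ Finset.range J, IntegrableOn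
      (fun x => (A i * conj (A j)).re * (alp s b x * (1 - x) ^ (i + j))) (Ioo (0:ℝ) 1) :=
    fun i _ j _ => (ND.alp_int hs hb hσ (i + j)).const_mul _
  have i2 : ∀ i ∈ Finset.range J, IntegrableOn (fun x => ∑ j ∈ Finset.range J,
      (A i * conj (A j)).re * (alp s b x * (1 - x) ^ (i + j))) (Ioo (0:ℝ) 1) :=
    fun i hi => integrable_finsetSum _ (i1 i hi)
  have i3 : IntegrableOn (fun x => (1 + θ) * ∑ i ∈ Finset.range J, ∑ j ∈ Finset.range J,
      (A i * conj (A j)).re * (alp s b x * (1 - x) ^ (i + j))) (Ioo (0:ℝ) 1) :=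
    (integrable_finsetSum _ i2).const_mul _
  have i4 : IntegrableOn (fun x => (1 + 1 / θ) * τ ^ 2 * (alp s b x * (1 - x) ^ (2 * J)))
      (Ioo (0:ℝ) 1) := (ND.alp_int hs hb hσ (2 * J)).const_mul _
  have hgi : IntegrableOn g (Ioo (0:ℝ) 1) := i3.add i4
  have hB := (B0_pos hs hσ).1
  have hgv : (1 / B0 s b) * ∫ x in Ioo (0:ℝ) 1, g x
      = (1 + θ) * ∑ i ∈ Finset.range J, ∑ j ∈ Finset.range J, Gm s b (i + j)
        * (A i * conj (A j)).re + (1 + 1 / θ) * Gm s b (2 * J) * τ ^ 2 := by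
    rw [hg, integral_add i3 i4, integral_const_mul, integral_const_mul, integral_finsetSum _ i2,
      ND.alp_mom hs hσ]
    have k1 : ∀ i ∈ Finset.range J, ∫ x in Ioo (0:ℝ) 1, ∑ j ∈ Finset.range J,
        (A i * conj (A j)).re * (alp s b x * (1 - x) ^ (i + j))
        = B0 s b * ∑ j ∈ Finset.range J, Gm s b (i + j) * (A i * conj (A j)).re := by
      intro i hi
      rw [integral_finsetSum _ (i1 i hi), Finset.mul_sum]
      apply Finset.sum_congr rfl
      intro j _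
      rw [integral_const_mul, ND.alp_mom hs hσ]
      ring
    rw [Finset.sum_congr rfl k1, ← Finset.mul_sum]
    field_simp
  rw [← hgv]
  unfold Ncross
  apply mul_le_mul_of_nonneg_left _ (by positivity)
  apply integral_mono_of_nonneg
  · refine (ae_restrict_iff' measurableSet_Ioo).2 (Filter.Eventually.of_forall fun x hx => ?_)
    exact mul_nonneg (ND.alp_nonneg hx) (by positivity)
  · exact hgi
  refine (ae_restrict_iff' measurableSet_Ioo).2 (Filter.Eventually.of_forall fun x hx => ?_)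
  have hx0 : 0 < x := hx.1
  have hX0 : 0 ≤ 1 - x := by linarith [hx.2]
  have hal := ND.alp_nonneg (s := s) (b := b) hx
  set T : ℂ := ∑ l ∈ Finset.range (D + 1), F l * ((ND.tl b J l x : ℝ) : ℂ) with hT
  have e1 : ∑ l ∈ Finset.range (D + 1), F l * (rl b D p l x : ℂ)
      = (∑ j ∈ Finset.range J, A j * (((1 - x) ^ j : ℝ) : ℂ)) + (((1 - x) ^ J : ℝ) : ℂ) * T := by
    have e2 : ∀ l ∈ Finset.range (D + 1), F l * (rl b D p l x : ℂ)
        = (∑ j ∈ Finset.range J, F l * (cJ b D p l j : ℂ) * (((1 - x) ^ j : ℝ) : ℂ))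
          + (((1 - x) ^ J : ℝ) : ℂ) * (F l * ((ND.tl b J l x : ℝ) : ℂ)) := by
      intro l _
      rw [ND.rl_eq hb hJ p l hx0, Complex.ofReal_add, mul_add]
      congr 1
      · rw [Complex.ofReal_sum, Finset.mul_sum]
        apply Finset.sum_congr rfl
        intro j _
        rw [Complex.ofReal_mul]
        ring
      · rw [Complex.ofReal_mul]
        ring
    rw [Finset.sum_congr rfl e2, Finset.sum_add_distrib, Finset.sum_comm, ← Finset.mul_sum]
    congr 1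
    apply Finset.sum_congr rfl
    intro j _
    rw [hA]
    simp only
    rw [Finset.sum_mul]
  have hTn : ‖T‖ ≤ τ := by
    rw [hT, hτ]
    refine (norm_sum_le _ _).trans (Finset.sum_le_sum fun l _ => ?_)
    obtain ⟨h1, h2⟩ := ND.tl_bounds hb J l hx0
    rw [norm_mul, Complex.norm_real, Real.norm_of_nonneg h1, div_eq_mul_one_div]
    exact mul_le_mul_of_nonneg_left h2 (norm_nonneg _)
  have e3 : ‖(((1 - x) ^ J : ℝ) : ℂ) * T‖ ^ 2 ≤ (1 - x) ^ (2 * J) * τ ^ 2 := by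
    rw [norm_mul, Complex.norm_real, Real.norm_of_nonneg (by positivity), mul_pow, ← pow_mul,
      mul_comm J 2]
    apply mul_le_mul_of_nonneg_left _ (by positivity)
    exact pow_le_pow_left₀ (norm_nonneg _) hTn 2
  have e4 := ND.sq_add_le hθ (∑ j ∈ Finset.range J, A j * (((1 - x) ^ j : ℝ) : ℂ))
    ((((1 - x) ^ J : ℝ) : ℂ) * T)
  rw [ND.normSq_sum] at e4
  show alp s b x * ‖∑ l ∈ Finset.range (D + 1), F l * (rl b D p l x : ℂ)‖ ^ 2 ≤ g x
  rw [e1]
  have h5 : (0:ℝ) ≤ 1 + 1 / θ := by positivity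
  calc alp s b x * ‖(∑ j ∈ Finset.range J, A j * (((1 - x) ^ j : ℝ) : ℂ))
        + (((1 - x) ^ J : ℝ) : ℂ) * T‖ ^ 2
      ≤ alp s b x * ((1 + θ) * ∑ i ∈ Finset.range J, ∑ j ∈ Finset.range J,
          (1 - x) ^ (i + j) * (A i * conj (A j)).re + (1 + 1 / θ) * ((1 - x) ^ (2 * J) * τ ^ 2)) :=
        mul_le_mul_of_nonneg_left (e4.trans (by gcongr)) hal
    _ = g x := by
        rw [hg]
        simp only [Finset.mul_sum, mul_add]
        congr 1
        · apply Finset.sum_congr rfl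
          intro i _
          apply Finset.sum_congr rfl
          intro j _
          ring
        · ring

end Pool.Agent.Helper24.HR2
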