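import Mathlib
import Pool.Agent.Helper24.HR2.Defs2
import Pool.Agent.Helper24.HR2.NumA
import Pool.Agent.Helper24.HR2.NumB
import Pool.Agent.Helper24.HR2.NumC

/-!
MP_16b0ee, project HR2, stage 3, module T4: the Gram matrix of the remainder on the powers.
-/

set_option autoImplicit false

open MeasureTheory Set Metric Filter Topology
open scoped Real ComplexConjugate

namespace Pool.Agent.Helper24.HR2

open Pool.Agent.Helper22.Half

namespace NM

open NC

theorem Gm_step (s : ℂ) (b : ℝ) (n : ℕ) :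
    Gm s b (n + 1) = Gm s b n * ((2 * s.re + 2 + n) / (b + 3 + n)) := by
  unfold Gm
  rw [Finset.prod_range_succ]

theorem Gm_le_one {s : ℂ} (hs : -1 < s.re) {b : ℝ} (hb : 0 < b) (hσ : 0 < b + 1 - 2 * s.re)
    (n : ℕ) : Gm s b n ≤ 1 := by
  induction n with
  | zero => simp [Gm]
  | succ n ih =>
    have h0 : (0:ℝ) ≤ n := Nat.cast_nonneg n
    have h2 : (2 * s.re + 2 + n) / (b + 3 + n) ≤ 1 := by
      rw [div_le_one (by linarith)]
      linarith
    have h3 : 0 ≤ (2 * s.re + 2 + n) / (b + 3 + n) := by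
      apply div_nonneg <;> linarith
    rw [Gm_step]
    calc Gm s b n * ((2 * s.re + 2 + n) / (b + 3 + n)) ≤ 1 * 1 :=
          mul_le_mul ih h2 h3 zero_le_one
      _ = 1 := one_mul 1

theorem CN_nonneg {s : ℂ} (hs : -1 < s.re) {b : ℝ} (hb : 0 < b) (n k N : ℕ) :
    0 ≤ CN s b n k N :=
  Finset.sum_nonneg fun _ _ => mul_nonneg (Gm_pos hs hb _).le (Gm_pos hs hb _).le

theorem CN_symm {s : ℂ} {b : ℝ} (n k N : ℕ) : CN s b n k N = CN s b k n N := by
  unfold CN
  rw [← Finset.sum_range_reflect]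
  refine Finset.sum_congr rfl fun j hj => ?_
  have hj' : j < N + 1 := Finset.mem_range.1 hj
  have e1 : N + 1 - 1 - j = N - j := by omega
  have e2 : N - (N + 1 - 1 - j) = j := by omega
  rw [e2, e1, mul_comm]

/-- functions with a computed weighted integral -/
structure GG (w : ℝ → ℝ) (S : Set ℝ) (f : ℝ → ℝ) (v : ℝ) : Prop where
  int : IntegrableOn (fun x => w x * f x) S
  val : ∫ x in S, w x * f x = v

theorem GG.add {w : ℝ → ℝ} {S : Set ℝ} {f g : ℝ → ℝ} {u v : ℝ} (hf : GG w S f u)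
    (hg : GG w S g v) : GG w S (fun x => f x + g x) (u + v) := by
  have h1 : (fun x => w x * (f x + g x)) = fun x => w x * f x + w x * g x := by
    ext x
    ring
  refine ⟨?_, ?_⟩
  · rw [h1]
    exact hf.int.add hg.int
  · rw [h1, integral_add hf.int hg.int, hf.val, hg.val]

theorem GG.smul {w : ℝ → ℝ} {S : Set ℝ} {f : ℝ → ℝ} {v : ℝ} (c : ℝ) (hf : GG w S f v) :
    GG w S (fun x => c * f x) (c * v) := by
  have h1 : (fun x => w x * (c * f x)) = fun x => c * (w x * f x) := by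
    ext x
    ring
  refine ⟨?_, ?_⟩
  · rw [h1]
    exact hf.int.const_mul c
  · rw [h1, integral_const_mul, hf.val]

theorem GG.zero (w : ℝ → ℝ) (S : Set ℝ) : GG w S (fun _ => 0) 0 := by
  refine ⟨?_, ?_⟩
  · simp
  · simp

theorem GG.sum {w : ℝ → ℝ} {S : Set ℝ} {ι : Type} (T : Finset ι) {f : ι → ℝ → ℝ} {v : ι → ℝ}
    (h : ∀ i ∈ T, GG w S (f i) (v i)) :
    GG w S (fun x => ∑ i ∈ T, f i x) (∑ i ∈ T, v i) := by
  classical
  induction T using Finset.induction_on with
  | empty => simpa using GG.zero w S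
  | insert a T ha ih =>
    have h1 := (h a (Finset.mem_insert_self a T)).add
      (ih fun i hi => h i (Finset.mem_insert_of_mem hi))
    simp only [Finset.sum_insert ha]
    exact h1

theorem GG.congr {w : ℝ → ℝ} {S : Set ℝ} (hS : MeasurableSet S) {f g : ℝ → ℝ} {u v : ℝ}
    (hf : GG w S f u) (h : ∀ x ∈ S, g x = f x) (hv : v = u) : GG w S g v := by
  have h1 : EqOn (fun x => w x * g x) (fun x => w x * f x) S := by
    intro x hx
    simp only
    rw [h x hx]
  refine ⟨(integrableOn_congr_fun h1 hS).mpr hf.int, ?_⟩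
  rw [setIntegral_congr_fun hS h1, hf.val, hv]

/-- the moment generating function of the density `alp`, tested on `X^n` -/
noncomputable def Sn (s : ℂ) (b : ℝ) (n : ℕ) (y : ℝ) : ℝ :=
  ∑' j : ℕ, Gm s b (n + j) * (1 / (1 + y)) ^ (j + 1)

theorem Y_bd {y : ℝ} (hy : y ∈ Ioi (0:ℝ)) : 0 < 1 / (1 + y) ∧ 1 / (1 + y) < 1 := by
  have hy0 : 0 < y := hy
  refine ⟨by positivity, ?_⟩
  rw [div_lt_one (by linarith)]
  linarith

theorem Sn_summable {s : ℂ} (hs : -1 < s.re) {b : ℝ} (hb : 0 < b)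
    (hσ : 0 < b + 1 - 2 * s.re) (n : ℕ) {y : ℝ} (hy : y ∈ Ioi (0:ℝ)) :
    Summable (fun j : ℕ => Gm s b (n + j) * (1 / (1 + y)) ^ (j + 1)) := by
  obtain ⟨h0, h1⟩ := Y_bd hy
  refine Summable.of_nonneg_of_le
    (fun j => mul_nonneg (Gm_pos hs hb _).le (pow_nonneg h0.le _)) (fun j => ?_)
    ((summable_geometric_of_lt_one h0.le h1).mul_right (1 / (1 + y)))
  rw [pow_succ]
  have h2 := Gm_le_one hs hb hσ (n + j)
  calc Gm s b (n + j) * ((1 / (1 + y)) ^ j * (1 / (1 + y)))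
      ≤ 1 * ((1 / (1 + y)) ^ j * (1 / (1 + y))) :=
        mul_le_mul_of_nonneg_right h2 (by positivity)
    _ = (1 / (1 + y)) ^ j * (1 / (1 + y)) := one_mul _

theorem gx_mono {s : ℂ} (hs : -1 < s.re) {b : ℝ} (hb : 0 < b) (hσ : 0 < b + 1 - 2 * s.re)
    (n : ℕ) : GG (alp s b) (Ioo (0:ℝ) 1) (fun x => (1 - x) ^ n) (B0 s b * Gm s b n) :=
  ⟨alp_int hs hb hσ n, alp_mom hs hσ n⟩

theorem gx_ker {s : ℂ} (hs : -1 < s.re) {b : ℝ} (hb : 0 < b) (hσ : 0 < b + 1 - 2 * s.re)
    (n : ℕ) {y : ℝ} (hy : y ∈ Ioi (0:ℝ)) :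
    GG (alp s b) (Ioo (0:ℝ) 1) (fun x => (1 - x) ^ n * (1 / (x + y)))
      (B0 s b * Sn s b n y) := by
  obtain ⟨h0, h1⟩ := Y_bd hy
  have hB := (B0_pos hs hσ).1
  have h := int_tsum (S := Ioo (0:ℝ) 1) measurableSet_Ioo
    (fun j x => (1 / (1 + y)) ^ (j + 1) * (alp s b x * (1 - x) ^ (n + j)))
    (fun x => alp s b x * ((1 - x) ^ n * (1 / (x + y))))
    (fun j => (1 / (1 + y)) ^ (j + 1) * (B0 s b * Gm s b (n + j)))
    (fun j => (alp_int hs hb hσ (n + j)).const_mul _)
    (fun j x hx => by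
      have h2 : 0 ≤ 1 - x := by linarith [hx.2]
      exact mul_nonneg (pow_nonneg h0.le _) (mul_nonneg (alp_nonneg hx) (pow_nonneg h2 _)))
    (fun j => by rw [integral_const_mul, alp_mom hs hσ])
    (by
      refine ((Sn_summable hs hb hσ n hy).mul_left (B0 s b)).congr fun j => ?_
      ring)
    (fun x hx => by
      have e : alp s b x * (1 - x) ^ n * (1 / (x + y))
          = alp s b x * ((1 - x) ^ n * (1 / (x + y))) := mul_assoc _ _ _
      have h3 := (kernel_one hx hy).mul_left (alp s b x * (1 - x) ^ n)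
      rw [e] at h3
      refine hasSum_of_eq h3 fun j => ?_
      rw [pow_add]
      ring)
    (mul_pos (pow_pos h0 _) (mul_pos hB (Gm_pos hs hb _)))
  refine ⟨h.1, ?_⟩
  rw [h.2]
  unfold Sn
  rw [← tsum_mul_left]
  refine tsum_congr fun j => ?_
  ring

theorem ryn_eq {s : ℂ} (hs : -1 < s.re) {b : ℝ} (hb : 0 < b) (hσ : 0 < b + 1 - 2 * s.re)
    (D : ℕ) (p : ℕ → ℕ → ℝ) (n : ℕ) {y : ℝ} (hy : y ∈ Ioi (0:ℝ)) :
    ryn s b D p n y = Sn s b n y
      - ∑ l ∈ Finset.range D, pil s b D p n l * (1 / (1 + y)) ^ (l + 1) := by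
  have h1 := gx_ker hs hb hσ n hy
  have h2 : GG (alp s b) (Ioo (0:ℝ) 1) (fun x => ∑ n' ∈ Finset.range D,
      ∑ l ∈ Finset.range D, (p n' l * (1 / (1 + y)) ^ (l + 1)) * (1 - x) ^ (n + n'))
      (∑ n' ∈ Finset.range D, ∑ l ∈ Finset.range D,
        (p n' l * (1 / (1 + y)) ^ (l + 1)) * (B0 s b * Gm s b (n + n'))) :=
    GG.sum _ fun n' _ => GG.sum _ fun l _ => (gx_mono hs hb hσ (n + n')).smul _
  have h3 : GG (alp s b) (Ioo (0:ℝ) 1) (fun x => (1 - x) ^ n * RR D p x y)
      (B0 s b * Sn s b n y + (-1) * (∑ n' ∈ Finset.range D, ∑ l ∈ Finset.range D,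
        (p n' l * (1 / (1 + y)) ^ (l + 1)) * (B0 s b * Gm s b (n + n')))) := by
    refine (h1.add (h2.smul (-1))).congr measurableSet_Ioo (fun x _ => ?_) rfl
    have e1 : (1 - x) ^ n * kp D p (1 - x) (1 / (1 + y)) = ∑ n' ∈ Finset.range D,
        ∑ l ∈ Finset.range D, (p n' l * (1 / (1 + y)) ^ (l + 1)) * (1 - x) ^ (n + n') := by
      unfold kp
      rw [Finset.mul_sum]
      refine Finset.sum_congr rfl fun n' _ => ?_
      rw [Finset.mul_sum]
      refine Finset.sum_congr rfl fun l _ => ?_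
      rw [pow_add]
      ring
    rw [← e1]
    unfold RR
    ring
  have hB := (B0_pos hs hσ).1
  have e2 : ryn s b D p n y = (1 / B0 s b) * ∫ x in Ioo (0 : ℝ) 1,
      alp s b x * ((1 - x) ^ n * RR D p x y) := by
    unfold ryn
    congr 2
    ext x
    exact mul_assoc _ _ _
  rw [e2, h3.val]
  have e3 : ∑ n' ∈ Finset.range D, ∑ l ∈ Finset.range D,
      (p n' l * (1 / (1 + y)) ^ (l + 1)) * (B0 s b * Gm s b (n + n'))
      = B0 s b * ∑ l ∈ Finset.range D, pil s b D p n l * (1 / (1 + y)) ^ (l + 1) := by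
    rw [Finset.sum_comm, Finset.mul_sum]
    refine Finset.sum_congr rfl fun l _ => ?_
    unfold pil
    rw [Finset.sum_mul, Finset.mul_sum]
    refine Finset.sum_congr rfl fun n' _ => ?_
    ring
  rw [e3]
  field_simp
  ring

theorem gy_mono {b : ℝ} (hb : 0 < b) (l : ℕ) :
    GG (bet b) (Ioi (0:ℝ)) (fun y => (1 / (1 + y)) ^ l) (1 / ((b + l) * (b + l + 1))) :=
  ⟨bet_int hb l, mom_bet hb l⟩

theorem gy_one {s : ℂ} (hs : -1 < s.re) {b : ℝ} (hb : 0 < b) (hσ : 0 < b + 1 - 2 * s.re)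
    (n l : ℕ) : GG (bet b) (Ioi (0:ℝ)) (fun y => Sn s b n y * (1 / (1 + y)) ^ (l + 1))
      (SS s b n (l + 1) - SS s b n (l + 2)) := by
  have hs1 := SS_summable hs hb hσ n (l + 1)
  have hs2 := SS_summable hs hb hσ n (l + 2)
  have hcj : ∀ j : ℕ, Gm s b (n + j)
      * (1 / ((b + ((j + l + 2 : ℕ) : ℝ)) * (b + ((j + l + 2 : ℕ) : ℝ) + 1)))
      = Gm s b (n + j) / (b + 1 + j + (l + 1 : ℕ)) - Gm s b (n + j)
        / (b + 1 + j + (l + 2 : ℕ)) := by
    intro j
    have h1 : 0 < b + 1 + j + (l + 1 : ℕ) := by positivity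
    have h2 : 0 < b + 1 + j + (l + 2 : ℕ) := by positivity
    have h3 : 0 < b + ((j + l + 2 : ℕ) : ℝ) := by positivity
    push_cast at *
    field_simp
    ring
  have h := int_tsum (S := Ioi (0:ℝ)) measurableSet_Ioi
    (fun j y => Gm s b (n + j) * (bet b y * (1 / (1 + y)) ^ (j + l + 2)))
    (fun y => bet b y * (Sn s b n y * (1 / (1 + y)) ^ (l + 1)))
    (fun j => Gm s b (n + j)
      * (1 / ((b + ((j + l + 2 : ℕ) : ℝ)) * (b + ((j + l + 2 : ℕ) : ℝ) + 1))))
    (fun j => (bet_int hb (j + l + 2)).const_mul _)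
    (fun j y hy => mul_nonneg (Gm_pos hs hb _).le
      (mul_nonneg (bet_nonneg hy) (pow_nonneg (Y_bd hy).1.le _)))
    (fun j => by rw [integral_const_mul, mom_bet hb])
    ((hs1.sub hs2).congr fun j => (hcj j).symm)
    (fun y hy => by
      have h1 := ((Sn_summable hs hb hσ n hy).hasSum.mul_right
        ((1 / (1 + y)) ^ (l + 1))).mul_left (bet b y)
      refine hasSum_of_eq h1 fun j => ?_
      ring)
    (mul_pos (Gm_pos hs hb _) (by positivity))
  refine ⟨h.1, ?_⟩
  rw [h.2, tsum_congr hcj, hs1.tsum_sub hs2]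
  rfl

end NM

open NC NM

theorem MM_summable {s : ℂ} (hs : -1 < s.re) {b : ℝ} (hb : 0 < b) (hσ : 0 < b + 1 - 2 * s.re)
    (n k : ℕ) : Summable (fun N : ℕ => CN s b n k N / ((b + N + 2) * (b + N + 3))) := by
  have hf : ∀ n : ℕ, Summable (fun j : ℕ => Gm s b (n + j) / ((j:ℝ) + 1)) := by
    intro n
    refine Summable.of_nonneg_of_le
      (fun j => div_nonneg (Gm_pos hs hb _).le (by positivity)) (fun j => ?_)
      ((SS_summable hs hb hσ n 0).mul_left (b + 1))
    have h0 : (0:ℝ) ≤ j := Nat.cast_nonneg j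
    have h1 := mul_nonneg (Gm_pos hs hb (n + j)).le (mul_nonneg hb.le h0)
    rw [← mul_div_assoc, div_le_div_iff₀ (by positivity) (by positivity)]
    have e : (b + 1) * Gm s b (n + j) * ((j:ℝ) + 1)
        - Gm s b (n + j) * (b + 1 + j + ((0:ℕ) : ℝ)) = Gm s b (n + j) * (b * j) := by
      rw [Nat.cast_zero]
      ring
    linarith
  have hfg := summable_norm_sum_mul_range_of_summable_norm (hf n).norm (hf k).norm
  refine Summable.of_nonneg_of_le
    (fun N => div_nonneg (CN_nonneg hs hb n k N) (by positivity)) (fun N => ?_) hfg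
  refine le_trans ?_ (Real.le_norm_self _)
  unfold CN
  rw [Finset.sum_div]
  refine Finset.sum_le_sum fun j hj => ?_
  have hj' : j ≤ N := by
    have := Finset.mem_range.1 hj
    omega
  obtain ⟨i, rfl⟩ := Nat.exists_eq_add_of_le hj'
  rw [Nat.add_sub_cancel_left, div_mul_div_comm]
  have hG : 0 ≤ Gm s b (n + j) * Gm s b (k + i) :=
    mul_nonneg (Gm_pos hs hb _).le (Gm_pos hs hb _).le
  have hi0 : (0:ℝ) ≤ i := Nat.cast_nonneg i
  have hj0 : (0:ℝ) ≤ j := Nat.cast_nonneg j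
  refine div_le_div_of_nonneg_left hG (by positivity) ?_
  push_cast
  exact mul_le_mul (by linarith) (by linarith) (by positivity) (by positivity)

theorem MM_symm {s : ℂ} {b : ℝ} (n k : ℕ) : MM s b n k = MM s b k n := by
  unfold MM
  refine tsum_congr fun N => ?_
  rw [CN_symm]

theorem NM.gy_two {s : ℂ} (hs : -1 < s.re) {b : ℝ} (hb : 0 < b) (hσ : 0 < b + 1 - 2 * s.re)
    (n k : ℕ) : GG (bet b) (Ioi (0:ℝ)) (fun y => Sn s b n y * Sn s b k y)
      (MM s b n k) := by
  have hcj : ∀ N : ℕ, CN s b n k N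
      * (1 / ((b + ((N + 2 : ℕ) : ℝ)) * (b + ((N + 2 : ℕ) : ℝ) + 1)))
      = CN s b n k N / ((b + N + 2) * (b + N + 3)) := by
    intro N
    have e : (b + ((N + 2 : ℕ) : ℝ)) * (b + ((N + 2 : ℕ) : ℝ) + 1)
        = (b + N + 2) * (b + N + 3) := by
      push_cast
      ring
    rw [e, mul_one_div]
  have h := int_tsum (S := Ioi (0:ℝ)) measurableSet_Ioi
    (fun N y => CN s b n k N * (bet b y * (1 / (1 + y)) ^ (N + 2)))
    (fun y => bet b y * (Sn s b n y * Sn s b k y))
    (fun N => CN s b n k N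
      * (1 / ((b + ((N + 2 : ℕ) : ℝ)) * (b + ((N + 2 : ℕ) : ℝ) + 1))))
    (fun N => (bet_int hb (N + 2)).const_mul _)
    (fun N y hy => mul_nonneg (CN_nonneg hs hb n k N)
      (mul_nonneg (bet_nonneg hy) (pow_nonneg (Y_bd hy).1.le _)))
    (fun N => by rw [integral_const_mul, mom_bet hb])
    ((MM_summable hs hb hσ n k).congr fun N => (hcj N).symm)
    (fun y hy => by
      have h1 := Sn_summable hs hb hσ n hy
      have h2 := Sn_summable hs hb hσ k hy
      have h3 := tsum_mul_tsum_eq_tsum_sum_range_of_summable_norm h1.norm h2.norm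
      have h4 := (summable_norm_sum_mul_range_of_summable_norm h1.norm h2.norm).of_norm.hasSum
      rw [← h3] at h4
      refine hasSum_of_eq (h4.mul_left (bet b y)) fun N => ?_
      have h5 : ∑ j ∈ Finset.range (N + 1), Gm s b (n + j) * (1 / (1 + y)) ^ (j + 1)
          * (Gm s b (k + (N - j)) * (1 / (1 + y)) ^ (N - j + 1))
          = CN s b n k N * (1 / (1 + y)) ^ (N + 2) := by
        unfold CN
        rw [Finset.sum_mul]
        refine Finset.sum_congr rfl fun j hj => ?_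
        have hj' : j ≤ N := by
          have := Finset.mem_range.1 hj
          omega
        obtain ⟨i, rfl⟩ := Nat.exists_eq_add_of_le hj'
        rw [Nat.add_sub_cancel_left]
        ring
      rw [h5]
      ring)
    (by
      have h1 : 0 < CN s b n k 0 := by
        unfold CN
        rw [zero_add, Finset.sum_range_one]
        exact mul_pos (Gm_pos hs hb _) (Gm_pos hs hb _)
      positivity)
  refine ⟨h.1, ?_⟩
  rw [h.2, tsum_congr hcj]
  rfl

theorem MR_eq {s : ℂ} (hs : -1 < s.re) {b : ℝ} (hb : 0 < b) (hσ : 0 < b + 1 - 2 * s.re)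
    (D : ℕ) (p : ℕ → ℕ → ℝ) (n k : ℕ) : MR s b D p n k = MM s b n k
      - ∑ l ∈ Finset.range D, pil s b D p k l * (SS s b n (l + 1) - SS s b n (l + 2))
      - ∑ l ∈ Finset.range D, pil s b D p n l * (SS s b k (l + 1) - SS s b k (l + 2))
      + ∑ l ∈ Finset.range D, ∑ l' ∈ Finset.range D, pil s b D p n l * pil s b D p k l'
          / ((b + l + l' + 2) * (b + l + l' + 3)) := by
  have h1 := gy_two hs hb hσ n k
  have h2 : GG (bet b) (Ioi (0:ℝ)) (fun y => ∑ l ∈ Finset.range D,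
      pil s b D p k l * (Sn s b n y * (1 / (1 + y)) ^ (l + 1)))
      (∑ l ∈ Finset.range D, pil s b D p k l * (SS s b n (l + 1) - SS s b n (l + 2))) :=
    GG.sum _ fun l _ => (gy_one hs hb hσ n l).smul _
  have h3 : GG (bet b) (Ioi (0:ℝ)) (fun y => ∑ l ∈ Finset.range D,
      pil s b D p n l * (Sn s b k y * (1 / (1 + y)) ^ (l + 1)))
      (∑ l ∈ Finset.range D, pil s b D p n l * (SS s b k (l + 1) - SS s b k (l + 2))) :=
    GG.sum _ fun l _ => (gy_one hs hb hσ k l).smul _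
  have h4 : GG (bet b) (Ioi (0:ℝ)) (fun y => ∑ l ∈ Finset.range D, ∑ l' ∈ Finset.range D,
      (pil s b D p n l * pil s b D p k l') * (1 / (1 + y)) ^ (l + l' + 2))
      (∑ l ∈ Finset.range D, ∑ l' ∈ Finset.range D, (pil s b D p n l * pil s b D p k l')
        * (1 / ((b + ((l + l' + 2 : ℕ) : ℝ)) * (b + ((l + l' + 2 : ℕ) : ℝ) + 1)))) :=
    GG.sum _ fun l _ => GG.sum _ fun l' _ => (gy_mono hb (l + l' + 2)).smul _
  have h5 : GG (bet b) (Ioi (0:ℝ)) (fun y => ryn s b D p n y * ryn s b D p k y)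
      (MM s b n k
      - ∑ l ∈ Finset.range D, pil s b D p k l * (SS s b n (l + 1) - SS s b n (l + 2))
      - ∑ l ∈ Finset.range D, pil s b D p n l * (SS s b k (l + 1) - SS s b k (l + 2))
      + ∑ l ∈ Finset.range D, ∑ l' ∈ Finset.range D, pil s b D p n l * pil s b D p k l'
          / ((b + l + l' + 2) * (b + l + l' + 3))) := by
    refine (((h1.add (h2.smul (-1))).add (h3.smul (-1))).add h4).congr measurableSet_Ioi
      (fun y hy => ?_) ?_
    · rw [ryn_eq hs hb hσ D p n hy, ryn_eq hs hb hσ D p k hy]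
      have e2 : ∑ l ∈ Finset.range D, pil s b D p k l * (Sn s b n y * (1 / (1 + y)) ^ (l + 1))
          = Sn s b n y * ∑ l ∈ Finset.range D, pil s b D p k l * (1 / (1 + y)) ^ (l + 1) := by
        rw [Finset.mul_sum]
        refine Finset.sum_congr rfl fun l _ => ?_
        ring
      have e3 : ∑ l ∈ Finset.range D, pil s b D p n l * (Sn s b k y * (1 / (1 + y)) ^ (l + 1))
          = Sn s b k y * ∑ l ∈ Finset.range D, pil s b D p n l * (1 / (1 + y)) ^ (l + 1) := by
        rw [Finset.mul_sum]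
        refine Finset.sum_congr rfl fun l _ => ?_
        ring
      have e4 : ∑ l ∈ Finset.range D, ∑ l' ∈ Finset.range D,
          (pil s b D p n l * pil s b D p k l') * (1 / (1 + y)) ^ (l + l' + 2)
          = (∑ l ∈ Finset.range D, pil s b D p n l * (1 / (1 + y)) ^ (l + 1))
            * ∑ l ∈ Finset.range D, pil s b D p k l * (1 / (1 + y)) ^ (l + 1) := by
        rw [Finset.sum_mul]
        refine Finset.sum_congr rfl fun l _ => ?_
        rw [Finset.mul_sum]
        refine Finset.sum_congr rfl fun l' _ => ?_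
        ring
      rw [e2, e3, e4]
      ring
    · have e5 : ∑ l ∈ Finset.range D, ∑ l' ∈ Finset.range D, pil s b D p n l * pil s b D p k l'
          / ((b + l + l' + 2) * (b + l + l' + 3))
          = ∑ l ∈ Finset.range D, ∑ l' ∈ Finset.range D, (pil s b D p n l * pil s b D p k l')
        * (1 / ((b + ((l + l' + 2 : ℕ) : ℝ)) * (b + ((l + l' + 2 : ℕ) : ℝ) + 1))) := by
        refine Finset.sum_congr rfl fun l _ => Finset.sum_congr rfl fun l' _ => ?_
        have e6 : (b + ((l + l' + 2 : ℕ) : ℝ)) * (b + ((l + l' + 2 : ℕ) : ℝ) + 1)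
            = (b + l + l' + 2) * (b + l + l' + 3) := by
          push_cast
          ring
        rw [e6, mul_one_div]
      rw [e5]
      ring
  rw [← h5.val]
  unfold MR
  congr 1
  ext y
  exact mul_assoc _ _ _

end Pool.Agent.Helper24.HR2
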