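import Mathlib
import Pool.Agent.Helper24.HR2.Defs2
import Pool.Agent.Helper24.HR2.NumB

/-!
MP_16b0ee, project HR2, section T5: recursions and enclosures for the Gram matrix `MM`.
-/

set_option autoImplicit false

open MeasureTheory Set Metric Filter Topology
open scoped Real ComplexConjugate

namespace Pool.Agent.Helper24.HR2

open Pool.Agent.Helper22.Half

namespace NM

open NB

variable {s : ℂ} {b : ℝ}

/-- the recursion of the moments without division -/
theorem Gm_mul (hb : 0 < b) (n : ℕ) :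
    (b + 3 + n) * Gm s b (n + 1) = (2 * s.re + 2 + n) * Gm s b n := by
  have hn : (0 : ℝ) ≤ n := Nat.cast_nonneg n
  have h : b + 3 + n ≠ 0 := by positivity
  rw [Gm_succ]
  field_simp

private theorem CN_nonneg (hs : -1 < s.re) (hb : 0 < b) (n k N : ℕ) : 0 ≤ CN s b n k N := by
  apply Finset.sum_nonneg
  intro j _
  exact mul_nonneg (Gm_pos hs hb _).le (Gm_pos hs hb _).le

theorem CN_zero (n k : ℕ) : CN s b n k 0 = Gm s b n * Gm s b k := by
  simp [CN]

theorem CN_shift (n k N : ℕ) :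
    CN s b (n + 1) k N = CN s b n k (N + 1) - Gm s b n * Gm s b (k + (N + 1)) := by
  unfold CN
  rw [Finset.sum_range_succ' _ (N + 1)]
  have e : ∑ j ∈ Finset.range (N + 1), Gm s b (n + 1 + j) * Gm s b (k + (N - j))
      = ∑ j ∈ Finset.range (N + 1), Gm s b (n + (j + 1)) * Gm s b (k + (N + 1 - (j + 1))) := by
    apply Finset.sum_congr rfl
    intro j _
    have e1 : n + 1 + j = n + (j + 1) := by ring
    have e2 : N + 1 - (j + 1) = N - j := by omega
    rw [e1, e2]
  rw [e]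
  simp

/-- the recursion of the convolutions -/
theorem CN_gen (hb : 0 < b) (n k N : ℕ) :
    (N + 2 * b + 5 + n + k) * CN s b n k (N + 1)
      = (N + 4 * s.re + 4 + n + k) * CN s b n k N
        + (b + 2 + n) * (Gm s b n * Gm s b (k + (N + 1)))
        + (b + 2 + k) * (Gm s b k * Gm s b (n + (N + 1))) := by
  have h1 : ∑ j ∈ Finset.range (N + 1 + 1),
        (b + 2 + n + j) * (Gm s b (n + j) * Gm s b (k + (N + 1 - j)))
      = (∑ j ∈ Finset.range (N + 1),
          (2 * s.re + 2 + n + j) * (Gm s b (n + j) * Gm s b (k + (N - j))))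
        + (b + 2 + n) * (Gm s b n * Gm s b (k + (N + 1))) := by
    rw [Finset.sum_range_succ' _ (N + 1)]
    congr 1
    · apply Finset.sum_congr rfl
      intro j _
      have e2 : N + 1 - (j + 1) = N - j := by omega
      have e3 : n + (j + 1) = n + j + 1 := by ring
      have h := Gm_mul (s := s) hb (n + j)
      rw [e2, e3]
      push_cast at h ⊢
      linear_combination Gm s b (k + (N - j)) * h
    · simp
  have h2 : ∑ j ∈ Finset.range (N + 1 + 1),
        (b + 2 + k + ((N : ℝ) + 1 - j)) * (Gm s b (n + j) * Gm s b (k + (N + 1 - j)))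
      = (∑ j ∈ Finset.range (N + 1),
          (2 * s.re + 2 + k + ((N : ℝ) - j)) * (Gm s b (n + j) * Gm s b (k + (N - j))))
        + (b + 2 + k) * (Gm s b k * Gm s b (n + (N + 1))) := by
    rw [Finset.sum_range_succ _ (N + 1)]
    congr 1
    · apply Finset.sum_congr rfl
      intro j hj
      rw [Finset.mem_range] at hj
      have e2 : N + 1 - j = N - j + 1 := by omega
      have e3 : k + (N - j + 1) = k + (N - j) + 1 := by ring
      have h := Gm_mul (s := s) hb (k + (N - j))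
      have e4 : ((N - j : ℕ) : ℝ) = (N : ℝ) - j := by
        rw [Nat.cast_sub (by omega)]
      rw [e2, e3]
      push_cast [e4] at h ⊢
      linear_combination Gm s b (n + j) * h
    · have e5 : N + 1 - (N + 1) = 0 := by omega
      rw [e5, add_zero]
      push_cast
      ring
  have h3 := congrArg₂ (· + ·) h1 h2
  have e1 : (∑ j ∈ Finset.range (N + 1 + 1),
        (b + 2 + n + j) * (Gm s b (n + j) * Gm s b (k + (N + 1 - j))))
      + ∑ j ∈ Finset.range (N + 1 + 1),
        (b + 2 + k + ((N : ℝ) + 1 - j)) * (Gm s b (n + j) * Gm s b (k + (N + 1 - j)))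
      = (N + 2 * b + 5 + n + k) * CN s b n k (N + 1) := by
    rw [← Finset.sum_add_distrib, CN, Finset.mul_sum]
    apply Finset.sum_congr rfl
    intro j _
    ring
  have e2 : (∑ j ∈ Finset.range (N + 1),
          (2 * s.re + 2 + n + j) * (Gm s b (n + j) * Gm s b (k + (N - j))))
      + ∑ j ∈ Finset.range (N + 1),
          (2 * s.re + 2 + k + ((N : ℝ) - j)) * (Gm s b (n + j) * Gm s b (k + (N - j)))
      = (N + 4 * s.re + 4 + n + k) * CN s b n k N := by
    rw [← Finset.sum_add_distrib, CN, Finset.mul_sum]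
    apply Finset.sum_congr rfl
    intro j _
    ring
  rw [e1] at h3
  rw [h3, ← e2]
  ring

/-- the elementary bound of the convolutions -/
theorem CN_le (hs : -1 < s.re) (hb : 0 < b) (hσ : 0 < b + 1 - 2 * s.re) (n k N : ℕ) :
    CN s b n k N ≤ (N + 1) * Gm s b (N / 2) := by
  have hA := Gm_anti hs hb hσ
  have h1 : ∀ i, Gm s b i ≤ 1 := fun i => by
    have := hA (Nat.zero_le i)
    rwa [Gm_zero] at this
  have h0 : ∀ i, 0 ≤ Gm s b i := fun i => (Gm_pos hs hb i).le
  have h2 : ∀ j ∈ Finset.range (N + 1), Gm s b (n + j) * Gm s b (k + (N - j)) ≤ Gm s b (N / 2) := by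
    intro j hj
    rw [Finset.mem_range] at hj
    rcases le_total (N / 2) j with h | h
    · calc Gm s b (n + j) * Gm s b (k + (N - j)) ≤ Gm s b (n + j) * 1 :=
            mul_le_mul_of_nonneg_left (h1 _) (h0 _)
        _ = Gm s b (n + j) := mul_one _
        _ ≤ Gm s b (N / 2) := hA (by omega)
    · calc Gm s b (n + j) * Gm s b (k + (N - j)) ≤ 1 * Gm s b (k + (N - j)) :=
            mul_le_mul_of_nonneg_right (h1 _) (h0 _)
        _ = Gm s b (k + (N - j)) := one_mul _
        _ ≤ Gm s b (N / 2) := hA (by omega)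
  calc CN s b n k N ≤ ∑ _j ∈ Finset.range (N + 1), Gm s b (N / 2) := Finset.sum_le_sum h2
    _ = (N + 1) * Gm s b (N / 2) := by
        rw [Finset.sum_const, Finset.card_range, nsmul_eq_mul]
        push_cast
        ring

theorem half_tendsto : Tendsto (fun N : ℕ => N / 2) atTop atTop := by
  apply tendsto_atTop_atTop.mpr
  intro B
  refine ⟨2 * B, ?_⟩
  intro N hN
  omega

theorem Gh_tendsto (hs : -1 < s.re) (hb : 0 < b) (hσ : 0 < b + 1 - 2 * s.re) :
    Tendsto (fun N : ℕ => Gm s b (N / 2)) atTop (𝓝 0) :=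
  (Gm_tendsto hs hb hσ).comp half_tendsto

theorem sum_half {h : ℕ → ℝ} (hh : Summable h) : Summable (fun N : ℕ => h (N / 2)) := by
  have he : HasSum (fun k : ℕ => h (2 * k / 2)) (∑' i : ℕ, h i) := by
    have e : (fun k : ℕ => h (2 * k / 2)) = h := by
      funext k
      have e1 : 2 * k / 2 = k := by omega
      rw [e1]
    rw [e]
    exact hh.hasSum
  have ho : HasSum (fun k : ℕ => h ((2 * k + 1) / 2)) (∑' i : ℕ, h i) := by
    have e : (fun k : ℕ => h ((2 * k + 1) / 2)) = h := by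
      funext k
      have e1 : (2 * k + 1) / 2 = k := by omega
      rw [e1]
    rw [e]
    exact hh.hasSum
  exact (HasSum.even_add_odd (f := fun N : ℕ => h (N / 2)) he ho).summable

theorem Gh_summable (hs : -1 < s.re) (hb : 0 < b) (hσ : 0 < b + 1 - 2 * s.re) :
    Summable (fun N : ℕ => Gm s b (N / 2) / (b + 3 + (N / 2 : ℕ))) := by
  have h := Gm_summable hs hb hσ 0
  simp only [zero_add] at h
  exact sum_half (h := fun i : ℕ => Gm s b i / (b + 3 + (i : ℕ))) h

theorem sum_w1 (hs : -1 < s.re) (hb : 0 < b) (hσ : 0 < b + 1 - 2 * s.re) (n k : ℕ) :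
    Summable (fun N : ℕ => CN s b n k N / ((b + N + 1) * (b + N + 2))) := by
  have h := (Gh_summable hs hb hσ).mul_left 3
  apply Summable.of_nonneg_of_le _ _ h
  · intro N
    exact div_nonneg (CN_nonneg hs hb n k N) (by positivity)
  · intro N
    have hN : (0 : ℝ) ≤ N := Nat.cast_nonneg N
    have hG := (Gm_pos hs hb (N / 2)).le
    have hc := CN_le hs hb hσ n k N
    have h2 : ((N / 2 : ℕ) : ℝ) ≤ (N : ℝ) := by exact_mod_cast Nat.div_le_self N 2
    have h3 : (0 : ℝ) ≤ ((N / 2 : ℕ) : ℝ) := Nat.cast_nonneg _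
    have hp1 : (0 : ℝ) < (b + N + 1) * (b + N + 2) := by positivity
    have hp2 : (0 : ℝ) < b + 3 + ((N / 2 : ℕ) : ℝ) := by positivity
    rw [div_le_iff₀ hp1]
    refine hc.trans ?_
    have h4 : ((N : ℝ) + 1) * (b + 3 + ((N / 2 : ℕ) : ℝ)) ≤ 3 * ((b + N + 1) * (b + N + 2)) := by
      have h5 : ((N : ℝ) + 1) * (b + 3 + ((N / 2 : ℕ) : ℝ)) ≤ ((N : ℝ) + 1) * (b + 3 + N) :=
        mul_le_mul_of_nonneg_left (by linarith) (by linarith)
      nlinarith [mul_nonneg hb.le hN]
    calc ((N : ℝ) + 1) * Gm s b (N / 2)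
        = (((N : ℝ) + 1) * (b + 3 + ((N / 2 : ℕ) : ℝ))) * (Gm s b (N / 2)
            / (b + 3 + ((N / 2 : ℕ) : ℝ))) := by
          field_simp
      _ ≤ (3 * ((b + N + 1) * (b + N + 2))) * (Gm s b (N / 2)
            / (b + 3 + ((N / 2 : ℕ) : ℝ))) :=
          mul_le_mul_of_nonneg_right h4 (div_nonneg hG hp2.le)
      _ = _ := by ring

theorem sum_w2 (hs : -1 < s.re) (hb : 0 < b) (hσ : 0 < b + 1 - 2 * s.re) (n k : ℕ) :
    Summable (fun N : ℕ => CN s b n k N / ((b + N + 2) * (b + N + 3))) := by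
  apply Summable.of_nonneg_of_le _ _ (sum_w1 hs hb hσ n k)
  · intro N
    exact div_nonneg (CN_nonneg hs hb n k N) (by positivity)
  · intro N
    have hN : (0 : ℝ) ≤ N := Nat.cast_nonneg N
    apply div_le_div_of_nonneg_left (CN_nonneg hs hb n k N) (by positivity)
    nlinarith

theorem sum_A (hs : -1 < s.re) (hb : 0 < b) (hσ : 0 < b + 1 - 2 * s.re) (n : ℕ) :
    HasSum (fun N : ℕ => Gm s b (n + N) / ((b + N + 1) * (b + N + 2)))
      (SS s b n 0 - SS s b n 1) := by
  have h0 := (SS_summable hs hb hσ n 0).hasSum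
  have h1 := (SS_summable hs hb hσ n 1).hasSum
  have h := h0.sub h1
  have e : (fun N : ℕ => Gm s b (n + N) / ((b + N + 1) * (b + N + 2)))
      = fun N : ℕ => Gm s b (n + N) / (b + 1 + N + (0 : ℕ))
        - Gm s b (n + N) / (b + 1 + N + (1 : ℕ)) := by
    funext N
    have hN : (0 : ℝ) ≤ N := Nat.cast_nonneg N
    have h2 : b + N + 1 ≠ 0 := by positivity
    have h3 : b + N + 2 ≠ 0 := by positivity
    have e1 : b + 1 + (N : ℝ) + ((0 : ℕ) : ℝ) = b + N + 1 := by push_cast; ring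
    have e2 : b + 1 + (N : ℝ) + ((1 : ℕ) : ℝ) = b + N + 2 := by push_cast; ring
    rw [e1, e2]
    field_simp
    ring
  rw [e]
  exact h

/-- `CN / N` tends to zero -/
theorem CN_div_tendsto (hs : -1 < s.re) (hb : 0 < b) (hσ : 0 < b + 1 - 2 * s.re) (n k : ℕ) :
    Tendsto (fun N : ℕ => CN s b n k N / ((N : ℝ) + 1)) atTop (𝓝 0) := by
  apply squeeze_zero _ _ (Gh_tendsto hs hb hσ)
  · intro N
    exact div_nonneg (CN_nonneg hs hb n k N) (by positivity)
  · intro N
    have hN : (0 : ℝ) < (N : ℝ) + 1 := by positivity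
    rw [div_le_iff₀ hN, mul_comm]
    exact CN_le hs hb hσ n k N

/-- bounded factors -/
theorem CN_mul_tendsto (hs : -1 < s.re) (hb : 0 < b) (hσ : 0 < b + 1 - 2 * s.re) (n k : ℕ)
    {f : ℕ → ℝ} {C : ℝ} (hf : ∀ N : ℕ, |f N| ≤ C / ((N : ℝ) + 1)) :
    Tendsto (fun N : ℕ => f N * CN s b n k N) atTop (𝓝 0) := by
  have h := (CN_div_tendsto hs hb hσ n k).const_mul C
  rw [mul_zero] at h
  apply squeeze_zero_norm _ h
  intro N
  have hN : (0 : ℝ) < (N : ℝ) + 1 := by positivity
  have hc := CN_nonneg hs hb n k N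
  rw [norm_mul, Real.norm_eq_abs, Real.norm_of_nonneg hc]
  calc |f N| * CN s b n k N ≤ C / ((N : ℝ) + 1) * CN s b n k N :=
        mul_le_mul_of_nonneg_right (hf N) hc
    _ = C * (CN s b n k N / ((N : ℝ) + 1)) := by ring

/-- the partial sums -/
theorem part (hb : 0 < b) (n k M : ℕ) :
    (4 * s.re - b + n + k + 1)
        * ∑ N ∈ Finset.range (M + 1), CN s b n k N / ((b + N + 2) * (b + N + 3))
      - (b + 3 + n + k) * ∑ N ∈ Finset.range (M + 1), CN s b n k N / ((b + N + 1) * (b + N + 2))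
      + (b + 2 + n) * Gm s b n
        * ∑ N ∈ Finset.range (M + 1), Gm s b (k + N) / ((b + N + 1) * (b + N + 2))
      + (b + 2 + k) * Gm s b k
        * ∑ N ∈ Finset.range (M + 1), Gm s b (n + N) / ((b + N + 1) * (b + N + 2))
      = (M + 4 * s.re + 4 + n + k) / ((b + M + 2) * (b + M + 3)) * CN s b n k M := by
  induction M with
  | zero =>
    simp only [zero_add, Finset.range_one, Finset.sum_singleton, CN_zero, Nat.cast_zero, add_zero]
    have h1 : b + 1 ≠ 0 := by positivity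
    have h2 : b + 2 ≠ 0 := by positivity
    have h3 : b + 3 ≠ 0 := by positivity
    field_simp
    ring
  | succ M ih =>
    have h := CN_gen (s := s) hb n k M
    simp only [Finset.sum_range_succ _ (M + 1)]
    have hM : (0 : ℝ) ≤ M := Nat.cast_nonneg M
    have h1 : b + (M + 1) + 1 ≠ 0 := by positivity
    have h2 : b + (M + 1) + 2 ≠ 0 := by positivity
    have h3 : b + (M + 1) + 3 ≠ 0 := by positivity
    have hn : (n : ℕ) + (M + 1) = n + (M + 1) := rfl
    push_cast
    have hkey : (4 * s.re - b + n + k + 1)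
          * (CN s b n k (M + 1) / ((b + (M + 1) + 2) * (b + (M + 1) + 3)))
        - (b + 3 + n + k) * (CN s b n k (M + 1) / ((b + (M + 1) + 1) * (b + (M + 1) + 2)))
        + (b + 2 + n) * Gm s b n
          * (Gm s b (k + (M + 1)) / ((b + (M + 1) + 1) * (b + (M + 1) + 2)))
        + (b + 2 + k) * Gm s b k
          * (Gm s b (n + (M + 1)) / ((b + (M + 1) + 1) * (b + (M + 1) + 2)))
        = (M + 1 + 4 * s.re + 4 + n + k) / ((b + (M + 1) + 2) * (b + (M + 1) + 3))
            * CN s b n k (M + 1)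
          - (M + 4 * s.re + 4 + n + k) / ((b + M + 2) * (b + M + 3)) * CN s b n k M := by
      have h4 : b + (M : ℝ) + 2 ≠ 0 := by positivity
      have h5 : b + (M : ℝ) + 3 ≠ 0 := by positivity
      have h6 : b + (M : ℝ) + 4 ≠ 0 := by positivity
      have e1 : b + ((M : ℝ) + 1) + 1 = b + M + 2 := by ring
      have e2 : b + ((M : ℝ) + 1) + 2 = b + M + 3 := by ring
      have e3 : b + ((M : ℝ) + 1) + 3 = b + M + 4 := by ring
      rw [e1, e2, e3]
      field_simp
      linear_combination (-(b + (M : ℝ) + 4)) * h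
    linear_combination ih + hkey

end NM

open NB NM

theorem MM_rec {s : ℂ} (hs : -1 < s.re) {b : ℝ} (hb : 0 < b) (hσ : 0 < b + 1 - 2 * s.re)
    (n k : ℕ) : (b + 3 + n + k) * MM s b (n + 1) k = (4 * s.re - b + n + k + 1) * MM s b n k
      + (b + 2 + k) * Gm s b k * (SS s b n 0 - SS s b n 1)
      - (k + 1) * Gm s b n * (SS s b k 0 - SS s b k 1) := by
  set An := SS s b n 0 - SS s b n 1 with hAn
  set Ak := SS s b k 0 - SS s b k 1 with hAk
  have hM := (sum_w2 hs hb hσ n k).hasSum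
  have hI := (sum_w1 hs hb hσ n k).hasSum
  have hAn' := sum_A hs hb hσ n
  have hAk' := sum_A hs hb hσ k
  rw [← hAn] at hAn'
  rw [← hAk] at hAk'
  set I := ∑' N : ℕ, CN s b n k N / ((b + N + 1) * (b + N + 2)) with hIdef
  have hMM : (∑' N : ℕ, CN s b n k N / ((b + N + 2) * (b + N + 3))) = MM s b n k := rfl
  rw [hMM] at hM
  have ht : ∀ {f : ℕ → ℝ} {a : ℝ}, HasSum f a →
      Tendsto (fun M : ℕ => ∑ N ∈ Finset.range (M + 1), f N) atTop (𝓝 a) := by
    intro f a h
    exact h.tendsto_sum_nat.comp (tendsto_add_atTop_nat 1)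
  have hlim := ((((ht hM).const_mul (4 * s.re - b + n + k + 1)).sub
    ((ht hI).const_mul (b + 3 + n + k))).add
    ((ht hAk').const_mul ((b + 2 + n) * Gm s b n))).add
    ((ht hAn').const_mul ((b + 2 + k) * Gm s b k))
  have hz : Tendsto (fun M : ℕ => ((M : ℝ) + 4 * s.re + 4 + n + k) / ((b + M + 2) * (b + M + 3))
      * CN s b n k M) atTop (𝓝 0) := by
    apply CN_mul_tendsto hs hb hσ n k (C := 4 * |s.re| + 5 + n + k)
    intro M
    have hMn : (0 : ℝ) ≤ M := Nat.cast_nonneg M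
    have hnn : (0 : ℝ) ≤ n := Nat.cast_nonneg n
    have hkk : (0 : ℝ) ≤ k := Nat.cast_nonneg k
    have hp : (0 : ℝ) < (b + M + 2) * (b + M + 3) := by positivity
    have hp1 : (0 : ℝ) < (M : ℝ) + 1 := by positivity
    rw [abs_div, abs_of_pos hp, div_le_div_iff₀ hp hp1]
    have ha : |(M : ℝ) + 4 * s.re + 4 + n + k| ≤ M + 4 * |s.re| + 4 + n + k := by
      have h1 := neg_abs_le s.re
      have h2 := le_abs_self s.re
      rw [abs_le]
      constructor <;> linarith
    have habs : 0 ≤ |s.re| := abs_nonneg _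
    set A : ℝ := 4 * |s.re| + 5 + n + k with hA
    have hA5 : 5 ≤ A := by
      rw [hA]
      linarith
    calc |(M : ℝ) + 4 * s.re + 4 + n + k| * ((M : ℝ) + 1)
        ≤ (M + (A - 1)) * ((M : ℝ) + 1) := by
          apply mul_le_mul_of_nonneg_right _ hp1.le
          rw [hA]
          linarith
      _ ≤ (A * (M + 1)) * (M + 1) := by
          apply mul_le_mul_of_nonneg_right _ hp1.le
          nlinarith
      _ ≤ A * ((b + M + 2) * (b + M + 3)) := by
          have h3 : ((M : ℝ) + 1) * (M + 1) ≤ (b + M + 2) * (b + M + 3) := by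
            apply mul_le_mul <;> linarith
          nlinarith
  have heq := tendsto_nhds_unique (hlim.congr (fun M => part (s := s) hb n k M)) hz
  have hshift : MM s b (n + 1) k = I - Gm s b n * Ak := by
    have h1 := hI.summable.tsum_eq_zero_add
    have h2 := hAk'.summable.tsum_eq_zero_add
    rw [hAk'.tsum_eq] at h2
    have hs1 : Summable (fun N : ℕ => CN s b n k (N + 1) / ((b + (N + 1 : ℕ) + 1)
        * (b + (N + 1 : ℕ) + 2))) :=
      (summable_nat_add_iff (f := fun N : ℕ => CN s b n k N / ((b + N + 1) * (b + N + 2))) 1).mpr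
        hI.summable
    have hs2 : Summable (fun N : ℕ => Gm s b (k + (N + 1)) / ((b + (N + 1 : ℕ) + 1)
        * (b + (N + 1 : ℕ) + 2))) :=
      (summable_nat_add_iff (f := fun N : ℕ => Gm s b (k + N) / ((b + N + 1) * (b + N + 2))) 1).mpr
        hAk'.summable
    have h3 : MM s b (n + 1) k
        = (∑' N : ℕ, CN s b n k (N + 1) / ((b + (N + 1 : ℕ) + 1) * (b + (N + 1 : ℕ) + 2)))
          - Gm s b n * ∑' N : ℕ, Gm s b (k + (N + 1)) / ((b + (N + 1 : ℕ) + 1)
            * (b + (N + 1 : ℕ) + 2)) := by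
      rw [← tsum_mul_left, ← hs1.tsum_sub (hs2.mul_left (Gm s b n))]
      unfold MM
      congr 1
      funext N
      rw [CN_shift]
      have e1 : b + ((N + 1 : ℕ) : ℝ) + 1 = b + N + 2 := by push_cast; ring
      have e2 : b + ((N + 1 : ℕ) : ℝ) + 2 = b + N + 3 := by push_cast; ring
      rw [e1, e2]
      ring
    rw [h3]
    rw [← hIdef] at h1
    have h4 : CN s b n k 0 / ((b + (0 : ℕ) + 1) * (b + (0 : ℕ) + 2))
        = Gm s b n * (Gm s b (k + 0) / ((b + (0 : ℕ) + 1) * (b + (0 : ℕ) + 2))) := by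
      rw [CN_zero, add_zero]
      ring
    linear_combination (-1 : ℝ) * h1 + Gm s b n * h2 - h4
  rw [hshift]
  linear_combination (-1 : ℝ) * heq

theorem CN_rec {s : ℂ} {b : ℝ} (hb : 0 < b) (N : ℕ) :
    (N + 2 * b + 5) * CN s b 0 0 (N + 1)
      = (N + 4 * s.re + 4) * CN s b 0 0 N + 2 * (b + 2) * Gm s b (N + 1) := by
  have h := CN_gen (s := s) hb 0 0 N
  simp only [Nat.cast_zero, add_zero, zero_add, Gm_zero, one_mul] at h
  rw [h]
  ring

namespace NM

variable {s : ℂ} {b : ℝ}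

theorem ph_bd (hb : 0 < b) (f1 f2 : ℝ) (N : ℕ) :
    |ph f1 f2 b N| ≤ (|f1| + |f2|) / ((N : ℝ) + 1) := by
  have hN : (0 : ℝ) ≤ N := Nat.cast_nonneg N
  have hp : (0 : ℝ) < (N : ℝ) + 1 := by positivity
  have h1 : (0 : ℝ) < N + 2 * b + 5 := by positivity
  have h2 : (0 : ℝ) < N + 2 * b + 6 := by positivity
  unfold ph
  refine (abs_add_le _ _).trans ?_
  rw [abs_div, abs_div, abs_of_pos h1, abs_of_pos (mul_pos h1 h2), add_div]
  apply add_le_add
  · apply div_le_div_of_nonneg_left (abs_nonneg _) hp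
    linarith
  · apply div_le_div_of_nonneg_left (abs_nonneg _) hp
    nlinarith [mul_nonneg hN hb.le]

theorem ch_bd (hb : 0 < b) (g1 g2 : ℝ) (N : ℕ) : |ch g1 g2 b N| ≤ |g1| + |g2| := by
  have hN : (0 : ℝ) ≤ N := Nat.cast_nonneg N
  have h1 : (0 : ℝ) < N + b + 3 := by positivity
  have h2 : (0 : ℝ) < N + b + 4 := by positivity
  unfold ch
  refine (abs_add_le _ _).trans ?_
  rw [abs_div, abs_div, abs_of_pos h1, abs_of_pos (mul_pos h1 h2)]
  apply add_le_add
  · apply div_le_self (abs_nonneg _)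
    linarith
  · apply div_le_self (abs_nonneg _)
    nlinarith [mul_nonneg hN hb.le]

/-- the comparison sequence -/
noncomputable def DN (s : ℂ) (b f1 f2 g1 g2 : ℝ) (N : ℕ) : ℝ :=
  CN s b 0 0 N * ph f1 f2 b N + Gm s b N * ch g1 g2 b N

theorem DN_tendsto (hs : -1 < s.re) (hb : 0 < b) (hσ : 0 < b + 1 - 2 * s.re) (f1 f2 g1 g2 : ℝ) :
    Tendsto (DN s b f1 f2 g1 g2) atTop (𝓝 0) := by
  have h1 := CN_mul_tendsto hs hb hσ 0 0 (f := ph f1 f2 b) (C := |f1| + |f2|)
    (fun N => ph_bd hb f1 f2 N)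
  have h2 : Tendsto (fun N : ℕ => Gm s b N * ch g1 g2 b N) atTop (𝓝 0) := by
    have h3 := (Gm_tendsto hs hb hσ).mul_const (|g1| + |g2|)
    rw [zero_mul] at h3
    apply squeeze_zero_norm _ h3
    intro N
    have hG := (Gm_pos hs hb N).le
    rw [norm_mul, Real.norm_of_nonneg hG, Real.norm_eq_abs]
    exact mul_le_mul_of_nonneg_left (ch_bd hb g1 g2 N) hG
  have h4 := h1.add h2
  rw [add_zero] at h4
  apply h4.congr
  intro N
  unfold DN
  ring

theorem DN_step (hb : 0 < b) (f1 f2 g1 g2 : ℝ) (N : ℕ) :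
    DN s b f1 f2 g1 g2 N - DN s b f1 f2 g1 g2 (N + 1)
      = CN s b 0 0 N * (ph f1 f2 b N - ph f1 f2 b (N + 1)
          * ((N + 4 * s.re + 4) / (N + 2 * b + 5)))
        + Gm s b N * (ch g1 g2 b N - ch g1 g2 b (N + 1) * ((2 * s.re + 2 + N) / (b + 3 + N))
          - ph f1 f2 b (N + 1) * (2 * (b + 2) * (2 * s.re + 2 + N)
            / ((N + 2 * b + 5) * (b + 3 + N)))) := by
  have hN : (0 : ℝ) ≤ N := Nat.cast_nonneg N
  have h1 : (N : ℝ) + 2 * b + 5 ≠ 0 := by positivity
  have h2 : b + 3 + (N : ℝ) ≠ 0 := by positivity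
  have hC : CN s b 0 0 (N + 1) = ((N + 4 * s.re + 4) * CN s b 0 0 N
      + 2 * (b + 2) * Gm s b (N + 1)) / (N + 2 * b + 5) := by
    rw [← CN_rec hb N]
    field_simp
  unfold DN
  rw [hC, Gm_succ]
  field_simp
  ring

end NM

theorem MM_upper {s : ℂ} (hs : -1 < s.re) {b : ℝ} (hb : 0 < b) (hσ : 0 < b + 1 - 2 * s.re)
    (J : ℕ) {f1 f2 g1 g2 : ℝ}
    (h1 : ∀ N : ℕ, J ≤ N → 1 / ((b + N + 2) * (b + N + 3))
      ≤ ph f1 f2 b N - ph f1 f2 b (N + 1) * ((N + 4 * s.re + 4) / (N + 2 * b + 5)))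
    (h2 : ∀ N : ℕ, J ≤ N → ph f1 f2 b (N + 1) * (2 * (b + 2) * (2 * s.re + 2 + N)
        / ((N + 2 * b + 5) * (b + 3 + N)))
      ≤ ch g1 g2 b N - ch g1 g2 b (N + 1) * ((2 * s.re + 2 + N) / (b + 3 + N))) :
    MM s b 0 0 ≤ (∑ N ∈ Finset.range J, CN s b 0 0 N / ((b + N + 2) * (b + N + 3)))
      + CN s b 0 0 J * ph f1 f2 b J + Gm s b J * ch g1 g2 b J := by
  have hsum := sum_w2 hs hb hσ 0 0
  have hpart : ∀ M : ℕ,
      (∑ N ∈ Finset.range (M + J), CN s b 0 0 N / ((b + N + 2) * (b + N + 3)))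
        + DN s b f1 f2 g1 g2 (M + J)
      ≤ (∑ N ∈ Finset.range J, CN s b 0 0 N / ((b + N + 2) * (b + N + 3)))
        + DN s b f1 f2 g1 g2 J := by
    intro M
    induction M with
    | zero => rw [zero_add]
    | succ M ih =>
      have e : M + 1 + J = M + J + 1 := by ring
      rw [e, Finset.sum_range_succ]
      have hst := DN_step (s := s) hb f1 f2 g1 g2 (M + J)
      have hc := CN_nonneg hs hb 0 0 (M + J)
      have hg := (Gm_pos hs hb (M + J)).le
      have a1 := mul_le_mul_of_nonneg_left (h1 (M + J) (by omega)) hc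
      have a2 := mul_nonneg hg (sub_nonneg.mpr (h2 (M + J) (by omega)))
      have a3 : CN s b 0 0 (M + J) / ((b + (M + J : ℕ) + 2) * (b + (M + J : ℕ) + 3))
          = CN s b 0 0 (M + J) * (1 / ((b + (M + J : ℕ) + 2) * (b + (M + J : ℕ) + 3))) := by
        ring
      rw [a3]
      linarith
  have hl : Tendsto (fun M : ℕ =>
      (∑ N ∈ Finset.range (M + J), CN s b 0 0 N / ((b + N + 2) * (b + N + 3)))
        + DN s b f1 f2 g1 g2 (M + J)) atTop (𝓝 (MM s b 0 0 + 0)) :=
    (hsum.hasSum.tendsto_sum_nat.comp (tendsto_add_atTop_nat J)).add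
      ((DN_tendsto hs hb hσ f1 f2 g1 g2).comp (tendsto_add_atTop_nat J))
  rw [add_zero] at hl
  have h := le_of_tendsto' hl hpart
  unfold DN at h
  linarith

theorem MM_lower {s : ℂ} (hs : -1 < s.re) {b : ℝ} (hb : 0 < b) (hσ : 0 < b + 1 - 2 * s.re)
    (J : ℕ) {f1 f2 g1 g2 : ℝ}
    (h1 : ∀ N : ℕ, J ≤ N →
      ph f1 f2 b N - ph f1 f2 b (N + 1) * ((N + 4 * s.re + 4) / (N + 2 * b + 5))
        ≤ 1 / ((b + N + 2) * (b + N + 3)))
    (h2 : ∀ N : ℕ, J ≤ N →
      ch g1 g2 b N - ch g1 g2 b (N + 1) * ((2 * s.re + 2 + N) / (b + 3 + N))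
        ≤ ph f1 f2 b (N + 1) * (2 * (b + 2) * (2 * s.re + 2 + N)
          / ((N + 2 * b + 5) * (b + 3 + N)))) :
    (∑ N ∈ Finset.range J, CN s b 0 0 N / ((b + N + 2) * (b + N + 3)))
      + CN s b 0 0 J * ph f1 f2 b J + Gm s b J * ch g1 g2 b J ≤ MM s b 0 0 := by
  have hsum := sum_w2 hs hb hσ 0 0
  have hpart : ∀ M : ℕ,
      (∑ N ∈ Finset.range J, CN s b 0 0 N / ((b + N + 2) * (b + N + 3)))
        + DN s b f1 f2 g1 g2 J
      ≤ (∑ N ∈ Finset.range (M + J), CN s b 0 0 N / ((b + N + 2) * (b + N + 3)))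
        + DN s b f1 f2 g1 g2 (M + J) := by
    intro M
    induction M with
    | zero => rw [zero_add]
    | succ M ih =>
      have e : M + 1 + J = M + J + 1 := by ring
      rw [e, Finset.sum_range_succ]
      have hst := DN_step (s := s) hb f1 f2 g1 g2 (M + J)
      have hc := CN_nonneg hs hb 0 0 (M + J)
      have hg := (Gm_pos hs hb (M + J)).le
      have a1 := mul_le_mul_of_nonneg_left (h1 (M + J) (by omega)) hc
      have a2 := mul_nonneg hg (sub_nonneg.mpr (h2 (M + J) (by omega)))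
      have a3 : CN s b 0 0 (M + J) / ((b + (M + J : ℕ) + 2) * (b + (M + J : ℕ) + 3))
          = CN s b 0 0 (M + J) * (1 / ((b + (M + J : ℕ) + 2) * (b + (M + J : ℕ) + 3))) := by
        ring
      rw [a3]
      linarith
  have hl : Tendsto (fun M : ℕ =>
      (∑ N ∈ Finset.range (M + J), CN s b 0 0 N / ((b + N + 2) * (b + N + 3)))
        + DN s b f1 f2 g1 g2 (M + J)) atTop (𝓝 (MM s b 0 0 + 0)) :=
    (hsum.hasSum.tendsto_sum_nat.comp (tendsto_add_atTop_nat J)).add
      ((DN_tendsto hs hb hσ f1 f2 g1 g2).comp (tendsto_add_atTop_nat J))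
  rw [add_zero] at hl
  have h := ge_of_tendsto' hl hpart
  unfold DN at h
  linarith

end Pool.Agent.Helper24.HR2
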