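import Mathlib
import Pool.Agent.Helper24.HR2.Defs2
import Pool.Agent.Helper24.HR2.LimY
import Pool.Agent.Helper24.HR2.PerFreqS
import Pool.Agent.Helper37.PFS.Lim2

/-!
MP_16b0ee, project HR2: the inequality for an antidiagonal of large order, second form.
-/

set_option autoImplicit false

open MeasureTheory Set Metric Filter Topology
open scoped Real ComplexConjugate

namespace Pool.Agent.Helper24.HR2

open Pool.Agent.Helper22.Half
open Pool.Agent.Helper22.Marshall (coeff SepHol LogPhi dcoeff GLe)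
open Pool.Agent.Helper39.Area (Ext phi)
open Pool.Agent.Helper39.MH
open Pool.Agent.Helper37.PFS (Elg Ncross_eq ap_Eg disc2 Ap.lower G1 G1_sq_le G1_nonneg)

theorem Elg_eq {s : ℂ} (hs : ‖s‖ < 1) {b : ℝ} (hb : 0 < b) (hσ : 0 < b + 1 - 2 * s.re)
    (K N D : ℕ) (p : ℕ → ℕ → ℝ) (κ τ : ℝ) (g y : ℕ → ℂ) :
    Elg s b K N D p κ τ g y = limG s b K N D p κ τ g y := by
  have e2 : (∑ n ∈ Finset.range N, ∑ k ∈ Finset.range N,
        y n * conj (y k) * (Gm s b (k + n) : ℂ)).re = gamF s b N y := by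
    rw [Complex.re_sum]
    unfold gamF
    apply Finset.sum_congr rfl
    intro n _
    rw [Complex.re_sum]
    apply Finset.sum_congr rfl
    intro k _
    rw [Complex.re_mul_ofReal, add_comm k n]
    ring
  have e6 : (∑ n ∈ Finset.range N, ∑ k ∈ Finset.range N,
        y n * conj (y k) * ((Es s b * MR s b D p n k : ℝ) : ℂ)).re
      = Es s b * gamR s b N D p y := by
    rw [Complex.re_sum]
    unfold gamR
    rw [Finset.mul_sum]
    apply Finset.sum_congr rfl
    intro n _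
    rw [Complex.re_sum, Finset.mul_sum]
    apply Finset.sum_congr rfl
    intro k _
    rw [Complex.re_mul_ofReal]
    ring
  have e3 : (∑ l ∈ Finset.range (D + 1), ∑ k ∈ Finset.range (D + 1),
        (FF s D p (muS s K g) l * conj (FF s D p (muS s K g) k)).re
          * (Es s b / ((b + (l + k : ℕ)) * (b + (l + k : ℕ) + 1))))
      = Es s b * Nmain b D (FF s D p (muS s K g)) := by
    unfold Nmain
    rw [Finset.mul_sum]
    apply Finset.sum_congr rfl
    intro l _
    rw [Finset.mul_sum]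
    apply Finset.sum_congr rfl
    intro k _
    push_cast
    rw [← add_assoc b (l : ℝ) (k : ℝ)]
    ring
  have e4 : 2 * (∑ l ∈ Finset.range (D + 1), ∑ n ∈ Finset.range N,
        conj (FF s D p (muS s K g) l) * y n * ((Es s b * xln s b D p l n : ℝ) : ℂ)).re
      = Es s b * Nx s b D N p (FF s D p (muS s K g)) y := by
    unfold Nx
    rw [Complex.re_sum, Finset.mul_sum, Finset.mul_sum, Finset.mul_sum]
    apply Finset.sum_congr rfl
    intro l _
    rw [Complex.re_sum, Finset.mul_sum, Finset.mul_sum, Finset.mul_sum]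
    apply Finset.sum_congr rfl
    intro n _
    rw [Complex.re_mul_ofReal]
    ring
  have e5 : 1 / τ * (∑ l ∈ Finset.range (D + 1), ∑ k ∈ Finset.range (D + 1),
        conj (FF s D p (muS s K g) l) * FF s D p (muS s K g) k
          * ((Es s b ^ 2 / B0 s b
            * ∫ x in Ioo (0 : ℝ) 1, alp s b x * rl b D p l x * rl b D p k x : ℝ) : ℂ)).re
      = Es s b ^ 2 / τ * Ncross s b D p (FF s D p (muS s K g)) := by
    rw [Ncross_eq hs hb hσ, Complex.re_sum, Finset.mul_sum, Finset.mul_sum, Finset.mul_sum]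
    apply Finset.sum_congr rfl
    intro l _
    rw [Complex.re_sum, Finset.mul_sum, Finset.mul_sum, Finset.mul_sum]
    apply Finset.sum_congr rfl
    intro k _
    rw [Complex.re_mul_ofReal]
    ring
  unfold Elg limG
  rw [e2, e3, e4, e5, e6]
  unfold linF
  ring

theorem perfreq_g {s : ℂ} (hs0 : s ≠ 0) (hs : ‖s‖ ≤ 7 / 10) {b : ℝ} (hb : 0 < b) (hb1 : b ≤ 1)
    (hσ : 0 < b + 1 - 2 * s.re) {K N D : ℕ} (hN : N + 1 ≤ 2 * K) (hD : D ≤ N)
    (hN1 : 1 ≤ N) (p : ℕ → ℕ → ℝ) (T : ℕ → ℕ → ℂ) {ε κ τ : ℝ} (hε : Es s b * HSn s b D p ≤ ε)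
    (hκ : 0 < κ) (hτ : 0 < τ) (h1 : (1 + κ) * ε + τ < 1) :
    PF s b K (fun g => limG s b K N D p κ τ g (Tg K T g)) := by
  intro δ hδ
  have hs1 : ‖s‖ < 1 := by linarith
  have hK0 : (0 : ℝ) < K := by
    have : 0 < K := by omega
    exact_mod_cast this
  set δ₁ := (1 - ((1 + κ) * ε + τ)) / (1 + κ) with hδ₁
  have hδ₁0 : 0 < δ₁ := by
    apply div_pos
    · linarith
    · linarith
  have hδ₁a : (1 + κ) * (ε + δ₁) + τ ≤ 1 := by
    have h : δ₁ * (1 + κ) = 1 - ((1 + κ) * ε + τ) := by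
      rw [hδ₁]
      field_simp
    linarith
  obtain ⟨m1, hm1⟩ := Ap.lower (ap_Eg (K := K) hs0 hs hb hb1 hσ hN hD hN1 p T κ τ)
    (η := δ / K) (by positivity)
  obtain ⟨m2, hm2⟩ := eventually_atTop.1 (lim_HS hs0 hs1 hb hσ D p hδ₁0)
  refine ⟨max m1 m2, fun m hm hmm J d hd => ?_⟩
  have hmm1 : m1 ≤ m := le_of_max_le_left hmm
  have hmm2 : m2 ≤ m := le_of_max_le_right hmm
  have hd2 := disc2 hs1 hb hσ (N := N) (D := D) p hκ hτ hδ₁a hm
    (fun J => (hm2 m hmm2 J).trans (by linarith)) (fun l => (lim_bD hs0 hs1 hb hσ l).1 m)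
    (fun l i hi => (lim_x hs0 hs1 hb hσ D p l 0).1 m i hi)
    (fun n k => (lim_y hs0 hs1 hb hσ D p n k).1 m) hd (Tg K T (vS d m)) J
  refine le_trans ?_ hd2
  have hKS := KS_facts hs1
  have hS0 := pq_pos (z := b + 3) (by linarith) (m - 1)
  have hKSp : 0 < KS s := by linarith [hKS.1]
  apply mul_le_mul_of_nonneg_left _ (by positivity)
  have h2 := hm1 m hmm1 hm d hd
  rw [Elg_eq hs1 hb hσ] at h2
  have h5 := G1_sq_le K m d
  have h9 : δ / K * G1 K m d ^ 2 ≤ δ * ∑ r ∈ Finset.range K, ‖vS d m r‖ ^ 2 := by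
    have := mul_le_mul_of_nonneg_left h5 (by positivity : 0 ≤ δ / K)
    refine this.trans (le_of_eq ?_)
    field_simp
  linarith

end Pool.Agent.Helper24.HR2
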