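import Mathlib
import Pool.Agent.Helper24.HR2.Defs

/-!
MP_16b0ee, project HR2: the region of small exponents, part 1. The quadratic part of the test form
in the basis of Legendre polynomials: explicit first order approximation.
-/

set_option autoImplicit false

open scoped ComplexConjugate

namespace Pool.Agent.Helper24.HR2

namespace SmallCert

/-- a polynomial in two variables, given by a list of coefficients and exponents -/
noncomputable def pe (l : List (ℚ × ℕ × ℕ)) (x y : ℝ) : ℝ :=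
  (l.map (fun t => (t.1 : ℝ) * x ^ t.2.1 * y ^ t.2.2)).sum

/-- the bound of a polynomial -/
def pb (l : List (ℚ × ℕ × ℕ)) (X Y : ℚ) : ℚ :=
  (l.map (fun t => |t.1| * X ^ t.2.1 * Y ^ t.2.2)).sum

theorem pe_le (l : List (ℚ × ℕ × ℕ)) {x y : ℝ} {X Y : ℚ} (hx : |x| ≤ X) (hy : |y| ≤ Y) :
    |pe l x y| ≤ (pb l X Y : ℝ) := by
  induction l with
  | nil => simp [pe, pb]
  | cons t l ih =>
    have h1 : pe (t :: l) x y = (t.1 : ℝ) * x ^ t.2.1 * y ^ t.2.2 + pe l x y := by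
      simp [pe]
    have h2 : pb (t :: l) X Y = |t.1| * X ^ t.2.1 * Y ^ t.2.2 + pb l X Y := by
      simp [pb]
    rw [h1, h2]
    refine (abs_add_le _ _).trans ?_
    push_cast
    refine add_le_add ?_ ih
    rw [abs_mul, abs_mul, abs_pow, abs_pow]
    have hX : (0 : ℝ) ≤ X := (abs_nonneg x).trans hx
    have hY : (0 : ℝ) ≤ Y := (abs_nonneg y).trans hy
    gcongr

theorem gmf (s : ℂ) {b : ℝ} (hb : 0 ≤ b) (n : ℕ) :
    Gm s b (n + 1) * (b + 3 + n) = Gm s b n * (2 * s.re + 2 + n) := by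
  unfold Gm
  rw [Finset.prod_range_succ]
  have : (b + 3 + n : ℝ) ≠ 0 := by positivity
  field_simp

theorem gm1 (s : ℂ) {b : ℝ} (hb : 0 ≤ b) : Gm s b 1 * (b + 3) = 2 * s.re + 2 := by
  have h := gmf s hb 0
  have h0 : Gm s b 0 = 1 := by simp [Gm]
  rw [h0] at h
  push_cast at h
  linarith

theorem gm2 (s : ℂ) {b : ℝ} (hb : 0 ≤ b) :
    Gm s b 2 * ((b + 3) * (b + 4)) = (2 * s.re + 2) * (2 * s.re + 3) := by
  have h := gmf s hb 1
  have h1 := gm1 s hb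
  push_cast at h
  linear_combination ((b + 3)) * h + (2 * s.re + 3) * h1

theorem gm3 (s : ℂ) {b : ℝ} (hb : 0 ≤ b) :
    Gm s b 3 * ((b + 3) * (b + 4) * (b + 5)) = (2 * s.re + 2) * (2 * s.re + 3) * (2 * s.re + 4) := by
  have h := gmf s hb 2
  have h1 := gm2 s hb
  push_cast at h
  linear_combination ((b + 3) * (b + 4)) * h + (2 * s.re + 4) * h1

theorem gm4 (s : ℂ) {b : ℝ} (hb : 0 ≤ b) :
    Gm s b 4 * ((b + 3) * (b + 4) * (b + 5) * (b + 6)) = (2 * s.re + 2) * (2 * s.re + 3) * (2 * s.re + 4) * (2 * s.re + 5) := by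
  have h := gmf s hb 3
  have h1 := gm3 s hb
  push_cast at h
  linear_combination ((b + 3) * (b + 4) * (b + 5)) * h + (2 * s.re + 5) * h1

theorem gm5 (s : ℂ) {b : ℝ} (hb : 0 ≤ b) :
    Gm s b 5 * ((b + 3) * (b + 4) * (b + 5) * (b + 6) * (b + 7)) = (2 * s.re + 2) * (2 * s.re + 3) * (2 * s.re + 4) * (2 * s.re + 5) * (2 * s.re + 6) := by
  have h := gmf s hb 4
  have h1 := gm4 s hb
  push_cast at h
  linear_combination ((b + 3) * (b + 4) * (b + 5) * (b + 6)) * h + (2 * s.re + 6) * h1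

theorem gm6 (s : ℂ) {b : ℝ} (hb : 0 ≤ b) :
    Gm s b 6 * ((b + 3) * (b + 4) * (b + 5) * (b + 6) * (b + 7) * (b + 8)) = (2 * s.re + 2) * (2 * s.re + 3) * (2 * s.re + 4) * (2 * s.re + 5) * (2 * s.re + 6) * (2 * s.re + 7) := by
  have h := gmf s hb 5
  have h1 := gm5 s hb
  push_cast at h
  linear_combination ((b + 3) * (b + 4) * (b + 5) * (b + 6) * (b + 7)) * h + (2 * s.re + 7) * h1

theorem gm7 (s : ℂ) {b : ℝ} (hb : 0 ≤ b) :
    Gm s b 7 * ((b + 3) * (b + 4) * (b + 5) * (b + 6) * (b + 7) * (b + 8) * (b + 9)) = (2 * s.re + 2) * (2 * s.re + 3) * (2 * s.re + 4) * (2 * s.re + 5) * (2 * s.re + 6) * (2 * s.re + 7) * (2 * s.re + 8) := by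
  have h := gmf s hb 6
  have h1 := gm6 s hb
  push_cast at h
  linear_combination ((b + 3) * (b + 4) * (b + 5) * (b + 6) * (b + 7) * (b + 8)) * h + (2 * s.re + 8) * h1

theorem gm8 (s : ℂ) {b : ℝ} (hb : 0 ≤ b) :
    Gm s b 8 * ((b + 3) * (b + 4) * (b + 5) * (b + 6) * (b + 7) * (b + 8) * (b + 9) * (b + 10)) = (2 * s.re + 2) * (2 * s.re + 3) * (2 * s.re + 4) * (2 * s.re + 5) * (2 * s.re + 6) * (2 * s.re + 7) * (2 * s.re + 8) * (2 * s.re + 9) := by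
  have h := gmf s hb 7
  have h1 := gm7 s hb
  push_cast at h
  linear_combination ((b + 3) * (b + 4) * (b + 5) * (b + 6) * (b + 7) * (b + 8) * (b + 9)) * h + (2 * s.re + 9) * h1

/-- the remainder -/
def lG10 : List (ℚ × ℕ × ℕ) :=
  [(-25/4, 0, 1), (5/4, 0, 2), (-95/4, 1, 1), (-5/4, 1, 2), (30, 2, 0)]

theorem bG10 {s : ℂ} {b : ℝ} (hs : |s.re| ≤ 1 / 50) (hb : 0 ≤ b) (hb1 : b ≤ 1 / 1675) :
    |5/4 * (1 - 6 * Gm s b 1 + 6 * Gm s b 2) - (5/4 * s.re)| ≤ 1/700 := by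
  have gm1 := gm1 s hb
  have gm2 := gm2 s hb
  have key : (5/4 * (1 - 6 * Gm s b 1 + 6 * Gm s b 2) - (5/4 * s.re))
      * ((b + 3) * (b + 4)) = pe lG10 s.re b := by
    simp only [pe, lG10, List.map_cons, List.map_nil, List.sum_cons, List.sum_nil]
    push_cast
    linear_combination (-15/2) * ((b + 4)) * gm1 + (15/2) * gm2
  have h1 : |pe lG10 s.re b| ≤ ((pb lG10 (1 / 50) (1 / 1675) : ℚ) : ℝ) :=
    pe_le _ (by push_cast; exact hs) (by rw [abs_of_nonneg hb]; push_cast; exact hb1)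
  have h2 : pb lG10 (1 / 50) (1 / 1675) ≤ 1/700 * 12 := by
    norm_num [pb, lG10, abs_of_nonneg, abs_of_neg]
  have h3 : ((pb lG10 (1 / 50) (1 / 1675) : ℚ) : ℝ) ≤ ((1/700 * 12 : ℚ) : ℝ) := Rat.cast_le.mpr h2
  push_cast at h3
  have hV : (12 : ℝ) ≤ (b + 3) * (b + 4) := by
    have : (12 : ℝ) = (0 + 3) * (0 + 4) := by norm_num
    rw [this]
    gcongr <;> linarith
  rw [← key, abs_mul] at h1
  have hV0 : (0 : ℝ) < (b + 3) * (b + 4) := lt_of_lt_of_le (by norm_num) hV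
  rw [abs_of_pos hV0] at h1
  by_contra hc
  push Not at hc
  have h4 := mul_lt_mul_of_pos_right hc hV0
  have h5 : (1/700 : ℝ) * 12 ≤ 1/700 * ((b + 3) * (b + 4)) := mul_le_mul_of_nonneg_left hV (by norm_num)
  linarith

/-- the remainder -/
def lG20 : List (ℚ × ℕ × ℕ) :=
  [(-171/2, 0, 1), (531/4, 0, 2), (-99/2, 0, 3), (9/4, 0, 4), (-936, 1, 1), (1231/2, 1, 2), (-99, 1, 3), (-1/2, 1, 4), (990, 2, 0), (-2430, 2, 1), (810, 2, 2), (2520, 3, 0), (-2520, 3, 1), (2520, 4, 0)]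

theorem bG20 {s : ℂ} {b : ℝ} (hs : |s.re| ≤ 1 / 50) (hb : 0 ≤ b) (hb1 : b ≤ 1 / 1675) :
    |9/4 * (1 - 20 * Gm s b 1 + 90 * Gm s b 2 - 140 * Gm s b 3 + 70 * Gm s b 4) - (1/2 * s.re)| ≤ 1/700 := by
  have gm1 := gm1 s hb
  have gm2 := gm2 s hb
  have gm3 := gm3 s hb
  have gm4 := gm4 s hb
  have key : (9/4 * (1 - 20 * Gm s b 1 + 90 * Gm s b 2 - 140 * Gm s b 3 + 70 * Gm s b 4) - (1/2 * s.re))
      * ((b + 3) * (b + 4) * (b + 5) * (b + 6)) = pe lG20 s.re b := by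
    simp only [pe, lG20, List.map_cons, List.map_nil, List.sum_cons, List.sum_nil]
    push_cast
    linear_combination (-45) * ((b + 4) * (b + 5) * (b + 6)) * gm1 + (405/2) * ((b + 5) * (b + 6)) * gm2 + (-315) * ((b + 6)) * gm3 + (315/2) * gm4
  have h1 : |pe lG20 s.re b| ≤ ((pb lG20 (1 / 50) (1 / 1675) : ℚ) : ℝ) :=
    pe_le _ (by push_cast; exact hs) (by rw [abs_of_nonneg hb]; push_cast; exact hb1)
  have h2 : pb lG20 (1 / 50) (1 / 1675) ≤ 1/700 * 360 := by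
    norm_num [pb, lG20, abs_of_nonneg, abs_of_neg]
  have h3 : ((pb lG20 (1 / 50) (1 / 1675) : ℚ) : ℝ) ≤ ((1/700 * 360 : ℚ) : ℝ) := Rat.cast_le.mpr h2
  push_cast at h3
  have hV : (360 : ℝ) ≤ (b + 3) * (b + 4) * (b + 5) * (b + 6) := by
    have : (360 : ℝ) = (0 + 3) * (0 + 4) * (0 + 5) * (0 + 6) := by norm_num
    rw [this]
    gcongr <;> linarith
  rw [← key, abs_mul] at h1
  have hV0 : (0 : ℝ) < (b + 3) * (b + 4) * (b + 5) * (b + 6) := lt_of_lt_of_le (by norm_num) hV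
  rw [abs_of_pos hV0] at h1
  by_contra hc
  push Not at hc
  have h4 := mul_lt_mul_of_pos_right hc hV0
  have h5 : (1/700 : ℝ) * 360 ≤ 1/700 * ((b + 3) * (b + 4) * (b + 5) * (b + 6)) := mul_le_mul_of_nonneg_left hV (by norm_num)
  linarith

/-- the remainder -/
def lG11 : List (ℚ × ℕ × ℕ) :=
  [(-390, 0, 1), (145, 0, 2), (-60, 0, 3), (5, 0, 4), (-2355, 1, 1), (905/2, 1, 2), (-195, 1, 3), (-5/2, 1, 4), (2700, 2, 0), (-3000, 2, 1), (1200, 2, 2), (3600, 3, 0), (-3600, 3, 1), (3600, 4, 0)]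

theorem bG11 {s : ℂ} {b : ℝ} (hs : |s.re| ≤ 1 / 50) (hb : 0 ≤ b) (hb1 : b ≤ 1 / 1675) :
    |25/4 * (1 - 12 * Gm s b 1 + 48 * Gm s b 2 - 72 * Gm s b 3 + 36 * Gm s b 4) - (5/4 + 5/2 * s.re)| ≤ 1/250 := by
  have gm1 := gm1 s hb
  have gm2 := gm2 s hb
  have gm3 := gm3 s hb
  have gm4 := gm4 s hb
  have key : (25/4 * (1 - 12 * Gm s b 1 + 48 * Gm s b 2 - 72 * Gm s b 3 + 36 * Gm s b 4) - (5/4 + 5/2 * s.re))
      * ((b + 3) * (b + 4) * (b + 5) * (b + 6)) = pe lG11 s.re b := by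
    simp only [pe, lG11, List.map_cons, List.map_nil, List.sum_cons, List.sum_nil]
    push_cast
    linear_combination (-75) * ((b + 4) * (b + 5) * (b + 6)) * gm1 + (300) * ((b + 5) * (b + 6)) * gm2 + (-450) * ((b + 6)) * gm3 + (225) * gm4
  have h1 : |pe lG11 s.re b| ≤ ((pb lG11 (1 / 50) (1 / 1675) : ℚ) : ℝ) :=
    pe_le _ (by push_cast; exact hs) (by rw [abs_of_nonneg hb]; push_cast; exact hb1)
  have h2 : pb lG11 (1 / 50) (1 / 1675) ≤ 1/250 * 360 := by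
    norm_num [pb, lG11, abs_of_nonneg, abs_of_neg]
  have h3 : ((pb lG11 (1 / 50) (1 / 1675) : ℚ) : ℝ) ≤ ((1/250 * 360 : ℚ) : ℝ) := Rat.cast_le.mpr h2
  push_cast at h3
  have hV : (360 : ℝ) ≤ (b + 3) * (b + 4) * (b + 5) * (b + 6) := by
    have : (360 : ℝ) = (0 + 3) * (0 + 4) * (0 + 5) * (0 + 6) := by norm_num
    rw [this]
    gcongr <;> linarith
  rw [← key, abs_mul] at h1
  have hV0 : (0 : ℝ) < (b + 3) * (b + 4) * (b + 5) * (b + 6) := lt_of_lt_of_le (by norm_num) hV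
  rw [abs_of_pos hV0] at h1
  by_contra hc
  push Not at hc
  have h4 := mul_lt_mul_of_pos_right hc hV0
  have h5 : (1/250 : ℝ) * 360 ≤ 1/250 * ((b + 3) * (b + 4) * (b + 5) * (b + 6)) := mul_le_mul_of_nonneg_left hV (by norm_num)
  linarith

/-- the remainder -/
def lG21 : List (ℚ × ℕ × ℕ) :=
  [(-38250, 0, 1), (13725/2, 0, 2), (-37305/4, 0, 3), (8145/4, 0, 4), (-855/4, 0, 5), (45/4, 0, 6), (-242505, 1, 1), (125705/4, 1, 2), (-460725/8, 1, 3), (38425/8, 1, 4), (-5835/8, 1, 5), (-35/8, 1, 6), (277200, 2, 0), (-337230, 2, 1), (268470, 2, 2), (-71280, 2, 3), (9720, 2, 4), (441000, 3, 0), (-684000, 3, 1), (315000, 3, 2), (-72000, 3, 3), (630000, 4, 0), (-621000, 4, 1), (261000, 4, 2), (453600, 5, 0), (-453600, 5, 1), (302400, 6, 0)]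

theorem bG21 {s : ℂ} {b : ℝ} (hs : |s.re| ≤ 1 / 50) (hb : 0 ≤ b) (hb1 : b ≤ 1 / 1675) :
    |45/4 * (1 - 26 * Gm s b 1 + 216 * Gm s b 2 - 800 * Gm s b 3 + 1450 * Gm s b 4 - 1260 * Gm s b 5 + 420 * Gm s b 6) - (35/8 * s.re)| ≤ 7/1000 := by
  have gm1 := gm1 s hb
  have gm2 := gm2 s hb
  have gm3 := gm3 s hb
  have gm4 := gm4 s hb
  have gm5 := gm5 s hb
  have gm6 := gm6 s hb
  have key : (45/4 * (1 - 26 * Gm s b 1 + 216 * Gm s b 2 - 800 * Gm s b 3 + 1450 * Gm s b 4 - 1260 * Gm s b 5 + 420 * Gm s b 6) - (35/8 * s.re))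
      * ((b + 3) * (b + 4) * (b + 5) * (b + 6) * (b + 7) * (b + 8)) = pe lG21 s.re b := by
    simp only [pe, lG21, List.map_cons, List.map_nil, List.sum_cons, List.sum_nil]
    push_cast
    linear_combination (-585/2) * ((b + 4) * (b + 5) * (b + 6) * (b + 7) * (b + 8)) * gm1 + (2430) * ((b + 5) * (b + 6) * (b + 7) * (b + 8)) * gm2 + (-9000) * ((b + 6) * (b + 7) * (b + 8)) * gm3 + (32625/2) * ((b + 7) * (b + 8)) * gm4 + (-14175) * ((b + 8)) * gm5 + (4725) * gm6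
  have h1 : |pe lG21 s.re b| ≤ ((pb lG21 (1 / 50) (1 / 1675) : ℚ) : ℝ) :=
    pe_le _ (by push_cast; exact hs) (by rw [abs_of_nonneg hb]; push_cast; exact hb1)
  have h2 : pb lG21 (1 / 50) (1 / 1675) ≤ 7/1000 * 20160 := by
    norm_num [pb, lG21, abs_of_nonneg, abs_of_neg]
  have h3 : ((pb lG21 (1 / 50) (1 / 1675) : ℚ) : ℝ) ≤ ((7/1000 * 20160 : ℚ) : ℝ) := Rat.cast_le.mpr h2
  push_cast at h3
  have hV : (20160 : ℝ) ≤ (b + 3) * (b + 4) * (b + 5) * (b + 6) * (b + 7) * (b + 8) := by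
    have : (20160 : ℝ) = (0 + 3) * (0 + 4) * (0 + 5) * (0 + 6) * (0 + 7) * (0 + 8) := by norm_num
    rw [this]
    gcongr <;> linarith
  rw [← key, abs_mul] at h1
  have hV0 : (0 : ℝ) < (b + 3) * (b + 4) * (b + 5) * (b + 6) * (b + 7) * (b + 8) := lt_of_lt_of_le (by norm_num) hV
  rw [abs_of_pos hV0] at h1
  by_contra hc
  push Not at hc
  have h4 := mul_lt_mul_of_pos_right hc hV0
  have h5 : (7/1000 : ℝ) * 20160 ≤ 7/1000 * ((b + 3) * (b + 4) * (b + 5) * (b + 6) * (b + 7) * (b + 8)) := mul_le_mul_of_nonneg_left hV (by norm_num)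
  linarith

/-- the remainder -/
def lG22 : List (ℚ × ℕ × ℕ) :=
  [(-3593160, 0, 1), (905904, 0, 2), (-1519326, 0, 3), (403992, 0, 4), (-96750, 0, 5), (12006, 0, 6), (-684, 0, 7), (18, 0, 8), (-26963280, 1, 1), (6460074, 1, 2), (-10763136, 1, 3), (3615939/2, 1, 4), (-510210, 1, 5), (32841, 1, 6), (-1854, 1, 7), (-9/2, 1, 8), (30164400, 2, 0), (-51444720, 2, 1), (49455360, 2, 2), (-21298140, 2, 3), (5681340, 2, 4), (-714420, 2, 5), (46980, 2, 6), (64411200, 3, 0), (-123100560, 3, 1), (88056720, 3, 2), (-34985520, 3, 3), (6246720, 3, 4), (-628560, 3, 5), (111358800, 4, 0), (-168233760, 4, 1), (111468960, 4, 2), (-28978560, 4, 3), (4484160, 4, 4), (121564800, 5, 0), (-176904000, 5, 1), (73483200, 5, 2), (-18144000, 5, 3), (110678400, 6, 0), (-96163200, 6, 1), (41731200, 6, 2), (50803200, 7, 0), (-50803200, 7, 1), (25401600, 8, 0)]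

theorem bG22 {s : ℂ} {b : ℝ} (hs : |s.re| ≤ 1 / 50) (hb : 0 ≤ b) (hb1 : b ≤ 1 / 1675) :
    |81/4 * (1 - 40 * Gm s b 1 + 580 * Gm s b 2 - 3880 * Gm s b 3 + 13840 * Gm s b 4 - 28000 * Gm s b 5 + 32200 * Gm s b 6 - 19600 * Gm s b 7 + 4900 * Gm s b 8) - (9/4 + 9/2 * s.re)| ≤ 21/2500 := by
  have gm1 := gm1 s hb
  have gm2 := gm2 s hb
  have gm3 := gm3 s hb
  have gm4 := gm4 s hb
  have gm5 := gm5 s hb
  have gm6 := gm6 s hb
  have gm7 := gm7 s hb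
  have gm8 := gm8 s hb
  have key : (81/4 * (1 - 40 * Gm s b 1 + 580 * Gm s b 2 - 3880 * Gm s b 3 + 13840 * Gm s b 4 - 28000 * Gm s b 5 + 32200 * Gm s b 6 - 19600 * Gm s b 7 + 4900 * Gm s b 8) - (9/4 + 9/2 * s.re))
      * ((b + 3) * (b + 4) * (b + 5) * (b + 6) * (b + 7) * (b + 8) * (b + 9) * (b + 10)) = pe lG22 s.re b := by
    simp only [pe, lG22, List.map_cons, List.map_nil, List.sum_cons, List.sum_nil]
    push_cast
    linear_combination (-810) * ((b + 4) * (b + 5) * (b + 6) * (b + 7) * (b + 8) * (b + 9) * (b + 10)) * gm1 + (11745) * ((b + 5) * (b + 6) * (b + 7) * (b + 8) * (b + 9) * (b + 10)) * gm2 + (-78570) * ((b + 6) * (b + 7) * (b + 8) * (b + 9) * (b + 10)) * gm3 + (280260) * ((b + 7) * (b + 8) * (b + 9) * (b + 10)) * gm4 + (-567000) * ((b + 8) * (b + 9) * (b + 10)) * gm5 + (652050) * ((b + 9) * (b + 10)) * gm6 + (-396900) * ((b + 10)) * gm7 + (99225) * gm8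
  have h1 : |pe lG22 s.re b| ≤ ((pb lG22 (1 / 50) (1 / 1675) : ℚ) : ℝ) :=
    pe_le _ (by push_cast; exact hs) (by rw [abs_of_nonneg hb]; push_cast; exact hb1)
  have h2 : pb lG22 (1 / 50) (1 / 1675) ≤ 21/2500 * 1814400 := by
    norm_num [pb, lG22, abs_of_nonneg, abs_of_neg]
  have h3 : ((pb lG22 (1 / 50) (1 / 1675) : ℚ) : ℝ) ≤ ((21/2500 * 1814400 : ℚ) : ℝ) := Rat.cast_le.mpr h2
  push_cast at h3
  have hV : (1814400 : ℝ) ≤ (b + 3) * (b + 4) * (b + 5) * (b + 6) * (b + 7) * (b + 8) * (b + 9) * (b + 10) := by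
    have : (1814400 : ℝ) = (0 + 3) * (0 + 4) * (0 + 5) * (0 + 6) * (0 + 7) * (0 + 8) * (0 + 9) * (0 + 10) := by norm_num
    rw [this]
    gcongr <;> linarith
  rw [← key, abs_mul] at h1
  have hV0 : (0 : ℝ) < (b + 3) * (b + 4) * (b + 5) * (b + 6) * (b + 7) * (b + 8) * (b + 9) * (b + 10) := lt_of_lt_of_le (by norm_num) hV
  rw [abs_of_pos hV0] at h1
  by_contra hc
  push Not at hc
  have h4 := mul_lt_mul_of_pos_right hc hV0
  have h5 : (21/2500 : ℝ) * 1814400 ≤ 21/2500 * ((b + 3) * (b + 4) * (b + 5) * (b + 6) * (b + 7) * (b + 8) * (b + 9) * (b + 10)) := mul_le_mul_of_nonneg_left hV (by norm_num)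
  linarith

end SmallCert

end Pool.Agent.Helper24.HR2
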