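import Mathlib
import Pool.Agent.Helper24.HR2.SmallGam

/-!
MP_16b0ee, project HR2: the region of small exponents, part 2. The test matrix, the form `Q`, and
the forms in the basis of Legendre polynomials.
-/

set_option autoImplicit false

open scoped ComplexConjugate

namespace Pool.Agent.Helper24.HR2

namespace SmallCert

/-- the test matrix: coefficients of `(L0 + 5 L2 P_2 + 9 L4 P_4) / 2` -/
noncomputable def TT : ℕ → ℕ → ℂ
  | 0, 0 => 15 / 16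
  | 0, 1 => -105 / 2
  | 0, 2 => 315
  | 1, 0 => -105 / 4
  | 1, 1 => 1260
  | 1, 2 => -6300
  | 2, 0 => 1155 / 8
  | 2, 1 => -5985
  | 2, 2 => 28350
  | 3, 0 => -945 / 4
  | 3, 1 => 9450
  | 3, 2 => -44100
  | 4, 0 => 945 / 8
  | 4, 1 => -4725
  | 4, 2 => 22050
  | _, _ => 0

/-- the coefficient of the second Legendre component -/
noncomputable def q1 (s : ℂ) : ℝ := 6 / 5 + 5 / 4 * s.re

/-- the entry `(0, 0)` -/
noncomputable def Q00 (s : ℂ) : ℝ := -91 / 1000 + 5 / 8 * s.re + q1 s / 4 + 171 / 640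

/-- the entry `(1, 0)` -/
noncomputable def Q10 (s : ℂ) : ℂ := -(15 / 4) * conj s - ((3 * q1 s + 171 / 16 : ℝ) : ℂ)

/-- the entry `(1, 1)` -/
noncomputable def Q11 (s : ℂ) : ℝ := 36 * q1 s + 855 / 2

/-- the Hermitian form -/
noncomputable def QQ (s : ℂ) (b : ℝ) : ℕ → ℕ → ℂ
  | 0, 0 => (Q00 s : ℂ)
  | 1, 0 => Q10 s
  | 0, 1 => conj (Q10 s)
  | 1, 1 => ((Q11 s * ((b + 3) / 3) : ℝ) : ℂ)
  | 0, 2 => ((399 / 8 * ((b + 3) * (b + 4) / 12) : ℝ) : ℂ)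
  | 2, 0 => ((399 / 8 * ((b + 3) * (b + 4) / 12) : ℝ) : ℂ)
  | 1, 2 => ((-1995 * ((b + 3) * (b + 4) * (b + 5) / 60) : ℝ) : ℂ)
  | 2, 1 => ((-1995 * ((b + 3) * (b + 4) * (b + 5) / 60) : ℝ) : ℂ)
  | 2, 2 => ((9310 * ((b + 3) * (b + 4) * (b + 5) * (b + 6) * (b + 7) / 2520) : ℝ) : ℂ)
  | _, _ => 0

/-- Legendre components -/
noncomputable def l0 (g : ℕ → ℂ) : ℂ := g 0

/-- Legendre components -/
noncomputable def l1 (g : ℕ → ℂ) : ℂ := 6 * g 1 - g 0 / 2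

/-- Legendre components -/
noncomputable def l2 (g : ℕ → ℂ) : ℂ := 70 * g 2 - 15 * g 1 + 3 / 8 * g 0

theorem Tg0 (g : ℕ → ℂ) : Tg 3 TT g 0 = (l0 g + 5 * l1 g + 9 * l2 g) / 2 := by
  simp only [Tg, Finset.sum_range_succ, Finset.sum_range_zero, TT, l0, l1, l2]
  ring

theorem Tg1 (g : ℕ → ℂ) : Tg 3 TT g 1 = -15 * l1 g - 90 * l2 g := by
  simp only [Tg, Finset.sum_range_succ, Finset.sum_range_zero, TT, l1, l2]
  ring

theorem Tg2 (g : ℕ → ℂ) : Tg 3 TT g 2 = 15 * l1 g + 405 * l2 g := by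
  simp only [Tg, Finset.sum_range_succ, Finset.sum_range_zero, TT, l1, l2]
  ring

theorem Tg3 (g : ℕ → ℂ) : Tg 3 TT g 3 = -630 * l2 g := by
  simp only [Tg, Finset.sum_range_succ, Finset.sum_range_zero, TT, l2]
  ring

theorem Tg4 (g : ℕ → ℂ) : Tg 3 TT g 4 = 315 * l2 g := by
  simp only [Tg, Finset.sum_range_succ, Finset.sum_range_zero, TT, l2]
  ring

theorem mu0 (s : ℂ) (g : ℕ → ℂ) : muS s 3 g 0 = l0 g / 2 := by
  simp [muS, Finset.sum_range_succ, l0, Nat.choose, Nat.factorial]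
  ring

theorem mu1 (s : ℂ) (g : ℕ → ℂ) : muS s 3 g 1 = (s + 2) / 2 * (l0 g / 3 + l1 g / 6) := by
  simp [muS, Finset.sum_range_succ, l0, l1, Nat.choose, Nat.factorial]
  left
  ring

theorem mu2 (s : ℂ) (g : ℕ → ℂ) :
    muS s 3 g 2 = (s + 2) * (s + 3) / 6 * (l0 g / 4 + l1 g / 4) := by
  simp [muS, Finset.sum_range_succ, Finset.prod_range_succ, l0, l1, Nat.choose, Nat.factorial]
  ring

theorem mu3 (s : ℂ) (g : ℕ → ℂ) : muS s 3 g 3
    = (s + 2) * (s + 3) * (s + 4) / 24 * (l0 g / 5 + 2 / 7 * l1 g + l2 g / 70) := by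
  simp [muS, Finset.sum_range_succ, Finset.prod_range_succ, l0, l1, l2, Nat.choose, Nat.factorial]
  ring

theorem mu4 (s : ℂ) (g : ℕ → ℂ) : muS s 3 g 4
    = (s + 2) * (s + 3) * (s + 4) * (s + 5) / 120
      * (l0 g / 6 + 25 / 84 * l1 g + l2 g / 28) := by
  simp [muS, Finset.sum_range_succ, Finset.prod_range_succ, l0, l1, l2, Nat.choose, Nat.factorial]
  ring

/-- the linear part -/
theorem linF_eq (s : ℂ) (g : ℕ → ℂ) : linF s 3 5 g (Tg 3 TT g)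
    = 2 * (1 / 4 * (l0 g * conj (l0 g)) + 5 / 8 * (s + s ^ 2) * (l0 g * conj (l1 g))
      + (5 / 4 + 15 / 8 * s + 5 / 8 * s ^ 2) * (l1 g * conj (l1 g))
      + (s / 4 + 11 / 16 * s ^ 2 + 7 / 8 * s ^ 3 + 7 / 16 * s ^ 4) * (l0 g * conj (l2 g))
      + (35 / 16 * s + 155 / 32 * s ^ 2 + 55 / 16 * s ^ 3 + 25 / 32 * s ^ 4)
        * (l1 g * conj (l2 g))
      + (9 / 4 + 75 / 16 * s + 105 / 32 * s ^ 2 + 15 / 16 * s ^ 3 + 3 / 32 * s ^ 4)
        * (l2 g * conj (l2 g))).re := by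
  unfold linF
  congr 2
  simp only [Finset.sum_range_succ, Finset.sum_range_zero]
  rw [Tg0, Tg1, Tg2, Tg3, Tg4, mu0, mu1, mu2, mu3, mu4]
  simp only [map_add, map_sub, map_mul, map_div₀, map_neg, map_ofNat]
  ring

/-- the quadratic part -/
theorem gamF_eq (s : ℂ) (b : ℝ) (g : ℕ → ℂ) : gamF s b 5 (Tg 3 TT g)
    = 1 / 4 * ‖l0 g‖ ^ 2
      + (25 / 4 * (1 - 12 * Gm s b 1 + 48 * Gm s b 2 - 72 * Gm s b 3 + 36 * Gm s b 4))
        * ‖l1 g‖ ^ 2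
      + (81 / 4 * (1 - 40 * Gm s b 1 + 580 * Gm s b 2 - 3880 * Gm s b 3 + 13840 * Gm s b 4
        - 28000 * Gm s b 5 + 32200 * Gm s b 6 - 19600 * Gm s b 7 + 4900 * Gm s b 8))
        * ‖l2 g‖ ^ 2
      + 2 * (5 / 4 * (1 - 6 * Gm s b 1 + 6 * Gm s b 2)) * (l0 g * conj (l1 g)).re
      + 2 * (9 / 4 * (1 - 20 * Gm s b 1 + 90 * Gm s b 2 - 140 * Gm s b 3 + 70 * Gm s b 4))
        * (l0 g * conj (l2 g)).re
      + 2 * (45 / 4 * (1 - 26 * Gm s b 1 + 216 * Gm s b 2 - 800 * Gm s b 3 + 1450 * Gm s b 4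
        - 1260 * Gm s b 5 + 420 * Gm s b 6)) * (l1 g * conj (l2 g)).re := by
  unfold gamF
  simp only [Finset.sum_range_succ, Finset.sum_range_zero]
  rw [Tg0, Tg1, Tg2, Tg3, Tg4]
  have h0 : Gm s b 0 = 1 := by simp [Gm]
  norm_num only
  rw [h0]
  generalize Gm s b 1 = m1
  generalize Gm s b 2 = m2
  generalize Gm s b 3 = m3
  generalize Gm s b 4 = m4
  generalize Gm s b 5 = m5
  generalize Gm s b 6 = m6
  generalize Gm s b 7 = m7
  generalize Gm s b 8 = m8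
  generalize l0 g = u
  generalize l1 g = v
  generalize l2 g = w
  obtain ⟨x0, y0⟩ := u
  obtain ⟨x1, y1⟩ := v
  obtain ⟨x2, y2⟩ := w
  simp only [Complex.sq_norm, Complex.normSq_mk, map_add, map_sub, map_mul, map_div₀, map_neg,
    map_ofNat]
  simp only [Complex.add_re, Complex.add_im, Complex.sub_re, Complex.sub_im, Complex.mul_re,
    Complex.mul_im, Complex.conj_re, Complex.conj_im, Complex.neg_re, Complex.neg_im,
    Complex.div_ofNat_re, Complex.div_ofNat_im, Complex.re_ofNat, Complex.im_ofNat]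
  ring

end SmallCert

end Pool.Agent.Helper24.HR2
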