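import Mathlib
import Pool.Agent.Helper24.HR2.Defs
import Pool.Agent.Helper39.HR.NBound
import Pool.Agent.Helper39.HR.Pref

/-!
MP_16b0ee, project HR2, section R10: the upper form for small exponents.
-/

set_option autoImplicit false

open Filter Topology

namespace Pool.Agent.Helper24.HR2

open Pool.Agent.Helper22.Half
open Pool.Agent.Helper39.HR (Bq Rb Cw Ks Xm Sk)

/-- the constant of the products is `1 + O(|s|^2)` -/
theorem small_const {ρ b r : ℝ} (hρ0 : 0 ≤ ρ) (hρ : ρ ≤ 1 / 400) (hb : 0 < b) (hb1 : b ≤ 2 * ρ)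
    (hr : -(1 / 20) ≤ r) (hr1 : r ≤ 1 / 20) : Bq r ρ * Rb b r ≤ 1 + 4 * ρ := by
  have f1 := Pool.Agent.Helper39.HR.F1_pos hb (by linarith : b ≤ 1 / 2)
    (by linarith : -(1 / 2) ≤ r) (by linarith : r < 1 / 2)
  have f2 := Pool.Agent.Helper39.HR.F2_pos hb (by linarith : b ≤ 1 / 2)
    (by linarith : -(1 / 2) ≤ r) (by linarith : r < 1 / 2)
  have g1 : 1 - 2 * b * (1 + r) / (4 * (b + 2 - 2 * r)) ≤ 1 := by
    have : 0 ≤ 2 * b * (1 + r) / (4 * (b + 2 - 2 * r)) := by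
      apply div_nonneg
      · apply mul_nonneg <;> linarith
      · linarith
    linarith
  have g2 : 1 - 2 * b * (1 + r) / (5 * (b + 3 - 2 * r)) ≤ 1 := by
    have : 0 ≤ 2 * b * (1 + r) / (5 * (b + 3 - 2 * r)) := by
      apply div_nonneg
      · apply mul_nonneg <;> linarith
      · linarith
    linarith
  have g3 : Real.exp (-(2 * b * (1 + r) / (qe b r + 2))) ≤ 1 := by
    rw [Real.exp_le_one_iff]
    have : 0 ≤ 2 * b * (1 + r) / (qe b r + 2) := by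
      apply div_nonneg
      · apply mul_nonneg <;> linarith
      · unfold qe
        linarith
    linarith
  have hR0 := Pool.Agent.Helper39.HR.Rb_nonneg hb (by linarith : b ≤ 1 / 2)
    (by linarith : -(1 / 2) ≤ r) (by linarith : r < 1 / 2)
  have hR : Rb b r ≤ Real.exp (2 / 3 * ρ) := by
    have h1 : Rb b r ≤ (1 + b / 3) * 1 * 1 * 1 := by
      unfold Pool.Agent.Helper39.HR.Rb
      gcongr
    have h2 := Real.add_one_le_exp (2 / 3 * ρ)
    linarith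
  have q1 : ∀ c x : ℝ, 0 < c → c ≤ x → 1 + ρ / x ≤ Real.exp (ρ * (1 / c)) := by
    intro c x hc hcx
    have h1 : ρ / x ≤ ρ * (1 / c) := by
      rw [mul_one_div]
      exact div_le_div_of_nonneg_left hρ0 hc hcx
    have h2 := Real.add_one_le_exp (ρ * (1 / c))
    linarith
  have q2 : ∀ c x : ℝ, 0 < c → c ≤ x → 0 ≤ 1 + ρ / x := by
    intro c x hc hcx
    have : 0 < x := by linarith
    positivity
  have a1 := q1 (38 / 10) (2 * (2 + 2 * r)) (by norm_num) (by linarith)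
  have a2 := q1 (38 / 10) (2 * (2 - 2 * r)) (by norm_num) (by linarith)
  have a3 := q1 (87 / 10) (3 * (3 + 2 * r)) (by norm_num) (by linarith)
  have a4 := q1 (87 / 10) (3 * (3 - 2 * r)) (by norm_num) (by linarith)
  have b1 := q2 (38 / 10) (2 * (2 + 2 * r)) (by norm_num) (by linarith)
  have b2 := q2 (38 / 10) (2 * (2 - 2 * r)) (by norm_num) (by linarith)
  have b3 := q2 (87 / 10) (3 * (3 + 2 * r)) (by norm_num) (by linarith)
  have b4 := q2 (87 / 10) (3 * (3 - 2 * r)) (by norm_num) (by linarith)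
  have hB : Bq r ρ ≤ Real.exp (7 / 5 * ρ) := by
    have h1 : Bq r ρ ≤ Real.exp (ρ * (1 / (38 / 10))) * Real.exp (ρ * (1 / (38 / 10)))
        * Real.exp (ρ * (1 / (87 / 10))) * Real.exp (ρ * (1 / (87 / 10)))
        * Real.exp (7 * ρ / 12) := by
      unfold Pool.Agent.Helper39.HR.Bq
      gcongr
    refine h1.trans ?_
    rw [← Real.exp_add, ← Real.exp_add, ← Real.exp_add, ← Real.exp_add]
    apply Real.exp_le_exp.mpr
    linarith
  have h3 : Bq r ρ * Rb b r ≤ Real.exp (31 / 15 * ρ) := by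
    calc Bq r ρ * Rb b r ≤ Real.exp (7 / 5 * ρ) * Real.exp (2 / 3 * ρ) := by
          apply mul_le_mul hB hR hR0 (Real.exp_pos _).le
      _ = Real.exp (31 / 15 * ρ) := by
          rw [← Real.exp_add]
          congr 1
          ring
  refine h3.trans ?_
  have h4 := Real.one_sub_le_exp_neg (31 / 15 * ρ)
  have h5 : Real.exp (31 / 15 * ρ) * Real.exp (-(31 / 15 * ρ)) = 1 := by
    rw [← Real.exp_add, add_neg_cancel, Real.exp_zero]
  have h6 := Real.exp_pos (31 / 15 * ρ)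
  have h7 : Real.exp (31 / 15 * ρ) * (1 - 31 / 15 * ρ) ≤ 1 := by
    have := mul_le_mul_of_nonneg_left h4 h6.le
    linarith
  have h8 : 0 < 1 - 31 / 15 * ρ := by linarith
  have h9 : 1 ≤ (1 + 4 * ρ) * (1 - 31 / 15 * ρ) := by
    have := mul_le_mul_of_nonneg_left hρ hρ0
    linarith
  by_contra hcon
  have := mul_lt_mul_of_pos_right (not_le.mp hcon) h8
  linarith

/-- the numerical coefficients -/
theorem small_coef {a ρ b r N c ζ u v : ℝ} (ha : 1 / 2 ≤ a) (ha1 : a < 1) (hρ : 0 < ρ)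
    (hρ1 : ρ ≤ 1 / 400) (hb : b * a = ρ) (hr : -(1 / 20) ≤ r) (hr1 : r ≤ 1 / 20) (hN0 : 0 ≤ N)
    (hN : N ≤ 441 / 400) (hc0 : 0 ≤ c) (hζ0 : 0 < ζ) (hζ1 : ζ ≤ 1 / 10)
    (hc : c ≤ ρ / 2 * (1 + 4 * ρ) * (1 + ζ)) (hu0 : 0 ≤ u) (hu : u ≤ ζ)
    (hv : v ≤ 2 * ζ) :
    c * (N * ((1 + (b + 3) * u) / (b + 1 - 2 * r) + 24)
        + 2 * ((1 + (b + 3) * u) / (2 * (b + 2)) + v)) ≤ 20 * ρ ∧
      c * (4 * (1 + (b + 1) * u) / ((b + 1) * b)
        + 2 * (1 + r) * (1 / (b + 1) + (1 + (b + 3) * u) / ((b + 2) * (b + 1)))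
        + 2 * ((1 + (b + 3) * u) / (2 * (b + 2)) + v) * N)
        ≤ 4 * (a / 2 * (1 + 20 * ρ) + 3 * ζ) := by
  have ha0 : 0 < a := by linarith
  have hb0 : 0 < b := by
    by_contra h
    have := mul_nonpos_of_nonpos_of_nonneg (not_lt.mp h) ha0.le
    linarith
  have hb2 : b ≤ 2 * ρ := by
    have := mul_le_mul_of_nonneg_left ha hb0.le
    linarith
  have hρζ := mul_le_mul_of_nonneg_right hρ1 hζ0.le
  have hζζ := mul_le_mul_of_nonneg_right hζ1 hζ0.le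
  have hbb := mul_pos hb0 hb0
  have hb3 : b ≤ 1 / 200 := by linarith
  have hc1 : c ≤ 5 / 9 * ρ := by
    refine hc.trans ?_
    have h1 : (1 + 4 * ρ) * (1 + ζ) ≤ 10 / 9 := by linarith
    calc ρ / 2 * (1 + 4 * ρ) * (1 + ζ) = ρ / 2 * ((1 + 4 * ρ) * (1 + ζ)) := by ring
      _ ≤ ρ / 2 * (10 / 9) := by gcongr
      _ = _ := by ring
  have hbu : (b + 3) * u ≤ 1 / 3 := by
    calc (b + 3) * u ≤ (1 / 200 + 3) * (1 / 10) := by
          apply mul_le_mul <;> linarith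
      _ ≤ 1 / 3 := by norm_num
  have hbu0 : 0 ≤ (b + 3) * u := by positivity
  have hbu1 : (b + 1) * u ≤ 2 * ζ := by
    apply mul_le_mul <;> linarith
  have hbu2 : 0 ≤ (b + 1) * u := by positivity
  have hs : 9 / 10 ≤ b + 1 - 2 * r := by linarith
  have t1 : (1 + (b + 3) * u) / (b + 1 - 2 * r) ≤ 3 / 2 := by
    rw [div_le_iff₀ (by linarith)]
    linarith
  have t10 : 0 ≤ (1 + (b + 3) * u) / (b + 1 - 2 * r) := by
    apply div_nonneg <;> linarith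
  have t2 : (1 + (b + 3) * u) / (2 * (b + 2)) ≤ 1 / 3 := by
    rw [div_le_iff₀ (by linarith)]
    linarith
  have t20 : 0 ≤ (1 + (b + 3) * u) / (2 * (b + 2)) := by
    apply div_nonneg <;> linarith
  have t3 : (1 + (b + 3) * u) / ((b + 2) * (b + 1)) ≤ 2 / 3 := by
    rw [div_le_iff₀ (by positivity)]
    linarith
  have t30 : 0 ≤ (1 + (b + 3) * u) / ((b + 2) * (b + 1)) := by
    apply div_nonneg
    · linarith
    · positivity
  have t4 : 1 / (b + 1) ≤ 1 := by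
    rw [div_le_one (by linarith)]
    linarith
  have t40 : 0 ≤ 1 / (b + 1) := by positivity
  constructor
  · have h1 : N * ((1 + (b + 3) * u) / (b + 1 - 2 * r) + 24) ≤ 441 / 400 * (3 / 2 + 24) := by
      gcongr
    have h2 : N * ((1 + (b + 3) * u) / (b + 1 - 2 * r) + 24)
        + 2 * ((1 + (b + 3) * u) / (2 * (b + 2)) + v) ≤ 30 := by
      linarith
    calc c * (N * ((1 + (b + 3) * u) / (b + 1 - 2 * r) + 24)
        + 2 * ((1 + (b + 3) * u) / (2 * (b + 2)) + v)) ≤ c * 30 := by gcongr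
      _ ≤ 20 * ρ := by linarith
  · have h1 : c * (4 * (1 + (b + 1) * u) / ((b + 1) * b)) ≤ 4 * (a / 2 * (1 + 4 * ρ) + 3 * ζ) := by
      have k1 : 4 * (1 + (b + 1) * u) / ((b + 1) * b) ≤ 4 * (1 + 2 * ζ) / b := by
        apply div_le_div₀
        · linarith
        · linarith
        · exact hb0
        · linarith
      have k2 : c * (4 * (1 + 2 * ζ) / b) ≤ (ρ / 2 * (1 + 4 * ρ) * (1 + ζ)) * (4 * (1 + 2 * ζ) / b) := by
        gcongr
      have k3 : (ρ / 2 * (1 + 4 * ρ) * (1 + ζ)) * (4 * (1 + 2 * ζ) / b)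
          = 4 * (a / 2 * ((1 + 4 * ρ) * ((1 + ζ) * (1 + 2 * ζ)))) := by
        rw [← hb]
        field_simp
      have k4 : (1 + ζ) * (1 + 2 * ζ) ≤ 1 + 4 * ζ := by linarith
      have k5 : (1 + 4 * ρ) * ((1 + ζ) * (1 + 2 * ζ)) ≤ (1 + 4 * ρ) + 6 * ζ := by
        have : (1 + 4 * ρ) * ((1 + ζ) * (1 + 2 * ζ)) ≤ (1 + 4 * ρ) * (1 + 4 * ζ) := by
          gcongr
        linarith
      have k6 : a / 2 * ((1 + 4 * ρ) * ((1 + ζ) * (1 + 2 * ζ)))
          ≤ a / 2 * ((1 + 4 * ρ) + 6 * ζ) := by gcongr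
      have k7 := mul_le_mul_of_nonneg_right ha1.le hζ0.le
      calc c * (4 * (1 + (b + 1) * u) / ((b + 1) * b)) ≤ c * (4 * (1 + 2 * ζ) / b) := by gcongr
        _ ≤ _ := k2
        _ = _ := k3
        _ ≤ _ := by linarith
    have h2 : 2 * (1 + r) * (1 / (b + 1) + (1 + (b + 3) * u) / ((b + 2) * (b + 1)))
        ≤ 2 * (1 + 1 / 20) * (1 + 2 / 3) := by
      have : 0 ≤ 1 + r := by linarith
      gcongr
    have h3 : 2 * ((1 + (b + 3) * u) / (2 * (b + 2)) + v) * N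
        ≤ 2 * (1 / 3 + 2 / 10) * (441 / 400) := by
      have : v ≤ 2 / 10 := by linarith
      gcongr
    have h4 : 2 * (1 + r) * (1 / (b + 1) + (1 + (b + 3) * u) / ((b + 2) * (b + 1)))
        + 2 * ((1 + (b + 3) * u) / (2 * (b + 2)) + v) * N ≤ 5 := by linarith
    have h5 : c * (2 * (1 + r) * (1 / (b + 1) + (1 + (b + 3) * u) / ((b + 2) * (b + 1)))
        + 2 * ((1 + (b + 3) * u) / (2 * (b + 2)) + v) * N) ≤ 25 / 9 * ρ := by
      calc c * (2 * (1 + r) * (1 / (b + 1) + (1 + (b + 3) * u) / ((b + 2) * (b + 1)))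
        + 2 * ((1 + (b + 3) * u) / (2 * (b + 2)) + v) * N) ≤ c * 5 := by gcongr
        _ ≤ _ := by linarith
    have h6 : 25 / 9 * ρ ≤ 4 * (a / 2 * (16 * ρ)) := by
      have := mul_le_mul_of_nonneg_right ha hρ.le
      linarith
    have e : c * (4 * (1 + (b + 1) * u) / ((b + 1) * b)
        + 2 * (1 + r) * (1 / (b + 1) + (1 + (b + 3) * u) / ((b + 2) * (b + 1)))
        + 2 * ((1 + (b + 3) * u) / (2 * (b + 2)) + v) * N)
        = c * (4 * (1 + (b + 1) * u) / ((b + 1) * b))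
          + c * (2 * (1 + r) * (1 / (b + 1) + (1 + (b + 3) * u) / ((b + 2) * (b + 1)))
        + 2 * ((1 + (b + 3) * u) / (2 * (b + 2)) + v) * N) := by ring
    rw [e]
    linarith

theorem small_N {a : ℝ} (ha : 1 / 2 ≤ a) (ha1 : a < 1) {δ : ℝ} (hδ : 0 < δ) :
    ∃ m0 : ℕ, ∀ m : ℕ, 1 ≤ m → m0 ≤ m → ∀ (J : ℕ) (s : ℂ), s ≠ 0 → ‖s‖ ≤ 1 / 20 →
      ∀ d : ℕ → ℂ, (∀ l ≤ m, d l = d (m - l)) →
      Nf s (‖s‖ ^ 2 / a) d m J ≤ (m : ℝ) ^ 2 / (KS s * pq (‖s‖ ^ 2 / a + 3) (m - 1))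
          * ((a / 2 * (1 + 20 * ‖s‖ ^ 2) + δ) * ‖vS d m 0‖ ^ 2)
        + 20 * ‖s‖ ^ 2 * Pf s (‖s‖ ^ 2 / a) d m := by
  -- the small parameter
  obtain ⟨ζ, hζ0, hζ1, hζδ⟩ : ∃ ζ : ℝ, 0 < ζ ∧ ζ ≤ 1 / 10 ∧ 3 * ζ ≤ δ := by
    refine ⟨min (1 / 10) (δ / 3), by positivity, min_le_left _ _, ?_⟩
    have := min_le_right (1 / 10) (δ / 3)
    linarith
  have hlim1 : Tendsto (fun m : ℕ => (1 + 2 / (m : ℝ)) * Real.exp (3 / (2 * (m : ℝ)))) atTop
      (𝓝 1) := by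
    have h1 : Tendsto (fun m : ℕ => 1 + 2 / (m : ℝ)) atTop (𝓝 (1 + 0)) :=
      tendsto_const_nhds.add (tendsto_const_div_atTop_nhds_zero_nat 2)
    have h2 : Tendsto (fun m : ℕ => Real.exp (3 / (2 * (m : ℝ)))) atTop (𝓝 (Real.exp 0)) := by
      apply (Real.continuous_exp.tendsto 0).comp
      have h3 := tendsto_const_div_atTop_nhds_zero_nat (3 / 2 : ℝ)
      refine h3.congr (fun m => ?_)
      rw [div_div]
    have h4 := h1.mul h2
    rw [add_zero, Real.exp_zero, mul_one] at h4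
    exact h4
  have hev1 : ∀ᶠ m : ℕ in atTop, (1 + 2 / (m : ℝ)) * Real.exp (3 / (2 * (m : ℝ))) ≤ 1 + ζ :=
    (hlim1.eventually_lt_const (by linarith : (1 : ℝ) < 1 + ζ)).mono (fun m h => h.le)
  have hev2 : ∀ᶠ m : ℕ in atTop, 1 / (m : ℝ) ≤ ζ :=
    ((tendsto_const_div_atTop_nhds_zero_nat 1).eventually_lt_const hζ0).mono (fun m h => h.le)
  obtain ⟨L, hL⟩ := exists_nat_gt (1 / ζ)
  have hLpos : (0 : ℝ) < L := lt_trans (by positivity) hL
  have hL1 : 1 ≤ L := by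
    have : 0 < L := by exact_mod_cast hLpos
    omega
  have hLζ : 1 / (L : ℝ) ≤ ζ := by
    rw [div_le_iff₀ hLpos]
    rw [div_lt_iff₀ hζ0] at hL
    linarith
  have hev3 : ∀ᶠ m : ℕ in atTop, (L : ℝ) / (m : ℝ) ≤ ζ :=
    ((tendsto_const_div_atTop_nhds_zero_nat (L : ℝ)).eventually_lt_const hζ0).mono
      (fun m h => h.le)
  obtain ⟨m0, hm0⟩ := eventually_atTop.mp (hev1.and (hev2.and hev3))
  refine ⟨max 3 m0, fun m hm1 hm J s hs0 hs d hd => ?_⟩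
  have hm3 : 3 ≤ m := (le_max_left _ _).trans hm
  obtain ⟨g1, g2, g3⟩ := hm0 m ((le_max_right _ _).trans hm)
  have hm0r : (0 : ℝ) < m := by exact_mod_cast (by omega : 0 < m)
  -- the exponent
  have ha0 : 0 < a := by linarith
  have hns : 0 < ‖s‖ := norm_pos_iff.mpr hs0
  obtain ⟨b, hbd⟩ : ∃ b, b = ‖s‖ ^ 2 / a := ⟨_, rfl⟩
  rw [← hbd]
  have hba : b * a = ‖s‖ ^ 2 := by
    rw [hbd]
    field_simp
  have hb0 : 0 < b := by
    rw [hbd]
    positivity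
  have hρ0 : 0 < ‖s‖ ^ 2 := by positivity
  have hρ1 : ‖s‖ ^ 2 ≤ 1 / 400 := by
    have := pow_le_pow_left₀ hns.le hs 2
    linarith
  have hb2 : b ≤ 2 * ‖s‖ ^ 2 := by
    have := mul_le_mul_of_nonneg_left ha hb0.le
    linarith
  have hb12 : b ≤ 1 / 2 := by linarith
  have hbρ : ‖s‖ ^ 2 ≤ b := by
    have := mul_le_mul_of_nonneg_left ha1.le hb0.le
    linarith
  have hre := abs_le.mp ((Complex.abs_re_le_norm s).trans hs)
  have hs2 : ‖s‖ < 1 / 2 := by linarith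
  have hσ : 0 < b + 1 - 2 * s.re := by linarith
  have hr4 : 4 * s.re ^ 2 ≤ 1 := by
    have := sq_le_sq' hre.1 hre.2
    linarith
  -- the constant K
  have hKS : KS s = Ks s.re (‖s‖ ^ 2) := rfl
  have hK1 := Pool.Agent.Helper39.HR.one_le_Ks hr4 hρ0.le
  have hCw := Pool.Agent.Helper39.HR.Cw_nonneg s hs2 hb0 hb12 m
  have h4 := S4_le' (J := J) hb0 (by linarith : -(1 / 2) ≤ s.re) hσ hm1
  have key := Pool.Agent.Helper39.HR.N_bound hs2 hb0 (K := Ks s.re (‖s‖ ^ 2)) (by linarith)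
    (Pool.Agent.Helper39.HR.kap_le_Ks hr4 hρ0.le) hCw hm1 hd J hL1
    (fun j => Pool.Agent.Helper39.HR.hw_Cw s hs2 hb0 hb12 hm3 j) h4 one_pos
  have hP := Pf_nonneg hσ d m
  have hX : 0 ≤ Xm b (Ks s.re (‖s‖ ^ 2)) d m := by
    have := pq_pos (by linarith : 0 < b + 3) (m - 1)
    unfold Pool.Agent.Helper39.HR.Xm
    positivity
  have hN : ‖1 + s‖ ^ 2 ≤ 441 / 400 := by
    have h1 : ‖1 + s‖ ≤ 21 / 20 := by
      refine (norm_add_le _ _).trans ?_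
      rw [norm_one]
      linarith
    have h2 : ‖1 + s‖ ^ 2 ≤ (21 / 20) ^ 2 := pow_le_pow_left₀ (norm_nonneg _) h1 2
    linarith
  -- the product of the constants
  have hc : Ks s.re (‖s‖ ^ 2) * Cw s b m ≤ ‖s‖ ^ 2 / 2 * (1 + 4 * ‖s‖ ^ 2) * (1 + ζ) := by
    refine (Pool.Agent.Helper39.HR.K_mul_Cw s hs2 hb0 hb12 m hm1).trans ?_
    have hq0 : 0 ≤ (1 - 2 * s.re + ‖s‖ ^ 2) / (b + 1 - 2 * s.re) := by
      apply div_nonneg <;> linarith
    have hq1 : (1 - 2 * s.re + ‖s‖ ^ 2) / (b + 1 - 2 * s.re) ≤ 1 := by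
      rw [div_le_one hσ]
      linarith
    have hBR := small_const hρ0.le hρ1 hb0 hb2 hre.1 hre.2
    have hB0 : 0 ≤ Bq s.re (‖s‖ ^ 2) := by
      have := Pool.Agent.Helper39.HR.kap_le_Bq (r := s.re) hr4 hρ0.le 0
      rw [kap_zero] at this
      linarith
    have hR0 := Pool.Agent.Helper39.HR.Rb_nonneg hb0 hb12 (by linarith : -(1 / 2) ≤ s.re)
      (by linarith : s.re < 1 / 2)
    calc ‖s‖ ^ 2 / 2 * ((1 - 2 * s.re + ‖s‖ ^ 2) / (b + 1 - 2 * s.re))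
        * (Bq s.re (‖s‖ ^ 2) * Rb b s.re) * ((1 + 2 / m) * Real.exp (3 / (2 * m)))
        ≤ ‖s‖ ^ 2 / 2 * 1 * (1 + 4 * ‖s‖ ^ 2) * (1 + ζ) := by gcongr
      _ = _ := by ring
  obtain ⟨k1, k2⟩ := small_coef (N := ‖1 + s‖ ^ 2) (c := Ks s.re (‖s‖ ^ 2) * Cw s b m)
    (u := 1 / (m : ℝ)) (v := 1 / (L : ℝ) + L / m) (b := b) ha ha1 hρ0 hρ1 hba hre.1 hre.2
    (by positivity) hN (by positivity) hζ0 hζ1 hc (by positivity) g2 (by linarith)
  have hv : vS d m 0 = Sk d m 0 := by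
    unfold vS Pool.Agent.Helper39.HR.Sk
    simp
  have hXe : (m : ℝ) ^ 2 / (KS s * pq (b + 3) (m - 1))
      * ((a / 2 * (1 + 20 * ‖s‖ ^ 2) + δ) * ‖vS d m 0‖ ^ 2)
      = 4 * (a / 2 * (1 + 20 * ‖s‖ ^ 2) + δ) * Xm b (Ks s.re (‖s‖ ^ 2)) d m := by
    have h1 := pq_pos (by linarith : 0 < b + 3) (m - 1)
    have h2 : 0 < Ks s.re (‖s‖ ^ 2) := by linarith
    rw [hKS, hv]
    unfold Pool.Agent.Helper39.HR.Xm
    field_simp
  rw [hXe]
  unfold Nf
  refine key.trans ?_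
  have ekp : Pool.Agent.Helper39.HR.kp b m L = (1 + (b + 3) * (1 / (m : ℝ))) / (2 * (b + 2))
      + (1 / (L : ℝ) + L / m) := by
    unfold Pool.Agent.Helper39.HR.kp
    ring
  have e1 : (b + 3) / (m : ℝ) = (b + 3) * (1 / (m : ℝ)) := by ring
  have e2 : (b + 1) / (m : ℝ) = (b + 1) * (1 / (m : ℝ)) := by ring
  rw [ekp, e1, e2, mul_one, mul_one, div_one]
  have i1 := mul_le_mul_of_nonneg_right k1 hP
  have i2 := mul_le_mul_of_nonneg_right k2 hX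
  have i3 : 4 * (a / 2 * (1 + 20 * ‖s‖ ^ 2) + 3 * ζ) * Xm b (Ks s.re (‖s‖ ^ 2)) d m
      ≤ 4 * (a / 2 * (1 + 20 * ‖s‖ ^ 2) + δ) * Xm b (Ks s.re (‖s‖ ^ 2)) d m := by
    gcongr
  linarith

end Pool.Agent.Helper24.HR2
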