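import Mathlib
import Pool.Agent.Helper24.HR2.Defs
import Pool.Agent.Helper24.HR2.LSBase
import Pool.Agent.Helper24.HR2.RelS
import Pool.Agent.Helper24.HR2.SmallForm
import Pool.Agent.Helper39.MH.Weights

/-!
MP_16b0ee, project HR2, module 10c: the region of small exponents, conclusion.
-/

set_option autoImplicit false

open MeasureTheory Set Metric Filter Topology
open scoped Real ComplexConjugate

namespace Pool.Agent.Helper24.HR2

open Pool.Agent.Helper22.Half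
open Pool.Agent.Helper22.Marshall (coeff SepHol LogPhi dcoeff GLe)
open Pool.Agent.Helper39.Area (Ext phi)
open Pool.Agent.Helper39.MH

namespace SmallCore

theorem cont_H {ρ : ℝ} {β H : ℂ → ℂ} {Φ : ℂ → ℂ → ℂ} (h : Dat ρ β H Φ) :
    ContinuousOn H (closedBall 0 1) :=
  h.diff.continuousOn.mono (closedBall_subset_ball h.one_lt)

theorem cont_pair {ρ : ℝ} {β H : ℂ → ℂ} {Φ : ℂ → ℂ → ℂ} (h : Dat ρ β H Φ) (ζ : ℂ)
    (A B : List ℕ) :
    ContinuousOn (fun z => (ζ * (ev (cc H z) A * conj (ev (cc H z) B))).re)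
      (closedBall (0 : ℂ) 1) := by
  have h1 := cont_ev_cc h.one_lt h.diff A
  have h2 := cont_ev_cc h.one_lt h.diff B
  have h3 : ContinuousOn (fun z => conj (ev (cc H z) B)) (closedBall (0 : ℂ) 1) :=
    Complex.continuous_conj.comp_continuousOn h2
  exact Complex.continuous_re.comp_continuousOn (continuousOn_const.mul (h1.mul h3))

theorem cont_dval {ρ : ℝ} {β H : ℂ → ℂ} {Φ : ℂ → ℂ → ℂ} (h : Dat ρ β H Φ) (n : ℕ) :
    ContinuousOn (fun z => dval (cc H z) n) (closedBall (0 : ℂ) 1) := by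
  have hc := fun k => cont_cc h.one_lt h.diff k
  unfold dval
  split_ifs
  · exact (continuousOn_const.mul (hc 1)).sub ((hc 0).pow 2)
  · exact (continuousOn_const.mul (hc (n + 1))).add
      (continuousOn_finsetSum _ fun i _ => (hc (i + 1)).mul (hc (n - 1 - i)))

theorem cont_Dv {ρ : ℝ} {β H : ℂ → ℂ} {Φ : ℂ → ℂ → ℂ} (h : Dat ρ β H Φ) (A : List ℕ) :
    ContinuousOn (fun z => Dv (cc H z) A) (closedBall (0 : ℂ) 1) := by
  induction A with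
  | nil =>
    simp only [Dv]
    exact continuousOn_const
  | cons a A ih =>
    simp only [Dv]
    exact ((cont_dval h a).mul (cont_ev_cc h.one_lt h.diff A)).add
      ((cont_cc h.one_lt h.diff a).mul ih)

theorem cont_DGs {ρ : ℝ} {β H : ℂ → ℂ} {Φ : ℂ → ℂ → ℂ} (h : Dat ρ β H Φ) (s : ℂ)
    (A : List ℕ) : ContinuousOn (fun z => DGs s (cc H z) A) (closedBall (0 : ℂ) 1) := by
  unfold DGs
  exact ((continuousOn_const.mul (cont_cc h.one_lt h.diff 0)).mul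
    (cont_ev_cc h.one_lt h.diff A)).add (cont_Dv h A)

theorem cont_rel {ρ : ℝ} {β H : ℂ → ℂ} {Φ : ℂ → ℂ → ℂ} (h : Dat ρ β H Φ) (s : ℂ) (b : ℝ) (ζ : ℂ)
    (A B : List ℕ) :
    ContinuousOn (fun z => (ζ * relS s b (cc H z) A B).re) (closedBall (0 : ℂ) 1) := by
  have h1 := cont_ev_cc h.one_lt h.diff A
  have h2 := cont_ev_cc h.one_lt h.diff B
  have h3 : ContinuousOn (fun z => conj (ev (cc H z) B)) (closedBall (0 : ℂ) 1) :=
    Complex.continuous_conj.comp_continuousOn h2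
  unfold relS
  exact Complex.continuous_re.comp_continuousOn (continuousOn_const.mul
    (((cont_DGs h s A).mul h3).sub (continuousOn_const.mul (h1.mul h3))))

theorem cont_YS {ρ : ℝ} {β H : ℂ → ℂ} {Φ : ℂ → ℂ → ℂ} (h : Dat ρ β H Φ) (s : ℂ) (r : ℕ) :
    ContinuousOn (fun z => YS s (cc H z) r) (closedBall (0 : ℂ) 1) := by
  have hc := fun k => cont_cc h.one_lt h.diff k
  have h0 := hc 0
  have h1 := hc 1
  have h2 := hc 2
  have h3 := hc 3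
  match r with
  | 0 =>
    simp only [YS]
    exact continuousOn_const.mul h0
  | 1 =>
    simp only [YS]
    exact ((h0.pow 2).sub h1).div_const 2
  | 2 =>
    simp only [YS]
    exact (continuousOn_const.mul (((h0.pow 2).sub h1).pow 2)).add
      (continuousOn_const.mul (((((h3.neg.add (h1.pow 2)).add
        ((continuousOn_const.mul h0).mul h2)).sub
        ((continuousOn_const.mul (h0.pow 2)).mul h1))).add (h0.pow 4)))
  | (r + 3) =>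
    simp only [YS]
    exact continuousOn_const

theorem cont_qY {ρ : ℝ} {β H : ℂ → ℂ} {Φ : ℂ → ℂ → ℂ} (h : Dat ρ β H Φ) (Q : ℕ → ℕ → ℂ)
    (s : ℂ) (b : ℝ) :
    ContinuousOn (fun z => qY Q s b (cc H z)) (closedBall (0 : ℂ) 1) := by
  unfold qY
  refine continuousOn_const.mul (continuousOn_finsetSum _ fun r _ =>
    continuousOn_finsetSum _ fun t _ => ContinuousOn.div_const ?_ _)
  have h3 : ContinuousOn (fun z => conj (YS s (cc H z) r)) (closedBall (0 : ℂ) 1) :=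
    Complex.continuous_conj.comp_continuousOn (cont_YS h s r)
  exact Complex.continuous_re.comp_continuousOn
    (continuousOn_const.mul ((cont_YS h s t).mul h3))

/-- one relation term; `E` bounds the multiplier -/
theorem rel_term (A B : List ℕ) : ∃ K : ℝ, 0 ≤ K ∧
    ∀ (ρ : ℝ) (β H : ℂ → ℂ) (Φ : ℂ → ℂ → ℂ), Dat ρ β H Φ → ∀ (s ζ : ℂ) (b E : ℝ), 0 < b → b ≤ 1 →
      ‖s‖ ≤ 1 / 20 → ‖ζ‖ ≤ E →
      |LS s H b (fun z => (ζ * relS s b (cc H z) A B).re)| ≤ K * E := by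
  obtain ⟨Cb, hC0, hCb⟩ := gg_bound
  have hPA := (ev_bound hC0 (c := fun n => (0:ℂ)) (fun n => by simpa using hC0 n) A).2
  have hPB := (ev_bound hC0 (c := fun n => (0:ℂ)) (fun n => by simpa using hC0 n) B).2
  refine ⟨((wt A : ℝ) + wt B + 2) * ((A.map Cb).prod * (B.map Cb).prod * 2), by positivity, ?_⟩
  intro ρ β H Φ h s ζ b E hb hb1 hs hζ
  have hE : 0 ≤ E := (norm_nonneg _).trans hζ
  have hHd : DifferentiableOn ℂ H (ball 0 1) := h.diff.mono (ball_subset_ball h.one_lt.le)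
  have hbnd : ∀ z ∈ ball (0 : ℂ) 1, |(ζ * (ev (cc H z) A * conj (ev (cc H z) B))).re|
      ≤ E * ((A.map Cb).prod * (B.map Cb).prod) := by
    intro z hz
    have h5 := (ev_bound hC0 (fun n => hCb H hHd h.bloch n z hz) A).1
    have h6 := (ev_bound hC0 (fun n => hCb H hHd h.bloch n z hz) B).1
    refine (Complex.abs_re_le_norm _).trans ?_
    rw [norm_mul, norm_mul, Complex.norm_conj]
    gcongr
  have herr := LS_err h (s := s) hb (by linarith) (cont_pair h ζ A B) hbnd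
  rw [relS_LS h hb s ζ A B, abs_mul, abs_neg, abs_of_pos (by positivity)]
  have h9 : E * ((A.map Cb).prod * (B.map Cb).prod) / (b + 1 - 2 * ‖s‖)
      ≤ E * ((A.map Cb).prod * (B.map Cb).prod) * 2 := by
    rw [div_le_iff₀ (by linarith)]
    have : 0 ≤ E * ((A.map Cb).prod * (B.map Cb).prod) := by positivity
    nlinarith
  calc (b + wt A + wt B + 1) * |LS s H b (fun z => (1 - ‖z‖ ^ 2)
          * (ζ * (ev (cc H z) A * conj (ev (cc H z) B))).re)|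
      ≤ ((wt A : ℝ) + wt B + 2) * (E * ((A.map Cb).prod * (B.map Cb).prod) * 2) := by
        apply mul_le_mul _ (herr.trans h9) (abs_nonneg _) (by positivity)
        linarith
    _ = _ := by ring

/-- a list of relation terms -/
theorem rel_list (rels : List ((ℂ → ℂ) × List ℕ × List ℕ)) : ∃ K : ℝ, 0 ≤ K ∧
    ∀ (ρ : ℝ) (β H : ℂ → ℂ) (Φ : ℂ → ℂ → ℂ), Dat ρ β H Φ → ∀ (s : ℂ) (b E : ℝ), 0 < b → b ≤ 1 →
      ‖s‖ ≤ 1 / 20 → (∀ x ∈ rels, ‖x.1 s‖ ≤ E) →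
      (rels.map (fun x => LS s H b
        (fun z => (x.1 s * relS s b (cc H z) x.2.1 x.2.2).re))).sum ≤ K * E := by
  induction rels with
  | nil =>
    refine ⟨0, le_rfl, ?_⟩
    intro ρ β H Φ h s b E hb hb1 hs hζ
    simp
  | cons x rels ih =>
    obtain ⟨K1, hK1, h1⟩ := ih
    obtain ⟨K2, hK2, h2⟩ := rel_term x.2.1 x.2.2
    refine ⟨K2 + K1, by positivity, ?_⟩
    intro ρ β H Φ h s b E hb hb1 hs hζ
    have h3 := h1 ρ β H Φ h s b E hb hb1 hs (fun y hy => hζ y (List.mem_cons_of_mem _ hy))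
    have h4 := h2 ρ β H Φ h s (x.1 s) b E hb hb1 hs (hζ x List.mem_cons_self)
    rw [List.map_cons, List.sum_cons]
    have h5 := (abs_le.mp h4).2
    linarith

theorem wt_zero : wt [0] = 1 := rfl

theorem R2_id {s : ℂ} (hs : s ≠ 0) {a b : ℝ} (ha : 0 < a) (hb : b = ‖s‖ ^ 2 / a) (c : ℕ → ℂ) :
    ‖c 0‖ ^ 2 - (b + 1) / (4 * a)
      = ((((b + 1) / (4 * ‖s‖ ^ 2) : ℝ) : ℂ) * relS s b c [] []).re
        + (-(1 / (2 * s)) * relS s b c [] [0]).re := by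
  have hn : ‖s‖ ≠ 0 := norm_ne_zero_iff.mpr hs
  have hnn : ((‖s‖ : ℝ) : ℂ) ≠ 0 := by exact_mod_cast hn
  have haa : (a : ℂ) ≠ 0 := by exact_mod_cast ha.ne'
  have hcs : conj s ≠ 0 := (map_ne_zero _).mpr hs
  have h1 : ((((b + 1) / (4 * ‖s‖ ^ 2) : ℝ) : ℂ) * relS s b c [] []).re
      = ((((b + 1) / (4 * ‖s‖ ^ 2) : ℝ) : ℂ) * conj (relS s b c [] [])).re := by
    rw [Complex.re_ofReal_mul, Complex.re_ofReal_mul, Complex.conj_re]
  rw [h1, ← Complex.add_re]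
  have h2 : relS s b c [] [] = -2 * s * c 0 - b := by
    unfold relS DGs
    simp [ev_nil, Dv, wt_nil]
  have h3 : relS s b c [] [0] = -2 * s * c 0 * conj (c 0) - (b + 1) * conj (c 0) := by
    unfold relS DGs
    simp [ev_nil, ev_cons, Dv, wt_nil, wt_zero]
  have hss : (((‖s‖ ^ 2 : ℝ)) : ℂ) = s * conj s := by
    rw [Complex.mul_conj, Complex.normSq_eq_norm_sq]
  have h4 : (((b + 1) / (4 * ‖s‖ ^ 2) : ℝ) : ℂ) = ((b : ℂ) + 1) / (4 * (s * conj s)) := by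
    rw [← hss]
    push_cast
    ring
  have hbc : (b : ℂ) = s * conj s / a := by
    rw [hb, Complex.ofReal_div, hss]
  have hcc : c 0 * conj (c 0) = ((‖c 0‖ ^ 2 : ℝ) : ℂ) := by
    rw [Complex.mul_conj, Complex.normSq_eq_norm_sq]
  have h5 : (((b + 1) / (4 * ‖s‖ ^ 2) : ℝ) : ℂ) * conj (relS s b c [] [])
      + -(1 / (2 * s)) * relS s b c [] [0]
      = ((‖c 0‖ ^ 2 - (b + 1) / (4 * a) : ℝ) : ℂ) := by
    rw [h2, h3, h4]
    have e1 : conj (-2 * s * c 0 - (b : ℂ)) = -2 * conj s * conj (c 0) - b := by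
      rw [map_sub, map_mul, map_mul, map_neg, Complex.conj_ofReal, map_ofNat]
    rw [e1]
    push_cast
    rw [show ((‖c 0‖ : ℝ) : ℂ) ^ 2 = c 0 * conj (c 0) by rw [hcc]; push_cast; rfl]
    have e2 : ((b : ℂ) + 1) / (4 * (s * conj s)) * (-2 * conj s * conj (c 0) - b)
        = -((b : ℂ) + 1) * conj (c 0) / (2 * s) - (b + 1) * b / (4 * (s * conj s)) := by
      field_simp
      ring
    have e3 : ((b : ℂ) + 1) * b / (4 * (s * conj s)) = (b + 1) / (4 * a) := by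
      have : (b : ℂ) / (s * conj s) = 1 / a := by
        rw [hbc]
        field_simp
      calc ((b : ℂ) + 1) * b / (4 * (s * conj s)) = (b + 1) / 4 * ((b : ℂ) / (s * conj s)) := by
            field_simp
        _ = _ := by
            rw [this]
            field_simp
    rw [e2, e3]
    field_simp
    ring
  rw [h5, Complex.ofReal_re]

end SmallCore

open SmallCore

/-- the region of small exponents; the multipliers may grow like `1 / |s|^2` -/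
theorem core_small' {a : ℝ} (ha : 1 / 2 ≤ a) (ha1 : a < 1) {s0 : ℝ} (hs0 : s0 ≤ 1 / 20)
    (T Q : ℂ → ℕ → ℕ → ℂ) {CT : ℝ} (hT : ∀ s : ℂ, ‖s‖ ≤ s0 → ∀ n r, ‖T s n r‖ ≤ CT)
    (hQb : ∀ s : ℂ, ‖s‖ ≤ s0 → ∀ r t, ‖Q s r t‖ ≤ CT)
    (hQ : ∀ s : ℂ, s ≠ 0 → ‖s‖ ≤ s0 → ∀ g : ℕ → ℂ, hF 3 (Q s) g
      ≤ (1 - 20 * ‖s‖ ^ 2) * (linF s 3 5 g (Tg 3 (T s) g)
          - gamF s (‖s‖ ^ 2 / a) 5 (Tg 3 (T s) g))
        - a / 2 * (1 + 20 * ‖s‖ ^ 2) * ‖g 0‖ ^ 2)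
    (rels : List ((ℂ → ℂ) × List ℕ × List ℕ)) {CZ : ℝ}
    (hζ : ∀ x ∈ rels, ∀ s : ℂ, s ≠ 0 → ‖s‖ ≤ s0 → ‖x.1 s‖ ≤ CZ / ‖s‖ ^ 2)
    {η : ℝ} (hη : 0 < η)
    (hc : ∀ s : ℂ, s ≠ 0 → ‖s‖ ≤ s0 → ∀ c : ℕ → ℂ, η * ‖c 0‖ ^ 2 ≤ qY (Q s) s (‖s‖ ^ 2 / a) c
      + (rels.map (fun x => (x.1 s * relS s (‖s‖ ^ 2 / a) c x.2.1 x.2.2).re)).sum) :
    ∃ C : ℝ, ∀ s : ℂ, s ≠ 0 → ‖s‖ ≤ s0 → ∀ (ρ : ℝ) (β H : ℂ → ℂ) (Φ : ℂ → ℂ → ℂ),
      Dat ρ β H Φ → ‖s‖ ^ 2 / a * LS s H (‖s‖ ^ 2 / a) (fun _ => 1) ≤ C := by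
  obtain ⟨C1, hC1⟩ := area_form_small ha ha1 hs0 T Q hT hQb hQ (half_pos hη)
  obtain ⟨K0, hK0, hrel⟩ := rel_list rels
  obtain ⟨K1, hK1, hr1⟩ := rel_term [] []
  obtain ⟨K2, hK2, hr2⟩ := rel_term [] [0]
  have ha0 : 0 < a := by linarith
  refine ⟨4 * ((2 / η) * (C1 + K0 * CZ) + K1 + K2), ?_⟩
  intro s hs hss ρ β H Φ h
  have hn : 0 < ‖s‖ := norm_pos_iff.mpr hs
  have hn2 : 0 < ‖s‖ ^ 2 := by positivity
  have hs20 : ‖s‖ ≤ 1 / 20 := hss.trans hs0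
  have hb0 : 0 < ‖s‖ ^ 2 / a := by positivity
  have hb1 : ‖s‖ ^ 2 / a ≤ 1 := by
    rw [div_le_one ha0]
    nlinarith
  have hA := hC1 s hs hss ρ β H Φ h
  have hcs := hc s hs hss
  have hζs := fun x hx => hζ x hx s hs hss
  set b := ‖s‖ ^ 2 / a with hbdef
  have hH := cont_H h
  have hc0 : ContinuousOn (fun z => ‖cc H z 0‖ ^ 2) (closedBall (0 : ℂ) 1) :=
    (cont_cc h.one_lt h.diff 0).norm.pow 2
  have hqc := cont_qY h (Q s) s b
  -- integrate the certificate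
  obtain ⟨hl1, hl2⟩ := LS_list (s := s) (b := b) hH hb0 rels
    (fun x z => (x.1 s * relS s b (cc H z) x.2.1 x.2.2).re)
    (fun x _ => cont_rel h s b (x.1 s) x.2.1 x.2.2)
  have hm : LS s H b (fun z => η * ‖cc H z 0‖ ^ 2)
      ≤ LS s H b (fun z => qY (Q s) s b (cc H z)
        + (rels.map (fun x => (x.1 s * relS s b (cc H z) x.2.1 x.2.2).re)).sum) :=
    LS_mono hH hb0 (continuousOn_const.mul hc0) (hqc.add hl2) (fun z _ => hcs (cc H z))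
  rw [LS_smul, LS_add hH hb0 hqc hl2, hl1] at hm
  have hr := hrel ρ β H Φ h s b (CZ / ‖s‖ ^ 2) hb0 hb1 hs20 hζs
  have hLc : LS s H b (fun z => ‖cc H z 0‖ ^ 2) ≤ (2 / η) * (C1 + K0 * CZ) / ‖s‖ ^ 2 := by
    have h3 : η / 2 * LS s H b (fun z => ‖cc H z 0‖ ^ 2) ≤ (C1 + K0 * CZ) / ‖s‖ ^ 2 := by
      have e : (C1 + K0 * CZ) / ‖s‖ ^ 2 = C1 / ‖s‖ ^ 2 + K0 * (CZ / ‖s‖ ^ 2) := by ring
      rw [e]
      linarith
    have h4 : LS s H b (fun z => ‖cc H z 0‖ ^ 2)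
        = 2 / η * (η / 2 * LS s H b (fun z => ‖cc H z 0‖ ^ 2)) := by
      field_simp
    rw [h4, mul_div_assoc]
    exact mul_le_mul_of_nonneg_left h3 (by positivity)
  -- the relation R2
  have hk1 : LS s H b (fun z => ‖cc H z 0‖ ^ 2 + (-((b + 1) / (4 * a))) * 1)
      = LS s H b (fun z => ((((b + 1) / (4 * ‖s‖ ^ 2) : ℝ) : ℂ) * relS s b (cc H z) [] []).re
        + (-(1 / (2 * s)) * relS s b (cc H z) [] [0]).re) := by
    apply LS_congr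
    intro z _
    rw [← R2_id hs ha0 hbdef (cc H z)]
    ring
  rw [LS_add hH hb0 hc0 continuousOn_const, LS_smul,
    LS_add hH hb0 (cont_rel h s b _ _ _) (cont_rel h s b _ _ _)] at hk1
  have he1 := hr1 ρ β H Φ h s (((b + 1) / (4 * ‖s‖ ^ 2) : ℝ) : ℂ) b (1 / ‖s‖ ^ 2) hb0 hb1 hs20
    (by
      rw [Complex.norm_real, Real.norm_of_nonneg (by positivity), div_le_div_iff₀ (by positivity)
        hn2]
      nlinarith)
  have he2 := hr2 ρ β H Φ h s (-(1 / (2 * s))) b (1 / ‖s‖ ^ 2) hb0 hb1 hs20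
    (by
      rw [norm_neg, norm_div, norm_mul, norm_one, Complex.norm_ofNat,
        div_le_div_iff₀ (by positivity) hn2]
      nlinarith)
  have g1 := (abs_le.mp he1).1
  have g2 := (abs_le.mp he2).1
  have hL1 : (b + 1) / (4 * a) * LS s H b (fun _ => 1)
      ≤ ((2 / η) * (C1 + K0 * CZ) + K1 + K2) / ‖s‖ ^ 2 := by
    have e : ((2 / η) * (C1 + K0 * CZ) + K1 + K2) / ‖s‖ ^ 2
        = (2 / η) * (C1 + K0 * CZ) / ‖s‖ ^ 2 + K1 * (1 / ‖s‖ ^ 2) + K2 * (1 / ‖s‖ ^ 2) := by ring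
    rw [e]
    linarith
  have hL0 : 0 ≤ LS s H b (fun _ => 1) :=
    LS_nonneg hH hb0 continuousOn_const (fun _ _ => zero_le_one)
  have h5 : 1 / (4 * a) * LS s H b (fun _ => 1) ≤ (b + 1) / (4 * a) * LS s H b (fun _ => 1) := by
    apply mul_le_mul_of_nonneg_right _ hL0
    apply div_le_div_of_nonneg_right _ (by positivity)
    linarith
  have h6 := h5.trans hL1
  calc b * LS s H b (fun _ => 1) = 4 * ‖s‖ ^ 2 * (1 / (4 * a) * LS s H b (fun _ => 1)) := by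
        rw [hbdef]
        field_simp
    _ ≤ 4 * ‖s‖ ^ 2 * (((2 / η) * (C1 + K0 * CZ) + K1 + K2) / ‖s‖ ^ 2) :=
        mul_le_mul_of_nonneg_left h6 (by positivity)
    _ = 4 * ((2 / η) * (C1 + K0 * CZ) + K1 + K2) := by
        field_simp

/-- the version with one multiplier for each pair -/
theorem core_small {a : ℝ} (ha : 1 / 2 ≤ a) (ha1 : a < 1) {s0 : ℝ} (hs0 : s0 ≤ 1 / 20)
    (T Q : ℂ → ℕ → ℕ → ℂ) {CT : ℝ} (hT : ∀ s : ℂ, ‖s‖ ≤ s0 → ∀ n r, ‖T s n r‖ ≤ CT)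
    (hQb : ∀ s : ℂ, ‖s‖ ≤ s0 → ∀ r t, ‖Q s r t‖ ≤ CT)
    (hQ : ∀ s : ℂ, s ≠ 0 → ‖s‖ ≤ s0 → ∀ g : ℕ → ℂ, hF 3 (Q s) g
      ≤ (1 - 20 * ‖s‖ ^ 2) * (linF s 3 5 g (Tg 3 (T s) g)
          - gamF s (‖s‖ ^ 2 / a) 5 (Tg 3 (T s) g))
        - a / 2 * (1 + 20 * ‖s‖ ^ 2) * ‖g 0‖ ^ 2)
    (prs : List (List ℕ × List ℕ))
    (ζ : ℂ → List ℕ → List ℕ → ℂ)
    (hζ : ∀ s : ℂ, s ≠ 0 → ‖s‖ ≤ s0 → ∀ A B, ‖ζ s A B‖ ≤ CT / ‖s‖ ^ 2)
    {η : ℝ} (hη : 0 < η)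
    (hc : ∀ s : ℂ, s ≠ 0 → ‖s‖ ≤ s0 → ∀ c : ℕ → ℂ, η * ‖c 0‖ ^ 2 ≤ qY (Q s) s (‖s‖ ^ 2 / a) c
      + (prs.map (fun x => (ζ s x.1 x.2 * relS s (‖s‖ ^ 2 / a) c x.1 x.2).re)).sum) :
    ∃ C : ℝ, ∀ s : ℂ, s ≠ 0 → ‖s‖ ≤ s0 → ∀ (ρ : ℝ) (β H : ℂ → ℂ) (Φ : ℂ → ℂ → ℂ),
      Dat ρ β H Φ → ‖s‖ ^ 2 / a * LS s H (‖s‖ ^ 2 / a) (fun _ => 1) ≤ C := by
  refine core_small' ha ha1 hs0 T Q hT hQb hQ
    (prs.map fun x => ((fun s => ζ s x.1 x.2), x.1, x.2)) (CZ := CT) ?_ hη ?_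
  · intro x hx s hs hss
    obtain ⟨y, _, rfl⟩ := List.mem_map.mp hx
    exact hζ s hs hss y.1 y.2
  · intro s hs hss c
    rw [List.map_map]
    exact hc s hs hss c

end Pool.Agent.Helper24.HR2
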