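import Mathlib
import Pool.Agent.Helper12.HR2.Bridge
import Pool.Agent.Helper24.HR2.SmallV0
import Pool.Agent.Helper24.HR2.SmallV1
import Pool.Agent.Helper24.HR2.SmallV2
import Pool.Agent.Helper24.HR2.SmallV3
import Pool.Agent.Helper24.HR2.SmallV4
import Pool.Agent.Helper24.HR2.SmallV5
import Pool.Agent.Helper24.HR2.SmallV6
import Pool.Agent.Helper24.HR2.SmallV7

/-!
MP_16b0ee, project HR2: the region of small exponents. The inequality is jointly affine in the
exponent `s`, its conjugate and the parameter `b`; it is checked at the eight vertices of a box.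
-/

set_option autoImplicit false

open scoped ComplexConjugate

namespace Pool.Agent.Helper24.HR2

namespace SmallCert

open Pool.Agent.Helper12.HR2

/-- the first moment -/
noncomputable def yy0 (c : ℕ → ℂ) : ℂ := -2 * c 0

/-- the second moment -/
noncomputable def yy1 (c : ℕ → ℂ) : ℂ := (c 0 ^ 2 - c 1) / 2

/-- the fourth moment (part without the exponent) -/
noncomputable def yy2 (c : ℕ → ℂ) : ℂ := -(3 / 4) * (c 0 ^ 2 - c 1) ^ 2
  + 3 / 2 * (-(c 3) + c 1 ^ 2 + 2 * c 0 * c 2 - 3 * c 0 ^ 2 * c 1 + c 0 ^ 4)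

/-- the area form, affine in the exponent -/
noncomputable def FA (s sb y0 y1 y2 e0 e1 e2 : ℂ) : ℂ :=
  2 * (-91 / 1000 + 3 / 10 + 171 / 640 + 15 / 16 * s) * (y0 * e0)
    + 2 * (-18 / 5 - 171 / 16 - 15 / 8 * s - 45 / 8 * sb) * (y0 * e1)
    + ((216 / 5 + 855 / 2) / 3 + 15 * s) * (y1 * e1)
    + 133 / 16 * ((y2 + 3 * s * y1 ^ 2) * e0) - 133 / 2 * ((y2 + 3 * s * y1 ^ 2) * e1)
    + 133 / 36 * (y2 * e2 + 6 * s * (y1 ^ 2 * e2))

/-- the area form -/
noncomputable def AAc (s sb : ℂ) (c d : ℕ → ℂ) : ℂ :=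
  FA s sb (yy0 c) (yy1 c) (yy2 c) (yy0 d) (yy1 d) (yy2 d)

/-- the part of the inequality without the regular relations -/
noncomputable def EE (s sb b : ℂ) (c d : ℕ → ℂ) : ℂ :=
  34359738368000 * (1 / 64 * (c 0 * d 0) - AAc s sb c d)
    + 80268292158507 * (c 0 + 50 / 67 * sb)
    + 37984484231356 * (c 0 * d 0 - 25 / 67 * (b + 1))

/-- the multipliers -/
def PP : Pol := decGs wG hG GG tab4Bt

/-- the inequality at a point of the parameter space -/
noncomputable def Wf (c : ℕ → ℂ) (σ τ b : ℝ) : ℝ :=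
  (EE (σ + τ * Complex.I) (σ - τ * Complex.I) b c (fun k => conj (c k))).re
    + (rel (σ + τ * Complex.I) b c PP).re

theorem rel_affine (c : ℕ → ℂ) (P : Pol) : ∃ R0 R1 R2 : ℂ, ∀ s b : ℂ,
    rel s b c P = R0 + s * R1 + b * R2 := by
  induction P with
  | nil => exact ⟨0, 0, 0, fun s b => by simp [rel_nil]⟩
  | cons t P ih =>
    obtain ⟨R0, R1, R2, h⟩ := ih
    refine ⟨R0 + gv t.2 * ((Dvl c t.1.1 - (wl t.1.1 + wl t.1.2) * (t.1.1.map c).prod)
        * conj ((t.1.2.map c).prod)),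
      R1 + gv t.2 * ((-2 * c 0 * (t.1.1.map c).prod) * conj ((t.1.2.map c).prod)),
      R2 + gv t.2 * ((-(t.1.1.map c).prod) * conj ((t.1.2.map c).prod)), ?_⟩
    intro s b
    rw [rel_cons, h]
    ring

theorem EE_affine (c d : ℕ → ℂ) : ∃ E0 E1 E2 E3 : ℂ, ∀ s sb b : ℂ,
    EE s sb b c d = E0 + s * E1 + sb * E2 + b * E3 := by
  refine ⟨EE 0 0 0 c d, EE 1 0 0 c d - EE 0 0 0 c d, EE 0 1 0 c d - EE 0 0 0 c d,
    EE 0 0 1 c d - EE 0 0 0 c d, ?_⟩
  intro s sb b
  unfold EE AAc FA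
  ring

theorem Wf_affine (c : ℕ → ℂ) : ∃ w0 w1 w2 w3 : ℝ, ∀ σ τ b : ℝ,
    Wf c σ τ b = w0 + σ * w1 + τ * w2 + b * w3 := by
  obtain ⟨R0, R1, R2, hR⟩ := rel_affine c PP
  obtain ⟨E0, E1, E2, E3, hE⟩ := EE_affine c (fun k => conj (c k))
  refine ⟨E0.re + R0.re, E1.re + E2.re + R1.re, -E1.im + E2.im - R1.im, E3.re + R2.re, ?_⟩
  intro σ τ b
  unfold Wf
  rw [hR, hE]
  simp only [Complex.add_re, Complex.add_im, Complex.sub_re, Complex.sub_im, Complex.mul_re,
    Complex.mul_im, Complex.ofReal_re, Complex.ofReal_im, Complex.I_re, Complex.I_im]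
  ring

theorem of_vertex {p q : ℤ} {bn bd : ℕ} {C : Cert} (hP : C.P = ⟨p, q, 50, bn, bd⟩)
    (he : C.eta = 0) (hm : C.mL = 1) (hG' : C.G = GG) (hw : C.wL = wG) (hh : C.hL = hG)
    (h : check tab4 3 7 160 C = true) (c : ℕ → ℂ)
    (hq : pv c (fun k => conj (c k)) C.qf = EE (((p : ℂ) + q * Complex.I) / 50)
      (((p : ℂ) - q * Complex.I) / 50) ((bn : ℂ) / bd) c (fun k => conj (c k))) :
    Wf c ((p : ℝ) / 50) ((q : ℝ) / 50) ((bn : ℝ) / bd) ≤ 0 := by
  have h1 := sound tab4ok C h c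
  rw [hP, he, hm, hG', hw, hh, hq] at h1
  unfold Wf
  have e1 : (((p : ℝ) / 50 : ℝ) : ℂ) + (((q : ℝ) / 50 : ℝ) : ℂ) * Complex.I
      = ((p : ℂ) + q * Complex.I) / 50 := by
    push_cast
    ring
  have e2 : (((p : ℝ) / 50 : ℝ) : ℂ) - (((q : ℝ) / 50 : ℝ) : ℂ) * Complex.I
      = ((p : ℂ) - q * Complex.I) / 50 := by
    push_cast
    ring
  have e3 : (((bn : ℝ) / bd : ℝ) : ℂ) = (bn : ℂ) / bd := by
    push_cast
    rfl
  rw [e1, e2, e3]
  have e4 : (rel (((p : ℂ) + q * Complex.I) / ((50 : ℕ) : ℂ)) ((bn : ℂ) / bd) c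
      (decGs wG hG GG tab4Bt)) = rel (((p : ℂ) + q * Complex.I) / 50) ((bn : ℂ) / bd) c PP := by
    norm_num [PP]
  simp only at h1
  rw [e4] at h1
  push_cast at h1
  linarith

theorem vx0 (c : ℕ → ℂ) : Wf c (1 / 50) (1 / 50) (0) ≤ 0 := by
  have h := of_vertex (p := 1) (q := 1) (bn := 0) (bd := 1) (C := cv0) rfl rfl rfl rfl rfl rfl kv0 c
    (by
      change pv c (fun k => conj (c k)) qv0 = _
      simp only [qv0, pv_cons, pv_nil, mv, gv, List.map_cons, List.map_nil, List.prod_cons,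
        List.prod_nil, EE, AAc, FA, yy0, yy1, yy2]
      push_cast
      ring)
  norm_num at h ⊢
  exact h

theorem vx1 (c : ℕ → ℂ) : Wf c (1 / 50) (1 / 50) (1 / 1675) ≤ 0 := by
  have h := of_vertex (p := 1) (q := 1) (bn := 1) (bd := 1675) (C := cv1) rfl rfl rfl rfl rfl rfl kv1 c
    (by
      change pv c (fun k => conj (c k)) qv1 = _
      simp only [qv1, pv_cons, pv_nil, mv, gv, List.map_cons, List.map_nil, List.prod_cons,
        List.prod_nil, EE, AAc, FA, yy0, yy1, yy2]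
      push_cast
      ring)
  norm_num at h ⊢
  exact h

theorem vx2 (c : ℕ → ℂ) : Wf c (-1 / 50) (1 / 50) (0) ≤ 0 := by
  have h := of_vertex (p := -1) (q := 1) (bn := 0) (bd := 1) (C := cv2) rfl rfl rfl rfl rfl rfl kv2 c
    (by
      change pv c (fun k => conj (c k)) qv2 = _
      simp only [qv2, pv_cons, pv_nil, mv, gv, List.map_cons, List.map_nil, List.prod_cons,
        List.prod_nil, EE, AAc, FA, yy0, yy1, yy2]
      push_cast
      ring)
  norm_num at h ⊢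
  exact h

theorem vx3 (c : ℕ → ℂ) : Wf c (-1 / 50) (1 / 50) (1 / 1675) ≤ 0 := by
  have h := of_vertex (p := -1) (q := 1) (bn := 1) (bd := 1675) (C := cv3) rfl rfl rfl rfl rfl rfl kv3 c
    (by
      change pv c (fun k => conj (c k)) qv3 = _
      simp only [qv3, pv_cons, pv_nil, mv, gv, List.map_cons, List.map_nil, List.prod_cons,
        List.prod_nil, EE, AAc, FA, yy0, yy1, yy2]
      push_cast
      ring)
  norm_num at h ⊢
  exact h

theorem vx4 (c : ℕ → ℂ) : Wf c (1 / 50) (-1 / 50) (0) ≤ 0 := by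
  have h := of_vertex (p := 1) (q := -1) (bn := 0) (bd := 1) (C := cv4) rfl rfl rfl rfl rfl rfl kv4 c
    (by
      change pv c (fun k => conj (c k)) qv4 = _
      simp only [qv4, pv_cons, pv_nil, mv, gv, List.map_cons, List.map_nil, List.prod_cons,
        List.prod_nil, EE, AAc, FA, yy0, yy1, yy2]
      push_cast
      ring)
  norm_num at h ⊢
  exact h

theorem vx5 (c : ℕ → ℂ) : Wf c (1 / 50) (-1 / 50) (1 / 1675) ≤ 0 := by
  have h := of_vertex (p := 1) (q := -1) (bn := 1) (bd := 1675) (C := cv5) rfl rfl rfl rfl rfl rfl kv5 c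
    (by
      change pv c (fun k => conj (c k)) qv5 = _
      simp only [qv5, pv_cons, pv_nil, mv, gv, List.map_cons, List.map_nil, List.prod_cons,
        List.prod_nil, EE, AAc, FA, yy0, yy1, yy2]
      push_cast
      ring)
  norm_num at h ⊢
  exact h

theorem vx6 (c : ℕ → ℂ) : Wf c (-1 / 50) (-1 / 50) (0) ≤ 0 := by
  have h := of_vertex (p := -1) (q := -1) (bn := 0) (bd := 1) (C := cv6) rfl rfl rfl rfl rfl rfl kv6 c
    (by
      change pv c (fun k => conj (c k)) qv6 = _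
      simp only [qv6, pv_cons, pv_nil, mv, gv, List.map_cons, List.map_nil, List.prod_cons,
        List.prod_nil, EE, AAc, FA, yy0, yy1, yy2]
      push_cast
      ring)
  norm_num at h ⊢
  exact h

theorem vx7 (c : ℕ → ℂ) : Wf c (-1 / 50) (-1 / 50) (1 / 1675) ≤ 0 := by
  have h := of_vertex (p := -1) (q := -1) (bn := 1) (bd := 1675) (C := cv7) rfl rfl rfl rfl rfl rfl kv7 c
    (by
      change pv c (fun k => conj (c k)) qv7 = _
      simp only [qv7, pv_cons, pv_nil, mv, gv, List.map_cons, List.map_nil, List.prod_cons,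
        List.prod_nil, EE, AAc, FA, yy0, yy1, yy2]
      push_cast
      ring)
  norm_num at h ⊢
  exact h

/-- **The inequality in the box.** -/
theorem Wf_box (c : ℕ → ℂ) {σ τ b : ℝ} (hσ : |σ| ≤ 1 / 50) (hτ : |τ| ≤ 1 / 50) (hb : 0 ≤ b)
    (hb1 : b ≤ 1 / 1675) : Wf c σ τ b ≤ 0 := by
  obtain ⟨w0, w1, w2, w3, hW⟩ := Wf_affine c
  have v0 := vx0 c
  have v1 := vx1 c
  have v2 := vx2 c
  have v3 := vx3 c
  have v4 := vx4 c
  have v5 := vx5 c
  have v6 := vx6 c
  have v7 := vx7 c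
  rw [hW] at v0 v1 v2 v3 v4 v5 v6 v7 ⊢
  have m1 : σ * w1 ≤ 1 / 50 * |w1| := by
    refine (le_abs_self _).trans ?_
    rw [abs_mul]
    exact mul_le_mul_of_nonneg_right hσ (abs_nonneg _)
  have m2 : τ * w2 ≤ 1 / 50 * |w2| := by
    refine (le_abs_self _).trans ?_
    rw [abs_mul]
    exact mul_le_mul_of_nonneg_right hτ (abs_nonneg _)
  have m3 : b * w3 ≤ max 0 (1 / 1675 * w3) := by
    rcases le_total 0 w3 with h | h
    · exact (mul_le_mul_of_nonneg_right hb1 h).trans (le_max_right _ _)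
    · exact (mul_nonpos_of_nonneg_of_nonpos hb h).trans (le_max_left _ _)
  rcases abs_cases w1 with ⟨a1, _⟩ | ⟨a1, _⟩ <;> rcases abs_cases w2 with ⟨a2, _⟩ | ⟨a2, _⟩ <;>
    rcases max_cases (0 : ℝ) (1 / 1675 * w3) with ⟨a3, _⟩ | ⟨a3, _⟩ <;>
    rw [a1] at m1 <;> rw [a2] at m2 <;> rw [a3] at m3 <;> linarith

end SmallCert

end Pool.Agent.Helper24.HR2
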