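import Mathlib
import Pool.Agent.Helper24.HR2.SmallArea
import Pool.Agent.Helper24.HR2.SmallJoin
import Pool.Agent.Helper24.HR2.SmallCore

/-!
MP_16b0ee, project HR2: the region of small exponents, conclusion: the uniform bound for
`|s| ≤ 1 / 50` with the constant `67 / 100`.
-/

set_option autoImplicit false

open MeasureTheory Set Metric
open scoped Real ComplexConjugate

namespace Pool.Agent.Helper24.HR2

namespace SmallCert

open Pool.Agent.Helper12.HR2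

/-- the area form in the scaled variables -/
theorem qY_eq (s : ℂ) {b : ℝ} (hb : 0 ≤ b) (c : ℕ → ℂ) : qY (QQ s b) s b c
    = (b + 2) * Q00 s * ‖YS s c 0‖ ^ 2 + 2 * (Q10 s * (YS s c 0 * conj (YS s c 1))).re
      + Q11 s / 3 * ‖YS s c 1‖ ^ 2 + 133 / 16 * (YS s c 2 * conj (YS s c 0)).re
      - 133 / 2 * (YS s c 2 * conj (YS s c 1)).re + 133 / 36 * ‖YS s c 2‖ ^ 2 := by
  unfold qY
  simp only [Finset.sum_range_succ, Finset.sum_range_zero, QQ, wY, poch, Finset.prod_range_succ,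
    Finset.prod_range_zero]
  generalize YS s c 0 = u
  generalize YS s c 1 = v
  generalize YS s c 2 = w
  generalize Q00 s = q0
  generalize Q11 s = q2
  generalize Q10 s = q1
  obtain ⟨x0, y0⟩ := u
  obtain ⟨x1, y1⟩ := v
  obtain ⟨x2, y2⟩ := w
  obtain ⟨p, r⟩ := q1
  simp only [Complex.sq_norm, Complex.normSq_apply]
  simp only [Complex.add_re, Complex.add_im, Complex.sub_re, Complex.sub_im, Complex.mul_re,
    Complex.mul_im, Complex.conj_re, Complex.conj_im, Complex.neg_re, Complex.neg_im,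
    Complex.ofReal_re, Complex.ofReal_im]
  norm_num only
  have h1 : b + 1 ≠ 0 := by positivity
  have h2 : b + 1 + 1 ≠ 0 := by positivity
  have h3 : b + 1 + 2 ≠ 0 := by positivity
  have h4 : b + 1 + 3 ≠ 0 := by positivity
  have h5 : b + 1 + 4 ≠ 0 := by positivity
  have h6 : b + 1 + 5 ≠ 0 := by positivity
  have h7 : b + 1 + 6 ≠ 0 := by positivity
  field_simp
  ring

theorem AA_eq (s y0 y1 y2 : ℂ) : (FA s (conj s) y0 y1 y2 (conj y0) (conj y1) (conj y2)).re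
    = 2 * Q00 s * ‖y0‖ ^ 2 + 2 * (Q10 s * (y0 * conj y1)).re + Q11 s / 3 * ‖y1‖ ^ 2
      + 133 / 16 * ((y2 + 3 * s * y1 ^ 2) * conj y0).re
      - 133 / 2 * ((y2 + 3 * s * y1 ^ 2) * conj y1).re
      + 133 / 36 * (‖y2 + 3 * s * y1 ^ 2‖ ^ 2 - 9 * (‖s‖ ^ 2 * (‖y1‖ ^ 2) ^ 2)) := by
  unfold FA Q00 Q10 Q11 q1
  obtain ⟨x0, z0⟩ := y0
  obtain ⟨x1, z1⟩ := y1
  obtain ⟨x2, z2⟩ := y2
  obtain ⟨σ, τ⟩ := s
  simp only [Complex.sq_norm, Complex.normSq_apply]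
  simp only [pow_two, Complex.add_re, Complex.add_im, Complex.sub_re, Complex.sub_im,
    Complex.mul_re, Complex.mul_im, Complex.conj_re, Complex.conj_im, Complex.neg_re,
    Complex.neg_im, Complex.div_ofNat_re, Complex.div_ofNat_im, Complex.re_ofNat,
    Complex.im_ofNat, Complex.ofReal_re, Complex.ofReal_im]
  ring

theorem YS_two (s : ℂ) (c : ℕ → ℂ) : YS s c 2 = yy2 c + 3 * s * yy1 c ^ 2 := by
  simp only [YS, yy2, yy1]
  ring

theorem conj_yy0 (c : ℕ → ℂ) : yy0 (fun k => conj (c k)) = conj (yy0 c) := by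
  simp only [yy0, map_mul, map_neg, map_ofNat]

theorem conj_yy1 (c : ℕ → ℂ) : yy1 (fun k => conj (c k)) = conj (yy1 c) := by
  simp only [yy1, map_sub, map_pow, map_div₀, map_ofNat]

theorem conj_yy2 (c : ℕ → ℂ) : yy2 (fun k => conj (c k)) = conj (yy2 c) := by
  simp only [yy2, map_mul, map_add, map_neg, map_sub, map_pow, map_div₀, map_ofNat]

theorem Q00_nonneg {s : ℂ} (hs : ‖s‖ ≤ 1 / 50) : 0 ≤ Q00 s := by
  have h := abs_le.mp ((Complex.abs_re_le_norm s).trans hs)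
  unfold Q00 q1
  linarith [h.1]

theorem qY_ge {s : ℂ} (hs : ‖s‖ ≤ 1 / 50) {b : ℝ} (hb : 0 ≤ b) (c : ℕ → ℂ) :
    (AAc s (conj s) c (fun k => conj (c k))).re ≤ qY (QQ s b) s b c := by
  have h0 : YS s c 0 = yy0 c := rfl
  have h1 : YS s c 1 = yy1 c := rfl
  rw [qY_eq s hb, AAc, conj_yy0, conj_yy1, conj_yy2, AA_eq, h0, h1, YS_two]
  have h2 : 0 ≤ b * (Q00 s * ‖yy0 c‖ ^ 2) := mul_nonneg hb (mul_nonneg (Q00_nonneg hs)
    (by positivity))
  have h3 : 0 ≤ ‖s‖ ^ 2 * (‖yy1 c‖ ^ 2) ^ 2 := by positivity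
  linarith

theorem R1_id {s : ℂ} (hs : s ≠ 0) (c : ℕ → ℂ) :
    (c 0 + 50 / 67 * conj s).re = (-(1 / (2 * s)) * relS s (‖s‖ ^ 2 / (67 / 100)) c [] []).re := by
  have h2 : relS s (‖s‖ ^ 2 / (67 / 100)) c [] [] = -2 * s * c 0
      - ((‖s‖ ^ 2 / (67 / 100) : ℝ) : ℂ) := by
    unfold relS Pool.Agent.Helper39.MH.DGs
    simp [Pool.Agent.Helper39.MH.ev_nil, Pool.Agent.Helper39.MH.Dv,
      Pool.Agent.Helper39.MH.wt_nil]
  have hss : (((‖s‖ ^ 2 : ℝ)) : ℂ) = s * conj s := by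
    rw [Complex.mul_conj, Complex.normSq_eq_norm_sq]
  rw [h2]
  congr 1
  rw [Complex.ofReal_div, hss]
  push_cast
  field_simp
  ring

/-- the relations used by the certificate -/
noncomputable def RL : List ((ℂ → ℂ) × List ℕ × List ℕ) :=
  ((fun s => ((-80268292158507 / 34359738368000 : ℝ) : ℂ) * -(1 / (2 * s))), [], []) ::
  ((fun s => ((-37984484231356 / 34359738368000 : ℝ) : ℂ)
    * (((‖s‖ ^ 2 / (67 / 100) + 1) / (4 * ‖s‖ ^ 2) : ℝ) : ℂ)), [], []) ::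
  ((fun s => ((-37984484231356 / 34359738368000 : ℝ) : ℂ) * -(1 / (2 * s))), [], [0]) ::
  PP.map (fun t => ((fun _ => ((-(1 / 34359738368000) : ℝ) : ℂ) * gv t.2), t.1.1, t.1.2))

theorem PP_sum (s : ℂ) (b : ℝ) (c : ℕ → ℂ) (P : Pol) :
    ((P.map (fun t => (((fun _ => ((-(1 / 34359738368000) : ℝ) : ℂ) * gv t.2),
      t.1.1, t.1.2) : (ℂ → ℂ) × List ℕ × List ℕ))).map
        (fun x => (x.1 s * relS s b c x.2.1 x.2.2).re)).sum
      = -(1 / 34359738368000) * (rel s (b : ℂ) c P).re := by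
  rw [rel_eq]
  induction P with
  | nil => simp
  | cons t P ih =>
    simp only [List.map_cons, List.sum_cons, Complex.add_re] at ih ⊢
    rw [ih, mul_assoc, Complex.re_ofReal_mul]
    ring

theorem RL_sum {s : ℂ} (hs : s ≠ 0) (c : ℕ → ℂ) :
    (RL.map (fun x => (x.1 s * relS s (‖s‖ ^ 2 / (67 / 100)) c x.2.1 x.2.2).re)).sum
      = -80268292158507 / 34359738368000 * (c 0 + 50 / 67 * conj s).re
        - 37984484231356 / 34359738368000
          * (‖c 0‖ ^ 2 - (‖s‖ ^ 2 / (67 / 100) + 1) / (4 * (67 / 100)))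
        - 1 / 34359738368000 * (rel s ((‖s‖ ^ 2 / (67 / 100) : ℝ) : ℂ) c PP).re := by
  unfold RL
  rw [List.map_cons, List.map_cons, List.map_cons, List.sum_cons, List.sum_cons, List.sum_cons,
    PP_sum, R1_id hs, SmallCore.R2_id hs (by norm_num : (0 : ℝ) < 67 / 100) rfl c]
  have k : ∀ (r : ℝ) (z w : ℂ), ((r : ℂ) * z * w).re = r * (z * w).re := by
    intro r z w
    rw [mul_assoc, Complex.re_ofReal_mul]
  simp only [k]
  ring

/-- **The hypothesis `hc`.** -/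
theorem hc_small {s : ℂ} (hs0 : s ≠ 0) (hs : ‖s‖ ≤ 1 / 50) (c : ℕ → ℂ) :
    1 / 64 * ‖c 0‖ ^ 2 ≤ qY (QQ s (‖s‖ ^ 2 / (67 / 100))) s (‖s‖ ^ 2 / (67 / 100)) c
      + (RL.map (fun x => (x.1 s * relS s (‖s‖ ^ 2 / (67 / 100)) c x.2.1 x.2.2).re)).sum := by
  have ht : ‖s‖ ^ 2 ≤ 1 / 2500 := by
    calc ‖s‖ ^ 2 ≤ (1 / 50) ^ 2 := by gcongr
      _ = _ := by norm_num
  have hb : 0 ≤ ‖s‖ ^ 2 / (67 / 100) := by positivity
  have hb1 : ‖s‖ ^ 2 / (67 / 100) ≤ 1 / 1675 := by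
    rw [div_le_iff₀ (by norm_num)]
    linarith
  have h1 := Wf_box c ((Complex.abs_re_le_norm s).trans hs) ((Complex.abs_im_le_norm s).trans hs)
    hb hb1
  have h2 := qY_ge hs hb c
  rw [RL_sum hs0]
  have e1 : ((s.re : ℝ) : ℂ) + ((s.im : ℝ) : ℂ) * Complex.I = s := Complex.re_add_im s
  have e2 : ((s.re : ℝ) : ℂ) - ((s.im : ℝ) : ℂ) * Complex.I = conj s := by
    apply Complex.ext <;> simp
  have e3 : c 0 * conj (c 0) = ((‖c 0‖ ^ 2 : ℝ) : ℂ) := by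
    rw [Complex.mul_conj, Complex.normSq_eq_norm_sq]
  unfold Wf at h1
  rw [e1, e2] at h1
  obtain ⟨A, hA⟩ : ∃ A, A = AAc s (conj s) c (fun k => conj (c k)) := ⟨_, rfl⟩
  obtain ⟨b, hbd⟩ : ∃ b, b = ‖s‖ ^ 2 / (67 / 100) := ⟨_, rfl⟩
  rw [← hbd] at h1 h2 ⊢
  have e4 : (EE s (conj s) (b : ℂ) c (fun k => conj (c k))).re
      = 34359738368000 * (1 / 64 * ‖c 0‖ ^ 2 - A.re)
        + 80268292158507 * (c 0 + 50 / 67 * conj s).re
        + 37984484231356 * (‖c 0‖ ^ 2 - 25 / 67 * (b + 1)) := by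
    unfold EE
    rw [← hA, e3]
    obtain ⟨x, hx⟩ : ∃ x, x = c 0 + 50 / 67 * conj s := ⟨_, rfl⟩
    rw [← hx]
    have e5 : (34359738368000 * (1 / 64 * ((‖c 0‖ ^ 2 : ℝ) : ℂ) - A) + 80268292158507 * x
        + 37984484231356 * (((‖c 0‖ ^ 2 : ℝ) : ℂ) - 25 / 67 * ((b : ℂ) + 1)))
        = ((34359738368000 * (1 / 64 * ‖c 0‖ ^ 2)
          + 37984484231356 * (‖c 0‖ ^ 2 - 25 / 67 * (b + 1)) : ℝ) : ℂ)
          - ((34359738368000 : ℝ) : ℂ) * A + ((80268292158507 : ℝ) : ℂ) * x := by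
      push_cast
      ring
    rw [e5, Complex.add_re, Complex.sub_re, Complex.ofReal_re, Complex.re_ofReal_mul,
      Complex.re_ofReal_mul]
    ring
  rw [e4] at h1
  rw [← hA] at h2
  obtain ⟨q, hq⟩ : ∃ q, q = qY (QQ s b) s b c := ⟨_, rfl⟩
  obtain ⟨X, hX⟩ : ∃ X, X = (c 0 + 50 / 67 * conj s).re := ⟨_, rfl⟩
  obtain ⟨r, hr⟩ : ∃ r, r = (rel s (b : ℂ) c PP).re := ⟨_, rfl⟩
  obtain ⟨y, hy⟩ : ∃ y, y = ‖c 0‖ ^ 2 := ⟨_, rfl⟩
  rw [← hX, ← hr, ← hy] at h1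
  rw [← hq] at h2
  rw [← hq, ← hX, ← hr, ← hy]
  clear hq hX hr hy hA e4 e3 e2 e1
  have h5 : 34359738368000 * (1 / 64 * y) ≤ 34359738368000 * (q
      + (-80268292158507 / 34359738368000 * X
        - 37984484231356 / 34359738368000 * (y - (b + 1) / (4 * (67 / 100)))
        - 1 / 34359738368000 * r)) := by
    have e6 : 34359738368000 * (q
      + (-80268292158507 / 34359738368000 * X
        - 37984484231356 / 34359738368000 * (y - (b + 1) / (4 * (67 / 100)))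
        - 1 / 34359738368000 * r)) = 34359738368000 * q - 80268292158507 * X
          - 37984484231356 * (y - 25 / 67 * (b + 1)) - r := by
      field_simp
      ring
    rw [e6]
    linarith
  exact le_of_mul_le_mul_left h5 (by norm_num)

theorem RL_bound : ∃ CZ : ℝ, ∀ x ∈ RL, ∀ s : ℂ, s ≠ 0 → ‖s‖ ≤ 1 / 50 →
    ‖x.1 s‖ ≤ CZ / ‖s‖ ^ 2 := by
  have hM : ∃ M : ℝ, 0 ≤ M ∧ ∀ t ∈ PP, ‖gv t.2‖ ≤ M := by
    refine ⟨(PP.map (fun t => ‖gv t.2‖)).sum, List.sum_nonneg (by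
      intro x hx
      obtain ⟨t, _, rfl⟩ := List.mem_map.mp hx
      exact norm_nonneg _), fun t ht => List.single_le_sum (by
      intro x hx
      obtain ⟨t, _, rfl⟩ := List.mem_map.mp hx
      exact norm_nonneg _) _ (List.mem_map.mpr ⟨t, ht, rfl⟩)⟩
  obtain ⟨M, hM0, hM⟩ := hM
  refine ⟨M + 10, ?_⟩
  intro x hx s hs0 hs
  have hn : 0 < ‖s‖ := norm_pos_iff.mpr hs0
  have hn2 : 0 < ‖s‖ ^ 2 := by positivity
  have ht : ‖s‖ ^ 2 ≤ 1 / 2500 := by
    calc ‖s‖ ^ 2 ≤ (1 / 50) ^ 2 := by gcongr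
      _ = _ := by norm_num
  have hinv : ‖(-(1 / (2 * s)) : ℂ)‖ ≤ 1 / ‖s‖ ^ 2 := by
    rw [norm_neg, norm_div, norm_one, norm_mul, Complex.norm_ofNat]
    apply one_div_le_one_div_of_le hn2
    nlinarith
  have hkey : ∀ (r : ℝ) (z : ℂ), |r| ≤ 10 → ‖z‖ ≤ 1 / ‖s‖ ^ 2 →
      ‖(r : ℂ) * z‖ ≤ (M + 10) / ‖s‖ ^ 2 := by
    intro r z hr hz
    rw [norm_mul, Complex.norm_real, Real.norm_eq_abs]
    calc |r| * ‖z‖ ≤ 10 * (1 / ‖s‖ ^ 2) := mul_le_mul hr hz (norm_nonneg _) (by norm_num)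
      _ ≤ (M + 10) * (1 / ‖s‖ ^ 2) := by
        apply mul_le_mul_of_nonneg_right _ (by positivity)
        linarith
      _ = _ := by ring
  unfold RL at hx
  rw [List.mem_cons, List.mem_cons, List.mem_cons] at hx
  rcases hx with rfl | rfl | rfl | hx
  · exact hkey _ _ (by rw [abs_le]; constructor <;> norm_num) hinv
  · refine hkey _ _ (by rw [abs_le]; constructor <;> norm_num) ?_
    rw [Complex.norm_real, Real.norm_of_nonneg (by positivity), div_le_div_iff₀ (by positivity)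
      hn2]
    have : ‖s‖ ^ 2 / (67 / 100) ≤ 1 := by
      rw [div_le_one (by norm_num)]
      linarith
    nlinarith
  · exact hkey _ _ (by rw [abs_le]; constructor <;> norm_num) hinv
  · obtain ⟨t, ht', rfl⟩ := List.mem_map.mp hx
    have h1 := hM t ht'
    rw [norm_mul, Complex.norm_real, Real.norm_eq_abs]
    have h2 : |(-(1 / 34359738368000) : ℝ)| ≤ 1 := by
      rw [abs_le]
      constructor <;> norm_num
    calc |(-(1 / 34359738368000) : ℝ)| * ‖gv t.2‖ ≤ 1 * M :=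
          mul_le_mul h2 h1 (norm_nonneg _) (by norm_num)
      _ ≤ (M + 10) / ‖s‖ ^ 2 := by
        rw [le_div_iff₀ hn2]
        nlinarith

theorem TT_bound (n r : ℕ) : ‖TT n r‖ ≤ 50000 := by
  unfold TT
  split <;> norm_num

theorem Q_bound {s : ℂ} (hs : ‖s‖ ≤ 1 / 50) (r t : ℕ) :
    ‖QQ s (‖s‖ ^ 2 / (67 / 100)) r t‖ ≤ 50000 := by
  have ht : ‖s‖ ^ 2 ≤ 1 / 2500 := by
    calc ‖s‖ ^ 2 ≤ (1 / 50) ^ 2 := by gcongr
      _ = _ := by norm_num
  have hb : 0 ≤ ‖s‖ ^ 2 / (67 / 100) := by positivity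
  have hb1 : ‖s‖ ^ 2 / (67 / 100) ≤ 1 / 1675 := by
    rw [div_le_iff₀ (by norm_num)]
    linarith
  have hre := abs_le.mp ((Complex.abs_re_le_norm s).trans hs)
  have hre1 := hre.1
  have hre2 := hre.2
  obtain ⟨b, hbd⟩ : ∃ b, b = ‖s‖ ^ 2 / (67 / 100) := ⟨_, rfl⟩
  rw [← hbd] at hb hb1 ⊢
  have h3 : (b + 3) ≤ 4 := by linarith
  have h4 : (b + 4) ≤ 5 := by linarith
  have h5 : (b + 5) ≤ 6 := by linarith
  have h6 : (b + 6) ≤ 7 := by linarith
  have h7 : (b + 7) ≤ 8 := by linarith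
  have p2 : (b + 3) * (b + 4) ≤ 4 * 5 := by gcongr
  have p3 : (b + 3) * (b + 4) * (b + 5) ≤ 4 * 5 * 6 := by gcongr
  have p5 : (b + 3) * (b + 4) * (b + 5) * (b + 6) * (b + 7) ≤ 4 * 5 * 6 * 7 * 8 := by gcongr
  have p20 : 0 ≤ (b + 3) * (b + 4) := by positivity
  have p30 : 0 ≤ (b + 3) * (b + 4) * (b + 5) := by positivity
  have p50 : 0 ≤ (b + 3) * (b + 4) * (b + 5) * (b + 6) * (b + 7) := by positivity
  have hq10 : ‖Q10 s‖ ≤ 50000 := by
    unfold Q10 q1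
    refine (norm_sub_le _ _).trans ?_
    rw [norm_mul, Complex.norm_conj, Complex.norm_real, norm_neg, Real.norm_eq_abs]
    have h8 : ‖(15 / 4 : ℂ)‖ = 15 / 4 := by
      rw [norm_div, Complex.norm_ofNat, Complex.norm_ofNat]
    have h9 : |3 * (6 / 5 + 5 / 4 * s.re) + 171 / 16| ≤ 20 := by
      rw [abs_le]
      constructor <;> linarith
    rw [h8]
    linarith
  unfold QQ
  split
  · rw [Complex.norm_real, Real.norm_eq_abs, abs_le]
    unfold Q00 q1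
    constructor <;> linarith
  · exact hq10
  · rw [Complex.norm_conj]
    exact hq10
  · rw [Complex.norm_real, Real.norm_eq_abs, abs_le]
    unfold Q11 q1
    constructor <;> nlinarith
  · rw [Complex.norm_real, Real.norm_eq_abs, abs_le]
    constructor <;> linarith
  · rw [Complex.norm_real, Real.norm_eq_abs, abs_le]
    constructor <;> linarith
  · rw [Complex.norm_real, Real.norm_eq_abs, abs_le]
    constructor <;> linarith
  · rw [Complex.norm_real, Real.norm_eq_abs, abs_le]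
    constructor <;> linarith
  · rw [Complex.norm_real, Real.norm_eq_abs, abs_le]
    constructor <;> linarith
  · norm_num

end SmallCert

open SmallCert

/-- **The uniform bound in the region of small exponents.** -/
theorem small_cert : ∃ C : ℝ, ∀ s : ℂ, s ≠ 0 → ‖s‖ ≤ 1 / 50 →
    ∀ (ρ : ℝ) (β H : ℂ → ℂ) (Φ : ℂ → ℂ → ℂ), Dat ρ β H Φ →
      ‖s‖ ^ 2 / (67 / 100) * LS s H (‖s‖ ^ 2 / (67 / 100)) (fun _ => 1) ≤ C := by
  obtain ⟨CZ, hCZ⟩ := RL_bound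
  exact core_small' (by norm_num) (by norm_num) (by norm_num) (fun _ => TT)
    (fun s => QQ s (‖s‖ ^ 2 / (67 / 100))) (CT := 50000) (fun s _ n r => TT_bound n r)
    (fun s hs r t => Q_bound hs r t) (fun s _ hs g => hQ_small hs g) RL hCZ
    (by norm_num : (0 : ℝ) < 1 / 64) (fun s hs0 hs c => hc_small hs0 hs c)

end Pool.Agent.Helper24.HR2
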