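import Mathlib
import Pool.Agent.Helper24.HR2.SmallForm
import Pool.Agent.Helper24.HR2.Defs4
import Pool.Agent.Helper24.HR2.JetS6

/-!
MP_16b0ee, project HR2, module HR3-U2: the area form with four moments in the region of small
exponents, uniformly in the exponent `s`, `b = |s|^2 / a`.
-/

set_option autoImplicit false

open MeasureTheory Set Metric Filter Topology
open scoped Real ComplexConjugate

namespace Pool.Agent.Helper24.HR2

open Pool.Agent.Helper22.Half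
open Pool.Agent.Helper22.Marshall (coeff SepHol LogPhi dcoeff GLe coeff_const_mul)
open Pool.Agent.Helper39.Area (Ext phi)
open Pool.Agent.Helper39.MH

namespace SFT

open SF

/-- comparison of two norms by the coefficients, three error terms -/
theorem SA_step3 {ρ : ℝ} {β H : ℂ → ℂ} {Φ : ℂ → ℂ → ℂ} (h : Dat ρ β H Φ) {b : ℝ}
    (hb : 0 < b) (hb1 : b ≤ 1) (s : ℂ) {A B C D E : List ℕ} (hB : wt B = wt A + 1)
    (hC : wt C = wt B) (hD : wt D = wt B) (hE : wt E = wt B)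
    (hx : ∀ m : ℕ, ‖xc s H B m‖ ≤ m * ‖xc s H A m‖ + 3 * ‖xc s H C m‖ + ‖xc s H D m‖
      + ‖xc s H E m‖) :
    SA s H b B ≤ 4 * ((2 * (wt A : ℝ) + 3) ^ 2 * SA s H b A + 9 * SA s H b C + SA s H b D
      + SA s H b E) := by
  have sB := SA_hasSum h hb s B
  have sA := SA_hasSum h hb s A
  have sC := SA_hasSum h hb s C
  have sD := SA_hasSum h hb s D
  have sE := SA_hasSum h hb s E
  rw [hC] at sC
  rw [hD] at sD
  rw [hE] at sE
  have s1 := ((((sA.mul_left ((2 * (wt A : ℝ) + 3) ^ 2)).add (sC.mul_left 9)).add sD).add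
    sE).mul_left 4
  refine hasSum_le ?_ sB s1
  intro m
  set k : ℝ := (wt A : ℝ) with hk
  have hk0 : 0 ≤ k := Nat.cast_nonneg _
  have hBk : (wt B : ℝ) = k + 1 := by rw [hB, hk]; push_cast; ring
  rw [hBk]
  have hm0 : (0 : ℝ) ≤ m := Nat.cast_nonneg m
  -- the weights
  have e1 := pq_add_one (b + k + k + 1) m
  have e2 := pq_add_one (b + k + k + 2) m
  rw [show b + k + k + 1 + 1 = b + k + k + 2 by ring] at e1
  rw [show b + k + k + 2 + 1 = b + (k + 1) + (k + 1) + 1 by ring] at e2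
  have p1 : 0 < pq (b + k + k + 1) m := pq_pos (by positivity) m
  have p2 : 0 < pq (b + k + k + 2) m := pq_pos (by positivity) m
  have p3 : 0 < pq (b + (k + 1) + (k + 1) + 1) m := pq_pos (by positivity) m
  set q1 := pq (b + k + k + 1) m
  set q2 := pq (b + k + k + 2) m
  set q3 := pq (b + (k + 1) + (k + 1) + 1) m
  have q2e : q2 = q1 * (b + k + k + 1 + m) / (b + k + k + 1) := by
    rw [eq_div_iff (by positivity)]
    linear_combination e1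
  have q3e : q3 = q2 * (b + k + k + 2 + m) / (b + k + k + 2) := by
    rw [eq_div_iff (by positivity)]
    linear_combination e2
  have hw : ((b + (k + 1) + (k + 1)) * q3)⁻¹ * (m : ℝ) ^ 2
      ≤ (2 * k + 3) ^ 2 * ((b + k + k) * q1)⁻¹ := by
    by_cases hm : m = 0
    · subst hm
      have hbk : 0 < b + k + k := by positivity
      simp only [Nat.cast_zero]
      have : 0 ≤ ((b + k + k) * q1)⁻¹ := by positivity
      nlinarith [sq_nonneg (2 * k + 3)]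
    have hm1 : (0 : ℝ) < m := by exact_mod_cast Nat.pos_of_ne_zero hm
    have e3 : ((b + (k + 1) + (k + 1)) * q3)⁻¹ * (m : ℝ) ^ 2
        = (b + k + k + 1) * ((m : ℝ) / (b + k + k + 1 + m)) * ((m : ℝ) / (b + k + k + 2 + m))
          * q1⁻¹ := by
      rw [q3e, q2e]
      have : b + (k + 1) + (k + 1) = b + k + k + 2 := by ring
      rw [this]
      field_simp
    rw [e3]
    have r1 : (m : ℝ) / (b + k + k + 1 + m) ≤ 1 := by
      rw [div_le_one (by positivity)]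
      linarith
    have r2 : (m : ℝ) / (b + k + k + 2 + m) ≤ 1 := by
      rw [div_le_one (by positivity)]
      linarith
    have r3 : 0 ≤ (m : ℝ) / (b + k + k + 1 + m) := by positivity
    have r4 : 0 ≤ (m : ℝ) / (b + k + k + 2 + m) := by positivity
    have r5 : (b + k + k + 1) * ((m : ℝ) / (b + k + k + 1 + m)) * ((m : ℝ) / (b + k + k + 2 + m))
        ≤ 2 * k + 2 := by
      have a1 : (m : ℝ) / (b + k + k + 1 + m) * ((m : ℝ) / (b + k + k + 2 + m)) ≤ 1 := by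
        nlinarith
      have a2 : (b + k + k + 1) * ((m : ℝ) / (b + k + k + 1 + m) * ((m : ℝ) / (b + k + k + 2 + m)))
          ≤ (b + k + k + 1) * 1 := mul_le_mul_of_nonneg_left a1 (by positivity)
      linarith
    have r6 : (2 * k + 2) ≤ (2 * k + 3) ^ 2 * (b + k + k)⁻¹ := by
      have hbk : 0 < b + k + k := by positivity
      rw [← div_eq_mul_inv, le_div_iff₀ hbk]
      nlinarith
    rw [mul_inv, ← mul_assoc]
    exact mul_le_mul_of_nonneg_right (r5.trans r6) (by positivity)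
  have hx2 : ‖xc s H B m‖ ^ 2
      ≤ 4 * ((m : ℝ) ^ 2 * ‖xc s H A m‖ ^ 2 + 9 * ‖xc s H C m‖ ^ 2 + ‖xc s H D m‖ ^ 2
        + ‖xc s H E m‖ ^ 2) := by
    have h1 := pow_le_pow_left₀ (norm_nonneg _) (hx m) 2
    refine h1.trans ?_
    generalize ‖xc s H C m‖ = c
    generalize ‖xc s H D m‖ = d
    generalize ‖xc s H E m‖ = e
    generalize ‖xc s H A m‖ = a
    nlinarith [sq_nonneg (m * a - 3 * c), sq_nonneg (m * a - d), sq_nonneg (3 * c - d),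
      sq_nonneg (m * a - e), sq_nonneg (3 * c - e), sq_nonneg (d - e)]
  have hq : 0 ≤ ((b + (k + 1) + (k + 1)) * q3)⁻¹ := by positivity
  have h3 := mul_le_mul_of_nonneg_left hx2 hq
  have h4 := mul_le_mul_of_nonneg_right hw (sq_nonneg ‖xc s H A m‖)
  refine h3.trans ?_
  linarith

theorem x_four {ρ : ℝ} {β H : ℂ → ℂ} {Φ : ℂ → ℂ → ℂ} (h : Dat ρ β H Φ) (s : ℂ) (m : ℕ) :
    (m : ℂ) * xc s H [3] m = 6 * xc s H [4] m + (-(2 * s)) * xc s H [0, 3] m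
      + 2 * xc s H [1, 2] m := by
  have h1 := th_coeff h s [3] [(6, [4]), (-(2 * s), [0, 3]), (2, [1, 2])] (by
    intro c
    simp [DGs, Dv, ev, dval, Finset.sum_range_succ]
    ring) m
  rw [h1]
  simp
  ring

theorem x_five {ρ : ℝ} {β H : ℂ → ℂ} {Φ : ℂ → ℂ → ℂ} (h : Dat ρ β H Φ) (s : ℂ) (m : ℕ) :
    (m : ℂ) * xc s H [4] m = 7 * xc s H [5] m + (-(2 * s)) * xc s H [0, 4] m
      + 2 * xc s H [1, 3] m + xc s H [2, 2] m := by
  have h1 := th_coeff h s [4] [(7, [5]), (-(2 * s), [0, 4]), (2, [1, 3]), (1, [2, 2])] (by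
    intro c
    simp [DGs, Dv, ev, dval, Finset.sum_range_succ]
    ring) m
  rw [h1]
  simp
  ring

/-- all the single jets are controlled by the first one -/
theorem S1_boundT : ∃ C : ℝ, 0 ≤ C ∧ ∀ (ρ : ℝ) (β H : ℂ → ℂ) (Φ : ℂ → ℂ → ℂ), Dat ρ β H Φ →
    ∀ (s : ℂ), ‖s‖ ≤ 1 → ∀ (b : ℝ), 0 < b → b ≤ 1 → ∀ k ≤ 5,
      SA s H b [k] ≤ C * SA s H b [0] := by
  obtain ⟨C0, hC0, hS⟩ := S1_bound
  obtain ⟨C1, hC1, h03⟩ := SA_cons 0 [3]
  obtain ⟨C2, hC2, h12⟩ := SA_cons 1 [2]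
  obtain ⟨C3, hC3, h04⟩ := SA_cons 0 [4]
  obtain ⟨C4, hC4, h13⟩ := SA_cons 1 [3]
  obtain ⟨C5, hC5, h22⟩ := SA_cons 2 [2]
  set D4 : ℝ := 3 * (11 ^ 2 * C0 + 9 * C1 + C2 * C0) with hD4
  set D5 : ℝ := 4 * (13 ^ 2 * D4 + 9 * C3 + C4 * C0 + C5 * C0) with hD5
  have p1 : 0 ≤ D4 := by positivity
  have p2 : 0 ≤ D5 := by positivity
  refine ⟨C0 + D4 + D5, by positivity, fun ρ β H Φ h s hs b hb hb1 k hk => ?_⟩
  have g03 := h03 ρ β H Φ h s b hb
  have g12 := h12 ρ β H Φ h s b hb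
  have g04 := h04 ρ β H Φ h s b hb
  have g13 := h13 ρ β H Φ h s b hb
  have g22 := h22 ρ β H Φ h s b hb
  have k1 := hS ρ β H Φ h s hs b hb hb1 1 (by norm_num)
  have k2 := hS ρ β H Φ h s hs b hb hb1 2 (by norm_num)
  have k3 := hS ρ β H Φ h s hs b hb hb1 3 (by norm_num)
  have n0 := SA_nonneg h hb s [0]
  have n2s : ‖2 * s‖ ≤ 2 := by
    rw [norm_mul]
    simp
    linarith
  have k4 : SA s H b [4] ≤ D4 * SA s H b [0] := by
    have h1 := SA_step h hb hb1 s (A := [3]) (B := [4]) (C := [0, 3]) (D := [1, 2]) rfl rfl rfl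
      (fun m => by
        have e := x_four h s m
        have e2 : 6 * xc s H [4] m = (m : ℂ) * xc s H [3] m + (2 * s) * xc s H [0, 3] m
            + (-2) * xc s H [1, 2] m := by
          linear_combination -e
        have e3 : 6 * ‖xc s H [4] m‖ = ‖6 * xc s H [4] m‖ := by rw [norm_mul]; simp
        have e4 : ‖6 * xc s H [4] m‖ ≤ m * ‖xc s H [3] m‖ + 2 * ‖xc s H [0, 3] m‖
            + 2 * ‖xc s H [1, 2] m‖ := by
          rw [e2]
          refine (norm_add₃_le).trans ?_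
          rw [norm_mul, norm_mul (2 * s), Complex.norm_natCast, norm_mul (-2), norm_neg]
          have h2 : ‖(2 : ℂ)‖ = 2 := by norm_num
          rw [h2]
          have := mul_le_mul_of_nonneg_right n2s (norm_nonneg (xc s H [0, 3] m))
          linarith
        have := norm_nonneg (xc s H [4] m)
        have := norm_nonneg (xc s H [0, 3] m)
        have := norm_nonneg (xc s H [1, 2] m)
        have := mul_nonneg (Nat.cast_nonneg (α := ℝ) m) (norm_nonneg (xc s H [3] m))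
        linarith)
    have e : (wt [3] : ℝ) = 4 := by norm_num [wt]
    rw [e] at h1
    have a1 := mul_le_mul_of_nonneg_left k3 (show (0 : ℝ) ≤ 3 * 121 by norm_num)
    have a2 := mul_le_mul_of_nonneg_left k1 hC2
    rw [hD4]
    nlinarith
  have k5 : SA s H b [5] ≤ D5 * SA s H b [0] := by
    have h1 := SA_step3 h hb hb1 s (A := [4]) (B := [5]) (C := [0, 4]) (D := [1, 3])
      (E := [2, 2]) rfl rfl rfl rfl
      (fun m => by
        have e := x_five h s m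
        have e2 : 7 * xc s H [5] m = (m : ℂ) * xc s H [4] m + (2 * s) * xc s H [0, 4] m
            + (-2) * xc s H [1, 3] m + -(xc s H [2, 2] m) := by
          linear_combination -e
        have e3 : 7 * ‖xc s H [5] m‖ = ‖7 * xc s H [5] m‖ := by rw [norm_mul]; simp
        have e4 : ‖7 * xc s H [5] m‖ ≤ m * ‖xc s H [4] m‖ + 2 * ‖xc s H [0, 4] m‖
            + 2 * ‖xc s H [1, 3] m‖ + ‖xc s H [2, 2] m‖ := by
          rw [e2]
          refine (norm_add_le _ _).trans ?_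
          refine (add_le_add_left (norm_add₃_le) _).trans ?_
          rw [norm_mul, norm_mul (2 * s), Complex.norm_natCast, norm_mul (-2), norm_neg, norm_neg]
          have h2 : ‖(2 : ℂ)‖ = 2 := by norm_num
          rw [h2]
          have := mul_le_mul_of_nonneg_right n2s (norm_nonneg (xc s H [0, 4] m))
          linarith
        have := norm_nonneg (xc s H [5] m)
        have := norm_nonneg (xc s H [0, 4] m)
        have := norm_nonneg (xc s H [1, 3] m)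
        have := norm_nonneg (xc s H [2, 2] m)
        have := mul_nonneg (Nat.cast_nonneg (α := ℝ) m) (norm_nonneg (xc s H [4] m))
        linarith)
    have e : (wt [4] : ℝ) = 5 := by norm_num [wt]
    rw [e] at h1
    have a1 := mul_le_mul_of_nonneg_left k4 (show (0 : ℝ) ≤ 4 * 169 by norm_num)
    have a2 := mul_le_mul_of_nonneg_left k1 hC4
    have a3 := mul_le_mul_of_nonneg_left k2 hC5
    rw [hD5]
    nlinarith
  have q1 := mul_nonneg p1 n0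
  have q2 := mul_nonneg p2 n0
  have q3 := mul_nonneg hC0 n0
  by_cases hk3 : k ≤ 3
  · have := hS ρ β H Φ h s hs b hb hb1 k hk3
    nlinarith
  have hk' : k = 4 ∨ k = 5 := by omega
  rcases hk' with rfl | rfl <;> nlinarith

theorem SA_allT (k : ℕ) (hk : k ≤ 5) (A : List ℕ) : ∃ C : ℝ, 0 ≤ C ∧ ∀ (ρ : ℝ) (β H : ℂ → ℂ)
    (Φ : ℂ → ℂ → ℂ), Dat ρ β H Φ → ∀ (s : ℂ), ‖s‖ ≤ 1 → ∀ (b : ℝ), 0 < b → b ≤ 1 →
      SA s H b (k :: A) ≤ C * SA s H b [0] := by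
  obtain ⟨C1, hC1, h1⟩ := SA_cons k A
  obtain ⟨C2, hC2, h2⟩ := S1_boundT
  refine ⟨C1 * C2, by positivity, fun ρ β H Φ h s hs b hb hb1 => ?_⟩
  have g1 := h1 ρ β H Φ h s b hb
  have g2 := h2 ρ β H Φ h s hs b hb hb1 k hk
  have g3 := mul_le_mul_of_nonneg_left g2 hC1
  rw [mul_assoc]
  exact g1.trans g3

/-! ### the monomials which occur -/

/-- the monomials which occur -/
def ML : List (List ℕ) :=
  [[0], [0, 0], [1], [0, 0, 0, 0], [0, 0, 1], [1, 1], [3], [0, 2], [2], [0, 1], [0, 0, 0],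
    [5], [0, 4], [1, 3], [0, 0, 3], [2, 2], [0, 1, 2], [0, 0, 0, 2], [1, 1, 1], [0, 0, 1, 1],
    [0, 0, 0, 0, 1], [0, 0, 0, 0, 0, 0], [4], [0, 3], [1, 2], [0, 0, 2], [0, 1, 1], [0, 0, 0, 1],
    [0, 0, 0, 0, 0]]

/-- the monomials which occur -/
def MS : Finset (List ℕ) := ML.toFinset

theorem MS_form {A : List ℕ} (hA : A ∈ MS) : ∃ (k : ℕ) (B : List ℕ), k ≤ 5 ∧ A = k :: B := by
  rw [MS, List.mem_toFinset] at hA
  revert A
  have h : ∀ A ∈ ML, A ≠ [] ∧ A.headD 0 ≤ 5 := by decide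
  intro A hA
  obtain ⟨h1, h2⟩ := h A hA
  match A with
  | [] => exact absurd rfl h1
  | k :: B => exact ⟨k, B, h2, rfl⟩

/-- the sum of the normalised moduli -/
noncomputable def NN (s : ℂ) (H : ℂ → ℂ) (m : ℕ) : ℝ := ∑ A ∈ MS, yc s H A m

/-- the sum of the squares of the normalised moduli -/
noncomputable def S2 (s : ℂ) (H : ℂ → ℂ) (m : ℕ) : ℝ := ∑ A ∈ MS, yc s H A m ^ 2

theorem yc_le (s : ℂ) (H : ℂ → ℂ) (m : ℕ) {A : List ℕ} (hA : A ∈ ML) : yc s H A m ≤ NN s H m :=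
  Finset.single_le_sum (f := fun A => yc s H A m) (fun A _ => yc_nonneg s H A m)
    (List.mem_toFinset.mpr hA)

theorem NN_nonneg (s : ℂ) (H : ℂ → ℂ) (m : ℕ) : 0 ≤ NN s H m :=
  Finset.sum_nonneg fun A _ => yc_nonneg s H A m

theorem S2_nonneg (s : ℂ) (H : ℂ → ℂ) (m : ℕ) : 0 ≤ S2 s H m :=
  Finset.sum_nonneg fun _ _ => sq_nonneg _

theorem NN_sq (s : ℂ) (H : ℂ → ℂ) (m : ℕ) : NN s H m ^ 2 ≤ MS.card * S2 s H m := by
  have h := sq_sum_le_card_mul_sum_sq (s := MS) (f := fun A => yc s H A m)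
  unfold NN S2
  exact h

theorem S2_sum : ∃ C : ℝ, 0 ≤ C ∧
    ∀ (ρ : ℝ) (β H : ℂ → ℂ) (Φ : ℂ → ℂ → ℂ), Dat ρ β H Φ → ∀ (s : ℂ), ‖s‖ ≤ 1 → ∀ (b : ℝ),
      0 < b → b ≤ 1 → ∀ fs : Finset ℕ, ∑ m ∈ fs, Wm b m * S2 s H m ≤ C * SA s H b [0] := by
  have h : ∀ A : MS, ∃ C : ℝ, 0 ≤ C ∧
      ∀ (ρ : ℝ) (β H : ℂ → ℂ) (Φ : ℂ → ℂ → ℂ), Dat ρ β H Φ → ∀ (s : ℂ), ‖s‖ ≤ 1 → ∀ (b : ℝ),
      0 < b → b ≤ 1 → ∀ fs : Finset ℕ,
        ∑ m ∈ fs, Wm b m * yc s H A m ^ 2 ≤ C * SA s H b [0] := by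
    intro A
    obtain ⟨k, B, hk, hA⟩ := MS_form A.2
    rw [hA]
    have hw : 1 ≤ wt (k :: B) := by rw [wt_cons]; omega
    obtain ⟨C1, hC1, h1⟩ := y_sum hw
    obtain ⟨C2, hC2, h2⟩ := SA_allT k hk B
    refine ⟨C1 * C2, by positivity, fun ρ β H Φ h s hs b hb hb1 fs => ?_⟩
    refine (h1 ρ β H Φ h s b hb hb1 fs).trans ?_
    rw [mul_assoc]
    exact mul_le_mul_of_nonneg_left (h2 ρ β H Φ h s hs b hb hb1) hC1
  choose C hC0 hC using h
  refine ⟨∑ A, C A, Finset.sum_nonneg fun A _ => hC0 A, fun ρ β H Φ hd s hs b hb hb1 fs => ?_⟩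
  have e : ∑ m ∈ fs, Wm b m * S2 s H m
      = ∑ A : MS, ∑ m ∈ fs, Wm b m * yc s H A m ^ 2 := by
    rw [Finset.sum_coe_sort MS (fun A => ∑ m ∈ fs, Wm b m * yc s H A m ^ 2), Finset.sum_comm]
    apply Finset.sum_congr rfl
    intro m _
    unfold S2
    rw [Finset.mul_sum]
  rw [e, Finset.sum_mul]
  apply Finset.sum_le_sum
  intro A _
  exact hC A ρ β H Φ hd s hs b hb hb1 fs

/-! ### the main parts -/

/-- the main parts as lists -/
noncomputable def LT (s : ℂ) : ℕ → List (ℂ × List ℕ)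
  | 0 => [(-2, [0])]
  | 1 => [(1 / 2, [0, 0]), (-(1 / 2), [1])]
  | 2 => [(3 / 4 * (s - 1) + 3 / 2, [0, 0, 0, 0]), (-(3 / 2) * (s - 1) - 9 / 2, [0, 0, 1]),
      (3 / 4 * (s - 1) + 3 / 2, [1, 1]), (-(3 / 2), [3]), (3, [0, 2])]
  | 3 => [(-(45 / 4), [5]), (45 / 2, [0, 4]), (45 / 4 + 45 / 4 * s, [1, 3]),
      (-(45 / 2) - 45 / 4 * s, [0, 0, 3]), (45 / 4, [2, 2]), (-45 - 45 / 2 * s, [0, 1, 2]),
      (45 / 2 + 45 / 2 * s, [0, 0, 0, 2]), (-(15 / 4) - 45 / 8 * s - 15 / 8 * s ^ 2, [1, 1, 1]),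
      (135 / 4 + 225 / 8 * s + 45 / 8 * s ^ 2, [0, 0, 1, 1]),
      (-(45 / 2) - 225 / 8 * s - 45 / 8 * s ^ 2, [0, 0, 0, 0, 1]),
      (15 / 4 + 45 / 8 * s + 15 / 8 * s ^ 2, [0, 0, 0, 0, 0, 0])]
  | _ => []

theorem YT_lt (s : ℂ) (c : ℕ → ℂ) {r : ℕ} (hr : r < 3) : YT s c r = YS s c r := by
  unfold YT
  rw [if_neg (by omega)]

theorem YT_three (s : ℂ) (c : ℕ → ℂ) : YT s c 3 = YS6 s c := by
  unfold YT
  rw [if_pos rfl]

theorem wYT_lt {r : ℕ} (hr : r < 3) : wYT r = wY r := by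
  unfold wYT
  rw [if_neg (by omega)]

theorem wYT_three : wYT 3 = 6 := by
  unfold wYT
  rw [if_pos rfl]

theorem LT_eq (s : ℂ) (c : ℕ → ℂ) (r : ℕ) :
    YT s c r = ((LT s r).map (fun x => x.1 * ev c x.2)).sum := by
  match r with
  | 0 => rw [YT_lt s c (by norm_num)]; simp [YS, LT, ev]
  | 1 => rw [YT_lt s c (by norm_num)]; simp [YS, LT, ev]; ring
  | 2 => rw [YT_lt s c (by norm_num)]; simp [YS, LT, ev]; ring
  | 3 => rw [YT_three]; simp [YS6, LT, ev]; ring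
  | (r + 4) => simp [YT, YS, LT]

theorem YT_scale (s t : ℂ) (g : ℕ → ℂ) (r : ℕ) :
    YT s (fun n => t ^ (n + 1) * g n) r = t ^ (wYT r) * YT s g r := by
  by_cases hr : r = 3
  · subst hr
    rw [YT_three, YT_three, wYT_three]
    simp only [YS6]
    ring
  · unfold YT wYT
    rw [if_neg hr, if_neg hr, if_neg hr]
    exact YS_scale s t g r

theorem YT_cc (s : ℂ) (H : ℂ → ℂ) (z : ℂ) (r : ℕ) :
    YT s (cc H z) r = (((1 - ‖z‖ ^ 2) ^ (wYT r) : ℝ) : ℂ) * YT s (fun k => gg H k z) r := by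
  rw [cc_eq, YT_scale]
  push_cast
  ring

/-- the main functions -/
noncomputable def YF (s : ℂ) (H : ℂ → ℂ) (r : ℕ) (z : ℂ) : ℂ :=
  Complex.exp (s * H z) * YT s (fun k => gg H k z) r

/-- their coefficients -/
noncomputable def Yx (s : ℂ) (H : ℂ → ℂ) (r m : ℕ) : ℂ := coeff (YF s H r) m

theorem YF_list (s : ℂ) (H : ℂ → ℂ) (r : ℕ) :
    YF s H r = fun z => ((LT s r).map (fun x => x.1 * FA s H x.2 z)).sum := by
  funext z
  unfold YF
  rw [LT_eq, ← List.sum_map_mul_left]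
  congr 1
  apply List.map_congr_left
  intro x _
  unfold FA
  ring

theorem Yx_list {ρ : ℝ} {β H : ℂ → ℂ} {Φ : ℂ → ℂ → ℂ} (h : Dat ρ β H Φ) (s : ℂ) (r m : ℕ) :
    Yx s H r m = ((LT s r).map (fun x => x.1 * xc s H x.2 m)).sum := by
  unfold Yx
  rw [YF_list, (coeff_comb h s (LT s r) m).1]

theorem YF_diff {ρ : ℝ} {β H : ℂ → ℂ} {Φ : ℂ → ℂ → ℂ} (h : Dat ρ β H Φ) (s : ℂ) (r : ℕ) :
    DifferentiableOn ℂ (YF s H r) (ball 0 ρ) := by
  rw [YF_list]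
  have hρ : 0 < ρ := one_pos.trans h.one_lt
  generalize LT s r = l
  induction l with
  | nil =>
    simp only [List.map_nil, List.sum_nil]
    exact differentiableOn_const 0
  | cons x l ih =>
    simp only [List.map_cons, List.sum_cons]
    exact ((RelS.FA_diff s hρ h.diff x.2).const_mul x.1).fun_add ih

theorem YT_cont {ρ : ℝ} {β H : ℂ → ℂ} {Φ : ℂ → ℂ → ℂ} (h : Dat ρ β H Φ) (s : ℂ) (r : ℕ) :
    ContinuousOn (fun z => YT s (cc H z) r) (closedBall 0 1) := by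
  have e : (fun z => YT s (cc H z) r)
      = fun z => ((LT s r).map (fun x => x.1 * ev (cc H z) x.2)).sum := by
    funext z
    exact LT_eq s (cc H z) r
  rw [e]
  generalize LT s r = l
  induction l with
  | nil =>
    simp only [List.map_nil, List.sum_nil]
    exact continuousOn_const
  | cons x l ih =>
    simp only [List.map_cons, List.sum_cons]
    exact (continuousOn_const.mul (cont_ev_cc h.one_lt h.diff x.2)).add ih

theorem pair_cont {ρ : ℝ} {β H : ℂ → ℂ} {Φ : ℂ → ℂ → ℂ} (h : Dat ρ β H Φ) (s ζ : ℂ)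
    (r t : ℕ) : ContinuousOn (fun z => (ζ * (YT s (cc H z) t * conj (YT s (cc H z) r))).re)
      (closedBall 0 1) := by
  have h1 := YT_cont h s r
  have h2 := YT_cont h s t
  exact Complex.continuous_re.comp_continuousOn
    (continuousOn_const.mul (h2.mul (Complex.continuous_conj.comp_continuousOn h1)))

theorem pair_sum {ρ : ℝ} {β H : ℂ → ℂ} {Φ : ℂ → ℂ → ℂ} (h : Dat ρ β H Φ) {b : ℝ}
    (hb : 0 < b) (s ζ : ℂ) (r t : ℕ) :
    HasSum (fun m : ℕ => ((b + (wYT r + wYT t : ℕ)) * pq (b + (wYT r + wYT t : ℕ) + 1) m)⁻¹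
      * (ζ * (Yx s H t m * conj (Yx s H r m))).re)
      (LS s H b (fun z => (ζ * (YT s (cc H z) t * conj (YT s (cc H z) r))).re)) := by
  have hw : (0 : ℝ) ≤ ((wYT r + wYT t : ℕ) : ℝ) := Nat.cast_nonneg _
  have hp : -1 < b - 1 + ((wYT r + wYT t : ℕ) : ℝ) := by linarith
  have h1 := bridge_s h.one_lt (YF_diff h s t) (YF_diff h s r) hp ζ
  have e1 : b - 1 + ((wYT r + wYT t : ℕ) : ℝ) + 1 = b + ((wYT r + wYT t : ℕ) : ℝ) := by ring
  have e2 : b - 1 + ((wYT r + wYT t : ℕ) : ℝ) + 2 = b + ((wYT r + wYT t : ℕ) : ℝ) + 1 := by ring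
  rw [e1, e2] at h1
  have e3 : LS s H b (fun z => (ζ * (YT s (cc H z) t * conj (YT s (cc H z) r))).re)
      = (1 / π) * ∫ z in ball (0 : ℂ) 1, (1 - ‖z‖ ^ 2) ^ (b - 1 + ((wYT r + wYT t : ℕ) : ℝ))
        * (ζ * (YF s H t z * conj (YF s H r z))).re := by
    unfold LS
    congr 1
    apply setIntegral_congr_fun measurableSet_ball
    intro z hz
    have hz1 : ‖z‖ < 1 := by simpa using hz
    have ht : 0 < 1 - ‖z‖ ^ 2 := by nlinarith [norm_nonneg z]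
    simp only
    rw [YT_cc, YT_cc, mul_assoc, RelS.hprod, ← RelS.rpow_shift ht, pow_add]
    unfold YF
    ring
  rw [e3]
  exact h1

/-- the term of order `m` of the form -/
noncomputable def cmT (Q : ℕ → ℕ → ℂ) (s : ℂ) (b : ℝ) (H : ℂ → ℂ) (m : ℕ) : ℝ :=
  ∑ r ∈ Finset.range 4, ∑ t ∈ Finset.range 4, om b (wYT r + wYT t - 1) m
    * (Q r t * (Yx s H t m * conj (Yx s H r m))).re

theorem wYT_pos {r : ℕ} (hr : r < 4) : 1 ≤ wYT r ∧ wYT r ≤ 6 := by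
  interval_cases r <;> simp [wYT, wY]

theorem cmT_hasSum {ρ : ℝ} {β H : ℂ → ℂ} {Φ : ℂ → ℂ → ℂ} (h : Dat ρ β H Φ) {b : ℝ}
    (hb : 0 < b) (s : ℂ) (Q : ℕ → ℕ → ℂ) :
    HasSum (cmT Q s b H) (LS s H b (fun z => qYT Q s b (cc H z))) := by
  have e : LS s H b (fun z => qYT Q s b (cc H z)) = ∑ r ∈ Finset.range 4, ∑ t ∈ Finset.range 4,
      ((b + 1) * (b + 2) / poch (b + 1) (wYT r + wYT t - 1))
      * LS s H b (fun z => (Q r t * (YT s (cc H z) t * conj (YT s (cc H z) r))).re) := by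
    have e1 : (fun z => qYT Q s b (cc H z)) = fun z => ∑ r ∈ Finset.range 4,
        ∑ t ∈ Finset.range 4, ((b + 1) * (b + 2) / poch (b + 1) (wYT r + wYT t - 1))
        * (Q r t * (YT s (cc H z) t * conj (YT s (cc H z) r))).re := by
      funext z
      unfold qYT
      rw [Finset.mul_sum]
      apply Finset.sum_congr rfl
      intro r _
      rw [Finset.mul_sum]
      apply Finset.sum_congr rfl
      intro t _
      ring
    rw [e1, LS_fsum (cont_H h) hb]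
    · apply Finset.sum_congr rfl
      intro r _
      rw [LS_fsum (cont_H h) hb]
      · apply Finset.sum_congr rfl
        intro t _
        exact LS_smul _ _
      · intro t _
        exact continuousOn_const.mul (pair_cont h s _ r t)
    · intro r _
      apply continuousOn_finsetSum
      intro t _
      exact continuousOn_const.mul (pair_cont h s _ r t)
  rw [e]
  apply hasSum_sum
  intro r hr
  apply hasSum_sum
  intro t ht
  have hr3 := wYT_pos (Finset.mem_range.mp hr)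
  have ht3 := wYT_pos (Finset.mem_range.mp ht)
  have h1 := (pair_sum h hb s (Q r t) r t).mul_left
    ((b + 1) * (b + 2) / poch (b + 1) (wYT r + wYT t - 1))
  have e2 : wYT r + wYT t - 1 + 1 = wYT r + wYT t := by omega
  have e3 : (fun m => (b + 1) * (b + 2) / poch (b + 1) (wYT r + wYT t - 1)
      * (((b + (wYT r + wYT t : ℕ)) * pq (b + (wYT r + wYT t : ℕ) + 1) m)⁻¹
      * (Q r t * (Yx s H t m * conj (Yx s H r m))).re))
      = fun m => om b (wYT r + wYT t - 1) m * (Q r t * (Yx s H t m * conj (Yx s H r m))).re := by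
    funext m
    unfold om
    rw [e2]
    ring
  rw [e3] at h1
  exact h1

/-! ### the even moments -/

/-- the error parts as lists -/
noncomputable def LET (s : ℂ) : ℕ → List (ℂ × List ℕ)
  | 0 => []
  | 1 => [(1 / 3, [0])]
  | 2 => [(6 / 5, [2]), (-(7 / 5) - s, [0, 1]), (1 / 5 + s, [0, 0, 0]), (-(1 / 5), [1]),
      (-(2 / 15) + s / 3, [0, 0]), (-(1 / 15), [0])]
  | 3 => [(135 / 14, [4]), (-(165 / 14) - 15 / 2 * s, [0, 3]), (-(72 / 7) - 9 * s, [1, 2]),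
      (69 / 14 + 24 * s, [0, 0, 2]), (153 / 14 + 57 / 4 * s + 15 / 4 * s ^ 2, [0, 1, 1]),
      (-(57 / 14) - 27 * s - 15 / 2 * s ^ 2, [0, 0, 0, 1]),
      (9 / 14 + 21 / 4 * s + 15 / 4 * s ^ 2, [0, 0, 0, 0, 0]), (-(15 / 7), [3]),
      (-(12 / 7) + 6 * s, [0, 2]), (9 / 14 + 3 / 2 * s, [1, 1]),
      (25 / 7 - 15 / 2 * s - 5 / 2 * s ^ 2, [0, 0, 1]), (-(5 / 14) + 5 / 2 * s ^ 2, [0, 0, 0, 0]),
      (-(3 / 7), [2]), (19 / 14 - 1 / 2 * s, [0, 1]),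
      (23 / 126 - 7 / 6 * s + 5 / 9 * s ^ 2, [0, 0, 0]), (1 / 7, [1]),
      (4 / 21 - 1 / 3 * s, [0, 0]), (1 / 21, [0])]
  | _ => []

/-- the error parts -/
noncomputable def Ex (s : ℂ) (H : ℂ → ℂ) (r m : ℕ) : ℂ :=
  ((LET s r).map (fun x => x.1 * xc s H x.2 m)).sum

theorem mom_three {ρ : ℝ} {β H : ℂ → ℂ} {Φ : ℂ → ℂ → ℂ} (h : Dat ρ β H Φ) (s : ℂ) (m : ℕ) :
    ∑ l ∈ Finset.range (m + 1), diagc (EE Φ s) m l * ((l : ℂ) - m / 2) ^ 6
      = s * (Yx s H 3 m + Ex s H 3 m) := by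
  rw [jetS6 h.toData s m, Yx_list h]
  have h1 := (coeff_comb h s ((LT s 3 ++ LET s 3).map (fun x => (s * x.1, x.2))) m).1
  have e : (fun z => Complex.exp (s * H z)
      * (XS6 s (fun k => gg H k z) + low6S s (fun k => gg H k z)))
      = fun z => (((LT s 3 ++ LET s 3).map (fun x => (s * x.1, x.2))).map
        (fun x => x.1 * FA s H x.2 z)).sum := by
    funext z
    simp only [XS6, low6S, FA, ev, LT, LET, List.map_cons, List.map_nil, List.map_append,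
      List.sum_cons, List.sum_nil, List.sum_append, List.prod_cons, List.prod_nil]
    ring
  rw [e, h1]
  simp only [Ex, List.map_map, List.map_append, List.sum_append, Function.comp_def, mul_assoc,
    List.sum_map_mul_left]
  ring

/-- the normalised moments divided by `s` -/
noncomputable def gt (s : ℂ) (H : ℂ → ℂ) (m r : ℕ) : ℂ :=
  Yx s H r m / (m : ℂ) ^ wYT r + Ex s H r m / (m : ℂ) ^ wYT r

theorem gt_lt (s : ℂ) (H : ℂ → ℂ) (m : ℕ) {r : ℕ} (hr : r < 3) :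
    gt s H m r = SF.gt s H m r := by
  unfold gt SF.gt
  have h1 : Yx s H r m = SF.Yx s H r m := by
    unfold Yx SF.Yx
    congr 1
    funext z
    unfold YF SF.YF
    rw [YT_lt s _ hr]
  have h2 : Ex s H r m = SF.Ex s H r m := by
    unfold Ex SF.Ex
    interval_cases r <;> rfl
  rw [h1, h2, wYT_lt hr]

theorem vS_eq {ρ : ℝ} {β H : ℂ → ℂ} {Φ : ℂ → ℂ → ℂ} (h : Dat ρ β H Φ) (s : ℂ) {m : ℕ}
    (hm : 1 ≤ m) {r : ℕ} (hr : r < 4) : vS (diagc (EE Φ s) m) m r = s * gt s H m r := by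
  by_cases h3 : r < 3
  · rw [gt_lt s H m h3]
    exact SF.vS_eq h s hm h3
  have hr3 : r = 3 := by omega
  subst hr3
  unfold vS gt
  rw [show 2 * 3 = 6 by norm_num, mom_three h s m, wYT_three]
  ring

/-! ### norms -/

theorem xc_le (s : ℂ) (H : ℂ → ℂ) {m : ℕ} (hm : 1 ≤ m) {A : List ℕ} (hA : A ∈ ML) {w : ℕ}
    (hw : wt A ≤ w) : ‖xc s H A m‖ ≤ NN s H m * (m : ℝ) ^ w := by
  have hm1 : (1 : ℝ) ≤ m := by exact_mod_cast hm
  rw [norm_xc s H _ hm]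
  exact mul_le_mul (yc_le s H m hA) (pow_le_pow_right₀ hm1 hw) (by positivity) (NN_nonneg s H m)

theorem LT_mem (s : ℂ) {r : ℕ} (hr : r < 4) :
    ∀ x ∈ LT s r, x.2 ∈ ML ∧ wt x.2 ≤ wYT r := by
  intro x hx
  have h : x.2 ∈ (LT s r).map Prod.snd := List.mem_map_of_mem hx
  interval_cases r
  · exact (by decide : ∀ A ∈ ([[0]] : List (List ℕ)), A ∈ ML ∧ wt A ≤ 1) _ h
  · exact (by decide : ∀ A ∈ ([[0, 0], [1]] : List (List ℕ)), A ∈ ML ∧ wt A ≤ 2) _ h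
  · exact (by decide : ∀ A ∈ ([[0, 0, 0, 0], [0, 0, 1], [1, 1], [3], [0, 2]] : List (List ℕ)),
      A ∈ ML ∧ wt A ≤ 4) _ h
  · exact (by decide : ∀ A ∈ ([[5], [0, 4], [1, 3], [0, 0, 3], [2, 2], [0, 1, 2], [0, 0, 0, 2],
      [1, 1, 1], [0, 0, 1, 1], [0, 0, 0, 0, 1], [0, 0, 0, 0, 0, 0]] : List (List ℕ)),
      A ∈ ML ∧ wt A ≤ 6) _ h

theorem LET_mem (s : ℂ) {r : ℕ} (hr : r < 4) :
    ∀ x ∈ LET s r, x.2 ∈ ML ∧ wt x.2 ≤ wYT r - 1 := by
  intro x hx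
  have h : x.2 ∈ (LET s r).map Prod.snd := List.mem_map_of_mem hx
  interval_cases r
  · exact (by decide : ∀ A ∈ ([] : List (List ℕ)), A ∈ ML ∧ wt A ≤ 0) _ h
  · exact (by decide : ∀ A ∈ ([[0]] : List (List ℕ)), A ∈ ML ∧ wt A ≤ 1) _ h
  · exact (by decide : ∀ A ∈ ([[2], [0, 1], [0, 0, 0], [1], [0, 0], [0]] : List (List ℕ)),
      A ∈ ML ∧ wt A ≤ 3) _ h
  · exact (by decide : ∀ A ∈ ([[4], [0, 3], [1, 2], [0, 0, 2], [0, 1, 1], [0, 0, 0, 1],
      [0, 0, 0, 0, 0], [3], [0, 2], [1, 1], [0, 0, 1], [0, 0, 0, 0], [2], [0, 1], [0, 0, 0],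
      [1], [0, 0], [0]] : List (List ℕ)), A ∈ ML ∧ wt A ≤ 5) _ h

theorem L_sum : ∃ C : ℝ, 0 ≤ C ∧ ∀ s : ℂ, ‖s‖ ≤ 1 → ∀ r < 4,
    ((LT s r).map (fun x => ‖x.1‖)).sum ≤ C ∧ ((LET s r).map (fun x => ‖x.1‖)).sum ≤ C := by
  have hc : ∀ r : Fin 4, ∃ C : ℝ, ∀ s ∈ closedBall (0 : ℂ) 1,
      ‖((LT s r).map (fun x => ‖x.1‖)).sum + ((LET s r).map (fun x => ‖x.1‖)).sum‖ ≤ C := by
    intro r
    apply (isCompact_closedBall (0 : ℂ) 1).exists_bound_of_continuousOn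
    apply Continuous.continuousOn
    fin_cases r <;>
      simp only [LT, LET, List.map_cons, List.map_nil, List.sum_cons, List.sum_nil] <;>
      fun_prop
  choose C hC using hc
  have h0 : ∀ r : Fin 4, 0 ≤ C r := fun r => (norm_nonneg _).trans (hC r 0 (by simp))
  have hnn : ∀ l : List (ℂ × List ℕ), 0 ≤ (l.map (fun x => ‖x.1‖)).sum := by
    intro l
    apply List.sum_nonneg
    intro x hx
    obtain ⟨y, _, rfl⟩ := List.mem_map.mp hx
    exact norm_nonneg _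
  refine ⟨∑ r, C r, Finset.sum_nonneg fun r _ => h0 r, fun s hs r hr => ?_⟩
  have h1 := (le_abs_self _).trans (hC ⟨r, hr⟩ s (by simpa using hs))
  have h2 : C ⟨r, hr⟩ ≤ ∑ r, C r := Finset.single_le_sum (fun r _ => h0 r) (Finset.mem_univ _)
  have h3 := hnn (LT s r)
  have h4 := hnn (LET s r)
  simp only at h1
  exact ⟨by linarith, by linarith⟩

theorem Yx_norm {CL : ℝ} (hCL : ∀ s : ℂ, ‖s‖ ≤ 1 → ∀ r < 4,
    ((LT s r).map (fun x => ‖x.1‖)).sum ≤ CL ∧ ((LET s r).map (fun x => ‖x.1‖)).sum ≤ CL)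
    {ρ : ℝ} {β H : ℂ → ℂ} {Φ : ℂ → ℂ → ℂ} (h : Dat ρ β H Φ) {s : ℂ}
    (hs : ‖s‖ ≤ 1) {m : ℕ} (hm : 1 ≤ m) {r : ℕ} (hr : r < 4) :
    ‖Yx s H r m / (m : ℂ) ^ wYT r‖ ≤ CL * NN s H m := by
  have hm0 : (0 : ℝ) < m := by exact_mod_cast hm
  have hN := NN_nonneg s H m
  rw [norm_div, norm_pow, Complex.norm_natCast, div_le_iff₀ (by positivity), Yx_list h]
  have key : ‖((LT s r).map (fun x => x.1 * xc s H x.2 m)).sum‖
      ≤ ((LT s r).map (fun x => ‖x.1‖)).sum * (NN s H m * (m : ℝ) ^ wYT r) := by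
    apply comb_norm (LT s r) (fun A => xc s H A m)
    intro x hx
    obtain ⟨hi, hw⟩ := LT_mem s hr x hx
    exact xc_le s H hm hi hw
  refine key.trans ?_
  have hp : 0 ≤ NN s H m * (m : ℝ) ^ wYT r := by positivity
  have h1 := mul_le_mul_of_nonneg_right (hCL s hs r hr).1 hp
  linarith

theorem Ex_norm {CL : ℝ} (hCL : ∀ s : ℂ, ‖s‖ ≤ 1 → ∀ r < 4,
    ((LT s r).map (fun x => ‖x.1‖)).sum ≤ CL ∧ ((LET s r).map (fun x => ‖x.1‖)).sum ≤ CL)
    {s : ℂ} (hs : ‖s‖ ≤ 1) (H : ℂ → ℂ) {m : ℕ} (hm : 1 ≤ m) {r : ℕ} (hr : r < 4) :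
    ‖Ex s H r m / (m : ℂ) ^ wYT r‖ ≤ CL * NN s H m / m := by
  have hm0 : (0 : ℝ) < m := by exact_mod_cast hm
  have hN := NN_nonneg s H m
  rw [norm_div, norm_pow, Complex.norm_natCast, div_le_iff₀ (by positivity)]
  have hw : 1 ≤ wYT r := (wYT_pos hr).1
  have key : ‖Ex s H r m‖ ≤ ((LET s r).map (fun x => ‖x.1‖)).sum
      * (NN s H m * (m : ℝ) ^ (wYT r - 1)) := by
    apply comb_norm (LET s r) (fun A => xc s H A m)
    intro x hx
    obtain ⟨hi, hw⟩ := LET_mem s hr x hx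
    exact xc_le s H hm hi hw
  refine key.trans ?_
  have hp : 0 ≤ NN s H m * (m : ℝ) ^ (wYT r - 1) := by positivity
  have h1 := mul_le_mul_of_nonneg_right (hCL s hs r hr).2 hp
  refine h1.trans (le_of_eq ?_)
  obtain ⟨w, hw'⟩ := Nat.exists_eq_add_of_le hw
  rw [hw']
  have e : 1 + w - 1 = w := by omega
  rw [e, pow_add]
  field_simp

theorem gt_norm {CL : ℝ} (hCL0 : 0 ≤ CL) (hCL : ∀ s : ℂ, ‖s‖ ≤ 1 → ∀ r < 4,
    ((LT s r).map (fun x => ‖x.1‖)).sum ≤ CL ∧ ((LET s r).map (fun x => ‖x.1‖)).sum ≤ CL)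
    {ρ : ℝ} {β H : ℂ → ℂ} {Φ : ℂ → ℂ → ℂ} (h : Dat ρ β H Φ) {s : ℂ}
    (hs : ‖s‖ ≤ 1) {m : ℕ} (hm : 1 ≤ m) {r : ℕ} (hr : r < 4) :
    ‖gt s H m r‖ ≤ 2 * CL * NN s H m := by
  have h1 := Yx_norm hCL h hs hm hr
  have h2 := Ex_norm hCL hs H hm hr
  have hN := NN_nonneg s H m
  have hm1 : (1 : ℝ) ≤ m := by exact_mod_cast hm
  have h3 : CL * NN s H m / m ≤ CL * NN s H m := div_le_self (by positivity) hm1
  unfold gt
  refine (norm_add_le _ _).trans ?_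
  linarith

/-! ### the forms -/

theorem hF_pert (Q : ℕ → ℕ → ℂ) (u v : ℕ → ℂ) (τ : ℕ → ℕ → ℝ) {CQ U V e e' : ℝ}
    (hQ : ∀ r t, ‖Q r t‖ ≤ CQ) (hu : ∀ r < 4, ‖u r‖ ≤ U) (hv : ∀ r < 4, ‖v r‖ ≤ V)
    (hd : ∀ r < 4, ‖u r - v r‖ ≤ e) (hτ : ∀ r < 4, ∀ t < 4, |τ r t - 1| ≤ e') :
    ∑ r ∈ Finset.range 4, ∑ t ∈ Finset.range 4, τ r t * (Q r t * (u t * conj (u r))).re
      ≤ hF 4 Q v + 16 * (CQ * (e' * U ^ 2 + e * (U + V))) := by
  have hCQ : 0 ≤ CQ := (norm_nonneg _).trans (hQ 0 0)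
  have hU : 0 ≤ U := (norm_nonneg _).trans (hu 0 (by norm_num))
  have hV : 0 ≤ V := (norm_nonneg _).trans (hv 0 (by norm_num))
  have he : 0 ≤ e := (norm_nonneg _).trans (hd 0 (by norm_num))
  have he' : 0 ≤ e' := (abs_nonneg _).trans (hτ 0 (by norm_num) 0 (by norm_num))
  have h1 : ∀ r ∈ Finset.range 4, ∀ t ∈ Finset.range 4,
      τ r t * (Q r t * (u t * conj (u r))).re
        ≤ (Q r t * (v t * conj (v r))).re + CQ * (e' * U ^ 2 + e * (U + V)) := by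
    intro r hr t ht
    rw [Finset.mem_range] at hr ht
    have a1 : |(Q r t * (u t * conj (u r))).re| ≤ CQ * U ^ 2 := by
      refine (Complex.abs_re_le_norm _).trans ?_
      rw [norm_mul, norm_mul, RCLike.norm_conj, sq]
      exact mul_le_mul (hQ r t) (mul_le_mul (hu t ht) (hu r hr) (norm_nonneg _) hU)
        (by positivity) hCQ
    have a2 : |(Q r t * (u t * conj (u r))).re - (Q r t * (v t * conj (v r))).re|
        ≤ CQ * (e * (U + V)) := by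
      rw [← Complex.sub_re]
      refine (Complex.abs_re_le_norm _).trans ?_
      have e1 : Q r t * (u t * conj (u r)) - Q r t * (v t * conj (v r))
          = Q r t * ((u t - v t) * conj (u r) + v t * conj (u r - v r)) := by
        rw [map_sub]
        ring
      rw [e1, norm_mul]
      apply mul_le_mul (hQ r t) _ (norm_nonneg _) hCQ
      refine (norm_add_le _ _).trans ?_
      rw [norm_mul, norm_mul, RCLike.norm_conj, RCLike.norm_conj]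
      have b1 := mul_le_mul (hd t ht) (hu r hr) (norm_nonneg _) he
      have b2 := mul_le_mul (hv t ht) (hd r hr) (norm_nonneg _) hV
      linarith
    have a3 : (τ r t - 1) * (Q r t * (u t * conj (u r))).re ≤ e' * (CQ * U ^ 2) := by
      refine (le_abs_self _).trans ?_
      rw [abs_mul]
      exact mul_le_mul (hτ r hr t ht) a1 (abs_nonneg _) he'
    have a4 := le_abs_self ((Q r t * (u t * conj (u r))).re - (Q r t * (v t * conj (v r))).re)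
    linarith
  have h2 := Finset.sum_le_sum fun r hr => Finset.sum_le_sum fun t ht => h1 r hr t ht
  refine h2.trans (le_of_eq ?_)
  unfold hF
  simp only [Finset.sum_add_distrib, Finset.sum_const, Finset.card_range]
  simp only [nsmul_eq_mul]
  push_cast
  ring

theorem hF_smul (Q : ℕ → ℕ → ℂ) (s : ℂ) {u v : ℕ → ℂ} (h : ∀ r < 4, u r = s * v r) :
    hF 4 Q u = ‖s‖ ^ 2 * hF 4 Q v := by
  unfold hF
  rw [Finset.mul_sum]
  apply Finset.sum_congr rfl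
  intro r hr
  rw [Finset.mul_sum]
  apply Finset.sum_congr rfl
  intro t ht
  rw [h r (Finset.mem_range.mp hr), h t (Finset.mem_range.mp ht)]
  have e : Q r t * (s * v t * conj (s * v r))
      = ((‖s‖ ^ 2 : ℝ) : ℂ) * (Q r t * (v t * conj (v r))) := by
    have h7 : s * conj s = ((‖s‖ ^ 2 : ℝ) : ℂ) := by
      rw [Complex.mul_conj, Complex.normSq_eq_norm_sq]
    rw [map_mul, ← h7]
    ring
  rw [e, Complex.re_ofReal_mul]

/-! ### the inequality for a large order -/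

theorem Tg_sq (T : ℕ → ℕ → ℂ) {CT : ℝ} (hT : ∀ n r, ‖T n r‖ ≤ CT) (g : ℕ → ℂ) (n : ℕ) :
    ‖Tg 4 T g n‖ ^ 2 ≤ 4 * CT ^ 2 * ∑ r ∈ Finset.range 4, ‖g r‖ ^ 2 := by
  have hCT : 0 ≤ CT := (norm_nonneg _).trans (hT 0 0)
  have h1 : ‖Tg 4 T g n‖ ≤ ∑ r ∈ Finset.range 4, CT * ‖g r‖ := by
    unfold Tg
    refine (norm_sum_le _ _).trans ?_
    apply Finset.sum_le_sum
    intro r _
    rw [norm_mul]
    exact mul_le_mul_of_nonneg_right (hT n r) (norm_nonneg _)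
  have h2 := pow_le_pow_left₀ (norm_nonneg _) h1 2
  refine h2.trans ?_
  have h3 := sq_sum_le_card_mul_sum_sq (s := Finset.range 4) (f := fun r => CT * ‖g r‖)
  refine h3.trans (le_of_eq ?_)
  rw [Finset.card_range]
  simp only [mul_pow]
  rw [← Finset.mul_sum]
  push_cast
  ring

theorem low_order {a : ℝ} (ha : 1 / 2 ≤ a) (ha1 : a < 1) {s0 : ℝ} (hs0 : s0 ≤ 1 / 20)
    (T Q : ℂ → ℕ → ℕ → ℂ) {CT : ℝ} (hT : ∀ s : ℂ, ‖s‖ ≤ s0 → ∀ n r, ‖T s n r‖ ≤ CT)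
    (hQ : ∀ s : ℂ, s ≠ 0 → ‖s‖ ≤ s0 → ∀ g : ℕ → ℂ, hF 4 (Q s) g
      ≤ (1 - 20 * ‖s‖ ^ 2) * (linF s 4 7 g (Tg 4 (T s) g)
          - gamF s (‖s‖ ^ 2 / a) 7 (Tg 4 (T s) g))
        - a / 2 * (1 + 20 * ‖s‖ ^ 2) * ‖g 0‖ ^ 2) {δ : ℝ} (hδ : 0 < δ) :
    ∃ m0 : ℕ, ∀ m : ℕ, 1 ≤ m → m0 ≤ m → ∀ (J : ℕ) (s : ℂ), s ≠ 0 → ‖s‖ ≤ s0 →
      ∀ d : ℕ → ℂ, (∀ l ≤ m, d l = d (m - l)) →
      Wm (‖s‖ ^ 2 / a) m * (hF 4 (Q s) (vS d m) - δ * ∑ r ∈ Finset.range 4, ‖vS d m r‖ ^ 2)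
        ≤ KS s * (Pf s (‖s‖ ^ 2 / a) d m - Nf s (‖s‖ ^ 2 / a) d m J) := by
  obtain ⟨C0, hC0, hP⟩ := P_lower 4 7 (by norm_num)
  obtain ⟨m1, hm1⟩ := small_N ha ha1 (δ := δ / 2) (by positivity)
  set C1 : ℝ := C0 * (28 * CT ^ 2 + 1) with hC1
  have hC10 : 0 ≤ C1 := by positivity
  obtain ⟨m2, hm2⟩ := exists_nat_ge (2 * C1 / δ)
  refine ⟨max m1 m2, fun m hm hmm J s hs hss d hd => ?_⟩
  have hmm1 : m1 ≤ m := (le_max_left _ _).trans hmm
  have hmm2 : m2 ≤ m := (le_max_right _ _).trans hmm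
  have hmr : (0 : ℝ) < m := by exact_mod_cast hm
  have hs20 : ‖s‖ ≤ 1 / 20 := hss.trans hs0
  have hsp : 0 < ‖s‖ := norm_pos_iff.mpr hs
  have ha0 : 0 < a := by linarith
  set b : ℝ := ‖s‖ ^ 2 / a with hb
  have hs2 : ‖s‖ ^ 2 ≤ 1 / 400 := by nlinarith
  have hb0 : 0 < b := by positivity
  have hb1 : b ≤ 1 := by
    rw [hb, div_le_one ha0]
    linarith
  have hre := abs_le.mp ((Complex.abs_re_le_norm s).trans hs20)
  have hσ : 0 < b + 1 - 2 * s.re := by linarith [hre.2]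
  have hK := KS_facts (s := s) (by linarith)
  have hK0 : 0 < KS s := by linarith [hK.1]
  have h1 := hP s (by linarith) b hb0 hb1 hσ m hm d hd (Tg 4 (T s) (vS d m))
  have h2 := hm1 m hm hmm1 J s hs hs20 d hd
  rw [← hb] at h2
  have h3 := hQ s hs hss (vS d m)
  rw [← hb] at h3
  set L : ℝ := linF s 4 7 (vS d m) (Tg 4 (T s) (vS d m)) - gamF s b 7 (Tg 4 (T s) (vS d m)) with hL
  set G : ℝ := ∑ r ∈ Finset.range 4, ‖vS d m r‖ ^ 2 with hG
  set P : ℝ := Pf s b d m with hPd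
  set Nn : ℝ := Nf s b d m J with hNd
  have hG0 : 0 ≤ G := Finset.sum_nonneg fun _ _ => sq_nonneg _
  have hP0 : 0 ≤ P := Pf_nonneg hσ d m
  have hW := Wm_nonneg hb0 m
  have hWK : (m : ℝ) ^ 2 / (KS s * pq (b + 3) (m - 1)) = Wm b m / KS s := by
    unfold Wm
    rw [div_div, mul_comm (KS s)]
  rw [hWK] at h1 h2
  have hy : ∑ n ∈ Finset.range 7, ‖Tg 4 (T s) (vS d m) n‖ ^ 2 ≤ 28 * CT ^ 2 * G := by
    have a1 : ∀ n ∈ Finset.range 7, ‖Tg 4 (T s) (vS d m) n‖ ^ 2 ≤ 4 * CT ^ 2 * G :=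
      fun n _ => Tg_sq (T s) (hT s hss) (vS d m) n
    have a2 := Finset.sum_le_sum a1
    rw [Finset.sum_const, Finset.card_range, nsmul_eq_mul] at a2
    push_cast at a2
    linarith
  have hCm : 0 ≤ C0 / m := by positivity
  have h4 : Wm b m * (L - C1 / m * G) ≤ KS s * P := by
    have a1 : C0 / m * (∑ n ∈ Finset.range 7, ‖Tg 4 (T s) (vS d m) n‖ ^ 2 + G) ≤ C1 / m * G := by
      have a2 := mul_le_mul_of_nonneg_left hy hCm
      have a3 : C1 / m * G = C0 / m * (28 * CT ^ 2 * G) + C0 / m * G := by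
        rw [hC1]
        ring
      rw [a3]
      linarith
    have a4 : Wm b m / KS s * (L - C1 / m * G) ≤ P := by
      refine le_trans ?_ h1
      apply mul_le_mul_of_nonneg_left _ (by positivity)
      linarith
    have a5 := mul_le_mul_of_nonneg_left a4 hK0.le
    have a6 : KS s * (Wm b m / KS s * (L - C1 / m * G)) = Wm b m * (L - C1 / m * G) := by
      field_simp
    linarith
  have h5 : KS s * Nn ≤ Wm b m * ((a / 2 * (1 + 20 * ‖s‖ ^ 2) + δ / 2) * ‖vS d m 0‖ ^ 2)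
      + 20 * ‖s‖ ^ 2 * (KS s * P) := by
    have a5 := mul_le_mul_of_nonneg_left h2 hK0.le
    have a6 : KS s * (Wm b m / KS s * ((a / 2 * (1 + 20 * ‖s‖ ^ 2) + δ / 2) * ‖vS d m 0‖ ^ 2)
        + 20 * ‖s‖ ^ 2 * P) = Wm b m * ((a / 2 * (1 + 20 * ‖s‖ ^ 2) + δ / 2) * ‖vS d m 0‖ ^ 2)
        + 20 * ‖s‖ ^ 2 * (KS s * P) := by
      field_simp
    linarith
  have h6 : 0 ≤ 1 - 20 * ‖s‖ ^ 2 := by linarith
  have h7 : 1 - 20 * ‖s‖ ^ 2 ≤ 1 := by
    have := sq_nonneg ‖s‖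
    linarith
  have h8 := mul_le_mul_of_nonneg_left h4 h6
  have h9 : C1 / m ≤ δ / 2 := by
    rw [div_le_iff₀ hmr]
    have b1 : 2 * C1 / δ ≤ m := hm2.trans (by exact_mod_cast hmm2)
    rw [div_le_iff₀ hδ] at b1
    linarith
  have h10 : ‖vS d m 0‖ ^ 2 ≤ G :=
    Finset.single_le_sum (f := fun r => ‖vS d m r‖ ^ 2) (fun _ _ => sq_nonneg _)
      (Finset.mem_range.mpr (by norm_num))
  have h11 : (1 - 20 * ‖s‖ ^ 2) * (C1 / m * G) ≤ δ / 2 * G := by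
    have c1 : 0 ≤ C1 / m := by positivity
    have c2 : C1 / m * G ≤ δ / 2 * G := mul_le_mul_of_nonneg_right h9 hG0
    have c3 : 0 ≤ C1 / m * G := by positivity
    nlinarith
  have h12 : δ / 2 * ‖vS d m 0‖ ^ 2 ≤ δ / 2 * G := mul_le_mul_of_nonneg_left h10 (by positivity)
  have h13 : hF 4 (Q s) (vS d m) - δ * G
      ≤ (1 - 20 * ‖s‖ ^ 2) * (L - C1 / m * G)
        - (a / 2 * (1 + 20 * ‖s‖ ^ 2) + δ / 2) * ‖vS d m 0‖ ^ 2 := by
    linarith
  have h14 := mul_le_mul_of_nonneg_left h13 hW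
  refine h14.trans ?_
  linarith

/-- the constants of the perturbation -/
theorem per_order {a : ℝ} (ha : 1 / 2 ≤ a) (ha1 : a < 1) {s0 : ℝ} (hs0 : s0 ≤ 1 / 20)
    (T Q : ℂ → ℕ → ℕ → ℂ) {CT : ℝ} (hT : ∀ s : ℂ, ‖s‖ ≤ s0 → ∀ n r, ‖T s n r‖ ≤ CT)
    (hQb : ∀ s : ℂ, ‖s‖ ≤ s0 → ∀ r t, ‖Q s r t‖ ≤ CT) (hCT : 0 ≤ CT)
    (hQ : ∀ s : ℂ, s ≠ 0 → ‖s‖ ≤ s0 → ∀ g : ℕ → ℂ, hF 4 (Q s) g
      ≤ (1 - 20 * ‖s‖ ^ 2) * (linF s 4 7 g (Tg 4 (T s) g)
          - gamF s (‖s‖ ^ 2 / a) 7 (Tg 4 (T s) g))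
        - a / 2 * (1 + 20 * ‖s‖ ^ 2) * ‖g 0‖ ^ 2) {δ : ℝ} (hδ : 0 < δ) :
    ∃ m0 : ℕ, ∀ m : ℕ, m0 ≤ m → ∀ (J : ℕ) (s : ℂ), s ≠ 0 → ‖s‖ ≤ s0 →
      ∀ (ρ : ℝ) (β H : ℂ → ℂ) (Φ : ℂ → ℂ → ℂ), Dat ρ β H Φ →
      cmT (Q s) s (‖s‖ ^ 2 / a) H m
        ≤ KS s / ‖s‖ ^ 2 * (Pf s (‖s‖ ^ 2 / a) (diagc (EE Φ s) m) m
          - Nf s (‖s‖ ^ 2 / a) (diagc (EE Φ s) m) m J)
        + δ * (Wm (‖s‖ ^ 2 / a) m * S2 s H m) := by
  obtain ⟨CL, hCL0, hCL⟩ := L_sum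
  have hcard : (0 : ℝ) ≤ MS.card := Nat.cast_nonneg _
  set KG : ℝ := 4 * (2 * CL) ^ 2 with hKG
  have hKG0 : 0 ≤ KG := by positivity
  set δ2 : ℝ := δ / (2 * (MS.card + 1) * (KG + 1)) with hδ2
  have hδ2p : 0 < δ2 := by positivity
  obtain ⟨m1, hm1⟩ := low_order ha ha1 hs0 T Q hT hQ hδ2p
  set K1 : ℝ := 16 * (CT * (154 * CL ^ 2 + CL * (CL + 2 * CL))) with hK1
  have hK10 : 0 ≤ K1 := by positivity
  obtain ⟨m2, hm2⟩ := exists_nat_ge (2 * (MS.card + 1) * K1 / δ)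
  refine ⟨max 1 (max m1 m2), fun m hmm J s hs hss ρ β H Φ h => ?_⟩
  have hm : 1 ≤ m := (le_max_left _ _).trans hmm
  have hmm1 : m1 ≤ m := ((le_max_left _ _).trans (le_max_right _ _)).trans hmm
  have hmm2 : m2 ≤ m := ((le_max_right _ _).trans (le_max_right _ _)).trans hmm
  have hmr : (0 : ℝ) < m := by exact_mod_cast hm
  have hs20 : ‖s‖ ≤ 1 / 20 := hss.trans hs0
  have hs1 : ‖s‖ ≤ 1 := by linarith
  have hsp : 0 < ‖s‖ := norm_pos_iff.mpr hs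
  have ha0 : 0 < a := by linarith
  have hs2 : ‖s‖ ^ 2 ≤ 1 / 400 := by nlinarith
  have h1 := hm1 m hm hmm1 J s hs hss (diagc (EE Φ s) m) (EE_symm h.logPhi s m)
  set b : ℝ := ‖s‖ ^ 2 / a with hb
  have hb0 : 0 < b := by positivity
  have hb1 : b ≤ 1 := by
    rw [hb, div_le_one ha0]
    linarith
  have hW := Wm_nonneg hb0 m
  have hN := NN_nonneg s H m
  set P : ℝ := Pf s b (diagc (EE Φ s) m) m with hPd
  set Nn : ℝ := Nf s b (diagc (EE Φ s) m) m J with hNd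
  have hs2p : 0 < ‖s‖ ^ 2 := by positivity
  -- the scaled form
  have hv : ∀ r < 4, vS (diagc (EE Φ s) m) m r = s * gt s H m r := fun r hr => vS_eq h s hm hr
  rw [hF_smul (Q s) s hv] at h1
  have h2 : ∑ r ∈ Finset.range 4, ‖vS (diagc (EE Φ s) m) m r‖ ^ 2
      = ‖s‖ ^ 2 * ∑ r ∈ Finset.range 4, ‖gt s H m r‖ ^ 2 := by
    rw [Finset.mul_sum]
    apply Finset.sum_congr rfl
    intro r hr
    rw [hv r (Finset.mem_range.mp hr), norm_mul, mul_pow]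
  rw [h2] at h1
  have h3 : ∑ r ∈ Finset.range 4, ‖gt s H m r‖ ^ 2 ≤ KG * NN s H m ^ 2 := by
    have a1 : ∀ r ∈ Finset.range 4, ‖gt s H m r‖ ^ 2 ≤ (2 * CL * NN s H m) ^ 2 := fun r hr =>
      pow_le_pow_left₀ (norm_nonneg _) (gt_norm hCL0 hCL h hs1 hm (Finset.mem_range.mp hr)) 2
    have a2 := Finset.sum_le_sum a1
    rw [Finset.sum_const, Finset.card_range, nsmul_eq_mul] at a2
    push_cast at a2
    refine a2.trans (le_of_eq ?_)
    rw [hKG]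
    ring
  have h4 : Wm b m * (hF 4 (Q s) (gt s H m)) ≤ KS s / ‖s‖ ^ 2 * (P - Nn)
      + Wm b m * (δ2 * (KG * NN s H m ^ 2)) := by
    have a1 : ‖s‖ ^ 2 * (Wm b m * (hF 4 (Q s) (gt s H m)
        - δ2 * ∑ r ∈ Finset.range 4, ‖gt s H m r‖ ^ 2)) ≤ KS s * (P - Nn) := by
      refine le_trans (le_of_eq ?_) h1
      ring
    have a2 : Wm b m * (hF 4 (Q s) (gt s H m)
        - δ2 * ∑ r ∈ Finset.range 4, ‖gt s H m r‖ ^ 2) ≤ KS s / ‖s‖ ^ 2 * (P - Nn) := by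
      have a4 : KS s / ‖s‖ ^ 2 * (P - Nn) = KS s * (P - Nn) / ‖s‖ ^ 2 := by ring
      rw [a4, le_div_iff₀ hs2p, mul_comm _ (‖s‖ ^ 2)]
      exact a1
    have a3 : Wm b m * (δ2 * ∑ r ∈ Finset.range 4, ‖gt s H m r‖ ^ 2)
        ≤ Wm b m * (δ2 * (KG * NN s H m ^ 2)) := by
      apply mul_le_mul_of_nonneg_left _ hW
      exact mul_le_mul_of_nonneg_left h3 hδ2p.le
    linarith
  -- the exact form
  set u : ℕ → ℂ := fun r => Yx s H r m / (m : ℂ) ^ wYT r with hu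
  set τ : ℕ → ℕ → ℝ := fun r t => tq b (wYT r + wYT t - 1) m with hτ
  have h5 : cmT (Q s) s b H m = Wm b m * ∑ r ∈ Finset.range 4, ∑ t ∈ Finset.range 4,
      τ r t * (Q s r t * (u t * conj (u r))).re := by
    unfold cmT
    rw [Finset.mul_sum]
    apply Finset.sum_congr rfl
    intro r hr
    rw [Finset.mul_sum]
    apply Finset.sum_congr rfl
    intro t ht
    have hr3 := wYT_pos (Finset.mem_range.mp hr)
    have ht3 := wYT_pos (Finset.mem_range.mp ht)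
    have e2 : wYT r + wYT t - 1 + 1 = wYT r + wYT t := by omega
    have e3 := om_eq hb0 (wYT r + wYT t - 1) hm
    rw [e2] at e3
    have e4 : (Q s r t * (u t * conj (u r))).re
        = (Q s r t * (Yx s H t m * conj (Yx s H r m))).re / (m : ℝ) ^ (wYT r + wYT t) := by
      have e5 : Q s r t * (u t * conj (u r))
          = (Q s r t * (Yx s H t m * conj (Yx s H r m)))
            / (((m : ℝ) ^ (wYT r + wYT t) : ℝ) : ℂ) := by
        rw [hu]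
        simp only
        rw [map_div₀, map_pow, Complex.conj_natCast]
        push_cast
        ring
      rw [e5, Complex.div_ofReal_re]
    rw [e4, hτ]
    simp only
    have hp : (0 : ℝ) < (m : ℝ) ^ (wYT r + wYT t) := by positivity
    set X := (Q s r t * (Yx s H t m * conj (Yx s H r m))).re
    calc om b (wYT r + wYT t - 1) m * X
        = (om b (wYT r + wYT t - 1) m * (m : ℝ) ^ (wYT r + wYT t))
            * (X / (m : ℝ) ^ (wYT r + wYT t)) := by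
          field_simp
      _ = Wm b m * (tq b (wYT r + wYT t - 1) m * (X / (m : ℝ) ^ (wYT r + wYT t))) := by
          rw [e3]
          ring
  have h6 := hF_pert (Q s) u (gt s H m) τ (CQ := CT) (U := CL * NN s H m)
    (V := 2 * CL * NN s H m) (e := CL * NN s H m / m) (e' := 154 / m) (hQb s hss)
    (fun r hr => Yx_norm hCL h hs1 hm hr) (fun r hr => gt_norm hCL0 hCL h hs1 hm hr)
    (fun r hr => by
      have e : u r - gt s H m r = -(Ex s H r m / (m : ℂ) ^ wYT r) := by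
        rw [hu]
        unfold gt
        ring
      rw [e, norm_neg]
      exact Ex_norm hCL hs1 H hm hr)
    (fun r hr t ht => by
      have hr3 := wYT_pos hr
      have ht3 := wYT_pos ht
      have e := tq_sub hb0 hb1 (wYT r + wYT t - 1) hm
      refine e.trans ?_
      apply div_le_div_of_nonneg_right _ hmr.le
      have h7 : (((wYT r + wYT t - 1 : ℕ)) : ℝ) ≤ 11 := by
        have : wYT r + wYT t - 1 ≤ 11 := by omega
        exact_mod_cast this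
      have h8 : (0 : ℝ) ≤ (((wYT r + wYT t - 1 : ℕ)) : ℝ) := Nat.cast_nonneg _
      nlinarith)
  have h7 : 16 * (CT * (154 / m * (CL * NN s H m) ^ 2 + CL * NN s H m / m
      * (CL * NN s H m + 2 * CL * NN s H m))) = K1 / m * NN s H m ^ 2 := by
    rw [hK1]
    field_simp
  rw [h7] at h6
  have h8 := mul_le_mul_of_nonneg_left h6 hW
  rw [← h5] at h8
  have hc1 : (0 : ℝ) < MS.card + 1 := by positivity
  have h9 : K1 / m ≤ δ / (2 * (MS.card + 1)) := by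
    rw [div_le_div_iff₀ hmr (by positivity)]
    have b1 : 2 * (MS.card + 1) * K1 / δ ≤ m := hm2.trans (by exact_mod_cast hmm2)
    rw [div_le_iff₀ hδ] at b1
    linarith
  have h10 : K1 / m * NN s H m ^ 2 ≤ δ / (2 * (MS.card + 1)) * NN s H m ^ 2 :=
    mul_le_mul_of_nonneg_right h9 (sq_nonneg _)
  have h11 : K1 / m * NN s H m ^ 2 + δ2 * (KG * NN s H m ^ 2) ≤ δ * S2 s H m := by
    have c1 := NN_sq s H m
    have c0 := S2_nonneg s H m
    have c2 : δ2 * (KG * NN s H m ^ 2) ≤ δ / (2 * (MS.card + 1)) * NN s H m ^ 2 := by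
      have d1 : δ2 * KG ≤ δ / (2 * (MS.card + 1)) := by
        rw [hδ2, div_mul_eq_mul_div, div_le_div_iff₀ (by positivity) (by positivity)]
        nlinarith [mul_pos hδ hc1]
      have d2 := mul_le_mul_of_nonneg_right d1 (sq_nonneg (NN s H m))
      linarith
    have c3 : δ / (2 * (MS.card + 1)) * NN s H m ^ 2 ≤ δ / 2 * S2 s H m := by
      have d1 : NN s H m ^ 2 ≤ (MS.card + 1) * S2 s H m := by linarith
      have d2 := mul_le_mul_of_nonneg_left d1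
        (show 0 ≤ δ / (2 * ((MS.card : ℝ) + 1)) by positivity)
      refine d2.trans (le_of_eq ?_)
      field_simp
    linarith
  have h12 := mul_le_mul_of_nonneg_left h11 hW
  linarith

/-! ### the finite part -/

theorem Yx_bound (r m : ℕ) (hr : r < 4) : ∃ B : ℝ, 0 ≤ B ∧ ∀ (ρ : ℝ) (β H : ℂ → ℂ)
    (Φ : ℂ → ℂ → ℂ), Dat ρ β H Φ → ∀ s : ℂ, ‖s‖ ≤ 1 → ‖Yx s H r m‖ ≤ B := by
  obtain ⟨CL, hCL0, hCL⟩ := L_sum
  have h := fun A : MS => xc_bound A m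
  choose B hB0 hB using h
  have hB1 : 0 ≤ ∑ A, B A := Finset.sum_nonneg fun A _ => hB0 A
  refine ⟨CL * ∑ A, B A, mul_nonneg hCL0 hB1, fun ρ β H Φ hd s hs => ?_⟩
  rw [Yx_list hd]
  have key : ‖((LT s r).map (fun x => x.1 * xc s H x.2 m)).sum‖
      ≤ ((LT s r).map (fun x => ‖x.1‖)).sum * ∑ A, B A := by
    apply comb_norm (LT s r) (fun A => xc s H A m)
    intro x hx
    obtain ⟨hi, _⟩ := LT_mem s hr x hx
    exact (hB ⟨x.2, List.mem_toFinset.mpr hi⟩ ρ β H Φ hd s hs).trans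
      (Finset.single_le_sum (f := B) (fun r _ => hB0 r) (Finset.mem_univ _))
  exact key.trans (mul_le_mul_of_nonneg_right (hCL s hs r hr).1 hB1)

theorem cmT_bound {s0 : ℝ} (hs0 : s0 ≤ 1 / 20) (Q : ℂ → ℕ → ℕ → ℂ) {CT : ℝ}
    (hQb : ∀ s : ℂ, ‖s‖ ≤ s0 → ∀ r t, ‖Q s r t‖ ≤ CT) (hCT : 0 ≤ CT) (m : ℕ) :
    ∃ C : ℝ, 0 ≤ C ∧ ∀ s : ℂ, ‖s‖ ≤ s0 → ∀ b : ℝ, 0 < b → b ≤ 1 → ∀ (ρ : ℝ) (β H : ℂ → ℂ)
      (Φ : ℂ → ℂ → ℂ), Dat ρ β H Φ → cmT (Q s) s b H m ≤ C := by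
  have h : ∀ r : Fin 4, ∃ B : ℝ, 0 ≤ B ∧ ∀ (ρ : ℝ) (β H : ℂ → ℂ)
    (Φ : ℂ → ℂ → ℂ), Dat ρ β H Φ → ∀ s : ℂ, ‖s‖ ≤ 1 → ‖Yx s H r m‖ ≤ B :=
    fun r => Yx_bound r m r.2
  choose B hB0 hB using h
  set M : ℝ := ∑ r, B r with hM
  have hM0 : 0 ≤ M := Finset.sum_nonneg fun r _ => hB0 r
  refine ⟨16 * (6 * (CT * (M * M))), by positivity, fun s hs b hb hb1 ρ β H Φ hd => ?_⟩
  have hs1 : ‖s‖ ≤ 1 := by linarith
  have hY : ∀ r < 4, ‖Yx s H r m‖ ≤ M := by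
    intro r hr
    have h1 := hB ⟨r, hr⟩ ρ β H Φ hd s hs1
    exact h1.trans (Finset.single_le_sum (f := B) (fun r _ => hB0 r) (Finset.mem_univ _))
  have h1 : ∀ r ∈ Finset.range 4, ∀ t ∈ Finset.range 4, om b (wYT r + wYT t - 1) m
      * (Q s r t * (Yx s H t m * conj (Yx s H r m))).re ≤ 6 * (CT * (M * M)) := by
    intro r hr t ht
    rw [Finset.mem_range] at hr ht
    have a1 : |(Q s r t * (Yx s H t m * conj (Yx s H r m))).re| ≤ CT * (M * M) := by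
      refine (Complex.abs_re_le_norm _).trans ?_
      rw [norm_mul, norm_mul, RCLike.norm_conj]
      exact mul_le_mul (hQb s hs r t) (mul_le_mul (hY t ht) (hY r hr) (norm_nonneg _) hM0)
        (by positivity) hCT
    refine (le_abs_self _).trans ?_
    rw [abs_mul, abs_of_pos (om_pos hb _ m)]
    exact mul_le_mul (om_le_six hb hb1 _ m) a1 (abs_nonneg _) (by norm_num)
  unfold cmT
  refine (Finset.sum_le_sum fun r hr => Finset.sum_le_sum fun t ht => h1 r hr t ht).trans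
    (le_of_eq ?_)
  simp only [Finset.sum_const, Finset.card_range, nsmul_eq_mul]
  push_cast
  ring

end SFT

open SF

theorem area_form_small_t {a : ℝ} (ha : 1 / 2 ≤ a) (ha1 : a < 1) {s0 : ℝ} (hs0 : s0 ≤ 1 / 20)
    (T Q : ℂ → ℕ → ℕ → ℂ) {CT : ℝ} (hT : ∀ s : ℂ, ‖s‖ ≤ s0 → ∀ n r, ‖T s n r‖ ≤ CT)
    (hQb : ∀ s : ℂ, ‖s‖ ≤ s0 → ∀ r t, ‖Q s r t‖ ≤ CT)
    (hQ : ∀ s : ℂ, s ≠ 0 → ‖s‖ ≤ s0 → ∀ g : ℕ → ℂ, hF 4 (Q s) g
      ≤ (1 - 20 * ‖s‖ ^ 2) * (linF s 4 7 g (Tg 4 (T s) g)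
          - gamF s (‖s‖ ^ 2 / a) 7 (Tg 4 (T s) g))
        - a / 2 * (1 + 20 * ‖s‖ ^ 2) * ‖g 0‖ ^ 2) {δ : ℝ} (hδ : 0 < δ) :
    ∃ C : ℝ, ∀ s : ℂ, s ≠ 0 → ‖s‖ ≤ s0 → ∀ (ρ : ℝ) (β H : ℂ → ℂ) (Φ : ℂ → ℂ → ℂ),
      Dat ρ β H Φ → LS s H (‖s‖ ^ 2 / a) (fun z => qYT (Q s) s (‖s‖ ^ 2 / a) (cc H z))
        ≤ δ * LS s H (‖s‖ ^ 2 / a) (fun z => ‖cc H z 0‖ ^ 2) + C / ‖s‖ ^ 2 := by
  by_cases hneg : s0 < 0
  · refine ⟨0, fun s _ hss => ?_⟩
    exact absurd (lt_of_le_of_lt hss hneg) (not_lt.mpr (norm_nonneg s))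
  rw [not_lt] at hneg
  have hCT : 0 ≤ CT := (norm_nonneg _).trans (hT 0 (by simpa using hneg) 0 0)
  obtain ⟨C5, hC50, hC5⟩ := SFT.S2_sum
  set δ3 : ℝ := δ / (C5 + 1) with hδ3
  have hδ3p : 0 < δ3 := by positivity
  obtain ⟨m0, hm0⟩ := SFT.per_order ha ha1 hs0 T Q hT hQb hCT hQ hδ3p
  have hfin := fun m : ℕ => SFT.cmT_bound hs0 Q hQb hCT m
  choose B hB0 hB using hfin
  have hNs := fun m : ℕ => Nf_small a ha ha1 m
  choose D hD0 hD using hNs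
  have ha0 : 0 < a := by linarith
  refine ⟨(∑ m ∈ Finset.range m0, B m) + 2 * ∑ m ∈ Finset.range m0, D m,
    fun s hs hss ρ β H Φ h => ?_⟩
  have hs20 : ‖s‖ ≤ 1 / 20 := hss.trans hs0
  have hs1 : ‖s‖ ≤ 1 := by linarith
  have hsp : 0 < ‖s‖ := norm_pos_iff.mpr hs
  have hs2 : ‖s‖ ^ 2 ≤ 1 / 400 := by nlinarith
  have hs2p : 0 < ‖s‖ ^ 2 := by positivity
  have hre := abs_le.mp ((Complex.abs_re_le_norm s).trans hs20)
  set b : ℝ := ‖s‖ ^ 2 / a with hb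
  have hb0 : 0 < b := by positivity
  have hb1 : b ≤ 1 := by
    rw [hb, div_le_one ha0]
    linarith
  have hσ : 0 < b + 1 - 2 * s.re := by linarith [hre.2]
  have hK1 := KS_facts (s := s) (by linarith)
  have hK2 := KS_two hs20
  have hK0 : 0 < KS s := by linarith [hK1.1]
  have hSA : LS s H b (fun z => ‖cc H z 0‖ ^ 2) = SA s H b [0] := by
    unfold SA
    simp only [ev_cons, ev_nil, mul_one]
  rw [hSA]
  have hSA0 := SA_nonneg h hb0 s [0]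
  have hsum := (SFT.cmT_hasSum h hb0 s (Q s)).tendsto_sum_nat
  apply le_of_tendsto hsum
  filter_upwards [eventually_ge_atTop m0] with M hM
  -- split the sum
  have hsplit : ∀ f : ℕ → ℝ, ∑ m ∈ Finset.range M, f m
      = ∑ m ∈ Finset.range m0, f m + ∑ m ∈ Finset.Ico m0 M, f m := fun f =>
    (Finset.sum_range_add_sum_Ico f hM).symm
  have hA := area_sum_s h.ext h.logPhi hσ M (s := s)
  rw [hsplit, hsplit] at hA
  have hP0 : 0 ≤ ∑ m ∈ Finset.range m0, Pf s b (diagc (EE Φ s) m) m :=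
    Finset.sum_nonneg fun m _ => Pf_nonneg hσ _ m
  have hN0 : ∑ m ∈ Finset.range m0, Nf s b (diagc (EE Φ s) m) m (M - (m + 1))
      ≤ ∑ m ∈ Finset.range m0, D m := by
    apply Finset.sum_le_sum
    intro m _
    exact hD m ρ β H Φ h s hs (by linarith) _
  have hdiff : ∑ m ∈ Finset.Ico m0 M, (Pf s b (diagc (EE Φ s) m) m
      - Nf s b (diagc (EE Φ s) m) m (M - (m + 1))) ≤ ∑ m ∈ Finset.range m0, D m := by
    rw [Finset.sum_sub_distrib]
    linarith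
  have hD1 : 0 ≤ ∑ m ∈ Finset.range m0, D m := Finset.sum_nonneg fun m _ => hD0 m
  have hB1 : 0 ≤ ∑ m ∈ Finset.range m0, B m := Finset.sum_nonneg fun m _ => hB0 m
  have hlow : ∑ m ∈ Finset.range m0, SFT.cmT (Q s) s b H m ≤ ∑ m ∈ Finset.range m0, B m := by
    apply Finset.sum_le_sum
    intro m _
    exact hB m s hss b hb0 hb1 ρ β H Φ h
  have hhigh : ∑ m ∈ Finset.Ico m0 M, SFT.cmT (Q s) s b H m
      ≤ KS s / ‖s‖ ^ 2 * ∑ m ∈ Finset.Ico m0 M, (Pf s b (diagc (EE Φ s) m) m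
        - Nf s b (diagc (EE Φ s) m) m (M - (m + 1)))
        + δ3 * ∑ m ∈ Finset.Ico m0 M, Wm b m * SFT.S2 s H m := by
    rw [Finset.mul_sum, Finset.mul_sum, ← Finset.sum_add_distrib]
    apply Finset.sum_le_sum
    intro m hm
    have hm1 : m0 ≤ m := (Finset.mem_Ico.mp hm).1
    exact hm0 m hm1 (M - (m + 1)) s hs hss ρ β H Φ h
  have hS := hC5 ρ β H Φ h s hs1 b hb0 hb1 (Finset.Ico m0 M)
  have hS2 : δ3 * ∑ m ∈ Finset.Ico m0 M, Wm b m * SFT.S2 s H m ≤ δ * SA s H b [0] := by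
    have a1 := mul_le_mul_of_nonneg_left hS hδ3p.le
    have a2 : δ3 * C5 ≤ δ := by
      rw [hδ3, div_mul_eq_mul_div, div_le_iff₀ (by positivity)]
      nlinarith
    have a3 := mul_le_mul_of_nonneg_right a2 hSA0
    linarith
  have hKs : KS s / ‖s‖ ^ 2 * ∑ m ∈ Finset.Ico m0 M, (Pf s b (diagc (EE Φ s) m) m
        - Nf s b (diagc (EE Φ s) m) m (M - (m + 1)))
      ≤ 2 * (∑ m ∈ Finset.range m0, D m) / ‖s‖ ^ 2 := by
    have a1 := mul_le_mul_of_nonneg_left hdiff (show 0 ≤ KS s / ‖s‖ ^ 2 by positivity)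
    refine a1.trans ?_
    rw [div_mul_eq_mul_div]
    apply div_le_div_of_nonneg_right _ hs2p.le
    exact mul_le_mul_of_nonneg_right hK2 hD1
  have hBs : ∑ m ∈ Finset.range m0, B m ≤ (∑ m ∈ Finset.range m0, B m) / ‖s‖ ^ 2 := by
    rw [le_div_iff₀ hs2p]
    nlinarith
  rw [hsplit, add_div]
  linarith

end Pool.Agent.Helper24.HR2
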