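import Mathlib
import Pool.Agent.Helper24.HR2.Defs4
import Pool.Agent.Helper24.HR2.LSBase
import Pool.Agent.Helper24.HR2.RelS
import Pool.Agent.Helper24.HR2.SmallCore
import Pool.Agent.Helper24.HR2.SmallFormT

/-!
MP_16b0ee, project HR2, module U3: the region of small exponents, conclusion (four moments), and
a general form of the conclusion.
-/

set_option autoImplicit false

open MeasureTheory Set Metric Filter Topology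
open scoped Real ComplexConjugate

namespace Pool.Agent.Helper24.HR2

open Pool.Agent.Helper22.Half
open Pool.Agent.Helper22.Marshall (coeff SepHol LogPhi dcoeff GLe)
open Pool.Agent.Helper39.Area (Ext phi)
open Pool.Agent.Helper39.MH

namespace SmallCoreT

open SmallCore

theorem cont_YS6 {ρ : ℝ} {β H : ℂ → ℂ} {Φ : ℂ → ℂ → ℂ} (h : Dat ρ β H Φ) (s : ℂ) :
    ContinuousOn (fun z => YS6 s (cc H z)) (closedBall (0 : ℂ) 1) := by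
  have hc := fun k => cont_cc h.one_lt h.diff k
  have h0 := hc 0
  have h1 := hc 1
  have h2 := hc 2
  have h3 := hc 3
  have h4 := hc 4
  have h5 := hc 5
  unfold YS6
  fun_prop

theorem cont_YT {ρ : ℝ} {β H : ℂ → ℂ} {Φ : ℂ → ℂ → ℂ} (h : Dat ρ β H Φ) (s : ℂ) (r : ℕ) :
    ContinuousOn (fun z => YT s (cc H z) r) (closedBall (0 : ℂ) 1) := by
  unfold YT
  split_ifs
  · exact cont_YS6 h s
  · exact cont_YS h s r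

theorem cont_qYT {ρ : ℝ} {β H : ℂ → ℂ} {Φ : ℂ → ℂ → ℂ} (h : Dat ρ β H Φ) (Q : ℕ → ℕ → ℂ)
    (s : ℂ) (b : ℝ) :
    ContinuousOn (fun z => qYT Q s b (cc H z)) (closedBall (0 : ℂ) 1) := by
  unfold qYT
  refine continuousOn_const.mul (continuousOn_finsetSum _ fun r _ =>
    continuousOn_finsetSum _ fun t _ => ContinuousOn.div_const ?_ _)
  have h3 : ContinuousOn (fun z => conj (YT s (cc H z) r)) (closedBall (0 : ℂ) 1) :=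
    Complex.continuous_conj.comp_continuousOn (cont_YT h s r)
  exact Complex.continuous_re.comp_continuousOn
    (continuousOn_const.mul ((cont_YT h s t).mul h3))

end SmallCoreT

open SmallCore SmallCoreT

/-- conclusion in the region of small exponents, for an arbitrary area form `q`; the multipliers may
grow like `1 / |s|^2` -/
theorem core_small_gen {a : ℝ} (ha : 1 / 2 ≤ a) {s0 : ℝ} (hs0 : s0 ≤ 1 / 20)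
    (q : ℂ → (ℕ → ℂ) → ℝ)
    (hqc : ∀ (ρ : ℝ) (β H : ℂ → ℂ) (Φ : ℂ → ℂ → ℂ), Dat ρ β H Φ → ∀ s : ℂ,
      ContinuousOn (fun z => q s (cc H z)) (closedBall (0 : ℂ) 1))
    (rels : List ((ℂ → ℂ) × List ℕ × List ℕ)) {CZ : ℝ}
    (hζ : ∀ x ∈ rels, ∀ s : ℂ, s ≠ 0 → ‖s‖ ≤ s0 → ‖x.1 s‖ ≤ CZ / ‖s‖ ^ 2)
    {η : ℝ} (hη : 0 < η)
    (hA : ∃ C : ℝ, ∀ s : ℂ, s ≠ 0 → ‖s‖ ≤ s0 → ∀ (ρ : ℝ) (β H : ℂ → ℂ) (Φ : ℂ → ℂ → ℂ),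
      Dat ρ β H Φ → LS s H (‖s‖ ^ 2 / a) (fun z => q s (cc H z))
        ≤ η / 2 * LS s H (‖s‖ ^ 2 / a) (fun z => ‖cc H z 0‖ ^ 2) + C / ‖s‖ ^ 2)
    (hc : ∀ s : ℂ, s ≠ 0 → ‖s‖ ≤ s0 → ∀ c : ℕ → ℂ, η * ‖c 0‖ ^ 2 ≤ q s c
      + (rels.map (fun x => (x.1 s * relS s (‖s‖ ^ 2 / a) c x.2.1 x.2.2).re)).sum) :
    ∃ C : ℝ, ∀ s : ℂ, s ≠ 0 → ‖s‖ ≤ s0 → ∀ (ρ : ℝ) (β H : ℂ → ℂ) (Φ : ℂ → ℂ → ℂ),
      Dat ρ β H Φ → ‖s‖ ^ 2 / a * LS s H (‖s‖ ^ 2 / a) (fun _ => 1) ≤ C := by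
  obtain ⟨C1, hC1⟩ := hA
  obtain ⟨K0, hK0, hrel⟩ := rel_list rels
  obtain ⟨K1, hK1, hr1⟩ := rel_term [] []
  obtain ⟨K2, hK2, hr2⟩ := rel_term [] [0]
  have ha0 : 0 < a := by linarith
  refine ⟨4 * ((2 / η) * (C1 + K0 * CZ) + K1 + K2), ?_⟩
  intro s hs hss ρ β H Φ h
  have hn : 0 < ‖s‖ := norm_pos_iff.mpr hs
  have hn2 : 0 < ‖s‖ ^ 2 := by positivity
  have hs20 : ‖s‖ ≤ 1 / 20 := hss.trans hs0
  have hb0 : 0 < ‖s‖ ^ 2 / a := by positivity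
  have hb1 : ‖s‖ ^ 2 / a ≤ 1 := by
    rw [div_le_one ha0]
    nlinarith
  have hA := hC1 s hs hss ρ β H Φ h
  have hcs := hc s hs hss
  have hζs := fun x hx => hζ x hx s hs hss
  set b := ‖s‖ ^ 2 / a with hbdef
  have hH := cont_H h
  have hc0 : ContinuousOn (fun z => ‖cc H z 0‖ ^ 2) (closedBall (0 : ℂ) 1) :=
    (cont_cc h.one_lt h.diff 0).norm.pow 2
  have hqc := hqc ρ β H Φ h s
  -- integrate the certificate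
  obtain ⟨hl1, hl2⟩ := LS_list (s := s) (b := b) hH hb0 rels
    (fun x z => (x.1 s * relS s b (cc H z) x.2.1 x.2.2).re)
    (fun x _ => cont_rel h s b (x.1 s) x.2.1 x.2.2)
  have hm : LS s H b (fun z => η * ‖cc H z 0‖ ^ 2)
      ≤ LS s H b (fun z => q s (cc H z)
        + (rels.map (fun x => (x.1 s * relS s b (cc H z) x.2.1 x.2.2).re)).sum) :=
    LS_mono hH hb0 (continuousOn_const.mul hc0) (hqc.add hl2) (fun z _ => hcs (cc H z))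
  rw [LS_smul, LS_add hH hb0 hqc hl2, hl1] at hm
  have hr := hrel ρ β H Φ h s b (CZ / ‖s‖ ^ 2) hb0 hb1 hs20 hζs
  have hLc : LS s H b (fun z => ‖cc H z 0‖ ^ 2) ≤ (2 / η) * (C1 + K0 * CZ) / ‖s‖ ^ 2 := by
    have h3 : η / 2 * LS s H b (fun z => ‖cc H z 0‖ ^ 2) ≤ (C1 + K0 * CZ) / ‖s‖ ^ 2 := by
      have e : (C1 + K0 * CZ) / ‖s‖ ^ 2 = C1 / ‖s‖ ^ 2 + K0 * (CZ / ‖s‖ ^ 2) := by ring
      rw [e]
      linarith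
    have h4 : LS s H b (fun z => ‖cc H z 0‖ ^ 2)
        = 2 / η * (η / 2 * LS s H b (fun z => ‖cc H z 0‖ ^ 2)) := by
      field_simp
    rw [h4, mul_div_assoc]
    exact mul_le_mul_of_nonneg_left h3 (by positivity)
  -- the relation R2
  have hk1 : LS s H b (fun z => ‖cc H z 0‖ ^ 2 + (-((b + 1) / (4 * a))) * 1)
      = LS s H b (fun z => ((((b + 1) / (4 * ‖s‖ ^ 2) : ℝ) : ℂ) * relS s b (cc H z) [] []).re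
        + (-(1 / (2 * s)) * relS s b (cc H z) [] [0]).re) := by
    apply LS_congr
    intro z _
    rw [← R2_id hs ha0 hbdef (cc H z)]
    ring
  rw [LS_add hH hb0 hc0 continuousOn_const, LS_smul,
    LS_add hH hb0 (cont_rel h s b _ _ _) (cont_rel h s b _ _ _)] at hk1
  have he1 := hr1 ρ β H Φ h s (((b + 1) / (4 * ‖s‖ ^ 2) : ℝ) : ℂ) b (1 / ‖s‖ ^ 2) hb0 hb1 hs20
    (by
      rw [Complex.norm_real, Real.norm_of_nonneg (by positivity), div_le_div_iff₀ (by positivity)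
        hn2]
      nlinarith)
  have he2 := hr2 ρ β H Φ h s (-(1 / (2 * s))) b (1 / ‖s‖ ^ 2) hb0 hb1 hs20
    (by
      rw [norm_neg, norm_div, norm_mul, norm_one, Complex.norm_ofNat,
        div_le_div_iff₀ (by positivity) hn2]
      nlinarith)
  have g1 := (abs_le.mp he1).1
  have g2 := (abs_le.mp he2).1
  have hL1 : (b + 1) / (4 * a) * LS s H b (fun _ => 1)
      ≤ ((2 / η) * (C1 + K0 * CZ) + K1 + K2) / ‖s‖ ^ 2 := by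
    have e : ((2 / η) * (C1 + K0 * CZ) + K1 + K2) / ‖s‖ ^ 2
        = (2 / η) * (C1 + K0 * CZ) / ‖s‖ ^ 2 + K1 * (1 / ‖s‖ ^ 2) + K2 * (1 / ‖s‖ ^ 2) := by ring
    rw [e]
    linarith
  have hL0 : 0 ≤ LS s H b (fun _ => 1) :=
    LS_nonneg hH hb0 continuousOn_const (fun _ _ => zero_le_one)
  have h5 : 1 / (4 * a) * LS s H b (fun _ => 1) ≤ (b + 1) / (4 * a) * LS s H b (fun _ => 1) := by
    apply mul_le_mul_of_nonneg_right _ hL0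
    apply div_le_div_of_nonneg_right _ (by positivity)
    linarith
  have h6 := h5.trans hL1
  calc b * LS s H b (fun _ => 1) = 4 * ‖s‖ ^ 2 * (1 / (4 * a) * LS s H b (fun _ => 1)) := by
        rw [hbdef]
        field_simp
    _ ≤ 4 * ‖s‖ ^ 2 * (((2 / η) * (C1 + K0 * CZ) + K1 + K2) / ‖s‖ ^ 2) :=
        mul_le_mul_of_nonneg_left h6 (by positivity)
    _ = 4 * ((2 / η) * (C1 + K0 * CZ) + K1 + K2) := by
        field_simp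

/-- the region of small exponents, four moments; the multipliers may grow like `1 / |s|^2` -/
theorem core_small_t' {a : ℝ} (ha : 1 / 2 ≤ a) (ha1 : a < 1) {s0 : ℝ} (hs0 : s0 ≤ 1 / 20)
    (T Q : ℂ → ℕ → ℕ → ℂ) {CT : ℝ} (hT : ∀ s : ℂ, ‖s‖ ≤ s0 → ∀ n r, ‖T s n r‖ ≤ CT)
    (hQb : ∀ s : ℂ, ‖s‖ ≤ s0 → ∀ r t, ‖Q s r t‖ ≤ CT)
    (hQ : ∀ s : ℂ, s ≠ 0 → ‖s‖ ≤ s0 → ∀ g : ℕ → ℂ, hF 4 (Q s) g
      ≤ (1 - 20 * ‖s‖ ^ 2) * (linF s 4 7 g (Tg 4 (T s) g)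
          - gamF s (‖s‖ ^ 2 / a) 7 (Tg 4 (T s) g))
        - a / 2 * (1 + 20 * ‖s‖ ^ 2) * ‖g 0‖ ^ 2)
    (rels : List ((ℂ → ℂ) × List ℕ × List ℕ)) {CZ : ℝ}
    (hζ : ∀ x ∈ rels, ∀ s : ℂ, s ≠ 0 → ‖s‖ ≤ s0 → ‖x.1 s‖ ≤ CZ / ‖s‖ ^ 2)
    {η : ℝ} (hη : 0 < η)
    (hc : ∀ s : ℂ, s ≠ 0 → ‖s‖ ≤ s0 → ∀ c : ℕ → ℂ, η * ‖c 0‖ ^ 2 ≤ qYT (Q s) s (‖s‖ ^ 2 / a) c
      + (rels.map (fun x => (x.1 s * relS s (‖s‖ ^ 2 / a) c x.2.1 x.2.2).re)).sum) :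
    ∃ C : ℝ, ∀ s : ℂ, s ≠ 0 → ‖s‖ ≤ s0 → ∀ (ρ : ℝ) (β H : ℂ → ℂ) (Φ : ℂ → ℂ → ℂ),
      Dat ρ β H Φ → ‖s‖ ^ 2 / a * LS s H (‖s‖ ^ 2 / a) (fun _ => 1) ≤ C :=
  core_small_gen ha hs0 (fun s c => qYT (Q s) s (‖s‖ ^ 2 / a) c)
    (fun _ _ _ _ h s => cont_qYT h (Q s) s (‖s‖ ^ 2 / a)) rels hζ hη
    (area_form_small_t ha ha1 hs0 T Q hT hQb hQ (half_pos hη)) hc

/-- the version with one multiplier for each pair -/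
theorem core_small_t {a : ℝ} (ha : 1 / 2 ≤ a) (ha1 : a < 1) {s0 : ℝ} (hs0 : s0 ≤ 1 / 20)
    (T Q : ℂ → ℕ → ℕ → ℂ) {CT : ℝ} (hT : ∀ s : ℂ, ‖s‖ ≤ s0 → ∀ n r, ‖T s n r‖ ≤ CT)
    (hQb : ∀ s : ℂ, ‖s‖ ≤ s0 → ∀ r t, ‖Q s r t‖ ≤ CT)
    (hQ : ∀ s : ℂ, s ≠ 0 → ‖s‖ ≤ s0 → ∀ g : ℕ → ℂ, hF 4 (Q s) g
      ≤ (1 - 20 * ‖s‖ ^ 2) * (linF s 4 7 g (Tg 4 (T s) g)
          - gamF s (‖s‖ ^ 2 / a) 7 (Tg 4 (T s) g))
        - a / 2 * (1 + 20 * ‖s‖ ^ 2) * ‖g 0‖ ^ 2)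
    (prs : List (List ℕ × List ℕ))
    (ζ : ℂ → List ℕ → List ℕ → ℂ)
    (hζ : ∀ s : ℂ, s ≠ 0 → ‖s‖ ≤ s0 → ∀ A B, ‖ζ s A B‖ ≤ CT / ‖s‖ ^ 2)
    {η : ℝ} (hη : 0 < η)
    (hc : ∀ s : ℂ, s ≠ 0 → ‖s‖ ≤ s0 → ∀ c : ℕ → ℂ, η * ‖c 0‖ ^ 2 ≤ qYT (Q s) s (‖s‖ ^ 2 / a) c
      + (prs.map (fun x => (ζ s x.1 x.2 * relS s (‖s‖ ^ 2 / a) c x.1 x.2).re)).sum) :
    ∃ C : ℝ, ∀ s : ℂ, s ≠ 0 → ‖s‖ ≤ s0 → ∀ (ρ : ℝ) (β H : ℂ → ℂ) (Φ : ℂ → ℂ → ℂ),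
      Dat ρ β H Φ → ‖s‖ ^ 2 / a * LS s H (‖s‖ ^ 2 / a) (fun _ => 1) ≤ C := by
  refine core_small_t' ha ha1 hs0 T Q hT hQb hQ
    (prs.map fun x => ((fun s => ζ s x.1 x.2), x.1, x.2)) (CZ := CT) ?_ hη ?_
  · intro x hx s hs hss
    obtain ⟨y, _, rfl⟩ := List.mem_map.mp hx
    exact hζ s hs hss y.1 y.2
  · intro s hs hss c
    rw [List.map_map]
    exact hc s hs hss c

end Pool.Agent.Helper24.HR2
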